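import Pool.Agent.H461R3.E3.Fin

set_option autoImplicit false
set_option linter.unusedSectionVars false

/-! Finite-dimensional nilpotent subalgebras of anticommutative 3-Engel algebras act
nilpotently. -/

namespace Pool.Agent.H461R3.E3

universe u v w

variable {A : Type v} [NonUnitalNonAssocRing A]

/-- the two polarised identities that are needed -/
structure Act (A : Type v) [NonUnitalNonAssocRing A] : Prop where
  sw : ∀ m a y z : A, ((m * a) * y) * z + ((m * a) * z) * y + (m * (a * y)) * z +
    (m * (a * z)) * y + m * ((a * y) * z) + m * ((a * z) * y) = 0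
  dup : ∀ m a y : A, ((m * a) * y) * y + (m * (a * y)) * y + m * ((a * y) * y) = 0

variable {ι : Type w}

/-- value of the word with letters `x i` applied to `m` -/
def ev (x : ι → A) (m : A) (l : List ι) : A := l.foldl (fun u i => u * x i) m

theorem ev_nil (x : ι → A) (m : A) : ev x m [] = m := rfl

theorem ev_cons (x : ι → A) (m : A) (i : ι) (l : List ι) :
    ev x m (i :: l) = ev x (m * x i) l := rfl

theorem ev_append (x : ι → A) (m : A) (l l' : List ι) :
    ev x m (l ++ l') = ev x (ev x m l) l' := by
  simp [ev, List.foldl_append]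

theorem ev_add (x : ι → A) (l : List ι) : ∀ m n : A, ev x (m + n) l = ev x m l + ev x n l := by
  induction l with
  | nil => intro m n; rfl
  | cons i l ih => intro m n; rw [ev_cons, ev_cons, ev_cons, add_mul, ih]

theorem ev_zero (x : ι → A) (l : List ι) : ev x 0 l = 0 := by
  have := ev_add x l 0 0
  rw [add_zero] at this
  exact left_eq_add.1 this

theorem ev_neg (x : ι → A) (l : List ι) (m : A) : ev x (-m) l = -ev x m l := by
  have := ev_add x l (-m) m
  rw [neg_add_cancel, ev_zero] at this
  exact eq_neg_of_add_eq_zero_left this.symm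

variable {F : Type u} [Field F] [Module F A]

theorem ev_smul [IsScalarTower F A A] (x : ι → A) (l : List ι) (c : F) :
    ∀ m : A, ev x (c • m) l = c • ev x m l := by
  induction l with
  | nil => intro m; rfl
  | cons i l ih => intro m; rw [ev_cons, ev_cons, smul_mul_assoc, ih]

theorem exists_dup (l : List ι) (h : ¬ l.Nodup) :
    ∃ p y r q, l = p ++ y :: (r ++ y :: q) := by
  induction l with
  | nil => exact absurd List.nodup_nil h
  | cons a l ih =>
    by_cases ha : a ∈ l
    · obtain ⟨r, q, hrq⟩ := List.append_of_mem ha
      exact ⟨[], a, r, q, by simp [hrq]⟩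
    · have : ¬ l.Nodup := fun hn => h (List.nodup_cons.2 ⟨ha, hn⟩)
      obtain ⟨p, y, r, q, e⟩ := ih this
      exact ⟨a :: p, y, r, q, by simp [e]⟩

section core

variable [IsScalarTower F A A] [SMulCommClass F A A]

/-- span of the letters of weight at least `n` -/
def P (F : Type u) [Field F] {A : Type v} [NonUnitalNonAssocRing A] [Module F A]
    {ι : Type w} (x : ι → A) (wt : ι → ℕ) (n : ℕ) : Submodule F A :=
  Submodule.span F {a | ∃ i, n ≤ wt i ∧ a = x i}

theorem P_mul {x : ι → A} {wt : ι → ℕ} (hmul : ∀ i j, x i * x j ∈ P F x wt (wt i + wt j))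
    {n : ℕ} {a : A} (ha : a ∈ P F x wt n) (j : ι) : a * x j ∈ P F x wt (n + wt j) := by
  unfold P at ha
  refine Submodule.span_induction (p := fun a _ => a * x j ∈ P F x wt (n + wt j)) ?_ ?_ ?_ ?_ ha
  · rintro a ⟨i, hi, rfl⟩
    refine (Submodule.span_mono ?_) (hmul i j)
    rintro b ⟨l, hl, rfl⟩
    exact ⟨l, by omega, rfl⟩
  · rw [zero_mul]; exact Submodule.zero_mem _
  · intro y z _ _ h1 h2
    rw [add_mul]; exact Submodule.add_mem _ h1 h2
  · intro c y _ h1
    rw [smul_mul_assoc]; exact Submodule.smul_mem _ c h1

/-- all words of length `k` and weight at least `W` vanish -/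
def Z (x : ι → A) (wt : ι → ℕ) (W k : ℕ) : Prop :=
  ∀ l : List ι, l.length = k → W ≤ (l.map wt).sum → ∀ m : A, ev x m l = 0

theorem Z_span {x : ι → A} {wt : ι → ℕ} {W k : ℕ} (hZ : Z x wt W k) (p q : List ι)
    (hk : p.length + 1 + q.length = k) {n : ℕ} (hW : W ≤ (p.map wt).sum + n + (q.map wt).sum)
    {a : A} (ha : a ∈ P F x wt n) (m : A) : ev x (ev x m p * a) q = 0 := by
  unfold P at ha
  refine Submodule.span_induction (p := fun a _ => ev x (ev x m p * a) q = 0) ?_ ?_ ?_ ?_ ha
  · rintro a ⟨i, hi, rfl⟩
    have := hZ (p ++ i :: q) (by simp; omega) (by simp; omega) m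
    rwa [ev_append, ev_cons] at this
  · rw [mul_zero, ev_zero]
  · intro y z _ _ h1 h2
    rw [mul_add, ev_add, h1, h2, add_zero]
  · intro c y _ h1
    rw [mul_smul_comm, ev_smul, h1, smul_zero]

theorem swap_adj (hA : Act A) {x : ι → A} {wt : ι → ℕ}
    (hmul : ∀ i j, x i * x j ∈ P F x wt (wt i + wt j)) {W k : ℕ}
    (h1 : Z x wt W (k + 2)) (h2 : Z x wt W (k + 1)) (p q : List ι) (a y z : ι)
    (hk : p.length + q.length = k) (hW : W ≤ (p.map wt).sum + wt a + wt y + wt z +
      (q.map wt).sum) (m : A) :
    ev x m (p ++ a :: y :: z :: q) = -ev x m (p ++ a :: z :: y :: q) := by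
  have key := congrArg (fun u => ev x u q) (hA.sw (ev x m p) (x a) (x y) (x z))
  simp only [ev_add, ev_zero] at key
  have t1 : ev x (ev x m p * (x a * x y) * x z) q = 0 := by
    have := Z_span h1 p (z :: q) (by simp; omega) (n := wt a + wt y) (by simp; omega)
      (hmul a y) m
    rwa [ev_cons] at this
  have t2 : ev x (ev x m p * (x a * x z) * x y) q = 0 := by
    have := Z_span h1 p (y :: q) (by simp; omega) (n := wt a + wt z) (by simp; omega)
      (hmul a z) m
    rwa [ev_cons] at this
  have t3 : ev x (ev x m p * (x a * x y * x z)) q = 0 :=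
    Z_span h2 p q (by omega) (n := wt a + wt y + wt z) (by omega) (P_mul hmul (hmul a y) z) m
  have t4 : ev x (ev x m p * (x a * x z * x y)) q = 0 :=
    Z_span h2 p q (by omega) (n := wt a + wt z + wt y) (by omega) (P_mul hmul (hmul a z) y) m
  rw [t1, t2, t3, t4, add_zero, add_zero, add_zero, add_zero] at key
  rw [ev_append, ev_append]
  exact eq_neg_of_add_eq_zero_left key

theorem dup_adj (hA : Act A) {x : ι → A} {wt : ι → ℕ}
    (hmul : ∀ i j, x i * x j ∈ P F x wt (wt i + wt j)) {W k : ℕ}
    (h1 : Z x wt W (k + 2)) (h2 : Z x wt W (k + 1)) (p q : List ι) (a y : ι)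
    (hk : p.length + q.length = k) (hW : W ≤ (p.map wt).sum + wt a + wt y + wt y +
      (q.map wt).sum) (m : A) :
    ev x m (p ++ a :: y :: y :: q) = 0 := by
  have key := congrArg (fun u => ev x u q) (hA.dup (ev x m p) (x a) (x y))
  simp only [ev_add, ev_zero] at key
  have t1 : ev x (ev x m p * (x a * x y) * x y) q = 0 := by
    have := Z_span h1 p (y :: q) (by simp; omega) (n := wt a + wt y) (by simp; omega)
      (hmul a y) m
    rwa [ev_cons] at this
  have t3 : ev x (ev x m p * (x a * x y * x y)) q = 0 :=
    Z_span h2 p q (by omega) (n := wt a + wt y + wt y) (by omega) (P_mul hmul (hmul a y) y) m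
  rw [t1, t3, add_zero, add_zero] at key
  rw [ev_append]
  exact key

/-- a word with a repeated letter after the first position vanishes -/
theorem dup_far (hA : Act A) {x : ι → A} {wt : ι → ℕ}
    (hmul : ∀ i j, x i * x j ∈ P F x wt (wt i + wt j)) {W k : ℕ}
    (h1 : Z x wt W (k + 2)) (h2 : Z x wt W (k + 1)) (m : A) (y : ι) :
    ∀ (n : ℕ) (r : List ι), r.length = n → ∀ (a : ι) (p q : List ι),
      p.length + r.length + q.length = k →
      W ≤ (p.map wt).sum + wt a + wt y + (r.map wt).sum + wt y + (q.map wt).sum →
      ev x m (p ++ a :: y :: (r ++ y :: q)) = 0 := by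
  intro n
  induction n with
  | zero =>
    intro r hr a p q hk hW
    have hr' : r = [] := List.length_eq_zero_iff.1 hr
    subst hr'
    exact dup_adj hA hmul h1 h2 p q a y (by simpa using hk) (by simpa using hW) m
  | succ n ih =>
    intro r hr a p q hk hW
    obtain ⟨z, r', rfl⟩ : ∃ z r', r = z :: r' := by
      cases r with
      | nil => simp at hr
      | cons z r' => exact ⟨z, r', rfl⟩
    simp only [List.length_cons, List.map_cons, List.sum_cons] at hr hk hW
    have e := swap_adj hA hmul h1 h2 p (r' ++ y :: q) a y z (by simp; omega)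
      (by simp; omega) m
    rw [List.cons_append, e]
    have e2 := ih r' (by omega) z (p ++ [a]) q (by simp; omega) (by simp; omega)
    rw [List.append_assoc] at e2
    simp only [List.singleton_append] at e2
    rw [e2, neg_zero]

theorem core [Fintype ι] (hA : Act A) {x : ι → A} {wt : ι → ℕ} {N : ℕ} (hN : ∀ i, wt i ≤ N)
    (hmul : ∀ i j, x i * x j ∈ P F x wt (wt i + wt j)) {W : ℕ}
    (hW : (Fintype.card ι + 1) * N < W) : ∀ k, Z x wt W k := by
  have bound : ∀ l : List ι, (l.map wt).sum ≤ l.length * N := by
    intro l
    induction l with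
    | nil => simp
    | cons a l ih =>
      simp only [List.map_cons, List.sum_cons, List.length_cons]
      have := hN a
      nlinarith
  intro k
  induction k using Nat.strong_induction_on with
  | _ k ih =>
    intro l hl hw m
    have hk : Fintype.card ι + 1 < k := by
      by_contra hk
      push Not at hk
      have h1 := bound l
      have h2 : l.length * N ≤ (Fintype.card ι + 1) * N := Nat.mul_le_mul_right N (by omega)
      omega
    cases l with
    | nil => simp at hl; omega
    | cons a t =>
      simp only [List.length_cons] at hl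
      have hnd : ¬ t.Nodup := by
        intro hn
        have := hn.length_le_card
        omega
      obtain ⟨p, y, r, q, rfl⟩ := exists_dup t hnd
      simp only [List.length_append, List.length_cons] at hl
      simp only [List.map_cons, List.map_append, List.sum_cons, List.sum_append] at hw
      have h1 := ih ((p.length + r.length + q.length) + 2) (by omega)
      have h2 := ih ((p.length + r.length + q.length) + 1) (by omega)
      rcases List.eq_nil_or_concat p with rfl | ⟨p', b, rfl⟩
      · simp only [List.length_nil, List.map_nil, List.sum_nil] at *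
        have := dup_far hA hmul h1 h2 m y r.length r rfl a [] q (by simp) (by simp; omega)
        simpa using this
      · simp only [List.length_append, List.length_singleton, List.concat_eq_append] at *
        simp only [List.map_append, List.map_cons, List.map_nil, List.sum_append, List.sum_cons,
          List.sum_nil] at hw
        have := dup_far hA hmul h1 h2 m y r.length r rfl b (a :: p') q (by simp)
          (by simp; omega)
        simpa using this

end core

end Pool.Agent.H461R3.E3
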