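import Pool.Agent.H461R3.E3.Act

set_option autoImplicit false
set_option linter.unusedSectionVars false

/-! Finite-dimensional nilpotent subalgebras of anticommutative 3-Engel algebras act
nilpotently: conclusion. -/

namespace Pool.Agent.H461R3.E3

universe u v w

variable {F : Type u} [Field F] {A : Type v} [NonUnitalNonAssocRing A] [Module F A]
variable [IsScalarTower F A A] [SMulCommClass F A A]

theorem act_of (hF : ∃ m : F, m ≠ 0 ∧ m ≠ 1) (h0 : Anticommutative A)
    (h1 : ThreeEngel A) : Act A := by
  obtain ⟨c, hc, hc1⟩ := hF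
  have ac : ∀ x y : A, x * y = -(y * x) := by
    intro x y
    have h2 := h0 (x + y)
    rw [add_mul, mul_add, mul_add, h0 x, h0 y, zero_add, add_zero] at h2
    exact eq_neg_of_add_eq_zero_left h2
  have e2 := fun x y z : A => pol2 h1 hc hc1 x y z
  have e3 : ∀ x y z t : A, ((x * y) * z) * t + ((x * y) * t) * z + ((x * z) * y) * t +
    ((x * z) * t) * y + ((x * t) * y) * z + ((x * t) * z) * y = 0 := by
    intro x y z t
    have ha := e2 x (y + z) t
    have hb := e2 x y t
    have hd := e2 x z t
    simp only [add_mul, mul_add] at ha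
    linear_combination (norm := module) ha - hb - hd
  refine ⟨?_, ?_⟩
  · intro m a y z
    have h := e3 a m y z
    rw [ac a m, ac (a * y) m, ac (a * z) m, ac (a * y * z) m, ac (a * z * y) m] at h
    simp only [neg_mul] at h
    linear_combination (norm := module) -h
  · intro m a y
    have h := e2 a y m
    rw [ac (a * y * y) m, ac (a * y) m, ac a m] at h
    simp only [neg_mul] at h
    linear_combination (norm := module) -h

theorem letters {ι : Type w} (x : ι → A) {K : ℕ}
    (hZ : ∀ l : List ι, l.length = K → ∀ m : A, ev x m l = 0) (m : A) :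
    ∀ (l : List A) (p : List ι), p.length + l.length = K →
      (∀ e ∈ l, e ∈ Submodule.span F (Set.range x)) → ev (fun a : A => a) (ev x m p) l = 0 := by
  intro l
  induction l with
  | nil =>
    intro p hp _
    rw [ev_nil]
    exact hZ p (by simpa using hp) m
  | cons e l ih =>
    intro p hp he
    rw [ev_cons]
    have he' := he e (by simp)
    have hl : ∀ e ∈ l, e ∈ Submodule.span F (Set.range x) := fun e' h' => he e' (by simp [h'])
    refine Submodule.span_induction
      (p := fun e _ => ev (fun a : A => a) (ev x m p * e) l = 0) ?_ ?_ ?_ ?_ he'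
    · rintro e ⟨i, rfl⟩
      have := ih (p ++ [i]) (by simp at hp ⊢; omega) hl
      rwa [ev_append, ev_cons, ev_nil] at this
    · rw [mul_zero, ev_zero]
    · intro y z _ _ h1 h2
      rw [mul_add, ev_add, h1, h2, add_zero]
    · intro c y _ h1
      rw [mul_smul_comm, ev_smul, h1, smul_zero]

theorem sum_ge {ι : Type w} {wt : ι → ℕ} (hw : ∀ i, 1 ≤ wt i) :
    ∀ l : List ι, l.length ≤ (l.map wt).sum := by
  intro l
  induction l with
  | nil => simp
  | cons a l ih =>
    simp only [List.map_cons, List.sum_cons, List.length_cons]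
    have := hw a
    omega

/-- the core statement with letters in the span -/
theorem core_span {ι : Type w} [Fintype ι] (hA : Act A) {x : ι → A} {wt : ι → ℕ} {N : ℕ}
    (hN : ∀ i, wt i ≤ N) (hw : ∀ i, 1 ≤ wt i)
    (hmul : ∀ i j, x i * x j ∈ P F x wt (wt i + wt j)) {K : ℕ}
    (hK : (Fintype.card ι + 1) * N < K) (m : A) (l : List A) (hl : l.length = K)
    (he : ∀ e ∈ l, e ∈ Submodule.span F (Set.range x)) : l.foldl (fun u e => u * e) m = 0 := by
  have hZ : ∀ l : List ι, l.length = K → ∀ m : A, ev x m l = 0 := by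
    intro l hl m
    exact core hA hN hmul hK K l hl (by have := sum_ge hw l; omega) m
  exact letters x hZ m l [] (by simpa using hl) he

theorem isProd_pos {S : Set A} {k : ℕ} {y : A} (h : IsProd S k y) : 1 ≤ k := by
  induction h with
  | base _ => exact le_rfl
  | mul _ _ h1 h2 => omega

theorem isProd_mem {E : NonUnitalSubalgebra F A} {k : ℕ} {y : A} (h : IsProd (E : Set A) k y) :
    y ∈ E := by
  induction h with
  | base h => exact h
  | mul _ _ h1 h2 => exact mul_mem h1 h2

theorem isProd_down {E : NonUnitalSubalgebra F A} {k : ℕ} {y : A} (h : IsProd (E : Set A) k y) :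
    ∀ N, 1 ≤ N → N ≤ k → IsProd (E : Set A) N y := by
  induction h with
  | base h =>
    intro N h1 h2
    obtain rfl : N = 1 := by omega
    exact IsProd.base h
  | @mul m n a b ha hb iha ihb =>
    intro N h1 h2
    have hm := isProd_pos ha
    have hn := isProd_pos hb
    by_cases hN : N = 1
    · subst hN
      exact IsProd.base (mul_mem (isProd_mem ha) (isProd_mem hb))
    · by_cases hNn : N ≤ n
      · have h3 := IsProd.mul (iha 1 le_rfl hm) (ihb (N - 1) (by omega) (by omega))
        have h4 : 1 + (N - 1) = N := by omega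
        rwa [h4] at h3
      · have h3 := IsProd.mul (iha (N - n) (by omega) (by omega)) hb
        have h4 : N - n + n = N := by omega
        rwa [h4] at h3

/-- span of the products of at least `n` elements of `E` -/
def PE (E : NonUnitalSubalgebra F A) (n : ℕ) : Submodule F A :=
  Submodule.span F {y | ∃ k, n ≤ k ∧ IsProd (E : Set A) k y}

theorem PE_mul (E : NonUnitalSubalgebra F A) {m n : ℕ} {x y : A} (hx : x ∈ PE E m)
    (hy : y ∈ PE E n) : x * y ∈ PE E (m + n) := by
  unfold PE at hx
  refine Submodule.span_induction (p := fun x _ => x * y ∈ PE E (m + n)) ?_ ?_ ?_ ?_ hx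
  · rintro x ⟨k, hk, hx⟩
    unfold PE at hy
    refine Submodule.span_induction (p := fun y _ => x * y ∈ PE E (m + n)) ?_ ?_ ?_ ?_ hy
    · rintro y ⟨l, hl, hy⟩
      exact Submodule.subset_span ⟨k + l, by omega, IsProd.mul hx hy⟩
    · rw [mul_zero]; exact Submodule.zero_mem _
    · intro y z _ _ h1 h2
      rw [mul_add]; exact Submodule.add_mem _ h1 h2
    · intro c y _ h1
      rw [mul_smul_comm]; exact Submodule.smul_mem _ c h1
  · rw [zero_mul]; exact Submodule.zero_mem _
  · intro y z _ _ h1 h2
    rw [add_mul]; exact Submodule.add_mem _ h1 h2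
  · intro c y _ h1
    rw [smul_mul_assoc]; exact Submodule.smul_mem _ c h1

theorem PE_le (E : NonUnitalSubalgebra F A) (n : ℕ) : PE E n ≤ E.toSubmodule := by
  apply Submodule.span_le.2
  rintro y ⟨k, _, hy⟩
  exact isProd_mem hy

theorem PE_bot (E : NonUnitalSubalgebra F A) {c : ℕ}
    (hE : ∀ x : A, IsProd (E : Set A) (c + 1) x → x = 0) {n : ℕ} (hn : c < n) :
    PE E n = ⊥ := by
  rw [eq_bot_iff]
  apply Submodule.span_le.2
  rintro y ⟨k, hk, hy⟩
  exact hE y (isProd_down hy (c + 1) (by omega) (by omega))

/-- A finite-dimensional nilpotent subalgebra acts nilpotently. -/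
theorem nilp_acts (hA : Act A) (E : NonUnitalSubalgebra F A) [FiniteDimensional F E] (c : ℕ)
    (hE : ∀ x : A, IsProd (E : Set A) (c + 1) x → x = 0) (m : A) (l : List A)
    (hl : l.length = (c * Module.finrank F E + 1) * c + 1) (he : ∀ e ∈ l, e ∈ E) :
    l.foldl (fun u e => u * e) m = 0 := by
  have hfd : ∀ n, FiniteDimensional F (PE E n) := by
    intro n
    haveI : FiniteDimensional F E.toSubmodule := ‹FiniteDimensional F E›
    exact Submodule.finiteDimensional_of_le (PE_le E n)
  have hfr : ∀ n, Module.finrank F (PE E n) ≤ Module.finrank F E := by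
    intro n
    haveI : FiniteDimensional F E.toSubmodule := ‹FiniteDimensional F E›
    exact Submodule.finrank_mono (PE_le E n)
  let B : ∀ n : ℕ, Module.Basis (Fin (Module.finrank F (PE E n))) F (PE E n) :=
    fun n => Module.finBasis F (PE E n)
  let ι := Σ n : Fin c, Fin (Module.finrank F (PE E (n + 1)))
  let x : ι → A := fun i => (B (i.1 + 1) i.2 : A)
  let wt : ι → ℕ := fun i => i.1 + 1
  have hx : ∀ i : ι, x i ∈ PE E (wt i) := fun i => (B (i.1 + 1) i.2).2
  have hspan : ∀ n, 1 ≤ n → PE E n ≤ P F x wt n := by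
    intro n hn y hy
    by_cases hc : c < n
    · rw [PE_bot E hE hc] at hy
      rw [(Submodule.mem_bot F).1 hy]
      exact Submodule.zero_mem _
    · obtain ⟨k, rfl⟩ : ∃ k, n = k + 1 := ⟨n - 1, by omega⟩
      have h1 := (B (k + 1)).sum_repr ⟨y, hy⟩
      have h2 := congrArg (fun z : PE E (k + 1) => (z : A)) h1
      simp only [Submodule.coe_sum, Submodule.coe_smul] at h2
      rw [← h2]
      refine Submodule.sum_mem _ fun j _ => Submodule.smul_mem _ _ ?_
      exact Submodule.subset_span ⟨(⟨⟨k, by omega⟩, j⟩ : ι), le_rfl, rfl⟩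
  have hmul : ∀ i j, x i * x j ∈ P F x wt (wt i + wt j) := by
    intro i j
    exact hspan _ (by simp only [wt]; omega) (PE_mul E (hx i) (hx j))
  have hcard : Fintype.card ι ≤ c * Module.finrank F E := by
    simp only [ι, Fintype.card_sigma, Fintype.card_fin]
    calc _ ≤ ∑ _n : Fin c, Module.finrank F E := Finset.sum_le_sum fun n _ => hfr _
      _ = _ := by simp
  refine core_span hA (N := c) (wt := wt) (x := x) ?_ ?_ hmul ?_ m l hl ?_
  · intro i; have := i.1.2; simp only [wt]; omega
  · intro i; simp only [wt]; omega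
  · have := Nat.mul_le_mul_right c (Nat.succ_le_succ hcard)
    simp only [Nat.succ_eq_add_one] at this
    omega
  · intro e hel
    have h1 : e ∈ PE E 1 := Submodule.subset_span ⟨1, le_rfl, IsProd.base (he e hel)⟩
    have h2 := hspan 1 le_rfl h1
    refine (Submodule.span_mono ?_) h2
    rintro a ⟨i, _, rfl⟩
    exact ⟨i, rfl⟩

end Pool.Agent.H461R3.E3
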