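import Mathlib

/-! Anticommutative 3-Engel algebras without 3-torsion generated by two elements: polarised
identities and the 41 basis monomials. -/

set_option autoImplicit false
set_option linter.all false
set_option linter.unusedSimpArgs false
set_option linter.unusedVariables false

namespace Pool.Agent.H461R3.E3

universe u

/-- The polarised identities of an anticommutative 3-Engel algebra without 3-torsion. -/
structure Eng (A : Type u) [NonUnitalNonAssocRing A] : Prop where
  sq : ∀ x : A, x * x = 0
  e1 : ∀ x y : A, ((x * y) * y) * y = 0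
  e2 : ∀ x y z : A, ((x * y) * y) * z + ((x * y) * z) * y + ((x * z) * y) * y = 0
  e3 : ∀ x y z t : A, ((x * y) * z) * t + ((x * y) * t) * z + ((x * z) * y) * t +
    ((x * z) * t) * y + ((x * t) * y) * z + ((x * t) * z) * y = 0
  tor : ∀ x : A, x + x + x = 0 → x = 0

variable {A : Type u} [NonUnitalNonAssocRing A]

theorem Eng.ac (h : Eng A) (x y : A) : x * y = -(y * x) := by
  have h1 := h.sq (x + y)
  rw [add_mul, mul_add, mul_add, h.sq x, h.sq y, zero_add, add_zero] at h1
  exact eq_neg_of_add_eq_zero_left h1

theorem Eng.cancel (h : Eng A) {x y : A} (hxy : x + x + x = y + y + y) : x = y := by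
  have h1 := h.tor (x - y) (by
    have : x - y + (x - y) + (x - y) = (x + x + x) - (y + y + y) := by abel
    rw [this, hxy, sub_self])
  exact sub_eq_zero.1 h1

/-- basis monomial 0 -/
def w0 (a _b : A) : A := a
/-- basis monomial 1 -/
def w1 (_a b : A) : A := b
/-- basis monomial 2, of degree 2 -/
def w2 (a b : A) : A := w1 a b * w0 a b
/-- basis monomial 3, of degree 3 -/
def w3 (a b : A) : A := w2 a b * w0 a b
/-- basis monomial 4, of degree 3 -/
def w4 (a b : A) : A := w2 a b * w1 a b
/-- basis monomial 5, of degree 4 -/
def w5 (a b : A) : A := w3 a b * w1 a b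
/-- basis monomial 6, of degree 5 -/
def w6 (a b : A) : A := w3 a b * w2 a b
/-- basis monomial 7, of degree 5 -/
def w7 (a b : A) : A := w4 a b * w2 a b
/-- basis monomial 8, of degree 6 -/
def w8 (a b : A) : A := w4 a b * w3 a b
/-- basis monomial 9, of degree 7 -/
def w9 (a b : A) : A := w8 a b * w0 a b
/-- basis monomial 10, of degree 7 -/
def w10 (a b : A) : A := w8 a b * w1 a b
/-- basis monomial 11, of degree 8 -/
def w11 (a b : A) : A := w8 a b * w2 a b
/-- basis monomial 12, of degree 8 -/
def w12 (a b : A) : A := w9 a b * w1 a b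
/-- basis monomial 13, of degree 9 -/
def w13 (a b : A) : A := w8 a b * w3 a b
/-- basis monomial 14, of degree 9 -/
def w14 (a b : A) : A := w9 a b * w2 a b
/-- basis monomial 15, of degree 9 -/
def w15 (a b : A) : A := w8 a b * w4 a b
/-- basis monomial 16, of degree 9 -/
def w16 (a b : A) : A := w10 a b * w2 a b
/-- basis monomial 17, of degree 10 -/
def w17 (a b : A) : A := w9 a b * w3 a b
/-- basis monomial 18, of degree 10 -/
def w18 (a b : A) : A := w8 a b * w5 a b
/-- basis monomial 19, of degree 10 -/
def w19 (a b : A) : A := w9 a b * w4 a b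
/-- basis monomial 20, of degree 10 -/
def w20 (a b : A) : A := w10 a b * w3 a b
/-- basis monomial 21, of degree 10 -/
def w21 (a b : A) : A := w10 a b * w4 a b
/-- basis monomial 22, of degree 11 -/
def w22 (a b : A) : A := w8 a b * w6 a b
/-- basis monomial 23, of degree 11 -/
def w23 (a b : A) : A := w9 a b * w5 a b
/-- basis monomial 24, of degree 11 -/
def w24 (a b : A) : A := w11 a b * w3 a b
/-- basis monomial 25, of degree 11 -/
def w25 (a b : A) : A := w8 a b * w7 a b
/-- basis monomial 26, of degree 11 -/
def w26 (a b : A) : A := w10 a b * w5 a b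
/-- basis monomial 27, of degree 11 -/
def w27 (a b : A) : A := w11 a b * w4 a b
/-- basis monomial 28, of degree 12 -/
def w28 (a b : A) : A := w9 a b * w6 a b
/-- basis monomial 29, of degree 12 -/
def w29 (a b : A) : A := w9 a b * w7 a b
/-- basis monomial 30, of degree 12 -/
def w30 (a b : A) : A := w10 a b * w6 a b
/-- basis monomial 31, of degree 12 -/
def w31 (a b : A) : A := w11 a b * w5 a b
/-- basis monomial 32, of degree 12 -/
def w32 (a b : A) : A := w12 a b * w5 a b
/-- basis monomial 33, of degree 12 -/
def w33 (a b : A) : A := w10 a b * w7 a b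
/-- basis monomial 34, of degree 13 -/
def w34 (a b : A) : A := w11 a b * w6 a b
/-- basis monomial 35, of degree 13 -/
def w35 (a b : A) : A := w12 a b * w6 a b
/-- basis monomial 36, of degree 13 -/
def w36 (a b : A) : A := w11 a b * w7 a b
/-- basis monomial 37, of degree 13 -/
def w37 (a b : A) : A := w12 a b * w7 a b
/-- basis monomial 38, of degree 14 -/
def w38 (a b : A) : A := w13 a b * w6 a b
/-- basis monomial 39, of degree 14 -/
def w39 (a b : A) : A := w13 a b * w7 a b
/-- basis monomial 40, of degree 14 -/
def w40 (a b : A) : A := w15 a b * w7 a b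

end Pool.Agent.H461R3.E3
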