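import Pool.Agent.H461R3.E3.D8

set_option autoImplicit false
set_option linter.all false
set_option linter.unusedSimpArgs false
set_option linter.unusedVariables false

namespace Pool.Agent.H461R3.E3

universe u

variable {A : Type u} [NonUnitalNonAssocRing A]

theorem m8_3 (a b : A) : w8 a b * w3 a b = w13 a b := rfl
theorem r3_8 (h : Eng A) (a b : A) : w3 a b * w8 a b = -(w13 a b) := by
  rw [h.ac, m8_3]; try abel
theorem m9_2 (a b : A) : w9 a b * w2 a b = w14 a b := rfl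
theorem r2_9 (h : Eng A) (a b : A) : w2 a b * w9 a b = -(w14 a b) := by
  rw [h.ac, m9_2]; try abel
theorem wt5_4 (h : Eng A) (a b : A) :
    (w6 a b * w5 a b = 0) ∧
    (w11 a b * w0 a b = -(w14 a b)) ∧
    (w12 a b * w0 a b = w13 a b - w14 a b) := by
  have c5_6 : w5 a b * w6 a b = -(w6 a b * w5 a b) := h.ac _ _
  have c0_11 : w0 a b * w11 a b = -(w11 a b * w0 a b) := h.ac _ _
  have c0_12 : w0 a b * w12 a b = -(w12 a b * w0 a b) := h.ac _ _
  have t0 := h.e2 (w4 a b) (w0 a b) (w5 a b)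
  simp only [h.sq (w5 a b), m4_0 h a b, m5_0 h a b, r4_5 h a b, add_mul, sub_mul, neg_mul, zero_mul, add_zero, zero_add, neg_zero, neg_neg, sub_zero, zero_sub] at t0
  have t1 := h.e2 (w7 a b) (w0 a b) (w2 a b)
  simp only [m7_0 h a b, m7_2 h a b, m8_0 a b, m8_2 a b, m9_2 a b, add_mul, sub_mul, neg_mul, zero_mul, add_zero, zero_add, neg_zero, neg_neg, sub_zero, zero_sub] at t1
  have t2 := h.e2 (w1 a b) (w0 a b) (w8 a b)
  simp only [m10_0 h a b, m1_0 a b, m2_0 a b, r1_8 h a b, r2_8 h a b, r3_8 h a b, add_mul, sub_mul, neg_mul, zero_mul, add_zero, zero_add, neg_zero, neg_neg, sub_zero, zero_sub] at t2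
  refine ⟨?_, ?_, ?_⟩
  · linear_combination (norm := module) (1 : ℤ) • t0
  · linear_combination (norm := module) (-1 : ℤ) • t1
  · linear_combination (norm := module) (-1 : ℤ) • t1 + (1 : ℤ) • t2
theorem m6_5 (h : Eng A) (a b : A) : w6 a b * w5 a b = 0 := (wt5_4 h a b).1
theorem r5_6 (h : Eng A) (a b : A) : w5 a b * w6 a b = 0 := by
  rw [h.ac, m6_5 h, neg_zero]
theorem m11_0 (h : Eng A) (a b : A) : w11 a b * w0 a b = -(w14 a b) := (wt5_4 h a b).2.1
theorem r0_11 (h : Eng A) (a b : A) : w0 a b * w11 a b = w14 a b := by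
  rw [h.ac, m11_0 h]; try abel
theorem m12_0 (h : Eng A) (a b : A) : w12 a b * w0 a b = w13 a b - w14 a b := (wt5_4 h a b).2.2
theorem r0_12 (h : Eng A) (a b : A) : w0 a b * w12 a b = -(w13 a b) + w14 a b := by
  rw [h.ac, m12_0 h]; try abel

theorem m8_4 (a b : A) : w8 a b * w4 a b = w15 a b := rfl
theorem r4_8 (h : Eng A) (a b : A) : w4 a b * w8 a b = -(w15 a b) := by
  rw [h.ac, m8_4]; try abel
theorem m10_2 (a b : A) : w10 a b * w2 a b = w16 a b := rfl
theorem r2_10 (h : Eng A) (a b : A) : w2 a b * w10 a b = -(w16 a b) := by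
  rw [h.ac, m10_2]; try abel
theorem wt4_5 (h : Eng A) (a b : A) :
    (w7 a b * w5 a b = 0) ∧
    (w11 a b * w1 a b = -(w16 a b)) ∧
    (w12 a b * w1 a b = w15 a b - w16 a b) := by
  have c5_7 : w5 a b * w7 a b = -(w7 a b * w5 a b) := h.ac _ _
  have c1_11 : w1 a b * w11 a b = -(w11 a b * w1 a b) := h.ac _ _
  have c1_12 : w1 a b * w12 a b = -(w12 a b * w1 a b) := h.ac _ _
  have t0 := h.e3 (w4 a b) (w0 a b) (w1 a b) (w5 a b)
  simp only [h.sq (w5 a b), m4_0 h a b, m4_1 h a b, m5_1 h a b, r4_5 h a b, add_mul, sub_mul, neg_mul, zero_mul, add_zero, zero_add, neg_zero, neg_neg, sub_zero, zero_sub] at t0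
  have t1 := h.e3 (w7 a b) (w0 a b) (w1 a b) (w2 a b)
  simp only [m10_2 a b, m7_0 h a b, m7_1 h a b, m7_2 h a b, m8_1 a b, m8_2 a b, add_mul, sub_mul, neg_mul, zero_mul, add_zero, zero_add, neg_zero, neg_neg, sub_zero, zero_sub] at t1
  have t2 := h.e3 (w1 a b) (w0 a b) (w1 a b) (w8 a b)
  simp only [h.sq (w1 a b), m10_0 h a b, m10_1 h a b, m1_0 a b, m2_1 a b, r1_8 h a b, r2_8 h a b, r4_8 h a b, add_mul, sub_mul, neg_mul, zero_mul, add_zero, zero_add, neg_zero, neg_neg, sub_zero, zero_sub] at t2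
  refine ⟨?_, ?_, ?_⟩
  · linear_combination (norm := module) (1 : ℤ) • t0
  · linear_combination (norm := module) (-1 : ℤ) • t1
  · linear_combination (norm := module) (-1 : ℤ) • t1 + (1 : ℤ) • t2
theorem m7_5 (h : Eng A) (a b : A) : w7 a b * w5 a b = 0 := (wt4_5 h a b).1
theorem r5_7 (h : Eng A) (a b : A) : w5 a b * w7 a b = 0 := by
  rw [h.ac, m7_5 h, neg_zero]
theorem m11_1 (h : Eng A) (a b : A) : w11 a b * w1 a b = -(w16 a b) := (wt4_5 h a b).2.1
theorem r1_11 (h : Eng A) (a b : A) : w1 a b * w11 a b = w16 a b := by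
  rw [h.ac, m11_1 h]; try abel
theorem m12_1 (h : Eng A) (a b : A) : w12 a b * w1 a b = w15 a b - w16 a b := (wt4_5 h a b).2.2
theorem r1_12 (h : Eng A) (a b : A) : w1 a b * w12 a b = -(w15 a b) + w16 a b := by
  rw [h.ac, m12_1 h]; try abel

theorem m9_3 (a b : A) : w9 a b * w3 a b = w17 a b := rfl
theorem r3_9 (h : Eng A) (a b : A) : w3 a b * w9 a b = -(w17 a b) := by
  rw [h.ac, m9_3]; try abel
theorem wt6_4 (h : Eng A) (a b : A) :
    (w13 a b * w0 a b = -(w17 a b)) ∧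
    (w14 a b * w0 a b = -(w17 a b)) := by
  have c0_13 : w0 a b * w13 a b = -(w13 a b * w0 a b) := h.ac _ _
  have c0_14 : w0 a b * w14 a b = -(w14 a b * w0 a b) := h.ac _ _
  have t0 := h.e1 (w10 a b) (w0 a b)
  simp only [m10_0 h a b, m12_0 h a b, add_mul, sub_mul, neg_mul, zero_mul, add_zero, zero_add, neg_zero, neg_neg, sub_zero, zero_sub] at t0
  have t1 := h.e2 (w7 a b) (w0 a b) (w3 a b)
  simp only [m7_0 h a b, m7_3 h a b, m8_0 a b, m8_3 a b, m9_3 a b, add_mul, sub_mul, neg_mul, zero_mul, add_zero, zero_add, neg_zero, neg_neg, sub_zero, zero_sub] at t1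
  refine ⟨?_, ?_⟩
  · linear_combination (norm := module) (-1 : ℤ) • t1
  · linear_combination (norm := module) (1 : ℤ) • t0 + (-1 : ℤ) • t1
theorem m13_0 (h : Eng A) (a b : A) : w13 a b * w0 a b = -(w17 a b) := (wt6_4 h a b).1
theorem r0_13 (h : Eng A) (a b : A) : w0 a b * w13 a b = w17 a b := by
  rw [h.ac, m13_0 h]; try abel
theorem m14_0 (h : Eng A) (a b : A) : w14 a b * w0 a b = -(w17 a b) := (wt6_4 h a b).2
theorem r0_14 (h : Eng A) (a b : A) : w0 a b * w14 a b = w17 a b := by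
  rw [h.ac, m14_0 h]; try abel

theorem m8_5 (a b : A) : w8 a b * w5 a b = w18 a b := rfl
theorem r5_8 (h : Eng A) (a b : A) : w5 a b * w8 a b = -(w18 a b) := by
  rw [h.ac, m8_5]; try abel
theorem m9_4 (a b : A) : w9 a b * w4 a b = w19 a b := rfl
theorem r4_9 (h : Eng A) (a b : A) : w4 a b * w9 a b = -(w19 a b) := by
  rw [h.ac, m9_4]; try abel
theorem m10_3 (a b : A) : w10 a b * w3 a b = w20 a b := rfl
theorem r3_10 (h : Eng A) (a b : A) : w3 a b * w10 a b = -(w20 a b) := by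
  rw [h.ac, m10_3]; try abel
theorem wt5_5 (h : Eng A) (a b : A) :
    (w7 a b * w6 a b = 0) ∧
    (w11 a b * w2 a b = 0) ∧
    (w12 a b * w2 a b = w18 a b + w19 a b - w20 a b) ∧
    (w13 a b * w1 a b = -(w20 a b)) ∧
    (w14 a b * w1 a b = -(w19 a b)) ∧
    (w15 a b * w0 a b = -(w19 a b)) ∧
    (w16 a b * w0 a b = -(w20 a b)) := by
  have c6_7 : w6 a b * w7 a b = -(w7 a b * w6 a b) := h.ac _ _
  have c2_11 : w2 a b * w11 a b = -(w11 a b * w2 a b) := h.ac _ _
  have c2_12 : w2 a b * w12 a b = -(w12 a b * w2 a b) := h.ac _ _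
  have c1_13 : w1 a b * w13 a b = -(w13 a b * w1 a b) := h.ac _ _
  have c1_14 : w1 a b * w14 a b = -(w14 a b * w1 a b) := h.ac _ _
  have c0_15 : w0 a b * w15 a b = -(w15 a b * w0 a b) := h.ac _ _
  have c0_16 : w0 a b * w16 a b = -(w16 a b * w0 a b) := h.ac _ _
  have t0 := h.e2 (w4 a b) (w0 a b) (w7 a b)
  simp only [c6_7, m4_0 h a b, m5_0 h a b, r4_7 h a b, r5_7 h a b, add_mul, sub_mul, neg_mul, zero_mul, add_zero, zero_add, neg_zero, neg_neg, sub_zero, zero_sub] at t0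
  have t1 := h.e2 (w7 a b) (w2 a b) (w0 a b)
  simp only [m7_0 h a b, m7_2 h a b, m8_2 a b, add_mul, sub_mul, neg_mul, zero_mul, add_zero, zero_add, neg_zero, neg_neg, sub_zero, zero_sub] at t1
  have t2 := h.e2 (w7 a b) (w0 a b) (w4 a b)
  simp only [m7_0 h a b, m7_4 h a b, m8_0 a b, m8_4 a b, m9_4 a b, add_mul, sub_mul, neg_mul, zero_mul, add_zero, zero_add, neg_zero, neg_neg, sub_zero, zero_sub] at t2
  have t3 := h.e2 (w1 a b) (w0 a b) (w10 a b)
  simp only [m1_0 a b, m2_0 a b, r1_10 h a b, r2_10 h a b, r3_10 h a b, add_mul, sub_mul, neg_mul, zero_mul, add_zero, zero_add, neg_zero, neg_neg, sub_zero, zero_sub] at t3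
  have t4 := h.e3 (w7 a b) (w0 a b) (w1 a b) (w3 a b)
  simp only [m10_3 a b, m7_0 h a b, m7_1 h a b, m7_3 h a b, m8_1 a b, m8_3 a b, add_mul, sub_mul, neg_mul, zero_mul, add_zero, zero_add, neg_zero, neg_neg, sub_zero, zero_sub] at t4
  have t5 := h.e2 (w0 a b) (w1 a b) (w9 a b)
  simp only [m2_1 a b, r0_1 h a b, r0_9 h a b, r2_9 h a b, r4_9 h a b, add_mul, sub_mul, neg_mul, zero_mul, add_zero, zero_add, neg_zero, neg_neg, sub_zero, zero_sub] at t5
  have t6 := h.e3 (w1 a b) (w0 a b) (w2 a b) (w8 a b)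
  simp only [h.sq (w2 a b), m10_0 h a b, m10_2 a b, m1_0 a b, m4_0 h a b, r1_2 h a b, r1_8 h a b, r2_8 h a b, r4_8 h a b, r5_8 h a b, add_mul, sub_mul, neg_mul, zero_mul, add_zero, zero_add, neg_zero, neg_neg, sub_zero, zero_sub] at t6
  refine ⟨?_, ?_, ?_, ?_, ?_, ?_, ?_⟩
  · linear_combination (norm := module) (-1 : ℤ) • t0
  · linear_combination (norm := module) (-1 : ℤ) • t1
  · linear_combination (norm := module) (-1 : ℤ) • t1 + (1 : ℤ) • t2 + (-1 : ℤ) • t3 + (1 : ℤ) • t6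
  · linear_combination (norm := module) (-1 : ℤ) • t4
  · linear_combination (norm := module) (1 : ℤ) • t5
  · linear_combination (norm := module) (-1 : ℤ) • t2
  · linear_combination (norm := module) (-1 : ℤ) • t3
theorem m7_6 (h : Eng A) (a b : A) : w7 a b * w6 a b = 0 := (wt5_5 h a b).1
theorem r6_7 (h : Eng A) (a b : A) : w6 a b * w7 a b = 0 := by
  rw [h.ac, m7_6 h, neg_zero]
theorem m11_2 (h : Eng A) (a b : A) : w11 a b * w2 a b = 0 := (wt5_5 h a b).2.1
theorem r2_11 (h : Eng A) (a b : A) : w2 a b * w11 a b = 0 := by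
  rw [h.ac, m11_2 h, neg_zero]
theorem m12_2 (h : Eng A) (a b : A) : w12 a b * w2 a b = w18 a b + w19 a b - w20 a b := (wt5_5 h a b).2.2.1
theorem r2_12 (h : Eng A) (a b : A) : w2 a b * w12 a b = -(w18 a b) - w19 a b + w20 a b := by
  rw [h.ac, m12_2 h]; try abel
theorem m13_1 (h : Eng A) (a b : A) : w13 a b * w1 a b = -(w20 a b) := (wt5_5 h a b).2.2.2.1
theorem r1_13 (h : Eng A) (a b : A) : w1 a b * w13 a b = w20 a b := by
  rw [h.ac, m13_1 h]; try abel
theorem m14_1 (h : Eng A) (a b : A) : w14 a b * w1 a b = -(w19 a b) := (wt5_5 h a b).2.2.2.2.1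
theorem r1_14 (h : Eng A) (a b : A) : w1 a b * w14 a b = w19 a b := by
  rw [h.ac, m14_1 h]; try abel
theorem m15_0 (h : Eng A) (a b : A) : w15 a b * w0 a b = -(w19 a b) := (wt5_5 h a b).2.2.2.2.2.1
theorem r0_15 (h : Eng A) (a b : A) : w0 a b * w15 a b = w19 a b := by
  rw [h.ac, m15_0 h]; try abel
theorem m16_0 (h : Eng A) (a b : A) : w16 a b * w0 a b = -(w20 a b) := (wt5_5 h a b).2.2.2.2.2.2
theorem r0_16 (h : Eng A) (a b : A) : w0 a b * w16 a b = w20 a b := by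
  rw [h.ac, m16_0 h]; try abel

theorem m10_4 (a b : A) : w10 a b * w4 a b = w21 a b := rfl
theorem r4_10 (h : Eng A) (a b : A) : w4 a b * w10 a b = -(w21 a b) := by
  rw [h.ac, m10_4]; try abel
theorem wt4_6 (h : Eng A) (a b : A) :
    (w15 a b * w1 a b = -(w21 a b)) ∧
    (w16 a b * w1 a b = -(w21 a b)) := by
  have c1_15 : w1 a b * w15 a b = -(w15 a b * w1 a b) := h.ac _ _
  have c1_16 : w1 a b * w16 a b = -(w16 a b * w1 a b) := h.ac _ _
  have t0 := h.e2 (w10 a b) (w1 a b) (w0 a b)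
  simp only [m10_0 h a b, m10_1 h a b, m12_1 h a b, add_mul, sub_mul, neg_mul, zero_mul, add_zero, zero_add, neg_zero, neg_neg, sub_zero, zero_sub] at t0
  have t1 := h.e3 (w7 a b) (w0 a b) (w1 a b) (w4 a b)
  simp only [m10_4 a b, m7_0 h a b, m7_1 h a b, m7_4 h a b, m8_1 a b, m8_4 a b, add_mul, sub_mul, neg_mul, zero_mul, add_zero, zero_add, neg_zero, neg_neg, sub_zero, zero_sub] at t1
  refine ⟨?_, ?_⟩
  · linear_combination (norm := module) (-1 : ℤ) • t1
  · linear_combination (norm := module) (1 : ℤ) • t0 + (-1 : ℤ) • t1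
theorem m15_1 (h : Eng A) (a b : A) : w15 a b * w1 a b = -(w21 a b) := (wt4_6 h a b).1
theorem r1_15 (h : Eng A) (a b : A) : w1 a b * w15 a b = w21 a b := by
  rw [h.ac, m15_1 h]; try abel
theorem m16_1 (h : Eng A) (a b : A) : w16 a b * w1 a b = -(w21 a b) := (wt4_6 h a b).2
theorem r1_16 (h : Eng A) (a b : A) : w1 a b * w16 a b = w21 a b := by
  rw [h.ac, m16_1 h]; try abel

theorem wt7_4 (h : Eng A) (a b : A) :
    (w17 a b * w0 a b = 0) := by
  have c0_17 : w0 a b * w17 a b = -(w17 a b * w0 a b) := h.ac _ _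
  have t0 := h.e1 (w11 a b) (w0 a b)
  simp only [m11_0 h a b, m14_0 h a b, add_mul, sub_mul, neg_mul, zero_mul, add_zero, zero_add, neg_zero, neg_neg, sub_zero, zero_sub] at t0
  · linear_combination (norm := module) (1 : ℤ) • t0
theorem m17_0 (h : Eng A) (a b : A) : w17 a b * w0 a b = 0 := (wt7_4 h a b)
theorem r0_17 (h : Eng A) (a b : A) : w0 a b * w17 a b = 0 := by
  rw [h.ac, m17_0 h, neg_zero]

theorem m8_6 (a b : A) : w8 a b * w6 a b = w22 a b := rfl
theorem r6_8 (h : Eng A) (a b : A) : w6 a b * w8 a b = -(w22 a b) := by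
  rw [h.ac, m8_6]; try abel
theorem m9_5 (a b : A) : w9 a b * w5 a b = w23 a b := rfl
theorem r5_9 (h : Eng A) (a b : A) : w5 a b * w9 a b = -(w23 a b) := by
  rw [h.ac, m9_5]; try abel
theorem m11_3 (a b : A) : w11 a b * w3 a b = w24 a b := rfl
theorem r3_11 (h : Eng A) (a b : A) : w3 a b * w11 a b = -(w24 a b) := by
  rw [h.ac, m11_3]; try abel
theorem wt6_5 (h : Eng A) (a b : A) :
    (w12 a b * w3 a b = w23 a b) ∧
    (w13 a b * w2 a b = -(w24 a b)) ∧
    (w14 a b * w2 a b = w22 a b - w24 a b) ∧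
    (w17 a b * w1 a b = -(w22 a b) - w23 a b + w24 a b) ∧
    (w18 a b * w0 a b = -(w23 a b)) ∧
    (w19 a b * w0 a b = w22 a b + w23 a b) ∧
    (w20 a b * w0 a b = -(w24 a b)) := by
  have c3_12 : w3 a b * w12 a b = -(w12 a b * w3 a b) := h.ac _ _
  have c2_13 : w2 a b * w13 a b = -(w13 a b * w2 a b) := h.ac _ _
  have c2_14 : w2 a b * w14 a b = -(w14 a b * w2 a b) := h.ac _ _
  have c1_17 : w1 a b * w17 a b = -(w17 a b * w1 a b) := h.ac _ _
  have c0_18 : w0 a b * w18 a b = -(w18 a b * w0 a b) := h.ac _ _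
  have c0_19 : w0 a b * w19 a b = -(w19 a b * w0 a b) := h.ac _ _
  have c0_20 : w0 a b * w20 a b = -(w20 a b * w0 a b) := h.ac _ _
  have t0 := h.e2 (w7 a b) (w0 a b) (w5 a b)
  simp only [m7_0 h a b, m7_5 h a b, m8_0 a b, m8_5 a b, m9_5 a b, add_mul, sub_mul, neg_mul, zero_mul, add_zero, zero_add, neg_zero, neg_neg, sub_zero, zero_sub] at t0
  have t1 := h.e2 (w1 a b) (w0 a b) (w11 a b)
  simp only [m16_0 h a b, m1_0 a b, m2_0 a b, r1_11 h a b, r2_11 h a b, r3_11 h a b, add_mul, sub_mul, neg_mul, zero_mul, add_zero, zero_add, neg_zero, neg_neg, sub_zero, zero_sub] at t1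
  have t2 := h.e3 (w7 a b) (w0 a b) (w2 a b) (w3 a b)
  simp only [m11_3 a b, m7_0 h a b, m7_2 h a b, m7_3 h a b, m8_2 a b, m8_3 a b, add_mul, sub_mul, neg_mul, zero_mul, add_zero, zero_add, neg_zero, neg_neg, sub_zero, zero_sub] at t2
  have t3 := h.e2 (w1 a b) (w0 a b) (w12 a b)
  simp only [c3_12, m15_0 h a b, m16_0 h a b, m1_0 a b, m2_0 a b, r1_12 h a b, r2_12 h a b, add_mul, sub_mul, neg_mul, zero_mul, add_zero, zero_add, neg_zero, neg_neg, sub_zero, zero_sub] at t3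
  have t4 := h.e2 (w11 a b) (w0 a b) (w1 a b)
  simp only [m11_0 h a b, m11_1 h a b, m14_0 h a b, m14_1 h a b, m16_0 h a b, add_mul, sub_mul, neg_mul, zero_mul, add_zero, zero_add, neg_zero, neg_neg, sub_zero, zero_sub] at t4
  have t5 := h.e2 (w4 a b) (w0 a b) (w8 a b)
  simp only [m15_0 h a b, m4_0 h a b, m5_0 h a b, r4_8 h a b, r5_8 h a b, r6_8 h a b, add_mul, sub_mul, neg_mul, zero_mul, add_zero, zero_add, neg_zero, neg_neg, sub_zero, zero_sub] at t5
  have t6 := h.e3 (w2 a b) (w0 a b) (w2 a b) (w8 a b)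
  simp only [h.sq (w2 a b), m11_0 h a b, m11_2 h a b, m2_0 a b, m3_2 a b, r2_8 h a b, r3_8 h a b, r6_8 h a b, add_mul, sub_mul, neg_mul, zero_mul, add_zero, zero_add, neg_zero, neg_neg, sub_zero, zero_sub] at t6
  refine ⟨?_, ?_, ?_, ?_, ?_, ?_, ?_⟩
  · linear_combination (norm := module) (1 : ℤ) • t0 + (-1 : ℤ) • t3
  · linear_combination (norm := module) (-1 : ℤ) • t2
  · linear_combination (norm := module) (-1 : ℤ) • t2 + (1 : ℤ) • t6
  · linear_combination (norm := module) (-1 : ℤ) • t0 + (1 : ℤ) • t1 + (1 : ℤ) • t4 + (-1 : ℤ) • t5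
  · linear_combination (norm := module) (-1 : ℤ) • t0
  · linear_combination (norm := module) (1 : ℤ) • t0 + (1 : ℤ) • t5
  · linear_combination (norm := module) (-1 : ℤ) • t1
theorem m12_3 (h : Eng A) (a b : A) : w12 a b * w3 a b = w23 a b := (wt6_5 h a b).1
theorem r3_12 (h : Eng A) (a b : A) : w3 a b * w12 a b = -(w23 a b) := by
  rw [h.ac, m12_3 h]; try abel
theorem m13_2 (h : Eng A) (a b : A) : w13 a b * w2 a b = -(w24 a b) := (wt6_5 h a b).2.1
theorem r2_13 (h : Eng A) (a b : A) : w2 a b * w13 a b = w24 a b := by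
  rw [h.ac, m13_2 h]; try abel
theorem m14_2 (h : Eng A) (a b : A) : w14 a b * w2 a b = w22 a b - w24 a b := (wt6_5 h a b).2.2.1
theorem r2_14 (h : Eng A) (a b : A) : w2 a b * w14 a b = -(w22 a b) + w24 a b := by
  rw [h.ac, m14_2 h]; try abel
theorem m17_1 (h : Eng A) (a b : A) : w17 a b * w1 a b = -(w22 a b) - w23 a b + w24 a b := (wt6_5 h a b).2.2.2.1
theorem r1_17 (h : Eng A) (a b : A) : w1 a b * w17 a b = w22 a b + w23 a b - w24 a b := by
  rw [h.ac, m17_1 h]; try abel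
theorem m18_0 (h : Eng A) (a b : A) : w18 a b * w0 a b = -(w23 a b) := (wt6_5 h a b).2.2.2.2.1
theorem r0_18 (h : Eng A) (a b : A) : w0 a b * w18 a b = w23 a b := by
  rw [h.ac, m18_0 h]; try abel
theorem m19_0 (h : Eng A) (a b : A) : w19 a b * w0 a b = w22 a b + w23 a b := (wt6_5 h a b).2.2.2.2.2.1
theorem r0_19 (h : Eng A) (a b : A) : w0 a b * w19 a b = -(w22 a b) - w23 a b := by
  rw [h.ac, m19_0 h]; try abel
theorem m20_0 (h : Eng A) (a b : A) : w20 a b * w0 a b = -(w24 a b) := (wt6_5 h a b).2.2.2.2.2.2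
theorem r0_20 (h : Eng A) (a b : A) : w0 a b * w20 a b = w24 a b := by
  rw [h.ac, m20_0 h]; try abel

theorem m8_7 (a b : A) : w8 a b * w7 a b = w25 a b := rfl
theorem r7_8 (h : Eng A) (a b : A) : w7 a b * w8 a b = -(w25 a b) := by
  rw [h.ac, m8_7]; try abel
theorem m10_5 (a b : A) : w10 a b * w5 a b = w26 a b := rfl
theorem r5_10 (h : Eng A) (a b : A) : w5 a b * w10 a b = -(w26 a b) := by
  rw [h.ac, m10_5]; try abel
theorem m11_4 (a b : A) : w11 a b * w4 a b = w27 a b := rfl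
theorem r4_11 (h : Eng A) (a b : A) : w4 a b * w11 a b = -(w27 a b) := by
  rw [h.ac, m11_4]; try abel
theorem wt5_6 (h : Eng A) (a b : A) :
    (w12 a b * w4 a b = w26 a b) ∧
    (w15 a b * w2 a b = -(w27 a b)) ∧
    (w16 a b * w2 a b = w25 a b - w27 a b) ∧
    (w18 a b * w1 a b = -(w26 a b)) ∧
    (w19 a b * w1 a b = w27 a b) ∧
    (w20 a b * w1 a b = -(w25 a b) - w26 a b) ∧
    (w21 a b * w0 a b = w25 a b + w26 a b - w27 a b) := by
  have c4_12 : w4 a b * w12 a b = -(w12 a b * w4 a b) := h.ac _ _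
  have c2_15 : w2 a b * w15 a b = -(w15 a b * w2 a b) := h.ac _ _
  have c2_16 : w2 a b * w16 a b = -(w16 a b * w2 a b) := h.ac _ _
  have c1_18 : w1 a b * w18 a b = -(w18 a b * w1 a b) := h.ac _ _
  have c1_19 : w1 a b * w19 a b = -(w19 a b * w1 a b) := h.ac _ _
  have c1_20 : w1 a b * w20 a b = -(w20 a b * w1 a b) := h.ac _ _
  have c0_21 : w0 a b * w21 a b = -(w21 a b * w0 a b) := h.ac _ _
  have t0 := h.e3 (w7 a b) (w0 a b) (w1 a b) (w5 a b)
  simp only [m10_5 a b, m7_0 h a b, m7_1 h a b, m7_5 h a b, m8_1 a b, m8_5 a b, add_mul, sub_mul, neg_mul, zero_mul, add_zero, zero_add, neg_zero, neg_neg, sub_zero, zero_sub] at t0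
  have t1 := h.e3 (w7 a b) (w0 a b) (w2 a b) (w4 a b)
  simp only [m11_4 a b, m7_0 h a b, m7_2 h a b, m7_4 h a b, m8_2 a b, m8_4 a b, add_mul, sub_mul, neg_mul, zero_mul, add_zero, zero_add, neg_zero, neg_neg, sub_zero, zero_sub] at t1
  have t2 := h.e2 (w0 a b) (w1 a b) (w11 a b)
  simp only [m14_1 h a b, m2_1 a b, r0_1 h a b, r0_11 h a b, r2_11 h a b, r4_11 h a b, add_mul, sub_mul, neg_mul, zero_mul, add_zero, zero_add, neg_zero, neg_neg, sub_zero, zero_sub] at t2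
  have t3 := h.e2 (w0 a b) (w1 a b) (w12 a b)
  simp only [c4_12, m13_1 h a b, m14_1 h a b, m2_1 a b, r0_1 h a b, r0_12 h a b, r2_12 h a b, add_mul, sub_mul, neg_mul, zero_mul, add_zero, zero_add, neg_zero, neg_neg, sub_zero, zero_sub] at t3
  have t4 := h.e2 (w11 a b) (w1 a b) (w0 a b)
  simp only [m11_0 h a b, m11_1 h a b, m14_1 h a b, m16_0 h a b, m16_1 h a b, add_mul, sub_mul, neg_mul, zero_mul, add_zero, zero_add, neg_zero, neg_neg, sub_zero, zero_sub] at t4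
  have t5 := h.e3 (w1 a b) (w0 a b) (w2 a b) (w10 a b)
  simp only [h.sq (w2 a b), m1_0 a b, m4_0 h a b, r1_10 h a b, r1_2 h a b, r2_10 h a b, r4_10 h a b, r5_10 h a b, add_mul, sub_mul, neg_mul, zero_mul, add_zero, zero_add, neg_zero, neg_neg, sub_zero, zero_sub] at t5
  have t6 := h.e2 (w3 a b) (w1 a b) (w8 a b)
  simp only [m13_1 h a b, m3_1 a b, m5_1 h a b, r3_8 h a b, r5_8 h a b, r7_8 h a b, add_mul, sub_mul, neg_mul, zero_mul, add_zero, zero_add, neg_zero, neg_neg, sub_zero, zero_sub] at t6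
  refine ⟨?_, ?_, ?_, ?_, ?_, ?_, ?_⟩
  · linear_combination (norm := module) (1 : ℤ) • t0 + (1 : ℤ) • t3
  · linear_combination (norm := module) (-1 : ℤ) • t1
  · linear_combination (norm := module) (1 : ℤ) • t0 + (1 : ℤ) • t2 + (1 : ℤ) • t4 + (-1 : ℤ) • t5 + (-1 : ℤ) • t6
  · linear_combination (norm := module) (-1 : ℤ) • t0
  · linear_combination (norm := module) (-1 : ℤ) • t2
  · linear_combination (norm := module) (-1 : ℤ) • t0 + (1 : ℤ) • t6
  · linear_combination (norm := module) (1 : ℤ) • t0 + (1 : ℤ) • t2 + (1 : ℤ) • t4 + (-1 : ℤ) • t6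
theorem m12_4 (h : Eng A) (a b : A) : w12 a b * w4 a b = w26 a b := (wt5_6 h a b).1
theorem r4_12 (h : Eng A) (a b : A) : w4 a b * w12 a b = -(w26 a b) := by
  rw [h.ac, m12_4 h]; try abel
theorem m15_2 (h : Eng A) (a b : A) : w15 a b * w2 a b = -(w27 a b) := (wt5_6 h a b).2.1
theorem r2_15 (h : Eng A) (a b : A) : w2 a b * w15 a b = w27 a b := by
  rw [h.ac, m15_2 h]; try abel
theorem m16_2 (h : Eng A) (a b : A) : w16 a b * w2 a b = w25 a b - w27 a b := (wt5_6 h a b).2.2.1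
theorem r2_16 (h : Eng A) (a b : A) : w2 a b * w16 a b = -(w25 a b) + w27 a b := by
  rw [h.ac, m16_2 h]; try abel
theorem m18_1 (h : Eng A) (a b : A) : w18 a b * w1 a b = -(w26 a b) := (wt5_6 h a b).2.2.2.1
theorem r1_18 (h : Eng A) (a b : A) : w1 a b * w18 a b = w26 a b := by
  rw [h.ac, m18_1 h]; try abel
theorem m19_1 (h : Eng A) (a b : A) : w19 a b * w1 a b = w27 a b := (wt5_6 h a b).2.2.2.2.1
theorem r1_19 (h : Eng A) (a b : A) : w1 a b * w19 a b = -(w27 a b) := by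
  rw [h.ac, m19_1 h]; try abel
theorem m20_1 (h : Eng A) (a b : A) : w20 a b * w1 a b = -(w25 a b) - w26 a b := (wt5_6 h a b).2.2.2.2.2.1
theorem r1_20 (h : Eng A) (a b : A) : w1 a b * w20 a b = w25 a b + w26 a b := by
  rw [h.ac, m20_1 h]; try abel
theorem m21_0 (h : Eng A) (a b : A) : w21 a b * w0 a b = w25 a b + w26 a b - w27 a b := (wt5_6 h a b).2.2.2.2.2.2
theorem r0_21 (h : Eng A) (a b : A) : w0 a b * w21 a b = -(w25 a b) - w26 a b + w27 a b := by
  rw [h.ac, m21_0 h]; try abel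

theorem wt4_7 (h : Eng A) (a b : A) :
    (w21 a b * w1 a b = 0) := by
  have c1_21 : w1 a b * w21 a b = -(w21 a b * w1 a b) := h.ac _ _
  have t0 := h.e1 (w11 a b) (w1 a b)
  simp only [m11_1 h a b, m16_1 h a b, add_mul, sub_mul, neg_mul, zero_mul, add_zero, zero_add, neg_zero, neg_neg, sub_zero, zero_sub] at t0
  · linear_combination (norm := module) (1 : ℤ) • t0
theorem m21_1 (h : Eng A) (a b : A) : w21 a b * w1 a b = 0 := (wt4_7 h a b)
theorem r1_21 (h : Eng A) (a b : A) : w1 a b * w21 a b = 0 := by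
  rw [h.ac, m21_1 h, neg_zero]

end Pool.Agent.H461R3.E3
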