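import Pool.Agent.H461R3.E3.D11

set_option autoImplicit false
set_option linter.all false
set_option linter.unusedSimpArgs false
set_option linter.unusedVariables false

namespace Pool.Agent.H461R3.E3

universe u

variable {A : Type u} [NonUnitalNonAssocRing A]

theorem m9_6 (a b : A) : w9 a b * w6 a b = w28 a b := rfl
theorem r6_9 (h : Eng A) (a b : A) : w6 a b * w9 a b = -(w28 a b) := by
  rw [h.ac, m9_6]; try abel
theorem wt7_5 (h : Eng A) (a b : A) :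
    (w13 a b * w3 a b = 0) ∧
    (w14 a b * w3 a b = w28 a b) ∧
    (w17 a b * w2 a b = -(w28 a b)) ∧
    (w22 a b * w0 a b = -(w28 a b)) ∧
    (w23 a b * w0 a b = w28 a b) ∧
    (w24 a b * w0 a b = 0) := by
  have c3_13 : w3 a b * w13 a b = -(w13 a b * w3 a b) := h.ac _ _
  have c3_14 : w3 a b * w14 a b = -(w14 a b * w3 a b) := h.ac _ _
  have c2_17 : w2 a b * w17 a b = -(w17 a b * w2 a b) := h.ac _ _
  have c0_22 : w0 a b * w22 a b = -(w22 a b * w0 a b) := h.ac _ _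
  have c0_23 : w0 a b * w23 a b = -(w23 a b * w0 a b) := h.ac _ _
  have c0_24 : w0 a b * w24 a b = -(w24 a b * w0 a b) := h.ac _ _
  have t0 := h.e1 (w16 a b) (w0 a b)
  simp only [m16_0 h a b, m20_0 h a b, add_mul, sub_mul, neg_mul, zero_mul, add_zero, zero_add, neg_zero, neg_neg, sub_zero, zero_sub] at t0
  have t1 := h.e2 (w7 a b) (w3 a b) (w0 a b)
  simp only [m7_0 h a b, m7_3 h a b, m8_3 a b, add_mul, sub_mul, neg_mul, zero_mul, add_zero, zero_add, neg_zero, neg_neg, sub_zero, zero_sub] at t1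
  have t2 := h.e1 (w15 a b) (w0 a b)
  simp only [m15_0 h a b, m19_0 h a b, add_mul, sub_mul, neg_mul, zero_mul, add_zero, zero_add, neg_zero, neg_neg, sub_zero, zero_sub] at t2
  have t3 := h.e2 (w7 a b) (w0 a b) (w6 a b)
  simp only [m7_0 h a b, m7_6 h a b, m8_0 a b, m8_6 a b, m9_6 a b, add_mul, sub_mul, neg_mul, zero_mul, add_zero, zero_add, neg_zero, neg_neg, sub_zero, zero_sub] at t3
  have t4 := h.e3 (w0 a b) (w1 a b) (w3 a b) (w9 a b)
  simp only [r0_1 h a b, r0_3 h a b, r0_9 h a b, r2_3 h a b, r2_9 h a b, r6_9 h a b, add_mul, sub_mul, neg_mul, zero_mul, add_zero, zero_add, neg_zero, neg_neg, sub_zero, zero_sub] at t4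
  have t5 := h.e2 (w0 a b) (w2 a b) (w9 a b)
  simp only [m3_2 a b, r0_2 h a b, r0_9 h a b, r3_9 h a b, r6_9 h a b, add_mul, sub_mul, neg_mul, zero_mul, add_zero, zero_add, neg_zero, neg_neg, sub_zero, zero_sub] at t5
  refine ⟨?_, ?_, ?_, ?_, ?_, ?_⟩
  · linear_combination (norm := module) (-1 : ℤ) • t1
  · linear_combination (norm := module) (1 : ℤ) • t4
  · linear_combination (norm := module) (1 : ℤ) • t5
  · linear_combination (norm := module) (-1 : ℤ) • t3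
  · linear_combination (norm := module) (-1 : ℤ) • t2 + (1 : ℤ) • t3
  · linear_combination (norm := module) (1 : ℤ) • t0
theorem m13_3 (h : Eng A) (a b : A) : w13 a b * w3 a b = 0 := (wt7_5 h a b).1
theorem r3_13 (h : Eng A) (a b : A) : w3 a b * w13 a b = 0 := by
  rw [h.ac, m13_3 h, neg_zero]
theorem m14_3 (h : Eng A) (a b : A) : w14 a b * w3 a b = w28 a b := (wt7_5 h a b).2.1
theorem r3_14 (h : Eng A) (a b : A) : w3 a b * w14 a b = -(w28 a b) := by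
  rw [h.ac, m14_3 h]; try abel
theorem m17_2 (h : Eng A) (a b : A) : w17 a b * w2 a b = -(w28 a b) := (wt7_5 h a b).2.2.1
theorem r2_17 (h : Eng A) (a b : A) : w2 a b * w17 a b = w28 a b := by
  rw [h.ac, m17_2 h]; try abel
theorem m22_0 (h : Eng A) (a b : A) : w22 a b * w0 a b = -(w28 a b) := (wt7_5 h a b).2.2.2.1
theorem r0_22 (h : Eng A) (a b : A) : w0 a b * w22 a b = w28 a b := by
  rw [h.ac, m22_0 h]; try abel
theorem m23_0 (h : Eng A) (a b : A) : w23 a b * w0 a b = w28 a b := (wt7_5 h a b).2.2.2.2.1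
theorem r0_23 (h : Eng A) (a b : A) : w0 a b * w23 a b = -(w28 a b) := by
  rw [h.ac, m23_0 h]; try abel
theorem m24_0 (h : Eng A) (a b : A) : w24 a b * w0 a b = 0 := (wt7_5 h a b).2.2.2.2.2
theorem r0_24 (h : Eng A) (a b : A) : w0 a b * w24 a b = 0 := by
  rw [h.ac, m24_0 h, neg_zero]

theorem m9_7 (a b : A) : w9 a b * w7 a b = w29 a b := rfl
theorem r7_9 (h : Eng A) (a b : A) : w7 a b * w9 a b = -(w29 a b) := by
  rw [h.ac, m9_7]; try abel
theorem m10_6 (a b : A) : w10 a b * w6 a b = w30 a b := rfl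
theorem r6_10 (h : Eng A) (a b : A) : w6 a b * w10 a b = -(w30 a b) := by
  rw [h.ac, m10_6]; try abel
theorem m11_5 (a b : A) : w11 a b * w5 a b = w31 a b := rfl
theorem r5_11 (h : Eng A) (a b : A) : w5 a b * w11 a b = -(w31 a b) := by
  rw [h.ac, m11_5]; try abel
theorem m12_5 (a b : A) : w12 a b * w5 a b = w32 a b := rfl
theorem r5_12 (h : Eng A) (a b : A) : w5 a b * w12 a b = -(w32 a b) := by
  rw [h.ac, m12_5]; try abel
theorem wt6_6 (h : Eng A) (a b : A) :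
    (w13 a b * w4 a b = w31 a b - w32 a b) ∧
    (w14 a b * w4 a b = w30 a b + w31 a b - w32 a b) ∧
    (w15 a b * w3 a b = -(w31 a b) + w32 a b) ∧
    (w16 a b * w3 a b = w29 a b - w31 a b + w32 a b) ∧
    (w18 a b * w2 a b = -(w31 a b)) ∧
    (w19 a b * w2 a b = -(w30 a b) + w31 a b) ∧
    (w20 a b * w2 a b = -(w29 a b) - w31 a b) ∧
    (w22 a b * w1 a b = -(w30 a b)) ∧
    (w23 a b * w1 a b = w30 a b + w31 a b - w32 a b) ∧
    (w24 a b * w1 a b = w29 a b - w30 a b) ∧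
    (w25 a b * w0 a b = -(w29 a b)) ∧
    (w26 a b * w0 a b = w29 a b - w31 a b + w32 a b) ∧
    (w27 a b * w0 a b = -(w29 a b) + w30 a b) := by
  have c4_13 : w4 a b * w13 a b = -(w13 a b * w4 a b) := h.ac _ _
  have c4_14 : w4 a b * w14 a b = -(w14 a b * w4 a b) := h.ac _ _
  have c3_15 : w3 a b * w15 a b = -(w15 a b * w3 a b) := h.ac _ _
  have c3_16 : w3 a b * w16 a b = -(w16 a b * w3 a b) := h.ac _ _
  have c2_18 : w2 a b * w18 a b = -(w18 a b * w2 a b) := h.ac _ _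
  have c2_19 : w2 a b * w19 a b = -(w19 a b * w2 a b) := h.ac _ _
  have c2_20 : w2 a b * w20 a b = -(w20 a b * w2 a b) := h.ac _ _
  have c1_22 : w1 a b * w22 a b = -(w22 a b * w1 a b) := h.ac _ _
  have c1_23 : w1 a b * w23 a b = -(w23 a b * w1 a b) := h.ac _ _
  have c1_24 : w1 a b * w24 a b = -(w24 a b * w1 a b) := h.ac _ _
  have c0_25 : w0 a b * w25 a b = -(w25 a b * w0 a b) := h.ac _ _
  have c0_26 : w0 a b * w26 a b = -(w26 a b * w0 a b) := h.ac _ _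
  have c0_27 : w0 a b * w27 a b = -(w27 a b * w0 a b) := h.ac _ _
  have t0 := h.e2 (w7 a b) (w0 a b) (w7 a b)
  simp only [h.sq (w7 a b), m7_0 h a b, m8_0 a b, m8_7 a b, m9_7 a b, add_mul, sub_mul, neg_mul, zero_mul, add_zero, zero_add, neg_zero, neg_neg, sub_zero, zero_sub] at t0
  have t1 := h.e3 (w7 a b) (w0 a b) (w1 a b) (w6 a b)
  simp only [m10_6 a b, m7_0 h a b, m7_1 h a b, m7_6 h a b, m8_1 a b, m8_6 a b, add_mul, sub_mul, neg_mul, zero_mul, add_zero, zero_add, neg_zero, neg_neg, sub_zero, zero_sub] at t1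
  have t2 := h.e3 (w7 a b) (w0 a b) (w2 a b) (w5 a b)
  simp only [m11_5 a b, m7_0 h a b, m7_2 h a b, m7_5 h a b, m8_2 a b, m8_5 a b, add_mul, sub_mul, neg_mul, zero_mul, add_zero, zero_add, neg_zero, neg_neg, sub_zero, zero_sub] at t2
  have t3 := h.e3 (w7 a b) (w0 a b) (w3 a b) (w4 a b)
  simp only [m7_0 h a b, m7_3 h a b, m7_4 h a b, m8_3 a b, m8_4 a b, add_mul, sub_mul, neg_mul, zero_mul, add_zero, zero_add, neg_zero, neg_neg, sub_zero, zero_sub] at t3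
  have t4 := h.e3 (w2 a b) (w0 a b) (w1 a b) (w11 a b)
  simp only [m2_0 a b, m2_1 a b, m3_1 a b, m4_0 h a b, r2_11 h a b, r3_11 h a b, r4_11 h a b, r5_11 h a b, add_mul, sub_mul, neg_mul, zero_mul, add_zero, zero_add, neg_zero, neg_neg, sub_zero, zero_sub] at t4
  have t5 := h.e3 (w1 a b) (w0 a b) (w3 a b) (w10 a b)
  simp only [m1_0 a b, m5_0 h a b, r1_10 h a b, r1_3 h a b, r2_10 h a b, r2_3 h a b, r5_10 h a b, r6_10 h a b, add_mul, sub_mul, neg_mul, zero_mul, add_zero, zero_add, neg_zero, neg_neg, sub_zero, zero_sub] at t5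
  have t6 := h.e3 (w0 a b) (w1 a b) (w4 a b) (w9 a b)
  simp only [m5_1 h a b, r0_1 h a b, r0_4 h a b, r0_9 h a b, r2_4 h a b, r2_9 h a b, r5_9 h a b, r7_9 h a b, add_mul, sub_mul, neg_mul, zero_mul, add_zero, zero_add, neg_zero, neg_neg, sub_zero, zero_sub] at t6
  have t7 := h.e2 (w4 a b) (w0 a b) (w10 a b)
  simp only [m21_0 h a b, m4_0 h a b, m5_0 h a b, r4_10 h a b, r5_10 h a b, r6_10 h a b, add_mul, sub_mul, neg_mul, zero_mul, add_zero, zero_add, neg_zero, neg_neg, sub_zero, zero_sub] at t7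
  have t8 := h.e2 (w1 a b) (w0 a b) (w15 a b)
  simp only [c3_15, m1_0 a b, m21_0 h a b, m2_0 a b, r1_15 h a b, r2_15 h a b, add_mul, sub_mul, neg_mul, zero_mul, add_zero, zero_add, neg_zero, neg_neg, sub_zero, zero_sub] at t8
  have t9 := h.e3 (w0 a b) (w0 a b) (w1 a b) (w15 a b)
  simp only [c3_15, h.sq (w0 a b), m19_0 h a b, m19_1 h a b, m2_0 a b, r0_1 h a b, r0_15 h a b, r2_15 h a b, add_mul, sub_mul, neg_mul, zero_mul, add_zero, zero_add, neg_zero, neg_neg, sub_zero, zero_sub] at t9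
  have t10 := h.e3 (w1 a b) (w0 a b) (w2 a b) (w11 a b)
  simp only [h.sq (w2 a b), m16_0 h a b, m16_2 h a b, m1_0 a b, m4_0 h a b, r1_11 h a b, r1_2 h a b, r2_11 h a b, r4_11 h a b, r5_11 h a b, add_mul, sub_mul, neg_mul, zero_mul, add_zero, zero_add, neg_zero, neg_neg, sub_zero, zero_sub] at t10
  have t11 := h.e3 (w0 a b) (w1 a b) (w2 a b) (w11 a b)
  simp only [h.sq (w2 a b), m14_1 h a b, m14_2 h a b, m3_1 a b, r0_1 h a b, r0_11 h a b, r0_2 h a b, r2_11 h a b, r3_11 h a b, r5_11 h a b, add_mul, sub_mul, neg_mul, zero_mul, add_zero, zero_add, neg_zero, neg_neg, sub_zero, zero_sub] at t11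
  have t12 := h.e3 (w1 a b) (w0 a b) (w5 a b) (w8 a b)
  simp only [h.sq (w8 a b), m10_0 h a b, m10_5 a b, m11_5 a b, m12_5 a b, m1_0 a b, m7_0 h a b, r1_5 h a b, r1_8 h a b, r2_5 h a b, r2_8 h a b, r7_8 h a b, add_mul, sub_mul, neg_mul, zero_mul, add_zero, zero_add, neg_zero, neg_neg, sub_zero, zero_sub] at t12
  refine ⟨?_, ?_, ?_, ?_, ?_, ?_, ?_, ?_, ?_, ?_, ?_, ?_, ?_⟩
  · linear_combination (norm := module) (-1 : ℤ) • t3 + (1 : ℤ) • t8 + (1 : ℤ) • t12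
  · linear_combination (norm := module) (1 : ℤ) • t1 + (1 : ℤ) • t6 + (1 : ℤ) • t8 + (1 : ℤ) • t9 + (1 : ℤ) • t12
  · linear_combination (norm := module) (-1 : ℤ) • t8 + (-1 : ℤ) • t12
  · linear_combination (norm := module) (1 : ℤ) • t0 + (-1 : ℤ) • t5 + (-1 : ℤ) • t12
  · linear_combination (norm := module) (-1 : ℤ) • t2
  · linear_combination (norm := module) (-1 : ℤ) • t1 + (-1 : ℤ) • t11
  · linear_combination (norm := module) (-1 : ℤ) • t0 + (-1 : ℤ) • t10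
  · linear_combination (norm := module) (-1 : ℤ) • t1
  · linear_combination (norm := module) (1 : ℤ) • t1 + (1 : ℤ) • t8 + (1 : ℤ) • t9 + (1 : ℤ) • t12
  · linear_combination (norm := module) (1 : ℤ) • t0 + (-1 : ℤ) • t4 + (-1 : ℤ) • t7
  · linear_combination (norm := module) (-1 : ℤ) • t0
  · linear_combination (norm := module) (1 : ℤ) • t0 + (-1 : ℤ) • t12
  · linear_combination (norm := module) (-1 : ℤ) • t0 + (1 : ℤ) • t7
theorem m13_4 (h : Eng A) (a b : A) : w13 a b * w4 a b = w31 a b - w32 a b := (wt6_6 h a b).1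
theorem r4_13 (h : Eng A) (a b : A) : w4 a b * w13 a b = -(w31 a b) + w32 a b := by
  rw [h.ac, m13_4 h]; try abel
theorem m14_4 (h : Eng A) (a b : A) : w14 a b * w4 a b = w30 a b + w31 a b - w32 a b := (wt6_6 h a b).2.1
theorem r4_14 (h : Eng A) (a b : A) : w4 a b * w14 a b = -(w30 a b) - w31 a b + w32 a b := by
  rw [h.ac, m14_4 h]; try abel
theorem m15_3 (h : Eng A) (a b : A) : w15 a b * w3 a b = -(w31 a b) + w32 a b := (wt6_6 h a b).2.2.1
theorem r3_15 (h : Eng A) (a b : A) : w3 a b * w15 a b = w31 a b - w32 a b := by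
  rw [h.ac, m15_3 h]; try abel
theorem m16_3 (h : Eng A) (a b : A) : w16 a b * w3 a b = w29 a b - w31 a b + w32 a b := (wt6_6 h a b).2.2.2.1
theorem r3_16 (h : Eng A) (a b : A) : w3 a b * w16 a b = -(w29 a b) + w31 a b - w32 a b := by
  rw [h.ac, m16_3 h]; try abel
theorem m18_2 (h : Eng A) (a b : A) : w18 a b * w2 a b = -(w31 a b) := (wt6_6 h a b).2.2.2.2.1
theorem r2_18 (h : Eng A) (a b : A) : w2 a b * w18 a b = w31 a b := by
  rw [h.ac, m18_2 h]; try abel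
theorem m19_2 (h : Eng A) (a b : A) : w19 a b * w2 a b = -(w30 a b) + w31 a b := (wt6_6 h a b).2.2.2.2.2.1
theorem r2_19 (h : Eng A) (a b : A) : w2 a b * w19 a b = w30 a b - w31 a b := by
  rw [h.ac, m19_2 h]; try abel
theorem m20_2 (h : Eng A) (a b : A) : w20 a b * w2 a b = -(w29 a b) - w31 a b := (wt6_6 h a b).2.2.2.2.2.2.1
theorem r2_20 (h : Eng A) (a b : A) : w2 a b * w20 a b = w29 a b + w31 a b := by
  rw [h.ac, m20_2 h]; try abel
theorem m22_1 (h : Eng A) (a b : A) : w22 a b * w1 a b = -(w30 a b) := (wt6_6 h a b).2.2.2.2.2.2.2.1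
theorem r1_22 (h : Eng A) (a b : A) : w1 a b * w22 a b = w30 a b := by
  rw [h.ac, m22_1 h]; try abel
theorem m23_1 (h : Eng A) (a b : A) : w23 a b * w1 a b = w30 a b + w31 a b - w32 a b := (wt6_6 h a b).2.2.2.2.2.2.2.2.1
theorem r1_23 (h : Eng A) (a b : A) : w1 a b * w23 a b = -(w30 a b) - w31 a b + w32 a b := by
  rw [h.ac, m23_1 h]; try abel
theorem m24_1 (h : Eng A) (a b : A) : w24 a b * w1 a b = w29 a b - w30 a b := (wt6_6 h a b).2.2.2.2.2.2.2.2.2.1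
theorem r1_24 (h : Eng A) (a b : A) : w1 a b * w24 a b = -(w29 a b) + w30 a b := by
  rw [h.ac, m24_1 h]; try abel
theorem m25_0 (h : Eng A) (a b : A) : w25 a b * w0 a b = -(w29 a b) := (wt6_6 h a b).2.2.2.2.2.2.2.2.2.2.1
theorem r0_25 (h : Eng A) (a b : A) : w0 a b * w25 a b = w29 a b := by
  rw [h.ac, m25_0 h]; try abel
theorem m26_0 (h : Eng A) (a b : A) : w26 a b * w0 a b = w29 a b - w31 a b + w32 a b := (wt6_6 h a b).2.2.2.2.2.2.2.2.2.2.2.1
theorem r0_26 (h : Eng A) (a b : A) : w0 a b * w26 a b = -(w29 a b) + w31 a b - w32 a b := by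
  rw [h.ac, m26_0 h]; try abel
theorem m27_0 (h : Eng A) (a b : A) : w27 a b * w0 a b = -(w29 a b) + w30 a b := (wt6_6 h a b).2.2.2.2.2.2.2.2.2.2.2.2
theorem r0_27 (h : Eng A) (a b : A) : w0 a b * w27 a b = w29 a b - w30 a b := by
  rw [h.ac, m27_0 h]; try abel

theorem m10_7 (a b : A) : w10 a b * w7 a b = w33 a b := rfl
theorem r7_10 (h : Eng A) (a b : A) : w7 a b * w10 a b = -(w33 a b) := by
  rw [h.ac, m10_7]; try abel
theorem wt5_7 (h : Eng A) (a b : A) :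
    (w15 a b * w4 a b = 0) ∧
    (w16 a b * w4 a b = w33 a b) ∧
    (w21 a b * w2 a b = -(w33 a b)) ∧
    (w25 a b * w1 a b = -(w33 a b)) ∧
    (w26 a b * w1 a b = w33 a b) ∧
    (w27 a b * w1 a b = 0) := by
  have c4_15 : w4 a b * w15 a b = -(w15 a b * w4 a b) := h.ac _ _
  have c4_16 : w4 a b * w16 a b = -(w16 a b * w4 a b) := h.ac _ _
  have c2_21 : w2 a b * w21 a b = -(w21 a b * w2 a b) := h.ac _ _
  have c1_25 : w1 a b * w25 a b = -(w25 a b * w1 a b) := h.ac _ _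
  have c1_26 : w1 a b * w26 a b = -(w26 a b * w1 a b) := h.ac _ _
  have c1_27 : w1 a b * w27 a b = -(w27 a b * w1 a b) := h.ac _ _
  have t0 := h.e2 (w7 a b) (w4 a b) (w0 a b)
  simp only [m7_0 h a b, m7_4 h a b, m8_4 a b, add_mul, sub_mul, neg_mul, zero_mul, add_zero, zero_add, neg_zero, neg_neg, sub_zero, zero_sub] at t0
  have t1 := h.e1 (w14 a b) (w1 a b)
  simp only [m14_1 h a b, m19_1 h a b, add_mul, sub_mul, neg_mul, zero_mul, add_zero, zero_add, neg_zero, neg_neg, sub_zero, zero_sub] at t1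
  have t2 := h.e3 (w7 a b) (w0 a b) (w1 a b) (w7 a b)
  simp only [h.sq (w7 a b), m10_7 a b, m7_0 h a b, m7_1 h a b, m8_1 a b, m8_7 a b, add_mul, sub_mul, neg_mul, zero_mul, add_zero, zero_add, neg_zero, neg_neg, sub_zero, zero_sub] at t2
  have t3 := h.e3 (w1 a b) (w0 a b) (w4 a b) (w10 a b)
  simp only [m1_0 a b, r1_10 h a b, r1_4 h a b, r2_10 h a b, r2_4 h a b, r7_10 h a b, add_mul, sub_mul, neg_mul, zero_mul, add_zero, zero_add, neg_zero, neg_neg, sub_zero, zero_sub] at t3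
  have t4 := h.e1 (w13 a b) (w1 a b)
  simp only [m13_1 h a b, m20_1 h a b, add_mul, sub_mul, neg_mul, zero_mul, add_zero, zero_add, neg_zero, neg_neg, sub_zero, zero_sub] at t4
  have t5 := h.e2 (w1 a b) (w2 a b) (w10 a b)
  simp only [m4_2 a b, r1_10 h a b, r1_2 h a b, r4_10 h a b, r7_10 h a b, add_mul, sub_mul, neg_mul, zero_mul, add_zero, zero_add, neg_zero, neg_neg, sub_zero, zero_sub] at t5
  refine ⟨?_, ?_, ?_, ?_, ?_, ?_⟩
  · linear_combination (norm := module) (-1 : ℤ) • t0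
  · linear_combination (norm := module) (-1 : ℤ) • t3
  · linear_combination (norm := module) (1 : ℤ) • t5
  · linear_combination (norm := module) (-1 : ℤ) • t2
  · linear_combination (norm := module) (1 : ℤ) • t2 + (1 : ℤ) • t4
  · linear_combination (norm := module) (-1 : ℤ) • t1
theorem m15_4 (h : Eng A) (a b : A) : w15 a b * w4 a b = 0 := (wt5_7 h a b).1
theorem r4_15 (h : Eng A) (a b : A) : w4 a b * w15 a b = 0 := by
  rw [h.ac, m15_4 h, neg_zero]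
theorem m16_4 (h : Eng A) (a b : A) : w16 a b * w4 a b = w33 a b := (wt5_7 h a b).2.1
theorem r4_16 (h : Eng A) (a b : A) : w4 a b * w16 a b = -(w33 a b) := by
  rw [h.ac, m16_4 h]; try abel
theorem m21_2 (h : Eng A) (a b : A) : w21 a b * w2 a b = -(w33 a b) := (wt5_7 h a b).2.2.1
theorem r2_21 (h : Eng A) (a b : A) : w2 a b * w21 a b = w33 a b := by
  rw [h.ac, m21_2 h]; try abel
theorem m25_1 (h : Eng A) (a b : A) : w25 a b * w1 a b = -(w33 a b) := (wt5_7 h a b).2.2.2.1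
theorem r1_25 (h : Eng A) (a b : A) : w1 a b * w25 a b = w33 a b := by
  rw [h.ac, m25_1 h]; try abel
theorem m26_1 (h : Eng A) (a b : A) : w26 a b * w1 a b = w33 a b := (wt5_7 h a b).2.2.2.2.1
theorem r1_26 (h : Eng A) (a b : A) : w1 a b * w26 a b = -(w33 a b) := by
  rw [h.ac, m26_1 h]; try abel
theorem m27_1 (h : Eng A) (a b : A) : w27 a b * w1 a b = 0 := (wt5_7 h a b).2.2.2.2.2
theorem r1_27 (h : Eng A) (a b : A) : w1 a b * w27 a b = 0 := by
  rw [h.ac, m27_1 h, neg_zero]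

theorem wt8_5 (h : Eng A) (a b : A) :
    (w17 a b * w3 a b = 0) ∧
    (w28 a b * w0 a b = 0) := by
  have c3_17 : w3 a b * w17 a b = -(w17 a b * w3 a b) := h.ac _ _
  have c0_28 : w0 a b * w28 a b = -(w28 a b * w0 a b) := h.ac _ _
  have t0 := h.e1 (w18 a b) (w0 a b)
  simp only [m18_0 h a b, m23_0 h a b, add_mul, sub_mul, neg_mul, zero_mul, add_zero, zero_add, neg_zero, neg_neg, sub_zero, zero_sub] at t0
  have t1 := h.e3 (w3 a b) (w0 a b) (w3 a b) (w8 a b)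
  simp only [h.sq (w3 a b), m13_0 h a b, m13_3 h a b, m3_0 h a b, r3_8 h a b, add_mul, sub_mul, neg_mul, zero_mul, add_zero, zero_add, neg_zero, neg_neg, sub_zero, zero_sub] at t1
  refine ⟨?_, ?_⟩
  · linear_combination (norm := module) (1 : ℤ) • t1
  · linear_combination (norm := module) (-1 : ℤ) • t0
theorem m17_3 (h : Eng A) (a b : A) : w17 a b * w3 a b = 0 := (wt8_5 h a b).1
theorem r3_17 (h : Eng A) (a b : A) : w3 a b * w17 a b = 0 := by
  rw [h.ac, m17_3 h, neg_zero]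
theorem m28_0 (h : Eng A) (a b : A) : w28 a b * w0 a b = 0 := (wt8_5 h a b).2
theorem r0_28 (h : Eng A) (a b : A) : w0 a b * w28 a b = 0 := by
  rw [h.ac, m28_0 h, neg_zero]

theorem m11_6 (a b : A) : w11 a b * w6 a b = w34 a b := rfl
theorem r6_11 (h : Eng A) (a b : A) : w6 a b * w11 a b = -(w34 a b) := by
  rw [h.ac, m11_6]; try abel
theorem m12_6 (a b : A) : w12 a b * w6 a b = w35 a b := rfl
theorem r6_12 (h : Eng A) (a b : A) : w6 a b * w12 a b = -(w35 a b) := by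
  rw [h.ac, m12_6]; try abel
theorem wt7_6 (h : Eng A) (a b : A) :
    (w9 a b * w8 a b = 0) ∧
    (w13 a b * w5 a b = w34 a b - w35 a b - w35 a b) ∧
    (w14 a b * w5 a b = w34 a b - w35 a b) ∧
    (w17 a b * w4 a b = w34 a b - w35 a b) ∧
    (w18 a b * w3 a b = -(w34 a b) + w35 a b + w35 a b) ∧
    (w19 a b * w3 a b = -(w35 a b)) ∧
    (w20 a b * w3 a b = -(w34 a b) + w35 a b + w35 a b) ∧
    (w22 a b * w2 a b = -(w34 a b)) ∧
    (w23 a b * w2 a b = w34 a b - w35 a b) ∧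
    (w24 a b * w2 a b = -(w34 a b)) ∧
    (w28 a b * w1 a b = w34 a b - w35 a b) ∧
    (w29 a b * w0 a b = 0) ∧
    (w30 a b * w0 a b = -(w34 a b) + w35 a b) ∧
    (w31 a b * w0 a b = w35 a b) ∧
    (w32 a b * w0 a b = -(w34 a b) + w35 a b + w35 a b) := by
  have c8_9 : w8 a b * w9 a b = -(w9 a b * w8 a b) := h.ac _ _
  have c5_13 : w5 a b * w13 a b = -(w13 a b * w5 a b) := h.ac _ _
  have c5_14 : w5 a b * w14 a b = -(w14 a b * w5 a b) := h.ac _ _
  have c4_17 : w4 a b * w17 a b = -(w17 a b * w4 a b) := h.ac _ _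
  have c3_18 : w3 a b * w18 a b = -(w18 a b * w3 a b) := h.ac _ _
  have c3_19 : w3 a b * w19 a b = -(w19 a b * w3 a b) := h.ac _ _
  have c3_20 : w3 a b * w20 a b = -(w20 a b * w3 a b) := h.ac _ _
  have c2_22 : w2 a b * w22 a b = -(w22 a b * w2 a b) := h.ac _ _
  have c2_23 : w2 a b * w23 a b = -(w23 a b * w2 a b) := h.ac _ _
  have c2_24 : w2 a b * w24 a b = -(w24 a b * w2 a b) := h.ac _ _
  have c1_28 : w1 a b * w28 a b = -(w28 a b * w1 a b) := h.ac _ _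
  have c0_29 : w0 a b * w29 a b = -(w29 a b * w0 a b) := h.ac _ _
  have c0_30 : w0 a b * w30 a b = -(w30 a b * w0 a b) := h.ac _ _
  have c0_31 : w0 a b * w31 a b = -(w31 a b * w0 a b) := h.ac _ _
  have c0_32 : w0 a b * w32 a b = -(w32 a b * w0 a b) := h.ac _ _
  have t0 := h.e2 (w7 a b) (w0 a b) (w8 a b)
  simp only [h.sq (w8 a b), m25_0 h a b, m7_0 h a b, m8_0 a b, r7_8 h a b, add_mul, sub_mul, neg_mul, zero_mul, add_zero, zero_add, neg_zero, neg_neg, sub_zero, zero_sub] at t0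
  have t1 := h.e2 (w11 a b) (w2 a b) (w0 a b)
  simp only [m11_0 h a b, m11_2 h a b, m14_2 h a b, add_mul, sub_mul, neg_mul, zero_mul, add_zero, zero_add, neg_zero, neg_neg, sub_zero, zero_sub] at t1
  have t2 := h.e3 (w7 a b) (w0 a b) (w2 a b) (w6 a b)
  simp only [m11_6 a b, m7_0 h a b, m7_2 h a b, m7_6 h a b, m8_2 a b, m8_6 a b, add_mul, sub_mul, neg_mul, zero_mul, add_zero, zero_add, neg_zero, neg_neg, sub_zero, zero_sub] at t2
  have t3 := h.e3 (w7 a b) (w0 a b) (w3 a b) (w5 a b)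
  simp only [m7_0 h a b, m7_3 h a b, m7_5 h a b, m8_3 a b, m8_5 a b, add_mul, sub_mul, neg_mul, zero_mul, add_zero, zero_add, neg_zero, neg_neg, sub_zero, zero_sub] at t3
  have t4 := h.e2 (w0 a b) (w1 a b) (w17 a b)
  simp only [c4_17, m2_1 a b, r0_1 h a b, r0_17 h a b, r2_17 h a b, add_mul, sub_mul, neg_mul, zero_mul, add_zero, zero_add, neg_zero, neg_neg, sub_zero, zero_sub] at t4
  have t5 := h.e3 (w3 a b) (w1 a b) (w3 a b) (w8 a b)
  simp only [h.sq (w3 a b), m13_1 h a b, m13_3 h a b, m3_1 a b, m5_3 h a b, r3_8 h a b, r5_8 h a b, add_mul, sub_mul, neg_mul, zero_mul, add_zero, zero_add, neg_zero, neg_neg, sub_zero, zero_sub] at t5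
  have t6 := h.e3 (w0 a b) (w1 a b) (w5 a b) (w9 a b)
  simp only [c8_9, m6_1 h a b, r0_1 h a b, r0_5 h a b, r0_9 h a b, r2_5 h a b, r2_9 h a b, r6_9 h a b, add_mul, sub_mul, neg_mul, zero_mul, add_zero, zero_add, neg_zero, neg_neg, sub_zero, zero_sub] at t6
  have t7 := h.e3 (w0 a b) (w2 a b) (w4 a b) (w9 a b)
  simp only [c8_9, m5_2 h a b, r0_2 h a b, r0_4 h a b, r0_9 h a b, r3_4 h a b, r3_9 h a b, r5_9 h a b, add_mul, sub_mul, neg_mul, zero_mul, add_zero, zero_add, neg_zero, neg_neg, sub_zero, zero_sub] at t7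
  have t8 := h.e3 (w6 a b) (w0 a b) (w1 a b) (w8 a b)
  simp only [h.sq (w8 a b), m22_0 h a b, m22_1 h a b, m6_0 h a b, m6_1 h a b, m8_0 a b, r6_8 h a b, add_mul, sub_mul, neg_mul, zero_mul, add_zero, zero_add, neg_zero, neg_neg, sub_zero, zero_sub] at t8
  have t9 := h.e3 (w0 a b) (w1 a b) (w3 a b) (w11 a b)
  simp only [m14_1 h a b, m14_3 h a b, r0_1 h a b, r0_11 h a b, r0_3 h a b, r2_11 h a b, r2_3 h a b, r6_11 h a b, add_mul, sub_mul, neg_mul, zero_mul, add_zero, zero_add, neg_zero, neg_neg, sub_zero, zero_sub] at t9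
  have t10 := h.e3 (w0 a b) (w1 a b) (w6 a b) (w8 a b)
  simp only [m11_6 a b, m12_6 a b, m9_1 a b, m9_6 a b, r0_1 h a b, r0_6 h a b, r0_8 h a b, r2_6 h a b, r2_8 h a b, add_mul, sub_mul, neg_mul, zero_mul, add_zero, zero_add, neg_zero, neg_neg, sub_zero, zero_sub] at t10
  have t11 := h.e3 (w0 a b) (w3 a b) (w4 a b) (w8 a b)
  simp only [m5_3 h a b, m9_3 a b, m9_4 a b, r0_3 h a b, r0_4 h a b, r0_8 h a b, r5_8 h a b, add_mul, sub_mul, neg_mul, zero_mul, add_zero, zero_add, neg_zero, neg_neg, sub_zero, zero_sub] at t11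
  have t12 := h.e2 (w4 a b) (w0 a b) (w12 a b)
  simp only [m26_0 h a b, m4_0 h a b, m5_0 h a b, r4_12 h a b, r5_12 h a b, r6_12 h a b, add_mul, sub_mul, neg_mul, zero_mul, add_zero, zero_add, neg_zero, neg_neg, sub_zero, zero_sub] at t12
  have t13 := h.e2 (w1 a b) (w0 a b) (w18 a b)
  simp only [c3_18, m1_0 a b, m26_0 h a b, m2_0 a b, r1_18 h a b, r2_18 h a b, add_mul, sub_mul, neg_mul, zero_mul, add_zero, zero_add, neg_zero, neg_neg, sub_zero, zero_sub] at t13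
  have t14 := h.e3 (w0 a b) (w0 a b) (w2 a b) (w16 a b)
  simp only [h.sq (w0 a b), m20_0 h a b, m20_2 h a b, m3_0 h a b, r0_16 h a b, r0_2 h a b, r3_16 h a b, add_mul, sub_mul, neg_mul, zero_mul, add_zero, zero_add, neg_zero, neg_neg, sub_zero, zero_sub] at t14
  refine ⟨?_, ?_, ?_, ?_, ?_, ?_, ?_, ?_, ?_, ?_, ?_, ?_, ?_, ?_, ?_⟩
  · apply h.cancel
    linear_combination (norm := module) (-3 : ℤ) • t0 + (-1 : ℤ) • t1 + (1 : ℤ) • t2 + (-1 : ℤ) • t4 + (1 : ℤ) • t9 + (2 : ℤ) • t10 + (-1 : ℤ) • t11 + (-2 : ℤ) • t12 + (1 : ℤ) • t13 + (-1 : ℤ) • t14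
  · linear_combination (norm := module) (-1 : ℤ) • t3 + (1 : ℤ) • t4 + (-1 : ℤ) • t9 + (-2 : ℤ) • t10 + (1 : ℤ) • t11
  · linear_combination (norm := module) (1 : ℤ) • t6 + (-1 : ℤ) • t10
  · linear_combination (norm := module) (1 : ℤ) • t4 + (-1 : ℤ) • t10
  · linear_combination (norm := module) (-1 : ℤ) • t4 + (1 : ℤ) • t9 + (2 : ℤ) • t10 + (-1 : ℤ) • t11
  · linear_combination (norm := module) (-1 : ℤ) • t9 + (-1 : ℤ) • t10
  · linear_combination (norm := module) (-1 : ℤ) • t4 + (1 : ℤ) • t5 + (1 : ℤ) • t9 + (2 : ℤ) • t10 + (-1 : ℤ) • t11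
  · linear_combination (norm := module) (-1 : ℤ) • t2
  · linear_combination (norm := module) (1 : ℤ) • t4 + (-1 : ℤ) • t7 + (-1 : ℤ) • t10
  · linear_combination (norm := module) (1 : ℤ) • t1 + (-1 : ℤ) • t2
  · linear_combination (norm := module) (-1 : ℤ) • t10
  · apply h.cancel
    linear_combination (norm := module) (-1 : ℤ) • t1 + (1 : ℤ) • t2 + (-1 : ℤ) • t4 + (1 : ℤ) • t9 + (2 : ℤ) • t10 + (-1 : ℤ) • t11 + (-2 : ℤ) • t12 + (1 : ℤ) • t13 + (-1 : ℤ) • t14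
  · apply h.cancel
    linear_combination (norm := module) (3 : ℤ) • t0 + (1 : ℤ) • t1 + (-1 : ℤ) • t2 + (1 : ℤ) • t4 + (3 : ℤ) • t8 + (-1 : ℤ) • t9 + (1 : ℤ) • t10 + (1 : ℤ) • t11 + (2 : ℤ) • t12 + (-1 : ℤ) • t13 + (1 : ℤ) • t14
  · apply h.cancel
    linear_combination (norm := module) (-1 : ℤ) • t1 + (1 : ℤ) • t2 + (-1 : ℤ) • t4 + (1 : ℤ) • t9 + (2 : ℤ) • t10 + (-1 : ℤ) • t11 + (1 : ℤ) • t12 + (1 : ℤ) • t13 + (-1 : ℤ) • t14
  · apply h.cancel
    linear_combination (norm := module) (1 : ℤ) • t1 + (-1 : ℤ) • t2 + (-2 : ℤ) • t4 + (2 : ℤ) • t9 + (4 : ℤ) • t10 + (-2 : ℤ) • t11 + (2 : ℤ) • t12 + (2 : ℤ) • t13 + (1 : ℤ) • t14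
theorem m9_8 (h : Eng A) (a b : A) : w9 a b * w8 a b = 0 := (wt7_6 h a b).1
theorem r8_9 (h : Eng A) (a b : A) : w8 a b * w9 a b = 0 := by
  rw [h.ac, m9_8 h, neg_zero]
theorem m13_5 (h : Eng A) (a b : A) : w13 a b * w5 a b = w34 a b - w35 a b - w35 a b := (wt7_6 h a b).2.1
theorem r5_13 (h : Eng A) (a b : A) : w5 a b * w13 a b = -(w34 a b) + w35 a b + w35 a b := by
  rw [h.ac, m13_5 h]; try abel
theorem m14_5 (h : Eng A) (a b : A) : w14 a b * w5 a b = w34 a b - w35 a b := (wt7_6 h a b).2.2.1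
theorem r5_14 (h : Eng A) (a b : A) : w5 a b * w14 a b = -(w34 a b) + w35 a b := by
  rw [h.ac, m14_5 h]; try abel
theorem m17_4 (h : Eng A) (a b : A) : w17 a b * w4 a b = w34 a b - w35 a b := (wt7_6 h a b).2.2.2.1
theorem r4_17 (h : Eng A) (a b : A) : w4 a b * w17 a b = -(w34 a b) + w35 a b := by
  rw [h.ac, m17_4 h]; try abel
theorem m18_3 (h : Eng A) (a b : A) : w18 a b * w3 a b = -(w34 a b) + w35 a b + w35 a b := (wt7_6 h a b).2.2.2.2.1
theorem r3_18 (h : Eng A) (a b : A) : w3 a b * w18 a b = w34 a b - w35 a b - w35 a b := by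
  rw [h.ac, m18_3 h]; try abel
theorem m19_3 (h : Eng A) (a b : A) : w19 a b * w3 a b = -(w35 a b) := (wt7_6 h a b).2.2.2.2.2.1
theorem r3_19 (h : Eng A) (a b : A) : w3 a b * w19 a b = w35 a b := by
  rw [h.ac, m19_3 h]; try abel
theorem m20_3 (h : Eng A) (a b : A) : w20 a b * w3 a b = -(w34 a b) + w35 a b + w35 a b := (wt7_6 h a b).2.2.2.2.2.2.1
theorem r3_20 (h : Eng A) (a b : A) : w3 a b * w20 a b = w34 a b - w35 a b - w35 a b := by
  rw [h.ac, m20_3 h]; try abel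
theorem m22_2 (h : Eng A) (a b : A) : w22 a b * w2 a b = -(w34 a b) := (wt7_6 h a b).2.2.2.2.2.2.2.1
theorem r2_22 (h : Eng A) (a b : A) : w2 a b * w22 a b = w34 a b := by
  rw [h.ac, m22_2 h]; try abel
theorem m23_2 (h : Eng A) (a b : A) : w23 a b * w2 a b = w34 a b - w35 a b := (wt7_6 h a b).2.2.2.2.2.2.2.2.1
theorem r2_23 (h : Eng A) (a b : A) : w2 a b * w23 a b = -(w34 a b) + w35 a b := by
  rw [h.ac, m23_2 h]; try abel
theorem m24_2 (h : Eng A) (a b : A) : w24 a b * w2 a b = -(w34 a b) := (wt7_6 h a b).2.2.2.2.2.2.2.2.2.1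
theorem r2_24 (h : Eng A) (a b : A) : w2 a b * w24 a b = w34 a b := by
  rw [h.ac, m24_2 h]; try abel
theorem m28_1 (h : Eng A) (a b : A) : w28 a b * w1 a b = w34 a b - w35 a b := (wt7_6 h a b).2.2.2.2.2.2.2.2.2.2.1
theorem r1_28 (h : Eng A) (a b : A) : w1 a b * w28 a b = -(w34 a b) + w35 a b := by
  rw [h.ac, m28_1 h]; try abel
theorem m29_0 (h : Eng A) (a b : A) : w29 a b * w0 a b = 0 := (wt7_6 h a b).2.2.2.2.2.2.2.2.2.2.2.1
theorem r0_29 (h : Eng A) (a b : A) : w0 a b * w29 a b = 0 := by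
  rw [h.ac, m29_0 h, neg_zero]
theorem m30_0 (h : Eng A) (a b : A) : w30 a b * w0 a b = -(w34 a b) + w35 a b := (wt7_6 h a b).2.2.2.2.2.2.2.2.2.2.2.2.1
theorem r0_30 (h : Eng A) (a b : A) : w0 a b * w30 a b = w34 a b - w35 a b := by
  rw [h.ac, m30_0 h]; try abel
theorem m31_0 (h : Eng A) (a b : A) : w31 a b * w0 a b = w35 a b := (wt7_6 h a b).2.2.2.2.2.2.2.2.2.2.2.2.2.1
theorem r0_31 (h : Eng A) (a b : A) : w0 a b * w31 a b = -(w35 a b) := by
  rw [h.ac, m31_0 h]; try abel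
theorem m32_0 (h : Eng A) (a b : A) : w32 a b * w0 a b = -(w34 a b) + w35 a b + w35 a b := (wt7_6 h a b).2.2.2.2.2.2.2.2.2.2.2.2.2.2
theorem r0_32 (h : Eng A) (a b : A) : w0 a b * w32 a b = w34 a b - w35 a b - w35 a b := by
  rw [h.ac, m32_0 h]; try abel

theorem m11_7 (a b : A) : w11 a b * w7 a b = w36 a b := rfl
theorem r7_11 (h : Eng A) (a b : A) : w7 a b * w11 a b = -(w36 a b) := by
  rw [h.ac, m11_7]; try abel
theorem m12_7 (a b : A) : w12 a b * w7 a b = w37 a b := rfl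
theorem r7_12 (h : Eng A) (a b : A) : w7 a b * w12 a b = -(w37 a b) := by
  rw [h.ac, m12_7]; try abel
theorem wt6_7 (h : Eng A) (a b : A) :
    (w10 a b * w8 a b = 0) ∧
    (w15 a b * w5 a b = w36 a b - w37 a b - w37 a b) ∧
    (w16 a b * w5 a b = w36 a b - w37 a b) ∧
    (w18 a b * w4 a b = -(w36 a b) + w37 a b + w37 a b) ∧
    (w19 a b * w4 a b = w36 a b - w37 a b - w37 a b) ∧
    (w20 a b * w4 a b = w37 a b) ∧
    (w21 a b * w3 a b = -(w36 a b) + w37 a b) ∧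
    (w25 a b * w2 a b = -(w36 a b)) ∧
    (w26 a b * w2 a b = w36 a b - w37 a b) ∧
    (w27 a b * w2 a b = -(w36 a b)) ∧
    (w29 a b * w1 a b = w36 a b - w37 a b) ∧
    (w30 a b * w1 a b = 0) ∧
    (w31 a b * w1 a b = w37 a b) ∧
    (w32 a b * w1 a b = -(w36 a b) + w37 a b + w37 a b) ∧
    (w33 a b * w0 a b = -(w36 a b) + w37 a b) := by
  have c8_10 : w8 a b * w10 a b = -(w10 a b * w8 a b) := h.ac _ _
  have c5_15 : w5 a b * w15 a b = -(w15 a b * w5 a b) := h.ac _ _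
  have c5_16 : w5 a b * w16 a b = -(w16 a b * w5 a b) := h.ac _ _
  have c4_18 : w4 a b * w18 a b = -(w18 a b * w4 a b) := h.ac _ _
  have c4_19 : w4 a b * w19 a b = -(w19 a b * w4 a b) := h.ac _ _
  have c4_20 : w4 a b * w20 a b = -(w20 a b * w4 a b) := h.ac _ _
  have c3_21 : w3 a b * w21 a b = -(w21 a b * w3 a b) := h.ac _ _
  have c2_25 : w2 a b * w25 a b = -(w25 a b * w2 a b) := h.ac _ _
  have c2_26 : w2 a b * w26 a b = -(w26 a b * w2 a b) := h.ac _ _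
  have c2_27 : w2 a b * w27 a b = -(w27 a b * w2 a b) := h.ac _ _
  have c1_29 : w1 a b * w29 a b = -(w29 a b * w1 a b) := h.ac _ _
  have c1_30 : w1 a b * w30 a b = -(w30 a b * w1 a b) := h.ac _ _
  have c1_31 : w1 a b * w31 a b = -(w31 a b * w1 a b) := h.ac _ _
  have c1_32 : w1 a b * w32 a b = -(w32 a b * w1 a b) := h.ac _ _
  have c0_33 : w0 a b * w33 a b = -(w33 a b * w0 a b) := h.ac _ _
  have t0 := h.e2 (w1 a b) (w0 a b) (w21 a b)
  simp only [c3_21, m1_0 a b, m2_0 a b, r1_21 h a b, r2_21 h a b, add_mul, sub_mul, neg_mul, zero_mul, add_zero, zero_add, neg_zero, neg_neg, sub_zero, zero_sub] at t0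
  have t1 := h.e3 (w7 a b) (w0 a b) (w2 a b) (w7 a b)
  simp only [h.sq (w7 a b), m11_7 a b, m7_0 h a b, m7_2 h a b, m8_2 a b, m8_7 a b, add_mul, sub_mul, neg_mul, zero_mul, add_zero, zero_add, neg_zero, neg_neg, sub_zero, zero_sub] at t1
  have t2 := h.e3 (w7 a b) (w0 a b) (w4 a b) (w5 a b)
  simp only [m7_0 h a b, m7_4 h a b, m7_5 h a b, m8_4 a b, m8_5 a b, add_mul, sub_mul, neg_mul, zero_mul, add_zero, zero_add, neg_zero, neg_neg, sub_zero, zero_sub] at t2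
  have t3 := h.e3 (w4 a b) (w0 a b) (w4 a b) (w8 a b)
  simp only [h.sq (w4 a b), m15_0 h a b, m15_4 h a b, m4_0 h a b, m5_4 h a b, r4_8 h a b, r5_8 h a b, add_mul, sub_mul, neg_mul, zero_mul, add_zero, zero_add, neg_zero, neg_neg, sub_zero, zero_sub] at t3
  have t4 := h.e2 (w6 a b) (w1 a b) (w8 a b)
  simp only [h.sq (w8 a b), m22_1 h a b, m6_1 h a b, m8_1 a b, r6_8 h a b, add_mul, sub_mul, neg_mul, zero_mul, add_zero, zero_add, neg_zero, neg_neg, sub_zero, zero_sub] at t4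
  have t5 := h.e2 (w11 a b) (w2 a b) (w1 a b)
  simp only [m11_1 h a b, m11_2 h a b, m16_2 h a b, add_mul, sub_mul, neg_mul, zero_mul, add_zero, zero_add, neg_zero, neg_neg, sub_zero, zero_sub] at t5
  have t6 := h.e3 (w1 a b) (w0 a b) (w5 a b) (w10 a b)
  simp only [c8_10, m1_0 a b, m7_0 h a b, r1_10 h a b, r1_5 h a b, r2_10 h a b, r2_5 h a b, r7_10 h a b, add_mul, sub_mul, neg_mul, zero_mul, add_zero, zero_add, neg_zero, neg_neg, sub_zero, zero_sub] at t6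
  have t7 := h.e3 (w1 a b) (w2 a b) (w3 a b) (w10 a b)
  simp only [c8_10, m4_3 a b, m5_2 h a b, r1_10 h a b, r1_2 h a b, r1_3 h a b, r4_10 h a b, r5_10 h a b, add_mul, sub_mul, neg_mul, zero_mul, add_zero, zero_add, neg_zero, neg_neg, sub_zero, zero_sub] at t7
  have t8 := h.e3 (w7 a b) (w0 a b) (w1 a b) (w8 a b)
  simp only [h.sq (w8 a b), m25_0 h a b, m25_1 h a b, m7_0 h a b, m7_1 h a b, m8_1 a b, r7_8 h a b, add_mul, sub_mul, neg_mul, zero_mul, add_zero, zero_add, neg_zero, neg_neg, sub_zero, zero_sub] at t8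
  have t9 := h.e3 (w1 a b) (w0 a b) (w4 a b) (w11 a b)
  simp only [m16_0 h a b, m16_4 h a b, m1_0 a b, r1_11 h a b, r1_4 h a b, r2_11 h a b, r2_4 h a b, r7_11 h a b, add_mul, sub_mul, neg_mul, zero_mul, add_zero, zero_add, neg_zero, neg_neg, sub_zero, zero_sub] at t9
  have t10 := h.e3 (w1 a b) (w0 a b) (w7 a b) (w8 a b)
  simp only [m10_0 h a b, m10_7 a b, m11_7 a b, m12_7 a b, m1_0 a b, r1_7 h a b, r1_8 h a b, r2_7 h a b, r2_8 h a b, add_mul, sub_mul, neg_mul, zero_mul, add_zero, zero_add, neg_zero, neg_neg, sub_zero, zero_sub] at t10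
  have t11 := h.e3 (w1 a b) (w3 a b) (w4 a b) (w8 a b)
  simp only [m10_3 a b, m10_4 a b, m5_4 h a b, r1_3 h a b, r1_4 h a b, r1_8 h a b, r5_8 h a b, add_mul, sub_mul, neg_mul, zero_mul, add_zero, zero_add, neg_zero, neg_neg, sub_zero, zero_sub] at t11
  have t12 := h.e3 (w1 a b) (w0 a b) (w1 a b) (w19 a b)
  simp only [c4_19, h.sq (w1 a b), m1_0 a b, m27_0 h a b, m27_1 h a b, m2_1 a b, r1_19 h a b, r2_19 h a b, add_mul, sub_mul, neg_mul, zero_mul, add_zero, zero_add, neg_zero, neg_neg, sub_zero, zero_sub] at t12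
  have t13 := h.e2 (w0 a b) (w1 a b) (w18 a b)
  simp only [c4_18, m23_1 h a b, m2_1 a b, r0_1 h a b, r0_18 h a b, r2_18 h a b, add_mul, sub_mul, neg_mul, zero_mul, add_zero, zero_add, neg_zero, neg_neg, sub_zero, zero_sub] at t13
  have t14 := h.e3 (w1 a b) (w1 a b) (w2 a b) (w14 a b)
  simp only [h.sq (w1 a b), m19_1 h a b, m19_2 h a b, m4_1 h a b, r1_14 h a b, r1_2 h a b, r4_14 h a b, add_mul, sub_mul, neg_mul, zero_mul, add_zero, zero_add, neg_zero, neg_neg, sub_zero, zero_sub] at t14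
  refine ⟨?_, ?_, ?_, ?_, ?_, ?_, ?_, ?_, ?_, ?_, ?_, ?_, ?_, ?_, ?_⟩
  · apply h.cancel
    linear_combination (norm := module) (1 : ℤ) • t0 + (1 : ℤ) • t1 + (2 : ℤ) • t3 + (1 : ℤ) • t4 + (-1 : ℤ) • t5 + (-2 : ℤ) • t8 + (1 : ℤ) • t9 + (-1 : ℤ) • t11 + (2 : ℤ) • t12 + (-1 : ℤ) • t13 + (1 : ℤ) • t14
  · linear_combination (norm := module) (1 : ℤ) • t0 + (-1 : ℤ) • t2 + (1 : ℤ) • t9 + (2 : ℤ) • t10 + (-1 : ℤ) • t11
  · linear_combination (norm := module) (-1 : ℤ) • t6 + (1 : ℤ) • t10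
  · linear_combination (norm := module) (-1 : ℤ) • t0 + (-1 : ℤ) • t9 + (-2 : ℤ) • t10 + (1 : ℤ) • t11
  · linear_combination (norm := module) (1 : ℤ) • t0 + (1 : ℤ) • t3 + (1 : ℤ) • t9 + (2 : ℤ) • t10 + (-1 : ℤ) • t11
  · linear_combination (norm := module) (-1 : ℤ) • t9 + (-1 : ℤ) • t10
  · linear_combination (norm := module) (-1 : ℤ) • t0 + (-1 : ℤ) • t10
  · linear_combination (norm := module) (-1 : ℤ) • t1
  · linear_combination (norm := module) (1 : ℤ) • t0 + (1 : ℤ) • t7 + (1 : ℤ) • t10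
  · linear_combination (norm := module) (-1 : ℤ) • t1 + (1 : ℤ) • t5
  · apply h.cancel
    linear_combination (norm := module) (1 : ℤ) • t0 + (1 : ℤ) • t1 + (2 : ℤ) • t3 + (1 : ℤ) • t4 + (-1 : ℤ) • t5 + (1 : ℤ) • t8 + (1 : ℤ) • t9 + (3 : ℤ) • t10 + (-1 : ℤ) • t11 + (2 : ℤ) • t12 + (-1 : ℤ) • t13 + (1 : ℤ) • t14
  · apply h.cancel
    linear_combination (norm := module) (-1 : ℤ) • t0 + (-1 : ℤ) • t1 + (-2 : ℤ) • t3 + (2 : ℤ) • t4 + (1 : ℤ) • t5 + (2 : ℤ) • t8 + (-1 : ℤ) • t9 + (1 : ℤ) • t11 + (-2 : ℤ) • t12 + (1 : ℤ) • t13 + (-1 : ℤ) • t14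
  · apply h.cancel
    linear_combination (norm := module) (-2 : ℤ) • t0 + (1 : ℤ) • t1 + (-1 : ℤ) • t3 + (1 : ℤ) • t4 + (-1 : ℤ) • t5 + (1 : ℤ) • t8 + (-2 : ℤ) • t9 + (-3 : ℤ) • t10 + (2 : ℤ) • t11 + (-1 : ℤ) • t12 + (-1 : ℤ) • t13 + (1 : ℤ) • t14
  · apply h.cancel
    linear_combination (norm := module) (-4 : ℤ) • t0 + (-1 : ℤ) • t1 + (-2 : ℤ) • t3 + (2 : ℤ) • t4 + (1 : ℤ) • t5 + (2 : ℤ) • t8 + (-4 : ℤ) • t9 + (-6 : ℤ) • t10 + (4 : ℤ) • t11 + (-2 : ℤ) • t12 + (-2 : ℤ) • t13 + (-1 : ℤ) • t14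
  · linear_combination (norm := module) (-1 : ℤ) • t10
theorem m10_8 (h : Eng A) (a b : A) : w10 a b * w8 a b = 0 := (wt6_7 h a b).1
theorem r8_10 (h : Eng A) (a b : A) : w8 a b * w10 a b = 0 := by
  rw [h.ac, m10_8 h, neg_zero]
theorem m15_5 (h : Eng A) (a b : A) : w15 a b * w5 a b = w36 a b - w37 a b - w37 a b := (wt6_7 h a b).2.1
theorem r5_15 (h : Eng A) (a b : A) : w5 a b * w15 a b = -(w36 a b) + w37 a b + w37 a b := by
  rw [h.ac, m15_5 h]; try abel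
theorem m16_5 (h : Eng A) (a b : A) : w16 a b * w5 a b = w36 a b - w37 a b := (wt6_7 h a b).2.2.1
theorem r5_16 (h : Eng A) (a b : A) : w5 a b * w16 a b = -(w36 a b) + w37 a b := by
  rw [h.ac, m16_5 h]; try abel
theorem m18_4 (h : Eng A) (a b : A) : w18 a b * w4 a b = -(w36 a b) + w37 a b + w37 a b := (wt6_7 h a b).2.2.2.1
theorem r4_18 (h : Eng A) (a b : A) : w4 a b * w18 a b = w36 a b - w37 a b - w37 a b := by
  rw [h.ac, m18_4 h]; try abel
theorem m19_4 (h : Eng A) (a b : A) : w19 a b * w4 a b = w36 a b - w37 a b - w37 a b := (wt6_7 h a b).2.2.2.2.1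
theorem r4_19 (h : Eng A) (a b : A) : w4 a b * w19 a b = -(w36 a b) + w37 a b + w37 a b := by
  rw [h.ac, m19_4 h]; try abel
theorem m20_4 (h : Eng A) (a b : A) : w20 a b * w4 a b = w37 a b := (wt6_7 h a b).2.2.2.2.2.1
theorem r4_20 (h : Eng A) (a b : A) : w4 a b * w20 a b = -(w37 a b) := by
  rw [h.ac, m20_4 h]; try abel
theorem m21_3 (h : Eng A) (a b : A) : w21 a b * w3 a b = -(w36 a b) + w37 a b := (wt6_7 h a b).2.2.2.2.2.2.1
theorem r3_21 (h : Eng A) (a b : A) : w3 a b * w21 a b = w36 a b - w37 a b := by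
  rw [h.ac, m21_3 h]; try abel
theorem m25_2 (h : Eng A) (a b : A) : w25 a b * w2 a b = -(w36 a b) := (wt6_7 h a b).2.2.2.2.2.2.2.1
theorem r2_25 (h : Eng A) (a b : A) : w2 a b * w25 a b = w36 a b := by
  rw [h.ac, m25_2 h]; try abel
theorem m26_2 (h : Eng A) (a b : A) : w26 a b * w2 a b = w36 a b - w37 a b := (wt6_7 h a b).2.2.2.2.2.2.2.2.1
theorem r2_26 (h : Eng A) (a b : A) : w2 a b * w26 a b = -(w36 a b) + w37 a b := by
  rw [h.ac, m26_2 h]; try abel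
theorem m27_2 (h : Eng A) (a b : A) : w27 a b * w2 a b = -(w36 a b) := (wt6_7 h a b).2.2.2.2.2.2.2.2.2.1
theorem r2_27 (h : Eng A) (a b : A) : w2 a b * w27 a b = w36 a b := by
  rw [h.ac, m27_2 h]; try abel
theorem m29_1 (h : Eng A) (a b : A) : w29 a b * w1 a b = w36 a b - w37 a b := (wt6_7 h a b).2.2.2.2.2.2.2.2.2.2.1
theorem r1_29 (h : Eng A) (a b : A) : w1 a b * w29 a b = -(w36 a b) + w37 a b := by
  rw [h.ac, m29_1 h]; try abel
theorem m30_1 (h : Eng A) (a b : A) : w30 a b * w1 a b = 0 := (wt6_7 h a b).2.2.2.2.2.2.2.2.2.2.2.1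
theorem r1_30 (h : Eng A) (a b : A) : w1 a b * w30 a b = 0 := by
  rw [h.ac, m30_1 h, neg_zero]
theorem m31_1 (h : Eng A) (a b : A) : w31 a b * w1 a b = w37 a b := (wt6_7 h a b).2.2.2.2.2.2.2.2.2.2.2.2.1
theorem r1_31 (h : Eng A) (a b : A) : w1 a b * w31 a b = -(w37 a b) := by
  rw [h.ac, m31_1 h]; try abel
theorem m32_1 (h : Eng A) (a b : A) : w32 a b * w1 a b = -(w36 a b) + w37 a b + w37 a b := (wt6_7 h a b).2.2.2.2.2.2.2.2.2.2.2.2.2.1
theorem r1_32 (h : Eng A) (a b : A) : w1 a b * w32 a b = w36 a b - w37 a b - w37 a b := by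
  rw [h.ac, m32_1 h]; try abel
theorem m33_0 (h : Eng A) (a b : A) : w33 a b * w0 a b = -(w36 a b) + w37 a b := (wt6_7 h a b).2.2.2.2.2.2.2.2.2.2.2.2.2.2
theorem r0_33 (h : Eng A) (a b : A) : w0 a b * w33 a b = w36 a b - w37 a b := by
  rw [h.ac, m33_0 h]; try abel

theorem wt5_8 (h : Eng A) (a b : A) :
    (w21 a b * w4 a b = 0) ∧
    (w33 a b * w1 a b = 0) := by
  have c4_21 : w4 a b * w21 a b = -(w21 a b * w4 a b) := h.ac _ _
  have c1_33 : w1 a b * w33 a b = -(w33 a b * w1 a b) := h.ac _ _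
  have t0 := h.e1 (w18 a b) (w1 a b)
  simp only [m18_1 h a b, m26_1 h a b, add_mul, sub_mul, neg_mul, zero_mul, add_zero, zero_add, neg_zero, neg_neg, sub_zero, zero_sub] at t0
  have t1 := h.e3 (w4 a b) (w1 a b) (w4 a b) (w8 a b)
  simp only [h.sq (w4 a b), m15_1 h a b, m15_4 h a b, m4_1 h a b, r4_8 h a b, add_mul, sub_mul, neg_mul, zero_mul, add_zero, zero_add, neg_zero, neg_neg, sub_zero, zero_sub] at t1
  refine ⟨?_, ?_⟩
  · linear_combination (norm := module) (1 : ℤ) • t1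
  · linear_combination (norm := module) (-1 : ℤ) • t0
theorem m21_4 (h : Eng A) (a b : A) : w21 a b * w4 a b = 0 := (wt5_8 h a b).1
theorem r4_21 (h : Eng A) (a b : A) : w4 a b * w21 a b = 0 := by
  rw [h.ac, m21_4 h, neg_zero]
theorem m33_1 (h : Eng A) (a b : A) : w33 a b * w1 a b = 0 := (wt5_8 h a b).2
theorem r1_33 (h : Eng A) (a b : A) : w1 a b * w33 a b = 0 := by
  rw [h.ac, m33_1 h, neg_zero]

end Pool.Agent.H461R3.E3
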