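import Pool.Agent.H461R3.E3.D13

set_option autoImplicit false
set_option linter.all false
set_option linter.unusedSimpArgs false
set_option linter.unusedVariables false

namespace Pool.Agent.H461R3.E3

universe u

variable {A : Type u} [NonUnitalNonAssocRing A]

theorem m13_6 (a b : A) : w13 a b * w6 a b = w38 a b := rfl
theorem r6_13 (h : Eng A) (a b : A) : w6 a b * w13 a b = -(w38 a b) := by
  rw [h.ac, m13_6]; try abel
theorem wt8_6 (h : Eng A) (a b : A) :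
    (w14 a b * w6 a b = 0) ∧
    (w17 a b * w5 a b = w38 a b) ∧
    (w22 a b * w3 a b = -(w38 a b)) ∧
    (w23 a b * w3 a b = 0) ∧
    (w24 a b * w3 a b = -(w38 a b)) ∧
    (w28 a b * w2 a b = w38 a b) ∧
    (w34 a b * w0 a b = -(w38 a b)) ∧
    (w35 a b * w0 a b = -(w38 a b)) := by
  have c6_14 : w6 a b * w14 a b = -(w14 a b * w6 a b) := h.ac _ _
  have c5_17 : w5 a b * w17 a b = -(w17 a b * w5 a b) := h.ac _ _
  have c3_22 : w3 a b * w22 a b = -(w22 a b * w3 a b) := h.ac _ _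
  have c3_23 : w3 a b * w23 a b = -(w23 a b * w3 a b) := h.ac _ _
  have c3_24 : w3 a b * w24 a b = -(w24 a b * w3 a b) := h.ac _ _
  have c2_28 : w2 a b * w28 a b = -(w28 a b * w2 a b) := h.ac _ _
  have c0_34 : w0 a b * w34 a b = -(w34 a b * w0 a b) := h.ac _ _
  have c0_35 : w0 a b * w35 a b = -(w35 a b * w0 a b) := h.ac _ _
  have t0 := h.e3 (w0 a b) (w1 a b) (w6 a b) (w9 a b)
  simp only [r0_1 h a b, r0_6 h a b, r0_9 h a b, r2_6 h a b, r2_9 h a b, add_mul, sub_mul, neg_mul, zero_mul, add_zero, zero_add, neg_zero, neg_neg, sub_zero, zero_sub] at t0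
  have t1 := h.e2 (w0 a b) (w3 a b) (w10 a b)
  simp only [m12_3 h a b, r0_10 h a b, r0_3 h a b, add_mul, sub_mul, neg_mul, zero_mul, add_zero, zero_add, neg_zero, neg_neg, sub_zero, zero_sub] at t1
  have t2 := h.e1 (w27 a b) (w0 a b)
  simp only [m27_0 h a b, m29_0 h a b, m30_0 h a b, add_mul, sub_mul, neg_mul, zero_mul, add_zero, zero_add, neg_zero, neg_neg, sub_zero, zero_sub] at t2
  have t3 := h.e3 (w0 a b) (w0 a b) (w1 a b) (w24 a b)
  simp only [c3_24, h.sq (w0 a b), m2_0 a b, r0_1 h a b, r0_24 h a b, r2_24 h a b, add_mul, sub_mul, neg_mul, zero_mul, add_zero, zero_add, neg_zero, neg_neg, sub_zero, zero_sub] at t3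
  have t4 := h.e2 (w13 a b) (w2 a b) (w0 a b)
  simp only [m13_0 h a b, m13_2 h a b, m17_2 h a b, m24_0 h a b, m24_2 h a b, add_mul, sub_mul, neg_mul, zero_mul, add_zero, zero_add, neg_zero, neg_neg, sub_zero, zero_sub] at t4
  have t5 := h.e3 (w2 a b) (w0 a b) (w2 a b) (w13 a b)
  simp only [h.sq (w2 a b), m24_0 h a b, m24_2 h a b, m2_0 a b, m3_2 a b, r2_13 h a b, r3_13 h a b, r6_13 h a b, add_mul, sub_mul, neg_mul, zero_mul, add_zero, zero_add, neg_zero, neg_neg, sub_zero, zero_sub] at t5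
  have t6 := h.e3 (w7 a b) (w0 a b) (w3 a b) (w6 a b)
  simp only [m13_6 a b, m7_0 h a b, m7_3 h a b, m7_6 h a b, m8_3 a b, m8_6 a b, add_mul, sub_mul, neg_mul, zero_mul, add_zero, zero_add, neg_zero, neg_neg, sub_zero, zero_sub] at t6
  have t7 := h.e3 (w0 a b) (w1 a b) (w2 a b) (w17 a b)
  simp only [c5_17, h.sq (w2 a b), m3_1 a b, r0_1 h a b, r0_17 h a b, r0_2 h a b, r2_17 h a b, r3_17 h a b, add_mul, sub_mul, neg_mul, zero_mul, add_zero, zero_add, neg_zero, neg_neg, sub_zero, zero_sub] at t7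
  refine ⟨?_, ?_, ?_, ?_, ?_, ?_, ?_, ?_⟩
  · linear_combination (norm := module) (1 : ℤ) • t0
  · linear_combination (norm := module) (1 : ℤ) • t4 + (1 : ℤ) • t5 + (1 : ℤ) • t7
  · linear_combination (norm := module) (-1 : ℤ) • t6
  · linear_combination (norm := module) (1 : ℤ) • t1
  · linear_combination (norm := module) (1 : ℤ) • t3 + (-1 : ℤ) • t5
  · linear_combination (norm := module) (1 : ℤ) • t4 + (1 : ℤ) • t5
  · linear_combination (norm := module) (-1 : ℤ) • t5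
  · linear_combination (norm := module) (1 : ℤ) • t2 + (-1 : ℤ) • t5
theorem m14_6 (h : Eng A) (a b : A) : w14 a b * w6 a b = 0 := (wt8_6 h a b).1
theorem r6_14 (h : Eng A) (a b : A) : w6 a b * w14 a b = 0 := by
  rw [h.ac, m14_6 h, neg_zero]
theorem m17_5 (h : Eng A) (a b : A) : w17 a b * w5 a b = w38 a b := (wt8_6 h a b).2.1
theorem r5_17 (h : Eng A) (a b : A) : w5 a b * w17 a b = -(w38 a b) := by
  rw [h.ac, m17_5 h]; try abel
theorem m22_3 (h : Eng A) (a b : A) : w22 a b * w3 a b = -(w38 a b) := (wt8_6 h a b).2.2.1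
theorem r3_22 (h : Eng A) (a b : A) : w3 a b * w22 a b = w38 a b := by
  rw [h.ac, m22_3 h]; try abel
theorem m23_3 (h : Eng A) (a b : A) : w23 a b * w3 a b = 0 := (wt8_6 h a b).2.2.2.1
theorem r3_23 (h : Eng A) (a b : A) : w3 a b * w23 a b = 0 := by
  rw [h.ac, m23_3 h, neg_zero]
theorem m24_3 (h : Eng A) (a b : A) : w24 a b * w3 a b = -(w38 a b) := (wt8_6 h a b).2.2.2.2.1
theorem r3_24 (h : Eng A) (a b : A) : w3 a b * w24 a b = w38 a b := by
  rw [h.ac, m24_3 h]; try abel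
theorem m28_2 (h : Eng A) (a b : A) : w28 a b * w2 a b = w38 a b := (wt8_6 h a b).2.2.2.2.2.1
theorem r2_28 (h : Eng A) (a b : A) : w2 a b * w28 a b = -(w38 a b) := by
  rw [h.ac, m28_2 h]; try abel
theorem m34_0 (h : Eng A) (a b : A) : w34 a b * w0 a b = -(w38 a b) := (wt8_6 h a b).2.2.2.2.2.2.1
theorem r0_34 (h : Eng A) (a b : A) : w0 a b * w34 a b = w38 a b := by
  rw [h.ac, m34_0 h]; try abel
theorem m35_0 (h : Eng A) (a b : A) : w35 a b * w0 a b = -(w38 a b) := (wt8_6 h a b).2.2.2.2.2.2.2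
theorem r0_35 (h : Eng A) (a b : A) : w0 a b * w35 a b = w38 a b := by
  rw [h.ac, m35_0 h]; try abel

theorem m13_7 (a b : A) : w13 a b * w7 a b = w39 a b := rfl
theorem r7_13 (h : Eng A) (a b : A) : w7 a b * w13 a b = -(w39 a b) := by
  rw [h.ac, m13_7]; try abel
theorem wt7_7 (h : Eng A) (a b : A) :
    (w10 a b * w9 a b = 0) ∧
    (w11 a b * w8 a b = 0) ∧
    (w12 a b * w8 a b = 0) ∧
    (w14 a b * w7 a b = 0) ∧
    (w15 a b * w6 a b = w39 a b) ∧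
    (w16 a b * w6 a b = 0) ∧
    (w18 a b * w5 a b = 0) ∧
    (w19 a b * w5 a b = w39 a b) ∧
    (w20 a b * w5 a b = w39 a b) ∧
    (w22 a b * w4 a b = -(w39 a b)) ∧
    (w23 a b * w4 a b = 0) ∧
    (w24 a b * w4 a b = -(w39 a b)) ∧
    (w25 a b * w3 a b = -(w39 a b)) ∧
    (w26 a b * w3 a b = 0) ∧
    (w27 a b * w3 a b = -(w39 a b)) ∧
    (w29 a b * w2 a b = w39 a b) ∧
    (w30 a b * w2 a b = w39 a b) ∧
    (w31 a b * w2 a b = 0) ∧
    (w32 a b * w2 a b = 0) ∧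
    (w34 a b * w1 a b = -(w39 a b)) ∧
    (w35 a b * w1 a b = -(w39 a b)) ∧
    (w36 a b * w0 a b = -(w39 a b)) ∧
    (w37 a b * w0 a b = -(w39 a b)) := by
  have c9_10 : w9 a b * w10 a b = -(w10 a b * w9 a b) := h.ac _ _
  have c8_11 : w8 a b * w11 a b = -(w11 a b * w8 a b) := h.ac _ _
  have c8_12 : w8 a b * w12 a b = -(w12 a b * w8 a b) := h.ac _ _
  have c7_14 : w7 a b * w14 a b = -(w14 a b * w7 a b) := h.ac _ _
  have c6_15 : w6 a b * w15 a b = -(w15 a b * w6 a b) := h.ac _ _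
  have c6_16 : w6 a b * w16 a b = -(w16 a b * w6 a b) := h.ac _ _
  have c5_18 : w5 a b * w18 a b = -(w18 a b * w5 a b) := h.ac _ _
  have c5_19 : w5 a b * w19 a b = -(w19 a b * w5 a b) := h.ac _ _
  have c5_20 : w5 a b * w20 a b = -(w20 a b * w5 a b) := h.ac _ _
  have c4_22 : w4 a b * w22 a b = -(w22 a b * w4 a b) := h.ac _ _
  have c4_23 : w4 a b * w23 a b = -(w23 a b * w4 a b) := h.ac _ _
  have c4_24 : w4 a b * w24 a b = -(w24 a b * w4 a b) := h.ac _ _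
  have c3_25 : w3 a b * w25 a b = -(w25 a b * w3 a b) := h.ac _ _
  have c3_26 : w3 a b * w26 a b = -(w26 a b * w3 a b) := h.ac _ _
  have c3_27 : w3 a b * w27 a b = -(w27 a b * w3 a b) := h.ac _ _
  have c2_29 : w2 a b * w29 a b = -(w29 a b * w2 a b) := h.ac _ _
  have c2_30 : w2 a b * w30 a b = -(w30 a b * w2 a b) := h.ac _ _
  have c2_31 : w2 a b * w31 a b = -(w31 a b * w2 a b) := h.ac _ _
  have c2_32 : w2 a b * w32 a b = -(w32 a b * w2 a b) := h.ac _ _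
  have c1_34 : w1 a b * w34 a b = -(w34 a b * w1 a b) := h.ac _ _
  have c1_35 : w1 a b * w35 a b = -(w35 a b * w1 a b) := h.ac _ _
  have c0_36 : w0 a b * w36 a b = -(w36 a b * w0 a b) := h.ac _ _
  have c0_37 : w0 a b * w37 a b = -(w37 a b * w0 a b) := h.ac _ _
  have t0 := h.e2 (w7 a b) (w5 a b) (w0 a b)
  simp only [m7_0 h a b, m7_5 h a b, m8_5 a b, add_mul, sub_mul, neg_mul, zero_mul, add_zero, zero_add, neg_zero, neg_neg, sub_zero, zero_sub] at t0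
  have t1 := h.e2 (w1 a b) (w3 a b) (w10 a b)
  simp only [m5_3 h a b, r1_10 h a b, r1_3 h a b, r5_10 h a b, add_mul, sub_mul, neg_mul, zero_mul, add_zero, zero_add, neg_zero, neg_neg, sub_zero, zero_sub] at t1
  have t2 := h.e2 (w0 a b) (w4 a b) (w9 a b)
  simp only [m5_4 h a b, r0_4 h a b, r0_9 h a b, r5_9 h a b, add_mul, sub_mul, neg_mul, zero_mul, add_zero, zero_add, neg_zero, neg_neg, sub_zero, zero_sub] at t2
  have t3 := h.e2 (w1 a b) (w0 a b) (w27 a b)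
  simp only [c3_27, m1_0 a b, m2_0 a b, r1_27 h a b, r2_27 h a b, add_mul, sub_mul, neg_mul, zero_mul, add_zero, zero_add, neg_zero, neg_neg, sub_zero, zero_sub] at t3
  have t4 := h.e3 (w7 a b) (w0 a b) (w3 a b) (w7 a b)
  simp only [h.sq (w7 a b), m13_7 a b, m7_0 h a b, m7_3 h a b, m8_3 a b, m8_7 a b, add_mul, sub_mul, neg_mul, zero_mul, add_zero, zero_add, neg_zero, neg_neg, sub_zero, zero_sub] at t4
  have t5 := h.e3 (w7 a b) (w0 a b) (w4 a b) (w6 a b)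
  simp only [m7_0 h a b, m7_4 h a b, m7_6 h a b, m8_4 a b, m8_6 a b, add_mul, sub_mul, neg_mul, zero_mul, add_zero, zero_add, neg_zero, neg_neg, sub_zero, zero_sub] at t5
  have t6 := h.e3 (w1 a b) (w0 a b) (w6 a b) (w10 a b)
  simp only [c9_10, m1_0 a b, m8_0 a b, r1_10 h a b, r1_6 h a b, r2_10 h a b, r2_6 h a b, r8_10 h a b, add_mul, sub_mul, neg_mul, zero_mul, add_zero, zero_add, neg_zero, neg_neg, sub_zero, zero_sub] at t6
  have t7 := h.e2 (w1 a b) (w8 a b) (w0 a b)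
  simp only [m10_0 h a b, m10_8 h a b, m1_0 a b, r1_8 h a b, r2_8 h a b, add_mul, sub_mul, neg_mul, zero_mul, add_zero, zero_add, neg_zero, neg_neg, sub_zero, zero_sub] at t7
  have t8 := h.e2 (w0 a b) (w1 a b) (w24 a b)
  simp only [c4_24, m2_1 a b, r0_1 h a b, r0_24 h a b, r2_24 h a b, add_mul, sub_mul, neg_mul, zero_mul, add_zero, zero_add, neg_zero, neg_neg, sub_zero, zero_sub] at t8
  have t9 := h.e3 (w0 a b) (w1 a b) (w7 a b) (w9 a b)
  simp only [m8_1 a b, r0_1 h a b, r0_7 h a b, r0_9 h a b, r2_7 h a b, r2_9 h a b, r8_9 h a b, add_mul, sub_mul, neg_mul, zero_mul, add_zero, zero_add, neg_zero, neg_neg, sub_zero, zero_sub] at t9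
  have t10 := h.e2 (w5 a b) (w2 a b) (w8 a b)
  simp only [h.sq (w8 a b), m18_2 h a b, m5_2 h a b, m8_2 a b, r5_8 h a b, add_mul, sub_mul, neg_mul, zero_mul, add_zero, zero_add, neg_zero, neg_neg, sub_zero, zero_sub] at t10
  have t11 := h.e2 (w16 a b) (w0 a b) (w4 a b)
  simp only [m16_0 h a b, m16_4 h a b, m20_0 h a b, m20_4 h a b, m33_0 h a b, add_mul, sub_mul, neg_mul, zero_mul, add_zero, zero_add, neg_zero, neg_neg, sub_zero, zero_sub] at t11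
  have t12 := h.e2 (w1 a b) (w0 a b) (w25 a b)
  simp only [c3_25, m1_0 a b, m2_0 a b, m33_0 h a b, r1_25 h a b, r2_25 h a b, add_mul, sub_mul, neg_mul, zero_mul, add_zero, zero_add, neg_zero, neg_neg, sub_zero, zero_sub] at t12
  have t13 := h.e3 (w1 a b) (w0 a b) (w1 a b) (w22 a b)
  simp only [c4_22, h.sq (w1 a b), m1_0 a b, m2_1 a b, m30_0 h a b, m30_1 h a b, r1_22 h a b, r2_22 h a b, add_mul, sub_mul, neg_mul, zero_mul, add_zero, zero_add, neg_zero, neg_neg, sub_zero, zero_sub] at t13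
  have t14 := h.e3 (w1 a b) (w0 a b) (w5 a b) (w11 a b)
  simp only [c8_11, m16_0 h a b, m16_5 h a b, m1_0 a b, m7_0 h a b, r1_11 h a b, r1_5 h a b, r2_11 h a b, r2_5 h a b, r7_11 h a b, add_mul, sub_mul, neg_mul, zero_mul, add_zero, zero_add, neg_zero, neg_neg, sub_zero, zero_sub] at t14
  have t15 := h.e3 (w0 a b) (w1 a b) (w5 a b) (w11 a b)
  simp only [c8_11, m14_1 h a b, m14_5 h a b, m6_1 h a b, r0_1 h a b, r0_11 h a b, r0_5 h a b, r2_11 h a b, r2_5 h a b, r6_11 h a b, add_mul, sub_mul, neg_mul, zero_mul, add_zero, zero_add, neg_zero, neg_neg, sub_zero, zero_sub] at t15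
  have t16 := h.e2 (w7 a b) (w0 a b) (w10 a b)
  simp only [c9_10, m33_0 h a b, m7_0 h a b, m8_0 a b, r7_10 h a b, r8_10 h a b, add_mul, sub_mul, neg_mul, zero_mul, add_zero, zero_add, neg_zero, neg_neg, sub_zero, zero_sub] at t16
  have t17 := h.e2 (w4 a b) (w0 a b) (w15 a b)
  simp only [c6_15, m4_0 h a b, m5_0 h a b, r4_15 h a b, r5_15 h a b, add_mul, sub_mul, neg_mul, zero_mul, add_zero, zero_add, neg_zero, neg_neg, sub_zero, zero_sub] at t17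
  have t18 := h.e3 (w6 a b) (w0 a b) (w1 a b) (w10 a b)
  simp only [c9_10, m30_0 h a b, m30_1 h a b, m6_0 h a b, m6_1 h a b, m8_0 a b, r6_10 h a b, r8_10 h a b, add_mul, sub_mul, neg_mul, zero_mul, add_zero, zero_add, neg_zero, neg_neg, sub_zero, zero_sub] at t18
  have t19 := h.e3 (w7 a b) (w0 a b) (w2 a b) (w8 a b)
  simp only [h.sq (w8 a b), m25_0 h a b, m25_2 h a b, m7_0 h a b, m7_2 h a b, m8_2 a b, r7_8 h a b, add_mul, sub_mul, neg_mul, zero_mul, add_zero, zero_add, neg_zero, neg_neg, sub_zero, zero_sub] at t19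
  have t20 := h.e3 (w6 a b) (w1 a b) (w2 a b) (w8 a b)
  simp only [h.sq (w8 a b), m22_1 h a b, m22_2 h a b, m6_1 h a b, m6_2 h a b, m8_2 a b, r6_8 h a b, add_mul, sub_mul, neg_mul, zero_mul, add_zero, zero_add, neg_zero, neg_neg, sub_zero, zero_sub] at t20
  have t21 := h.e2 (w4 a b) (w2 a b) (w9 a b)
  simp only [m19_2 h a b, m4_2 a b, m7_2 h a b, r4_9 h a b, r7_9 h a b, add_mul, sub_mul, neg_mul, zero_mul, add_zero, zero_add, neg_zero, neg_neg, sub_zero, zero_sub] at t21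
  have t22 := h.e2 (w1 a b) (w2 a b) (w13 a b)
  simp only [m20_2 h a b, m4_2 a b, r1_13 h a b, r1_2 h a b, r4_13 h a b, r7_13 h a b, add_mul, sub_mul, neg_mul, zero_mul, add_zero, zero_add, neg_zero, neg_neg, sub_zero, zero_sub] at t22
  refine ⟨?_, ?_, ?_, ?_, ?_, ?_, ?_, ?_, ?_, ?_, ?_, ?_, ?_, ?_, ?_, ?_, ?_, ?_, ?_, ?_, ?_, ?_, ?_⟩
  · apply h.cancel
    linear_combination (norm := module) (1 : ℤ) • t5 + (-1 : ℤ) • t8 + (1 : ℤ) • t11 + (-1 : ℤ) • t13 + (2 : ℤ) • t16 + (-1 : ℤ) • t17 + (-1 : ℤ) • t18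
  · apply h.cancel
    linear_combination (norm := module) (1 : ℤ) • t8 + (-1 : ℤ) • t10 + (-1 : ℤ) • t11 + (-1 : ℤ) • t19 + (1 : ℤ) • t20 + (-1 : ℤ) • t21
  · apply h.cancel
    linear_combination (norm := module) (3 : ℤ) • t7 + (1 : ℤ) • t8 + (-1 : ℤ) • t10 + (-1 : ℤ) • t11 + (-1 : ℤ) • t19 + (1 : ℤ) • t20 + (-1 : ℤ) • t21
  · apply h.cancel
    linear_combination (norm := module) (-1 : ℤ) • t5 + (1 : ℤ) • t8 + (3 : ℤ) • t9 + (-1 : ℤ) • t11 + (1 : ℤ) • t13 + (-2 : ℤ) • t16 + (1 : ℤ) • t17 + (1 : ℤ) • t18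
  · apply h.cancel
    linear_combination (norm := module) (3 : ℤ) • t4 + (-1 : ℤ) • t5 + (1 : ℤ) • t8 + (-1 : ℤ) • t11 + (-3 : ℤ) • t12 + (1 : ℤ) • t13 + (1 : ℤ) • t16 + (-2 : ℤ) • t17 + (1 : ℤ) • t18
  · apply h.cancel
    linear_combination (norm := module) (1 : ℤ) • t5 + (-3 : ℤ) • t6 + (-1 : ℤ) • t8 + (1 : ℤ) • t11 + (-1 : ℤ) • t13 + (2 : ℤ) • t16 + (-1 : ℤ) • t17 + (-1 : ℤ) • t18
  · linear_combination (norm := module) (-1 : ℤ) • t0
  · apply h.cancel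
    linear_combination (norm := module) (3 : ℤ) • t4 + (2 : ℤ) • t5 + (1 : ℤ) • t8 + (-1 : ℤ) • t11 + (-3 : ℤ) • t12 + (-2 : ℤ) • t13 + (-3 : ℤ) • t15 + (1 : ℤ) • t16 + (-2 : ℤ) • t17 + (1 : ℤ) • t18
  · linear_combination (norm := module) (1 : ℤ) • t4 + (-1 : ℤ) • t12 + (-1 : ℤ) • t14
  · apply h.cancel
    linear_combination (norm := module) (-3 : ℤ) • t4 + (-2 : ℤ) • t5 + (-1 : ℤ) • t8 + (1 : ℤ) • t11 + (3 : ℤ) • t12 + (-1 : ℤ) • t13 + (-1 : ℤ) • t16 + (2 : ℤ) • t17 + (-1 : ℤ) • t18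
  · linear_combination (norm := module) (-1 : ℤ) • t2
  · apply h.cancel
    linear_combination (norm := module) (-3 : ℤ) • t4 + (-1 : ℤ) • t5 + (1 : ℤ) • t8 + (2 : ℤ) • t11 + (3 : ℤ) • t12 + (1 : ℤ) • t13 + (1 : ℤ) • t16 + (1 : ℤ) • t17 + (1 : ℤ) • t18
  · linear_combination (norm := module) (-1 : ℤ) • t4
  · linear_combination (norm := module) (1 : ℤ) • t1
  · apply h.cancel
    linear_combination (norm := module) (-3 : ℤ) • t3 + (-3 : ℤ) • t4 + (-1 : ℤ) • t5 + (1 : ℤ) • t8 + (-1 : ℤ) • t11 + (3 : ℤ) • t12 + (1 : ℤ) • t13 + (1 : ℤ) • t16 + (1 : ℤ) • t17 + (1 : ℤ) • t18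
  · apply h.cancel
    linear_combination (norm := module) (3 : ℤ) • t4 + (1 : ℤ) • t5 + (-1 : ℤ) • t10 + (-3 : ℤ) • t12 + (-1 : ℤ) • t13 + (-1 : ℤ) • t16 + (-1 : ℤ) • t17 + (-1 : ℤ) • t18 + (2 : ℤ) • t19 + (1 : ℤ) • t20 + (-1 : ℤ) • t21
  · apply h.cancel
    linear_combination (norm := module) (3 : ℤ) • t4 + (1 : ℤ) • t5 + (1 : ℤ) • t8 + (1 : ℤ) • t10 + (-1 : ℤ) • t11 + (-3 : ℤ) • t12 + (-1 : ℤ) • t13 + (-1 : ℤ) • t16 + (-1 : ℤ) • t17 + (-1 : ℤ) • t18 + (1 : ℤ) • t19 + (2 : ℤ) • t20 + (1 : ℤ) • t21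
  · apply h.cancel
    linear_combination (norm := module) (1 : ℤ) • t8 + (2 : ℤ) • t10 + (-1 : ℤ) • t11 + (-1 : ℤ) • t19 + (1 : ℤ) • t20 + (-1 : ℤ) • t21
  · apply h.cancel
    linear_combination (norm := module) (-3 : ℤ) • t4 + (-1 : ℤ) • t5 + (1 : ℤ) • t10 + (3 : ℤ) • t12 + (1 : ℤ) • t13 + (1 : ℤ) • t16 + (1 : ℤ) • t17 + (1 : ℤ) • t18 + (-2 : ℤ) • t19 + (-1 : ℤ) • t20 + (1 : ℤ) • t21 + (-3 : ℤ) • t22
  · apply h.cancel
    linear_combination (norm := module) (-3 : ℤ) • t4 + (-1 : ℤ) • t5 + (-2 : ℤ) • t8 + (2 : ℤ) • t11 + (3 : ℤ) • t12 + (1 : ℤ) • t13 + (1 : ℤ) • t16 + (1 : ℤ) • t17 + (1 : ℤ) • t18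
  · apply h.cancel
    linear_combination (norm := module) (-3 : ℤ) • t4 + (-2 : ℤ) • t5 + (-1 : ℤ) • t8 + (1 : ℤ) • t11 + (3 : ℤ) • t12 + (2 : ℤ) • t13 + (-1 : ℤ) • t16 + (2 : ℤ) • t17 + (-1 : ℤ) • t18
  · apply h.cancel
    linear_combination (norm := module) (-3 : ℤ) • t4 + (-1 : ℤ) • t5 + (1 : ℤ) • t8 + (-1 : ℤ) • t11 + (3 : ℤ) • t12 + (1 : ℤ) • t13 + (1 : ℤ) • t16 + (1 : ℤ) • t17 + (1 : ℤ) • t18
  · linear_combination (norm := module) (-1 : ℤ) • t4 + (1 : ℤ) • t12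
theorem m10_9 (h : Eng A) (a b : A) : w10 a b * w9 a b = 0 := (wt7_7 h a b).1
theorem r9_10 (h : Eng A) (a b : A) : w9 a b * w10 a b = 0 := by
  rw [h.ac, m10_9 h, neg_zero]
theorem m11_8 (h : Eng A) (a b : A) : w11 a b * w8 a b = 0 := (wt7_7 h a b).2.1
theorem r8_11 (h : Eng A) (a b : A) : w8 a b * w11 a b = 0 := by
  rw [h.ac, m11_8 h, neg_zero]
theorem m12_8 (h : Eng A) (a b : A) : w12 a b * w8 a b = 0 := (wt7_7 h a b).2.2.1
theorem r8_12 (h : Eng A) (a b : A) : w8 a b * w12 a b = 0 := by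
  rw [h.ac, m12_8 h, neg_zero]
theorem m14_7 (h : Eng A) (a b : A) : w14 a b * w7 a b = 0 := (wt7_7 h a b).2.2.2.1
theorem r7_14 (h : Eng A) (a b : A) : w7 a b * w14 a b = 0 := by
  rw [h.ac, m14_7 h, neg_zero]
theorem m15_6 (h : Eng A) (a b : A) : w15 a b * w6 a b = w39 a b := (wt7_7 h a b).2.2.2.2.1
theorem r6_15 (h : Eng A) (a b : A) : w6 a b * w15 a b = -(w39 a b) := by
  rw [h.ac, m15_6 h]; try abel
theorem m16_6 (h : Eng A) (a b : A) : w16 a b * w6 a b = 0 := (wt7_7 h a b).2.2.2.2.2.1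
theorem r6_16 (h : Eng A) (a b : A) : w6 a b * w16 a b = 0 := by
  rw [h.ac, m16_6 h, neg_zero]
theorem m18_5 (h : Eng A) (a b : A) : w18 a b * w5 a b = 0 := (wt7_7 h a b).2.2.2.2.2.2.1
theorem r5_18 (h : Eng A) (a b : A) : w5 a b * w18 a b = 0 := by
  rw [h.ac, m18_5 h, neg_zero]
theorem m19_5 (h : Eng A) (a b : A) : w19 a b * w5 a b = w39 a b := (wt7_7 h a b).2.2.2.2.2.2.2.1
theorem r5_19 (h : Eng A) (a b : A) : w5 a b * w19 a b = -(w39 a b) := by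
  rw [h.ac, m19_5 h]; try abel
theorem m20_5 (h : Eng A) (a b : A) : w20 a b * w5 a b = w39 a b := (wt7_7 h a b).2.2.2.2.2.2.2.2.1
theorem r5_20 (h : Eng A) (a b : A) : w5 a b * w20 a b = -(w39 a b) := by
  rw [h.ac, m20_5 h]; try abel
theorem m22_4 (h : Eng A) (a b : A) : w22 a b * w4 a b = -(w39 a b) := (wt7_7 h a b).2.2.2.2.2.2.2.2.2.1
theorem r4_22 (h : Eng A) (a b : A) : w4 a b * w22 a b = w39 a b := by
  rw [h.ac, m22_4 h]; try abel
theorem m23_4 (h : Eng A) (a b : A) : w23 a b * w4 a b = 0 := (wt7_7 h a b).2.2.2.2.2.2.2.2.2.2.1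
theorem r4_23 (h : Eng A) (a b : A) : w4 a b * w23 a b = 0 := by
  rw [h.ac, m23_4 h, neg_zero]
theorem m24_4 (h : Eng A) (a b : A) : w24 a b * w4 a b = -(w39 a b) := (wt7_7 h a b).2.2.2.2.2.2.2.2.2.2.2.1
theorem r4_24 (h : Eng A) (a b : A) : w4 a b * w24 a b = w39 a b := by
  rw [h.ac, m24_4 h]; try abel
theorem m25_3 (h : Eng A) (a b : A) : w25 a b * w3 a b = -(w39 a b) := (wt7_7 h a b).2.2.2.2.2.2.2.2.2.2.2.2.1
theorem r3_25 (h : Eng A) (a b : A) : w3 a b * w25 a b = w39 a b := by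
  rw [h.ac, m25_3 h]; try abel
theorem m26_3 (h : Eng A) (a b : A) : w26 a b * w3 a b = 0 := (wt7_7 h a b).2.2.2.2.2.2.2.2.2.2.2.2.2.1
theorem r3_26 (h : Eng A) (a b : A) : w3 a b * w26 a b = 0 := by
  rw [h.ac, m26_3 h, neg_zero]
theorem m27_3 (h : Eng A) (a b : A) : w27 a b * w3 a b = -(w39 a b) := (wt7_7 h a b).2.2.2.2.2.2.2.2.2.2.2.2.2.2.1
theorem r3_27 (h : Eng A) (a b : A) : w3 a b * w27 a b = w39 a b := by
  rw [h.ac, m27_3 h]; try abel
theorem m29_2 (h : Eng A) (a b : A) : w29 a b * w2 a b = w39 a b := (wt7_7 h a b).2.2.2.2.2.2.2.2.2.2.2.2.2.2.2.1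
theorem r2_29 (h : Eng A) (a b : A) : w2 a b * w29 a b = -(w39 a b) := by
  rw [h.ac, m29_2 h]; try abel
theorem m30_2 (h : Eng A) (a b : A) : w30 a b * w2 a b = w39 a b := (wt7_7 h a b).2.2.2.2.2.2.2.2.2.2.2.2.2.2.2.2.1
theorem r2_30 (h : Eng A) (a b : A) : w2 a b * w30 a b = -(w39 a b) := by
  rw [h.ac, m30_2 h]; try abel
theorem m31_2 (h : Eng A) (a b : A) : w31 a b * w2 a b = 0 := (wt7_7 h a b).2.2.2.2.2.2.2.2.2.2.2.2.2.2.2.2.2.1
theorem r2_31 (h : Eng A) (a b : A) : w2 a b * w31 a b = 0 := by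
  rw [h.ac, m31_2 h, neg_zero]
theorem m32_2 (h : Eng A) (a b : A) : w32 a b * w2 a b = 0 := (wt7_7 h a b).2.2.2.2.2.2.2.2.2.2.2.2.2.2.2.2.2.2.1
theorem r2_32 (h : Eng A) (a b : A) : w2 a b * w32 a b = 0 := by
  rw [h.ac, m32_2 h, neg_zero]
theorem m34_1 (h : Eng A) (a b : A) : w34 a b * w1 a b = -(w39 a b) := (wt7_7 h a b).2.2.2.2.2.2.2.2.2.2.2.2.2.2.2.2.2.2.2.1
theorem r1_34 (h : Eng A) (a b : A) : w1 a b * w34 a b = w39 a b := by
  rw [h.ac, m34_1 h]; try abel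
theorem m35_1 (h : Eng A) (a b : A) : w35 a b * w1 a b = -(w39 a b) := (wt7_7 h a b).2.2.2.2.2.2.2.2.2.2.2.2.2.2.2.2.2.2.2.2.1
theorem r1_35 (h : Eng A) (a b : A) : w1 a b * w35 a b = w39 a b := by
  rw [h.ac, m35_1 h]; try abel
theorem m36_0 (h : Eng A) (a b : A) : w36 a b * w0 a b = -(w39 a b) := (wt7_7 h a b).2.2.2.2.2.2.2.2.2.2.2.2.2.2.2.2.2.2.2.2.2.1
theorem r0_36 (h : Eng A) (a b : A) : w0 a b * w36 a b = w39 a b := by
  rw [h.ac, m36_0 h]; try abel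
theorem m37_0 (h : Eng A) (a b : A) : w37 a b * w0 a b = -(w39 a b) := (wt7_7 h a b).2.2.2.2.2.2.2.2.2.2.2.2.2.2.2.2.2.2.2.2.2.2
theorem r0_37 (h : Eng A) (a b : A) : w0 a b * w37 a b = w39 a b := by
  rw [h.ac, m37_0 h]; try abel

theorem m15_7 (a b : A) : w15 a b * w7 a b = w40 a b := rfl
theorem r7_15 (h : Eng A) (a b : A) : w7 a b * w15 a b = -(w40 a b) := by
  rw [h.ac, m15_7]; try abel
theorem wt6_8 (h : Eng A) (a b : A) :
    (w16 a b * w7 a b = 0) ∧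
    (w21 a b * w5 a b = w40 a b) ∧
    (w25 a b * w4 a b = -(w40 a b)) ∧
    (w26 a b * w4 a b = 0) ∧
    (w27 a b * w4 a b = -(w40 a b)) ∧
    (w33 a b * w2 a b = w40 a b) ∧
    (w36 a b * w1 a b = -(w40 a b)) ∧
    (w37 a b * w1 a b = -(w40 a b)) := by
  have c7_16 : w7 a b * w16 a b = -(w16 a b * w7 a b) := h.ac _ _
  have c5_21 : w5 a b * w21 a b = -(w21 a b * w5 a b) := h.ac _ _
  have c4_25 : w4 a b * w25 a b = -(w25 a b * w4 a b) := h.ac _ _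
  have c4_26 : w4 a b * w26 a b = -(w26 a b * w4 a b) := h.ac _ _
  have c4_27 : w4 a b * w27 a b = -(w27 a b * w4 a b) := h.ac _ _
  have c2_33 : w2 a b * w33 a b = -(w33 a b * w2 a b) := h.ac _ _
  have c1_36 : w1 a b * w36 a b = -(w36 a b * w1 a b) := h.ac _ _
  have c1_37 : w1 a b * w37 a b = -(w37 a b * w1 a b) := h.ac _ _
  have t0 := h.e3 (w1 a b) (w0 a b) (w7 a b) (w10 a b)
  simp only [m1_0 a b, r1_10 h a b, r1_7 h a b, r2_10 h a b, r2_7 h a b, add_mul, sub_mul, neg_mul, zero_mul, add_zero, zero_add, neg_zero, neg_neg, sub_zero, zero_sub] at t0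
  have t1 := h.e3 (w1 a b) (w3 a b) (w4 a b) (w10 a b)
  simp only [m5_4 h a b, r1_10 h a b, r1_3 h a b, r1_4 h a b, r5_10 h a b, add_mul, sub_mul, neg_mul, zero_mul, add_zero, zero_add, neg_zero, neg_neg, sub_zero, zero_sub] at t1
  have t2 := h.e2 (w27 a b) (w1 a b) (w0 a b)
  simp only [m27_0 h a b, m27_1 h a b, m29_1 h a b, m30_1 h a b, add_mul, sub_mul, neg_mul, zero_mul, add_zero, zero_add, neg_zero, neg_neg, sub_zero, zero_sub] at t2
  have t3 := h.e3 (w1 a b) (w0 a b) (w1 a b) (w27 a b)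
  simp only [c4_27, h.sq (w1 a b), m1_0 a b, m2_1 a b, r1_27 h a b, r2_27 h a b, add_mul, sub_mul, neg_mul, zero_mul, add_zero, zero_add, neg_zero, neg_neg, sub_zero, zero_sub] at t3
  have t4 := h.e3 (w1 a b) (w0 a b) (w2 a b) (w21 a b)
  simp only [c5_21, h.sq (w2 a b), m1_0 a b, m4_0 h a b, r1_2 h a b, r1_21 h a b, r2_21 h a b, r4_21 h a b, add_mul, sub_mul, neg_mul, zero_mul, add_zero, zero_add, neg_zero, neg_neg, sub_zero, zero_sub] at t4
  have t5 := h.e3 (w7 a b) (w0 a b) (w4 a b) (w7 a b)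
  simp only [h.sq (w7 a b), m15_7 a b, m7_0 h a b, m7_4 h a b, m8_4 a b, m8_7 a b, add_mul, sub_mul, neg_mul, zero_mul, add_zero, zero_add, neg_zero, neg_neg, sub_zero, zero_sub] at t5
  have t6 := h.e2 (w15 a b) (w2 a b) (w1 a b)
  simp only [m15_1 h a b, m15_2 h a b, m21_2 h a b, m27_1 h a b, m27_2 h a b, add_mul, sub_mul, neg_mul, zero_mul, add_zero, zero_add, neg_zero, neg_neg, sub_zero, zero_sub] at t6
  have t7 := h.e3 (w2 a b) (w1 a b) (w2 a b) (w15 a b)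
  simp only [h.sq (w2 a b), m27_1 h a b, m27_2 h a b, m2_1 a b, m4_2 a b, r2_15 h a b, r4_15 h a b, r7_15 h a b, add_mul, sub_mul, neg_mul, zero_mul, add_zero, zero_add, neg_zero, neg_neg, sub_zero, zero_sub] at t7
  refine ⟨?_, ?_, ?_, ?_, ?_, ?_, ?_, ?_⟩
  · linear_combination (norm := module) (-1 : ℤ) • t0
  · linear_combination (norm := module) (-1 : ℤ) • t4 + (1 : ℤ) • t6 + (1 : ℤ) • t7
  · linear_combination (norm := module) (-1 : ℤ) • t5
  · linear_combination (norm := module) (1 : ℤ) • t1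
  · linear_combination (norm := module) (-1 : ℤ) • t3 + (-1 : ℤ) • t7
  · linear_combination (norm := module) (1 : ℤ) • t6 + (1 : ℤ) • t7
  · linear_combination (norm := module) (-1 : ℤ) • t7
  · linear_combination (norm := module) (1 : ℤ) • t2 + (-1 : ℤ) • t7
theorem m16_7 (h : Eng A) (a b : A) : w16 a b * w7 a b = 0 := (wt6_8 h a b).1
theorem r7_16 (h : Eng A) (a b : A) : w7 a b * w16 a b = 0 := by
  rw [h.ac, m16_7 h, neg_zero]
theorem m21_5 (h : Eng A) (a b : A) : w21 a b * w5 a b = w40 a b := (wt6_8 h a b).2.1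
theorem r5_21 (h : Eng A) (a b : A) : w5 a b * w21 a b = -(w40 a b) := by
  rw [h.ac, m21_5 h]; try abel
theorem m25_4 (h : Eng A) (a b : A) : w25 a b * w4 a b = -(w40 a b) := (wt6_8 h a b).2.2.1
theorem r4_25 (h : Eng A) (a b : A) : w4 a b * w25 a b = w40 a b := by
  rw [h.ac, m25_4 h]; try abel
theorem m26_4 (h : Eng A) (a b : A) : w26 a b * w4 a b = 0 := (wt6_8 h a b).2.2.2.1
theorem r4_26 (h : Eng A) (a b : A) : w4 a b * w26 a b = 0 := by
  rw [h.ac, m26_4 h, neg_zero]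
theorem m27_4 (h : Eng A) (a b : A) : w27 a b * w4 a b = -(w40 a b) := (wt6_8 h a b).2.2.2.2.1
theorem r4_27 (h : Eng A) (a b : A) : w4 a b * w27 a b = w40 a b := by
  rw [h.ac, m27_4 h]; try abel
theorem m33_2 (h : Eng A) (a b : A) : w33 a b * w2 a b = w40 a b := (wt6_8 h a b).2.2.2.2.2.1
theorem r2_33 (h : Eng A) (a b : A) : w2 a b * w33 a b = -(w40 a b) := by
  rw [h.ac, m33_2 h]; try abel
theorem m36_1 (h : Eng A) (a b : A) : w36 a b * w1 a b = -(w40 a b) := (wt6_8 h a b).2.2.2.2.2.2.1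
theorem r1_36 (h : Eng A) (a b : A) : w1 a b * w36 a b = w40 a b := by
  rw [h.ac, m36_1 h]; try abel
theorem m37_1 (h : Eng A) (a b : A) : w37 a b * w1 a b = -(w40 a b) := (wt6_8 h a b).2.2.2.2.2.2.2
theorem r1_37 (h : Eng A) (a b : A) : w1 a b * w37 a b = w40 a b := by
  rw [h.ac, m37_1 h]; try abel

theorem wt9_6 (h : Eng A) (a b : A) :
    (w17 a b * w6 a b = 0) ∧
    (w28 a b * w3 a b = 0) ∧
    (w38 a b * w0 a b = 0) := by
  have c6_17 : w6 a b * w17 a b = -(w17 a b * w6 a b) := h.ac _ _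
  have c3_28 : w3 a b * w28 a b = -(w28 a b * w3 a b) := h.ac _ _
  have c0_38 : w0 a b * w38 a b = -(w38 a b * w0 a b) := h.ac _ _
  have t0 := h.e1 (w31 a b) (w0 a b)
  simp only [m31_0 h a b, m35_0 h a b, add_mul, sub_mul, neg_mul, zero_mul, add_zero, zero_add, neg_zero, neg_neg, sub_zero, zero_sub] at t0
  have t1 := h.e3 (w3 a b) (w0 a b) (w3 a b) (w12 a b)
  simp only [h.sq (w3 a b), m23_0 h a b, m23_3 h a b, m3_0 h a b, r3_12 h a b, add_mul, sub_mul, neg_mul, zero_mul, add_zero, zero_add, neg_zero, neg_neg, sub_zero, zero_sub] at t1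
  have t2 := h.e3 (w0 a b) (w0 a b) (w6 a b) (w11 a b)
  simp only [h.sq (w0 a b), m14_0 h a b, m14_6 h a b, r0_11 h a b, r0_6 h a b, add_mul, sub_mul, neg_mul, zero_mul, add_zero, zero_add, neg_zero, neg_neg, sub_zero, zero_sub] at t2
  refine ⟨?_, ?_, ?_⟩
  · linear_combination (norm := module) (-1 : ℤ) • t2
  · linear_combination (norm := module) (-1 : ℤ) • t1
  · linear_combination (norm := module) (-1 : ℤ) • t0
theorem m17_6 (h : Eng A) (a b : A) : w17 a b * w6 a b = 0 := (wt9_6 h a b).1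
theorem r6_17 (h : Eng A) (a b : A) : w6 a b * w17 a b = 0 := by
  rw [h.ac, m17_6 h, neg_zero]
theorem m28_3 (h : Eng A) (a b : A) : w28 a b * w3 a b = 0 := (wt9_6 h a b).2.1
theorem r3_28 (h : Eng A) (a b : A) : w3 a b * w28 a b = 0 := by
  rw [h.ac, m28_3 h, neg_zero]
theorem m38_0 (h : Eng A) (a b : A) : w38 a b * w0 a b = 0 := (wt9_6 h a b).2.2
theorem r0_38 (h : Eng A) (a b : A) : w0 a b * w38 a b = 0 := by
  rw [h.ac, m38_0 h, neg_zero]

theorem wt8_7 (h : Eng A) (a b : A) :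
    (w11 a b * w9 a b = 0) ∧
    (w12 a b * w9 a b = 0) ∧
    (w13 a b * w8 a b = 0) ∧
    (w14 a b * w8 a b = 0) ∧
    (w17 a b * w7 a b = 0) ∧
    (w18 a b * w6 a b = 0) ∧
    (w19 a b * w6 a b = 0) ∧
    (w20 a b * w6 a b = 0) ∧
    (w22 a b * w5 a b = 0) ∧
    (w23 a b * w5 a b = 0) ∧
    (w24 a b * w5 a b = 0) ∧
    (w28 a b * w4 a b = 0) ∧
    (w29 a b * w3 a b = 0) ∧
    (w30 a b * w3 a b = 0) ∧
    (w31 a b * w3 a b = 0) ∧
    (w32 a b * w3 a b = 0) ∧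
    (w34 a b * w2 a b = 0) ∧
    (w35 a b * w2 a b = 0) ∧
    (w38 a b * w1 a b = 0) ∧
    (w39 a b * w0 a b = 0) := by
  have c9_11 : w9 a b * w11 a b = -(w11 a b * w9 a b) := h.ac _ _
  have c9_12 : w9 a b * w12 a b = -(w12 a b * w9 a b) := h.ac _ _
  have c8_13 : w8 a b * w13 a b = -(w13 a b * w8 a b) := h.ac _ _
  have c8_14 : w8 a b * w14 a b = -(w14 a b * w8 a b) := h.ac _ _
  have c7_17 : w7 a b * w17 a b = -(w17 a b * w7 a b) := h.ac _ _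
  have c6_18 : w6 a b * w18 a b = -(w18 a b * w6 a b) := h.ac _ _
  have c6_19 : w6 a b * w19 a b = -(w19 a b * w6 a b) := h.ac _ _
  have c6_20 : w6 a b * w20 a b = -(w20 a b * w6 a b) := h.ac _ _
  have c5_22 : w5 a b * w22 a b = -(w22 a b * w5 a b) := h.ac _ _
  have c5_23 : w5 a b * w23 a b = -(w23 a b * w5 a b) := h.ac _ _
  have c5_24 : w5 a b * w24 a b = -(w24 a b * w5 a b) := h.ac _ _
  have c4_28 : w4 a b * w28 a b = -(w28 a b * w4 a b) := h.ac _ _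
  have c3_29 : w3 a b * w29 a b = -(w29 a b * w3 a b) := h.ac _ _
  have c3_30 : w3 a b * w30 a b = -(w30 a b * w3 a b) := h.ac _ _
  have c3_31 : w3 a b * w31 a b = -(w31 a b * w3 a b) := h.ac _ _
  have c3_32 : w3 a b * w32 a b = -(w32 a b * w3 a b) := h.ac _ _
  have c2_34 : w2 a b * w34 a b = -(w34 a b * w2 a b) := h.ac _ _
  have c2_35 : w2 a b * w35 a b = -(w35 a b * w2 a b) := h.ac _ _
  have c1_38 : w1 a b * w38 a b = -(w38 a b * w1 a b) := h.ac _ _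
  have c0_39 : w0 a b * w39 a b = -(w39 a b * w0 a b) := h.ac _ _
  have t0 := h.e3 (w0 a b) (w1 a b) (w6 a b) (w11 a b)
  simp only [m14_1 h a b, m14_6 h a b, r0_1 h a b, r0_11 h a b, r0_6 h a b, r2_11 h a b, r2_6 h a b, add_mul, sub_mul, neg_mul, zero_mul, add_zero, zero_add, neg_zero, neg_neg, sub_zero, zero_sub] at t0
  have t1 := h.e1 (w13 a b) (w2 a b)
  simp only [m13_2 h a b, m24_2 h a b, add_mul, sub_mul, neg_mul, zero_mul, add_zero, zero_add, neg_zero, neg_neg, sub_zero, zero_sub] at t1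
  have t2 := h.e2 (w11 a b) (w0 a b) (w7 a b)
  simp only [m11_0 h a b, m11_7 a b, m14_0 h a b, m14_7 h a b, m36_0 h a b, add_mul, sub_mul, neg_mul, zero_mul, add_zero, zero_add, neg_zero, neg_neg, sub_zero, zero_sub] at t2
  have t3 := h.e2 (w10 a b) (w0 a b) (w8 a b)
  simp only [m10_0 h a b, m10_8 h a b, m12_0 h a b, m12_8 h a b, add_mul, sub_mul, neg_mul, zero_mul, add_zero, zero_add, neg_zero, neg_neg, sub_zero, zero_sub] at t3
  have t4 := h.e2 (w7 a b) (w0 a b) (w11 a b)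
  simp only [c9_11, m36_0 h a b, m7_0 h a b, m8_0 a b, r7_11 h a b, r8_11 h a b, add_mul, sub_mul, neg_mul, zero_mul, add_zero, zero_add, neg_zero, neg_neg, sub_zero, zero_sub] at t4
  have t5 := h.e2 (w7 a b) (w0 a b) (w12 a b)
  simp only [c9_12, m37_0 h a b, m7_0 h a b, m8_0 a b, r7_12 h a b, r8_12 h a b, add_mul, sub_mul, neg_mul, zero_mul, add_zero, zero_add, neg_zero, neg_neg, sub_zero, zero_sub] at t5
  have t6 := h.e2 (w1 a b) (w0 a b) (w30 a b)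
  simp only [c3_30, m1_0 a b, m2_0 a b, r1_30 h a b, r2_30 h a b, add_mul, sub_mul, neg_mul, zero_mul, add_zero, zero_add, neg_zero, neg_neg, sub_zero, zero_sub] at t6
  have t7 := h.e2 (w1 a b) (w0 a b) (w31 a b)
  simp only [c3_31, m1_0 a b, m2_0 a b, m37_0 h a b, r1_31 h a b, r2_31 h a b, add_mul, sub_mul, neg_mul, zero_mul, add_zero, zero_add, neg_zero, neg_neg, sub_zero, zero_sub] at t7
  have t8 := h.e3 (w0 a b) (w0 a b) (w1 a b) (w29 a b)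
  simp only [c3_29, h.sq (w0 a b), m2_0 a b, r0_1 h a b, r0_29 h a b, r2_29 h a b, add_mul, sub_mul, neg_mul, zero_mul, add_zero, zero_add, neg_zero, neg_neg, sub_zero, zero_sub] at t8
  have t9 := h.e3 (w6 a b) (w0 a b) (w4 a b) (w8 a b)
  simp only [m22_0 h a b, m22_4 h a b, m6_0 h a b, m6_4 h a b, r6_8 h a b, add_mul, sub_mul, neg_mul, zero_mul, add_zero, zero_add, neg_zero, neg_neg, sub_zero, zero_sub] at t9
  have t10 := h.e3 (w0 a b) (w0 a b) (w4 a b) (w18 a b)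
  simp only [c6_18, h.sq (w0 a b), m23_0 h a b, m23_4 h a b, m5_0 h a b, r0_18 h a b, r0_4 h a b, r5_18 h a b, add_mul, sub_mul, neg_mul, zero_mul, add_zero, zero_add, neg_zero, neg_neg, sub_zero, zero_sub] at t10
  have t11 := h.e3 (w7 a b) (w0 a b) (w5 a b) (w6 a b)
  simp only [m7_0 h a b, m7_5 h a b, m7_6 h a b, m8_5 a b, m8_6 a b, add_mul, sub_mul, neg_mul, zero_mul, add_zero, zero_add, neg_zero, neg_neg, sub_zero, zero_sub] at t11
  have t12 := h.e3 (w5 a b) (w0 a b) (w5 a b) (w8 a b)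
  simp only [h.sq (w5 a b), m18_0 h a b, m18_5 h a b, m5_0 h a b, m6_5 h a b, r5_8 h a b, r6_8 h a b, add_mul, sub_mul, neg_mul, zero_mul, add_zero, zero_add, neg_zero, neg_neg, sub_zero, zero_sub] at t12
  have t13 := h.e3 (w3 a b) (w0 a b) (w5 a b) (w10 a b)
  simp only [m20_0 h a b, m20_5 h a b, m3_0 h a b, r3_10 h a b, r3_5 h a b, add_mul, sub_mul, neg_mul, zero_mul, add_zero, zero_add, neg_zero, neg_neg, sub_zero, zero_sub] at t13
  have t14 := h.e3 (w1 a b) (w0 a b) (w6 a b) (w11 a b)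
  simp only [c9_11, m16_0 h a b, m16_6 h a b, m1_0 a b, m8_0 a b, r1_11 h a b, r1_6 h a b, r2_11 h a b, r2_6 h a b, r8_11 h a b, add_mul, sub_mul, neg_mul, zero_mul, add_zero, zero_add, neg_zero, neg_neg, sub_zero, zero_sub] at t14
  have t15 := h.e2 (w3 a b) (w1 a b) (w17 a b)
  simp only [c7_17, m3_1 a b, m5_1 h a b, r3_17 h a b, r5_17 h a b, add_mul, sub_mul, neg_mul, zero_mul, add_zero, zero_add, neg_zero, neg_neg, sub_zero, zero_sub] at t15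
  have t16 := h.e2 (w31 a b) (w0 a b) (w1 a b)
  simp only [m31_0 h a b, m31_1 h a b, m35_0 h a b, m35_1 h a b, m37_0 h a b, add_mul, sub_mul, neg_mul, zero_mul, add_zero, zero_add, neg_zero, neg_neg, sub_zero, zero_sub] at t16
  have t17 := h.e2 (w1 a b) (w0 a b) (w32 a b)
  simp only [c3_32, m1_0 a b, m2_0 a b, m36_0 h a b, m37_0 h a b, r1_32 h a b, r2_32 h a b, add_mul, sub_mul, neg_mul, zero_mul, add_zero, zero_add, neg_zero, neg_neg, sub_zero, zero_sub] at t17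
  have t18 := h.e2 (w0 a b) (w2 a b) (w18 a b)
  simp only [c6_18, m23_2 h a b, m3_2 a b, r0_18 h a b, r0_2 h a b, r3_18 h a b, add_mul, sub_mul, neg_mul, zero_mul, add_zero, zero_add, neg_zero, neg_neg, sub_zero, zero_sub] at t18
  have t19 := h.e3 (w7 a b) (w0 a b) (w3 a b) (w8 a b)
  simp only [h.sq (w8 a b), m25_0 h a b, m25_3 h a b, m7_0 h a b, m7_3 h a b, m8_3 a b, r7_8 h a b, add_mul, sub_mul, neg_mul, zero_mul, add_zero, zero_add, neg_zero, neg_neg, sub_zero, zero_sub] at t19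
  refine ⟨?_, ?_, ?_, ?_, ?_, ?_, ?_, ?_, ?_, ?_, ?_, ?_, ?_, ?_, ?_, ?_, ?_, ?_, ?_, ?_⟩
  · apply h.cancel
    linear_combination (norm := module) (1 : ℤ) • t2 + (3 : ℤ) • t4 + (-1 : ℤ) • t15 + (1 : ℤ) • t16
  · apply h.cancel
    linear_combination (norm := module) (1 : ℤ) • t2 + (3 : ℤ) • t5 + (-1 : ℤ) • t15 + (1 : ℤ) • t16
  · linear_combination (norm := module) (1 : ℤ) • t8 + (-1 : ℤ) • t19
  · linear_combination (norm := module) (1 : ℤ) • t3 + (1 : ℤ) • t8 + (-1 : ℤ) • t19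
  · apply h.cancel
    linear_combination (norm := module) (2 : ℤ) • t2 + (1 : ℤ) • t15 + (-1 : ℤ) • t16
  · apply h.cancel
    linear_combination (norm := module) (-1 : ℤ) • t2 + (-3 : ℤ) • t9 + (3 : ℤ) • t10 + (1 : ℤ) • t15 + (-1 : ℤ) • t16
  · linear_combination (norm := module) (-1 : ℤ) • t0
  · apply h.cancel
    linear_combination (norm := module) (1 : ℤ) • t2 + (3 : ℤ) • t4 + (-3 : ℤ) • t14 + (-1 : ℤ) • t15 + (1 : ℤ) • t16
  · apply h.cancel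
    linear_combination (norm := module) (1 : ℤ) • t2 + (3 : ℤ) • t9 + (-3 : ℤ) • t10 + (-3 : ℤ) • t11 + (-1 : ℤ) • t15 + (1 : ℤ) • t16
  · apply h.cancel
    linear_combination (norm := module) (-1 : ℤ) • t2 + (-3 : ℤ) • t9 + (3 : ℤ) • t10 + (3 : ℤ) • t11 + (3 : ℤ) • t12 + (1 : ℤ) • t15 + (-1 : ℤ) • t16
  · apply h.cancel
    linear_combination (norm := module) (-1 : ℤ) • t2 + (3 : ℤ) • t13 + (1 : ℤ) • t15 + (-1 : ℤ) • t16
  · apply h.cancel
    linear_combination (norm := module) (1 : ℤ) • t2 + (3 : ℤ) • t9 + (-1 : ℤ) • t15 + (1 : ℤ) • t16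
  · apply h.cancel
    linear_combination (norm := module) (1 : ℤ) • t2 + (3 : ℤ) • t8 + (-1 : ℤ) • t15 + (1 : ℤ) • t16
  · apply h.cancel
    linear_combination (norm := module) (1 : ℤ) • t2 + (-3 : ℤ) • t6 + (-1 : ℤ) • t15 + (1 : ℤ) • t16
  · apply h.cancel
    linear_combination (norm := module) (-1 : ℤ) • t2 + (-3 : ℤ) • t7 + (1 : ℤ) • t15 + (-1 : ℤ) • t16
  · apply h.cancel
    linear_combination (norm := module) (-1 : ℤ) • t2 + (1 : ℤ) • t15 + (-1 : ℤ) • t16 + (-3 : ℤ) • t17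
  · linear_combination (norm := module) (1 : ℤ) • t1
  · apply h.cancel
    linear_combination (norm := module) (1 : ℤ) • t2 + (3 : ℤ) • t9 + (-3 : ℤ) • t10 + (-1 : ℤ) • t15 + (1 : ℤ) • t16 + (3 : ℤ) • t18
  · apply h.cancel
    linear_combination (norm := module) (2 : ℤ) • t2 + (-2 : ℤ) • t15 + (-1 : ℤ) • t16
  · apply h.cancel
    linear_combination (norm := module) (-1 : ℤ) • t2 + (1 : ℤ) • t15 + (-1 : ℤ) • t16
theorem m11_9 (h : Eng A) (a b : A) : w11 a b * w9 a b = 0 := (wt8_7 h a b).1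
theorem r9_11 (h : Eng A) (a b : A) : w9 a b * w11 a b = 0 := by
  rw [h.ac, m11_9 h, neg_zero]
theorem m12_9 (h : Eng A) (a b : A) : w12 a b * w9 a b = 0 := (wt8_7 h a b).2.1
theorem r9_12 (h : Eng A) (a b : A) : w9 a b * w12 a b = 0 := by
  rw [h.ac, m12_9 h, neg_zero]
theorem m13_8 (h : Eng A) (a b : A) : w13 a b * w8 a b = 0 := (wt8_7 h a b).2.2.1
theorem r8_13 (h : Eng A) (a b : A) : w8 a b * w13 a b = 0 := by
  rw [h.ac, m13_8 h, neg_zero]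
theorem m14_8 (h : Eng A) (a b : A) : w14 a b * w8 a b = 0 := (wt8_7 h a b).2.2.2.1
theorem r8_14 (h : Eng A) (a b : A) : w8 a b * w14 a b = 0 := by
  rw [h.ac, m14_8 h, neg_zero]
theorem m17_7 (h : Eng A) (a b : A) : w17 a b * w7 a b = 0 := (wt8_7 h a b).2.2.2.2.1
theorem r7_17 (h : Eng A) (a b : A) : w7 a b * w17 a b = 0 := by
  rw [h.ac, m17_7 h, neg_zero]
theorem m18_6 (h : Eng A) (a b : A) : w18 a b * w6 a b = 0 := (wt8_7 h a b).2.2.2.2.2.1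
theorem r6_18 (h : Eng A) (a b : A) : w6 a b * w18 a b = 0 := by
  rw [h.ac, m18_6 h, neg_zero]
theorem m19_6 (h : Eng A) (a b : A) : w19 a b * w6 a b = 0 := (wt8_7 h a b).2.2.2.2.2.2.1
theorem r6_19 (h : Eng A) (a b : A) : w6 a b * w19 a b = 0 := by
  rw [h.ac, m19_6 h, neg_zero]
theorem m20_6 (h : Eng A) (a b : A) : w20 a b * w6 a b = 0 := (wt8_7 h a b).2.2.2.2.2.2.2.1
theorem r6_20 (h : Eng A) (a b : A) : w6 a b * w20 a b = 0 := by
  rw [h.ac, m20_6 h, neg_zero]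
theorem m22_5 (h : Eng A) (a b : A) : w22 a b * w5 a b = 0 := (wt8_7 h a b).2.2.2.2.2.2.2.2.1
theorem r5_22 (h : Eng A) (a b : A) : w5 a b * w22 a b = 0 := by
  rw [h.ac, m22_5 h, neg_zero]
theorem m23_5 (h : Eng A) (a b : A) : w23 a b * w5 a b = 0 := (wt8_7 h a b).2.2.2.2.2.2.2.2.2.1
theorem r5_23 (h : Eng A) (a b : A) : w5 a b * w23 a b = 0 := by
  rw [h.ac, m23_5 h, neg_zero]
theorem m24_5 (h : Eng A) (a b : A) : w24 a b * w5 a b = 0 := (wt8_7 h a b).2.2.2.2.2.2.2.2.2.2.1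
theorem r5_24 (h : Eng A) (a b : A) : w5 a b * w24 a b = 0 := by
  rw [h.ac, m24_5 h, neg_zero]
theorem m28_4 (h : Eng A) (a b : A) : w28 a b * w4 a b = 0 := (wt8_7 h a b).2.2.2.2.2.2.2.2.2.2.2.1
theorem r4_28 (h : Eng A) (a b : A) : w4 a b * w28 a b = 0 := by
  rw [h.ac, m28_4 h, neg_zero]
theorem m29_3 (h : Eng A) (a b : A) : w29 a b * w3 a b = 0 := (wt8_7 h a b).2.2.2.2.2.2.2.2.2.2.2.2.1
theorem r3_29 (h : Eng A) (a b : A) : w3 a b * w29 a b = 0 := by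
  rw [h.ac, m29_3 h, neg_zero]
theorem m30_3 (h : Eng A) (a b : A) : w30 a b * w3 a b = 0 := (wt8_7 h a b).2.2.2.2.2.2.2.2.2.2.2.2.2.1
theorem r3_30 (h : Eng A) (a b : A) : w3 a b * w30 a b = 0 := by
  rw [h.ac, m30_3 h, neg_zero]
theorem m31_3 (h : Eng A) (a b : A) : w31 a b * w3 a b = 0 := (wt8_7 h a b).2.2.2.2.2.2.2.2.2.2.2.2.2.2.1
theorem r3_31 (h : Eng A) (a b : A) : w3 a b * w31 a b = 0 := by
  rw [h.ac, m31_3 h, neg_zero]
theorem m32_3 (h : Eng A) (a b : A) : w32 a b * w3 a b = 0 := (wt8_7 h a b).2.2.2.2.2.2.2.2.2.2.2.2.2.2.2.1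
theorem r3_32 (h : Eng A) (a b : A) : w3 a b * w32 a b = 0 := by
  rw [h.ac, m32_3 h, neg_zero]
theorem m34_2 (h : Eng A) (a b : A) : w34 a b * w2 a b = 0 := (wt8_7 h a b).2.2.2.2.2.2.2.2.2.2.2.2.2.2.2.2.1
theorem r2_34 (h : Eng A) (a b : A) : w2 a b * w34 a b = 0 := by
  rw [h.ac, m34_2 h, neg_zero]
theorem m35_2 (h : Eng A) (a b : A) : w35 a b * w2 a b = 0 := (wt8_7 h a b).2.2.2.2.2.2.2.2.2.2.2.2.2.2.2.2.2.1
theorem r2_35 (h : Eng A) (a b : A) : w2 a b * w35 a b = 0 := by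
  rw [h.ac, m35_2 h, neg_zero]
theorem m38_1 (h : Eng A) (a b : A) : w38 a b * w1 a b = 0 := (wt8_7 h a b).2.2.2.2.2.2.2.2.2.2.2.2.2.2.2.2.2.2.1
theorem r1_38 (h : Eng A) (a b : A) : w1 a b * w38 a b = 0 := by
  rw [h.ac, m38_1 h, neg_zero]
theorem m39_0 (h : Eng A) (a b : A) : w39 a b * w0 a b = 0 := (wt8_7 h a b).2.2.2.2.2.2.2.2.2.2.2.2.2.2.2.2.2.2.2
theorem r0_39 (h : Eng A) (a b : A) : w0 a b * w39 a b = 0 := by
  rw [h.ac, m39_0 h, neg_zero]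

theorem wt7_8 (h : Eng A) (a b : A) :
    (w11 a b * w10 a b = 0) ∧
    (w12 a b * w10 a b = 0) ∧
    (w15 a b * w8 a b = 0) ∧
    (w16 a b * w8 a b = 0) ∧
    (w18 a b * w7 a b = 0) ∧
    (w19 a b * w7 a b = 0) ∧
    (w20 a b * w7 a b = 0) ∧
    (w21 a b * w6 a b = 0) ∧
    (w25 a b * w5 a b = 0) ∧
    (w26 a b * w5 a b = 0) ∧
    (w27 a b * w5 a b = 0) ∧
    (w29 a b * w4 a b = 0) ∧
    (w30 a b * w4 a b = 0) ∧
    (w31 a b * w4 a b = 0) ∧
    (w32 a b * w4 a b = 0) ∧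
    (w33 a b * w3 a b = 0) ∧
    (w36 a b * w2 a b = 0) ∧
    (w37 a b * w2 a b = 0) ∧
    (w39 a b * w1 a b = 0) ∧
    (w40 a b * w0 a b = 0) := by
  have c10_11 : w10 a b * w11 a b = -(w11 a b * w10 a b) := h.ac _ _
  have c10_12 : w10 a b * w12 a b = -(w12 a b * w10 a b) := h.ac _ _
  have c8_15 : w8 a b * w15 a b = -(w15 a b * w8 a b) := h.ac _ _
  have c8_16 : w8 a b * w16 a b = -(w16 a b * w8 a b) := h.ac _ _
  have c7_18 : w7 a b * w18 a b = -(w18 a b * w7 a b) := h.ac _ _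
  have c7_19 : w7 a b * w19 a b = -(w19 a b * w7 a b) := h.ac _ _
  have c7_20 : w7 a b * w20 a b = -(w20 a b * w7 a b) := h.ac _ _
  have c6_21 : w6 a b * w21 a b = -(w21 a b * w6 a b) := h.ac _ _
  have c5_25 : w5 a b * w25 a b = -(w25 a b * w5 a b) := h.ac _ _
  have c5_26 : w5 a b * w26 a b = -(w26 a b * w5 a b) := h.ac _ _
  have c5_27 : w5 a b * w27 a b = -(w27 a b * w5 a b) := h.ac _ _
  have c4_29 : w4 a b * w29 a b = -(w29 a b * w4 a b) := h.ac _ _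
  have c4_30 : w4 a b * w30 a b = -(w30 a b * w4 a b) := h.ac _ _
  have c4_31 : w4 a b * w31 a b = -(w31 a b * w4 a b) := h.ac _ _
  have c4_32 : w4 a b * w32 a b = -(w32 a b * w4 a b) := h.ac _ _
  have c3_33 : w3 a b * w33 a b = -(w33 a b * w3 a b) := h.ac _ _
  have c2_36 : w2 a b * w36 a b = -(w36 a b * w2 a b) := h.ac _ _
  have c2_37 : w2 a b * w37 a b = -(w37 a b * w2 a b) := h.ac _ _
  have c1_39 : w1 a b * w39 a b = -(w39 a b * w1 a b) := h.ac _ _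
  have c0_40 : w0 a b * w40 a b = -(w40 a b * w0 a b) := h.ac _ _
  have t0 := h.e3 (w1 a b) (w0 a b) (w7 a b) (w11 a b)
  simp only [m16_0 h a b, m16_7 h a b, m1_0 a b, r1_11 h a b, r1_7 h a b, r2_11 h a b, r2_7 h a b, add_mul, sub_mul, neg_mul, zero_mul, add_zero, zero_add, neg_zero, neg_neg, sub_zero, zero_sub] at t0
  have t1 := h.e1 (w15 a b) (w2 a b)
  simp only [m15_2 h a b, m27_2 h a b, add_mul, sub_mul, neg_mul, zero_mul, add_zero, zero_add, neg_zero, neg_neg, sub_zero, zero_sub] at t1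
  have t2 := h.e2 (w4 a b) (w0 a b) (w21 a b)
  simp only [c6_21, m4_0 h a b, m5_0 h a b, r4_21 h a b, r5_21 h a b, add_mul, sub_mul, neg_mul, zero_mul, add_zero, zero_add, neg_zero, neg_neg, sub_zero, zero_sub] at t2
  have t3 := h.e2 (w1 a b) (w0 a b) (w33 a b)
  simp only [c3_33, m1_0 a b, m2_0 a b, r1_33 h a b, r2_33 h a b, add_mul, sub_mul, neg_mul, zero_mul, add_zero, zero_add, neg_zero, neg_neg, sub_zero, zero_sub] at t3
  have t4 := h.e3 (w10 a b) (w0 a b) (w1 a b) (w8 a b)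
  simp only [m10_0 h a b, m10_1 h a b, m10_8 h a b, m12_1 h a b, m12_8 h a b, add_mul, sub_mul, neg_mul, zero_mul, add_zero, zero_add, neg_zero, neg_neg, sub_zero, zero_sub] at t4
  have t5 := h.e3 (w1 a b) (w0 a b) (w1 a b) (w30 a b)
  simp only [c4_30, h.sq (w1 a b), m1_0 a b, m2_1 a b, r1_30 h a b, r2_30 h a b, add_mul, sub_mul, neg_mul, zero_mul, add_zero, zero_add, neg_zero, neg_neg, sub_zero, zero_sub] at t5
  have t6 := h.e3 (w7 a b) (w0 a b) (w5 a b) (w7 a b)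
  simp only [h.sq (w7 a b), m7_0 h a b, m7_5 h a b, m8_5 a b, m8_7 a b, add_mul, sub_mul, neg_mul, zero_mul, add_zero, zero_add, neg_zero, neg_neg, sub_zero, zero_sub] at t6
  have t7 := h.e2 (w11 a b) (w1 a b) (w6 a b)
  simp only [m11_1 h a b, m11_6 a b, m16_1 h a b, m16_6 h a b, m34_1 h a b, add_mul, sub_mul, neg_mul, zero_mul, add_zero, zero_add, neg_zero, neg_neg, sub_zero, zero_sub] at t7
  have t8 := h.e2 (w6 a b) (w1 a b) (w11 a b)
  simp only [c10_11, m34_1 h a b, m6_1 h a b, m8_1 a b, r6_11 h a b, r8_11 h a b, add_mul, sub_mul, neg_mul, zero_mul, add_zero, zero_add, neg_zero, neg_neg, sub_zero, zero_sub] at t8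
  have t9 := h.e2 (w6 a b) (w1 a b) (w12 a b)
  simp only [c10_12, m35_1 h a b, m6_1 h a b, m8_1 a b, r6_12 h a b, r8_12 h a b, add_mul, sub_mul, neg_mul, zero_mul, add_zero, zero_add, neg_zero, neg_neg, sub_zero, zero_sub] at t9
  have t10 := h.e2 (w0 a b) (w1 a b) (w29 a b)
  simp only [c4_29, m2_1 a b, r0_1 h a b, r0_29 h a b, r2_29 h a b, add_mul, sub_mul, neg_mul, zero_mul, add_zero, zero_add, neg_zero, neg_neg, sub_zero, zero_sub] at t10
  have t11 := h.e2 (w0 a b) (w1 a b) (w31 a b)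
  simp only [c4_31, m2_1 a b, m35_1 h a b, r0_1 h a b, r0_31 h a b, r2_31 h a b, add_mul, sub_mul, neg_mul, zero_mul, add_zero, zero_add, neg_zero, neg_neg, sub_zero, zero_sub] at t11
  have t12 := h.e3 (w1 a b) (w1 a b) (w3 a b) (w18 a b)
  simp only [c7_18, h.sq (w1 a b), m26_1 h a b, m26_3 h a b, m5_1 h a b, r1_18 h a b, r1_3 h a b, r5_18 h a b, add_mul, sub_mul, neg_mul, zero_mul, add_zero, zero_add, neg_zero, neg_neg, sub_zero, zero_sub] at t12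
  have t13 := h.e3 (w5 a b) (w1 a b) (w5 a b) (w8 a b)
  simp only [h.sq (w5 a b), m18_1 h a b, m18_5 h a b, m5_1 h a b, m7_5 h a b, r5_8 h a b, r7_8 h a b, add_mul, sub_mul, neg_mul, zero_mul, add_zero, zero_add, neg_zero, neg_neg, sub_zero, zero_sub] at t13
  have t14 := h.e3 (w4 a b) (w1 a b) (w5 a b) (w9 a b)
  simp only [m19_1 h a b, m19_5 h a b, m4_1 h a b, r4_5 h a b, r4_9 h a b, add_mul, sub_mul, neg_mul, zero_mul, add_zero, zero_add, neg_zero, neg_neg, sub_zero, zero_sub] at t14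
  have t15 := h.e3 (w0 a b) (w1 a b) (w7 a b) (w11 a b)
  simp only [c10_11, m14_1 h a b, m14_7 h a b, m8_1 a b, r0_1 h a b, r0_11 h a b, r0_7 h a b, r2_11 h a b, r2_7 h a b, r8_11 h a b, add_mul, sub_mul, neg_mul, zero_mul, add_zero, zero_add, neg_zero, neg_neg, sub_zero, zero_sub] at t15
  have t16 := h.e2 (w31 a b) (w1 a b) (w0 a b)
  simp only [m31_0 h a b, m31_1 h a b, m35_1 h a b, m37_0 h a b, m37_1 h a b, add_mul, sub_mul, neg_mul, zero_mul, add_zero, zero_add, neg_zero, neg_neg, sub_zero, zero_sub] at t16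
  have t17 := h.e2 (w0 a b) (w1 a b) (w32 a b)
  simp only [c4_32, m2_1 a b, m34_1 h a b, m35_1 h a b, r0_1 h a b, r0_32 h a b, r2_32 h a b, add_mul, sub_mul, neg_mul, zero_mul, add_zero, zero_add, neg_zero, neg_neg, sub_zero, zero_sub] at t17
  have t18 := h.e2 (w1 a b) (w2 a b) (w18 a b)
  simp only [c7_18, m26_2 h a b, m4_2 a b, r1_18 h a b, r1_2 h a b, r4_18 h a b, add_mul, sub_mul, neg_mul, zero_mul, add_zero, zero_add, neg_zero, neg_neg, sub_zero, zero_sub] at t18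
  have t19 := h.e3 (w7 a b) (w0 a b) (w4 a b) (w8 a b)
  simp only [h.sq (w8 a b), m25_0 h a b, m25_4 h a b, m7_0 h a b, m7_4 h a b, m8_4 a b, r7_8 h a b, add_mul, sub_mul, neg_mul, zero_mul, add_zero, zero_add, neg_zero, neg_neg, sub_zero, zero_sub] at t19
  refine ⟨?_, ?_, ?_, ?_, ?_, ?_, ?_, ?_, ?_, ?_, ?_, ?_, ?_, ?_, ?_, ?_, ?_, ?_, ?_, ?_⟩
  · apply h.cancel
    linear_combination (norm := module) (-1 : ℤ) • t2 + (-1 : ℤ) • t7 + (-3 : ℤ) • t8 + (-1 : ℤ) • t16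
  · apply h.cancel
    linear_combination (norm := module) (-1 : ℤ) • t2 + (-1 : ℤ) • t7 + (-3 : ℤ) • t9 + (-1 : ℤ) • t16
  · linear_combination (norm := module) (1 : ℤ) • t2 + (1 : ℤ) • t7 + (1 : ℤ) • t10 + (-1 : ℤ) • t19
  · linear_combination (norm := module) (1 : ℤ) • t2 + (1 : ℤ) • t4 + (1 : ℤ) • t7 + (1 : ℤ) • t10 + (-1 : ℤ) • t19
  · apply h.cancel
    linear_combination (norm := module) (-2 : ℤ) • t2 + (-3 : ℤ) • t3 + (-2 : ℤ) • t7 + (-3 : ℤ) • t12 + (1 : ℤ) • t16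
  · apply h.cancel
    linear_combination (norm := module) (1 : ℤ) • t2 + (1 : ℤ) • t7 + (3 : ℤ) • t8 + (-3 : ℤ) • t15 + (1 : ℤ) • t16
  · linear_combination (norm := module) (-1 : ℤ) • t0
  · apply h.cancel
    linear_combination (norm := module) (-1 : ℤ) • t2 + (2 : ℤ) • t7 + (-1 : ℤ) • t16
  · apply h.cancel
    linear_combination (norm := module) (2 : ℤ) • t2 + (3 : ℤ) • t3 + (-3 : ℤ) • t6 + (2 : ℤ) • t7 + (3 : ℤ) • t12 + (-1 : ℤ) • t16
  · apply h.cancel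
    linear_combination (norm := module) (-2 : ℤ) • t2 + (-3 : ℤ) • t3 + (3 : ℤ) • t6 + (-2 : ℤ) • t7 + (-3 : ℤ) • t12 + (3 : ℤ) • t13 + (1 : ℤ) • t16
  · apply h.cancel
    linear_combination (norm := module) (1 : ℤ) • t2 + (1 : ℤ) • t7 + (-3 : ℤ) • t14 + (1 : ℤ) • t16
  · apply h.cancel
    linear_combination (norm := module) (1 : ℤ) • t2 + (1 : ℤ) • t7 + (3 : ℤ) • t10 + (1 : ℤ) • t16
  · apply h.cancel
    linear_combination (norm := module) (1 : ℤ) • t2 + (-3 : ℤ) • t5 + (1 : ℤ) • t7 + (1 : ℤ) • t16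
  · apply h.cancel
    linear_combination (norm := module) (1 : ℤ) • t2 + (1 : ℤ) • t7 + (3 : ℤ) • t11 + (1 : ℤ) • t16
  · apply h.cancel
    linear_combination (norm := module) (1 : ℤ) • t2 + (1 : ℤ) • t7 + (1 : ℤ) • t16 + (3 : ℤ) • t17
  · apply h.cancel
    linear_combination (norm := module) (-2 : ℤ) • t2 + (-3 : ℤ) • t3 + (-2 : ℤ) • t7 + (1 : ℤ) • t16
  · linear_combination (norm := module) (1 : ℤ) • t1
  · apply h.cancel
    linear_combination (norm := module) (2 : ℤ) • t2 + (3 : ℤ) • t3 + (2 : ℤ) • t7 + (3 : ℤ) • t12 + (-1 : ℤ) • t16 + (3 : ℤ) • t18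
  · apply h.cancel
    linear_combination (norm := module) (-1 : ℤ) • t2 + (-1 : ℤ) • t7 + (-1 : ℤ) • t16
  · apply h.cancel
    linear_combination (norm := module) (2 : ℤ) • t2 + (2 : ℤ) • t7 + (-1 : ℤ) • t16
theorem m11_10 (h : Eng A) (a b : A) : w11 a b * w10 a b = 0 := (wt7_8 h a b).1
theorem r10_11 (h : Eng A) (a b : A) : w10 a b * w11 a b = 0 := by
  rw [h.ac, m11_10 h, neg_zero]
theorem m12_10 (h : Eng A) (a b : A) : w12 a b * w10 a b = 0 := (wt7_8 h a b).2.1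
theorem r10_12 (h : Eng A) (a b : A) : w10 a b * w12 a b = 0 := by
  rw [h.ac, m12_10 h, neg_zero]
theorem m15_8 (h : Eng A) (a b : A) : w15 a b * w8 a b = 0 := (wt7_8 h a b).2.2.1
theorem r8_15 (h : Eng A) (a b : A) : w8 a b * w15 a b = 0 := by
  rw [h.ac, m15_8 h, neg_zero]
theorem m16_8 (h : Eng A) (a b : A) : w16 a b * w8 a b = 0 := (wt7_8 h a b).2.2.2.1
theorem r8_16 (h : Eng A) (a b : A) : w8 a b * w16 a b = 0 := by
  rw [h.ac, m16_8 h, neg_zero]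
theorem m18_7 (h : Eng A) (a b : A) : w18 a b * w7 a b = 0 := (wt7_8 h a b).2.2.2.2.1
theorem r7_18 (h : Eng A) (a b : A) : w7 a b * w18 a b = 0 := by
  rw [h.ac, m18_7 h, neg_zero]
theorem m19_7 (h : Eng A) (a b : A) : w19 a b * w7 a b = 0 := (wt7_8 h a b).2.2.2.2.2.1
theorem r7_19 (h : Eng A) (a b : A) : w7 a b * w19 a b = 0 := by
  rw [h.ac, m19_7 h, neg_zero]
theorem m20_7 (h : Eng A) (a b : A) : w20 a b * w7 a b = 0 := (wt7_8 h a b).2.2.2.2.2.2.1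
theorem r7_20 (h : Eng A) (a b : A) : w7 a b * w20 a b = 0 := by
  rw [h.ac, m20_7 h, neg_zero]
theorem m21_6 (h : Eng A) (a b : A) : w21 a b * w6 a b = 0 := (wt7_8 h a b).2.2.2.2.2.2.2.1
theorem r6_21 (h : Eng A) (a b : A) : w6 a b * w21 a b = 0 := by
  rw [h.ac, m21_6 h, neg_zero]
theorem m25_5 (h : Eng A) (a b : A) : w25 a b * w5 a b = 0 := (wt7_8 h a b).2.2.2.2.2.2.2.2.1
theorem r5_25 (h : Eng A) (a b : A) : w5 a b * w25 a b = 0 := by
  rw [h.ac, m25_5 h, neg_zero]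
theorem m26_5 (h : Eng A) (a b : A) : w26 a b * w5 a b = 0 := (wt7_8 h a b).2.2.2.2.2.2.2.2.2.1
theorem r5_26 (h : Eng A) (a b : A) : w5 a b * w26 a b = 0 := by
  rw [h.ac, m26_5 h, neg_zero]
theorem m27_5 (h : Eng A) (a b : A) : w27 a b * w5 a b = 0 := (wt7_8 h a b).2.2.2.2.2.2.2.2.2.2.1
theorem r5_27 (h : Eng A) (a b : A) : w5 a b * w27 a b = 0 := by
  rw [h.ac, m27_5 h, neg_zero]
theorem m29_4 (h : Eng A) (a b : A) : w29 a b * w4 a b = 0 := (wt7_8 h a b).2.2.2.2.2.2.2.2.2.2.2.1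
theorem r4_29 (h : Eng A) (a b : A) : w4 a b * w29 a b = 0 := by
  rw [h.ac, m29_4 h, neg_zero]
theorem m30_4 (h : Eng A) (a b : A) : w30 a b * w4 a b = 0 := (wt7_8 h a b).2.2.2.2.2.2.2.2.2.2.2.2.1
theorem r4_30 (h : Eng A) (a b : A) : w4 a b * w30 a b = 0 := by
  rw [h.ac, m30_4 h, neg_zero]
theorem m31_4 (h : Eng A) (a b : A) : w31 a b * w4 a b = 0 := (wt7_8 h a b).2.2.2.2.2.2.2.2.2.2.2.2.2.1
theorem r4_31 (h : Eng A) (a b : A) : w4 a b * w31 a b = 0 := by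
  rw [h.ac, m31_4 h, neg_zero]
theorem m32_4 (h : Eng A) (a b : A) : w32 a b * w4 a b = 0 := (wt7_8 h a b).2.2.2.2.2.2.2.2.2.2.2.2.2.2.1
theorem r4_32 (h : Eng A) (a b : A) : w4 a b * w32 a b = 0 := by
  rw [h.ac, m32_4 h, neg_zero]
theorem m33_3 (h : Eng A) (a b : A) : w33 a b * w3 a b = 0 := (wt7_8 h a b).2.2.2.2.2.2.2.2.2.2.2.2.2.2.2.1
theorem r3_33 (h : Eng A) (a b : A) : w3 a b * w33 a b = 0 := by
  rw [h.ac, m33_3 h, neg_zero]
theorem m36_2 (h : Eng A) (a b : A) : w36 a b * w2 a b = 0 := (wt7_8 h a b).2.2.2.2.2.2.2.2.2.2.2.2.2.2.2.2.1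
theorem r2_36 (h : Eng A) (a b : A) : w2 a b * w36 a b = 0 := by
  rw [h.ac, m36_2 h, neg_zero]
theorem m37_2 (h : Eng A) (a b : A) : w37 a b * w2 a b = 0 := (wt7_8 h a b).2.2.2.2.2.2.2.2.2.2.2.2.2.2.2.2.2.1
theorem r2_37 (h : Eng A) (a b : A) : w2 a b * w37 a b = 0 := by
  rw [h.ac, m37_2 h, neg_zero]
theorem m39_1 (h : Eng A) (a b : A) : w39 a b * w1 a b = 0 := (wt7_8 h a b).2.2.2.2.2.2.2.2.2.2.2.2.2.2.2.2.2.2.1
theorem r1_39 (h : Eng A) (a b : A) : w1 a b * w39 a b = 0 := by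
  rw [h.ac, m39_1 h, neg_zero]
theorem m40_0 (h : Eng A) (a b : A) : w40 a b * w0 a b = 0 := (wt7_8 h a b).2.2.2.2.2.2.2.2.2.2.2.2.2.2.2.2.2.2.2
theorem r0_40 (h : Eng A) (a b : A) : w0 a b * w40 a b = 0 := by
  rw [h.ac, m40_0 h, neg_zero]

theorem wt6_9 (h : Eng A) (a b : A) :
    (w21 a b * w7 a b = 0) ∧
    (w33 a b * w4 a b = 0) ∧
    (w40 a b * w1 a b = 0) := by
  have c7_21 : w7 a b * w21 a b = -(w21 a b * w7 a b) := h.ac _ _
  have c4_33 : w4 a b * w33 a b = -(w33 a b * w4 a b) := h.ac _ _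
  have c1_40 : w1 a b * w40 a b = -(w40 a b * w1 a b) := h.ac _ _
  have t0 := h.e1 (w31 a b) (w1 a b)
  simp only [m31_1 h a b, m37_1 h a b, add_mul, sub_mul, neg_mul, zero_mul, add_zero, zero_add, neg_zero, neg_neg, sub_zero, zero_sub] at t0
  have t1 := h.e3 (w4 a b) (w1 a b) (w4 a b) (w12 a b)
  simp only [h.sq (w4 a b), m26_1 h a b, m26_4 h a b, m4_1 h a b, r4_12 h a b, add_mul, sub_mul, neg_mul, zero_mul, add_zero, zero_add, neg_zero, neg_neg, sub_zero, zero_sub] at t1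
  have t2 := h.e3 (w1 a b) (w1 a b) (w7 a b) (w11 a b)
  simp only [h.sq (w1 a b), m16_1 h a b, m16_7 h a b, r1_11 h a b, r1_7 h a b, add_mul, sub_mul, neg_mul, zero_mul, add_zero, zero_add, neg_zero, neg_neg, sub_zero, zero_sub] at t2
  refine ⟨?_, ?_, ?_⟩
  · linear_combination (norm := module) (-1 : ℤ) • t2
  · linear_combination (norm := module) (-1 : ℤ) • t1
  · linear_combination (norm := module) (-1 : ℤ) • t0
theorem m21_7 (h : Eng A) (a b : A) : w21 a b * w7 a b = 0 := (wt6_9 h a b).1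
theorem r7_21 (h : Eng A) (a b : A) : w7 a b * w21 a b = 0 := by
  rw [h.ac, m21_7 h, neg_zero]
theorem m33_4 (h : Eng A) (a b : A) : w33 a b * w4 a b = 0 := (wt6_9 h a b).2.1
theorem r4_33 (h : Eng A) (a b : A) : w4 a b * w33 a b = 0 := by
  rw [h.ac, m33_4 h, neg_zero]
theorem m40_1 (h : Eng A) (a b : A) : w40 a b * w1 a b = 0 := (wt6_9 h a b).2.2
theorem r1_40 (h : Eng A) (a b : A) : w1 a b * w40 a b = 0 := by
  rw [h.ac, m40_1 h, neg_zero]

end Pool.Agent.H461R3.E3
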