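import Pool.Agent.H461R3.E3.D15

set_option autoImplicit false
set_option linter.all false
set_option linter.unusedSimpArgs false
set_option linter.unusedVariables false

namespace Pool.Agent.H461R3.E3

universe u

variable {A : Type u} [NonUnitalNonAssocRing A]

theorem wt9_7 (h : Eng A) (a b : A) :
    (w13 a b * w9 a b = 0) ∧
    (w14 a b * w9 a b = 0) ∧
    (w17 a b * w8 a b = 0) ∧
    (w22 a b * w6 a b = 0) ∧
    (w23 a b * w6 a b = 0) ∧
    (w24 a b * w6 a b = 0) ∧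
    (w28 a b * w5 a b = 0) ∧
    (w34 a b * w3 a b = 0) ∧
    (w35 a b * w3 a b = 0) ∧
    (w38 a b * w2 a b = 0) := by
  have c9_13 : w9 a b * w13 a b = -(w13 a b * w9 a b) := h.ac _ _
  have c9_14 : w9 a b * w14 a b = -(w14 a b * w9 a b) := h.ac _ _
  have c8_17 : w8 a b * w17 a b = -(w17 a b * w8 a b) := h.ac _ _
  have c6_22 : w6 a b * w22 a b = -(w22 a b * w6 a b) := h.ac _ _
  have c6_23 : w6 a b * w23 a b = -(w23 a b * w6 a b) := h.ac _ _
  have c6_24 : w6 a b * w24 a b = -(w24 a b * w6 a b) := h.ac _ _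
  have c5_28 : w5 a b * w28 a b = -(w28 a b * w5 a b) := h.ac _ _
  have c3_34 : w3 a b * w34 a b = -(w34 a b * w3 a b) := h.ac _ _
  have c3_35 : w3 a b * w35 a b = -(w35 a b * w3 a b) := h.ac _ _
  have c2_38 : w2 a b * w38 a b = -(w38 a b * w2 a b) := h.ac _ _
  have t0 := h.e2 (w31 a b) (w0 a b) (w2 a b)
  simp only [m31_0 h a b, m31_2 h a b, m35_0 h a b, m35_2 h a b, add_mul, sub_mul, neg_mul, zero_mul, add_zero, zero_add, neg_zero, neg_neg, sub_zero, zero_sub] at t0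
  have t1 := h.e2 (w18 a b) (w0 a b) (w5 a b)
  simp only [m18_0 h a b, m18_5 h a b, m23_0 h a b, m23_5 h a b, add_mul, sub_mul, neg_mul, zero_mul, add_zero, zero_add, neg_zero, neg_neg, sub_zero, zero_sub] at t1
  have t2 := h.e2 (w16 a b) (w0 a b) (w6 a b)
  simp only [m16_0 h a b, m16_6 h a b, m20_0 h a b, m20_6 h a b, add_mul, sub_mul, neg_mul, zero_mul, add_zero, zero_add, neg_zero, neg_neg, sub_zero, zero_sub] at t2
  have t3 := h.e2 (w11 a b) (w0 a b) (w8 a b)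
  simp only [m11_0 h a b, m11_8 h a b, m14_0 h a b, m14_8 h a b, add_mul, sub_mul, neg_mul, zero_mul, add_zero, zero_add, neg_zero, neg_neg, sub_zero, zero_sub] at t3
  have t4 := h.e2 (w7 a b) (w0 a b) (w13 a b)
  simp only [c9_13, m39_0 h a b, m7_0 h a b, m8_0 a b, r7_13 h a b, r8_13 h a b, add_mul, sub_mul, neg_mul, zero_mul, add_zero, zero_add, neg_zero, neg_neg, sub_zero, zero_sub] at t4
  have t5 := h.e2 (w7 a b) (w0 a b) (w14 a b)
  simp only [c9_14, m7_0 h a b, m8_0 a b, r7_14 h a b, r8_14 h a b, add_mul, sub_mul, neg_mul, zero_mul, add_zero, zero_add, neg_zero, neg_neg, sub_zero, zero_sub] at t5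
  have t6 := h.e2 (w4 a b) (w0 a b) (w22 a b)
  simp only [c6_22, m39_0 h a b, m4_0 h a b, m5_0 h a b, r4_22 h a b, r5_22 h a b, add_mul, sub_mul, neg_mul, zero_mul, add_zero, zero_add, neg_zero, neg_neg, sub_zero, zero_sub] at t6
  have t7 := h.e2 (w4 a b) (w0 a b) (w23 a b)
  simp only [c6_23, m4_0 h a b, m5_0 h a b, r4_23 h a b, r5_23 h a b, add_mul, sub_mul, neg_mul, zero_mul, add_zero, zero_add, neg_zero, neg_neg, sub_zero, zero_sub] at t7
  have t8 := h.e2 (w1 a b) (w0 a b) (w34 a b)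
  simp only [c3_34, m1_0 a b, m2_0 a b, m39_0 h a b, r1_34 h a b, r2_34 h a b, add_mul, sub_mul, neg_mul, zero_mul, add_zero, zero_add, neg_zero, neg_neg, sub_zero, zero_sub] at t8
  have t9 := h.e2 (w1 a b) (w0 a b) (w35 a b)
  simp only [c3_35, m1_0 a b, m2_0 a b, m39_0 h a b, r1_35 h a b, r2_35 h a b, add_mul, sub_mul, neg_mul, zero_mul, add_zero, zero_add, neg_zero, neg_neg, sub_zero, zero_sub] at t9
  refine ⟨?_, ?_, ?_, ?_, ?_, ?_, ?_, ?_, ?_, ?_⟩
  · linear_combination (norm := module) (1 : ℤ) • t4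
  · linear_combination (norm := module) (1 : ℤ) • t5
  · linear_combination (norm := module) (1 : ℤ) • t3
  · linear_combination (norm := module) (-1 : ℤ) • t6
  · linear_combination (norm := module) (-1 : ℤ) • t7
  · linear_combination (norm := module) (1 : ℤ) • t2
  · linear_combination (norm := module) (-1 : ℤ) • t1
  · linear_combination (norm := module) (-1 : ℤ) • t8
  · linear_combination (norm := module) (-1 : ℤ) • t9
  · linear_combination (norm := module) (-1 : ℤ) • t0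
theorem m13_9 (h : Eng A) (a b : A) : w13 a b * w9 a b = 0 := (wt9_7 h a b).1
theorem r9_13 (h : Eng A) (a b : A) : w9 a b * w13 a b = 0 := by
  rw [h.ac, m13_9 h, neg_zero]
theorem m14_9 (h : Eng A) (a b : A) : w14 a b * w9 a b = 0 := (wt9_7 h a b).2.1
theorem r9_14 (h : Eng A) (a b : A) : w9 a b * w14 a b = 0 := by
  rw [h.ac, m14_9 h, neg_zero]
theorem m17_8 (h : Eng A) (a b : A) : w17 a b * w8 a b = 0 := (wt9_7 h a b).2.2.1
theorem r8_17 (h : Eng A) (a b : A) : w8 a b * w17 a b = 0 := by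
  rw [h.ac, m17_8 h, neg_zero]
theorem m22_6 (h : Eng A) (a b : A) : w22 a b * w6 a b = 0 := (wt9_7 h a b).2.2.2.1
theorem r6_22 (h : Eng A) (a b : A) : w6 a b * w22 a b = 0 := by
  rw [h.ac, m22_6 h, neg_zero]
theorem m23_6 (h : Eng A) (a b : A) : w23 a b * w6 a b = 0 := (wt9_7 h a b).2.2.2.2.1
theorem r6_23 (h : Eng A) (a b : A) : w6 a b * w23 a b = 0 := by
  rw [h.ac, m23_6 h, neg_zero]
theorem m24_6 (h : Eng A) (a b : A) : w24 a b * w6 a b = 0 := (wt9_7 h a b).2.2.2.2.2.1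
theorem r6_24 (h : Eng A) (a b : A) : w6 a b * w24 a b = 0 := by
  rw [h.ac, m24_6 h, neg_zero]
theorem m28_5 (h : Eng A) (a b : A) : w28 a b * w5 a b = 0 := (wt9_7 h a b).2.2.2.2.2.2.1
theorem r5_28 (h : Eng A) (a b : A) : w5 a b * w28 a b = 0 := by
  rw [h.ac, m28_5 h, neg_zero]
theorem m34_3 (h : Eng A) (a b : A) : w34 a b * w3 a b = 0 := (wt9_7 h a b).2.2.2.2.2.2.2.1
theorem r3_34 (h : Eng A) (a b : A) : w3 a b * w34 a b = 0 := by
  rw [h.ac, m34_3 h, neg_zero]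
theorem m35_3 (h : Eng A) (a b : A) : w35 a b * w3 a b = 0 := (wt9_7 h a b).2.2.2.2.2.2.2.2.1
theorem r3_35 (h : Eng A) (a b : A) : w3 a b * w35 a b = 0 := by
  rw [h.ac, m35_3 h, neg_zero]
theorem m38_2 (h : Eng A) (a b : A) : w38 a b * w2 a b = 0 := (wt9_7 h a b).2.2.2.2.2.2.2.2.2
theorem r2_38 (h : Eng A) (a b : A) : w2 a b * w38 a b = 0 := by
  rw [h.ac, m38_2 h, neg_zero]

theorem wt8_8 (h : Eng A) (a b : A) :
    (w12 a b * w11 a b = 0) ∧
    (w13 a b * w10 a b = 0) ∧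
    (w14 a b * w10 a b = 0) ∧
    (w15 a b * w9 a b = 0) ∧
    (w16 a b * w9 a b = 0) ∧
    (w18 a b * w8 a b = 0) ∧
    (w19 a b * w8 a b = 0) ∧
    (w20 a b * w8 a b = 0) ∧
    (w22 a b * w7 a b = 0) ∧
    (w23 a b * w7 a b = 0) ∧
    (w24 a b * w7 a b = 0) ∧
    (w25 a b * w6 a b = 0) ∧
    (w26 a b * w6 a b = 0) ∧
    (w27 a b * w6 a b = 0) ∧
    (w29 a b * w5 a b = 0) ∧
    (w30 a b * w5 a b = 0) ∧
    (w31 a b * w5 a b = 0) ∧
    (w32 a b * w5 a b = 0) ∧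
    (w34 a b * w4 a b = 0) ∧
    (w35 a b * w4 a b = 0) ∧
    (w36 a b * w3 a b = 0) ∧
    (w37 a b * w3 a b = 0) ∧
    (w39 a b * w2 a b = 0) := by
  have c11_12 : w11 a b * w12 a b = -(w12 a b * w11 a b) := h.ac _ _
  have c10_13 : w10 a b * w13 a b = -(w13 a b * w10 a b) := h.ac _ _
  have c10_14 : w10 a b * w14 a b = -(w14 a b * w10 a b) := h.ac _ _
  have c9_15 : w9 a b * w15 a b = -(w15 a b * w9 a b) := h.ac _ _
  have c9_16 : w9 a b * w16 a b = -(w16 a b * w9 a b) := h.ac _ _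
  have c8_18 : w8 a b * w18 a b = -(w18 a b * w8 a b) := h.ac _ _
  have c8_19 : w8 a b * w19 a b = -(w19 a b * w8 a b) := h.ac _ _
  have c8_20 : w8 a b * w20 a b = -(w20 a b * w8 a b) := h.ac _ _
  have c7_22 : w7 a b * w22 a b = -(w22 a b * w7 a b) := h.ac _ _
  have c7_23 : w7 a b * w23 a b = -(w23 a b * w7 a b) := h.ac _ _
  have c7_24 : w7 a b * w24 a b = -(w24 a b * w7 a b) := h.ac _ _
  have c6_25 : w6 a b * w25 a b = -(w25 a b * w6 a b) := h.ac _ _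
  have c6_26 : w6 a b * w26 a b = -(w26 a b * w6 a b) := h.ac _ _
  have c6_27 : w6 a b * w27 a b = -(w27 a b * w6 a b) := h.ac _ _
  have c5_29 : w5 a b * w29 a b = -(w29 a b * w5 a b) := h.ac _ _
  have c5_30 : w5 a b * w30 a b = -(w30 a b * w5 a b) := h.ac _ _
  have c5_31 : w5 a b * w31 a b = -(w31 a b * w5 a b) := h.ac _ _
  have c5_32 : w5 a b * w32 a b = -(w32 a b * w5 a b) := h.ac _ _
  have c4_34 : w4 a b * w34 a b = -(w34 a b * w4 a b) := h.ac _ _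
  have c4_35 : w4 a b * w35 a b = -(w35 a b * w4 a b) := h.ac _ _
  have c3_36 : w3 a b * w36 a b = -(w36 a b * w3 a b) := h.ac _ _
  have c3_37 : w3 a b * w37 a b = -(w37 a b * w3 a b) := h.ac _ _
  have c2_39 : w2 a b * w39 a b = -(w39 a b * w2 a b) := h.ac _ _
  have t0 := h.e2 (w16 a b) (w0 a b) (w7 a b)
  simp only [m16_0 h a b, m16_7 h a b, m20_0 h a b, m20_7 h a b, add_mul, sub_mul, neg_mul, zero_mul, add_zero, zero_add, neg_zero, neg_neg, sub_zero, zero_sub] at t0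
  have t1 := h.e2 (w7 a b) (w0 a b) (w15 a b)
  simp only [c9_15, m40_0 h a b, m7_0 h a b, m8_0 a b, r7_15 h a b, r8_15 h a b, add_mul, sub_mul, neg_mul, zero_mul, add_zero, zero_add, neg_zero, neg_neg, sub_zero, zero_sub] at t1
  have t2 := h.e2 (w7 a b) (w0 a b) (w16 a b)
  simp only [c9_16, m7_0 h a b, m8_0 a b, r7_16 h a b, r8_16 h a b, add_mul, sub_mul, neg_mul, zero_mul, add_zero, zero_add, neg_zero, neg_neg, sub_zero, zero_sub] at t2
  have t3 := h.e2 (w4 a b) (w0 a b) (w25 a b)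
  simp only [c6_25, m40_0 h a b, m4_0 h a b, m5_0 h a b, r4_25 h a b, r5_25 h a b, add_mul, sub_mul, neg_mul, zero_mul, add_zero, zero_add, neg_zero, neg_neg, sub_zero, zero_sub] at t3
  have t4 := h.e2 (w4 a b) (w0 a b) (w26 a b)
  simp only [c6_26, m4_0 h a b, m5_0 h a b, r4_26 h a b, r5_26 h a b, add_mul, sub_mul, neg_mul, zero_mul, add_zero, zero_add, neg_zero, neg_neg, sub_zero, zero_sub] at t4
  have t5 := h.e2 (w4 a b) (w0 a b) (w27 a b)
  simp only [c6_27, m40_0 h a b, m4_0 h a b, m5_0 h a b, r4_27 h a b, r5_27 h a b, add_mul, sub_mul, neg_mul, zero_mul, add_zero, zero_add, neg_zero, neg_neg, sub_zero, zero_sub] at t5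
  have t6 := h.e2 (w1 a b) (w0 a b) (w36 a b)
  simp only [c3_36, m1_0 a b, m2_0 a b, m40_0 h a b, r1_36 h a b, r2_36 h a b, add_mul, sub_mul, neg_mul, zero_mul, add_zero, zero_add, neg_zero, neg_neg, sub_zero, zero_sub] at t6
  have t7 := h.e2 (w1 a b) (w0 a b) (w37 a b)
  simp only [c3_37, m1_0 a b, m2_0 a b, m40_0 h a b, r1_37 h a b, r2_37 h a b, add_mul, sub_mul, neg_mul, zero_mul, add_zero, zero_add, neg_zero, neg_neg, sub_zero, zero_sub] at t7
  have t8 := h.e3 (w7 a b) (w0 a b) (w1 a b) (w13 a b)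
  simp only [c10_13, m39_0 h a b, m39_1 h a b, m7_0 h a b, m7_1 h a b, m8_1 a b, r7_13 h a b, r8_13 h a b, add_mul, sub_mul, neg_mul, zero_mul, add_zero, zero_add, neg_zero, neg_neg, sub_zero, zero_sub] at t8
  have t9 := h.e3 (w7 a b) (w0 a b) (w1 a b) (w14 a b)
  simp only [c10_14, m7_0 h a b, m7_1 h a b, m8_1 a b, r7_14 h a b, r8_14 h a b, add_mul, sub_mul, neg_mul, zero_mul, add_zero, zero_add, neg_zero, neg_neg, sub_zero, zero_sub] at t9
  have t10 := h.e3 (w4 a b) (w0 a b) (w1 a b) (w22 a b)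
  simp only [c7_22, m39_0 h a b, m39_1 h a b, m4_0 h a b, m4_1 h a b, m5_1 h a b, r4_22 h a b, r5_22 h a b, add_mul, sub_mul, neg_mul, zero_mul, add_zero, zero_add, neg_zero, neg_neg, sub_zero, zero_sub] at t10
  have t11 := h.e3 (w4 a b) (w0 a b) (w1 a b) (w23 a b)
  simp only [c7_23, m4_0 h a b, m4_1 h a b, m5_1 h a b, r4_23 h a b, r5_23 h a b, add_mul, sub_mul, neg_mul, zero_mul, add_zero, zero_add, neg_zero, neg_neg, sub_zero, zero_sub] at t11
  have t12 := h.e3 (w1 a b) (w0 a b) (w1 a b) (w34 a b)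
  simp only [c4_34, h.sq (w1 a b), m1_0 a b, m2_1 a b, m39_0 h a b, m39_1 h a b, r1_34 h a b, r2_34 h a b, add_mul, sub_mul, neg_mul, zero_mul, add_zero, zero_add, neg_zero, neg_neg, sub_zero, zero_sub] at t12
  have t13 := h.e3 (w1 a b) (w0 a b) (w1 a b) (w35 a b)
  simp only [c4_35, h.sq (w1 a b), m1_0 a b, m2_1 a b, m39_0 h a b, m39_1 h a b, r1_35 h a b, r2_35 h a b, add_mul, sub_mul, neg_mul, zero_mul, add_zero, zero_add, neg_zero, neg_neg, sub_zero, zero_sub] at t13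
  have t14 := h.e1 (w19 a b) (w2 a b)
  simp only [m19_2 h a b, m30_2 h a b, m31_2 h a b, add_mul, sub_mul, neg_mul, zero_mul, add_zero, zero_add, neg_zero, neg_neg, sub_zero, zero_sub] at t14
  have t15 := h.e2 (w5 a b) (w2 a b) (w12 a b)
  simp only [c11_12, m32_2 h a b, m5_2 h a b, m8_2 a b, r5_12 h a b, r8_12 h a b, add_mul, sub_mul, neg_mul, zero_mul, add_zero, zero_add, neg_zero, neg_neg, sub_zero, zero_sub] at t15
  have t16 := h.e3 (w11 a b) (w0 a b) (w1 a b) (w8 a b)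
  simp only [m11_0 h a b, m11_1 h a b, m11_8 h a b, m14_1 h a b, m14_8 h a b, m16_0 h a b, m16_8 h a b, add_mul, sub_mul, neg_mul, zero_mul, add_zero, zero_add, neg_zero, neg_neg, sub_zero, zero_sub] at t16
  have t17 := h.e3 (w1 a b) (w0 a b) (w2 a b) (w30 a b)
  simp only [c5_30, h.sq (w2 a b), m1_0 a b, m4_0 h a b, r1_2 h a b, r1_30 h a b, r2_30 h a b, r4_30 h a b, add_mul, sub_mul, neg_mul, zero_mul, add_zero, zero_add, neg_zero, neg_neg, sub_zero, zero_sub] at t17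
  have t18 := h.e3 (w1 a b) (w0 a b) (w2 a b) (w31 a b)
  simp only [c5_31, h.sq (w2 a b), m1_0 a b, m37_0 h a b, m37_2 h a b, m4_0 h a b, r1_2 h a b, r1_31 h a b, r2_31 h a b, r4_31 h a b, add_mul, sub_mul, neg_mul, zero_mul, add_zero, zero_add, neg_zero, neg_neg, sub_zero, zero_sub] at t18
  have t19 := h.e3 (w7 a b) (w0 a b) (w5 a b) (w8 a b)
  simp only [h.sq (w8 a b), m25_0 h a b, m25_5 h a b, m7_0 h a b, m7_5 h a b, m8_5 a b, r7_8 h a b, add_mul, sub_mul, neg_mul, zero_mul, add_zero, zero_add, neg_zero, neg_neg, sub_zero, zero_sub] at t19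
  have t20 := h.e2 (w4 a b) (w8 a b) (w0 a b)
  simp only [m15_0 h a b, m15_8 h a b, m4_0 h a b, r4_8 h a b, r5_8 h a b, add_mul, sub_mul, neg_mul, zero_mul, add_zero, zero_add, neg_zero, neg_neg, sub_zero, zero_sub] at t20
  have t21 := h.e3 (w0 a b) (w1 a b) (w2 a b) (w29 a b)
  simp only [c5_29, h.sq (w2 a b), m3_1 a b, r0_1 h a b, r0_2 h a b, r0_29 h a b, r2_29 h a b, r3_29 h a b, add_mul, sub_mul, neg_mul, zero_mul, add_zero, zero_add, neg_zero, neg_neg, sub_zero, zero_sub] at t21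
  have t22 := h.e2 (w1 a b) (w5 a b) (w9 a b)
  simp only [m12_5 a b, m7_5 h a b, r1_5 h a b, r1_9 h a b, r7_9 h a b, add_mul, sub_mul, neg_mul, zero_mul, add_zero, zero_add, neg_zero, neg_neg, sub_zero, zero_sub] at t22
  refine ⟨?_, ?_, ?_, ?_, ?_, ?_, ?_, ?_, ?_, ?_, ?_, ?_, ?_, ?_, ?_, ?_, ?_, ?_, ?_, ?_, ?_, ?_, ?_⟩
  · linear_combination (norm := module) (1 : ℤ) • t15
  · linear_combination (norm := module) (1 : ℤ) • t8
  · linear_combination (norm := module) (1 : ℤ) • t9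
  · linear_combination (norm := module) (1 : ℤ) • t1
  · linear_combination (norm := module) (1 : ℤ) • t2
  · linear_combination (norm := module) (1 : ℤ) • t14 + (-1 : ℤ) • t19 + (1 : ℤ) • t21
  · linear_combination (norm := module) (-1 : ℤ) • t14 + (1 : ℤ) • t19 + (1 : ℤ) • t20 + (-1 : ℤ) • t21
  · linear_combination (norm := module) (1 : ℤ) • t14 + (1 : ℤ) • t16 + (-1 : ℤ) • t19 + (-1 : ℤ) • t20 + (1 : ℤ) • t21
  · linear_combination (norm := module) (-1 : ℤ) • t10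
  · linear_combination (norm := module) (-1 : ℤ) • t11
  · linear_combination (norm := module) (1 : ℤ) • t0
  · linear_combination (norm := module) (-1 : ℤ) • t3
  · linear_combination (norm := module) (-1 : ℤ) • t4
  · linear_combination (norm := module) (-1 : ℤ) • t5
  · linear_combination (norm := module) (1 : ℤ) • t14 + (1 : ℤ) • t21
  · linear_combination (norm := module) (1 : ℤ) • t14 + (-1 : ℤ) • t17
  · linear_combination (norm := module) (-1 : ℤ) • t14 + (-1 : ℤ) • t18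
  · linear_combination (norm := module) (-1 : ℤ) • t14 + (-1 : ℤ) • t21 + (-1 : ℤ) • t22
  · linear_combination (norm := module) (-1 : ℤ) • t12
  · linear_combination (norm := module) (-1 : ℤ) • t13
  · linear_combination (norm := module) (-1 : ℤ) • t6
  · linear_combination (norm := module) (-1 : ℤ) • t7
  · linear_combination (norm := module) (-1 : ℤ) • t14
theorem m12_11 (h : Eng A) (a b : A) : w12 a b * w11 a b = 0 := (wt8_8 h a b).1
theorem r11_12 (h : Eng A) (a b : A) : w11 a b * w12 a b = 0 := by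
  rw [h.ac, m12_11 h, neg_zero]
theorem m13_10 (h : Eng A) (a b : A) : w13 a b * w10 a b = 0 := (wt8_8 h a b).2.1
theorem r10_13 (h : Eng A) (a b : A) : w10 a b * w13 a b = 0 := by
  rw [h.ac, m13_10 h, neg_zero]
theorem m14_10 (h : Eng A) (a b : A) : w14 a b * w10 a b = 0 := (wt8_8 h a b).2.2.1
theorem r10_14 (h : Eng A) (a b : A) : w10 a b * w14 a b = 0 := by
  rw [h.ac, m14_10 h, neg_zero]
theorem m15_9 (h : Eng A) (a b : A) : w15 a b * w9 a b = 0 := (wt8_8 h a b).2.2.2.1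
theorem r9_15 (h : Eng A) (a b : A) : w9 a b * w15 a b = 0 := by
  rw [h.ac, m15_9 h, neg_zero]
theorem m16_9 (h : Eng A) (a b : A) : w16 a b * w9 a b = 0 := (wt8_8 h a b).2.2.2.2.1
theorem r9_16 (h : Eng A) (a b : A) : w9 a b * w16 a b = 0 := by
  rw [h.ac, m16_9 h, neg_zero]
theorem m18_8 (h : Eng A) (a b : A) : w18 a b * w8 a b = 0 := (wt8_8 h a b).2.2.2.2.2.1
theorem r8_18 (h : Eng A) (a b : A) : w8 a b * w18 a b = 0 := by
  rw [h.ac, m18_8 h, neg_zero]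
theorem m19_8 (h : Eng A) (a b : A) : w19 a b * w8 a b = 0 := (wt8_8 h a b).2.2.2.2.2.2.1
theorem r8_19 (h : Eng A) (a b : A) : w8 a b * w19 a b = 0 := by
  rw [h.ac, m19_8 h, neg_zero]
theorem m20_8 (h : Eng A) (a b : A) : w20 a b * w8 a b = 0 := (wt8_8 h a b).2.2.2.2.2.2.2.1
theorem r8_20 (h : Eng A) (a b : A) : w8 a b * w20 a b = 0 := by
  rw [h.ac, m20_8 h, neg_zero]
theorem m22_7 (h : Eng A) (a b : A) : w22 a b * w7 a b = 0 := (wt8_8 h a b).2.2.2.2.2.2.2.2.1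
theorem r7_22 (h : Eng A) (a b : A) : w7 a b * w22 a b = 0 := by
  rw [h.ac, m22_7 h, neg_zero]
theorem m23_7 (h : Eng A) (a b : A) : w23 a b * w7 a b = 0 := (wt8_8 h a b).2.2.2.2.2.2.2.2.2.1
theorem r7_23 (h : Eng A) (a b : A) : w7 a b * w23 a b = 0 := by
  rw [h.ac, m23_7 h, neg_zero]
theorem m24_7 (h : Eng A) (a b : A) : w24 a b * w7 a b = 0 := (wt8_8 h a b).2.2.2.2.2.2.2.2.2.2.1
theorem r7_24 (h : Eng A) (a b : A) : w7 a b * w24 a b = 0 := by
  rw [h.ac, m24_7 h, neg_zero]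
theorem m25_6 (h : Eng A) (a b : A) : w25 a b * w6 a b = 0 := (wt8_8 h a b).2.2.2.2.2.2.2.2.2.2.2.1
theorem r6_25 (h : Eng A) (a b : A) : w6 a b * w25 a b = 0 := by
  rw [h.ac, m25_6 h, neg_zero]
theorem m26_6 (h : Eng A) (a b : A) : w26 a b * w6 a b = 0 := (wt8_8 h a b).2.2.2.2.2.2.2.2.2.2.2.2.1
theorem r6_26 (h : Eng A) (a b : A) : w6 a b * w26 a b = 0 := by
  rw [h.ac, m26_6 h, neg_zero]
theorem m27_6 (h : Eng A) (a b : A) : w27 a b * w6 a b = 0 := (wt8_8 h a b).2.2.2.2.2.2.2.2.2.2.2.2.2.1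
theorem r6_27 (h : Eng A) (a b : A) : w6 a b * w27 a b = 0 := by
  rw [h.ac, m27_6 h, neg_zero]
theorem m29_5 (h : Eng A) (a b : A) : w29 a b * w5 a b = 0 := (wt8_8 h a b).2.2.2.2.2.2.2.2.2.2.2.2.2.2.1
theorem r5_29 (h : Eng A) (a b : A) : w5 a b * w29 a b = 0 := by
  rw [h.ac, m29_5 h, neg_zero]
theorem m30_5 (h : Eng A) (a b : A) : w30 a b * w5 a b = 0 := (wt8_8 h a b).2.2.2.2.2.2.2.2.2.2.2.2.2.2.2.1
theorem r5_30 (h : Eng A) (a b : A) : w5 a b * w30 a b = 0 := by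
  rw [h.ac, m30_5 h, neg_zero]
theorem m31_5 (h : Eng A) (a b : A) : w31 a b * w5 a b = 0 := (wt8_8 h a b).2.2.2.2.2.2.2.2.2.2.2.2.2.2.2.2.1
theorem r5_31 (h : Eng A) (a b : A) : w5 a b * w31 a b = 0 := by
  rw [h.ac, m31_5 h, neg_zero]
theorem m32_5 (h : Eng A) (a b : A) : w32 a b * w5 a b = 0 := (wt8_8 h a b).2.2.2.2.2.2.2.2.2.2.2.2.2.2.2.2.2.1
theorem r5_32 (h : Eng A) (a b : A) : w5 a b * w32 a b = 0 := by
  rw [h.ac, m32_5 h, neg_zero]
theorem m34_4 (h : Eng A) (a b : A) : w34 a b * w4 a b = 0 := (wt8_8 h a b).2.2.2.2.2.2.2.2.2.2.2.2.2.2.2.2.2.2.1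
theorem r4_34 (h : Eng A) (a b : A) : w4 a b * w34 a b = 0 := by
  rw [h.ac, m34_4 h, neg_zero]
theorem m35_4 (h : Eng A) (a b : A) : w35 a b * w4 a b = 0 := (wt8_8 h a b).2.2.2.2.2.2.2.2.2.2.2.2.2.2.2.2.2.2.2.1
theorem r4_35 (h : Eng A) (a b : A) : w4 a b * w35 a b = 0 := by
  rw [h.ac, m35_4 h, neg_zero]
theorem m36_3 (h : Eng A) (a b : A) : w36 a b * w3 a b = 0 := (wt8_8 h a b).2.2.2.2.2.2.2.2.2.2.2.2.2.2.2.2.2.2.2.2.1
theorem r3_36 (h : Eng A) (a b : A) : w3 a b * w36 a b = 0 := by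
  rw [h.ac, m36_3 h, neg_zero]
theorem m37_3 (h : Eng A) (a b : A) : w37 a b * w3 a b = 0 := (wt8_8 h a b).2.2.2.2.2.2.2.2.2.2.2.2.2.2.2.2.2.2.2.2.2.1
theorem r3_37 (h : Eng A) (a b : A) : w3 a b * w37 a b = 0 := by
  rw [h.ac, m37_3 h, neg_zero]
theorem m39_2 (h : Eng A) (a b : A) : w39 a b * w2 a b = 0 := (wt8_8 h a b).2.2.2.2.2.2.2.2.2.2.2.2.2.2.2.2.2.2.2.2.2.2
theorem r2_39 (h : Eng A) (a b : A) : w2 a b * w39 a b = 0 := by
  rw [h.ac, m39_2 h, neg_zero]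

theorem wt7_9 (h : Eng A) (a b : A) :
    (w15 a b * w10 a b = 0) ∧
    (w16 a b * w10 a b = 0) ∧
    (w21 a b * w8 a b = 0) ∧
    (w25 a b * w7 a b = 0) ∧
    (w26 a b * w7 a b = 0) ∧
    (w27 a b * w7 a b = 0) ∧
    (w33 a b * w5 a b = 0) ∧
    (w36 a b * w4 a b = 0) ∧
    (w37 a b * w4 a b = 0) ∧
    (w40 a b * w2 a b = 0) := by
  have c10_15 : w10 a b * w15 a b = -(w15 a b * w10 a b) := h.ac _ _
  have c10_16 : w10 a b * w16 a b = -(w16 a b * w10 a b) := h.ac _ _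
  have c8_21 : w8 a b * w21 a b = -(w21 a b * w8 a b) := h.ac _ _
  have c7_25 : w7 a b * w25 a b = -(w25 a b * w7 a b) := h.ac _ _
  have c7_26 : w7 a b * w26 a b = -(w26 a b * w7 a b) := h.ac _ _
  have c7_27 : w7 a b * w27 a b = -(w27 a b * w7 a b) := h.ac _ _
  have c5_33 : w5 a b * w33 a b = -(w33 a b * w5 a b) := h.ac _ _
  have c4_36 : w4 a b * w36 a b = -(w36 a b * w4 a b) := h.ac _ _
  have c4_37 : w4 a b * w37 a b = -(w37 a b * w4 a b) := h.ac _ _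
  have c2_40 : w2 a b * w40 a b = -(w40 a b * w2 a b) := h.ac _ _
  have t0 := h.e3 (w7 a b) (w0 a b) (w1 a b) (w15 a b)
  simp only [c10_15, m40_0 h a b, m40_1 h a b, m7_0 h a b, m7_1 h a b, m8_1 a b, r7_15 h a b, r8_15 h a b, add_mul, sub_mul, neg_mul, zero_mul, add_zero, zero_add, neg_zero, neg_neg, sub_zero, zero_sub] at t0
  have t1 := h.e3 (w7 a b) (w0 a b) (w1 a b) (w16 a b)
  simp only [c10_16, m7_0 h a b, m7_1 h a b, m8_1 a b, r7_16 h a b, r8_16 h a b, add_mul, sub_mul, neg_mul, zero_mul, add_zero, zero_add, neg_zero, neg_neg, sub_zero, zero_sub] at t1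
  have t2 := h.e3 (w4 a b) (w0 a b) (w1 a b) (w25 a b)
  simp only [c7_25, m40_0 h a b, m40_1 h a b, m4_0 h a b, m4_1 h a b, m5_1 h a b, r4_25 h a b, r5_25 h a b, add_mul, sub_mul, neg_mul, zero_mul, add_zero, zero_add, neg_zero, neg_neg, sub_zero, zero_sub] at t2
  have t3 := h.e3 (w4 a b) (w0 a b) (w1 a b) (w26 a b)
  simp only [c7_26, m4_0 h a b, m4_1 h a b, m5_1 h a b, r4_26 h a b, r5_26 h a b, add_mul, sub_mul, neg_mul, zero_mul, add_zero, zero_add, neg_zero, neg_neg, sub_zero, zero_sub] at t3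
  have t4 := h.e3 (w4 a b) (w0 a b) (w1 a b) (w27 a b)
  simp only [c7_27, m40_0 h a b, m40_1 h a b, m4_0 h a b, m4_1 h a b, m5_1 h a b, r4_27 h a b, r5_27 h a b, add_mul, sub_mul, neg_mul, zero_mul, add_zero, zero_add, neg_zero, neg_neg, sub_zero, zero_sub] at t4
  have t5 := h.e3 (w1 a b) (w0 a b) (w1 a b) (w36 a b)
  simp only [c4_36, h.sq (w1 a b), m1_0 a b, m2_1 a b, m40_0 h a b, m40_1 h a b, r1_36 h a b, r2_36 h a b, add_mul, sub_mul, neg_mul, zero_mul, add_zero, zero_add, neg_zero, neg_neg, sub_zero, zero_sub] at t5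
  have t6 := h.e3 (w1 a b) (w0 a b) (w1 a b) (w37 a b)
  simp only [c4_37, h.sq (w1 a b), m1_0 a b, m2_1 a b, m40_0 h a b, m40_1 h a b, r1_37 h a b, r2_37 h a b, add_mul, sub_mul, neg_mul, zero_mul, add_zero, zero_add, neg_zero, neg_neg, sub_zero, zero_sub] at t6
  have t7 := h.e2 (w31 a b) (w1 a b) (w2 a b)
  simp only [m31_1 h a b, m31_2 h a b, m37_1 h a b, m37_2 h a b, add_mul, sub_mul, neg_mul, zero_mul, add_zero, zero_add, neg_zero, neg_neg, sub_zero, zero_sub] at t7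
  have t8 := h.e2 (w18 a b) (w1 a b) (w5 a b)
  simp only [m18_1 h a b, m18_5 h a b, m26_1 h a b, m26_5 h a b, add_mul, sub_mul, neg_mul, zero_mul, add_zero, zero_add, neg_zero, neg_neg, sub_zero, zero_sub] at t8
  have t9 := h.e2 (w11 a b) (w1 a b) (w8 a b)
  simp only [m11_1 h a b, m11_8 h a b, m16_1 h a b, m16_8 h a b, add_mul, sub_mul, neg_mul, zero_mul, add_zero, zero_add, neg_zero, neg_neg, sub_zero, zero_sub] at t9
  refine ⟨?_, ?_, ?_, ?_, ?_, ?_, ?_, ?_, ?_, ?_⟩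
  · linear_combination (norm := module) (1 : ℤ) • t0
  · linear_combination (norm := module) (1 : ℤ) • t1
  · linear_combination (norm := module) (1 : ℤ) • t9
  · linear_combination (norm := module) (-1 : ℤ) • t2
  · linear_combination (norm := module) (-1 : ℤ) • t3
  · linear_combination (norm := module) (-1 : ℤ) • t4
  · linear_combination (norm := module) (-1 : ℤ) • t8
  · linear_combination (norm := module) (-1 : ℤ) • t5
  · linear_combination (norm := module) (-1 : ℤ) • t6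
  · linear_combination (norm := module) (-1 : ℤ) • t7
theorem m15_10 (h : Eng A) (a b : A) : w15 a b * w10 a b = 0 := (wt7_9 h a b).1
theorem r10_15 (h : Eng A) (a b : A) : w10 a b * w15 a b = 0 := by
  rw [h.ac, m15_10 h, neg_zero]
theorem m16_10 (h : Eng A) (a b : A) : w16 a b * w10 a b = 0 := (wt7_9 h a b).2.1
theorem r10_16 (h : Eng A) (a b : A) : w10 a b * w16 a b = 0 := by
  rw [h.ac, m16_10 h, neg_zero]
theorem m21_8 (h : Eng A) (a b : A) : w21 a b * w8 a b = 0 := (wt7_9 h a b).2.2.1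
theorem r8_21 (h : Eng A) (a b : A) : w8 a b * w21 a b = 0 := by
  rw [h.ac, m21_8 h, neg_zero]
theorem m25_7 (h : Eng A) (a b : A) : w25 a b * w7 a b = 0 := (wt7_9 h a b).2.2.2.1
theorem r7_25 (h : Eng A) (a b : A) : w7 a b * w25 a b = 0 := by
  rw [h.ac, m25_7 h, neg_zero]
theorem m26_7 (h : Eng A) (a b : A) : w26 a b * w7 a b = 0 := (wt7_9 h a b).2.2.2.2.1
theorem r7_26 (h : Eng A) (a b : A) : w7 a b * w26 a b = 0 := by
  rw [h.ac, m26_7 h, neg_zero]
theorem m27_7 (h : Eng A) (a b : A) : w27 a b * w7 a b = 0 := (wt7_9 h a b).2.2.2.2.2.1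
theorem r7_27 (h : Eng A) (a b : A) : w7 a b * w27 a b = 0 := by
  rw [h.ac, m27_7 h, neg_zero]
theorem m33_5 (h : Eng A) (a b : A) : w33 a b * w5 a b = 0 := (wt7_9 h a b).2.2.2.2.2.2.1
theorem r5_33 (h : Eng A) (a b : A) : w5 a b * w33 a b = 0 := by
  rw [h.ac, m33_5 h, neg_zero]
theorem m36_4 (h : Eng A) (a b : A) : w36 a b * w4 a b = 0 := (wt7_9 h a b).2.2.2.2.2.2.2.1
theorem r4_36 (h : Eng A) (a b : A) : w4 a b * w36 a b = 0 := by
  rw [h.ac, m36_4 h, neg_zero]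
theorem m37_4 (h : Eng A) (a b : A) : w37 a b * w4 a b = 0 := (wt7_9 h a b).2.2.2.2.2.2.2.2.1
theorem r4_37 (h : Eng A) (a b : A) : w4 a b * w37 a b = 0 := by
  rw [h.ac, m37_4 h, neg_zero]
theorem m40_2 (h : Eng A) (a b : A) : w40 a b * w2 a b = 0 := (wt7_9 h a b).2.2.2.2.2.2.2.2.2
theorem r2_40 (h : Eng A) (a b : A) : w2 a b * w40 a b = 0 := by
  rw [h.ac, m40_2 h, neg_zero]

theorem wt10_7 (h : Eng A) (a b : A) :
    (w17 a b * w9 a b = 0) ∧
    (w28 a b * w6 a b = 0) ∧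
    (w38 a b * w3 a b = 0) := by
  have c9_17 : w9 a b * w17 a b = -(w17 a b * w9 a b) := h.ac _ _
  have c6_28 : w6 a b * w28 a b = -(w28 a b * w6 a b) := h.ac _ _
  have c3_38 : w3 a b * w38 a b = -(w38 a b * w3 a b) := h.ac _ _
  have t0 := h.e2 (w31 a b) (w0 a b) (w3 a b)
  simp only [m31_0 h a b, m31_3 h a b, m35_0 h a b, m35_3 h a b, add_mul, sub_mul, neg_mul, zero_mul, add_zero, zero_add, neg_zero, neg_neg, sub_zero, zero_sub] at t0
  have t1 := h.e2 (w18 a b) (w0 a b) (w6 a b)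
  simp only [m18_0 h a b, m18_6 h a b, m23_0 h a b, m23_6 h a b, add_mul, sub_mul, neg_mul, zero_mul, add_zero, zero_add, neg_zero, neg_neg, sub_zero, zero_sub] at t1
  have t2 := h.e2 (w11 a b) (w0 a b) (w9 a b)
  simp only [m11_0 h a b, m11_9 h a b, m14_0 h a b, m14_9 h a b, add_mul, sub_mul, neg_mul, zero_mul, add_zero, zero_add, neg_zero, neg_neg, sub_zero, zero_sub] at t2
  refine ⟨?_, ?_, ?_⟩
  · linear_combination (norm := module) (1 : ℤ) • t2
  · linear_combination (norm := module) (-1 : ℤ) • t1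
  · linear_combination (norm := module) (-1 : ℤ) • t0
theorem m17_9 (h : Eng A) (a b : A) : w17 a b * w9 a b = 0 := (wt10_7 h a b).1
theorem r9_17 (h : Eng A) (a b : A) : w9 a b * w17 a b = 0 := by
  rw [h.ac, m17_9 h, neg_zero]
theorem m28_6 (h : Eng A) (a b : A) : w28 a b * w6 a b = 0 := (wt10_7 h a b).2.1
theorem r6_28 (h : Eng A) (a b : A) : w6 a b * w28 a b = 0 := by
  rw [h.ac, m28_6 h, neg_zero]
theorem m38_3 (h : Eng A) (a b : A) : w38 a b * w3 a b = 0 := (wt10_7 h a b).2.2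
theorem r3_38 (h : Eng A) (a b : A) : w3 a b * w38 a b = 0 := by
  rw [h.ac, m38_3 h, neg_zero]

theorem wt9_8 (h : Eng A) (a b : A) :
    (w13 a b * w11 a b = 0) ∧
    (w13 a b * w12 a b = 0) ∧
    (w14 a b * w11 a b = 0) ∧
    (w14 a b * w12 a b = 0) ∧
    (w17 a b * w10 a b = 0) ∧
    (w18 a b * w9 a b = 0) ∧
    (w19 a b * w9 a b = 0) ∧
    (w20 a b * w9 a b = 0) ∧
    (w22 a b * w8 a b = 0) ∧
    (w23 a b * w8 a b = 0) ∧
    (w24 a b * w8 a b = 0) ∧
    (w28 a b * w7 a b = 0) ∧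
    (w29 a b * w6 a b = 0) ∧
    (w30 a b * w6 a b = 0) ∧
    (w31 a b * w6 a b = 0) ∧
    (w32 a b * w6 a b = 0) ∧
    (w34 a b * w5 a b = 0) ∧
    (w35 a b * w5 a b = 0) ∧
    (w38 a b * w4 a b = 0) ∧
    (w39 a b * w3 a b = 0) := by
  have c11_13 : w11 a b * w13 a b = -(w13 a b * w11 a b) := h.ac _ _
  have c12_13 : w12 a b * w13 a b = -(w13 a b * w12 a b) := h.ac _ _
  have c11_14 : w11 a b * w14 a b = -(w14 a b * w11 a b) := h.ac _ _
  have c12_14 : w12 a b * w14 a b = -(w14 a b * w12 a b) := h.ac _ _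
  have c10_17 : w10 a b * w17 a b = -(w17 a b * w10 a b) := h.ac _ _
  have c9_18 : w9 a b * w18 a b = -(w18 a b * w9 a b) := h.ac _ _
  have c9_19 : w9 a b * w19 a b = -(w19 a b * w9 a b) := h.ac _ _
  have c9_20 : w9 a b * w20 a b = -(w20 a b * w9 a b) := h.ac _ _
  have c8_22 : w8 a b * w22 a b = -(w22 a b * w8 a b) := h.ac _ _
  have c8_23 : w8 a b * w23 a b = -(w23 a b * w8 a b) := h.ac _ _
  have c8_24 : w8 a b * w24 a b = -(w24 a b * w8 a b) := h.ac _ _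
  have c7_28 : w7 a b * w28 a b = -(w28 a b * w7 a b) := h.ac _ _
  have c6_29 : w6 a b * w29 a b = -(w29 a b * w6 a b) := h.ac _ _
  have c6_30 : w6 a b * w30 a b = -(w30 a b * w6 a b) := h.ac _ _
  have c6_31 : w6 a b * w31 a b = -(w31 a b * w6 a b) := h.ac _ _
  have c6_32 : w6 a b * w32 a b = -(w32 a b * w6 a b) := h.ac _ _
  have c5_34 : w5 a b * w34 a b = -(w34 a b * w5 a b) := h.ac _ _
  have c5_35 : w5 a b * w35 a b = -(w35 a b * w5 a b) := h.ac _ _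
  have c4_38 : w4 a b * w38 a b = -(w38 a b * w4 a b) := h.ac _ _
  have c3_39 : w3 a b * w39 a b = -(w39 a b * w3 a b) := h.ac _ _
  have t0 := h.e2 (w31 a b) (w0 a b) (w4 a b)
  simp only [m31_0 h a b, m31_4 h a b, m35_0 h a b, m35_4 h a b, add_mul, sub_mul, neg_mul, zero_mul, add_zero, zero_add, neg_zero, neg_neg, sub_zero, zero_sub] at t0
  have t1 := h.e2 (w18 a b) (w0 a b) (w7 a b)
  simp only [m18_0 h a b, m18_7 h a b, m23_0 h a b, m23_7 h a b, add_mul, sub_mul, neg_mul, zero_mul, add_zero, zero_add, neg_zero, neg_neg, sub_zero, zero_sub] at t1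
  have t2 := h.e2 (w16 a b) (w0 a b) (w8 a b)
  simp only [m16_0 h a b, m16_8 h a b, m20_0 h a b, m20_8 h a b, add_mul, sub_mul, neg_mul, zero_mul, add_zero, zero_add, neg_zero, neg_neg, sub_zero, zero_sub] at t2
  have t3 := h.e2 (w11 a b) (w0 a b) (w10 a b)
  simp only [m11_0 h a b, m11_10 h a b, m14_0 h a b, m14_10 h a b, add_mul, sub_mul, neg_mul, zero_mul, add_zero, zero_add, neg_zero, neg_neg, sub_zero, zero_sub] at t3
  have t4 := h.e2 (w7 a b) (w0 a b) (w18 a b)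
  simp only [c9_18, m7_0 h a b, m8_0 a b, r7_18 h a b, r8_18 h a b, add_mul, sub_mul, neg_mul, zero_mul, add_zero, zero_add, neg_zero, neg_neg, sub_zero, zero_sub] at t4
  have t5 := h.e2 (w7 a b) (w0 a b) (w19 a b)
  simp only [c9_19, m7_0 h a b, m8_0 a b, r7_19 h a b, r8_19 h a b, add_mul, sub_mul, neg_mul, zero_mul, add_zero, zero_add, neg_zero, neg_neg, sub_zero, zero_sub] at t5
  have t6 := h.e2 (w7 a b) (w0 a b) (w20 a b)
  simp only [c9_20, m7_0 h a b, m8_0 a b, r7_20 h a b, r8_20 h a b, add_mul, sub_mul, neg_mul, zero_mul, add_zero, zero_add, neg_zero, neg_neg, sub_zero, zero_sub] at t6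
  have t7 := h.e2 (w4 a b) (w0 a b) (w29 a b)
  simp only [c6_29, m4_0 h a b, m5_0 h a b, r4_29 h a b, r5_29 h a b, add_mul, sub_mul, neg_mul, zero_mul, add_zero, zero_add, neg_zero, neg_neg, sub_zero, zero_sub] at t7
  have t8 := h.e2 (w4 a b) (w0 a b) (w30 a b)
  simp only [c6_30, m4_0 h a b, m5_0 h a b, r4_30 h a b, r5_30 h a b, add_mul, sub_mul, neg_mul, zero_mul, add_zero, zero_add, neg_zero, neg_neg, sub_zero, zero_sub] at t8
  have t9 := h.e2 (w4 a b) (w0 a b) (w31 a b)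
  simp only [c6_31, m4_0 h a b, m5_0 h a b, r4_31 h a b, r5_31 h a b, add_mul, sub_mul, neg_mul, zero_mul, add_zero, zero_add, neg_zero, neg_neg, sub_zero, zero_sub] at t9
  have t10 := h.e2 (w4 a b) (w0 a b) (w32 a b)
  simp only [c6_32, m4_0 h a b, m5_0 h a b, r4_32 h a b, r5_32 h a b, add_mul, sub_mul, neg_mul, zero_mul, add_zero, zero_add, neg_zero, neg_neg, sub_zero, zero_sub] at t10
  have t11 := h.e2 (w1 a b) (w0 a b) (w39 a b)
  simp only [c3_39, m1_0 a b, m2_0 a b, r1_39 h a b, r2_39 h a b, add_mul, sub_mul, neg_mul, zero_mul, add_zero, zero_add, neg_zero, neg_neg, sub_zero, zero_sub] at t11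
  have t12 := h.e3 (w7 a b) (w0 a b) (w2 a b) (w13 a b)
  simp only [c11_13, m39_0 h a b, m39_2 h a b, m7_0 h a b, m7_2 h a b, m8_2 a b, r7_13 h a b, r8_13 h a b, add_mul, sub_mul, neg_mul, zero_mul, add_zero, zero_add, neg_zero, neg_neg, sub_zero, zero_sub] at t12
  have t13 := h.e3 (w7 a b) (w0 a b) (w2 a b) (w14 a b)
  simp only [c11_14, m7_0 h a b, m7_2 h a b, m8_2 a b, r7_14 h a b, r8_14 h a b, add_mul, sub_mul, neg_mul, zero_mul, add_zero, zero_add, neg_zero, neg_neg, sub_zero, zero_sub] at t13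
  have t14 := h.e3 (w1 a b) (w0 a b) (w2 a b) (w34 a b)
  simp only [c5_34, h.sq (w2 a b), m1_0 a b, m39_0 h a b, m39_2 h a b, m4_0 h a b, r1_2 h a b, r1_34 h a b, r2_34 h a b, r4_34 h a b, add_mul, sub_mul, neg_mul, zero_mul, add_zero, zero_add, neg_zero, neg_neg, sub_zero, zero_sub] at t14
  have t15 := h.e3 (w1 a b) (w0 a b) (w2 a b) (w35 a b)
  simp only [c5_35, h.sq (w2 a b), m1_0 a b, m39_0 h a b, m39_2 h a b, m4_0 h a b, r1_2 h a b, r1_35 h a b, r2_35 h a b, r4_35 h a b, add_mul, sub_mul, neg_mul, zero_mul, add_zero, zero_add, neg_zero, neg_neg, sub_zero, zero_sub] at t15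
  have t16 := h.e3 (w5 a b) (w2 a b) (w3 a b) (w12 a b)
  simp only [m32_2 h a b, m32_3 h a b, m5_2 h a b, m5_3 h a b, m8_3 a b, r5_12 h a b, r8_12 h a b, add_mul, sub_mul, neg_mul, zero_mul, add_zero, zero_add, neg_zero, neg_neg, sub_zero, zero_sub] at t16
  have t17 := h.e2 (w15 a b) (w0 a b) (w8 a b)
  simp only [m15_0 h a b, m15_8 h a b, m19_0 h a b, m19_8 h a b, add_mul, sub_mul, neg_mul, zero_mul, add_zero, zero_add, neg_zero, neg_neg, sub_zero, zero_sub] at t17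
  have t18 := h.e2 (w10 a b) (w0 a b) (w12 a b)
  simp only [h.sq (w12 a b), m10_0 h a b, m12_0 h a b, r10_12 h a b, add_mul, sub_mul, neg_mul, zero_mul, add_zero, zero_add, neg_zero, neg_neg, sub_zero, zero_sub] at t18
  have t19 := h.e3 (w11 a b) (w0 a b) (w2 a b) (w8 a b)
  simp only [m11_0 h a b, m11_2 h a b, m11_8 h a b, m14_2 h a b, m14_8 h a b, add_mul, sub_mul, neg_mul, zero_mul, add_zero, zero_add, neg_zero, neg_neg, sub_zero, zero_sub] at t19
  refine ⟨?_, ?_, ?_, ?_, ?_, ?_, ?_, ?_, ?_, ?_, ?_, ?_, ?_, ?_, ?_, ?_, ?_, ?_, ?_, ?_⟩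
  · linear_combination (norm := module) (1 : ℤ) • t12
  · linear_combination (norm := module) (-1 : ℤ) • t16
  · linear_combination (norm := module) (1 : ℤ) • t13
  · linear_combination (norm := module) (-1 : ℤ) • t16 + (1 : ℤ) • t18
  · linear_combination (norm := module) (1 : ℤ) • t3
  · linear_combination (norm := module) (1 : ℤ) • t4
  · linear_combination (norm := module) (1 : ℤ) • t5
  · linear_combination (norm := module) (1 : ℤ) • t6
  · linear_combination (norm := module) (1 : ℤ) • t2 + (-1 : ℤ) • t19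
  · linear_combination (norm := module) (-1 : ℤ) • t2 + (-1 : ℤ) • t17 + (1 : ℤ) • t19
  · linear_combination (norm := module) (1 : ℤ) • t2
  · linear_combination (norm := module) (-1 : ℤ) • t1
  · linear_combination (norm := module) (-1 : ℤ) • t7
  · linear_combination (norm := module) (-1 : ℤ) • t8
  · linear_combination (norm := module) (-1 : ℤ) • t9
  · linear_combination (norm := module) (-1 : ℤ) • t10
  · linear_combination (norm := module) (-1 : ℤ) • t14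
  · linear_combination (norm := module) (-1 : ℤ) • t15
  · linear_combination (norm := module) (-1 : ℤ) • t0
  · linear_combination (norm := module) (-1 : ℤ) • t11
theorem m13_11 (h : Eng A) (a b : A) : w13 a b * w11 a b = 0 := (wt9_8 h a b).1
theorem r11_13 (h : Eng A) (a b : A) : w11 a b * w13 a b = 0 := by
  rw [h.ac, m13_11 h, neg_zero]
theorem m13_12 (h : Eng A) (a b : A) : w13 a b * w12 a b = 0 := (wt9_8 h a b).2.1
theorem r12_13 (h : Eng A) (a b : A) : w12 a b * w13 a b = 0 := by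
  rw [h.ac, m13_12 h, neg_zero]
theorem m14_11 (h : Eng A) (a b : A) : w14 a b * w11 a b = 0 := (wt9_8 h a b).2.2.1
theorem r11_14 (h : Eng A) (a b : A) : w11 a b * w14 a b = 0 := by
  rw [h.ac, m14_11 h, neg_zero]
theorem m14_12 (h : Eng A) (a b : A) : w14 a b * w12 a b = 0 := (wt9_8 h a b).2.2.2.1
theorem r12_14 (h : Eng A) (a b : A) : w12 a b * w14 a b = 0 := by
  rw [h.ac, m14_12 h, neg_zero]
theorem m17_10 (h : Eng A) (a b : A) : w17 a b * w10 a b = 0 := (wt9_8 h a b).2.2.2.2.1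
theorem r10_17 (h : Eng A) (a b : A) : w10 a b * w17 a b = 0 := by
  rw [h.ac, m17_10 h, neg_zero]
theorem m18_9 (h : Eng A) (a b : A) : w18 a b * w9 a b = 0 := (wt9_8 h a b).2.2.2.2.2.1
theorem r9_18 (h : Eng A) (a b : A) : w9 a b * w18 a b = 0 := by
  rw [h.ac, m18_9 h, neg_zero]
theorem m19_9 (h : Eng A) (a b : A) : w19 a b * w9 a b = 0 := (wt9_8 h a b).2.2.2.2.2.2.1
theorem r9_19 (h : Eng A) (a b : A) : w9 a b * w19 a b = 0 := by
  rw [h.ac, m19_9 h, neg_zero]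
theorem m20_9 (h : Eng A) (a b : A) : w20 a b * w9 a b = 0 := (wt9_8 h a b).2.2.2.2.2.2.2.1
theorem r9_20 (h : Eng A) (a b : A) : w9 a b * w20 a b = 0 := by
  rw [h.ac, m20_9 h, neg_zero]
theorem m22_8 (h : Eng A) (a b : A) : w22 a b * w8 a b = 0 := (wt9_8 h a b).2.2.2.2.2.2.2.2.1
theorem r8_22 (h : Eng A) (a b : A) : w8 a b * w22 a b = 0 := by
  rw [h.ac, m22_8 h, neg_zero]
theorem m23_8 (h : Eng A) (a b : A) : w23 a b * w8 a b = 0 := (wt9_8 h a b).2.2.2.2.2.2.2.2.2.1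
theorem r8_23 (h : Eng A) (a b : A) : w8 a b * w23 a b = 0 := by
  rw [h.ac, m23_8 h, neg_zero]
theorem m24_8 (h : Eng A) (a b : A) : w24 a b * w8 a b = 0 := (wt9_8 h a b).2.2.2.2.2.2.2.2.2.2.1
theorem r8_24 (h : Eng A) (a b : A) : w8 a b * w24 a b = 0 := by
  rw [h.ac, m24_8 h, neg_zero]
theorem m28_7 (h : Eng A) (a b : A) : w28 a b * w7 a b = 0 := (wt9_8 h a b).2.2.2.2.2.2.2.2.2.2.2.1
theorem r7_28 (h : Eng A) (a b : A) : w7 a b * w28 a b = 0 := by
  rw [h.ac, m28_7 h, neg_zero]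
theorem m29_6 (h : Eng A) (a b : A) : w29 a b * w6 a b = 0 := (wt9_8 h a b).2.2.2.2.2.2.2.2.2.2.2.2.1
theorem r6_29 (h : Eng A) (a b : A) : w6 a b * w29 a b = 0 := by
  rw [h.ac, m29_6 h, neg_zero]
theorem m30_6 (h : Eng A) (a b : A) : w30 a b * w6 a b = 0 := (wt9_8 h a b).2.2.2.2.2.2.2.2.2.2.2.2.2.1
theorem r6_30 (h : Eng A) (a b : A) : w6 a b * w30 a b = 0 := by
  rw [h.ac, m30_6 h, neg_zero]
theorem m31_6 (h : Eng A) (a b : A) : w31 a b * w6 a b = 0 := (wt9_8 h a b).2.2.2.2.2.2.2.2.2.2.2.2.2.2.1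
theorem r6_31 (h : Eng A) (a b : A) : w6 a b * w31 a b = 0 := by
  rw [h.ac, m31_6 h, neg_zero]
theorem m32_6 (h : Eng A) (a b : A) : w32 a b * w6 a b = 0 := (wt9_8 h a b).2.2.2.2.2.2.2.2.2.2.2.2.2.2.2.1
theorem r6_32 (h : Eng A) (a b : A) : w6 a b * w32 a b = 0 := by
  rw [h.ac, m32_6 h, neg_zero]
theorem m34_5 (h : Eng A) (a b : A) : w34 a b * w5 a b = 0 := (wt9_8 h a b).2.2.2.2.2.2.2.2.2.2.2.2.2.2.2.2.1
theorem r5_34 (h : Eng A) (a b : A) : w5 a b * w34 a b = 0 := by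
  rw [h.ac, m34_5 h, neg_zero]
theorem m35_5 (h : Eng A) (a b : A) : w35 a b * w5 a b = 0 := (wt9_8 h a b).2.2.2.2.2.2.2.2.2.2.2.2.2.2.2.2.2.1
theorem r5_35 (h : Eng A) (a b : A) : w5 a b * w35 a b = 0 := by
  rw [h.ac, m35_5 h, neg_zero]
theorem m38_4 (h : Eng A) (a b : A) : w38 a b * w4 a b = 0 := (wt9_8 h a b).2.2.2.2.2.2.2.2.2.2.2.2.2.2.2.2.2.2.1
theorem r4_38 (h : Eng A) (a b : A) : w4 a b * w38 a b = 0 := by
  rw [h.ac, m38_4 h, neg_zero]
theorem m39_3 (h : Eng A) (a b : A) : w39 a b * w3 a b = 0 := (wt9_8 h a b).2.2.2.2.2.2.2.2.2.2.2.2.2.2.2.2.2.2.2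
theorem r3_39 (h : Eng A) (a b : A) : w3 a b * w39 a b = 0 := by
  rw [h.ac, m39_3 h, neg_zero]

theorem wt8_9 (h : Eng A) (a b : A) :
    (w15 a b * w11 a b = 0) ∧
    (w15 a b * w12 a b = 0) ∧
    (w16 a b * w11 a b = 0) ∧
    (w16 a b * w12 a b = 0) ∧
    (w18 a b * w10 a b = 0) ∧
    (w19 a b * w10 a b = 0) ∧
    (w20 a b * w10 a b = 0) ∧
    (w21 a b * w9 a b = 0) ∧
    (w25 a b * w8 a b = 0) ∧
    (w26 a b * w8 a b = 0) ∧
    (w27 a b * w8 a b = 0) ∧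
    (w29 a b * w7 a b = 0) ∧
    (w30 a b * w7 a b = 0) ∧
    (w31 a b * w7 a b = 0) ∧
    (w32 a b * w7 a b = 0) ∧
    (w33 a b * w6 a b = 0) ∧
    (w36 a b * w5 a b = 0) ∧
    (w37 a b * w5 a b = 0) ∧
    (w39 a b * w4 a b = 0) ∧
    (w40 a b * w3 a b = 0) := by
  have c11_15 : w11 a b * w15 a b = -(w15 a b * w11 a b) := h.ac _ _
  have c12_15 : w12 a b * w15 a b = -(w15 a b * w12 a b) := h.ac _ _
  have c11_16 : w11 a b * w16 a b = -(w16 a b * w11 a b) := h.ac _ _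
  have c12_16 : w12 a b * w16 a b = -(w16 a b * w12 a b) := h.ac _ _
  have c10_18 : w10 a b * w18 a b = -(w18 a b * w10 a b) := h.ac _ _
  have c10_19 : w10 a b * w19 a b = -(w19 a b * w10 a b) := h.ac _ _
  have c10_20 : w10 a b * w20 a b = -(w20 a b * w10 a b) := h.ac _ _
  have c9_21 : w9 a b * w21 a b = -(w21 a b * w9 a b) := h.ac _ _
  have c8_25 : w8 a b * w25 a b = -(w25 a b * w8 a b) := h.ac _ _
  have c8_26 : w8 a b * w26 a b = -(w26 a b * w8 a b) := h.ac _ _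
  have c8_27 : w8 a b * w27 a b = -(w27 a b * w8 a b) := h.ac _ _
  have c7_29 : w7 a b * w29 a b = -(w29 a b * w7 a b) := h.ac _ _
  have c7_30 : w7 a b * w30 a b = -(w30 a b * w7 a b) := h.ac _ _
  have c7_31 : w7 a b * w31 a b = -(w31 a b * w7 a b) := h.ac _ _
  have c7_32 : w7 a b * w32 a b = -(w32 a b * w7 a b) := h.ac _ _
  have c6_33 : w6 a b * w33 a b = -(w33 a b * w6 a b) := h.ac _ _
  have c5_36 : w5 a b * w36 a b = -(w36 a b * w5 a b) := h.ac _ _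
  have c5_37 : w5 a b * w37 a b = -(w37 a b * w5 a b) := h.ac _ _
  have c4_39 : w4 a b * w39 a b = -(w39 a b * w4 a b) := h.ac _ _
  have c3_40 : w3 a b * w40 a b = -(w40 a b * w3 a b) := h.ac _ _
  have t0 := h.e2 (w7 a b) (w0 a b) (w21 a b)
  simp only [c9_21, m7_0 h a b, m8_0 a b, r7_21 h a b, r8_21 h a b, add_mul, sub_mul, neg_mul, zero_mul, add_zero, zero_add, neg_zero, neg_neg, sub_zero, zero_sub] at t0
  have t1 := h.e2 (w4 a b) (w0 a b) (w33 a b)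
  simp only [c6_33, m4_0 h a b, m5_0 h a b, r4_33 h a b, r5_33 h a b, add_mul, sub_mul, neg_mul, zero_mul, add_zero, zero_add, neg_zero, neg_neg, sub_zero, zero_sub] at t1
  have t2 := h.e2 (w1 a b) (w0 a b) (w40 a b)
  simp only [c3_40, m1_0 a b, m2_0 a b, r1_40 h a b, r2_40 h a b, add_mul, sub_mul, neg_mul, zero_mul, add_zero, zero_add, neg_zero, neg_neg, sub_zero, zero_sub] at t2
  have t3 := h.e3 (w7 a b) (w0 a b) (w1 a b) (w18 a b)
  simp only [c10_18, m7_0 h a b, m7_1 h a b, m8_1 a b, r7_18 h a b, r8_18 h a b, add_mul, sub_mul, neg_mul, zero_mul, add_zero, zero_add, neg_zero, neg_neg, sub_zero, zero_sub] at t3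
  have t4 := h.e3 (w7 a b) (w0 a b) (w1 a b) (w19 a b)
  simp only [c10_19, m7_0 h a b, m7_1 h a b, m8_1 a b, r7_19 h a b, r8_19 h a b, add_mul, sub_mul, neg_mul, zero_mul, add_zero, zero_add, neg_zero, neg_neg, sub_zero, zero_sub] at t4
  have t5 := h.e3 (w7 a b) (w0 a b) (w1 a b) (w20 a b)
  simp only [c10_20, m7_0 h a b, m7_1 h a b, m8_1 a b, r7_20 h a b, r8_20 h a b, add_mul, sub_mul, neg_mul, zero_mul, add_zero, zero_add, neg_zero, neg_neg, sub_zero, zero_sub] at t5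
  have t6 := h.e3 (w4 a b) (w0 a b) (w1 a b) (w29 a b)
  simp only [c7_29, m4_0 h a b, m4_1 h a b, m5_1 h a b, r4_29 h a b, r5_29 h a b, add_mul, sub_mul, neg_mul, zero_mul, add_zero, zero_add, neg_zero, neg_neg, sub_zero, zero_sub] at t6
  have t7 := h.e3 (w4 a b) (w0 a b) (w1 a b) (w30 a b)
  simp only [c7_30, m4_0 h a b, m4_1 h a b, m5_1 h a b, r4_30 h a b, r5_30 h a b, add_mul, sub_mul, neg_mul, zero_mul, add_zero, zero_add, neg_zero, neg_neg, sub_zero, zero_sub] at t7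
  have t8 := h.e3 (w4 a b) (w0 a b) (w1 a b) (w31 a b)
  simp only [c7_31, m4_0 h a b, m4_1 h a b, m5_1 h a b, r4_31 h a b, r5_31 h a b, add_mul, sub_mul, neg_mul, zero_mul, add_zero, zero_add, neg_zero, neg_neg, sub_zero, zero_sub] at t8
  have t9 := h.e3 (w4 a b) (w0 a b) (w1 a b) (w32 a b)
  simp only [c7_32, m4_0 h a b, m4_1 h a b, m5_1 h a b, r4_32 h a b, r5_32 h a b, add_mul, sub_mul, neg_mul, zero_mul, add_zero, zero_add, neg_zero, neg_neg, sub_zero, zero_sub] at t9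
  have t10 := h.e3 (w1 a b) (w0 a b) (w1 a b) (w39 a b)
  simp only [c4_39, h.sq (w1 a b), m1_0 a b, m2_1 a b, r1_39 h a b, r2_39 h a b, add_mul, sub_mul, neg_mul, zero_mul, add_zero, zero_add, neg_zero, neg_neg, sub_zero, zero_sub] at t10
  have t11 := h.e3 (w7 a b) (w0 a b) (w2 a b) (w15 a b)
  simp only [c11_15, m40_0 h a b, m40_2 h a b, m7_0 h a b, m7_2 h a b, m8_2 a b, r7_15 h a b, r8_15 h a b, add_mul, sub_mul, neg_mul, zero_mul, add_zero, zero_add, neg_zero, neg_neg, sub_zero, zero_sub] at t11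
  have t12 := h.e3 (w7 a b) (w0 a b) (w2 a b) (w16 a b)
  simp only [c11_16, m7_0 h a b, m7_2 h a b, m8_2 a b, r7_16 h a b, r8_16 h a b, add_mul, sub_mul, neg_mul, zero_mul, add_zero, zero_add, neg_zero, neg_neg, sub_zero, zero_sub] at t12
  have t13 := h.e3 (w1 a b) (w0 a b) (w2 a b) (w36 a b)
  simp only [c5_36, h.sq (w2 a b), m1_0 a b, m40_0 h a b, m40_2 h a b, m4_0 h a b, r1_2 h a b, r1_36 h a b, r2_36 h a b, r4_36 h a b, add_mul, sub_mul, neg_mul, zero_mul, add_zero, zero_add, neg_zero, neg_neg, sub_zero, zero_sub] at t13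
  have t14 := h.e3 (w1 a b) (w0 a b) (w2 a b) (w37 a b)
  simp only [c5_37, h.sq (w2 a b), m1_0 a b, m40_0 h a b, m40_2 h a b, m4_0 h a b, r1_2 h a b, r1_37 h a b, r2_37 h a b, r4_37 h a b, add_mul, sub_mul, neg_mul, zero_mul, add_zero, zero_add, neg_zero, neg_neg, sub_zero, zero_sub] at t14
  have t15 := h.e2 (w14 a b) (w1 a b) (w8 a b)
  simp only [m14_1 h a b, m14_8 h a b, m19_1 h a b, m19_8 h a b, add_mul, sub_mul, neg_mul, zero_mul, add_zero, zero_add, neg_zero, neg_neg, sub_zero, zero_sub] at t15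
  have t16 := h.e3 (w5 a b) (w2 a b) (w4 a b) (w12 a b)
  simp only [m32_2 h a b, m32_4 h a b, m5_2 h a b, m5_4 h a b, m8_4 a b, r5_12 h a b, r8_12 h a b, add_mul, sub_mul, neg_mul, zero_mul, add_zero, zero_add, neg_zero, neg_neg, sub_zero, zero_sub] at t16
  have t17 := h.e3 (w10 a b) (w0 a b) (w1 a b) (w12 a b)
  simp only [h.sq (w12 a b), m10_0 h a b, m10_1 h a b, m12_1 h a b, r10_12 h a b, add_mul, sub_mul, neg_mul, zero_mul, add_zero, zero_add, neg_zero, neg_neg, sub_zero, zero_sub] at t17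
  have t18 := h.e3 (w7 a b) (w0 a b) (w7 a b) (w8 a b)
  simp only [h.sq (w7 a b), h.sq (w8 a b), m25_0 h a b, m25_7 h a b, m7_0 h a b, m8_7 a b, r7_8 h a b, add_mul, sub_mul, neg_mul, zero_mul, add_zero, zero_add, neg_zero, neg_neg, sub_zero, zero_sub] at t18
  have t19 := h.e2 (w13 a b) (w1 a b) (w8 a b)
  simp only [m13_1 h a b, m13_8 h a b, m20_1 h a b, m20_8 h a b, add_mul, sub_mul, neg_mul, zero_mul, add_zero, zero_add, neg_zero, neg_neg, sub_zero, zero_sub] at t19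
  refine ⟨?_, ?_, ?_, ?_, ?_, ?_, ?_, ?_, ?_, ?_, ?_, ?_, ?_, ?_, ?_, ?_, ?_, ?_, ?_, ?_⟩
  · linear_combination (norm := module) (1 : ℤ) • t11
  · linear_combination (norm := module) (-1 : ℤ) • t16
  · linear_combination (norm := module) (1 : ℤ) • t12
  · linear_combination (norm := module) (-1 : ℤ) • t16 + (1 : ℤ) • t17
  · linear_combination (norm := module) (1 : ℤ) • t3
  · linear_combination (norm := module) (1 : ℤ) • t4
  · linear_combination (norm := module) (1 : ℤ) • t5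
  · linear_combination (norm := module) (1 : ℤ) • t0
  · linear_combination (norm := module) (-1 : ℤ) • t6 + (-1 : ℤ) • t18
  · linear_combination (norm := module) (1 : ℤ) • t6 + (1 : ℤ) • t18 + (1 : ℤ) • t19
  · linear_combination (norm := module) (-1 : ℤ) • t15
  · linear_combination (norm := module) (-1 : ℤ) • t6
  · linear_combination (norm := module) (-1 : ℤ) • t7
  · linear_combination (norm := module) (-1 : ℤ) • t8
  · linear_combination (norm := module) (-1 : ℤ) • t9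
  · linear_combination (norm := module) (-1 : ℤ) • t1
  · linear_combination (norm := module) (-1 : ℤ) • t13
  · linear_combination (norm := module) (-1 : ℤ) • t14
  · linear_combination (norm := module) (-1 : ℤ) • t10
  · linear_combination (norm := module) (-1 : ℤ) • t2
theorem m15_11 (h : Eng A) (a b : A) : w15 a b * w11 a b = 0 := (wt8_9 h a b).1
theorem r11_15 (h : Eng A) (a b : A) : w11 a b * w15 a b = 0 := by
  rw [h.ac, m15_11 h, neg_zero]
theorem m15_12 (h : Eng A) (a b : A) : w15 a b * w12 a b = 0 := (wt8_9 h a b).2.1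
theorem r12_15 (h : Eng A) (a b : A) : w12 a b * w15 a b = 0 := by
  rw [h.ac, m15_12 h, neg_zero]
theorem m16_11 (h : Eng A) (a b : A) : w16 a b * w11 a b = 0 := (wt8_9 h a b).2.2.1
theorem r11_16 (h : Eng A) (a b : A) : w11 a b * w16 a b = 0 := by
  rw [h.ac, m16_11 h, neg_zero]
theorem m16_12 (h : Eng A) (a b : A) : w16 a b * w12 a b = 0 := (wt8_9 h a b).2.2.2.1
theorem r12_16 (h : Eng A) (a b : A) : w12 a b * w16 a b = 0 := by
  rw [h.ac, m16_12 h, neg_zero]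
theorem m18_10 (h : Eng A) (a b : A) : w18 a b * w10 a b = 0 := (wt8_9 h a b).2.2.2.2.1
theorem r10_18 (h : Eng A) (a b : A) : w10 a b * w18 a b = 0 := by
  rw [h.ac, m18_10 h, neg_zero]
theorem m19_10 (h : Eng A) (a b : A) : w19 a b * w10 a b = 0 := (wt8_9 h a b).2.2.2.2.2.1
theorem r10_19 (h : Eng A) (a b : A) : w10 a b * w19 a b = 0 := by
  rw [h.ac, m19_10 h, neg_zero]
theorem m20_10 (h : Eng A) (a b : A) : w20 a b * w10 a b = 0 := (wt8_9 h a b).2.2.2.2.2.2.1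
theorem r10_20 (h : Eng A) (a b : A) : w10 a b * w20 a b = 0 := by
  rw [h.ac, m20_10 h, neg_zero]
theorem m21_9 (h : Eng A) (a b : A) : w21 a b * w9 a b = 0 := (wt8_9 h a b).2.2.2.2.2.2.2.1
theorem r9_21 (h : Eng A) (a b : A) : w9 a b * w21 a b = 0 := by
  rw [h.ac, m21_9 h, neg_zero]
theorem m25_8 (h : Eng A) (a b : A) : w25 a b * w8 a b = 0 := (wt8_9 h a b).2.2.2.2.2.2.2.2.1
theorem r8_25 (h : Eng A) (a b : A) : w8 a b * w25 a b = 0 := by
  rw [h.ac, m25_8 h, neg_zero]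
theorem m26_8 (h : Eng A) (a b : A) : w26 a b * w8 a b = 0 := (wt8_9 h a b).2.2.2.2.2.2.2.2.2.1
theorem r8_26 (h : Eng A) (a b : A) : w8 a b * w26 a b = 0 := by
  rw [h.ac, m26_8 h, neg_zero]
theorem m27_8 (h : Eng A) (a b : A) : w27 a b * w8 a b = 0 := (wt8_9 h a b).2.2.2.2.2.2.2.2.2.2.1
theorem r8_27 (h : Eng A) (a b : A) : w8 a b * w27 a b = 0 := by
  rw [h.ac, m27_8 h, neg_zero]
theorem m29_7 (h : Eng A) (a b : A) : w29 a b * w7 a b = 0 := (wt8_9 h a b).2.2.2.2.2.2.2.2.2.2.2.1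
theorem r7_29 (h : Eng A) (a b : A) : w7 a b * w29 a b = 0 := by
  rw [h.ac, m29_7 h, neg_zero]
theorem m30_7 (h : Eng A) (a b : A) : w30 a b * w7 a b = 0 := (wt8_9 h a b).2.2.2.2.2.2.2.2.2.2.2.2.1
theorem r7_30 (h : Eng A) (a b : A) : w7 a b * w30 a b = 0 := by
  rw [h.ac, m30_7 h, neg_zero]
theorem m31_7 (h : Eng A) (a b : A) : w31 a b * w7 a b = 0 := (wt8_9 h a b).2.2.2.2.2.2.2.2.2.2.2.2.2.1
theorem r7_31 (h : Eng A) (a b : A) : w7 a b * w31 a b = 0 := by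
  rw [h.ac, m31_7 h, neg_zero]
theorem m32_7 (h : Eng A) (a b : A) : w32 a b * w7 a b = 0 := (wt8_9 h a b).2.2.2.2.2.2.2.2.2.2.2.2.2.2.1
theorem r7_32 (h : Eng A) (a b : A) : w7 a b * w32 a b = 0 := by
  rw [h.ac, m32_7 h, neg_zero]
theorem m33_6 (h : Eng A) (a b : A) : w33 a b * w6 a b = 0 := (wt8_9 h a b).2.2.2.2.2.2.2.2.2.2.2.2.2.2.2.1
theorem r6_33 (h : Eng A) (a b : A) : w6 a b * w33 a b = 0 := by
  rw [h.ac, m33_6 h, neg_zero]
theorem m36_5 (h : Eng A) (a b : A) : w36 a b * w5 a b = 0 := (wt8_9 h a b).2.2.2.2.2.2.2.2.2.2.2.2.2.2.2.2.1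
theorem r5_36 (h : Eng A) (a b : A) : w5 a b * w36 a b = 0 := by
  rw [h.ac, m36_5 h, neg_zero]
theorem m37_5 (h : Eng A) (a b : A) : w37 a b * w5 a b = 0 := (wt8_9 h a b).2.2.2.2.2.2.2.2.2.2.2.2.2.2.2.2.2.1
theorem r5_37 (h : Eng A) (a b : A) : w5 a b * w37 a b = 0 := by
  rw [h.ac, m37_5 h, neg_zero]
theorem m39_4 (h : Eng A) (a b : A) : w39 a b * w4 a b = 0 := (wt8_9 h a b).2.2.2.2.2.2.2.2.2.2.2.2.2.2.2.2.2.2.1
theorem r4_39 (h : Eng A) (a b : A) : w4 a b * w39 a b = 0 := by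
  rw [h.ac, m39_4 h, neg_zero]
theorem m40_3 (h : Eng A) (a b : A) : w40 a b * w3 a b = 0 := (wt8_9 h a b).2.2.2.2.2.2.2.2.2.2.2.2.2.2.2.2.2.2.2
theorem r3_40 (h : Eng A) (a b : A) : w3 a b * w40 a b = 0 := by
  rw [h.ac, m40_3 h, neg_zero]

theorem wt7_10 (h : Eng A) (a b : A) :
    (w21 a b * w10 a b = 0) ∧
    (w33 a b * w7 a b = 0) ∧
    (w40 a b * w4 a b = 0) := by
  have c10_21 : w10 a b * w21 a b = -(w21 a b * w10 a b) := h.ac _ _
  have c7_33 : w7 a b * w33 a b = -(w33 a b * w7 a b) := h.ac _ _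
  have c4_40 : w4 a b * w40 a b = -(w40 a b * w4 a b) := h.ac _ _
  have t0 := h.e3 (w7 a b) (w0 a b) (w1 a b) (w21 a b)
  simp only [c10_21, m7_0 h a b, m7_1 h a b, m8_1 a b, r7_21 h a b, r8_21 h a b, add_mul, sub_mul, neg_mul, zero_mul, add_zero, zero_add, neg_zero, neg_neg, sub_zero, zero_sub] at t0
  have t1 := h.e3 (w4 a b) (w0 a b) (w1 a b) (w33 a b)
  simp only [c7_33, m4_0 h a b, m4_1 h a b, m5_1 h a b, r4_33 h a b, r5_33 h a b, add_mul, sub_mul, neg_mul, zero_mul, add_zero, zero_add, neg_zero, neg_neg, sub_zero, zero_sub] at t1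
  have t2 := h.e3 (w1 a b) (w0 a b) (w1 a b) (w40 a b)
  simp only [c4_40, h.sq (w1 a b), m1_0 a b, m2_1 a b, r1_40 h a b, r2_40 h a b, add_mul, sub_mul, neg_mul, zero_mul, add_zero, zero_add, neg_zero, neg_neg, sub_zero, zero_sub] at t2
  refine ⟨?_, ?_, ?_⟩
  · linear_combination (norm := module) (1 : ℤ) • t0
  · linear_combination (norm := module) (-1 : ℤ) • t1
  · linear_combination (norm := module) (-1 : ℤ) • t2
theorem m21_10 (h : Eng A) (a b : A) : w21 a b * w10 a b = 0 := (wt7_10 h a b).1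
theorem r10_21 (h : Eng A) (a b : A) : w10 a b * w21 a b = 0 := by
  rw [h.ac, m21_10 h, neg_zero]
theorem m33_7 (h : Eng A) (a b : A) : w33 a b * w7 a b = 0 := (wt7_10 h a b).2.1
theorem r7_33 (h : Eng A) (a b : A) : w7 a b * w33 a b = 0 := by
  rw [h.ac, m33_7 h, neg_zero]
theorem m40_4 (h : Eng A) (a b : A) : w40 a b * w4 a b = 0 := (wt7_10 h a b).2.2
theorem r4_40 (h : Eng A) (a b : A) : w4 a b * w40 a b = 0 := by
  rw [h.ac, m40_4 h, neg_zero]

end Pool.Agent.H461R3.E3
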