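import Pool.Agent.H461R3.E3.D17

set_option autoImplicit false
set_option linter.all false
set_option linter.unusedSimpArgs false
set_option linter.unusedVariables false

namespace Pool.Agent.H461R3.E3

universe u

variable {A : Type u} [NonUnitalNonAssocRing A]

theorem wt10_8 (h : Eng A) (a b : A) :
    (w14 a b * w13 a b = 0) ∧
    (w17 a b * w11 a b = 0) ∧
    (w17 a b * w12 a b = 0) ∧
    (w22 a b * w9 a b = 0) ∧
    (w23 a b * w9 a b = 0) ∧
    (w24 a b * w9 a b = 0) ∧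
    (w28 a b * w8 a b = 0) ∧
    (w34 a b * w6 a b = 0) ∧
    (w35 a b * w6 a b = 0) ∧
    (w38 a b * w5 a b = 0) := by
  have c13_14 : w13 a b * w14 a b = -(w14 a b * w13 a b) := h.ac _ _
  have c11_17 : w11 a b * w17 a b = -(w17 a b * w11 a b) := h.ac _ _
  have c12_17 : w12 a b * w17 a b = -(w17 a b * w12 a b) := h.ac _ _
  have c9_22 : w9 a b * w22 a b = -(w22 a b * w9 a b) := h.ac _ _
  have c9_23 : w9 a b * w23 a b = -(w23 a b * w9 a b) := h.ac _ _
  have c9_24 : w9 a b * w24 a b = -(w24 a b * w9 a b) := h.ac _ _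
  have c8_28 : w8 a b * w28 a b = -(w28 a b * w8 a b) := h.ac _ _
  have c6_34 : w6 a b * w34 a b = -(w34 a b * w6 a b) := h.ac _ _
  have c6_35 : w6 a b * w35 a b = -(w35 a b * w6 a b) := h.ac _ _
  have c5_38 : w5 a b * w38 a b = -(w38 a b * w5 a b) := h.ac _ _
  have t0 := h.e2 (w31 a b) (w0 a b) (w5 a b)
  simp only [m31_0 h a b, m31_5 h a b, m35_0 h a b, m35_5 h a b, add_mul, sub_mul, neg_mul, zero_mul, add_zero, zero_add, neg_zero, neg_neg, sub_zero, zero_sub] at t0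
  have t1 := h.e2 (w18 a b) (w0 a b) (w8 a b)
  simp only [m18_0 h a b, m18_8 h a b, m23_0 h a b, m23_8 h a b, add_mul, sub_mul, neg_mul, zero_mul, add_zero, zero_add, neg_zero, neg_neg, sub_zero, zero_sub] at t1
  have t2 := h.e2 (w16 a b) (w0 a b) (w9 a b)
  simp only [m16_0 h a b, m16_9 h a b, m20_0 h a b, m20_9 h a b, add_mul, sub_mul, neg_mul, zero_mul, add_zero, zero_add, neg_zero, neg_neg, sub_zero, zero_sub] at t2
  have t3 := h.e2 (w11 a b) (w0 a b) (w11 a b)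
  simp only [h.sq (w11 a b), m11_0 h a b, m14_0 h a b, m14_11 h a b, add_mul, sub_mul, neg_mul, zero_mul, add_zero, zero_add, neg_zero, neg_neg, sub_zero, zero_sub] at t3
  have t4 := h.e2 (w11 a b) (w0 a b) (w12 a b)
  simp only [m11_0 h a b, m14_0 h a b, m14_12 h a b, r11_12 h a b, add_mul, sub_mul, neg_mul, zero_mul, add_zero, zero_add, neg_zero, neg_neg, sub_zero, zero_sub] at t4
  have t5 := h.e2 (w7 a b) (w0 a b) (w22 a b)
  simp only [c9_22, m7_0 h a b, m8_0 a b, r7_22 h a b, r8_22 h a b, add_mul, sub_mul, neg_mul, zero_mul, add_zero, zero_add, neg_zero, neg_neg, sub_zero, zero_sub] at t5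
  have t6 := h.e2 (w7 a b) (w0 a b) (w23 a b)
  simp only [c9_23, m7_0 h a b, m8_0 a b, r7_23 h a b, r8_23 h a b, add_mul, sub_mul, neg_mul, zero_mul, add_zero, zero_add, neg_zero, neg_neg, sub_zero, zero_sub] at t6
  have t7 := h.e2 (w4 a b) (w0 a b) (w34 a b)
  simp only [c6_34, m4_0 h a b, m5_0 h a b, r4_34 h a b, r5_34 h a b, add_mul, sub_mul, neg_mul, zero_mul, add_zero, zero_add, neg_zero, neg_neg, sub_zero, zero_sub] at t7
  have t8 := h.e2 (w4 a b) (w0 a b) (w35 a b)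
  simp only [c6_35, m4_0 h a b, m5_0 h a b, r4_35 h a b, r5_35 h a b, add_mul, sub_mul, neg_mul, zero_mul, add_zero, zero_add, neg_zero, neg_neg, sub_zero, zero_sub] at t8
  have t9 := h.e3 (w7 a b) (w0 a b) (w3 a b) (w14 a b)
  simp only [c13_14, m7_0 h a b, m7_3 h a b, m8_3 a b, r7_14 h a b, r8_14 h a b, add_mul, sub_mul, neg_mul, zero_mul, add_zero, zero_add, neg_zero, neg_neg, sub_zero, zero_sub] at t9
  refine ⟨?_, ?_, ?_, ?_, ?_, ?_, ?_, ?_, ?_, ?_⟩
  · linear_combination (norm := module) (1 : ℤ) • t9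
  · linear_combination (norm := module) (1 : ℤ) • t3
  · linear_combination (norm := module) (1 : ℤ) • t4
  · linear_combination (norm := module) (1 : ℤ) • t5
  · linear_combination (norm := module) (1 : ℤ) • t6
  · linear_combination (norm := module) (1 : ℤ) • t2
  · linear_combination (norm := module) (-1 : ℤ) • t1
  · linear_combination (norm := module) (-1 : ℤ) • t7
  · linear_combination (norm := module) (-1 : ℤ) • t8
  · linear_combination (norm := module) (-1 : ℤ) • t0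
theorem m14_13 (h : Eng A) (a b : A) : w14 a b * w13 a b = 0 := (wt10_8 h a b).1
theorem r13_14 (h : Eng A) (a b : A) : w13 a b * w14 a b = 0 := by
  rw [h.ac, m14_13 h, neg_zero]
theorem m17_11 (h : Eng A) (a b : A) : w17 a b * w11 a b = 0 := (wt10_8 h a b).2.1
theorem r11_17 (h : Eng A) (a b : A) : w11 a b * w17 a b = 0 := by
  rw [h.ac, m17_11 h, neg_zero]
theorem m17_12 (h : Eng A) (a b : A) : w17 a b * w12 a b = 0 := (wt10_8 h a b).2.2.1
theorem r12_17 (h : Eng A) (a b : A) : w12 a b * w17 a b = 0 := by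
  rw [h.ac, m17_12 h, neg_zero]
theorem m22_9 (h : Eng A) (a b : A) : w22 a b * w9 a b = 0 := (wt10_8 h a b).2.2.2.1
theorem r9_22 (h : Eng A) (a b : A) : w9 a b * w22 a b = 0 := by
  rw [h.ac, m22_9 h, neg_zero]
theorem m23_9 (h : Eng A) (a b : A) : w23 a b * w9 a b = 0 := (wt10_8 h a b).2.2.2.2.1
theorem r9_23 (h : Eng A) (a b : A) : w9 a b * w23 a b = 0 := by
  rw [h.ac, m23_9 h, neg_zero]
theorem m24_9 (h : Eng A) (a b : A) : w24 a b * w9 a b = 0 := (wt10_8 h a b).2.2.2.2.2.1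
theorem r9_24 (h : Eng A) (a b : A) : w9 a b * w24 a b = 0 := by
  rw [h.ac, m24_9 h, neg_zero]
theorem m28_8 (h : Eng A) (a b : A) : w28 a b * w8 a b = 0 := (wt10_8 h a b).2.2.2.2.2.2.1
theorem r8_28 (h : Eng A) (a b : A) : w8 a b * w28 a b = 0 := by
  rw [h.ac, m28_8 h, neg_zero]
theorem m34_6 (h : Eng A) (a b : A) : w34 a b * w6 a b = 0 := (wt10_8 h a b).2.2.2.2.2.2.2.1
theorem r6_34 (h : Eng A) (a b : A) : w6 a b * w34 a b = 0 := by
  rw [h.ac, m34_6 h, neg_zero]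
theorem m35_6 (h : Eng A) (a b : A) : w35 a b * w6 a b = 0 := (wt10_8 h a b).2.2.2.2.2.2.2.2.1
theorem r6_35 (h : Eng A) (a b : A) : w6 a b * w35 a b = 0 := by
  rw [h.ac, m35_6 h, neg_zero]
theorem m38_5 (h : Eng A) (a b : A) : w38 a b * w5 a b = 0 := (wt10_8 h a b).2.2.2.2.2.2.2.2.2
theorem r5_38 (h : Eng A) (a b : A) : w5 a b * w38 a b = 0 := by
  rw [h.ac, m38_5 h, neg_zero]

theorem wt9_9 (h : Eng A) (a b : A) :
    (w15 a b * w13 a b = 0) ∧
    (w15 a b * w14 a b = 0) ∧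
    (w16 a b * w13 a b = 0) ∧
    (w16 a b * w14 a b = 0) ∧
    (w18 a b * w11 a b = 0) ∧
    (w18 a b * w12 a b = 0) ∧
    (w19 a b * w11 a b = 0) ∧
    (w19 a b * w12 a b = 0) ∧
    (w20 a b * w11 a b = 0) ∧
    (w20 a b * w12 a b = 0) ∧
    (w22 a b * w10 a b = 0) ∧
    (w23 a b * w10 a b = 0) ∧
    (w24 a b * w10 a b = 0) ∧
    (w25 a b * w9 a b = 0) ∧
    (w26 a b * w9 a b = 0) ∧
    (w27 a b * w9 a b = 0) ∧
    (w29 a b * w8 a b = 0) ∧
    (w30 a b * w8 a b = 0) ∧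
    (w31 a b * w8 a b = 0) ∧
    (w32 a b * w8 a b = 0) ∧
    (w34 a b * w7 a b = 0) ∧
    (w35 a b * w7 a b = 0) ∧
    (w36 a b * w6 a b = 0) ∧
    (w37 a b * w6 a b = 0) ∧
    (w39 a b * w5 a b = 0) := by
  have c13_15 : w13 a b * w15 a b = -(w15 a b * w13 a b) := h.ac _ _
  have c14_15 : w14 a b * w15 a b = -(w15 a b * w14 a b) := h.ac _ _
  have c13_16 : w13 a b * w16 a b = -(w16 a b * w13 a b) := h.ac _ _
  have c14_16 : w14 a b * w16 a b = -(w16 a b * w14 a b) := h.ac _ _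
  have c11_18 : w11 a b * w18 a b = -(w18 a b * w11 a b) := h.ac _ _
  have c12_18 : w12 a b * w18 a b = -(w18 a b * w12 a b) := h.ac _ _
  have c11_19 : w11 a b * w19 a b = -(w19 a b * w11 a b) := h.ac _ _
  have c12_19 : w12 a b * w19 a b = -(w19 a b * w12 a b) := h.ac _ _
  have c11_20 : w11 a b * w20 a b = -(w20 a b * w11 a b) := h.ac _ _
  have c12_20 : w12 a b * w20 a b = -(w20 a b * w12 a b) := h.ac _ _
  have c10_22 : w10 a b * w22 a b = -(w22 a b * w10 a b) := h.ac _ _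
  have c10_23 : w10 a b * w23 a b = -(w23 a b * w10 a b) := h.ac _ _
  have c10_24 : w10 a b * w24 a b = -(w24 a b * w10 a b) := h.ac _ _
  have c9_25 : w9 a b * w25 a b = -(w25 a b * w9 a b) := h.ac _ _
  have c9_26 : w9 a b * w26 a b = -(w26 a b * w9 a b) := h.ac _ _
  have c9_27 : w9 a b * w27 a b = -(w27 a b * w9 a b) := h.ac _ _
  have c8_29 : w8 a b * w29 a b = -(w29 a b * w8 a b) := h.ac _ _
  have c8_30 : w8 a b * w30 a b = -(w30 a b * w8 a b) := h.ac _ _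
  have c8_31 : w8 a b * w31 a b = -(w31 a b * w8 a b) := h.ac _ _
  have c8_32 : w8 a b * w32 a b = -(w32 a b * w8 a b) := h.ac _ _
  have c7_34 : w7 a b * w34 a b = -(w34 a b * w7 a b) := h.ac _ _
  have c7_35 : w7 a b * w35 a b = -(w35 a b * w7 a b) := h.ac _ _
  have c6_36 : w6 a b * w36 a b = -(w36 a b * w6 a b) := h.ac _ _
  have c6_37 : w6 a b * w37 a b = -(w37 a b * w6 a b) := h.ac _ _
  have c5_39 : w5 a b * w39 a b = -(w39 a b * w5 a b) := h.ac _ _
  have t0 := h.e2 (w16 a b) (w0 a b) (w10 a b)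
  simp only [m16_0 h a b, m16_10 h a b, m20_0 h a b, m20_10 h a b, add_mul, sub_mul, neg_mul, zero_mul, add_zero, zero_add, neg_zero, neg_neg, sub_zero, zero_sub] at t0
  have t1 := h.e2 (w7 a b) (w0 a b) (w25 a b)
  simp only [c9_25, m7_0 h a b, m8_0 a b, r7_25 h a b, r8_25 h a b, add_mul, sub_mul, neg_mul, zero_mul, add_zero, zero_add, neg_zero, neg_neg, sub_zero, zero_sub] at t1
  have t2 := h.e2 (w7 a b) (w0 a b) (w26 a b)
  simp only [c9_26, m7_0 h a b, m8_0 a b, r7_26 h a b, r8_26 h a b, add_mul, sub_mul, neg_mul, zero_mul, add_zero, zero_add, neg_zero, neg_neg, sub_zero, zero_sub] at t2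
  have t3 := h.e2 (w7 a b) (w0 a b) (w27 a b)
  simp only [c9_27, m7_0 h a b, m8_0 a b, r7_27 h a b, r8_27 h a b, add_mul, sub_mul, neg_mul, zero_mul, add_zero, zero_add, neg_zero, neg_neg, sub_zero, zero_sub] at t3
  have t4 := h.e2 (w4 a b) (w0 a b) (w36 a b)
  simp only [c6_36, m4_0 h a b, m5_0 h a b, r4_36 h a b, r5_36 h a b, add_mul, sub_mul, neg_mul, zero_mul, add_zero, zero_add, neg_zero, neg_neg, sub_zero, zero_sub] at t4
  have t5 := h.e2 (w4 a b) (w0 a b) (w37 a b)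
  simp only [c6_37, m4_0 h a b, m5_0 h a b, r4_37 h a b, r5_37 h a b, add_mul, sub_mul, neg_mul, zero_mul, add_zero, zero_add, neg_zero, neg_neg, sub_zero, zero_sub] at t5
  have t6 := h.e3 (w7 a b) (w0 a b) (w1 a b) (w22 a b)
  simp only [c10_22, m7_0 h a b, m7_1 h a b, m8_1 a b, r7_22 h a b, r8_22 h a b, add_mul, sub_mul, neg_mul, zero_mul, add_zero, zero_add, neg_zero, neg_neg, sub_zero, zero_sub] at t6
  have t7 := h.e3 (w7 a b) (w0 a b) (w1 a b) (w23 a b)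
  simp only [c10_23, m7_0 h a b, m7_1 h a b, m8_1 a b, r7_23 h a b, r8_23 h a b, add_mul, sub_mul, neg_mul, zero_mul, add_zero, zero_add, neg_zero, neg_neg, sub_zero, zero_sub] at t7
  have t8 := h.e3 (w4 a b) (w0 a b) (w1 a b) (w34 a b)
  simp only [c7_34, m4_0 h a b, m4_1 h a b, m5_1 h a b, r4_34 h a b, r5_34 h a b, add_mul, sub_mul, neg_mul, zero_mul, add_zero, zero_add, neg_zero, neg_neg, sub_zero, zero_sub] at t8
  have t9 := h.e3 (w4 a b) (w0 a b) (w1 a b) (w35 a b)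
  simp only [c7_35, m4_0 h a b, m4_1 h a b, m5_1 h a b, r4_35 h a b, r5_35 h a b, add_mul, sub_mul, neg_mul, zero_mul, add_zero, zero_add, neg_zero, neg_neg, sub_zero, zero_sub] at t9
  have t10 := h.e3 (w7 a b) (w0 a b) (w2 a b) (w18 a b)
  simp only [c11_18, m7_0 h a b, m7_2 h a b, m8_2 a b, r7_18 h a b, r8_18 h a b, add_mul, sub_mul, neg_mul, zero_mul, add_zero, zero_add, neg_zero, neg_neg, sub_zero, zero_sub] at t10
  have t11 := h.e3 (w7 a b) (w0 a b) (w2 a b) (w19 a b)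
  simp only [c11_19, m7_0 h a b, m7_2 h a b, m8_2 a b, r7_19 h a b, r8_19 h a b, add_mul, sub_mul, neg_mul, zero_mul, add_zero, zero_add, neg_zero, neg_neg, sub_zero, zero_sub] at t11
  have t12 := h.e3 (w7 a b) (w0 a b) (w2 a b) (w20 a b)
  simp only [c11_20, m7_0 h a b, m7_2 h a b, m8_2 a b, r7_20 h a b, r8_20 h a b, add_mul, sub_mul, neg_mul, zero_mul, add_zero, zero_add, neg_zero, neg_neg, sub_zero, zero_sub] at t12
  have t13 := h.e3 (w1 a b) (w0 a b) (w2 a b) (w39 a b)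
  simp only [c5_39, h.sq (w2 a b), m1_0 a b, m4_0 h a b, r1_2 h a b, r1_39 h a b, r2_39 h a b, r4_39 h a b, add_mul, sub_mul, neg_mul, zero_mul, add_zero, zero_add, neg_zero, neg_neg, sub_zero, zero_sub] at t13
  have t14 := h.e3 (w7 a b) (w0 a b) (w3 a b) (w15 a b)
  simp only [c13_15, m40_0 h a b, m40_3 h a b, m7_0 h a b, m7_3 h a b, m8_3 a b, r7_15 h a b, r8_15 h a b, add_mul, sub_mul, neg_mul, zero_mul, add_zero, zero_add, neg_zero, neg_neg, sub_zero, zero_sub] at t14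
  have t15 := h.e3 (w7 a b) (w0 a b) (w3 a b) (w16 a b)
  simp only [c13_16, m7_0 h a b, m7_3 h a b, m8_3 a b, r7_16 h a b, r8_16 h a b, add_mul, sub_mul, neg_mul, zero_mul, add_zero, zero_add, neg_zero, neg_neg, sub_zero, zero_sub] at t15
  have t16 := h.e3 (w7 a b) (w0 a b) (w4 a b) (w14 a b)
  simp only [m7_0 h a b, m7_4 h a b, m8_4 a b, r7_14 h a b, r8_14 h a b, add_mul, sub_mul, neg_mul, zero_mul, add_zero, zero_add, neg_zero, neg_neg, sub_zero, zero_sub] at t16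
  have t17 := h.e2 (w7 a b) (w8 a b) (w0 a b)
  simp only [h.sq (w8 a b), m25_0 h a b, m25_8 h a b, m7_0 h a b, r7_8 h a b, add_mul, sub_mul, neg_mul, zero_mul, add_zero, zero_add, neg_zero, neg_neg, sub_zero, zero_sub] at t17
  have t18 := h.e2 (w6 a b) (w8 a b) (w1 a b)
  simp only [h.sq (w8 a b), m22_1 h a b, m22_8 h a b, m6_1 h a b, r6_8 h a b, add_mul, sub_mul, neg_mul, zero_mul, add_zero, zero_add, neg_zero, neg_neg, sub_zero, zero_sub] at t18
  have t19 := h.e3 (w5 a b) (w2 a b) (w5 a b) (w12 a b)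
  simp only [h.sq (w5 a b), m32_2 h a b, m32_5 h a b, m5_2 h a b, m8_5 a b, r5_12 h a b, r8_12 h a b, add_mul, sub_mul, neg_mul, zero_mul, add_zero, zero_add, neg_zero, neg_neg, sub_zero, zero_sub] at t19
  have t20 := h.e2 (w5 a b) (w8 a b) (w2 a b)
  simp only [h.sq (w8 a b), m18_2 h a b, m18_8 h a b, m5_2 h a b, r5_8 h a b, add_mul, sub_mul, neg_mul, zero_mul, add_zero, zero_add, neg_zero, neg_neg, sub_zero, zero_sub] at t20
  have t21 := h.e2 (w10 a b) (w0 a b) (w16 a b)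
  simp only [c13_16, c14_16, m10_0 h a b, m12_0 h a b, r10_16 h a b, r12_16 h a b, add_mul, sub_mul, neg_mul, zero_mul, add_zero, zero_add, neg_zero, neg_neg, sub_zero, zero_sub] at t21
  have t22 := h.e3 (w11 a b) (w0 a b) (w1 a b) (w12 a b)
  simp only [m11_0 h a b, m11_1 h a b, m14_1 h a b, m14_12 h a b, m16_0 h a b, m16_12 h a b, r11_12 h a b, add_mul, sub_mul, neg_mul, zero_mul, add_zero, zero_add, neg_zero, neg_neg, sub_zero, zero_sub] at t22
  have t23 := h.e2 (w4 a b) (w8 a b) (w3 a b)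
  simp only [h.sq (w8 a b), m15_3 h a b, m15_8 h a b, m4_3 a b, r4_8 h a b, add_mul, sub_mul, neg_mul, zero_mul, add_zero, zero_add, neg_zero, neg_neg, sub_zero, zero_sub] at t23
  have t24 := h.e3 (w10 a b) (w0 a b) (w2 a b) (w12 a b)
  simp only [h.sq (w12 a b), m10_0 h a b, m10_2 a b, m12_2 h a b, m16_0 h a b, m16_12 h a b, r10_12 h a b, add_mul, sub_mul, neg_mul, zero_mul, add_zero, zero_add, neg_zero, neg_neg, sub_zero, zero_sub] at t24
  refine ⟨?_, ?_, ?_, ?_, ?_, ?_, ?_, ?_, ?_, ?_, ?_, ?_, ?_, ?_, ?_, ?_, ?_, ?_, ?_, ?_, ?_, ?_, ?_, ?_, ?_⟩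
  · linear_combination (norm := module) (1 : ℤ) • t14
  · linear_combination (norm := module) (-1 : ℤ) • t16
  · linear_combination (norm := module) (1 : ℤ) • t15
  · linear_combination (norm := module) (1 : ℤ) • t15 + (-1 : ℤ) • t21
  · linear_combination (norm := module) (1 : ℤ) • t10
  · linear_combination (norm := module) (-1 : ℤ) • t19
  · linear_combination (norm := module) (1 : ℤ) • t11
  · linear_combination (norm := module) (1 : ℤ) • t19 + (-1 : ℤ) • t24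
  · linear_combination (norm := module) (1 : ℤ) • t12
  · linear_combination (norm := module) (-1 : ℤ) • t19 + (1 : ℤ) • t22 + (1 : ℤ) • t24
  · linear_combination (norm := module) (1 : ℤ) • t6
  · linear_combination (norm := module) (1 : ℤ) • t7
  · linear_combination (norm := module) (1 : ℤ) • t0
  · linear_combination (norm := module) (1 : ℤ) • t1
  · linear_combination (norm := module) (1 : ℤ) • t2
  · linear_combination (norm := module) (1 : ℤ) • t3
  · linear_combination (norm := module) (1 : ℤ) • t17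
  · linear_combination (norm := module) (1 : ℤ) • t18
  · linear_combination (norm := module) (1 : ℤ) • t20
  · linear_combination (norm := module) (1 : ℤ) • t20 + (-1 : ℤ) • t23
  · linear_combination (norm := module) (-1 : ℤ) • t8
  · linear_combination (norm := module) (-1 : ℤ) • t9
  · linear_combination (norm := module) (-1 : ℤ) • t4
  · linear_combination (norm := module) (-1 : ℤ) • t5
  · linear_combination (norm := module) (-1 : ℤ) • t13
theorem m15_13 (h : Eng A) (a b : A) : w15 a b * w13 a b = 0 := (wt9_9 h a b).1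
theorem r13_15 (h : Eng A) (a b : A) : w13 a b * w15 a b = 0 := by
  rw [h.ac, m15_13 h, neg_zero]
theorem m15_14 (h : Eng A) (a b : A) : w15 a b * w14 a b = 0 := (wt9_9 h a b).2.1
theorem r14_15 (h : Eng A) (a b : A) : w14 a b * w15 a b = 0 := by
  rw [h.ac, m15_14 h, neg_zero]
theorem m16_13 (h : Eng A) (a b : A) : w16 a b * w13 a b = 0 := (wt9_9 h a b).2.2.1
theorem r13_16 (h : Eng A) (a b : A) : w13 a b * w16 a b = 0 := by
  rw [h.ac, m16_13 h, neg_zero]
theorem m16_14 (h : Eng A) (a b : A) : w16 a b * w14 a b = 0 := (wt9_9 h a b).2.2.2.1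
theorem r14_16 (h : Eng A) (a b : A) : w14 a b * w16 a b = 0 := by
  rw [h.ac, m16_14 h, neg_zero]
theorem m18_11 (h : Eng A) (a b : A) : w18 a b * w11 a b = 0 := (wt9_9 h a b).2.2.2.2.1
theorem r11_18 (h : Eng A) (a b : A) : w11 a b * w18 a b = 0 := by
  rw [h.ac, m18_11 h, neg_zero]
theorem m18_12 (h : Eng A) (a b : A) : w18 a b * w12 a b = 0 := (wt9_9 h a b).2.2.2.2.2.1
theorem r12_18 (h : Eng A) (a b : A) : w12 a b * w18 a b = 0 := by
  rw [h.ac, m18_12 h, neg_zero]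
theorem m19_11 (h : Eng A) (a b : A) : w19 a b * w11 a b = 0 := (wt9_9 h a b).2.2.2.2.2.2.1
theorem r11_19 (h : Eng A) (a b : A) : w11 a b * w19 a b = 0 := by
  rw [h.ac, m19_11 h, neg_zero]
theorem m19_12 (h : Eng A) (a b : A) : w19 a b * w12 a b = 0 := (wt9_9 h a b).2.2.2.2.2.2.2.1
theorem r12_19 (h : Eng A) (a b : A) : w12 a b * w19 a b = 0 := by
  rw [h.ac, m19_12 h, neg_zero]
theorem m20_11 (h : Eng A) (a b : A) : w20 a b * w11 a b = 0 := (wt9_9 h a b).2.2.2.2.2.2.2.2.1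
theorem r11_20 (h : Eng A) (a b : A) : w11 a b * w20 a b = 0 := by
  rw [h.ac, m20_11 h, neg_zero]
theorem m20_12 (h : Eng A) (a b : A) : w20 a b * w12 a b = 0 := (wt9_9 h a b).2.2.2.2.2.2.2.2.2.1
theorem r12_20 (h : Eng A) (a b : A) : w12 a b * w20 a b = 0 := by
  rw [h.ac, m20_12 h, neg_zero]
theorem m22_10 (h : Eng A) (a b : A) : w22 a b * w10 a b = 0 := (wt9_9 h a b).2.2.2.2.2.2.2.2.2.2.1
theorem r10_22 (h : Eng A) (a b : A) : w10 a b * w22 a b = 0 := by
  rw [h.ac, m22_10 h, neg_zero]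
theorem m23_10 (h : Eng A) (a b : A) : w23 a b * w10 a b = 0 := (wt9_9 h a b).2.2.2.2.2.2.2.2.2.2.2.1
theorem r10_23 (h : Eng A) (a b : A) : w10 a b * w23 a b = 0 := by
  rw [h.ac, m23_10 h, neg_zero]
theorem m24_10 (h : Eng A) (a b : A) : w24 a b * w10 a b = 0 := (wt9_9 h a b).2.2.2.2.2.2.2.2.2.2.2.2.1
theorem r10_24 (h : Eng A) (a b : A) : w10 a b * w24 a b = 0 := by
  rw [h.ac, m24_10 h, neg_zero]
theorem m25_9 (h : Eng A) (a b : A) : w25 a b * w9 a b = 0 := (wt9_9 h a b).2.2.2.2.2.2.2.2.2.2.2.2.2.1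
theorem r9_25 (h : Eng A) (a b : A) : w9 a b * w25 a b = 0 := by
  rw [h.ac, m25_9 h, neg_zero]
theorem m26_9 (h : Eng A) (a b : A) : w26 a b * w9 a b = 0 := (wt9_9 h a b).2.2.2.2.2.2.2.2.2.2.2.2.2.2.1
theorem r9_26 (h : Eng A) (a b : A) : w9 a b * w26 a b = 0 := by
  rw [h.ac, m26_9 h, neg_zero]
theorem m27_9 (h : Eng A) (a b : A) : w27 a b * w9 a b = 0 := (wt9_9 h a b).2.2.2.2.2.2.2.2.2.2.2.2.2.2.2.1
theorem r9_27 (h : Eng A) (a b : A) : w9 a b * w27 a b = 0 := by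
  rw [h.ac, m27_9 h, neg_zero]
theorem m29_8 (h : Eng A) (a b : A) : w29 a b * w8 a b = 0 := (wt9_9 h a b).2.2.2.2.2.2.2.2.2.2.2.2.2.2.2.2.1
theorem r8_29 (h : Eng A) (a b : A) : w8 a b * w29 a b = 0 := by
  rw [h.ac, m29_8 h, neg_zero]
theorem m30_8 (h : Eng A) (a b : A) : w30 a b * w8 a b = 0 := (wt9_9 h a b).2.2.2.2.2.2.2.2.2.2.2.2.2.2.2.2.2.1
theorem r8_30 (h : Eng A) (a b : A) : w8 a b * w30 a b = 0 := by
  rw [h.ac, m30_8 h, neg_zero]
theorem m31_8 (h : Eng A) (a b : A) : w31 a b * w8 a b = 0 := (wt9_9 h a b).2.2.2.2.2.2.2.2.2.2.2.2.2.2.2.2.2.2.1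
theorem r8_31 (h : Eng A) (a b : A) : w8 a b * w31 a b = 0 := by
  rw [h.ac, m31_8 h, neg_zero]
theorem m32_8 (h : Eng A) (a b : A) : w32 a b * w8 a b = 0 := (wt9_9 h a b).2.2.2.2.2.2.2.2.2.2.2.2.2.2.2.2.2.2.2.1
theorem r8_32 (h : Eng A) (a b : A) : w8 a b * w32 a b = 0 := by
  rw [h.ac, m32_8 h, neg_zero]
theorem m34_7 (h : Eng A) (a b : A) : w34 a b * w7 a b = 0 := (wt9_9 h a b).2.2.2.2.2.2.2.2.2.2.2.2.2.2.2.2.2.2.2.2.1
theorem r7_34 (h : Eng A) (a b : A) : w7 a b * w34 a b = 0 := by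
  rw [h.ac, m34_7 h, neg_zero]
theorem m35_7 (h : Eng A) (a b : A) : w35 a b * w7 a b = 0 := (wt9_9 h a b).2.2.2.2.2.2.2.2.2.2.2.2.2.2.2.2.2.2.2.2.2.1
theorem r7_35 (h : Eng A) (a b : A) : w7 a b * w35 a b = 0 := by
  rw [h.ac, m35_7 h, neg_zero]
theorem m36_6 (h : Eng A) (a b : A) : w36 a b * w6 a b = 0 := (wt9_9 h a b).2.2.2.2.2.2.2.2.2.2.2.2.2.2.2.2.2.2.2.2.2.2.1
theorem r6_36 (h : Eng A) (a b : A) : w6 a b * w36 a b = 0 := by
  rw [h.ac, m36_6 h, neg_zero]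
theorem m37_6 (h : Eng A) (a b : A) : w37 a b * w6 a b = 0 := (wt9_9 h a b).2.2.2.2.2.2.2.2.2.2.2.2.2.2.2.2.2.2.2.2.2.2.2.1
theorem r6_37 (h : Eng A) (a b : A) : w6 a b * w37 a b = 0 := by
  rw [h.ac, m37_6 h, neg_zero]
theorem m39_5 (h : Eng A) (a b : A) : w39 a b * w5 a b = 0 := (wt9_9 h a b).2.2.2.2.2.2.2.2.2.2.2.2.2.2.2.2.2.2.2.2.2.2.2.2
theorem r5_39 (h : Eng A) (a b : A) : w5 a b * w39 a b = 0 := by
  rw [h.ac, m39_5 h, neg_zero]

theorem wt8_10 (h : Eng A) (a b : A) :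
    (w16 a b * w15 a b = 0) ∧
    (w21 a b * w11 a b = 0) ∧
    (w21 a b * w12 a b = 0) ∧
    (w25 a b * w10 a b = 0) ∧
    (w26 a b * w10 a b = 0) ∧
    (w27 a b * w10 a b = 0) ∧
    (w33 a b * w8 a b = 0) ∧
    (w36 a b * w7 a b = 0) ∧
    (w37 a b * w7 a b = 0) ∧
    (w40 a b * w5 a b = 0) := by
  have c15_16 : w15 a b * w16 a b = -(w16 a b * w15 a b) := h.ac _ _
  have c11_21 : w11 a b * w21 a b = -(w21 a b * w11 a b) := h.ac _ _
  have c12_21 : w12 a b * w21 a b = -(w21 a b * w12 a b) := h.ac _ _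
  have c10_25 : w10 a b * w25 a b = -(w25 a b * w10 a b) := h.ac _ _
  have c10_26 : w10 a b * w26 a b = -(w26 a b * w10 a b) := h.ac _ _
  have c10_27 : w10 a b * w27 a b = -(w27 a b * w10 a b) := h.ac _ _
  have c8_33 : w8 a b * w33 a b = -(w33 a b * w8 a b) := h.ac _ _
  have c7_36 : w7 a b * w36 a b = -(w36 a b * w7 a b) := h.ac _ _
  have c7_37 : w7 a b * w37 a b = -(w37 a b * w7 a b) := h.ac _ _
  have c5_40 : w5 a b * w40 a b = -(w40 a b * w5 a b) := h.ac _ _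
  have t0 := h.e3 (w7 a b) (w0 a b) (w1 a b) (w25 a b)
  simp only [c10_25, m7_0 h a b, m7_1 h a b, m8_1 a b, r7_25 h a b, r8_25 h a b, add_mul, sub_mul, neg_mul, zero_mul, add_zero, zero_add, neg_zero, neg_neg, sub_zero, zero_sub] at t0
  have t1 := h.e3 (w7 a b) (w0 a b) (w1 a b) (w26 a b)
  simp only [c10_26, m7_0 h a b, m7_1 h a b, m8_1 a b, r7_26 h a b, r8_26 h a b, add_mul, sub_mul, neg_mul, zero_mul, add_zero, zero_add, neg_zero, neg_neg, sub_zero, zero_sub] at t1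
  have t2 := h.e3 (w7 a b) (w0 a b) (w1 a b) (w27 a b)
  simp only [c10_27, m7_0 h a b, m7_1 h a b, m8_1 a b, r7_27 h a b, r8_27 h a b, add_mul, sub_mul, neg_mul, zero_mul, add_zero, zero_add, neg_zero, neg_neg, sub_zero, zero_sub] at t2
  have t3 := h.e3 (w4 a b) (w0 a b) (w1 a b) (w36 a b)
  simp only [c7_36, m4_0 h a b, m4_1 h a b, m5_1 h a b, r4_36 h a b, r5_36 h a b, add_mul, sub_mul, neg_mul, zero_mul, add_zero, zero_add, neg_zero, neg_neg, sub_zero, zero_sub] at t3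
  have t4 := h.e3 (w4 a b) (w0 a b) (w1 a b) (w37 a b)
  simp only [c7_37, m4_0 h a b, m4_1 h a b, m5_1 h a b, r4_37 h a b, r5_37 h a b, add_mul, sub_mul, neg_mul, zero_mul, add_zero, zero_add, neg_zero, neg_neg, sub_zero, zero_sub] at t4
  have t5 := h.e3 (w7 a b) (w0 a b) (w2 a b) (w21 a b)
  simp only [c11_21, m7_0 h a b, m7_2 h a b, m8_2 a b, r7_21 h a b, r8_21 h a b, add_mul, sub_mul, neg_mul, zero_mul, add_zero, zero_add, neg_zero, neg_neg, sub_zero, zero_sub] at t5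
  have t6 := h.e3 (w1 a b) (w0 a b) (w2 a b) (w40 a b)
  simp only [c5_40, h.sq (w2 a b), m1_0 a b, m4_0 h a b, r1_2 h a b, r1_40 h a b, r2_40 h a b, r4_40 h a b, add_mul, sub_mul, neg_mul, zero_mul, add_zero, zero_add, neg_zero, neg_neg, sub_zero, zero_sub] at t6
  have t7 := h.e3 (w7 a b) (w0 a b) (w4 a b) (w16 a b)
  simp only [c15_16, m7_0 h a b, m7_4 h a b, m8_4 a b, r7_16 h a b, r8_16 h a b, add_mul, sub_mul, neg_mul, zero_mul, add_zero, zero_add, neg_zero, neg_neg, sub_zero, zero_sub] at t7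
  have t8 := h.e2 (w18 a b) (w1 a b) (w8 a b)
  simp only [m18_1 h a b, m18_8 h a b, m26_1 h a b, m26_8 h a b, add_mul, sub_mul, neg_mul, zero_mul, add_zero, zero_add, neg_zero, neg_neg, sub_zero, zero_sub] at t8
  have t9 := h.e2 (w11 a b) (w1 a b) (w12 a b)
  simp only [m11_1 h a b, m16_1 h a b, m16_12 h a b, r11_12 h a b, add_mul, sub_mul, neg_mul, zero_mul, add_zero, zero_add, neg_zero, neg_neg, sub_zero, zero_sub] at t9
  refine ⟨?_, ?_, ?_, ?_, ?_, ?_, ?_, ?_, ?_, ?_⟩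
  · linear_combination (norm := module) (1 : ℤ) • t7
  · linear_combination (norm := module) (1 : ℤ) • t5
  · linear_combination (norm := module) (1 : ℤ) • t9
  · linear_combination (norm := module) (1 : ℤ) • t0
  · linear_combination (norm := module) (1 : ℤ) • t1
  · linear_combination (norm := module) (1 : ℤ) • t2
  · linear_combination (norm := module) (-1 : ℤ) • t8
  · linear_combination (norm := module) (-1 : ℤ) • t3
  · linear_combination (norm := module) (-1 : ℤ) • t4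
  · linear_combination (norm := module) (-1 : ℤ) • t6
theorem m16_15 (h : Eng A) (a b : A) : w16 a b * w15 a b = 0 := (wt8_10 h a b).1
theorem r15_16 (h : Eng A) (a b : A) : w15 a b * w16 a b = 0 := by
  rw [h.ac, m16_15 h, neg_zero]
theorem m21_11 (h : Eng A) (a b : A) : w21 a b * w11 a b = 0 := (wt8_10 h a b).2.1
theorem r11_21 (h : Eng A) (a b : A) : w11 a b * w21 a b = 0 := by
  rw [h.ac, m21_11 h, neg_zero]
theorem m21_12 (h : Eng A) (a b : A) : w21 a b * w12 a b = 0 := (wt8_10 h a b).2.2.1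
theorem r12_21 (h : Eng A) (a b : A) : w12 a b * w21 a b = 0 := by
  rw [h.ac, m21_12 h, neg_zero]
theorem m25_10 (h : Eng A) (a b : A) : w25 a b * w10 a b = 0 := (wt8_10 h a b).2.2.2.1
theorem r10_25 (h : Eng A) (a b : A) : w10 a b * w25 a b = 0 := by
  rw [h.ac, m25_10 h, neg_zero]
theorem m26_10 (h : Eng A) (a b : A) : w26 a b * w10 a b = 0 := (wt8_10 h a b).2.2.2.2.1
theorem r10_26 (h : Eng A) (a b : A) : w10 a b * w26 a b = 0 := by
  rw [h.ac, m26_10 h, neg_zero]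
theorem m27_10 (h : Eng A) (a b : A) : w27 a b * w10 a b = 0 := (wt8_10 h a b).2.2.2.2.2.1
theorem r10_27 (h : Eng A) (a b : A) : w10 a b * w27 a b = 0 := by
  rw [h.ac, m27_10 h, neg_zero]
theorem m33_8 (h : Eng A) (a b : A) : w33 a b * w8 a b = 0 := (wt8_10 h a b).2.2.2.2.2.2.1
theorem r8_33 (h : Eng A) (a b : A) : w8 a b * w33 a b = 0 := by
  rw [h.ac, m33_8 h, neg_zero]
theorem m36_7 (h : Eng A) (a b : A) : w36 a b * w7 a b = 0 := (wt8_10 h a b).2.2.2.2.2.2.2.1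
theorem r7_36 (h : Eng A) (a b : A) : w7 a b * w36 a b = 0 := by
  rw [h.ac, m36_7 h, neg_zero]
theorem m37_7 (h : Eng A) (a b : A) : w37 a b * w7 a b = 0 := (wt8_10 h a b).2.2.2.2.2.2.2.2.1
theorem r7_37 (h : Eng A) (a b : A) : w7 a b * w37 a b = 0 := by
  rw [h.ac, m37_7 h, neg_zero]
theorem m40_5 (h : Eng A) (a b : A) : w40 a b * w5 a b = 0 := (wt8_10 h a b).2.2.2.2.2.2.2.2.2
theorem r5_40 (h : Eng A) (a b : A) : w5 a b * w40 a b = 0 := by
  rw [h.ac, m40_5 h, neg_zero]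

theorem wt11_8 (h : Eng A) (a b : A) :
    (w17 a b * w13 a b = 0) ∧
    (w17 a b * w14 a b = 0) ∧
    (w28 a b * w9 a b = 0) ∧
    (w38 a b * w6 a b = 0) := by
  have c13_17 : w13 a b * w17 a b = -(w17 a b * w13 a b) := h.ac _ _
  have c14_17 : w14 a b * w17 a b = -(w17 a b * w14 a b) := h.ac _ _
  have c9_28 : w9 a b * w28 a b = -(w28 a b * w9 a b) := h.ac _ _
  have c6_38 : w6 a b * w38 a b = -(w38 a b * w6 a b) := h.ac _ _
  have t0 := h.e2 (w31 a b) (w0 a b) (w6 a b)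
  simp only [m31_0 h a b, m31_6 h a b, m35_0 h a b, m35_6 h a b, add_mul, sub_mul, neg_mul, zero_mul, add_zero, zero_add, neg_zero, neg_neg, sub_zero, zero_sub] at t0
  have t1 := h.e2 (w18 a b) (w0 a b) (w9 a b)
  simp only [m18_0 h a b, m18_9 h a b, m23_0 h a b, m23_9 h a b, add_mul, sub_mul, neg_mul, zero_mul, add_zero, zero_add, neg_zero, neg_neg, sub_zero, zero_sub] at t1
  have t2 := h.e2 (w11 a b) (w0 a b) (w13 a b)
  simp only [m11_0 h a b, m14_0 h a b, m14_13 h a b, r11_13 h a b, add_mul, sub_mul, neg_mul, zero_mul, add_zero, zero_add, neg_zero, neg_neg, sub_zero, zero_sub] at t2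
  have t3 := h.e2 (w11 a b) (w0 a b) (w14 a b)
  simp only [h.sq (w14 a b), m11_0 h a b, m14_0 h a b, r11_14 h a b, add_mul, sub_mul, neg_mul, zero_mul, add_zero, zero_add, neg_zero, neg_neg, sub_zero, zero_sub] at t3
  refine ⟨?_, ?_, ?_, ?_⟩
  · linear_combination (norm := module) (1 : ℤ) • t2
  · linear_combination (norm := module) (1 : ℤ) • t3
  · linear_combination (norm := module) (-1 : ℤ) • t1
  · linear_combination (norm := module) (-1 : ℤ) • t0
theorem m17_13 (h : Eng A) (a b : A) : w17 a b * w13 a b = 0 := (wt11_8 h a b).1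
theorem r13_17 (h : Eng A) (a b : A) : w13 a b * w17 a b = 0 := by
  rw [h.ac, m17_13 h, neg_zero]
theorem m17_14 (h : Eng A) (a b : A) : w17 a b * w14 a b = 0 := (wt11_8 h a b).2.1
theorem r14_17 (h : Eng A) (a b : A) : w14 a b * w17 a b = 0 := by
  rw [h.ac, m17_14 h, neg_zero]
theorem m28_9 (h : Eng A) (a b : A) : w28 a b * w9 a b = 0 := (wt11_8 h a b).2.2.1
theorem r9_28 (h : Eng A) (a b : A) : w9 a b * w28 a b = 0 := by
  rw [h.ac, m28_9 h, neg_zero]
theorem m38_6 (h : Eng A) (a b : A) : w38 a b * w6 a b = 0 := (wt11_8 h a b).2.2.2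
theorem r6_38 (h : Eng A) (a b : A) : w6 a b * w38 a b = 0 := by
  rw [h.ac, m38_6 h, neg_zero]

theorem wt10_9 (h : Eng A) (a b : A) :
    (w17 a b * w15 a b = 0) ∧
    (w17 a b * w16 a b = 0) ∧
    (w18 a b * w13 a b = 0) ∧
    (w18 a b * w14 a b = 0) ∧
    (w19 a b * w13 a b = 0) ∧
    (w19 a b * w14 a b = 0) ∧
    (w20 a b * w13 a b = 0) ∧
    (w20 a b * w14 a b = 0) ∧
    (w22 a b * w11 a b = 0) ∧
    (w22 a b * w12 a b = 0) ∧
    (w23 a b * w11 a b = 0) ∧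
    (w23 a b * w12 a b = 0) ∧
    (w24 a b * w11 a b = 0) ∧
    (w24 a b * w12 a b = 0) ∧
    (w28 a b * w10 a b = 0) ∧
    (w29 a b * w9 a b = 0) ∧
    (w30 a b * w9 a b = 0) ∧
    (w31 a b * w9 a b = 0) ∧
    (w32 a b * w9 a b = 0) ∧
    (w34 a b * w8 a b = 0) ∧
    (w35 a b * w8 a b = 0) ∧
    (w38 a b * w7 a b = 0) ∧
    (w39 a b * w6 a b = 0) := by
  have c15_17 : w15 a b * w17 a b = -(w17 a b * w15 a b) := h.ac _ _
  have c16_17 : w16 a b * w17 a b = -(w17 a b * w16 a b) := h.ac _ _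
  have c13_18 : w13 a b * w18 a b = -(w18 a b * w13 a b) := h.ac _ _
  have c14_18 : w14 a b * w18 a b = -(w18 a b * w14 a b) := h.ac _ _
  have c13_19 : w13 a b * w19 a b = -(w19 a b * w13 a b) := h.ac _ _
  have c14_19 : w14 a b * w19 a b = -(w19 a b * w14 a b) := h.ac _ _
  have c13_20 : w13 a b * w20 a b = -(w20 a b * w13 a b) := h.ac _ _
  have c14_20 : w14 a b * w20 a b = -(w20 a b * w14 a b) := h.ac _ _
  have c11_22 : w11 a b * w22 a b = -(w22 a b * w11 a b) := h.ac _ _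
  have c12_22 : w12 a b * w22 a b = -(w22 a b * w12 a b) := h.ac _ _
  have c11_23 : w11 a b * w23 a b = -(w23 a b * w11 a b) := h.ac _ _
  have c12_23 : w12 a b * w23 a b = -(w23 a b * w12 a b) := h.ac _ _
  have c11_24 : w11 a b * w24 a b = -(w24 a b * w11 a b) := h.ac _ _
  have c12_24 : w12 a b * w24 a b = -(w24 a b * w12 a b) := h.ac _ _
  have c10_28 : w10 a b * w28 a b = -(w28 a b * w10 a b) := h.ac _ _
  have c9_29 : w9 a b * w29 a b = -(w29 a b * w9 a b) := h.ac _ _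
  have c9_30 : w9 a b * w30 a b = -(w30 a b * w9 a b) := h.ac _ _
  have c9_31 : w9 a b * w31 a b = -(w31 a b * w9 a b) := h.ac _ _
  have c9_32 : w9 a b * w32 a b = -(w32 a b * w9 a b) := h.ac _ _
  have c8_34 : w8 a b * w34 a b = -(w34 a b * w8 a b) := h.ac _ _
  have c8_35 : w8 a b * w35 a b = -(w35 a b * w8 a b) := h.ac _ _
  have c7_38 : w7 a b * w38 a b = -(w38 a b * w7 a b) := h.ac _ _
  have c6_39 : w6 a b * w39 a b = -(w39 a b * w6 a b) := h.ac _ _
  have t0 := h.e2 (w31 a b) (w0 a b) (w7 a b)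
  simp only [m31_0 h a b, m31_7 h a b, m35_0 h a b, m35_7 h a b, add_mul, sub_mul, neg_mul, zero_mul, add_zero, zero_add, neg_zero, neg_neg, sub_zero, zero_sub] at t0
  have t1 := h.e2 (w18 a b) (w0 a b) (w10 a b)
  simp only [m18_0 h a b, m18_10 h a b, m23_0 h a b, m23_10 h a b, add_mul, sub_mul, neg_mul, zero_mul, add_zero, zero_add, neg_zero, neg_neg, sub_zero, zero_sub] at t1
  have t2 := h.e2 (w16 a b) (w0 a b) (w11 a b)
  simp only [m16_0 h a b, m16_11 h a b, m20_0 h a b, m20_11 h a b, add_mul, sub_mul, neg_mul, zero_mul, add_zero, zero_add, neg_zero, neg_neg, sub_zero, zero_sub] at t2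
  have t3 := h.e2 (w16 a b) (w0 a b) (w12 a b)
  simp only [m16_0 h a b, m16_12 h a b, m20_0 h a b, m20_12 h a b, add_mul, sub_mul, neg_mul, zero_mul, add_zero, zero_add, neg_zero, neg_neg, sub_zero, zero_sub] at t3
  have t4 := h.e2 (w11 a b) (w0 a b) (w15 a b)
  simp only [m11_0 h a b, m14_0 h a b, r11_15 h a b, r14_15 h a b, add_mul, sub_mul, neg_mul, zero_mul, add_zero, zero_add, neg_zero, neg_neg, sub_zero, zero_sub] at t4
  have t5 := h.e2 (w11 a b) (w0 a b) (w16 a b)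
  simp only [m11_0 h a b, m14_0 h a b, r11_16 h a b, r14_16 h a b, add_mul, sub_mul, neg_mul, zero_mul, add_zero, zero_add, neg_zero, neg_neg, sub_zero, zero_sub] at t5
  have t6 := h.e2 (w7 a b) (w0 a b) (w29 a b)
  simp only [c9_29, m7_0 h a b, m8_0 a b, r7_29 h a b, r8_29 h a b, add_mul, sub_mul, neg_mul, zero_mul, add_zero, zero_add, neg_zero, neg_neg, sub_zero, zero_sub] at t6
  have t7 := h.e2 (w7 a b) (w0 a b) (w30 a b)
  simp only [c9_30, m7_0 h a b, m8_0 a b, r7_30 h a b, r8_30 h a b, add_mul, sub_mul, neg_mul, zero_mul, add_zero, zero_add, neg_zero, neg_neg, sub_zero, zero_sub] at t7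
  have t8 := h.e2 (w7 a b) (w0 a b) (w31 a b)
  simp only [c9_31, m7_0 h a b, m8_0 a b, r7_31 h a b, r8_31 h a b, add_mul, sub_mul, neg_mul, zero_mul, add_zero, zero_add, neg_zero, neg_neg, sub_zero, zero_sub] at t8
  have t9 := h.e2 (w7 a b) (w0 a b) (w32 a b)
  simp only [c9_32, m7_0 h a b, m8_0 a b, r7_32 h a b, r8_32 h a b, add_mul, sub_mul, neg_mul, zero_mul, add_zero, zero_add, neg_zero, neg_neg, sub_zero, zero_sub] at t9
  have t10 := h.e2 (w4 a b) (w0 a b) (w39 a b)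
  simp only [c6_39, m4_0 h a b, m5_0 h a b, r4_39 h a b, r5_39 h a b, add_mul, sub_mul, neg_mul, zero_mul, add_zero, zero_add, neg_zero, neg_neg, sub_zero, zero_sub] at t10
  have t11 := h.e3 (w7 a b) (w0 a b) (w2 a b) (w22 a b)
  simp only [c11_22, m7_0 h a b, m7_2 h a b, m8_2 a b, r7_22 h a b, r8_22 h a b, add_mul, sub_mul, neg_mul, zero_mul, add_zero, zero_add, neg_zero, neg_neg, sub_zero, zero_sub] at t11
  have t12 := h.e3 (w7 a b) (w0 a b) (w2 a b) (w23 a b)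
  simp only [c11_23, m7_0 h a b, m7_2 h a b, m8_2 a b, r7_23 h a b, r8_23 h a b, add_mul, sub_mul, neg_mul, zero_mul, add_zero, zero_add, neg_zero, neg_neg, sub_zero, zero_sub] at t12
  have t13 := h.e3 (w7 a b) (w0 a b) (w3 a b) (w18 a b)
  simp only [c13_18, m7_0 h a b, m7_3 h a b, m8_3 a b, r7_18 h a b, r8_18 h a b, add_mul, sub_mul, neg_mul, zero_mul, add_zero, zero_add, neg_zero, neg_neg, sub_zero, zero_sub] at t13
  have t14 := h.e3 (w7 a b) (w0 a b) (w3 a b) (w19 a b)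
  simp only [c13_19, m7_0 h a b, m7_3 h a b, m8_3 a b, r7_19 h a b, r8_19 h a b, add_mul, sub_mul, neg_mul, zero_mul, add_zero, zero_add, neg_zero, neg_neg, sub_zero, zero_sub] at t14
  have t15 := h.e3 (w7 a b) (w0 a b) (w3 a b) (w20 a b)
  simp only [c13_20, m7_0 h a b, m7_3 h a b, m8_3 a b, r7_20 h a b, r8_20 h a b, add_mul, sub_mul, neg_mul, zero_mul, add_zero, zero_add, neg_zero, neg_neg, sub_zero, zero_sub] at t15
  have t16 := h.e3 (w7 a b) (w0 a b) (w5 a b) (w14 a b)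
  simp only [m7_0 h a b, m7_5 h a b, m8_5 a b, r7_14 h a b, r8_14 h a b, add_mul, sub_mul, neg_mul, zero_mul, add_zero, zero_add, neg_zero, neg_neg, sub_zero, zero_sub] at t16
  have t17 := h.e2 (w13 a b) (w2 a b) (w8 a b)
  simp only [m13_2 h a b, m13_8 h a b, m24_2 h a b, m24_8 h a b, add_mul, sub_mul, neg_mul, zero_mul, add_zero, zero_add, neg_zero, neg_neg, sub_zero, zero_sub] at t17
  have t18 := h.e3 (w5 a b) (w2 a b) (w6 a b) (w12 a b)
  simp only [m32_2 h a b, m32_6 h a b, m5_2 h a b, m8_6 a b, r5_12 h a b, r5_6 h a b, r8_12 h a b, add_mul, sub_mul, neg_mul, zero_mul, add_zero, zero_add, neg_zero, neg_neg, sub_zero, zero_sub] at t18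
  have t19 := h.e3 (w16 a b) (w0 a b) (w3 a b) (w8 a b)
  simp only [m16_0 h a b, m16_3 h a b, m16_8 h a b, m20_3 h a b, m20_8 h a b, m29_0 h a b, m29_8 h a b, m31_0 h a b, m31_8 h a b, m32_0 h a b, m32_8 h a b, add_mul, sub_mul, neg_mul, zero_mul, add_zero, zero_add, neg_zero, neg_neg, sub_zero, zero_sub] at t19
  have t20 := h.e2 (w15 a b) (w0 a b) (w12 a b)
  simp only [m15_0 h a b, m15_12 h a b, m19_0 h a b, m19_12 h a b, add_mul, sub_mul, neg_mul, zero_mul, add_zero, zero_add, neg_zero, neg_neg, sub_zero, zero_sub] at t20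
  have t21 := h.e2 (w10 a b) (w0 a b) (w19 a b)
  simp only [c13_19, c14_19, m10_0 h a b, m12_0 h a b, r10_19 h a b, r12_19 h a b, add_mul, sub_mul, neg_mul, zero_mul, add_zero, zero_add, neg_zero, neg_neg, sub_zero, zero_sub] at t21
  have t22 := h.e2 (w10 a b) (w0 a b) (w20 a b)
  simp only [c13_20, c14_20, m10_0 h a b, m12_0 h a b, r10_20 h a b, r12_20 h a b, add_mul, sub_mul, neg_mul, zero_mul, add_zero, zero_add, neg_zero, neg_neg, sub_zero, zero_sub] at t22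
  refine ⟨?_, ?_, ?_, ?_, ?_, ?_, ?_, ?_, ?_, ?_, ?_, ?_, ?_, ?_, ?_, ?_, ?_, ?_, ?_, ?_, ?_, ?_, ?_⟩
  · linear_combination (norm := module) (1 : ℤ) • t4
  · linear_combination (norm := module) (1 : ℤ) • t5
  · linear_combination (norm := module) (1 : ℤ) • t13
  · linear_combination (norm := module) (-1 : ℤ) • t16
  · linear_combination (norm := module) (1 : ℤ) • t14
  · linear_combination (norm := module) (1 : ℤ) • t14 + (-1 : ℤ) • t21
  · linear_combination (norm := module) (1 : ℤ) • t15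
  · linear_combination (norm := module) (1 : ℤ) • t15 + (-1 : ℤ) • t22
  · linear_combination (norm := module) (1 : ℤ) • t11
  · linear_combination (norm := module) (-1 : ℤ) • t18
  · linear_combination (norm := module) (1 : ℤ) • t12
  · linear_combination (norm := module) (1 : ℤ) • t18 + (-1 : ℤ) • t20
  · linear_combination (norm := module) (1 : ℤ) • t2
  · linear_combination (norm := module) (1 : ℤ) • t3
  · linear_combination (norm := module) (-1 : ℤ) • t1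
  · linear_combination (norm := module) (1 : ℤ) • t6
  · linear_combination (norm := module) (1 : ℤ) • t7
  · linear_combination (norm := module) (1 : ℤ) • t8
  · linear_combination (norm := module) (1 : ℤ) • t9
  · linear_combination (norm := module) (1 : ℤ) • t17
  · linear_combination (norm := module) (-1 : ℤ) • t19
  · linear_combination (norm := module) (-1 : ℤ) • t0
  · linear_combination (norm := module) (-1 : ℤ) • t10
theorem m17_15 (h : Eng A) (a b : A) : w17 a b * w15 a b = 0 := (wt10_9 h a b).1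
theorem r15_17 (h : Eng A) (a b : A) : w15 a b * w17 a b = 0 := by
  rw [h.ac, m17_15 h, neg_zero]
theorem m17_16 (h : Eng A) (a b : A) : w17 a b * w16 a b = 0 := (wt10_9 h a b).2.1
theorem r16_17 (h : Eng A) (a b : A) : w16 a b * w17 a b = 0 := by
  rw [h.ac, m17_16 h, neg_zero]
theorem m18_13 (h : Eng A) (a b : A) : w18 a b * w13 a b = 0 := (wt10_9 h a b).2.2.1
theorem r13_18 (h : Eng A) (a b : A) : w13 a b * w18 a b = 0 := by
  rw [h.ac, m18_13 h, neg_zero]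
theorem m18_14 (h : Eng A) (a b : A) : w18 a b * w14 a b = 0 := (wt10_9 h a b).2.2.2.1
theorem r14_18 (h : Eng A) (a b : A) : w14 a b * w18 a b = 0 := by
  rw [h.ac, m18_14 h, neg_zero]
theorem m19_13 (h : Eng A) (a b : A) : w19 a b * w13 a b = 0 := (wt10_9 h a b).2.2.2.2.1
theorem r13_19 (h : Eng A) (a b : A) : w13 a b * w19 a b = 0 := by
  rw [h.ac, m19_13 h, neg_zero]
theorem m19_14 (h : Eng A) (a b : A) : w19 a b * w14 a b = 0 := (wt10_9 h a b).2.2.2.2.2.1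
theorem r14_19 (h : Eng A) (a b : A) : w14 a b * w19 a b = 0 := by
  rw [h.ac, m19_14 h, neg_zero]
theorem m20_13 (h : Eng A) (a b : A) : w20 a b * w13 a b = 0 := (wt10_9 h a b).2.2.2.2.2.2.1
theorem r13_20 (h : Eng A) (a b : A) : w13 a b * w20 a b = 0 := by
  rw [h.ac, m20_13 h, neg_zero]
theorem m20_14 (h : Eng A) (a b : A) : w20 a b * w14 a b = 0 := (wt10_9 h a b).2.2.2.2.2.2.2.1
theorem r14_20 (h : Eng A) (a b : A) : w14 a b * w20 a b = 0 := by
  rw [h.ac, m20_14 h, neg_zero]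
theorem m22_11 (h : Eng A) (a b : A) : w22 a b * w11 a b = 0 := (wt10_9 h a b).2.2.2.2.2.2.2.2.1
theorem r11_22 (h : Eng A) (a b : A) : w11 a b * w22 a b = 0 := by
  rw [h.ac, m22_11 h, neg_zero]
theorem m22_12 (h : Eng A) (a b : A) : w22 a b * w12 a b = 0 := (wt10_9 h a b).2.2.2.2.2.2.2.2.2.1
theorem r12_22 (h : Eng A) (a b : A) : w12 a b * w22 a b = 0 := by
  rw [h.ac, m22_12 h, neg_zero]
theorem m23_11 (h : Eng A) (a b : A) : w23 a b * w11 a b = 0 := (wt10_9 h a b).2.2.2.2.2.2.2.2.2.2.1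
theorem r11_23 (h : Eng A) (a b : A) : w11 a b * w23 a b = 0 := by
  rw [h.ac, m23_11 h, neg_zero]
theorem m23_12 (h : Eng A) (a b : A) : w23 a b * w12 a b = 0 := (wt10_9 h a b).2.2.2.2.2.2.2.2.2.2.2.1
theorem r12_23 (h : Eng A) (a b : A) : w12 a b * w23 a b = 0 := by
  rw [h.ac, m23_12 h, neg_zero]
theorem m24_11 (h : Eng A) (a b : A) : w24 a b * w11 a b = 0 := (wt10_9 h a b).2.2.2.2.2.2.2.2.2.2.2.2.1
theorem r11_24 (h : Eng A) (a b : A) : w11 a b * w24 a b = 0 := by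
  rw [h.ac, m24_11 h, neg_zero]
theorem m24_12 (h : Eng A) (a b : A) : w24 a b * w12 a b = 0 := (wt10_9 h a b).2.2.2.2.2.2.2.2.2.2.2.2.2.1
theorem r12_24 (h : Eng A) (a b : A) : w12 a b * w24 a b = 0 := by
  rw [h.ac, m24_12 h, neg_zero]
theorem m28_10 (h : Eng A) (a b : A) : w28 a b * w10 a b = 0 := (wt10_9 h a b).2.2.2.2.2.2.2.2.2.2.2.2.2.2.1
theorem r10_28 (h : Eng A) (a b : A) : w10 a b * w28 a b = 0 := by
  rw [h.ac, m28_10 h, neg_zero]
theorem m29_9 (h : Eng A) (a b : A) : w29 a b * w9 a b = 0 := (wt10_9 h a b).2.2.2.2.2.2.2.2.2.2.2.2.2.2.2.1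
theorem r9_29 (h : Eng A) (a b : A) : w9 a b * w29 a b = 0 := by
  rw [h.ac, m29_9 h, neg_zero]
theorem m30_9 (h : Eng A) (a b : A) : w30 a b * w9 a b = 0 := (wt10_9 h a b).2.2.2.2.2.2.2.2.2.2.2.2.2.2.2.2.1
theorem r9_30 (h : Eng A) (a b : A) : w9 a b * w30 a b = 0 := by
  rw [h.ac, m30_9 h, neg_zero]
theorem m31_9 (h : Eng A) (a b : A) : w31 a b * w9 a b = 0 := (wt10_9 h a b).2.2.2.2.2.2.2.2.2.2.2.2.2.2.2.2.2.1
theorem r9_31 (h : Eng A) (a b : A) : w9 a b * w31 a b = 0 := by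
  rw [h.ac, m31_9 h, neg_zero]
theorem m32_9 (h : Eng A) (a b : A) : w32 a b * w9 a b = 0 := (wt10_9 h a b).2.2.2.2.2.2.2.2.2.2.2.2.2.2.2.2.2.2.1
theorem r9_32 (h : Eng A) (a b : A) : w9 a b * w32 a b = 0 := by
  rw [h.ac, m32_9 h, neg_zero]
theorem m34_8 (h : Eng A) (a b : A) : w34 a b * w8 a b = 0 := (wt10_9 h a b).2.2.2.2.2.2.2.2.2.2.2.2.2.2.2.2.2.2.2.1
theorem r8_34 (h : Eng A) (a b : A) : w8 a b * w34 a b = 0 := by
  rw [h.ac, m34_8 h, neg_zero]
theorem m35_8 (h : Eng A) (a b : A) : w35 a b * w8 a b = 0 := (wt10_9 h a b).2.2.2.2.2.2.2.2.2.2.2.2.2.2.2.2.2.2.2.2.1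
theorem r8_35 (h : Eng A) (a b : A) : w8 a b * w35 a b = 0 := by
  rw [h.ac, m35_8 h, neg_zero]
theorem m38_7 (h : Eng A) (a b : A) : w38 a b * w7 a b = 0 := (wt10_9 h a b).2.2.2.2.2.2.2.2.2.2.2.2.2.2.2.2.2.2.2.2.2.1
theorem r7_38 (h : Eng A) (a b : A) : w7 a b * w38 a b = 0 := by
  rw [h.ac, m38_7 h, neg_zero]
theorem m39_6 (h : Eng A) (a b : A) : w39 a b * w6 a b = 0 := (wt10_9 h a b).2.2.2.2.2.2.2.2.2.2.2.2.2.2.2.2.2.2.2.2.2.2
theorem r6_39 (h : Eng A) (a b : A) : w6 a b * w39 a b = 0 := by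
  rw [h.ac, m39_6 h, neg_zero]

theorem wt9_10 (h : Eng A) (a b : A) :
    (w18 a b * w15 a b = 0) ∧
    (w18 a b * w16 a b = 0) ∧
    (w19 a b * w15 a b = 0) ∧
    (w19 a b * w16 a b = 0) ∧
    (w20 a b * w15 a b = 0) ∧
    (w20 a b * w16 a b = 0) ∧
    (w21 a b * w13 a b = 0) ∧
    (w21 a b * w14 a b = 0) ∧
    (w25 a b * w11 a b = 0) ∧
    (w25 a b * w12 a b = 0) ∧
    (w26 a b * w11 a b = 0) ∧
    (w26 a b * w12 a b = 0) ∧
    (w27 a b * w11 a b = 0) ∧
    (w27 a b * w12 a b = 0) ∧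
    (w29 a b * w10 a b = 0) ∧
    (w30 a b * w10 a b = 0) ∧
    (w31 a b * w10 a b = 0) ∧
    (w32 a b * w10 a b = 0) ∧
    (w33 a b * w9 a b = 0) ∧
    (w36 a b * w8 a b = 0) ∧
    (w37 a b * w8 a b = 0) ∧
    (w39 a b * w7 a b = 0) ∧
    (w40 a b * w6 a b = 0) := by
  have c15_18 : w15 a b * w18 a b = -(w18 a b * w15 a b) := h.ac _ _
  have c16_18 : w16 a b * w18 a b = -(w18 a b * w16 a b) := h.ac _ _
  have c15_19 : w15 a b * w19 a b = -(w19 a b * w15 a b) := h.ac _ _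
  have c16_19 : w16 a b * w19 a b = -(w19 a b * w16 a b) := h.ac _ _
  have c15_20 : w15 a b * w20 a b = -(w20 a b * w15 a b) := h.ac _ _
  have c16_20 : w16 a b * w20 a b = -(w20 a b * w16 a b) := h.ac _ _
  have c13_21 : w13 a b * w21 a b = -(w21 a b * w13 a b) := h.ac _ _
  have c14_21 : w14 a b * w21 a b = -(w21 a b * w14 a b) := h.ac _ _
  have c11_25 : w11 a b * w25 a b = -(w25 a b * w11 a b) := h.ac _ _
  have c12_25 : w12 a b * w25 a b = -(w25 a b * w12 a b) := h.ac _ _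
  have c11_26 : w11 a b * w26 a b = -(w26 a b * w11 a b) := h.ac _ _
  have c12_26 : w12 a b * w26 a b = -(w26 a b * w12 a b) := h.ac _ _
  have c11_27 : w11 a b * w27 a b = -(w27 a b * w11 a b) := h.ac _ _
  have c12_27 : w12 a b * w27 a b = -(w27 a b * w12 a b) := h.ac _ _
  have c10_29 : w10 a b * w29 a b = -(w29 a b * w10 a b) := h.ac _ _
  have c10_30 : w10 a b * w30 a b = -(w30 a b * w10 a b) := h.ac _ _
  have c10_31 : w10 a b * w31 a b = -(w31 a b * w10 a b) := h.ac _ _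
  have c10_32 : w10 a b * w32 a b = -(w32 a b * w10 a b) := h.ac _ _
  have c9_33 : w9 a b * w33 a b = -(w33 a b * w9 a b) := h.ac _ _
  have c8_36 : w8 a b * w36 a b = -(w36 a b * w8 a b) := h.ac _ _
  have c8_37 : w8 a b * w37 a b = -(w37 a b * w8 a b) := h.ac _ _
  have c7_39 : w7 a b * w39 a b = -(w39 a b * w7 a b) := h.ac _ _
  have c6_40 : w6 a b * w40 a b = -(w40 a b * w6 a b) := h.ac _ _
  have t0 := h.e2 (w7 a b) (w0 a b) (w33 a b)
  simp only [c9_33, m7_0 h a b, m8_0 a b, r7_33 h a b, r8_33 h a b, add_mul, sub_mul, neg_mul, zero_mul, add_zero, zero_add, neg_zero, neg_neg, sub_zero, zero_sub] at t0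
  have t1 := h.e2 (w4 a b) (w0 a b) (w40 a b)
  simp only [c6_40, m4_0 h a b, m5_0 h a b, r4_40 h a b, r5_40 h a b, add_mul, sub_mul, neg_mul, zero_mul, add_zero, zero_add, neg_zero, neg_neg, sub_zero, zero_sub] at t1
  have t2 := h.e3 (w7 a b) (w0 a b) (w1 a b) (w29 a b)
  simp only [c10_29, m7_0 h a b, m7_1 h a b, m8_1 a b, r7_29 h a b, r8_29 h a b, add_mul, sub_mul, neg_mul, zero_mul, add_zero, zero_add, neg_zero, neg_neg, sub_zero, zero_sub] at t2
  have t3 := h.e3 (w7 a b) (w0 a b) (w1 a b) (w30 a b)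
  simp only [c10_30, m7_0 h a b, m7_1 h a b, m8_1 a b, r7_30 h a b, r8_30 h a b, add_mul, sub_mul, neg_mul, zero_mul, add_zero, zero_add, neg_zero, neg_neg, sub_zero, zero_sub] at t3
  have t4 := h.e3 (w7 a b) (w0 a b) (w1 a b) (w31 a b)
  simp only [c10_31, m7_0 h a b, m7_1 h a b, m8_1 a b, r7_31 h a b, r8_31 h a b, add_mul, sub_mul, neg_mul, zero_mul, add_zero, zero_add, neg_zero, neg_neg, sub_zero, zero_sub] at t4
  have t5 := h.e3 (w7 a b) (w0 a b) (w1 a b) (w32 a b)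
  simp only [c10_32, m7_0 h a b, m7_1 h a b, m8_1 a b, r7_32 h a b, r8_32 h a b, add_mul, sub_mul, neg_mul, zero_mul, add_zero, zero_add, neg_zero, neg_neg, sub_zero, zero_sub] at t5
  have t6 := h.e3 (w4 a b) (w0 a b) (w1 a b) (w39 a b)
  simp only [c7_39, m4_0 h a b, m4_1 h a b, m5_1 h a b, r4_39 h a b, r5_39 h a b, add_mul, sub_mul, neg_mul, zero_mul, add_zero, zero_add, neg_zero, neg_neg, sub_zero, zero_sub] at t6
  have t7 := h.e3 (w7 a b) (w0 a b) (w2 a b) (w25 a b)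
  simp only [c11_25, m7_0 h a b, m7_2 h a b, m8_2 a b, r7_25 h a b, r8_25 h a b, add_mul, sub_mul, neg_mul, zero_mul, add_zero, zero_add, neg_zero, neg_neg, sub_zero, zero_sub] at t7
  have t8 := h.e3 (w7 a b) (w0 a b) (w2 a b) (w26 a b)
  simp only [c11_26, m7_0 h a b, m7_2 h a b, m8_2 a b, r7_26 h a b, r8_26 h a b, add_mul, sub_mul, neg_mul, zero_mul, add_zero, zero_add, neg_zero, neg_neg, sub_zero, zero_sub] at t8
  have t9 := h.e3 (w7 a b) (w0 a b) (w2 a b) (w27 a b)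
  simp only [c11_27, m7_0 h a b, m7_2 h a b, m8_2 a b, r7_27 h a b, r8_27 h a b, add_mul, sub_mul, neg_mul, zero_mul, add_zero, zero_add, neg_zero, neg_neg, sub_zero, zero_sub] at t9
  have t10 := h.e3 (w7 a b) (w0 a b) (w3 a b) (w21 a b)
  simp only [c13_21, m7_0 h a b, m7_3 h a b, m8_3 a b, r7_21 h a b, r8_21 h a b, add_mul, sub_mul, neg_mul, zero_mul, add_zero, zero_add, neg_zero, neg_neg, sub_zero, zero_sub] at t10
  have t11 := h.e3 (w7 a b) (w0 a b) (w4 a b) (w18 a b)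
  simp only [c15_18, m7_0 h a b, m7_4 h a b, m8_4 a b, r7_18 h a b, r8_18 h a b, add_mul, sub_mul, neg_mul, zero_mul, add_zero, zero_add, neg_zero, neg_neg, sub_zero, zero_sub] at t11
  have t12 := h.e3 (w7 a b) (w0 a b) (w4 a b) (w19 a b)
  simp only [c15_19, m7_0 h a b, m7_4 h a b, m8_4 a b, r7_19 h a b, r8_19 h a b, add_mul, sub_mul, neg_mul, zero_mul, add_zero, zero_add, neg_zero, neg_neg, sub_zero, zero_sub] at t12
  have t13 := h.e3 (w7 a b) (w0 a b) (w4 a b) (w20 a b)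
  simp only [c15_20, m7_0 h a b, m7_4 h a b, m8_4 a b, r7_20 h a b, r8_20 h a b, add_mul, sub_mul, neg_mul, zero_mul, add_zero, zero_add, neg_zero, neg_neg, sub_zero, zero_sub] at t13
  have t14 := h.e3 (w7 a b) (w0 a b) (w5 a b) (w16 a b)
  simp only [m7_0 h a b, m7_5 h a b, m8_5 a b, r7_16 h a b, r8_16 h a b, add_mul, sub_mul, neg_mul, zero_mul, add_zero, zero_add, neg_zero, neg_neg, sub_zero, zero_sub] at t14
  have t15 := h.e2 (w14 a b) (w1 a b) (w12 a b)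
  simp only [m14_1 h a b, m14_12 h a b, m19_1 h a b, m19_12 h a b, add_mul, sub_mul, neg_mul, zero_mul, add_zero, zero_add, neg_zero, neg_neg, sub_zero, zero_sub] at t15
  have t16 := h.e2 (w11 a b) (w1 a b) (w14 a b)
  simp only [m11_1 h a b, m16_1 h a b, m16_14 h a b, r11_14 h a b, add_mul, sub_mul, neg_mul, zero_mul, add_zero, zero_add, neg_zero, neg_neg, sub_zero, zero_sub] at t16
  have t17 := h.e2 (w15 a b) (w2 a b) (w8 a b)
  simp only [m15_2 h a b, m15_8 h a b, m27_2 h a b, m27_8 h a b, add_mul, sub_mul, neg_mul, zero_mul, add_zero, zero_add, neg_zero, neg_neg, sub_zero, zero_sub] at t17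
  have t18 := h.e3 (w5 a b) (w2 a b) (w7 a b) (w12 a b)
  simp only [m32_2 h a b, m32_7 h a b, m5_2 h a b, m8_7 a b, r5_12 h a b, r5_7 h a b, r8_12 h a b, add_mul, sub_mul, neg_mul, zero_mul, add_zero, zero_add, neg_zero, neg_neg, sub_zero, zero_sub] at t18
  have t19 := h.e3 (w14 a b) (w1 a b) (w4 a b) (w8 a b)
  simp only [m14_1 h a b, m14_4 h a b, m14_8 h a b, m19_4 h a b, m19_8 h a b, m30_1 h a b, m30_8 h a b, m31_1 h a b, m31_8 h a b, m32_1 h a b, m32_8 h a b, add_mul, sub_mul, neg_mul, zero_mul, add_zero, zero_add, neg_zero, neg_neg, sub_zero, zero_sub] at t19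
  have t20 := h.e3 (w11 a b) (w0 a b) (w1 a b) (w16 a b)
  simp only [h.sq (w16 a b), m11_0 h a b, m11_1 h a b, m14_1 h a b, m16_0 h a b, r11_16 h a b, r14_16 h a b, add_mul, sub_mul, neg_mul, zero_mul, add_zero, zero_add, neg_zero, neg_neg, sub_zero, zero_sub] at t20
  have t21 := h.e3 (w10 a b) (w0 a b) (w1 a b) (w19 a b)
  simp only [c15_19, c16_19, m10_0 h a b, m10_1 h a b, m12_1 h a b, r10_19 h a b, r12_19 h a b, add_mul, sub_mul, neg_mul, zero_mul, add_zero, zero_add, neg_zero, neg_neg, sub_zero, zero_sub] at t21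
  have t22 := h.e2 (w13 a b) (w1 a b) (w12 a b)
  simp only [m13_1 h a b, m13_12 h a b, m20_1 h a b, m20_12 h a b, add_mul, sub_mul, neg_mul, zero_mul, add_zero, zero_add, neg_zero, neg_neg, sub_zero, zero_sub] at t22
  refine ⟨?_, ?_, ?_, ?_, ?_, ?_, ?_, ?_, ?_, ?_, ?_, ?_, ?_, ?_, ?_, ?_, ?_, ?_, ?_, ?_, ?_, ?_, ?_⟩
  · linear_combination (norm := module) (1 : ℤ) • t11
  · linear_combination (norm := module) (-1 : ℤ) • t14
  · linear_combination (norm := module) (1 : ℤ) • t12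
  · linear_combination (norm := module) (1 : ℤ) • t12 + (-1 : ℤ) • t21
  · linear_combination (norm := module) (1 : ℤ) • t13
  · linear_combination (norm := module) (-1 : ℤ) • t12 + (1 : ℤ) • t20 + (1 : ℤ) • t21
  · linear_combination (norm := module) (1 : ℤ) • t10
  · linear_combination (norm := module) (1 : ℤ) • t16
  · linear_combination (norm := module) (1 : ℤ) • t7
  · linear_combination (norm := module) (-1 : ℤ) • t18
  · linear_combination (norm := module) (1 : ℤ) • t8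
  · linear_combination (norm := module) (1 : ℤ) • t18 + (1 : ℤ) • t22
  · linear_combination (norm := module) (1 : ℤ) • t9
  · linear_combination (norm := module) (-1 : ℤ) • t15
  · linear_combination (norm := module) (1 : ℤ) • t2
  · linear_combination (norm := module) (1 : ℤ) • t3
  · linear_combination (norm := module) (1 : ℤ) • t4
  · linear_combination (norm := module) (1 : ℤ) • t5
  · linear_combination (norm := module) (1 : ℤ) • t0
  · linear_combination (norm := module) (1 : ℤ) • t17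
  · linear_combination (norm := module) (1 : ℤ) • t19
  · linear_combination (norm := module) (-1 : ℤ) • t6
  · linear_combination (norm := module) (-1 : ℤ) • t1
theorem m18_15 (h : Eng A) (a b : A) : w18 a b * w15 a b = 0 := (wt9_10 h a b).1
theorem r15_18 (h : Eng A) (a b : A) : w15 a b * w18 a b = 0 := by
  rw [h.ac, m18_15 h, neg_zero]
theorem m18_16 (h : Eng A) (a b : A) : w18 a b * w16 a b = 0 := (wt9_10 h a b).2.1
theorem r16_18 (h : Eng A) (a b : A) : w16 a b * w18 a b = 0 := by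
  rw [h.ac, m18_16 h, neg_zero]
theorem m19_15 (h : Eng A) (a b : A) : w19 a b * w15 a b = 0 := (wt9_10 h a b).2.2.1
theorem r15_19 (h : Eng A) (a b : A) : w15 a b * w19 a b = 0 := by
  rw [h.ac, m19_15 h, neg_zero]
theorem m19_16 (h : Eng A) (a b : A) : w19 a b * w16 a b = 0 := (wt9_10 h a b).2.2.2.1
theorem r16_19 (h : Eng A) (a b : A) : w16 a b * w19 a b = 0 := by
  rw [h.ac, m19_16 h, neg_zero]
theorem m20_15 (h : Eng A) (a b : A) : w20 a b * w15 a b = 0 := (wt9_10 h a b).2.2.2.2.1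
theorem r15_20 (h : Eng A) (a b : A) : w15 a b * w20 a b = 0 := by
  rw [h.ac, m20_15 h, neg_zero]
theorem m20_16 (h : Eng A) (a b : A) : w20 a b * w16 a b = 0 := (wt9_10 h a b).2.2.2.2.2.1
theorem r16_20 (h : Eng A) (a b : A) : w16 a b * w20 a b = 0 := by
  rw [h.ac, m20_16 h, neg_zero]
theorem m21_13 (h : Eng A) (a b : A) : w21 a b * w13 a b = 0 := (wt9_10 h a b).2.2.2.2.2.2.1
theorem r13_21 (h : Eng A) (a b : A) : w13 a b * w21 a b = 0 := by
  rw [h.ac, m21_13 h, neg_zero]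
theorem m21_14 (h : Eng A) (a b : A) : w21 a b * w14 a b = 0 := (wt9_10 h a b).2.2.2.2.2.2.2.1
theorem r14_21 (h : Eng A) (a b : A) : w14 a b * w21 a b = 0 := by
  rw [h.ac, m21_14 h, neg_zero]
theorem m25_11 (h : Eng A) (a b : A) : w25 a b * w11 a b = 0 := (wt9_10 h a b).2.2.2.2.2.2.2.2.1
theorem r11_25 (h : Eng A) (a b : A) : w11 a b * w25 a b = 0 := by
  rw [h.ac, m25_11 h, neg_zero]
theorem m25_12 (h : Eng A) (a b : A) : w25 a b * w12 a b = 0 := (wt9_10 h a b).2.2.2.2.2.2.2.2.2.1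
theorem r12_25 (h : Eng A) (a b : A) : w12 a b * w25 a b = 0 := by
  rw [h.ac, m25_12 h, neg_zero]
theorem m26_11 (h : Eng A) (a b : A) : w26 a b * w11 a b = 0 := (wt9_10 h a b).2.2.2.2.2.2.2.2.2.2.1
theorem r11_26 (h : Eng A) (a b : A) : w11 a b * w26 a b = 0 := by
  rw [h.ac, m26_11 h, neg_zero]
theorem m26_12 (h : Eng A) (a b : A) : w26 a b * w12 a b = 0 := (wt9_10 h a b).2.2.2.2.2.2.2.2.2.2.2.1
theorem r12_26 (h : Eng A) (a b : A) : w12 a b * w26 a b = 0 := by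
  rw [h.ac, m26_12 h, neg_zero]
theorem m27_11 (h : Eng A) (a b : A) : w27 a b * w11 a b = 0 := (wt9_10 h a b).2.2.2.2.2.2.2.2.2.2.2.2.1
theorem r11_27 (h : Eng A) (a b : A) : w11 a b * w27 a b = 0 := by
  rw [h.ac, m27_11 h, neg_zero]
theorem m27_12 (h : Eng A) (a b : A) : w27 a b * w12 a b = 0 := (wt9_10 h a b).2.2.2.2.2.2.2.2.2.2.2.2.2.1
theorem r12_27 (h : Eng A) (a b : A) : w12 a b * w27 a b = 0 := by
  rw [h.ac, m27_12 h, neg_zero]
theorem m29_10 (h : Eng A) (a b : A) : w29 a b * w10 a b = 0 := (wt9_10 h a b).2.2.2.2.2.2.2.2.2.2.2.2.2.2.1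
theorem r10_29 (h : Eng A) (a b : A) : w10 a b * w29 a b = 0 := by
  rw [h.ac, m29_10 h, neg_zero]
theorem m30_10 (h : Eng A) (a b : A) : w30 a b * w10 a b = 0 := (wt9_10 h a b).2.2.2.2.2.2.2.2.2.2.2.2.2.2.2.1
theorem r10_30 (h : Eng A) (a b : A) : w10 a b * w30 a b = 0 := by
  rw [h.ac, m30_10 h, neg_zero]
theorem m31_10 (h : Eng A) (a b : A) : w31 a b * w10 a b = 0 := (wt9_10 h a b).2.2.2.2.2.2.2.2.2.2.2.2.2.2.2.2.1
theorem r10_31 (h : Eng A) (a b : A) : w10 a b * w31 a b = 0 := by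
  rw [h.ac, m31_10 h, neg_zero]
theorem m32_10 (h : Eng A) (a b : A) : w32 a b * w10 a b = 0 := (wt9_10 h a b).2.2.2.2.2.2.2.2.2.2.2.2.2.2.2.2.2.1
theorem r10_32 (h : Eng A) (a b : A) : w10 a b * w32 a b = 0 := by
  rw [h.ac, m32_10 h, neg_zero]
theorem m33_9 (h : Eng A) (a b : A) : w33 a b * w9 a b = 0 := (wt9_10 h a b).2.2.2.2.2.2.2.2.2.2.2.2.2.2.2.2.2.2.1
theorem r9_33 (h : Eng A) (a b : A) : w9 a b * w33 a b = 0 := by
  rw [h.ac, m33_9 h, neg_zero]
theorem m36_8 (h : Eng A) (a b : A) : w36 a b * w8 a b = 0 := (wt9_10 h a b).2.2.2.2.2.2.2.2.2.2.2.2.2.2.2.2.2.2.2.1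
theorem r8_36 (h : Eng A) (a b : A) : w8 a b * w36 a b = 0 := by
  rw [h.ac, m36_8 h, neg_zero]
theorem m37_8 (h : Eng A) (a b : A) : w37 a b * w8 a b = 0 := (wt9_10 h a b).2.2.2.2.2.2.2.2.2.2.2.2.2.2.2.2.2.2.2.2.1
theorem r8_37 (h : Eng A) (a b : A) : w8 a b * w37 a b = 0 := by
  rw [h.ac, m37_8 h, neg_zero]
theorem m39_7 (h : Eng A) (a b : A) : w39 a b * w7 a b = 0 := (wt9_10 h a b).2.2.2.2.2.2.2.2.2.2.2.2.2.2.2.2.2.2.2.2.2.1
theorem r7_39 (h : Eng A) (a b : A) : w7 a b * w39 a b = 0 := by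
  rw [h.ac, m39_7 h, neg_zero]
theorem m40_6 (h : Eng A) (a b : A) : w40 a b * w6 a b = 0 := (wt9_10 h a b).2.2.2.2.2.2.2.2.2.2.2.2.2.2.2.2.2.2.2.2.2.2
theorem r6_40 (h : Eng A) (a b : A) : w6 a b * w40 a b = 0 := by
  rw [h.ac, m40_6 h, neg_zero]

theorem wt8_11 (h : Eng A) (a b : A) :
    (w21 a b * w15 a b = 0) ∧
    (w21 a b * w16 a b = 0) ∧
    (w33 a b * w10 a b = 0) ∧
    (w40 a b * w7 a b = 0) := by
  have c15_21 : w15 a b * w21 a b = -(w21 a b * w15 a b) := h.ac _ _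
  have c16_21 : w16 a b * w21 a b = -(w21 a b * w16 a b) := h.ac _ _
  have c10_33 : w10 a b * w33 a b = -(w33 a b * w10 a b) := h.ac _ _
  have c7_40 : w7 a b * w40 a b = -(w40 a b * w7 a b) := h.ac _ _
  have t0 := h.e3 (w7 a b) (w0 a b) (w1 a b) (w33 a b)
  simp only [c10_33, m7_0 h a b, m7_1 h a b, m8_1 a b, r7_33 h a b, r8_33 h a b, add_mul, sub_mul, neg_mul, zero_mul, add_zero, zero_add, neg_zero, neg_neg, sub_zero, zero_sub] at t0
  have t1 := h.e3 (w4 a b) (w0 a b) (w1 a b) (w40 a b)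
  simp only [c7_40, m4_0 h a b, m4_1 h a b, m5_1 h a b, r4_40 h a b, r5_40 h a b, add_mul, sub_mul, neg_mul, zero_mul, add_zero, zero_add, neg_zero, neg_neg, sub_zero, zero_sub] at t1
  have t2 := h.e3 (w7 a b) (w0 a b) (w4 a b) (w21 a b)
  simp only [c15_21, m7_0 h a b, m7_4 h a b, m8_4 a b, r7_21 h a b, r8_21 h a b, add_mul, sub_mul, neg_mul, zero_mul, add_zero, zero_add, neg_zero, neg_neg, sub_zero, zero_sub] at t2
  have t3 := h.e2 (w11 a b) (w1 a b) (w16 a b)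
  simp only [h.sq (w16 a b), m11_1 h a b, m16_1 h a b, r11_16 h a b, add_mul, sub_mul, neg_mul, zero_mul, add_zero, zero_add, neg_zero, neg_neg, sub_zero, zero_sub] at t3
  refine ⟨?_, ?_, ?_, ?_⟩
  · linear_combination (norm := module) (1 : ℤ) • t2
  · linear_combination (norm := module) (1 : ℤ) • t3
  · linear_combination (norm := module) (1 : ℤ) • t0
  · linear_combination (norm := module) (-1 : ℤ) • t1
theorem m21_15 (h : Eng A) (a b : A) : w21 a b * w15 a b = 0 := (wt8_11 h a b).1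
theorem r15_21 (h : Eng A) (a b : A) : w15 a b * w21 a b = 0 := by
  rw [h.ac, m21_15 h, neg_zero]
theorem m21_16 (h : Eng A) (a b : A) : w21 a b * w16 a b = 0 := (wt8_11 h a b).2.1
theorem r16_21 (h : Eng A) (a b : A) : w16 a b * w21 a b = 0 := by
  rw [h.ac, m21_16 h, neg_zero]
theorem m33_10 (h : Eng A) (a b : A) : w33 a b * w10 a b = 0 := (wt8_11 h a b).2.2.1
theorem r10_33 (h : Eng A) (a b : A) : w10 a b * w33 a b = 0 := by
  rw [h.ac, m33_10 h, neg_zero]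
theorem m40_7 (h : Eng A) (a b : A) : w40 a b * w7 a b = 0 := (wt8_11 h a b).2.2.2
theorem r7_40 (h : Eng A) (a b : A) : w7 a b * w40 a b = 0 := by
  rw [h.ac, m40_7 h, neg_zero]

end Pool.Agent.H461R3.E3
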