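import Pool.Agent.H461R3.E3.D19

set_option autoImplicit false
set_option linter.all false
set_option linter.unusedSimpArgs false
set_option linter.unusedVariables false

namespace Pool.Agent.H461R3.E3

universe u

variable {A : Type u} [NonUnitalNonAssocRing A]

theorem wt11_9 (h : Eng A) (a b : A) :
    (w18 a b * w17 a b = 0) ∧
    (w19 a b * w17 a b = 0) ∧
    (w20 a b * w17 a b = 0) ∧
    (w22 a b * w13 a b = 0) ∧
    (w22 a b * w14 a b = 0) ∧
    (w23 a b * w13 a b = 0) ∧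
    (w23 a b * w14 a b = 0) ∧
    (w24 a b * w13 a b = 0) ∧
    (w24 a b * w14 a b = 0) ∧
    (w28 a b * w11 a b = 0) ∧
    (w28 a b * w12 a b = 0) ∧
    (w34 a b * w9 a b = 0) ∧
    (w35 a b * w9 a b = 0) ∧
    (w38 a b * w8 a b = 0) := by
  have c17_18 : w17 a b * w18 a b = -(w18 a b * w17 a b) := h.ac _ _
  have c17_19 : w17 a b * w19 a b = -(w19 a b * w17 a b) := h.ac _ _
  have c17_20 : w17 a b * w20 a b = -(w20 a b * w17 a b) := h.ac _ _
  have c13_22 : w13 a b * w22 a b = -(w22 a b * w13 a b) := h.ac _ _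
  have c14_22 : w14 a b * w22 a b = -(w22 a b * w14 a b) := h.ac _ _
  have c13_23 : w13 a b * w23 a b = -(w23 a b * w13 a b) := h.ac _ _
  have c14_23 : w14 a b * w23 a b = -(w23 a b * w14 a b) := h.ac _ _
  have c13_24 : w13 a b * w24 a b = -(w24 a b * w13 a b) := h.ac _ _
  have c14_24 : w14 a b * w24 a b = -(w24 a b * w14 a b) := h.ac _ _
  have c11_28 : w11 a b * w28 a b = -(w28 a b * w11 a b) := h.ac _ _
  have c12_28 : w12 a b * w28 a b = -(w28 a b * w12 a b) := h.ac _ _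
  have c9_34 : w9 a b * w34 a b = -(w34 a b * w9 a b) := h.ac _ _
  have c9_35 : w9 a b * w35 a b = -(w35 a b * w9 a b) := h.ac _ _
  have c8_38 : w8 a b * w38 a b = -(w38 a b * w8 a b) := h.ac _ _
  have t0 := h.e2 (w31 a b) (w0 a b) (w8 a b)
  simp only [m31_0 h a b, m31_8 h a b, m35_0 h a b, m35_8 h a b, add_mul, sub_mul, neg_mul, zero_mul, add_zero, zero_add, neg_zero, neg_neg, sub_zero, zero_sub] at t0
  have t1 := h.e2 (w18 a b) (w0 a b) (w11 a b)
  simp only [m18_0 h a b, m18_11 h a b, m23_0 h a b, m23_11 h a b, add_mul, sub_mul, neg_mul, zero_mul, add_zero, zero_add, neg_zero, neg_neg, sub_zero, zero_sub] at t1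
  have t2 := h.e2 (w18 a b) (w0 a b) (w12 a b)
  simp only [m18_0 h a b, m18_12 h a b, m23_0 h a b, m23_12 h a b, add_mul, sub_mul, neg_mul, zero_mul, add_zero, zero_add, neg_zero, neg_neg, sub_zero, zero_sub] at t2
  have t3 := h.e2 (w16 a b) (w0 a b) (w13 a b)
  simp only [m16_0 h a b, m16_13 h a b, m20_0 h a b, m20_13 h a b, add_mul, sub_mul, neg_mul, zero_mul, add_zero, zero_add, neg_zero, neg_neg, sub_zero, zero_sub] at t3
  have t4 := h.e2 (w16 a b) (w0 a b) (w14 a b)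
  simp only [m16_0 h a b, m16_14 h a b, m20_0 h a b, m20_14 h a b, add_mul, sub_mul, neg_mul, zero_mul, add_zero, zero_add, neg_zero, neg_neg, sub_zero, zero_sub] at t4
  have t5 := h.e2 (w11 a b) (w0 a b) (w18 a b)
  simp only [c17_18, m11_0 h a b, m14_0 h a b, r11_18 h a b, r14_18 h a b, add_mul, sub_mul, neg_mul, zero_mul, add_zero, zero_add, neg_zero, neg_neg, sub_zero, zero_sub] at t5
  have t6 := h.e2 (w11 a b) (w0 a b) (w19 a b)
  simp only [c17_19, m11_0 h a b, m14_0 h a b, r11_19 h a b, r14_19 h a b, add_mul, sub_mul, neg_mul, zero_mul, add_zero, zero_add, neg_zero, neg_neg, sub_zero, zero_sub] at t6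
  have t7 := h.e2 (w11 a b) (w0 a b) (w20 a b)
  simp only [c17_20, m11_0 h a b, m14_0 h a b, r11_20 h a b, r14_20 h a b, add_mul, sub_mul, neg_mul, zero_mul, add_zero, zero_add, neg_zero, neg_neg, sub_zero, zero_sub] at t7
  have t8 := h.e2 (w7 a b) (w0 a b) (w34 a b)
  simp only [c9_34, m7_0 h a b, m8_0 a b, r7_34 h a b, r8_34 h a b, add_mul, sub_mul, neg_mul, zero_mul, add_zero, zero_add, neg_zero, neg_neg, sub_zero, zero_sub] at t8
  have t9 := h.e2 (w7 a b) (w0 a b) (w35 a b)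
  simp only [c9_35, m7_0 h a b, m8_0 a b, r7_35 h a b, r8_35 h a b, add_mul, sub_mul, neg_mul, zero_mul, add_zero, zero_add, neg_zero, neg_neg, sub_zero, zero_sub] at t9
  have t10 := h.e3 (w7 a b) (w0 a b) (w3 a b) (w22 a b)
  simp only [c13_22, m7_0 h a b, m7_3 h a b, m8_3 a b, r7_22 h a b, r8_22 h a b, add_mul, sub_mul, neg_mul, zero_mul, add_zero, zero_add, neg_zero, neg_neg, sub_zero, zero_sub] at t10
  have t11 := h.e3 (w7 a b) (w0 a b) (w3 a b) (w23 a b)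
  simp only [c13_23, m7_0 h a b, m7_3 h a b, m8_3 a b, r7_23 h a b, r8_23 h a b, add_mul, sub_mul, neg_mul, zero_mul, add_zero, zero_add, neg_zero, neg_neg, sub_zero, zero_sub] at t11
  have t12 := h.e3 (w7 a b) (w0 a b) (w6 a b) (w14 a b)
  simp only [m7_0 h a b, m7_6 h a b, m8_6 a b, r7_14 h a b, r8_14 h a b, add_mul, sub_mul, neg_mul, zero_mul, add_zero, zero_add, neg_zero, neg_neg, sub_zero, zero_sub] at t12
  have t13 := h.e3 (w0 a b) (w3 a b) (w10 a b) (w14 a b)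
  simp only [m12_3 h a b, m17_10 h a b, m17_3 h a b, r0_10 h a b, r0_14 h a b, r0_3 h a b, r12_14 h a b, add_mul, sub_mul, neg_mul, zero_mul, add_zero, zero_add, neg_zero, neg_neg, sub_zero, zero_sub] at t13
  refine ⟨?_, ?_, ?_, ?_, ?_, ?_, ?_, ?_, ?_, ?_, ?_, ?_, ?_, ?_⟩
  · linear_combination (norm := module) (-1 : ℤ) • t5
  · linear_combination (norm := module) (-1 : ℤ) • t6
  · linear_combination (norm := module) (-1 : ℤ) • t7
  · linear_combination (norm := module) (1 : ℤ) • t10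
  · linear_combination (norm := module) (-1 : ℤ) • t12
  · linear_combination (norm := module) (1 : ℤ) • t11
  · linear_combination (norm := module) (1 : ℤ) • t13
  · linear_combination (norm := module) (1 : ℤ) • t3
  · linear_combination (norm := module) (1 : ℤ) • t4
  · linear_combination (norm := module) (-1 : ℤ) • t1
  · linear_combination (norm := module) (-1 : ℤ) • t2
  · linear_combination (norm := module) (1 : ℤ) • t8
  · linear_combination (norm := module) (1 : ℤ) • t9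
  · linear_combination (norm := module) (-1 : ℤ) • t0
theorem m18_17 (h : Eng A) (a b : A) : w18 a b * w17 a b = 0 := (wt11_9 h a b).1
theorem r17_18 (h : Eng A) (a b : A) : w17 a b * w18 a b = 0 := by
  rw [h.ac, m18_17 h, neg_zero]
theorem m19_17 (h : Eng A) (a b : A) : w19 a b * w17 a b = 0 := (wt11_9 h a b).2.1
theorem r17_19 (h : Eng A) (a b : A) : w17 a b * w19 a b = 0 := by
  rw [h.ac, m19_17 h, neg_zero]
theorem m20_17 (h : Eng A) (a b : A) : w20 a b * w17 a b = 0 := (wt11_9 h a b).2.2.1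
theorem r17_20 (h : Eng A) (a b : A) : w17 a b * w20 a b = 0 := by
  rw [h.ac, m20_17 h, neg_zero]
theorem m22_13 (h : Eng A) (a b : A) : w22 a b * w13 a b = 0 := (wt11_9 h a b).2.2.2.1
theorem r13_22 (h : Eng A) (a b : A) : w13 a b * w22 a b = 0 := by
  rw [h.ac, m22_13 h, neg_zero]
theorem m22_14 (h : Eng A) (a b : A) : w22 a b * w14 a b = 0 := (wt11_9 h a b).2.2.2.2.1
theorem r14_22 (h : Eng A) (a b : A) : w14 a b * w22 a b = 0 := by
  rw [h.ac, m22_14 h, neg_zero]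
theorem m23_13 (h : Eng A) (a b : A) : w23 a b * w13 a b = 0 := (wt11_9 h a b).2.2.2.2.2.1
theorem r13_23 (h : Eng A) (a b : A) : w13 a b * w23 a b = 0 := by
  rw [h.ac, m23_13 h, neg_zero]
theorem m23_14 (h : Eng A) (a b : A) : w23 a b * w14 a b = 0 := (wt11_9 h a b).2.2.2.2.2.2.1
theorem r14_23 (h : Eng A) (a b : A) : w14 a b * w23 a b = 0 := by
  rw [h.ac, m23_14 h, neg_zero]
theorem m24_13 (h : Eng A) (a b : A) : w24 a b * w13 a b = 0 := (wt11_9 h a b).2.2.2.2.2.2.2.1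
theorem r13_24 (h : Eng A) (a b : A) : w13 a b * w24 a b = 0 := by
  rw [h.ac, m24_13 h, neg_zero]
theorem m24_14 (h : Eng A) (a b : A) : w24 a b * w14 a b = 0 := (wt11_9 h a b).2.2.2.2.2.2.2.2.1
theorem r14_24 (h : Eng A) (a b : A) : w14 a b * w24 a b = 0 := by
  rw [h.ac, m24_14 h, neg_zero]
theorem m28_11 (h : Eng A) (a b : A) : w28 a b * w11 a b = 0 := (wt11_9 h a b).2.2.2.2.2.2.2.2.2.1
theorem r11_28 (h : Eng A) (a b : A) : w11 a b * w28 a b = 0 := by
  rw [h.ac, m28_11 h, neg_zero]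
theorem m28_12 (h : Eng A) (a b : A) : w28 a b * w12 a b = 0 := (wt11_9 h a b).2.2.2.2.2.2.2.2.2.2.1
theorem r12_28 (h : Eng A) (a b : A) : w12 a b * w28 a b = 0 := by
  rw [h.ac, m28_12 h, neg_zero]
theorem m34_9 (h : Eng A) (a b : A) : w34 a b * w9 a b = 0 := (wt11_9 h a b).2.2.2.2.2.2.2.2.2.2.2.1
theorem r9_34 (h : Eng A) (a b : A) : w9 a b * w34 a b = 0 := by
  rw [h.ac, m34_9 h, neg_zero]
theorem m35_9 (h : Eng A) (a b : A) : w35 a b * w9 a b = 0 := (wt11_9 h a b).2.2.2.2.2.2.2.2.2.2.2.2.1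
theorem r9_35 (h : Eng A) (a b : A) : w9 a b * w35 a b = 0 := by
  rw [h.ac, m35_9 h, neg_zero]
theorem m38_8 (h : Eng A) (a b : A) : w38 a b * w8 a b = 0 := (wt11_9 h a b).2.2.2.2.2.2.2.2.2.2.2.2.2
theorem r8_38 (h : Eng A) (a b : A) : w8 a b * w38 a b = 0 := by
  rw [h.ac, m38_8 h, neg_zero]

theorem wt10_10 (h : Eng A) (a b : A) :
    (w19 a b * w18 a b = 0) ∧
    (w20 a b * w18 a b = 0) ∧
    (w20 a b * w19 a b = 0) ∧
    (w21 a b * w17 a b = 0) ∧
    (w22 a b * w15 a b = 0) ∧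
    (w22 a b * w16 a b = 0) ∧
    (w23 a b * w15 a b = 0) ∧
    (w23 a b * w16 a b = 0) ∧
    (w24 a b * w15 a b = 0) ∧
    (w24 a b * w16 a b = 0) ∧
    (w25 a b * w13 a b = 0) ∧
    (w25 a b * w14 a b = 0) ∧
    (w26 a b * w13 a b = 0) ∧
    (w26 a b * w14 a b = 0) ∧
    (w27 a b * w13 a b = 0) ∧
    (w27 a b * w14 a b = 0) ∧
    (w29 a b * w11 a b = 0) ∧
    (w29 a b * w12 a b = 0) ∧
    (w30 a b * w11 a b = 0) ∧
    (w30 a b * w12 a b = 0) ∧
    (w31 a b * w11 a b = 0) ∧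
    (w31 a b * w12 a b = 0) ∧
    (w32 a b * w11 a b = 0) ∧
    (w32 a b * w12 a b = 0) ∧
    (w34 a b * w10 a b = 0) ∧
    (w35 a b * w10 a b = 0) ∧
    (w36 a b * w9 a b = 0) ∧
    (w37 a b * w9 a b = 0) ∧
    (w39 a b * w8 a b = 0) := by
  have c18_19 : w18 a b * w19 a b = -(w19 a b * w18 a b) := h.ac _ _
  have c18_20 : w18 a b * w20 a b = -(w20 a b * w18 a b) := h.ac _ _
  have c19_20 : w19 a b * w20 a b = -(w20 a b * w19 a b) := h.ac _ _
  have c17_21 : w17 a b * w21 a b = -(w21 a b * w17 a b) := h.ac _ _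
  have c15_22 : w15 a b * w22 a b = -(w22 a b * w15 a b) := h.ac _ _
  have c16_22 : w16 a b * w22 a b = -(w22 a b * w16 a b) := h.ac _ _
  have c15_23 : w15 a b * w23 a b = -(w23 a b * w15 a b) := h.ac _ _
  have c16_23 : w16 a b * w23 a b = -(w23 a b * w16 a b) := h.ac _ _
  have c15_24 : w15 a b * w24 a b = -(w24 a b * w15 a b) := h.ac _ _
  have c16_24 : w16 a b * w24 a b = -(w24 a b * w16 a b) := h.ac _ _
  have c13_25 : w13 a b * w25 a b = -(w25 a b * w13 a b) := h.ac _ _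
  have c14_25 : w14 a b * w25 a b = -(w25 a b * w14 a b) := h.ac _ _
  have c13_26 : w13 a b * w26 a b = -(w26 a b * w13 a b) := h.ac _ _
  have c14_26 : w14 a b * w26 a b = -(w26 a b * w14 a b) := h.ac _ _
  have c13_27 : w13 a b * w27 a b = -(w27 a b * w13 a b) := h.ac _ _
  have c14_27 : w14 a b * w27 a b = -(w27 a b * w14 a b) := h.ac _ _
  have c11_29 : w11 a b * w29 a b = -(w29 a b * w11 a b) := h.ac _ _
  have c12_29 : w12 a b * w29 a b = -(w29 a b * w12 a b) := h.ac _ _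
  have c11_30 : w11 a b * w30 a b = -(w30 a b * w11 a b) := h.ac _ _
  have c12_30 : w12 a b * w30 a b = -(w30 a b * w12 a b) := h.ac _ _
  have c11_31 : w11 a b * w31 a b = -(w31 a b * w11 a b) := h.ac _ _
  have c12_31 : w12 a b * w31 a b = -(w31 a b * w12 a b) := h.ac _ _
  have c11_32 : w11 a b * w32 a b = -(w32 a b * w11 a b) := h.ac _ _
  have c12_32 : w12 a b * w32 a b = -(w32 a b * w12 a b) := h.ac _ _
  have c10_34 : w10 a b * w34 a b = -(w34 a b * w10 a b) := h.ac _ _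
  have c10_35 : w10 a b * w35 a b = -(w35 a b * w10 a b) := h.ac _ _
  have c9_36 : w9 a b * w36 a b = -(w36 a b * w9 a b) := h.ac _ _
  have c9_37 : w9 a b * w37 a b = -(w37 a b * w9 a b) := h.ac _ _
  have c8_39 : w8 a b * w39 a b = -(w39 a b * w8 a b) := h.ac _ _
  have t0 := h.e2 (w16 a b) (w0 a b) (w15 a b)
  simp only [m16_0 h a b, m16_15 h a b, m20_0 h a b, m20_15 h a b, add_mul, sub_mul, neg_mul, zero_mul, add_zero, zero_add, neg_zero, neg_neg, sub_zero, zero_sub] at t0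
  have t1 := h.e2 (w16 a b) (w0 a b) (w16 a b)
  simp only [h.sq (w16 a b), m16_0 h a b, m20_0 h a b, m20_16 h a b, add_mul, sub_mul, neg_mul, zero_mul, add_zero, zero_add, neg_zero, neg_neg, sub_zero, zero_sub] at t1
  have t2 := h.e2 (w11 a b) (w0 a b) (w21 a b)
  simp only [c17_21, m11_0 h a b, m14_0 h a b, r11_21 h a b, r14_21 h a b, add_mul, sub_mul, neg_mul, zero_mul, add_zero, zero_add, neg_zero, neg_neg, sub_zero, zero_sub] at t2
  have t3 := h.e2 (w7 a b) (w0 a b) (w36 a b)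
  simp only [c9_36, m7_0 h a b, m8_0 a b, r7_36 h a b, r8_36 h a b, add_mul, sub_mul, neg_mul, zero_mul, add_zero, zero_add, neg_zero, neg_neg, sub_zero, zero_sub] at t3
  have t4 := h.e2 (w7 a b) (w0 a b) (w37 a b)
  simp only [c9_37, m7_0 h a b, m8_0 a b, r7_37 h a b, r8_37 h a b, add_mul, sub_mul, neg_mul, zero_mul, add_zero, zero_add, neg_zero, neg_neg, sub_zero, zero_sub] at t4
  have t5 := h.e3 (w7 a b) (w0 a b) (w1 a b) (w34 a b)
  simp only [c10_34, m7_0 h a b, m7_1 h a b, m8_1 a b, r7_34 h a b, r8_34 h a b, add_mul, sub_mul, neg_mul, zero_mul, add_zero, zero_add, neg_zero, neg_neg, sub_zero, zero_sub] at t5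
  have t6 := h.e3 (w7 a b) (w0 a b) (w1 a b) (w35 a b)
  simp only [c10_35, m7_0 h a b, m7_1 h a b, m8_1 a b, r7_35 h a b, r8_35 h a b, add_mul, sub_mul, neg_mul, zero_mul, add_zero, zero_add, neg_zero, neg_neg, sub_zero, zero_sub] at t6
  have t7 := h.e3 (w7 a b) (w0 a b) (w2 a b) (w29 a b)
  simp only [c11_29, m7_0 h a b, m7_2 h a b, m8_2 a b, r7_29 h a b, r8_29 h a b, add_mul, sub_mul, neg_mul, zero_mul, add_zero, zero_add, neg_zero, neg_neg, sub_zero, zero_sub] at t7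
  have t8 := h.e3 (w7 a b) (w0 a b) (w2 a b) (w30 a b)
  simp only [c11_30, m7_0 h a b, m7_2 h a b, m8_2 a b, r7_30 h a b, r8_30 h a b, add_mul, sub_mul, neg_mul, zero_mul, add_zero, zero_add, neg_zero, neg_neg, sub_zero, zero_sub] at t8
  have t9 := h.e3 (w7 a b) (w0 a b) (w2 a b) (w31 a b)
  simp only [c11_31, m7_0 h a b, m7_2 h a b, m8_2 a b, r7_31 h a b, r8_31 h a b, add_mul, sub_mul, neg_mul, zero_mul, add_zero, zero_add, neg_zero, neg_neg, sub_zero, zero_sub] at t9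
  have t10 := h.e3 (w7 a b) (w0 a b) (w2 a b) (w32 a b)
  simp only [c11_32, m7_0 h a b, m7_2 h a b, m8_2 a b, r7_32 h a b, r8_32 h a b, add_mul, sub_mul, neg_mul, zero_mul, add_zero, zero_add, neg_zero, neg_neg, sub_zero, zero_sub] at t10
  have t11 := h.e3 (w7 a b) (w0 a b) (w3 a b) (w25 a b)
  simp only [c13_25, m7_0 h a b, m7_3 h a b, m8_3 a b, r7_25 h a b, r8_25 h a b, add_mul, sub_mul, neg_mul, zero_mul, add_zero, zero_add, neg_zero, neg_neg, sub_zero, zero_sub] at t11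
  have t12 := h.e3 (w7 a b) (w0 a b) (w3 a b) (w26 a b)
  simp only [c13_26, m7_0 h a b, m7_3 h a b, m8_3 a b, r7_26 h a b, r8_26 h a b, add_mul, sub_mul, neg_mul, zero_mul, add_zero, zero_add, neg_zero, neg_neg, sub_zero, zero_sub] at t12
  have t13 := h.e3 (w7 a b) (w0 a b) (w3 a b) (w27 a b)
  simp only [c13_27, m7_0 h a b, m7_3 h a b, m8_3 a b, r7_27 h a b, r8_27 h a b, add_mul, sub_mul, neg_mul, zero_mul, add_zero, zero_add, neg_zero, neg_neg, sub_zero, zero_sub] at t13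
  have t14 := h.e3 (w7 a b) (w0 a b) (w4 a b) (w22 a b)
  simp only [c15_22, m7_0 h a b, m7_4 h a b, m8_4 a b, r7_22 h a b, r8_22 h a b, add_mul, sub_mul, neg_mul, zero_mul, add_zero, zero_add, neg_zero, neg_neg, sub_zero, zero_sub] at t14
  have t15 := h.e3 (w7 a b) (w0 a b) (w4 a b) (w23 a b)
  simp only [c15_23, m7_0 h a b, m7_4 h a b, m8_4 a b, r7_23 h a b, r8_23 h a b, add_mul, sub_mul, neg_mul, zero_mul, add_zero, zero_add, neg_zero, neg_neg, sub_zero, zero_sub] at t15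
  have t16 := h.e3 (w7 a b) (w0 a b) (w5 a b) (w19 a b)
  simp only [c18_19, m7_0 h a b, m7_5 h a b, m8_5 a b, r7_19 h a b, r8_19 h a b, add_mul, sub_mul, neg_mul, zero_mul, add_zero, zero_add, neg_zero, neg_neg, sub_zero, zero_sub] at t16
  have t17 := h.e3 (w7 a b) (w0 a b) (w5 a b) (w20 a b)
  simp only [c18_20, m7_0 h a b, m7_5 h a b, m8_5 a b, r7_20 h a b, r8_20 h a b, add_mul, sub_mul, neg_mul, zero_mul, add_zero, zero_add, neg_zero, neg_neg, sub_zero, zero_sub] at t17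
  have t18 := h.e3 (w7 a b) (w0 a b) (w6 a b) (w16 a b)
  simp only [m7_0 h a b, m7_6 h a b, m8_6 a b, r7_16 h a b, r8_16 h a b, add_mul, sub_mul, neg_mul, zero_mul, add_zero, zero_add, neg_zero, neg_neg, sub_zero, zero_sub] at t18
  have t19 := h.e3 (w11 a b) (w0 a b) (w7 a b) (w8 a b)
  simp only [m11_0 h a b, m11_7 a b, m11_8 h a b, m14_7 h a b, m14_8 h a b, m36_0 h a b, m36_8 h a b, add_mul, sub_mul, neg_mul, zero_mul, add_zero, zero_add, neg_zero, neg_neg, sub_zero, zero_sub] at t19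
  have t20 := h.e3 (w7 a b) (w0 a b) (w7 a b) (w14 a b)
  simp only [h.sq (w7 a b), m7_0 h a b, m8_7 a b, r7_14 h a b, r8_14 h a b, add_mul, sub_mul, neg_mul, zero_mul, add_zero, zero_add, neg_zero, neg_neg, sub_zero, zero_sub] at t20
  have t21 := h.e2 (w14 a b) (w1 a b) (w14 a b)
  simp only [h.sq (w14 a b), m14_1 h a b, m19_1 h a b, m19_14 h a b, add_mul, sub_mul, neg_mul, zero_mul, add_zero, zero_add, neg_zero, neg_neg, sub_zero, zero_sub] at t21
  have t22 := h.e3 (w5 a b) (w2 a b) (w8 a b) (w12 a b)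
  simp only [h.sq (w8 a b), m18_12 h a b, m18_2 h a b, m32_2 h a b, m32_8 h a b, m5_2 h a b, r5_12 h a b, r5_8 h a b, r8_12 h a b, add_mul, sub_mul, neg_mul, zero_mul, add_zero, zero_add, neg_zero, neg_neg, sub_zero, zero_sub] at t22
  have t23 := h.e3 (w11 a b) (w0 a b) (w1 a b) (w19 a b)
  simp only [h.sq (w19 a b), m11_0 h a b, m11_1 h a b, m14_1 h a b, m16_0 h a b, r11_19 h a b, r14_19 h a b, r16_19 h a b, add_mul, sub_mul, neg_mul, zero_mul, add_zero, zero_add, neg_zero, neg_neg, sub_zero, zero_sub] at t23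
  have t24 := h.e2 (w15 a b) (w0 a b) (w16 a b)
  simp only [m15_0 h a b, m19_0 h a b, m19_16 h a b, r15_16 h a b, add_mul, sub_mul, neg_mul, zero_mul, add_zero, zero_add, neg_zero, neg_neg, sub_zero, zero_sub] at t24
  have t25 := h.e2 (w10 a b) (w0 a b) (w26 a b)
  simp only [c13_26, c14_26, m10_0 h a b, m12_0 h a b, r10_26 h a b, r12_26 h a b, add_mul, sub_mul, neg_mul, zero_mul, add_zero, zero_add, neg_zero, neg_neg, sub_zero, zero_sub] at t25
  have t26 := h.e3 (w7 a b) (w0 a b) (w8 a b) (w12 a b)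
  simp only [h.sq (w8 a b), m25_0 h a b, m25_12 h a b, m37_0 h a b, m37_8 h a b, m7_0 h a b, r7_12 h a b, r7_8 h a b, r8_12 h a b, add_mul, sub_mul, neg_mul, zero_mul, add_zero, zero_add, neg_zero, neg_neg, sub_zero, zero_sub] at t26
  have t27 := h.e3 (w6 a b) (w1 a b) (w8 a b) (w12 a b)
  simp only [h.sq (w8 a b), m22_1 h a b, m22_12 h a b, m35_1 h a b, m35_8 h a b, m6_1 h a b, r6_12 h a b, r6_8 h a b, r8_12 h a b, add_mul, sub_mul, neg_mul, zero_mul, add_zero, zero_add, neg_zero, neg_neg, sub_zero, zero_sub] at t27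
  have t28 := h.e3 (w4 a b) (w3 a b) (w8 a b) (w12 a b)
  simp only [h.sq (w8 a b), m15_12 h a b, m15_3 h a b, m26_3 h a b, m26_8 h a b, m4_3 a b, r4_12 h a b, r4_8 h a b, r8_12 h a b, add_mul, sub_mul, neg_mul, zero_mul, add_zero, zero_add, neg_zero, neg_neg, sub_zero, zero_sub] at t28
  refine ⟨?_, ?_, ?_, ?_, ?_, ?_, ?_, ?_, ?_, ?_, ?_, ?_, ?_, ?_, ?_, ?_, ?_, ?_, ?_, ?_, ?_, ?_, ?_, ?_, ?_, ?_, ?_, ?_, ?_⟩
  · linear_combination (norm := module) (1 : ℤ) • t16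
  · linear_combination (norm := module) (1 : ℤ) • t17
  · linear_combination (norm := module) (1 : ℤ) • t23
  · linear_combination (norm := module) (-1 : ℤ) • t2
  · linear_combination (norm := module) (1 : ℤ) • t14
  · linear_combination (norm := module) (-1 : ℤ) • t18
  · linear_combination (norm := module) (1 : ℤ) • t15
  · linear_combination (norm := module) (1 : ℤ) • t18 + (-1 : ℤ) • t24
  · linear_combination (norm := module) (1 : ℤ) • t0
  · linear_combination (norm := module) (1 : ℤ) • t1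
  · linear_combination (norm := module) (1 : ℤ) • t11
  · linear_combination (norm := module) (-1 : ℤ) • t20
  · linear_combination (norm := module) (1 : ℤ) • t12
  · linear_combination (norm := module) (1 : ℤ) • t12 + (-1 : ℤ) • t25
  · linear_combination (norm := module) (1 : ℤ) • t13
  · linear_combination (norm := module) (-1 : ℤ) • t21
  · linear_combination (norm := module) (1 : ℤ) • t7
  · linear_combination (norm := module) (1 : ℤ) • t19 + (1 : ℤ) • t26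
  · linear_combination (norm := module) (1 : ℤ) • t8
  · linear_combination (norm := module) (1 : ℤ) • t19 + (1 : ℤ) • t27
  · linear_combination (norm := module) (1 : ℤ) • t9
  · linear_combination (norm := module) (1 : ℤ) • t22
  · linear_combination (norm := module) (1 : ℤ) • t10
  · linear_combination (norm := module) (1 : ℤ) • t22 + (-1 : ℤ) • t28
  · linear_combination (norm := module) (1 : ℤ) • t5
  · linear_combination (norm := module) (1 : ℤ) • t6
  · linear_combination (norm := module) (1 : ℤ) • t3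
  · linear_combination (norm := module) (1 : ℤ) • t4
  · linear_combination (norm := module) (-1 : ℤ) • t19
theorem m19_18 (h : Eng A) (a b : A) : w19 a b * w18 a b = 0 := (wt10_10 h a b).1
theorem r18_19 (h : Eng A) (a b : A) : w18 a b * w19 a b = 0 := by
  rw [h.ac, m19_18 h, neg_zero]
theorem m20_18 (h : Eng A) (a b : A) : w20 a b * w18 a b = 0 := (wt10_10 h a b).2.1
theorem r18_20 (h : Eng A) (a b : A) : w18 a b * w20 a b = 0 := by
  rw [h.ac, m20_18 h, neg_zero]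
theorem m20_19 (h : Eng A) (a b : A) : w20 a b * w19 a b = 0 := (wt10_10 h a b).2.2.1
theorem r19_20 (h : Eng A) (a b : A) : w19 a b * w20 a b = 0 := by
  rw [h.ac, m20_19 h, neg_zero]
theorem m21_17 (h : Eng A) (a b : A) : w21 a b * w17 a b = 0 := (wt10_10 h a b).2.2.2.1
theorem r17_21 (h : Eng A) (a b : A) : w17 a b * w21 a b = 0 := by
  rw [h.ac, m21_17 h, neg_zero]
theorem m22_15 (h : Eng A) (a b : A) : w22 a b * w15 a b = 0 := (wt10_10 h a b).2.2.2.2.1
theorem r15_22 (h : Eng A) (a b : A) : w15 a b * w22 a b = 0 := by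
  rw [h.ac, m22_15 h, neg_zero]
theorem m22_16 (h : Eng A) (a b : A) : w22 a b * w16 a b = 0 := (wt10_10 h a b).2.2.2.2.2.1
theorem r16_22 (h : Eng A) (a b : A) : w16 a b * w22 a b = 0 := by
  rw [h.ac, m22_16 h, neg_zero]
theorem m23_15 (h : Eng A) (a b : A) : w23 a b * w15 a b = 0 := (wt10_10 h a b).2.2.2.2.2.2.1
theorem r15_23 (h : Eng A) (a b : A) : w15 a b * w23 a b = 0 := by
  rw [h.ac, m23_15 h, neg_zero]
theorem m23_16 (h : Eng A) (a b : A) : w23 a b * w16 a b = 0 := (wt10_10 h a b).2.2.2.2.2.2.2.1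
theorem r16_23 (h : Eng A) (a b : A) : w16 a b * w23 a b = 0 := by
  rw [h.ac, m23_16 h, neg_zero]
theorem m24_15 (h : Eng A) (a b : A) : w24 a b * w15 a b = 0 := (wt10_10 h a b).2.2.2.2.2.2.2.2.1
theorem r15_24 (h : Eng A) (a b : A) : w15 a b * w24 a b = 0 := by
  rw [h.ac, m24_15 h, neg_zero]
theorem m24_16 (h : Eng A) (a b : A) : w24 a b * w16 a b = 0 := (wt10_10 h a b).2.2.2.2.2.2.2.2.2.1
theorem r16_24 (h : Eng A) (a b : A) : w16 a b * w24 a b = 0 := by
  rw [h.ac, m24_16 h, neg_zero]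
theorem m25_13 (h : Eng A) (a b : A) : w25 a b * w13 a b = 0 := (wt10_10 h a b).2.2.2.2.2.2.2.2.2.2.1
theorem r13_25 (h : Eng A) (a b : A) : w13 a b * w25 a b = 0 := by
  rw [h.ac, m25_13 h, neg_zero]
theorem m25_14 (h : Eng A) (a b : A) : w25 a b * w14 a b = 0 := (wt10_10 h a b).2.2.2.2.2.2.2.2.2.2.2.1
theorem r14_25 (h : Eng A) (a b : A) : w14 a b * w25 a b = 0 := by
  rw [h.ac, m25_14 h, neg_zero]
theorem m26_13 (h : Eng A) (a b : A) : w26 a b * w13 a b = 0 := (wt10_10 h a b).2.2.2.2.2.2.2.2.2.2.2.2.1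
theorem r13_26 (h : Eng A) (a b : A) : w13 a b * w26 a b = 0 := by
  rw [h.ac, m26_13 h, neg_zero]
theorem m26_14 (h : Eng A) (a b : A) : w26 a b * w14 a b = 0 := (wt10_10 h a b).2.2.2.2.2.2.2.2.2.2.2.2.2.1
theorem r14_26 (h : Eng A) (a b : A) : w14 a b * w26 a b = 0 := by
  rw [h.ac, m26_14 h, neg_zero]
theorem m27_13 (h : Eng A) (a b : A) : w27 a b * w13 a b = 0 := (wt10_10 h a b).2.2.2.2.2.2.2.2.2.2.2.2.2.2.1
theorem r13_27 (h : Eng A) (a b : A) : w13 a b * w27 a b = 0 := by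
  rw [h.ac, m27_13 h, neg_zero]
theorem m27_14 (h : Eng A) (a b : A) : w27 a b * w14 a b = 0 := (wt10_10 h a b).2.2.2.2.2.2.2.2.2.2.2.2.2.2.2.1
theorem r14_27 (h : Eng A) (a b : A) : w14 a b * w27 a b = 0 := by
  rw [h.ac, m27_14 h, neg_zero]
theorem m29_11 (h : Eng A) (a b : A) : w29 a b * w11 a b = 0 := (wt10_10 h a b).2.2.2.2.2.2.2.2.2.2.2.2.2.2.2.2.1
theorem r11_29 (h : Eng A) (a b : A) : w11 a b * w29 a b = 0 := by
  rw [h.ac, m29_11 h, neg_zero]
theorem m29_12 (h : Eng A) (a b : A) : w29 a b * w12 a b = 0 := (wt10_10 h a b).2.2.2.2.2.2.2.2.2.2.2.2.2.2.2.2.2.1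
theorem r12_29 (h : Eng A) (a b : A) : w12 a b * w29 a b = 0 := by
  rw [h.ac, m29_12 h, neg_zero]
theorem m30_11 (h : Eng A) (a b : A) : w30 a b * w11 a b = 0 := (wt10_10 h a b).2.2.2.2.2.2.2.2.2.2.2.2.2.2.2.2.2.2.1
theorem r11_30 (h : Eng A) (a b : A) : w11 a b * w30 a b = 0 := by
  rw [h.ac, m30_11 h, neg_zero]
theorem m30_12 (h : Eng A) (a b : A) : w30 a b * w12 a b = 0 := (wt10_10 h a b).2.2.2.2.2.2.2.2.2.2.2.2.2.2.2.2.2.2.2.1
theorem r12_30 (h : Eng A) (a b : A) : w12 a b * w30 a b = 0 := by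
  rw [h.ac, m30_12 h, neg_zero]
theorem m31_11 (h : Eng A) (a b : A) : w31 a b * w11 a b = 0 := (wt10_10 h a b).2.2.2.2.2.2.2.2.2.2.2.2.2.2.2.2.2.2.2.2.1
theorem r11_31 (h : Eng A) (a b : A) : w11 a b * w31 a b = 0 := by
  rw [h.ac, m31_11 h, neg_zero]
theorem m31_12 (h : Eng A) (a b : A) : w31 a b * w12 a b = 0 := (wt10_10 h a b).2.2.2.2.2.2.2.2.2.2.2.2.2.2.2.2.2.2.2.2.2.1
theorem r12_31 (h : Eng A) (a b : A) : w12 a b * w31 a b = 0 := by
  rw [h.ac, m31_12 h, neg_zero]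
theorem m32_11 (h : Eng A) (a b : A) : w32 a b * w11 a b = 0 := (wt10_10 h a b).2.2.2.2.2.2.2.2.2.2.2.2.2.2.2.2.2.2.2.2.2.2.1
theorem r11_32 (h : Eng A) (a b : A) : w11 a b * w32 a b = 0 := by
  rw [h.ac, m32_11 h, neg_zero]
theorem m32_12 (h : Eng A) (a b : A) : w32 a b * w12 a b = 0 := (wt10_10 h a b).2.2.2.2.2.2.2.2.2.2.2.2.2.2.2.2.2.2.2.2.2.2.2.1
theorem r12_32 (h : Eng A) (a b : A) : w12 a b * w32 a b = 0 := by
  rw [h.ac, m32_12 h, neg_zero]
theorem m34_10 (h : Eng A) (a b : A) : w34 a b * w10 a b = 0 := (wt10_10 h a b).2.2.2.2.2.2.2.2.2.2.2.2.2.2.2.2.2.2.2.2.2.2.2.2.1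
theorem r10_34 (h : Eng A) (a b : A) : w10 a b * w34 a b = 0 := by
  rw [h.ac, m34_10 h, neg_zero]
theorem m35_10 (h : Eng A) (a b : A) : w35 a b * w10 a b = 0 := (wt10_10 h a b).2.2.2.2.2.2.2.2.2.2.2.2.2.2.2.2.2.2.2.2.2.2.2.2.2.1
theorem r10_35 (h : Eng A) (a b : A) : w10 a b * w35 a b = 0 := by
  rw [h.ac, m35_10 h, neg_zero]
theorem m36_9 (h : Eng A) (a b : A) : w36 a b * w9 a b = 0 := (wt10_10 h a b).2.2.2.2.2.2.2.2.2.2.2.2.2.2.2.2.2.2.2.2.2.2.2.2.2.2.1
theorem r9_36 (h : Eng A) (a b : A) : w9 a b * w36 a b = 0 := by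
  rw [h.ac, m36_9 h, neg_zero]
theorem m37_9 (h : Eng A) (a b : A) : w37 a b * w9 a b = 0 := (wt10_10 h a b).2.2.2.2.2.2.2.2.2.2.2.2.2.2.2.2.2.2.2.2.2.2.2.2.2.2.2.1
theorem r9_37 (h : Eng A) (a b : A) : w9 a b * w37 a b = 0 := by
  rw [h.ac, m37_9 h, neg_zero]
theorem m39_8 (h : Eng A) (a b : A) : w39 a b * w8 a b = 0 := (wt10_10 h a b).2.2.2.2.2.2.2.2.2.2.2.2.2.2.2.2.2.2.2.2.2.2.2.2.2.2.2.2
theorem r8_39 (h : Eng A) (a b : A) : w8 a b * w39 a b = 0 := by
  rw [h.ac, m39_8 h, neg_zero]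

theorem wt9_11 (h : Eng A) (a b : A) :
    (w21 a b * w18 a b = 0) ∧
    (w21 a b * w19 a b = 0) ∧
    (w21 a b * w20 a b = 0) ∧
    (w25 a b * w15 a b = 0) ∧
    (w25 a b * w16 a b = 0) ∧
    (w26 a b * w15 a b = 0) ∧
    (w26 a b * w16 a b = 0) ∧
    (w27 a b * w15 a b = 0) ∧
    (w27 a b * w16 a b = 0) ∧
    (w33 a b * w11 a b = 0) ∧
    (w33 a b * w12 a b = 0) ∧
    (w36 a b * w10 a b = 0) ∧
    (w37 a b * w10 a b = 0) ∧
    (w40 a b * w8 a b = 0) := by
  have c18_21 : w18 a b * w21 a b = -(w21 a b * w18 a b) := h.ac _ _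
  have c19_21 : w19 a b * w21 a b = -(w21 a b * w19 a b) := h.ac _ _
  have c20_21 : w20 a b * w21 a b = -(w21 a b * w20 a b) := h.ac _ _
  have c15_25 : w15 a b * w25 a b = -(w25 a b * w15 a b) := h.ac _ _
  have c16_25 : w16 a b * w25 a b = -(w25 a b * w16 a b) := h.ac _ _
  have c15_26 : w15 a b * w26 a b = -(w26 a b * w15 a b) := h.ac _ _
  have c16_26 : w16 a b * w26 a b = -(w26 a b * w16 a b) := h.ac _ _
  have c15_27 : w15 a b * w27 a b = -(w27 a b * w15 a b) := h.ac _ _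
  have c16_27 : w16 a b * w27 a b = -(w27 a b * w16 a b) := h.ac _ _
  have c11_33 : w11 a b * w33 a b = -(w33 a b * w11 a b) := h.ac _ _
  have c12_33 : w12 a b * w33 a b = -(w33 a b * w12 a b) := h.ac _ _
  have c10_36 : w10 a b * w36 a b = -(w36 a b * w10 a b) := h.ac _ _
  have c10_37 : w10 a b * w37 a b = -(w37 a b * w10 a b) := h.ac _ _
  have c8_40 : w8 a b * w40 a b = -(w40 a b * w8 a b) := h.ac _ _
  have t0 := h.e3 (w7 a b) (w0 a b) (w1 a b) (w36 a b)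
  simp only [c10_36, m7_0 h a b, m7_1 h a b, m8_1 a b, r7_36 h a b, r8_36 h a b, add_mul, sub_mul, neg_mul, zero_mul, add_zero, zero_add, neg_zero, neg_neg, sub_zero, zero_sub] at t0
  have t1 := h.e3 (w7 a b) (w0 a b) (w1 a b) (w37 a b)
  simp only [c10_37, m7_0 h a b, m7_1 h a b, m8_1 a b, r7_37 h a b, r8_37 h a b, add_mul, sub_mul, neg_mul, zero_mul, add_zero, zero_add, neg_zero, neg_neg, sub_zero, zero_sub] at t1
  have t2 := h.e3 (w7 a b) (w0 a b) (w2 a b) (w33 a b)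
  simp only [c11_33, m7_0 h a b, m7_2 h a b, m8_2 a b, r7_33 h a b, r8_33 h a b, add_mul, sub_mul, neg_mul, zero_mul, add_zero, zero_add, neg_zero, neg_neg, sub_zero, zero_sub] at t2
  have t3 := h.e3 (w7 a b) (w0 a b) (w4 a b) (w25 a b)
  simp only [c15_25, m7_0 h a b, m7_4 h a b, m8_4 a b, r7_25 h a b, r8_25 h a b, add_mul, sub_mul, neg_mul, zero_mul, add_zero, zero_add, neg_zero, neg_neg, sub_zero, zero_sub] at t3
  have t4 := h.e3 (w7 a b) (w0 a b) (w4 a b) (w26 a b)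
  simp only [c15_26, m7_0 h a b, m7_4 h a b, m8_4 a b, r7_26 h a b, r8_26 h a b, add_mul, sub_mul, neg_mul, zero_mul, add_zero, zero_add, neg_zero, neg_neg, sub_zero, zero_sub] at t4
  have t5 := h.e3 (w7 a b) (w0 a b) (w4 a b) (w27 a b)
  simp only [c15_27, m7_0 h a b, m7_4 h a b, m8_4 a b, r7_27 h a b, r8_27 h a b, add_mul, sub_mul, neg_mul, zero_mul, add_zero, zero_add, neg_zero, neg_neg, sub_zero, zero_sub] at t5
  have t6 := h.e3 (w7 a b) (w0 a b) (w5 a b) (w21 a b)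
  simp only [c18_21, m7_0 h a b, m7_5 h a b, m8_5 a b, r7_21 h a b, r8_21 h a b, add_mul, sub_mul, neg_mul, zero_mul, add_zero, zero_add, neg_zero, neg_neg, sub_zero, zero_sub] at t6
  have t7 := h.e3 (w7 a b) (w0 a b) (w7 a b) (w16 a b)
  simp only [h.sq (w7 a b), m7_0 h a b, m8_7 a b, r7_16 h a b, r8_16 h a b, add_mul, sub_mul, neg_mul, zero_mul, add_zero, zero_add, neg_zero, neg_neg, sub_zero, zero_sub] at t7
  have t8 := h.e2 (w31 a b) (w1 a b) (w8 a b)
  simp only [m31_1 h a b, m31_8 h a b, m37_1 h a b, m37_8 h a b, add_mul, sub_mul, neg_mul, zero_mul, add_zero, zero_add, neg_zero, neg_neg, sub_zero, zero_sub] at t8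
  have t9 := h.e2 (w18 a b) (w1 a b) (w12 a b)
  simp only [m18_1 h a b, m18_12 h a b, m26_1 h a b, m26_12 h a b, add_mul, sub_mul, neg_mul, zero_mul, add_zero, zero_add, neg_zero, neg_neg, sub_zero, zero_sub] at t9
  have t10 := h.e2 (w14 a b) (w1 a b) (w16 a b)
  simp only [m14_1 h a b, m19_1 h a b, m19_16 h a b, r14_16 h a b, add_mul, sub_mul, neg_mul, zero_mul, add_zero, zero_add, neg_zero, neg_neg, sub_zero, zero_sub] at t10
  have t11 := h.e2 (w11 a b) (w1 a b) (w19 a b)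
  simp only [m11_1 h a b, m16_1 h a b, r11_19 h a b, r16_19 h a b, add_mul, sub_mul, neg_mul, zero_mul, add_zero, zero_add, neg_zero, neg_neg, sub_zero, zero_sub] at t11
  have t12 := h.e2 (w11 a b) (w1 a b) (w20 a b)
  simp only [m11_1 h a b, m16_1 h a b, r11_20 h a b, r16_20 h a b, add_mul, sub_mul, neg_mul, zero_mul, add_zero, zero_add, neg_zero, neg_neg, sub_zero, zero_sub] at t12
  have t13 := h.e3 (w1 a b) (w4 a b) (w9 a b) (w16 a b)
  simp only [m12_4 h a b, m21_4 h a b, m21_9 h a b, r12_16 h a b, r1_16 h a b, r1_4 h a b, r1_9 h a b, add_mul, sub_mul, neg_mul, zero_mul, add_zero, zero_add, neg_zero, neg_neg, sub_zero, zero_sub] at t13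
  refine ⟨?_, ?_, ?_, ?_, ?_, ?_, ?_, ?_, ?_, ?_, ?_, ?_, ?_, ?_⟩
  · linear_combination (norm := module) (1 : ℤ) • t6
  · linear_combination (norm := module) (1 : ℤ) • t11
  · linear_combination (norm := module) (1 : ℤ) • t12
  · linear_combination (norm := module) (1 : ℤ) • t3
  · linear_combination (norm := module) (-1 : ℤ) • t7
  · linear_combination (norm := module) (1 : ℤ) • t4
  · linear_combination (norm := module) (-1 : ℤ) • t13
  · linear_combination (norm := module) (1 : ℤ) • t5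
  · linear_combination (norm := module) (-1 : ℤ) • t10
  · linear_combination (norm := module) (1 : ℤ) • t2
  · linear_combination (norm := module) (-1 : ℤ) • t9
  · linear_combination (norm := module) (1 : ℤ) • t0
  · linear_combination (norm := module) (1 : ℤ) • t1
  · linear_combination (norm := module) (-1 : ℤ) • t8
theorem m21_18 (h : Eng A) (a b : A) : w21 a b * w18 a b = 0 := (wt9_11 h a b).1
theorem r18_21 (h : Eng A) (a b : A) : w18 a b * w21 a b = 0 := by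
  rw [h.ac, m21_18 h, neg_zero]
theorem m21_19 (h : Eng A) (a b : A) : w21 a b * w19 a b = 0 := (wt9_11 h a b).2.1
theorem r19_21 (h : Eng A) (a b : A) : w19 a b * w21 a b = 0 := by
  rw [h.ac, m21_19 h, neg_zero]
theorem m21_20 (h : Eng A) (a b : A) : w21 a b * w20 a b = 0 := (wt9_11 h a b).2.2.1
theorem r20_21 (h : Eng A) (a b : A) : w20 a b * w21 a b = 0 := by
  rw [h.ac, m21_20 h, neg_zero]
theorem m25_15 (h : Eng A) (a b : A) : w25 a b * w15 a b = 0 := (wt9_11 h a b).2.2.2.1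
theorem r15_25 (h : Eng A) (a b : A) : w15 a b * w25 a b = 0 := by
  rw [h.ac, m25_15 h, neg_zero]
theorem m25_16 (h : Eng A) (a b : A) : w25 a b * w16 a b = 0 := (wt9_11 h a b).2.2.2.2.1
theorem r16_25 (h : Eng A) (a b : A) : w16 a b * w25 a b = 0 := by
  rw [h.ac, m25_16 h, neg_zero]
theorem m26_15 (h : Eng A) (a b : A) : w26 a b * w15 a b = 0 := (wt9_11 h a b).2.2.2.2.2.1
theorem r15_26 (h : Eng A) (a b : A) : w15 a b * w26 a b = 0 := by
  rw [h.ac, m26_15 h, neg_zero]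
theorem m26_16 (h : Eng A) (a b : A) : w26 a b * w16 a b = 0 := (wt9_11 h a b).2.2.2.2.2.2.1
theorem r16_26 (h : Eng A) (a b : A) : w16 a b * w26 a b = 0 := by
  rw [h.ac, m26_16 h, neg_zero]
theorem m27_15 (h : Eng A) (a b : A) : w27 a b * w15 a b = 0 := (wt9_11 h a b).2.2.2.2.2.2.2.1
theorem r15_27 (h : Eng A) (a b : A) : w15 a b * w27 a b = 0 := by
  rw [h.ac, m27_15 h, neg_zero]
theorem m27_16 (h : Eng A) (a b : A) : w27 a b * w16 a b = 0 := (wt9_11 h a b).2.2.2.2.2.2.2.2.1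
theorem r16_27 (h : Eng A) (a b : A) : w16 a b * w27 a b = 0 := by
  rw [h.ac, m27_16 h, neg_zero]
theorem m33_11 (h : Eng A) (a b : A) : w33 a b * w11 a b = 0 := (wt9_11 h a b).2.2.2.2.2.2.2.2.2.1
theorem r11_33 (h : Eng A) (a b : A) : w11 a b * w33 a b = 0 := by
  rw [h.ac, m33_11 h, neg_zero]
theorem m33_12 (h : Eng A) (a b : A) : w33 a b * w12 a b = 0 := (wt9_11 h a b).2.2.2.2.2.2.2.2.2.2.1
theorem r12_33 (h : Eng A) (a b : A) : w12 a b * w33 a b = 0 := by
  rw [h.ac, m33_12 h, neg_zero]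
theorem m36_10 (h : Eng A) (a b : A) : w36 a b * w10 a b = 0 := (wt9_11 h a b).2.2.2.2.2.2.2.2.2.2.2.1
theorem r10_36 (h : Eng A) (a b : A) : w10 a b * w36 a b = 0 := by
  rw [h.ac, m36_10 h, neg_zero]
theorem m37_10 (h : Eng A) (a b : A) : w37 a b * w10 a b = 0 := (wt9_11 h a b).2.2.2.2.2.2.2.2.2.2.2.2.1
theorem r10_37 (h : Eng A) (a b : A) : w10 a b * w37 a b = 0 := by
  rw [h.ac, m37_10 h, neg_zero]
theorem m40_8 (h : Eng A) (a b : A) : w40 a b * w8 a b = 0 := (wt9_11 h a b).2.2.2.2.2.2.2.2.2.2.2.2.2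
theorem r8_40 (h : Eng A) (a b : A) : w8 a b * w40 a b = 0 := by
  rw [h.ac, m40_8 h, neg_zero]

theorem wt12_9 (h : Eng A) (a b : A) :
    (w22 a b * w17 a b = 0) ∧
    (w23 a b * w17 a b = 0) ∧
    (w24 a b * w17 a b = 0) ∧
    (w28 a b * w13 a b = 0) ∧
    (w28 a b * w14 a b = 0) ∧
    (w38 a b * w9 a b = 0) := by
  have c17_22 : w17 a b * w22 a b = -(w22 a b * w17 a b) := h.ac _ _
  have c17_23 : w17 a b * w23 a b = -(w23 a b * w17 a b) := h.ac _ _
  have c17_24 : w17 a b * w24 a b = -(w24 a b * w17 a b) := h.ac _ _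
  have c13_28 : w13 a b * w28 a b = -(w28 a b * w13 a b) := h.ac _ _
  have c14_28 : w14 a b * w28 a b = -(w28 a b * w14 a b) := h.ac _ _
  have c9_38 : w9 a b * w38 a b = -(w38 a b * w9 a b) := h.ac _ _
  have t0 := h.e2 (w31 a b) (w0 a b) (w9 a b)
  simp only [m31_0 h a b, m31_9 h a b, m35_0 h a b, m35_9 h a b, add_mul, sub_mul, neg_mul, zero_mul, add_zero, zero_add, neg_zero, neg_neg, sub_zero, zero_sub] at t0
  have t1 := h.e2 (w18 a b) (w0 a b) (w13 a b)
  simp only [m18_0 h a b, m18_13 h a b, m23_0 h a b, m23_13 h a b, add_mul, sub_mul, neg_mul, zero_mul, add_zero, zero_add, neg_zero, neg_neg, sub_zero, zero_sub] at t1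
  have t2 := h.e2 (w18 a b) (w0 a b) (w14 a b)
  simp only [m18_0 h a b, m18_14 h a b, m23_0 h a b, m23_14 h a b, add_mul, sub_mul, neg_mul, zero_mul, add_zero, zero_add, neg_zero, neg_neg, sub_zero, zero_sub] at t2
  have t3 := h.e2 (w16 a b) (w0 a b) (w17 a b)
  simp only [m16_0 h a b, m20_0 h a b, m20_17 h a b, r16_17 h a b, add_mul, sub_mul, neg_mul, zero_mul, add_zero, zero_add, neg_zero, neg_neg, sub_zero, zero_sub] at t3
  have t4 := h.e2 (w11 a b) (w0 a b) (w22 a b)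
  simp only [c17_22, m11_0 h a b, m14_0 h a b, r11_22 h a b, r14_22 h a b, add_mul, sub_mul, neg_mul, zero_mul, add_zero, zero_add, neg_zero, neg_neg, sub_zero, zero_sub] at t4
  have t5 := h.e2 (w11 a b) (w0 a b) (w23 a b)
  simp only [c17_23, m11_0 h a b, m14_0 h a b, r11_23 h a b, r14_23 h a b, add_mul, sub_mul, neg_mul, zero_mul, add_zero, zero_add, neg_zero, neg_neg, sub_zero, zero_sub] at t5
  refine ⟨?_, ?_, ?_, ?_, ?_, ?_⟩
  · linear_combination (norm := module) (-1 : ℤ) • t4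
  · linear_combination (norm := module) (-1 : ℤ) • t5
  · linear_combination (norm := module) (1 : ℤ) • t3
  · linear_combination (norm := module) (-1 : ℤ) • t1
  · linear_combination (norm := module) (-1 : ℤ) • t2
  · linear_combination (norm := module) (-1 : ℤ) • t0
theorem m22_17 (h : Eng A) (a b : A) : w22 a b * w17 a b = 0 := (wt12_9 h a b).1
theorem r17_22 (h : Eng A) (a b : A) : w17 a b * w22 a b = 0 := by
  rw [h.ac, m22_17 h, neg_zero]
theorem m23_17 (h : Eng A) (a b : A) : w23 a b * w17 a b = 0 := (wt12_9 h a b).2.1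
theorem r17_23 (h : Eng A) (a b : A) : w17 a b * w23 a b = 0 := by
  rw [h.ac, m23_17 h, neg_zero]
theorem m24_17 (h : Eng A) (a b : A) : w24 a b * w17 a b = 0 := (wt12_9 h a b).2.2.1
theorem r17_24 (h : Eng A) (a b : A) : w17 a b * w24 a b = 0 := by
  rw [h.ac, m24_17 h, neg_zero]
theorem m28_13 (h : Eng A) (a b : A) : w28 a b * w13 a b = 0 := (wt12_9 h a b).2.2.2.1
theorem r13_28 (h : Eng A) (a b : A) : w13 a b * w28 a b = 0 := by
  rw [h.ac, m28_13 h, neg_zero]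
theorem m28_14 (h : Eng A) (a b : A) : w28 a b * w14 a b = 0 := (wt12_9 h a b).2.2.2.2.1
theorem r14_28 (h : Eng A) (a b : A) : w14 a b * w28 a b = 0 := by
  rw [h.ac, m28_14 h, neg_zero]
theorem m38_9 (h : Eng A) (a b : A) : w38 a b * w9 a b = 0 := (wt12_9 h a b).2.2.2.2.2
theorem r9_38 (h : Eng A) (a b : A) : w9 a b * w38 a b = 0 := by
  rw [h.ac, m38_9 h, neg_zero]

theorem wt11_10 (h : Eng A) (a b : A) :
    (w22 a b * w18 a b = 0) ∧
    (w22 a b * w19 a b = 0) ∧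
    (w22 a b * w20 a b = 0) ∧
    (w23 a b * w18 a b = 0) ∧
    (w23 a b * w19 a b = 0) ∧
    (w23 a b * w20 a b = 0) ∧
    (w24 a b * w18 a b = 0) ∧
    (w24 a b * w19 a b = 0) ∧
    (w24 a b * w20 a b = 0) ∧
    (w25 a b * w17 a b = 0) ∧
    (w26 a b * w17 a b = 0) ∧
    (w27 a b * w17 a b = 0) ∧
    (w28 a b * w15 a b = 0) ∧
    (w28 a b * w16 a b = 0) ∧
    (w29 a b * w13 a b = 0) ∧
    (w29 a b * w14 a b = 0) ∧
    (w30 a b * w13 a b = 0) ∧
    (w30 a b * w14 a b = 0) ∧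
    (w31 a b * w13 a b = 0) ∧
    (w31 a b * w14 a b = 0) ∧
    (w32 a b * w13 a b = 0) ∧
    (w32 a b * w14 a b = 0) ∧
    (w34 a b * w11 a b = 0) ∧
    (w34 a b * w12 a b = 0) ∧
    (w35 a b * w11 a b = 0) ∧
    (w35 a b * w12 a b = 0) ∧
    (w38 a b * w10 a b = 0) ∧
    (w39 a b * w9 a b = 0) := by
  have c18_22 : w18 a b * w22 a b = -(w22 a b * w18 a b) := h.ac _ _
  have c19_22 : w19 a b * w22 a b = -(w22 a b * w19 a b) := h.ac _ _
  have c20_22 : w20 a b * w22 a b = -(w22 a b * w20 a b) := h.ac _ _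
  have c18_23 : w18 a b * w23 a b = -(w23 a b * w18 a b) := h.ac _ _
  have c19_23 : w19 a b * w23 a b = -(w23 a b * w19 a b) := h.ac _ _
  have c20_23 : w20 a b * w23 a b = -(w23 a b * w20 a b) := h.ac _ _
  have c18_24 : w18 a b * w24 a b = -(w24 a b * w18 a b) := h.ac _ _
  have c19_24 : w19 a b * w24 a b = -(w24 a b * w19 a b) := h.ac _ _
  have c20_24 : w20 a b * w24 a b = -(w24 a b * w20 a b) := h.ac _ _
  have c17_25 : w17 a b * w25 a b = -(w25 a b * w17 a b) := h.ac _ _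
  have c17_26 : w17 a b * w26 a b = -(w26 a b * w17 a b) := h.ac _ _
  have c17_27 : w17 a b * w27 a b = -(w27 a b * w17 a b) := h.ac _ _
  have c15_28 : w15 a b * w28 a b = -(w28 a b * w15 a b) := h.ac _ _
  have c16_28 : w16 a b * w28 a b = -(w28 a b * w16 a b) := h.ac _ _
  have c13_29 : w13 a b * w29 a b = -(w29 a b * w13 a b) := h.ac _ _
  have c14_29 : w14 a b * w29 a b = -(w29 a b * w14 a b) := h.ac _ _
  have c13_30 : w13 a b * w30 a b = -(w30 a b * w13 a b) := h.ac _ _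
  have c14_30 : w14 a b * w30 a b = -(w30 a b * w14 a b) := h.ac _ _
  have c13_31 : w13 a b * w31 a b = -(w31 a b * w13 a b) := h.ac _ _
  have c14_31 : w14 a b * w31 a b = -(w31 a b * w14 a b) := h.ac _ _
  have c13_32 : w13 a b * w32 a b = -(w32 a b * w13 a b) := h.ac _ _
  have c14_32 : w14 a b * w32 a b = -(w32 a b * w14 a b) := h.ac _ _
  have c11_34 : w11 a b * w34 a b = -(w34 a b * w11 a b) := h.ac _ _
  have c12_34 : w12 a b * w34 a b = -(w34 a b * w12 a b) := h.ac _ _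
  have c11_35 : w11 a b * w35 a b = -(w35 a b * w11 a b) := h.ac _ _
  have c12_35 : w12 a b * w35 a b = -(w35 a b * w12 a b) := h.ac _ _
  have c10_38 : w10 a b * w38 a b = -(w38 a b * w10 a b) := h.ac _ _
  have c9_39 : w9 a b * w39 a b = -(w39 a b * w9 a b) := h.ac _ _
  have t0 := h.e2 (w31 a b) (w0 a b) (w10 a b)
  simp only [m31_0 h a b, m31_10 h a b, m35_0 h a b, m35_10 h a b, add_mul, sub_mul, neg_mul, zero_mul, add_zero, zero_add, neg_zero, neg_neg, sub_zero, zero_sub] at t0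
  have t1 := h.e2 (w18 a b) (w0 a b) (w15 a b)
  simp only [m18_0 h a b, m18_15 h a b, m23_0 h a b, m23_15 h a b, add_mul, sub_mul, neg_mul, zero_mul, add_zero, zero_add, neg_zero, neg_neg, sub_zero, zero_sub] at t1
  have t2 := h.e2 (w18 a b) (w0 a b) (w16 a b)
  simp only [m18_0 h a b, m18_16 h a b, m23_0 h a b, m23_16 h a b, add_mul, sub_mul, neg_mul, zero_mul, add_zero, zero_add, neg_zero, neg_neg, sub_zero, zero_sub] at t2
  have t3 := h.e2 (w16 a b) (w0 a b) (w18 a b)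
  simp only [m16_0 h a b, m20_0 h a b, m20_18 h a b, r16_18 h a b, add_mul, sub_mul, neg_mul, zero_mul, add_zero, zero_add, neg_zero, neg_neg, sub_zero, zero_sub] at t3
  have t4 := h.e2 (w16 a b) (w0 a b) (w19 a b)
  simp only [m16_0 h a b, m20_0 h a b, m20_19 h a b, r16_19 h a b, add_mul, sub_mul, neg_mul, zero_mul, add_zero, zero_add, neg_zero, neg_neg, sub_zero, zero_sub] at t4
  have t5 := h.e2 (w16 a b) (w0 a b) (w20 a b)
  simp only [h.sq (w20 a b), m16_0 h a b, m20_0 h a b, r16_20 h a b, add_mul, sub_mul, neg_mul, zero_mul, add_zero, zero_add, neg_zero, neg_neg, sub_zero, zero_sub] at t5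
  have t6 := h.e2 (w11 a b) (w0 a b) (w25 a b)
  simp only [c17_25, m11_0 h a b, m14_0 h a b, r11_25 h a b, r14_25 h a b, add_mul, sub_mul, neg_mul, zero_mul, add_zero, zero_add, neg_zero, neg_neg, sub_zero, zero_sub] at t6
  have t7 := h.e2 (w11 a b) (w0 a b) (w26 a b)
  simp only [c17_26, m11_0 h a b, m14_0 h a b, r11_26 h a b, r14_26 h a b, add_mul, sub_mul, neg_mul, zero_mul, add_zero, zero_add, neg_zero, neg_neg, sub_zero, zero_sub] at t7
  have t8 := h.e2 (w11 a b) (w0 a b) (w27 a b)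
  simp only [c17_27, m11_0 h a b, m14_0 h a b, r11_27 h a b, r14_27 h a b, add_mul, sub_mul, neg_mul, zero_mul, add_zero, zero_add, neg_zero, neg_neg, sub_zero, zero_sub] at t8
  have t9 := h.e2 (w7 a b) (w0 a b) (w39 a b)
  simp only [c9_39, m7_0 h a b, m8_0 a b, r7_39 h a b, r8_39 h a b, add_mul, sub_mul, neg_mul, zero_mul, add_zero, zero_add, neg_zero, neg_neg, sub_zero, zero_sub] at t9
  have t10 := h.e3 (w7 a b) (w0 a b) (w2 a b) (w34 a b)
  simp only [c11_34, m7_0 h a b, m7_2 h a b, m8_2 a b, r7_34 h a b, r8_34 h a b, add_mul, sub_mul, neg_mul, zero_mul, add_zero, zero_add, neg_zero, neg_neg, sub_zero, zero_sub] at t10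
  have t11 := h.e3 (w7 a b) (w0 a b) (w2 a b) (w35 a b)
  simp only [c11_35, m7_0 h a b, m7_2 h a b, m8_2 a b, r7_35 h a b, r8_35 h a b, add_mul, sub_mul, neg_mul, zero_mul, add_zero, zero_add, neg_zero, neg_neg, sub_zero, zero_sub] at t11
  have t12 := h.e3 (w7 a b) (w0 a b) (w3 a b) (w29 a b)
  simp only [c13_29, m7_0 h a b, m7_3 h a b, m8_3 a b, r7_29 h a b, r8_29 h a b, add_mul, sub_mul, neg_mul, zero_mul, add_zero, zero_add, neg_zero, neg_neg, sub_zero, zero_sub] at t12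
  have t13 := h.e3 (w7 a b) (w0 a b) (w3 a b) (w30 a b)
  simp only [c13_30, m7_0 h a b, m7_3 h a b, m8_3 a b, r7_30 h a b, r8_30 h a b, add_mul, sub_mul, neg_mul, zero_mul, add_zero, zero_add, neg_zero, neg_neg, sub_zero, zero_sub] at t13
  have t14 := h.e3 (w7 a b) (w0 a b) (w3 a b) (w31 a b)
  simp only [c13_31, m7_0 h a b, m7_3 h a b, m8_3 a b, r7_31 h a b, r8_31 h a b, add_mul, sub_mul, neg_mul, zero_mul, add_zero, zero_add, neg_zero, neg_neg, sub_zero, zero_sub] at t14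
  have t15 := h.e3 (w7 a b) (w0 a b) (w3 a b) (w32 a b)
  simp only [c13_32, m7_0 h a b, m7_3 h a b, m8_3 a b, r7_32 h a b, r8_32 h a b, add_mul, sub_mul, neg_mul, zero_mul, add_zero, zero_add, neg_zero, neg_neg, sub_zero, zero_sub] at t15
  have t16 := h.e3 (w7 a b) (w0 a b) (w5 a b) (w22 a b)
  simp only [c18_22, m7_0 h a b, m7_5 h a b, m8_5 a b, r7_22 h a b, r8_22 h a b, add_mul, sub_mul, neg_mul, zero_mul, add_zero, zero_add, neg_zero, neg_neg, sub_zero, zero_sub] at t16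
  have t17 := h.e3 (w7 a b) (w0 a b) (w5 a b) (w23 a b)
  simp only [c18_23, m7_0 h a b, m7_5 h a b, m8_5 a b, r7_23 h a b, r8_23 h a b, add_mul, sub_mul, neg_mul, zero_mul, add_zero, zero_add, neg_zero, neg_neg, sub_zero, zero_sub] at t17
  have t18 := h.e3 (w7 a b) (w0 a b) (w6 a b) (w19 a b)
  simp only [m7_0 h a b, m7_6 h a b, m8_6 a b, r7_19 h a b, r8_19 h a b, add_mul, sub_mul, neg_mul, zero_mul, add_zero, zero_add, neg_zero, neg_neg, sub_zero, zero_sub] at t18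
  have t19 := h.e3 (w7 a b) (w0 a b) (w6 a b) (w20 a b)
  simp only [m7_0 h a b, m7_6 h a b, m8_6 a b, r7_20 h a b, r8_20 h a b, add_mul, sub_mul, neg_mul, zero_mul, add_zero, zero_add, neg_zero, neg_neg, sub_zero, zero_sub] at t19
  have t20 := h.e3 (w7 a b) (w0 a b) (w8 a b) (w14 a b)
  simp only [h.sq (w8 a b), m25_0 h a b, m25_14 h a b, m7_0 h a b, r7_14 h a b, r7_8 h a b, r8_14 h a b, add_mul, sub_mul, neg_mul, zero_mul, add_zero, zero_add, neg_zero, neg_neg, sub_zero, zero_sub] at t20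
  have t21 := h.e3 (w6 a b) (w1 a b) (w8 a b) (w14 a b)
  simp only [h.sq (w8 a b), m22_1 h a b, m22_14 h a b, m6_1 h a b, r6_14 h a b, r6_8 h a b, r8_14 h a b, add_mul, sub_mul, neg_mul, zero_mul, add_zero, zero_add, neg_zero, neg_neg, sub_zero, zero_sub] at t21
  have t22 := h.e2 (w13 a b) (w2 a b) (w12 a b)
  simp only [m13_12 h a b, m13_2 h a b, m24_12 h a b, m24_2 h a b, add_mul, sub_mul, neg_mul, zero_mul, add_zero, zero_add, neg_zero, neg_neg, sub_zero, zero_sub] at t22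
  have t23 := h.e3 (w5 a b) (w2 a b) (w8 a b) (w14 a b)
  simp only [h.sq (w8 a b), m18_14 h a b, m18_2 h a b, m34_2 h a b, m34_8 h a b, m35_2 h a b, m35_8 h a b, m5_2 h a b, r5_14 h a b, r5_8 h a b, r8_14 h a b, add_mul, sub_mul, neg_mul, zero_mul, add_zero, zero_add, neg_zero, neg_neg, sub_zero, zero_sub] at t23
  have t24 := h.e3 (w4 a b) (w3 a b) (w9 a b) (w12 a b)
  simp only [m19_12 h a b, m19_3 h a b, m26_3 h a b, m26_9 h a b, m4_3 a b, r4_12 h a b, r4_9 h a b, r8_12 h a b, r8_9 h a b, add_mul, sub_mul, neg_mul, zero_mul, add_zero, zero_add, neg_zero, neg_neg, sub_zero, zero_sub] at t24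
  have t25 := h.e3 (w0 a b) (w4 a b) (w9 a b) (w19 a b)
  simp only [m22_4 h a b, m22_9 h a b, m23_4 h a b, m23_9 h a b, r0_19 h a b, r0_4 h a b, r0_9 h a b, r5_19 h a b, r5_9 h a b, add_mul, sub_mul, neg_mul, zero_mul, add_zero, zero_add, neg_zero, neg_neg, sub_zero, zero_sub] at t25
  have t26 := h.e2 (w15 a b) (w0 a b) (w20 a b)
  simp only [m15_0 h a b, m19_0 h a b, r15_20 h a b, r19_20 h a b, add_mul, sub_mul, neg_mul, zero_mul, add_zero, zero_add, neg_zero, neg_neg, sub_zero, zero_sub] at t26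
  have t27 := h.e2 (w10 a b) (w0 a b) (w32 a b)
  simp only [c13_32, c14_32, m10_0 h a b, m12_0 h a b, r10_32 h a b, r12_32 h a b, add_mul, sub_mul, neg_mul, zero_mul, add_zero, zero_add, neg_zero, neg_neg, sub_zero, zero_sub] at t27
  refine ⟨?_, ?_, ?_, ?_, ?_, ?_, ?_, ?_, ?_, ?_, ?_, ?_, ?_, ?_, ?_, ?_, ?_, ?_, ?_, ?_, ?_, ?_, ?_, ?_, ?_, ?_, ?_, ?_⟩
  · linear_combination (norm := module) (1 : ℤ) • t16
  · linear_combination (norm := module) (-1 : ℤ) • t18
  · linear_combination (norm := module) (-1 : ℤ) • t19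
  · linear_combination (norm := module) (1 : ℤ) • t17
  · linear_combination (norm := module) (-1 : ℤ) • t25
  · linear_combination (norm := module) (1 : ℤ) • t19 + (-1 : ℤ) • t26
  · linear_combination (norm := module) (1 : ℤ) • t3
  · linear_combination (norm := module) (1 : ℤ) • t4
  · linear_combination (norm := module) (1 : ℤ) • t5
  · linear_combination (norm := module) (-1 : ℤ) • t6
  · linear_combination (norm := module) (-1 : ℤ) • t7
  · linear_combination (norm := module) (-1 : ℤ) • t8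
  · linear_combination (norm := module) (-1 : ℤ) • t1
  · linear_combination (norm := module) (-1 : ℤ) • t2
  · linear_combination (norm := module) (1 : ℤ) • t12
  · linear_combination (norm := module) (1 : ℤ) • t20
  · linear_combination (norm := module) (1 : ℤ) • t13
  · linear_combination (norm := module) (1 : ℤ) • t21
  · linear_combination (norm := module) (1 : ℤ) • t14
  · linear_combination (norm := module) (1 : ℤ) • t23
  · linear_combination (norm := module) (1 : ℤ) • t15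
  · linear_combination (norm := module) (1 : ℤ) • t15 + (-1 : ℤ) • t27
  · linear_combination (norm := module) (1 : ℤ) • t10
  · linear_combination (norm := module) (1 : ℤ) • t22
  · linear_combination (norm := module) (1 : ℤ) • t11
  · linear_combination (norm := module) (1 : ℤ) • t24
  · linear_combination (norm := module) (-1 : ℤ) • t0
  · linear_combination (norm := module) (1 : ℤ) • t9
theorem m22_18 (h : Eng A) (a b : A) : w22 a b * w18 a b = 0 := (wt11_10 h a b).1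
theorem r18_22 (h : Eng A) (a b : A) : w18 a b * w22 a b = 0 := by
  rw [h.ac, m22_18 h, neg_zero]
theorem m22_19 (h : Eng A) (a b : A) : w22 a b * w19 a b = 0 := (wt11_10 h a b).2.1
theorem r19_22 (h : Eng A) (a b : A) : w19 a b * w22 a b = 0 := by
  rw [h.ac, m22_19 h, neg_zero]
theorem m22_20 (h : Eng A) (a b : A) : w22 a b * w20 a b = 0 := (wt11_10 h a b).2.2.1
theorem r20_22 (h : Eng A) (a b : A) : w20 a b * w22 a b = 0 := by
  rw [h.ac, m22_20 h, neg_zero]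
theorem m23_18 (h : Eng A) (a b : A) : w23 a b * w18 a b = 0 := (wt11_10 h a b).2.2.2.1
theorem r18_23 (h : Eng A) (a b : A) : w18 a b * w23 a b = 0 := by
  rw [h.ac, m23_18 h, neg_zero]
theorem m23_19 (h : Eng A) (a b : A) : w23 a b * w19 a b = 0 := (wt11_10 h a b).2.2.2.2.1
theorem r19_23 (h : Eng A) (a b : A) : w19 a b * w23 a b = 0 := by
  rw [h.ac, m23_19 h, neg_zero]
theorem m23_20 (h : Eng A) (a b : A) : w23 a b * w20 a b = 0 := (wt11_10 h a b).2.2.2.2.2.1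
theorem r20_23 (h : Eng A) (a b : A) : w20 a b * w23 a b = 0 := by
  rw [h.ac, m23_20 h, neg_zero]
theorem m24_18 (h : Eng A) (a b : A) : w24 a b * w18 a b = 0 := (wt11_10 h a b).2.2.2.2.2.2.1
theorem r18_24 (h : Eng A) (a b : A) : w18 a b * w24 a b = 0 := by
  rw [h.ac, m24_18 h, neg_zero]
theorem m24_19 (h : Eng A) (a b : A) : w24 a b * w19 a b = 0 := (wt11_10 h a b).2.2.2.2.2.2.2.1
theorem r19_24 (h : Eng A) (a b : A) : w19 a b * w24 a b = 0 := by
  rw [h.ac, m24_19 h, neg_zero]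
theorem m24_20 (h : Eng A) (a b : A) : w24 a b * w20 a b = 0 := (wt11_10 h a b).2.2.2.2.2.2.2.2.1
theorem r20_24 (h : Eng A) (a b : A) : w20 a b * w24 a b = 0 := by
  rw [h.ac, m24_20 h, neg_zero]
theorem m25_17 (h : Eng A) (a b : A) : w25 a b * w17 a b = 0 := (wt11_10 h a b).2.2.2.2.2.2.2.2.2.1
theorem r17_25 (h : Eng A) (a b : A) : w17 a b * w25 a b = 0 := by
  rw [h.ac, m25_17 h, neg_zero]
theorem m26_17 (h : Eng A) (a b : A) : w26 a b * w17 a b = 0 := (wt11_10 h a b).2.2.2.2.2.2.2.2.2.2.1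
theorem r17_26 (h : Eng A) (a b : A) : w17 a b * w26 a b = 0 := by
  rw [h.ac, m26_17 h, neg_zero]
theorem m27_17 (h : Eng A) (a b : A) : w27 a b * w17 a b = 0 := (wt11_10 h a b).2.2.2.2.2.2.2.2.2.2.2.1
theorem r17_27 (h : Eng A) (a b : A) : w17 a b * w27 a b = 0 := by
  rw [h.ac, m27_17 h, neg_zero]
theorem m28_15 (h : Eng A) (a b : A) : w28 a b * w15 a b = 0 := (wt11_10 h a b).2.2.2.2.2.2.2.2.2.2.2.2.1
theorem r15_28 (h : Eng A) (a b : A) : w15 a b * w28 a b = 0 := by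
  rw [h.ac, m28_15 h, neg_zero]
theorem m28_16 (h : Eng A) (a b : A) : w28 a b * w16 a b = 0 := (wt11_10 h a b).2.2.2.2.2.2.2.2.2.2.2.2.2.1
theorem r16_28 (h : Eng A) (a b : A) : w16 a b * w28 a b = 0 := by
  rw [h.ac, m28_16 h, neg_zero]
theorem m29_13 (h : Eng A) (a b : A) : w29 a b * w13 a b = 0 := (wt11_10 h a b).2.2.2.2.2.2.2.2.2.2.2.2.2.2.1
theorem r13_29 (h : Eng A) (a b : A) : w13 a b * w29 a b = 0 := by
  rw [h.ac, m29_13 h, neg_zero]
theorem m29_14 (h : Eng A) (a b : A) : w29 a b * w14 a b = 0 := (wt11_10 h a b).2.2.2.2.2.2.2.2.2.2.2.2.2.2.2.1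
theorem r14_29 (h : Eng A) (a b : A) : w14 a b * w29 a b = 0 := by
  rw [h.ac, m29_14 h, neg_zero]
theorem m30_13 (h : Eng A) (a b : A) : w30 a b * w13 a b = 0 := (wt11_10 h a b).2.2.2.2.2.2.2.2.2.2.2.2.2.2.2.2.1
theorem r13_30 (h : Eng A) (a b : A) : w13 a b * w30 a b = 0 := by
  rw [h.ac, m30_13 h, neg_zero]
theorem m30_14 (h : Eng A) (a b : A) : w30 a b * w14 a b = 0 := (wt11_10 h a b).2.2.2.2.2.2.2.2.2.2.2.2.2.2.2.2.2.1
theorem r14_30 (h : Eng A) (a b : A) : w14 a b * w30 a b = 0 := by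
  rw [h.ac, m30_14 h, neg_zero]
theorem m31_13 (h : Eng A) (a b : A) : w31 a b * w13 a b = 0 := (wt11_10 h a b).2.2.2.2.2.2.2.2.2.2.2.2.2.2.2.2.2.2.1
theorem r13_31 (h : Eng A) (a b : A) : w13 a b * w31 a b = 0 := by
  rw [h.ac, m31_13 h, neg_zero]
theorem m31_14 (h : Eng A) (a b : A) : w31 a b * w14 a b = 0 := (wt11_10 h a b).2.2.2.2.2.2.2.2.2.2.2.2.2.2.2.2.2.2.2.1
theorem r14_31 (h : Eng A) (a b : A) : w14 a b * w31 a b = 0 := by
  rw [h.ac, m31_14 h, neg_zero]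
theorem m32_13 (h : Eng A) (a b : A) : w32 a b * w13 a b = 0 := (wt11_10 h a b).2.2.2.2.2.2.2.2.2.2.2.2.2.2.2.2.2.2.2.2.1
theorem r13_32 (h : Eng A) (a b : A) : w13 a b * w32 a b = 0 := by
  rw [h.ac, m32_13 h, neg_zero]
theorem m32_14 (h : Eng A) (a b : A) : w32 a b * w14 a b = 0 := (wt11_10 h a b).2.2.2.2.2.2.2.2.2.2.2.2.2.2.2.2.2.2.2.2.2.1
theorem r14_32 (h : Eng A) (a b : A) : w14 a b * w32 a b = 0 := by
  rw [h.ac, m32_14 h, neg_zero]
theorem m34_11 (h : Eng A) (a b : A) : w34 a b * w11 a b = 0 := (wt11_10 h a b).2.2.2.2.2.2.2.2.2.2.2.2.2.2.2.2.2.2.2.2.2.2.1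
theorem r11_34 (h : Eng A) (a b : A) : w11 a b * w34 a b = 0 := by
  rw [h.ac, m34_11 h, neg_zero]
theorem m34_12 (h : Eng A) (a b : A) : w34 a b * w12 a b = 0 := (wt11_10 h a b).2.2.2.2.2.2.2.2.2.2.2.2.2.2.2.2.2.2.2.2.2.2.2.1
theorem r12_34 (h : Eng A) (a b : A) : w12 a b * w34 a b = 0 := by
  rw [h.ac, m34_12 h, neg_zero]
theorem m35_11 (h : Eng A) (a b : A) : w35 a b * w11 a b = 0 := (wt11_10 h a b).2.2.2.2.2.2.2.2.2.2.2.2.2.2.2.2.2.2.2.2.2.2.2.2.1
theorem r11_35 (h : Eng A) (a b : A) : w11 a b * w35 a b = 0 := by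
  rw [h.ac, m35_11 h, neg_zero]
theorem m35_12 (h : Eng A) (a b : A) : w35 a b * w12 a b = 0 := (wt11_10 h a b).2.2.2.2.2.2.2.2.2.2.2.2.2.2.2.2.2.2.2.2.2.2.2.2.2.1
theorem r12_35 (h : Eng A) (a b : A) : w12 a b * w35 a b = 0 := by
  rw [h.ac, m35_12 h, neg_zero]
theorem m38_10 (h : Eng A) (a b : A) : w38 a b * w10 a b = 0 := (wt11_10 h a b).2.2.2.2.2.2.2.2.2.2.2.2.2.2.2.2.2.2.2.2.2.2.2.2.2.2.1
theorem r10_38 (h : Eng A) (a b : A) : w10 a b * w38 a b = 0 := by
  rw [h.ac, m38_10 h, neg_zero]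
theorem m39_9 (h : Eng A) (a b : A) : w39 a b * w9 a b = 0 := (wt11_10 h a b).2.2.2.2.2.2.2.2.2.2.2.2.2.2.2.2.2.2.2.2.2.2.2.2.2.2.2
theorem r9_39 (h : Eng A) (a b : A) : w9 a b * w39 a b = 0 := by
  rw [h.ac, m39_9 h, neg_zero]

theorem wt10_11 (h : Eng A) (a b : A) :
    (w22 a b * w21 a b = 0) ∧
    (w23 a b * w21 a b = 0) ∧
    (w24 a b * w21 a b = 0) ∧
    (w25 a b * w18 a b = 0) ∧
    (w25 a b * w19 a b = 0) ∧
    (w25 a b * w20 a b = 0) ∧
    (w26 a b * w18 a b = 0) ∧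
    (w26 a b * w19 a b = 0) ∧
    (w26 a b * w20 a b = 0) ∧
    (w27 a b * w18 a b = 0) ∧
    (w27 a b * w19 a b = 0) ∧
    (w27 a b * w20 a b = 0) ∧
    (w29 a b * w15 a b = 0) ∧
    (w29 a b * w16 a b = 0) ∧
    (w30 a b * w15 a b = 0) ∧
    (w30 a b * w16 a b = 0) ∧
    (w31 a b * w15 a b = 0) ∧
    (w31 a b * w16 a b = 0) ∧
    (w32 a b * w15 a b = 0) ∧
    (w32 a b * w16 a b = 0) ∧
    (w33 a b * w13 a b = 0) ∧
    (w33 a b * w14 a b = 0) ∧
    (w36 a b * w11 a b = 0) ∧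
    (w36 a b * w12 a b = 0) ∧
    (w37 a b * w11 a b = 0) ∧
    (w37 a b * w12 a b = 0) ∧
    (w39 a b * w10 a b = 0) ∧
    (w40 a b * w9 a b = 0) := by
  have c21_22 : w21 a b * w22 a b = -(w22 a b * w21 a b) := h.ac _ _
  have c21_23 : w21 a b * w23 a b = -(w23 a b * w21 a b) := h.ac _ _
  have c21_24 : w21 a b * w24 a b = -(w24 a b * w21 a b) := h.ac _ _
  have c18_25 : w18 a b * w25 a b = -(w25 a b * w18 a b) := h.ac _ _
  have c19_25 : w19 a b * w25 a b = -(w25 a b * w19 a b) := h.ac _ _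
  have c20_25 : w20 a b * w25 a b = -(w25 a b * w20 a b) := h.ac _ _
  have c18_26 : w18 a b * w26 a b = -(w26 a b * w18 a b) := h.ac _ _
  have c19_26 : w19 a b * w26 a b = -(w26 a b * w19 a b) := h.ac _ _
  have c20_26 : w20 a b * w26 a b = -(w26 a b * w20 a b) := h.ac _ _
  have c18_27 : w18 a b * w27 a b = -(w27 a b * w18 a b) := h.ac _ _
  have c19_27 : w19 a b * w27 a b = -(w27 a b * w19 a b) := h.ac _ _
  have c20_27 : w20 a b * w27 a b = -(w27 a b * w20 a b) := h.ac _ _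
  have c15_29 : w15 a b * w29 a b = -(w29 a b * w15 a b) := h.ac _ _
  have c16_29 : w16 a b * w29 a b = -(w29 a b * w16 a b) := h.ac _ _
  have c15_30 : w15 a b * w30 a b = -(w30 a b * w15 a b) := h.ac _ _
  have c16_30 : w16 a b * w30 a b = -(w30 a b * w16 a b) := h.ac _ _
  have c15_31 : w15 a b * w31 a b = -(w31 a b * w15 a b) := h.ac _ _
  have c16_31 : w16 a b * w31 a b = -(w31 a b * w16 a b) := h.ac _ _
  have c15_32 : w15 a b * w32 a b = -(w32 a b * w15 a b) := h.ac _ _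
  have c16_32 : w16 a b * w32 a b = -(w32 a b * w16 a b) := h.ac _ _
  have c13_33 : w13 a b * w33 a b = -(w33 a b * w13 a b) := h.ac _ _
  have c14_33 : w14 a b * w33 a b = -(w33 a b * w14 a b) := h.ac _ _
  have c11_36 : w11 a b * w36 a b = -(w36 a b * w11 a b) := h.ac _ _
  have c12_36 : w12 a b * w36 a b = -(w36 a b * w12 a b) := h.ac _ _
  have c11_37 : w11 a b * w37 a b = -(w37 a b * w11 a b) := h.ac _ _
  have c12_37 : w12 a b * w37 a b = -(w37 a b * w12 a b) := h.ac _ _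
  have c10_39 : w10 a b * w39 a b = -(w39 a b * w10 a b) := h.ac _ _
  have c9_40 : w9 a b * w40 a b = -(w40 a b * w9 a b) := h.ac _ _
  have t0 := h.e2 (w16 a b) (w0 a b) (w21 a b)
  simp only [m16_0 h a b, m20_0 h a b, r16_21 h a b, r20_21 h a b, add_mul, sub_mul, neg_mul, zero_mul, add_zero, zero_add, neg_zero, neg_neg, sub_zero, zero_sub] at t0
  have t1 := h.e2 (w7 a b) (w0 a b) (w40 a b)
  simp only [c9_40, m7_0 h a b, m8_0 a b, r7_40 h a b, r8_40 h a b, add_mul, sub_mul, neg_mul, zero_mul, add_zero, zero_add, neg_zero, neg_neg, sub_zero, zero_sub] at t1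
  have t2 := h.e3 (w7 a b) (w0 a b) (w1 a b) (w39 a b)
  simp only [c10_39, m7_0 h a b, m7_1 h a b, m8_1 a b, r7_39 h a b, r8_39 h a b, add_mul, sub_mul, neg_mul, zero_mul, add_zero, zero_add, neg_zero, neg_neg, sub_zero, zero_sub] at t2
  have t3 := h.e3 (w7 a b) (w0 a b) (w2 a b) (w36 a b)
  simp only [c11_36, m7_0 h a b, m7_2 h a b, m8_2 a b, r7_36 h a b, r8_36 h a b, add_mul, sub_mul, neg_mul, zero_mul, add_zero, zero_add, neg_zero, neg_neg, sub_zero, zero_sub] at t3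
  have t4 := h.e3 (w7 a b) (w0 a b) (w2 a b) (w37 a b)
  simp only [c11_37, m7_0 h a b, m7_2 h a b, m8_2 a b, r7_37 h a b, r8_37 h a b, add_mul, sub_mul, neg_mul, zero_mul, add_zero, zero_add, neg_zero, neg_neg, sub_zero, zero_sub] at t4
  have t5 := h.e3 (w7 a b) (w0 a b) (w3 a b) (w33 a b)
  simp only [c13_33, m7_0 h a b, m7_3 h a b, m8_3 a b, r7_33 h a b, r8_33 h a b, add_mul, sub_mul, neg_mul, zero_mul, add_zero, zero_add, neg_zero, neg_neg, sub_zero, zero_sub] at t5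
  have t6 := h.e3 (w7 a b) (w0 a b) (w4 a b) (w29 a b)
  simp only [c15_29, m7_0 h a b, m7_4 h a b, m8_4 a b, r7_29 h a b, r8_29 h a b, add_mul, sub_mul, neg_mul, zero_mul, add_zero, zero_add, neg_zero, neg_neg, sub_zero, zero_sub] at t6
  have t7 := h.e3 (w7 a b) (w0 a b) (w4 a b) (w30 a b)
  simp only [c15_30, m7_0 h a b, m7_4 h a b, m8_4 a b, r7_30 h a b, r8_30 h a b, add_mul, sub_mul, neg_mul, zero_mul, add_zero, zero_add, neg_zero, neg_neg, sub_zero, zero_sub] at t7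
  have t8 := h.e3 (w7 a b) (w0 a b) (w4 a b) (w31 a b)
  simp only [c15_31, m7_0 h a b, m7_4 h a b, m8_4 a b, r7_31 h a b, r8_31 h a b, add_mul, sub_mul, neg_mul, zero_mul, add_zero, zero_add, neg_zero, neg_neg, sub_zero, zero_sub] at t8
  have t9 := h.e3 (w7 a b) (w0 a b) (w4 a b) (w32 a b)
  simp only [c15_32, m7_0 h a b, m7_4 h a b, m8_4 a b, r7_32 h a b, r8_32 h a b, add_mul, sub_mul, neg_mul, zero_mul, add_zero, zero_add, neg_zero, neg_neg, sub_zero, zero_sub] at t9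
  have t10 := h.e3 (w7 a b) (w0 a b) (w5 a b) (w25 a b)
  simp only [c18_25, m7_0 h a b, m7_5 h a b, m8_5 a b, r7_25 h a b, r8_25 h a b, add_mul, sub_mul, neg_mul, zero_mul, add_zero, zero_add, neg_zero, neg_neg, sub_zero, zero_sub] at t10
  have t11 := h.e3 (w7 a b) (w0 a b) (w5 a b) (w26 a b)
  simp only [c18_26, m7_0 h a b, m7_5 h a b, m8_5 a b, r7_26 h a b, r8_26 h a b, add_mul, sub_mul, neg_mul, zero_mul, add_zero, zero_add, neg_zero, neg_neg, sub_zero, zero_sub] at t11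
  have t12 := h.e3 (w7 a b) (w0 a b) (w5 a b) (w27 a b)
  simp only [c18_27, m7_0 h a b, m7_5 h a b, m8_5 a b, r7_27 h a b, r8_27 h a b, add_mul, sub_mul, neg_mul, zero_mul, add_zero, zero_add, neg_zero, neg_neg, sub_zero, zero_sub] at t12
  have t13 := h.e3 (w7 a b) (w0 a b) (w6 a b) (w21 a b)
  simp only [m7_0 h a b, m7_6 h a b, m8_6 a b, r7_21 h a b, r8_21 h a b, add_mul, sub_mul, neg_mul, zero_mul, add_zero, zero_add, neg_zero, neg_neg, sub_zero, zero_sub] at t13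
  have t14 := h.e3 (w7 a b) (w0 a b) (w7 a b) (w19 a b)
  simp only [h.sq (w7 a b), m7_0 h a b, m8_7 a b, r7_19 h a b, r8_19 h a b, add_mul, sub_mul, neg_mul, zero_mul, add_zero, zero_add, neg_zero, neg_neg, sub_zero, zero_sub] at t14
  have t15 := h.e3 (w7 a b) (w0 a b) (w7 a b) (w20 a b)
  simp only [h.sq (w7 a b), m7_0 h a b, m8_7 a b, r7_20 h a b, r8_20 h a b, add_mul, sub_mul, neg_mul, zero_mul, add_zero, zero_add, neg_zero, neg_neg, sub_zero, zero_sub] at t15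
  have t16 := h.e3 (w7 a b) (w0 a b) (w8 a b) (w16 a b)
  simp only [h.sq (w8 a b), m25_0 h a b, m25_16 h a b, m7_0 h a b, r7_16 h a b, r7_8 h a b, r8_16 h a b, add_mul, sub_mul, neg_mul, zero_mul, add_zero, zero_add, neg_zero, neg_neg, sub_zero, zero_sub] at t16
  have t17 := h.e2 (w18 a b) (w1 a b) (w14 a b)
  simp only [m18_1 h a b, m18_14 h a b, m26_1 h a b, m26_14 h a b, add_mul, sub_mul, neg_mul, zero_mul, add_zero, zero_add, neg_zero, neg_neg, sub_zero, zero_sub] at t17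
  have t18 := h.e2 (w14 a b) (w1 a b) (w19 a b)
  simp only [h.sq (w19 a b), m14_1 h a b, m19_1 h a b, r14_19 h a b, add_mul, sub_mul, neg_mul, zero_mul, add_zero, zero_add, neg_zero, neg_neg, sub_zero, zero_sub] at t18
  have t19 := h.e2 (w14 a b) (w1 a b) (w20 a b)
  simp only [m14_1 h a b, m19_1 h a b, r14_20 h a b, r19_20 h a b, add_mul, sub_mul, neg_mul, zero_mul, add_zero, zero_add, neg_zero, neg_neg, sub_zero, zero_sub] at t19
  have t20 := h.e2 (w11 a b) (w1 a b) (w23 a b)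
  simp only [c21_23, m11_1 h a b, m16_1 h a b, r11_23 h a b, r16_23 h a b, add_mul, sub_mul, neg_mul, zero_mul, add_zero, zero_add, neg_zero, neg_neg, sub_zero, zero_sub] at t20
  have t21 := h.e3 (w6 a b) (w1 a b) (w8 a b) (w16 a b)
  simp only [h.sq (w8 a b), m22_1 h a b, m22_16 h a b, m6_1 h a b, r6_16 h a b, r6_8 h a b, r8_16 h a b, add_mul, sub_mul, neg_mul, zero_mul, add_zero, zero_add, neg_zero, neg_neg, sub_zero, zero_sub] at t21
  have t22 := h.e2 (w15 a b) (w2 a b) (w12 a b)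
  simp only [m15_12 h a b, m15_2 h a b, m27_12 h a b, m27_2 h a b, add_mul, sub_mul, neg_mul, zero_mul, add_zero, zero_add, neg_zero, neg_neg, sub_zero, zero_sub] at t22
  have t23 := h.e3 (w5 a b) (w2 a b) (w8 a b) (w16 a b)
  simp only [h.sq (w8 a b), m18_16 h a b, m18_2 h a b, m36_2 h a b, m36_8 h a b, m37_2 h a b, m37_8 h a b, m5_2 h a b, r5_16 h a b, r5_8 h a b, r8_16 h a b, add_mul, sub_mul, neg_mul, zero_mul, add_zero, zero_add, neg_zero, neg_neg, sub_zero, zero_sub] at t23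
  have t24 := h.e3 (w3 a b) (w4 a b) (w10 a b) (w12 a b)
  simp only [m20_12 h a b, m20_4 h a b, m23_10 h a b, m23_4 h a b, r3_10 h a b, r3_12 h a b, r3_4 h a b, r8_10 h a b, r8_12 h a b, add_mul, sub_mul, neg_mul, zero_mul, add_zero, zero_add, neg_zero, neg_neg, sub_zero, zero_sub] at t24
  have t25 := h.e3 (w1 a b) (w3 a b) (w10 a b) (w20 a b)
  simp only [m25_10 h a b, m25_3 h a b, m26_10 h a b, m26_3 h a b, r1_10 h a b, r1_20 h a b, r1_3 h a b, r5_10 h a b, r5_20 h a b, add_mul, sub_mul, neg_mul, zero_mul, add_zero, zero_add, neg_zero, neg_neg, sub_zero, zero_sub] at t25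
  have t26 := h.e3 (w11 a b) (w0 a b) (w1 a b) (w26 a b)
  simp only [c19_26, c20_26, m11_0 h a b, m11_1 h a b, m14_1 h a b, m16_0 h a b, r11_26 h a b, r14_26 h a b, r16_26 h a b, add_mul, sub_mul, neg_mul, zero_mul, add_zero, zero_add, neg_zero, neg_neg, sub_zero, zero_sub] at t26
  have t27 := h.e3 (w10 a b) (w0 a b) (w1 a b) (w32 a b)
  simp only [c15_32, c16_32, m10_0 h a b, m10_1 h a b, m12_1 h a b, r10_32 h a b, r12_32 h a b, add_mul, sub_mul, neg_mul, zero_mul, add_zero, zero_add, neg_zero, neg_neg, sub_zero, zero_sub] at t27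
  refine ⟨?_, ?_, ?_, ?_, ?_, ?_, ?_, ?_, ?_, ?_, ?_, ?_, ?_, ?_, ?_, ?_, ?_, ?_, ?_, ?_, ?_, ?_, ?_, ?_, ?_, ?_, ?_, ?_⟩
  · linear_combination (norm := module) (-1 : ℤ) • t13
  · linear_combination (norm := module) (-1 : ℤ) • t20
  · linear_combination (norm := module) (1 : ℤ) • t0
  · linear_combination (norm := module) (1 : ℤ) • t10
  · linear_combination (norm := module) (-1 : ℤ) • t14
  · linear_combination (norm := module) (-1 : ℤ) • t15
  · linear_combination (norm := module) (1 : ℤ) • t11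
  · linear_combination (norm := module) (-1 : ℤ) • t25 + (-1 : ℤ) • t26
  · linear_combination (norm := module) (1 : ℤ) • t25
  · linear_combination (norm := module) (1 : ℤ) • t12
  · linear_combination (norm := module) (-1 : ℤ) • t18
  · linear_combination (norm := module) (-1 : ℤ) • t19
  · linear_combination (norm := module) (1 : ℤ) • t6
  · linear_combination (norm := module) (1 : ℤ) • t16
  · linear_combination (norm := module) (1 : ℤ) • t7
  · linear_combination (norm := module) (1 : ℤ) • t21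
  · linear_combination (norm := module) (1 : ℤ) • t8
  · linear_combination (norm := module) (1 : ℤ) • t23
  · linear_combination (norm := module) (1 : ℤ) • t9
  · linear_combination (norm := module) (1 : ℤ) • t9 + (-1 : ℤ) • t27
  · linear_combination (norm := module) (1 : ℤ) • t5
  · linear_combination (norm := module) (-1 : ℤ) • t17
  · linear_combination (norm := module) (1 : ℤ) • t3
  · linear_combination (norm := module) (1 : ℤ) • t22
  · linear_combination (norm := module) (1 : ℤ) • t4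
  · linear_combination (norm := module) (-1 : ℤ) • t24
  · linear_combination (norm := module) (1 : ℤ) • t2
  · linear_combination (norm := module) (1 : ℤ) • t1
theorem m22_21 (h : Eng A) (a b : A) : w22 a b * w21 a b = 0 := (wt10_11 h a b).1
theorem r21_22 (h : Eng A) (a b : A) : w21 a b * w22 a b = 0 := by
  rw [h.ac, m22_21 h, neg_zero]
theorem m23_21 (h : Eng A) (a b : A) : w23 a b * w21 a b = 0 := (wt10_11 h a b).2.1
theorem r21_23 (h : Eng A) (a b : A) : w21 a b * w23 a b = 0 := by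
  rw [h.ac, m23_21 h, neg_zero]
theorem m24_21 (h : Eng A) (a b : A) : w24 a b * w21 a b = 0 := (wt10_11 h a b).2.2.1
theorem r21_24 (h : Eng A) (a b : A) : w21 a b * w24 a b = 0 := by
  rw [h.ac, m24_21 h, neg_zero]
theorem m25_18 (h : Eng A) (a b : A) : w25 a b * w18 a b = 0 := (wt10_11 h a b).2.2.2.1
theorem r18_25 (h : Eng A) (a b : A) : w18 a b * w25 a b = 0 := by
  rw [h.ac, m25_18 h, neg_zero]
theorem m25_19 (h : Eng A) (a b : A) : w25 a b * w19 a b = 0 := (wt10_11 h a b).2.2.2.2.1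
theorem r19_25 (h : Eng A) (a b : A) : w19 a b * w25 a b = 0 := by
  rw [h.ac, m25_19 h, neg_zero]
theorem m25_20 (h : Eng A) (a b : A) : w25 a b * w20 a b = 0 := (wt10_11 h a b).2.2.2.2.2.1
theorem r20_25 (h : Eng A) (a b : A) : w20 a b * w25 a b = 0 := by
  rw [h.ac, m25_20 h, neg_zero]
theorem m26_18 (h : Eng A) (a b : A) : w26 a b * w18 a b = 0 := (wt10_11 h a b).2.2.2.2.2.2.1
theorem r18_26 (h : Eng A) (a b : A) : w18 a b * w26 a b = 0 := by
  rw [h.ac, m26_18 h, neg_zero]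
theorem m26_19 (h : Eng A) (a b : A) : w26 a b * w19 a b = 0 := (wt10_11 h a b).2.2.2.2.2.2.2.1
theorem r19_26 (h : Eng A) (a b : A) : w19 a b * w26 a b = 0 := by
  rw [h.ac, m26_19 h, neg_zero]
theorem m26_20 (h : Eng A) (a b : A) : w26 a b * w20 a b = 0 := (wt10_11 h a b).2.2.2.2.2.2.2.2.1
theorem r20_26 (h : Eng A) (a b : A) : w20 a b * w26 a b = 0 := by
  rw [h.ac, m26_20 h, neg_zero]
theorem m27_18 (h : Eng A) (a b : A) : w27 a b * w18 a b = 0 := (wt10_11 h a b).2.2.2.2.2.2.2.2.2.1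
theorem r18_27 (h : Eng A) (a b : A) : w18 a b * w27 a b = 0 := by
  rw [h.ac, m27_18 h, neg_zero]
theorem m27_19 (h : Eng A) (a b : A) : w27 a b * w19 a b = 0 := (wt10_11 h a b).2.2.2.2.2.2.2.2.2.2.1
theorem r19_27 (h : Eng A) (a b : A) : w19 a b * w27 a b = 0 := by
  rw [h.ac, m27_19 h, neg_zero]
theorem m27_20 (h : Eng A) (a b : A) : w27 a b * w20 a b = 0 := (wt10_11 h a b).2.2.2.2.2.2.2.2.2.2.2.1
theorem r20_27 (h : Eng A) (a b : A) : w20 a b * w27 a b = 0 := by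
  rw [h.ac, m27_20 h, neg_zero]
theorem m29_15 (h : Eng A) (a b : A) : w29 a b * w15 a b = 0 := (wt10_11 h a b).2.2.2.2.2.2.2.2.2.2.2.2.1
theorem r15_29 (h : Eng A) (a b : A) : w15 a b * w29 a b = 0 := by
  rw [h.ac, m29_15 h, neg_zero]
theorem m29_16 (h : Eng A) (a b : A) : w29 a b * w16 a b = 0 := (wt10_11 h a b).2.2.2.2.2.2.2.2.2.2.2.2.2.1
theorem r16_29 (h : Eng A) (a b : A) : w16 a b * w29 a b = 0 := by
  rw [h.ac, m29_16 h, neg_zero]
theorem m30_15 (h : Eng A) (a b : A) : w30 a b * w15 a b = 0 := (wt10_11 h a b).2.2.2.2.2.2.2.2.2.2.2.2.2.2.1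
theorem r15_30 (h : Eng A) (a b : A) : w15 a b * w30 a b = 0 := by
  rw [h.ac, m30_15 h, neg_zero]
theorem m30_16 (h : Eng A) (a b : A) : w30 a b * w16 a b = 0 := (wt10_11 h a b).2.2.2.2.2.2.2.2.2.2.2.2.2.2.2.1
theorem r16_30 (h : Eng A) (a b : A) : w16 a b * w30 a b = 0 := by
  rw [h.ac, m30_16 h, neg_zero]
theorem m31_15 (h : Eng A) (a b : A) : w31 a b * w15 a b = 0 := (wt10_11 h a b).2.2.2.2.2.2.2.2.2.2.2.2.2.2.2.2.1
theorem r15_31 (h : Eng A) (a b : A) : w15 a b * w31 a b = 0 := by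
  rw [h.ac, m31_15 h, neg_zero]
theorem m31_16 (h : Eng A) (a b : A) : w31 a b * w16 a b = 0 := (wt10_11 h a b).2.2.2.2.2.2.2.2.2.2.2.2.2.2.2.2.2.1
theorem r16_31 (h : Eng A) (a b : A) : w16 a b * w31 a b = 0 := by
  rw [h.ac, m31_16 h, neg_zero]
theorem m32_15 (h : Eng A) (a b : A) : w32 a b * w15 a b = 0 := (wt10_11 h a b).2.2.2.2.2.2.2.2.2.2.2.2.2.2.2.2.2.2.1
theorem r15_32 (h : Eng A) (a b : A) : w15 a b * w32 a b = 0 := by
  rw [h.ac, m32_15 h, neg_zero]
theorem m32_16 (h : Eng A) (a b : A) : w32 a b * w16 a b = 0 := (wt10_11 h a b).2.2.2.2.2.2.2.2.2.2.2.2.2.2.2.2.2.2.2.1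
theorem r16_32 (h : Eng A) (a b : A) : w16 a b * w32 a b = 0 := by
  rw [h.ac, m32_16 h, neg_zero]
theorem m33_13 (h : Eng A) (a b : A) : w33 a b * w13 a b = 0 := (wt10_11 h a b).2.2.2.2.2.2.2.2.2.2.2.2.2.2.2.2.2.2.2.2.1
theorem r13_33 (h : Eng A) (a b : A) : w13 a b * w33 a b = 0 := by
  rw [h.ac, m33_13 h, neg_zero]
theorem m33_14 (h : Eng A) (a b : A) : w33 a b * w14 a b = 0 := (wt10_11 h a b).2.2.2.2.2.2.2.2.2.2.2.2.2.2.2.2.2.2.2.2.2.1
theorem r14_33 (h : Eng A) (a b : A) : w14 a b * w33 a b = 0 := by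
  rw [h.ac, m33_14 h, neg_zero]
theorem m36_11 (h : Eng A) (a b : A) : w36 a b * w11 a b = 0 := (wt10_11 h a b).2.2.2.2.2.2.2.2.2.2.2.2.2.2.2.2.2.2.2.2.2.2.1
theorem r11_36 (h : Eng A) (a b : A) : w11 a b * w36 a b = 0 := by
  rw [h.ac, m36_11 h, neg_zero]
theorem m36_12 (h : Eng A) (a b : A) : w36 a b * w12 a b = 0 := (wt10_11 h a b).2.2.2.2.2.2.2.2.2.2.2.2.2.2.2.2.2.2.2.2.2.2.2.1
theorem r12_36 (h : Eng A) (a b : A) : w12 a b * w36 a b = 0 := by
  rw [h.ac, m36_12 h, neg_zero]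
theorem m37_11 (h : Eng A) (a b : A) : w37 a b * w11 a b = 0 := (wt10_11 h a b).2.2.2.2.2.2.2.2.2.2.2.2.2.2.2.2.2.2.2.2.2.2.2.2.1
theorem r11_37 (h : Eng A) (a b : A) : w11 a b * w37 a b = 0 := by
  rw [h.ac, m37_11 h, neg_zero]
theorem m37_12 (h : Eng A) (a b : A) : w37 a b * w12 a b = 0 := (wt10_11 h a b).2.2.2.2.2.2.2.2.2.2.2.2.2.2.2.2.2.2.2.2.2.2.2.2.2.1
theorem r12_37 (h : Eng A) (a b : A) : w12 a b * w37 a b = 0 := by
  rw [h.ac, m37_12 h, neg_zero]
theorem m39_10 (h : Eng A) (a b : A) : w39 a b * w10 a b = 0 := (wt10_11 h a b).2.2.2.2.2.2.2.2.2.2.2.2.2.2.2.2.2.2.2.2.2.2.2.2.2.2.1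
theorem r10_39 (h : Eng A) (a b : A) : w10 a b * w39 a b = 0 := by
  rw [h.ac, m39_10 h, neg_zero]
theorem m40_9 (h : Eng A) (a b : A) : w40 a b * w9 a b = 0 := (wt10_11 h a b).2.2.2.2.2.2.2.2.2.2.2.2.2.2.2.2.2.2.2.2.2.2.2.2.2.2.2
theorem r9_40 (h : Eng A) (a b : A) : w9 a b * w40 a b = 0 := by
  rw [h.ac, m40_9 h, neg_zero]

theorem wt9_12 (h : Eng A) (a b : A) :
    (w25 a b * w21 a b = 0) ∧
    (w26 a b * w21 a b = 0) ∧
    (w27 a b * w21 a b = 0) ∧
    (w33 a b * w15 a b = 0) ∧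
    (w33 a b * w16 a b = 0) ∧
    (w40 a b * w10 a b = 0) := by
  have c21_25 : w21 a b * w25 a b = -(w25 a b * w21 a b) := h.ac _ _
  have c21_26 : w21 a b * w26 a b = -(w26 a b * w21 a b) := h.ac _ _
  have c21_27 : w21 a b * w27 a b = -(w27 a b * w21 a b) := h.ac _ _
  have c15_33 : w15 a b * w33 a b = -(w33 a b * w15 a b) := h.ac _ _
  have c16_33 : w16 a b * w33 a b = -(w33 a b * w16 a b) := h.ac _ _
  have c10_40 : w10 a b * w40 a b = -(w40 a b * w10 a b) := h.ac _ _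
  have t0 := h.e3 (w7 a b) (w0 a b) (w1 a b) (w40 a b)
  simp only [c10_40, m7_0 h a b, m7_1 h a b, m8_1 a b, r7_40 h a b, r8_40 h a b, add_mul, sub_mul, neg_mul, zero_mul, add_zero, zero_add, neg_zero, neg_neg, sub_zero, zero_sub] at t0
  have t1 := h.e3 (w7 a b) (w0 a b) (w4 a b) (w33 a b)
  simp only [c15_33, m7_0 h a b, m7_4 h a b, m8_4 a b, r7_33 h a b, r8_33 h a b, add_mul, sub_mul, neg_mul, zero_mul, add_zero, zero_add, neg_zero, neg_neg, sub_zero, zero_sub] at t1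
  have t2 := h.e3 (w7 a b) (w0 a b) (w7 a b) (w21 a b)
  simp only [h.sq (w7 a b), m7_0 h a b, m8_7 a b, r7_21 h a b, r8_21 h a b, add_mul, sub_mul, neg_mul, zero_mul, add_zero, zero_add, neg_zero, neg_neg, sub_zero, zero_sub] at t2
  have t3 := h.e2 (w18 a b) (w1 a b) (w16 a b)
  simp only [m18_1 h a b, m18_16 h a b, m26_1 h a b, m26_16 h a b, add_mul, sub_mul, neg_mul, zero_mul, add_zero, zero_add, neg_zero, neg_neg, sub_zero, zero_sub] at t3
  have t4 := h.e2 (w14 a b) (w1 a b) (w21 a b)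
  simp only [m14_1 h a b, m19_1 h a b, r14_21 h a b, r19_21 h a b, add_mul, sub_mul, neg_mul, zero_mul, add_zero, zero_add, neg_zero, neg_neg, sub_zero, zero_sub] at t4
  have t5 := h.e2 (w11 a b) (w1 a b) (w26 a b)
  simp only [c21_26, m11_1 h a b, m16_1 h a b, r11_26 h a b, r16_26 h a b, add_mul, sub_mul, neg_mul, zero_mul, add_zero, zero_add, neg_zero, neg_neg, sub_zero, zero_sub] at t5
  refine ⟨?_, ?_, ?_, ?_, ?_, ?_⟩
  · linear_combination (norm := module) (-1 : ℤ) • t2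
  · linear_combination (norm := module) (-1 : ℤ) • t5
  · linear_combination (norm := module) (-1 : ℤ) • t4
  · linear_combination (norm := module) (1 : ℤ) • t1
  · linear_combination (norm := module) (-1 : ℤ) • t3
  · linear_combination (norm := module) (1 : ℤ) • t0
theorem m25_21 (h : Eng A) (a b : A) : w25 a b * w21 a b = 0 := (wt9_12 h a b).1
theorem r21_25 (h : Eng A) (a b : A) : w21 a b * w25 a b = 0 := by
  rw [h.ac, m25_21 h, neg_zero]
theorem m26_21 (h : Eng A) (a b : A) : w26 a b * w21 a b = 0 := (wt9_12 h a b).2.1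
theorem r21_26 (h : Eng A) (a b : A) : w21 a b * w26 a b = 0 := by
  rw [h.ac, m26_21 h, neg_zero]
theorem m27_21 (h : Eng A) (a b : A) : w27 a b * w21 a b = 0 := (wt9_12 h a b).2.2.1
theorem r21_27 (h : Eng A) (a b : A) : w21 a b * w27 a b = 0 := by
  rw [h.ac, m27_21 h, neg_zero]
theorem m33_15 (h : Eng A) (a b : A) : w33 a b * w15 a b = 0 := (wt9_12 h a b).2.2.2.1
theorem r15_33 (h : Eng A) (a b : A) : w15 a b * w33 a b = 0 := by
  rw [h.ac, m33_15 h, neg_zero]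
theorem m33_16 (h : Eng A) (a b : A) : w33 a b * w16 a b = 0 := (wt9_12 h a b).2.2.2.2.1
theorem r16_33 (h : Eng A) (a b : A) : w16 a b * w33 a b = 0 := by
  rw [h.ac, m33_16 h, neg_zero]
theorem m40_10 (h : Eng A) (a b : A) : w40 a b * w10 a b = 0 := (wt9_12 h a b).2.2.2.2.2
theorem r10_40 (h : Eng A) (a b : A) : w10 a b * w40 a b = 0 := by
  rw [h.ac, m40_10 h, neg_zero]

end Pool.Agent.H461R3.E3
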