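import Pool.Agent.H461R3.E3.D21

set_option autoImplicit false
set_option linter.all false
set_option linter.unusedSimpArgs false
set_option linter.unusedVariables false

namespace Pool.Agent.H461R3.E3

universe u

variable {A : Type u} [NonUnitalNonAssocRing A]

theorem wt13_9 (h : Eng A) (a b : A) :
    (w28 a b * w17 a b = 0) := by
  have c17_28 : w17 a b * w28 a b = -(w28 a b * w17 a b) := h.ac _ _
  have t0 := h.e2 (w18 a b) (w0 a b) (w17 a b)
  simp only [m18_0 h a b, m18_17 h a b, m23_0 h a b, m23_17 h a b, add_mul, sub_mul, neg_mul, zero_mul, add_zero, zero_add, neg_zero, neg_neg, sub_zero, zero_sub] at t0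
  · linear_combination (norm := module) (-1 : ℤ) • t0
theorem m28_17 (h : Eng A) (a b : A) : w28 a b * w17 a b = 0 := (wt13_9 h a b)
theorem r17_28 (h : Eng A) (a b : A) : w17 a b * w28 a b = 0 := by
  rw [h.ac, m28_17 h, neg_zero]

theorem wt12_10 (h : Eng A) (a b : A) :
    (w23 a b * w22 a b = 0) ∧
    (w24 a b * w22 a b = 0) ∧
    (w24 a b * w23 a b = 0) ∧
    (w28 a b * w18 a b = 0) ∧
    (w28 a b * w19 a b = 0) ∧
    (w28 a b * w20 a b = 0) ∧
    (w29 a b * w17 a b = 0) ∧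
    (w30 a b * w17 a b = 0) ∧
    (w31 a b * w17 a b = 0) ∧
    (w32 a b * w17 a b = 0) ∧
    (w34 a b * w13 a b = 0) ∧
    (w34 a b * w14 a b = 0) ∧
    (w35 a b * w13 a b = 0) ∧
    (w35 a b * w14 a b = 0) ∧
    (w38 a b * w11 a b = 0) ∧
    (w38 a b * w12 a b = 0) := by
  have c22_23 : w22 a b * w23 a b = -(w23 a b * w22 a b) := h.ac _ _
  have c22_24 : w22 a b * w24 a b = -(w24 a b * w22 a b) := h.ac _ _
  have c23_24 : w23 a b * w24 a b = -(w24 a b * w23 a b) := h.ac _ _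
  have c18_28 : w18 a b * w28 a b = -(w28 a b * w18 a b) := h.ac _ _
  have c19_28 : w19 a b * w28 a b = -(w28 a b * w19 a b) := h.ac _ _
  have c20_28 : w20 a b * w28 a b = -(w28 a b * w20 a b) := h.ac _ _
  have c17_29 : w17 a b * w29 a b = -(w29 a b * w17 a b) := h.ac _ _
  have c17_30 : w17 a b * w30 a b = -(w30 a b * w17 a b) := h.ac _ _
  have c17_31 : w17 a b * w31 a b = -(w31 a b * w17 a b) := h.ac _ _
  have c17_32 : w17 a b * w32 a b = -(w32 a b * w17 a b) := h.ac _ _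
  have c13_34 : w13 a b * w34 a b = -(w34 a b * w13 a b) := h.ac _ _
  have c14_34 : w14 a b * w34 a b = -(w34 a b * w14 a b) := h.ac _ _
  have c13_35 : w13 a b * w35 a b = -(w35 a b * w13 a b) := h.ac _ _
  have c14_35 : w14 a b * w35 a b = -(w35 a b * w14 a b) := h.ac _ _
  have c11_38 : w11 a b * w38 a b = -(w38 a b * w11 a b) := h.ac _ _
  have c12_38 : w12 a b * w38 a b = -(w38 a b * w12 a b) := h.ac _ _
  have t0 := h.e2 (w31 a b) (w0 a b) (w11 a b)
  simp only [m31_0 h a b, m31_11 h a b, m35_0 h a b, m35_11 h a b, add_mul, sub_mul, neg_mul, zero_mul, add_zero, zero_add, neg_zero, neg_neg, sub_zero, zero_sub] at t0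
  have t1 := h.e2 (w31 a b) (w0 a b) (w12 a b)
  simp only [m31_0 h a b, m31_12 h a b, m35_0 h a b, m35_12 h a b, add_mul, sub_mul, neg_mul, zero_mul, add_zero, zero_add, neg_zero, neg_neg, sub_zero, zero_sub] at t1
  have t2 := h.e2 (w18 a b) (w0 a b) (w18 a b)
  simp only [h.sq (w18 a b), m18_0 h a b, m23_0 h a b, m23_18 h a b, add_mul, sub_mul, neg_mul, zero_mul, add_zero, zero_add, neg_zero, neg_neg, sub_zero, zero_sub] at t2
  have t3 := h.e2 (w18 a b) (w0 a b) (w19 a b)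
  simp only [m18_0 h a b, m23_0 h a b, m23_19 h a b, r18_19 h a b, add_mul, sub_mul, neg_mul, zero_mul, add_zero, zero_add, neg_zero, neg_neg, sub_zero, zero_sub] at t3
  have t4 := h.e2 (w18 a b) (w0 a b) (w20 a b)
  simp only [m18_0 h a b, m23_0 h a b, m23_20 h a b, r18_20 h a b, add_mul, sub_mul, neg_mul, zero_mul, add_zero, zero_add, neg_zero, neg_neg, sub_zero, zero_sub] at t4
  have t5 := h.e2 (w16 a b) (w0 a b) (w22 a b)
  simp only [m16_0 h a b, m20_0 h a b, r16_22 h a b, r20_22 h a b, add_mul, sub_mul, neg_mul, zero_mul, add_zero, zero_add, neg_zero, neg_neg, sub_zero, zero_sub] at t5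
  have t6 := h.e2 (w16 a b) (w0 a b) (w23 a b)
  simp only [m16_0 h a b, m20_0 h a b, r16_23 h a b, r20_23 h a b, add_mul, sub_mul, neg_mul, zero_mul, add_zero, zero_add, neg_zero, neg_neg, sub_zero, zero_sub] at t6
  have t7 := h.e2 (w11 a b) (w0 a b) (w29 a b)
  simp only [c17_29, m11_0 h a b, m14_0 h a b, r11_29 h a b, r14_29 h a b, add_mul, sub_mul, neg_mul, zero_mul, add_zero, zero_add, neg_zero, neg_neg, sub_zero, zero_sub] at t7
  have t8 := h.e2 (w11 a b) (w0 a b) (w30 a b)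
  simp only [c17_30, m11_0 h a b, m14_0 h a b, r11_30 h a b, r14_30 h a b, add_mul, sub_mul, neg_mul, zero_mul, add_zero, zero_add, neg_zero, neg_neg, sub_zero, zero_sub] at t8
  have t9 := h.e2 (w11 a b) (w0 a b) (w31 a b)
  simp only [c17_31, m11_0 h a b, m14_0 h a b, r11_31 h a b, r14_31 h a b, add_mul, sub_mul, neg_mul, zero_mul, add_zero, zero_add, neg_zero, neg_neg, sub_zero, zero_sub] at t9
  have t10 := h.e2 (w11 a b) (w0 a b) (w32 a b)
  simp only [c17_32, m11_0 h a b, m14_0 h a b, r11_32 h a b, r14_32 h a b, add_mul, sub_mul, neg_mul, zero_mul, add_zero, zero_add, neg_zero, neg_neg, sub_zero, zero_sub] at t10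
  have t11 := h.e3 (w7 a b) (w0 a b) (w3 a b) (w34 a b)
  simp only [c13_34, m7_0 h a b, m7_3 h a b, m8_3 a b, r7_34 h a b, r8_34 h a b, add_mul, sub_mul, neg_mul, zero_mul, add_zero, zero_add, neg_zero, neg_neg, sub_zero, zero_sub] at t11
  have t12 := h.e3 (w7 a b) (w0 a b) (w3 a b) (w35 a b)
  simp only [c13_35, m7_0 h a b, m7_3 h a b, m8_3 a b, r7_35 h a b, r8_35 h a b, add_mul, sub_mul, neg_mul, zero_mul, add_zero, zero_add, neg_zero, neg_neg, sub_zero, zero_sub] at t12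
  have t13 := h.e3 (w7 a b) (w0 a b) (w6 a b) (w23 a b)
  simp only [c22_23, m7_0 h a b, m7_6 h a b, m8_6 a b, r7_23 h a b, r8_23 h a b, add_mul, sub_mul, neg_mul, zero_mul, add_zero, zero_add, neg_zero, neg_neg, sub_zero, zero_sub] at t13
  have t14 := h.e3 (w0 a b) (w1 a b) (w9 a b) (w34 a b)
  simp only [c14_34, m38_1 h a b, m38_9 h a b, r0_1 h a b, r0_34 h a b, r0_9 h a b, r2_34 h a b, r2_9 h a b, add_mul, sub_mul, neg_mul, zero_mul, add_zero, zero_add, neg_zero, neg_neg, sub_zero, zero_sub] at t14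
  have t15 := h.e3 (w0 a b) (w1 a b) (w9 a b) (w35 a b)
  simp only [c14_35, m38_1 h a b, m38_9 h a b, r0_1 h a b, r0_35 h a b, r0_9 h a b, r2_35 h a b, r2_9 h a b, add_mul, sub_mul, neg_mul, zero_mul, add_zero, zero_add, neg_zero, neg_neg, sub_zero, zero_sub] at t15
  refine ⟨?_, ?_, ?_, ?_, ?_, ?_, ?_, ?_, ?_, ?_, ?_, ?_, ?_, ?_, ?_, ?_⟩
  · linear_combination (norm := module) (1 : ℤ) • t13
  · linear_combination (norm := module) (1 : ℤ) • t5
  · linear_combination (norm := module) (1 : ℤ) • t6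
  · linear_combination (norm := module) (-1 : ℤ) • t2
  · linear_combination (norm := module) (-1 : ℤ) • t3
  · linear_combination (norm := module) (-1 : ℤ) • t4
  · linear_combination (norm := module) (-1 : ℤ) • t7
  · linear_combination (norm := module) (-1 : ℤ) • t8
  · linear_combination (norm := module) (-1 : ℤ) • t9
  · linear_combination (norm := module) (-1 : ℤ) • t10
  · linear_combination (norm := module) (1 : ℤ) • t11
  · linear_combination (norm := module) (-1 : ℤ) • t14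
  · linear_combination (norm := module) (1 : ℤ) • t12
  · linear_combination (norm := module) (-1 : ℤ) • t15
  · linear_combination (norm := module) (-1 : ℤ) • t0
  · linear_combination (norm := module) (-1 : ℤ) • t1
theorem m23_22 (h : Eng A) (a b : A) : w23 a b * w22 a b = 0 := (wt12_10 h a b).1
theorem r22_23 (h : Eng A) (a b : A) : w22 a b * w23 a b = 0 := by
  rw [h.ac, m23_22 h, neg_zero]
theorem m24_22 (h : Eng A) (a b : A) : w24 a b * w22 a b = 0 := (wt12_10 h a b).2.1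
theorem r22_24 (h : Eng A) (a b : A) : w22 a b * w24 a b = 0 := by
  rw [h.ac, m24_22 h, neg_zero]
theorem m24_23 (h : Eng A) (a b : A) : w24 a b * w23 a b = 0 := (wt12_10 h a b).2.2.1
theorem r23_24 (h : Eng A) (a b : A) : w23 a b * w24 a b = 0 := by
  rw [h.ac, m24_23 h, neg_zero]
theorem m28_18 (h : Eng A) (a b : A) : w28 a b * w18 a b = 0 := (wt12_10 h a b).2.2.2.1
theorem r18_28 (h : Eng A) (a b : A) : w18 a b * w28 a b = 0 := by
  rw [h.ac, m28_18 h, neg_zero]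
theorem m28_19 (h : Eng A) (a b : A) : w28 a b * w19 a b = 0 := (wt12_10 h a b).2.2.2.2.1
theorem r19_28 (h : Eng A) (a b : A) : w19 a b * w28 a b = 0 := by
  rw [h.ac, m28_19 h, neg_zero]
theorem m28_20 (h : Eng A) (a b : A) : w28 a b * w20 a b = 0 := (wt12_10 h a b).2.2.2.2.2.1
theorem r20_28 (h : Eng A) (a b : A) : w20 a b * w28 a b = 0 := by
  rw [h.ac, m28_20 h, neg_zero]
theorem m29_17 (h : Eng A) (a b : A) : w29 a b * w17 a b = 0 := (wt12_10 h a b).2.2.2.2.2.2.1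
theorem r17_29 (h : Eng A) (a b : A) : w17 a b * w29 a b = 0 := by
  rw [h.ac, m29_17 h, neg_zero]
theorem m30_17 (h : Eng A) (a b : A) : w30 a b * w17 a b = 0 := (wt12_10 h a b).2.2.2.2.2.2.2.1
theorem r17_30 (h : Eng A) (a b : A) : w17 a b * w30 a b = 0 := by
  rw [h.ac, m30_17 h, neg_zero]
theorem m31_17 (h : Eng A) (a b : A) : w31 a b * w17 a b = 0 := (wt12_10 h a b).2.2.2.2.2.2.2.2.1
theorem r17_31 (h : Eng A) (a b : A) : w17 a b * w31 a b = 0 := by
  rw [h.ac, m31_17 h, neg_zero]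
theorem m32_17 (h : Eng A) (a b : A) : w32 a b * w17 a b = 0 := (wt12_10 h a b).2.2.2.2.2.2.2.2.2.1
theorem r17_32 (h : Eng A) (a b : A) : w17 a b * w32 a b = 0 := by
  rw [h.ac, m32_17 h, neg_zero]
theorem m34_13 (h : Eng A) (a b : A) : w34 a b * w13 a b = 0 := (wt12_10 h a b).2.2.2.2.2.2.2.2.2.2.1
theorem r13_34 (h : Eng A) (a b : A) : w13 a b * w34 a b = 0 := by
  rw [h.ac, m34_13 h, neg_zero]
theorem m34_14 (h : Eng A) (a b : A) : w34 a b * w14 a b = 0 := (wt12_10 h a b).2.2.2.2.2.2.2.2.2.2.2.1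
theorem r14_34 (h : Eng A) (a b : A) : w14 a b * w34 a b = 0 := by
  rw [h.ac, m34_14 h, neg_zero]
theorem m35_13 (h : Eng A) (a b : A) : w35 a b * w13 a b = 0 := (wt12_10 h a b).2.2.2.2.2.2.2.2.2.2.2.2.1
theorem r13_35 (h : Eng A) (a b : A) : w13 a b * w35 a b = 0 := by
  rw [h.ac, m35_13 h, neg_zero]
theorem m35_14 (h : Eng A) (a b : A) : w35 a b * w14 a b = 0 := (wt12_10 h a b).2.2.2.2.2.2.2.2.2.2.2.2.2.1
theorem r14_35 (h : Eng A) (a b : A) : w14 a b * w35 a b = 0 := by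
  rw [h.ac, m35_14 h, neg_zero]
theorem m38_11 (h : Eng A) (a b : A) : w38 a b * w11 a b = 0 := (wt12_10 h a b).2.2.2.2.2.2.2.2.2.2.2.2.2.2.1
theorem r11_38 (h : Eng A) (a b : A) : w11 a b * w38 a b = 0 := by
  rw [h.ac, m38_11 h, neg_zero]
theorem m38_12 (h : Eng A) (a b : A) : w38 a b * w12 a b = 0 := (wt12_10 h a b).2.2.2.2.2.2.2.2.2.2.2.2.2.2.2
theorem r12_38 (h : Eng A) (a b : A) : w12 a b * w38 a b = 0 := by
  rw [h.ac, m38_12 h, neg_zero]

theorem wt11_11 (h : Eng A) (a b : A) :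
    (w25 a b * w22 a b = 0) ∧
    (w25 a b * w23 a b = 0) ∧
    (w25 a b * w24 a b = 0) ∧
    (w26 a b * w22 a b = 0) ∧
    (w26 a b * w23 a b = 0) ∧
    (w26 a b * w24 a b = 0) ∧
    (w27 a b * w22 a b = 0) ∧
    (w27 a b * w23 a b = 0) ∧
    (w27 a b * w24 a b = 0) ∧
    (w28 a b * w21 a b = 0) ∧
    (w29 a b * w18 a b = 0) ∧
    (w29 a b * w19 a b = 0) ∧
    (w29 a b * w20 a b = 0) ∧
    (w30 a b * w18 a b = 0) ∧
    (w30 a b * w19 a b = 0) ∧
    (w30 a b * w20 a b = 0) ∧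
    (w31 a b * w18 a b = 0) ∧
    (w31 a b * w19 a b = 0) ∧
    (w31 a b * w20 a b = 0) ∧
    (w32 a b * w18 a b = 0) ∧
    (w32 a b * w19 a b = 0) ∧
    (w32 a b * w20 a b = 0) ∧
    (w33 a b * w17 a b = 0) ∧
    (w34 a b * w15 a b = 0) ∧
    (w34 a b * w16 a b = 0) ∧
    (w35 a b * w15 a b = 0) ∧
    (w35 a b * w16 a b = 0) ∧
    (w36 a b * w13 a b = 0) ∧
    (w36 a b * w14 a b = 0) ∧
    (w37 a b * w13 a b = 0) ∧
    (w37 a b * w14 a b = 0) ∧
    (w39 a b * w11 a b = 0) ∧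
    (w39 a b * w12 a b = 0) := by
  have c22_25 : w22 a b * w25 a b = -(w25 a b * w22 a b) := h.ac _ _
  have c23_25 : w23 a b * w25 a b = -(w25 a b * w23 a b) := h.ac _ _
  have c24_25 : w24 a b * w25 a b = -(w25 a b * w24 a b) := h.ac _ _
  have c22_26 : w22 a b * w26 a b = -(w26 a b * w22 a b) := h.ac _ _
  have c23_26 : w23 a b * w26 a b = -(w26 a b * w23 a b) := h.ac _ _
  have c24_26 : w24 a b * w26 a b = -(w26 a b * w24 a b) := h.ac _ _
  have c22_27 : w22 a b * w27 a b = -(w27 a b * w22 a b) := h.ac _ _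
  have c23_27 : w23 a b * w27 a b = -(w27 a b * w23 a b) := h.ac _ _
  have c24_27 : w24 a b * w27 a b = -(w27 a b * w24 a b) := h.ac _ _
  have c21_28 : w21 a b * w28 a b = -(w28 a b * w21 a b) := h.ac _ _
  have c18_29 : w18 a b * w29 a b = -(w29 a b * w18 a b) := h.ac _ _
  have c19_29 : w19 a b * w29 a b = -(w29 a b * w19 a b) := h.ac _ _
  have c20_29 : w20 a b * w29 a b = -(w29 a b * w20 a b) := h.ac _ _
  have c18_30 : w18 a b * w30 a b = -(w30 a b * w18 a b) := h.ac _ _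
  have c19_30 : w19 a b * w30 a b = -(w30 a b * w19 a b) := h.ac _ _
  have c20_30 : w20 a b * w30 a b = -(w30 a b * w20 a b) := h.ac _ _
  have c18_31 : w18 a b * w31 a b = -(w31 a b * w18 a b) := h.ac _ _
  have c19_31 : w19 a b * w31 a b = -(w31 a b * w19 a b) := h.ac _ _
  have c20_31 : w20 a b * w31 a b = -(w31 a b * w20 a b) := h.ac _ _
  have c18_32 : w18 a b * w32 a b = -(w32 a b * w18 a b) := h.ac _ _
  have c19_32 : w19 a b * w32 a b = -(w32 a b * w19 a b) := h.ac _ _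
  have c20_32 : w20 a b * w32 a b = -(w32 a b * w20 a b) := h.ac _ _
  have c17_33 : w17 a b * w33 a b = -(w33 a b * w17 a b) := h.ac _ _
  have c15_34 : w15 a b * w34 a b = -(w34 a b * w15 a b) := h.ac _ _
  have c16_34 : w16 a b * w34 a b = -(w34 a b * w16 a b) := h.ac _ _
  have c15_35 : w15 a b * w35 a b = -(w35 a b * w15 a b) := h.ac _ _
  have c16_35 : w16 a b * w35 a b = -(w35 a b * w16 a b) := h.ac _ _
  have c13_36 : w13 a b * w36 a b = -(w36 a b * w13 a b) := h.ac _ _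
  have c14_36 : w14 a b * w36 a b = -(w36 a b * w14 a b) := h.ac _ _
  have c13_37 : w13 a b * w37 a b = -(w37 a b * w13 a b) := h.ac _ _
  have c14_37 : w14 a b * w37 a b = -(w37 a b * w14 a b) := h.ac _ _
  have c11_39 : w11 a b * w39 a b = -(w39 a b * w11 a b) := h.ac _ _
  have c12_39 : w12 a b * w39 a b = -(w39 a b * w12 a b) := h.ac _ _
  have t0 := h.e2 (w18 a b) (w0 a b) (w21 a b)
  simp only [m18_0 h a b, m23_0 h a b, m23_21 h a b, r18_21 h a b, add_mul, sub_mul, neg_mul, zero_mul, add_zero, zero_add, neg_zero, neg_neg, sub_zero, zero_sub] at t0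
  have t1 := h.e2 (w16 a b) (w0 a b) (w25 a b)
  simp only [c24_25, m16_0 h a b, m20_0 h a b, r16_25 h a b, r20_25 h a b, add_mul, sub_mul, neg_mul, zero_mul, add_zero, zero_add, neg_zero, neg_neg, sub_zero, zero_sub] at t1
  have t2 := h.e2 (w16 a b) (w0 a b) (w26 a b)
  simp only [c24_26, m16_0 h a b, m20_0 h a b, r16_26 h a b, r20_26 h a b, add_mul, sub_mul, neg_mul, zero_mul, add_zero, zero_add, neg_zero, neg_neg, sub_zero, zero_sub] at t2
  have t3 := h.e2 (w16 a b) (w0 a b) (w27 a b)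
  simp only [c24_27, m16_0 h a b, m20_0 h a b, r16_27 h a b, r20_27 h a b, add_mul, sub_mul, neg_mul, zero_mul, add_zero, zero_add, neg_zero, neg_neg, sub_zero, zero_sub] at t3
  have t4 := h.e2 (w11 a b) (w0 a b) (w33 a b)
  simp only [c17_33, m11_0 h a b, m14_0 h a b, r11_33 h a b, r14_33 h a b, add_mul, sub_mul, neg_mul, zero_mul, add_zero, zero_add, neg_zero, neg_neg, sub_zero, zero_sub] at t4
  have t5 := h.e3 (w7 a b) (w0 a b) (w2 a b) (w39 a b)
  simp only [c11_39, m7_0 h a b, m7_2 h a b, m8_2 a b, r7_39 h a b, r8_39 h a b, add_mul, sub_mul, neg_mul, zero_mul, add_zero, zero_add, neg_zero, neg_neg, sub_zero, zero_sub] at t5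
  have t6 := h.e3 (w7 a b) (w0 a b) (w3 a b) (w36 a b)
  simp only [c13_36, m7_0 h a b, m7_3 h a b, m8_3 a b, r7_36 h a b, r8_36 h a b, add_mul, sub_mul, neg_mul, zero_mul, add_zero, zero_add, neg_zero, neg_neg, sub_zero, zero_sub] at t6
  have t7 := h.e3 (w7 a b) (w0 a b) (w3 a b) (w37 a b)
  simp only [c13_37, m7_0 h a b, m7_3 h a b, m8_3 a b, r7_37 h a b, r8_37 h a b, add_mul, sub_mul, neg_mul, zero_mul, add_zero, zero_add, neg_zero, neg_neg, sub_zero, zero_sub] at t7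
  have t8 := h.e3 (w7 a b) (w0 a b) (w4 a b) (w34 a b)
  simp only [c15_34, m7_0 h a b, m7_4 h a b, m8_4 a b, r7_34 h a b, r8_34 h a b, add_mul, sub_mul, neg_mul, zero_mul, add_zero, zero_add, neg_zero, neg_neg, sub_zero, zero_sub] at t8
  have t9 := h.e3 (w7 a b) (w0 a b) (w4 a b) (w35 a b)
  simp only [c15_35, m7_0 h a b, m7_4 h a b, m8_4 a b, r7_35 h a b, r8_35 h a b, add_mul, sub_mul, neg_mul, zero_mul, add_zero, zero_add, neg_zero, neg_neg, sub_zero, zero_sub] at t9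
  have t10 := h.e3 (w7 a b) (w0 a b) (w5 a b) (w29 a b)
  simp only [c18_29, m7_0 h a b, m7_5 h a b, m8_5 a b, r7_29 h a b, r8_29 h a b, add_mul, sub_mul, neg_mul, zero_mul, add_zero, zero_add, neg_zero, neg_neg, sub_zero, zero_sub] at t10
  have t11 := h.e3 (w7 a b) (w0 a b) (w5 a b) (w30 a b)
  simp only [c18_30, m7_0 h a b, m7_5 h a b, m8_5 a b, r7_30 h a b, r8_30 h a b, add_mul, sub_mul, neg_mul, zero_mul, add_zero, zero_add, neg_zero, neg_neg, sub_zero, zero_sub] at t11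
  have t12 := h.e3 (w7 a b) (w0 a b) (w5 a b) (w31 a b)
  simp only [c18_31, m7_0 h a b, m7_5 h a b, m8_5 a b, r7_31 h a b, r8_31 h a b, add_mul, sub_mul, neg_mul, zero_mul, add_zero, zero_add, neg_zero, neg_neg, sub_zero, zero_sub] at t12
  have t13 := h.e3 (w7 a b) (w0 a b) (w5 a b) (w32 a b)
  simp only [c18_32, m7_0 h a b, m7_5 h a b, m8_5 a b, r7_32 h a b, r8_32 h a b, add_mul, sub_mul, neg_mul, zero_mul, add_zero, zero_add, neg_zero, neg_neg, sub_zero, zero_sub] at t13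
  have t14 := h.e3 (w7 a b) (w0 a b) (w6 a b) (w25 a b)
  simp only [c22_25, m7_0 h a b, m7_6 h a b, m8_6 a b, r7_25 h a b, r8_25 h a b, add_mul, sub_mul, neg_mul, zero_mul, add_zero, zero_add, neg_zero, neg_neg, sub_zero, zero_sub] at t14
  have t15 := h.e3 (w7 a b) (w0 a b) (w6 a b) (w26 a b)
  simp only [c22_26, m7_0 h a b, m7_6 h a b, m8_6 a b, r7_26 h a b, r8_26 h a b, add_mul, sub_mul, neg_mul, zero_mul, add_zero, zero_add, neg_zero, neg_neg, sub_zero, zero_sub] at t15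
  have t16 := h.e3 (w7 a b) (w0 a b) (w6 a b) (w27 a b)
  simp only [c22_27, m7_0 h a b, m7_6 h a b, m8_6 a b, r7_27 h a b, r8_27 h a b, add_mul, sub_mul, neg_mul, zero_mul, add_zero, zero_add, neg_zero, neg_neg, sub_zero, zero_sub] at t16
  have t17 := h.e3 (w11 a b) (w0 a b) (w7 a b) (w12 a b)
  simp only [m11_0 h a b, m11_7 a b, m14_12 h a b, m14_7 h a b, m36_0 h a b, m36_12 h a b, r11_12 h a b, add_mul, sub_mul, neg_mul, zero_mul, add_zero, zero_add, neg_zero, neg_neg, sub_zero, zero_sub] at t17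
  have t18 := h.e3 (w7 a b) (w0 a b) (w7 a b) (w23 a b)
  simp only [h.sq (w7 a b), m7_0 h a b, m8_7 a b, r7_23 h a b, r8_23 h a b, add_mul, sub_mul, neg_mul, zero_mul, add_zero, zero_add, neg_zero, neg_neg, sub_zero, zero_sub] at t18
  have t19 := h.e3 (w7 a b) (w0 a b) (w8 a b) (w19 a b)
  simp only [h.sq (w8 a b), m25_0 h a b, m25_19 h a b, m7_0 h a b, r7_19 h a b, r7_8 h a b, r8_19 h a b, add_mul, sub_mul, neg_mul, zero_mul, add_zero, zero_add, neg_zero, neg_neg, sub_zero, zero_sub] at t19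
  have t20 := h.e3 (w7 a b) (w0 a b) (w8 a b) (w20 a b)
  simp only [h.sq (w8 a b), m25_0 h a b, m25_20 h a b, m7_0 h a b, r7_20 h a b, r7_8 h a b, r8_20 h a b, add_mul, sub_mul, neg_mul, zero_mul, add_zero, zero_add, neg_zero, neg_neg, sub_zero, zero_sub] at t20
  have t21 := h.e3 (w1 a b) (w0 a b) (w10 a b) (w34 a b)
  simp only [c16_34, m1_0 a b, m39_0 h a b, m39_10 h a b, r1_10 h a b, r1_34 h a b, r2_10 h a b, r2_34 h a b, add_mul, sub_mul, neg_mul, zero_mul, add_zero, zero_add, neg_zero, neg_neg, sub_zero, zero_sub] at t21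
  have t22 := h.e3 (w1 a b) (w0 a b) (w10 a b) (w35 a b)
  simp only [c16_35, m1_0 a b, m39_0 h a b, m39_10 h a b, r1_10 h a b, r1_35 h a b, r2_10 h a b, r2_35 h a b, add_mul, sub_mul, neg_mul, zero_mul, add_zero, zero_add, neg_zero, neg_neg, sub_zero, zero_sub] at t22
  have t23 := h.e2 (w14 a b) (w1 a b) (w23 a b)
  simp only [m14_1 h a b, m19_1 h a b, r14_23 h a b, r19_23 h a b, add_mul, sub_mul, neg_mul, zero_mul, add_zero, zero_add, neg_zero, neg_neg, sub_zero, zero_sub] at t23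
  have t24 := h.e3 (w6 a b) (w1 a b) (w8 a b) (w19 a b)
  simp only [h.sq (w8 a b), m22_1 h a b, m22_19 h a b, m6_1 h a b, r6_19 h a b, r6_8 h a b, r8_19 h a b, add_mul, sub_mul, neg_mul, zero_mul, add_zero, zero_add, neg_zero, neg_neg, sub_zero, zero_sub] at t24
  have t25 := h.e3 (w6 a b) (w1 a b) (w8 a b) (w20 a b)
  simp only [h.sq (w8 a b), m22_1 h a b, m22_20 h a b, m6_1 h a b, r6_20 h a b, r6_8 h a b, r8_20 h a b, add_mul, sub_mul, neg_mul, zero_mul, add_zero, zero_add, neg_zero, neg_neg, sub_zero, zero_sub] at t25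
  have t26 := h.e3 (w0 a b) (w1 a b) (w9 a b) (w36 a b)
  simp only [c14_36, m39_1 h a b, m39_9 h a b, r0_1 h a b, r0_36 h a b, r0_9 h a b, r2_36 h a b, r2_9 h a b, add_mul, sub_mul, neg_mul, zero_mul, add_zero, zero_add, neg_zero, neg_neg, sub_zero, zero_sub] at t26
  have t27 := h.e3 (w0 a b) (w1 a b) (w9 a b) (w37 a b)
  simp only [c14_37, m39_1 h a b, m39_9 h a b, r0_1 h a b, r0_37 h a b, r0_9 h a b, r2_37 h a b, r2_9 h a b, add_mul, sub_mul, neg_mul, zero_mul, add_zero, zero_add, neg_zero, neg_neg, sub_zero, zero_sub] at t27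
  have t28 := h.e3 (w5 a b) (w2 a b) (w8 a b) (w19 a b)
  simp only [h.sq (w8 a b), m18_2 h a b, m39_2 h a b, m39_8 h a b, m5_2 h a b, r18_19 h a b, r5_19 h a b, r5_8 h a b, r8_19 h a b, add_mul, sub_mul, neg_mul, zero_mul, add_zero, zero_add, neg_zero, neg_neg, sub_zero, zero_sub] at t28
  have t29 := h.e3 (w5 a b) (w2 a b) (w8 a b) (w20 a b)
  simp only [h.sq (w8 a b), m18_2 h a b, m39_2 h a b, m39_8 h a b, m5_2 h a b, r18_20 h a b, r5_20 h a b, r5_8 h a b, r8_20 h a b, add_mul, sub_mul, neg_mul, zero_mul, add_zero, zero_add, neg_zero, neg_neg, sub_zero, zero_sub] at t29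
  have t30 := h.e3 (w1 a b) (w3 a b) (w10 a b) (w23 a b)
  simp only [m30_10 h a b, m30_3 h a b, m31_10 h a b, m31_3 h a b, m32_10 h a b, m32_3 h a b, r1_10 h a b, r1_23 h a b, r1_3 h a b, r5_10 h a b, r5_23 h a b, add_mul, sub_mul, neg_mul, zero_mul, add_zero, zero_add, neg_zero, neg_neg, sub_zero, zero_sub] at t30
  have t31 := h.e3 (w11 a b) (w0 a b) (w1 a b) (w32 a b)
  simp only [c19_32, c20_32, m11_0 h a b, m11_1 h a b, m14_1 h a b, m16_0 h a b, r11_32 h a b, r14_32 h a b, r16_32 h a b, add_mul, sub_mul, neg_mul, zero_mul, add_zero, zero_add, neg_zero, neg_neg, sub_zero, zero_sub] at t31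
  have t32 := h.e3 (w4 a b) (w0 a b) (w8 a b) (w32 a b)
  simp only [c18_32, c19_32, m15_0 h a b, m4_0 h a b, r15_32 h a b, r4_32 h a b, r4_8 h a b, r5_32 h a b, r5_8 h a b, add_mul, sub_mul, neg_mul, zero_mul, add_zero, zero_add, neg_zero, neg_neg, sub_zero, zero_sub] at t32
  refine ⟨?_, ?_, ?_, ?_, ?_, ?_, ?_, ?_, ?_, ?_, ?_, ?_, ?_, ?_, ?_, ?_, ?_, ?_, ?_, ?_, ?_, ?_, ?_, ?_, ?_, ?_, ?_, ?_, ?_, ?_, ?_, ?_, ?_⟩
  · linear_combination (norm := module) (1 : ℤ) • t14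
  · linear_combination (norm := module) (-1 : ℤ) • t18
  · linear_combination (norm := module) (-1 : ℤ) • t1
  · linear_combination (norm := module) (1 : ℤ) • t15
  · linear_combination (norm := module) (1 : ℤ) • t30
  · linear_combination (norm := module) (-1 : ℤ) • t2
  · linear_combination (norm := module) (1 : ℤ) • t16
  · linear_combination (norm := module) (-1 : ℤ) • t23
  · linear_combination (norm := module) (-1 : ℤ) • t3
  · linear_combination (norm := module) (-1 : ℤ) • t0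
  · linear_combination (norm := module) (1 : ℤ) • t10
  · linear_combination (norm := module) (1 : ℤ) • t19
  · linear_combination (norm := module) (1 : ℤ) • t20
  · linear_combination (norm := module) (1 : ℤ) • t11
  · linear_combination (norm := module) (1 : ℤ) • t24
  · linear_combination (norm := module) (1 : ℤ) • t25
  · linear_combination (norm := module) (1 : ℤ) • t12
  · linear_combination (norm := module) (1 : ℤ) • t28
  · linear_combination (norm := module) (1 : ℤ) • t29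
  · linear_combination (norm := module) (1 : ℤ) • t13
  · linear_combination (norm := module) (-1 : ℤ) • t13 + (-1 : ℤ) • t32
  · linear_combination (norm := module) (1 : ℤ) • t13 + (-1 : ℤ) • t31 + (1 : ℤ) • t32
  · linear_combination (norm := module) (-1 : ℤ) • t4
  · linear_combination (norm := module) (1 : ℤ) • t8
  · linear_combination (norm := module) (1 : ℤ) • t21
  · linear_combination (norm := module) (1 : ℤ) • t9
  · linear_combination (norm := module) (1 : ℤ) • t22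
  · linear_combination (norm := module) (1 : ℤ) • t6
  · linear_combination (norm := module) (-1 : ℤ) • t26
  · linear_combination (norm := module) (1 : ℤ) • t7
  · linear_combination (norm := module) (-1 : ℤ) • t27
  · linear_combination (norm := module) (1 : ℤ) • t5
  · linear_combination (norm := module) (-1 : ℤ) • t17
theorem m25_22 (h : Eng A) (a b : A) : w25 a b * w22 a b = 0 := (wt11_11 h a b).1
theorem r22_25 (h : Eng A) (a b : A) : w22 a b * w25 a b = 0 := by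
  rw [h.ac, m25_22 h, neg_zero]
theorem m25_23 (h : Eng A) (a b : A) : w25 a b * w23 a b = 0 := (wt11_11 h a b).2.1
theorem r23_25 (h : Eng A) (a b : A) : w23 a b * w25 a b = 0 := by
  rw [h.ac, m25_23 h, neg_zero]
theorem m25_24 (h : Eng A) (a b : A) : w25 a b * w24 a b = 0 := (wt11_11 h a b).2.2.1
theorem r24_25 (h : Eng A) (a b : A) : w24 a b * w25 a b = 0 := by
  rw [h.ac, m25_24 h, neg_zero]
theorem m26_22 (h : Eng A) (a b : A) : w26 a b * w22 a b = 0 := (wt11_11 h a b).2.2.2.1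
theorem r22_26 (h : Eng A) (a b : A) : w22 a b * w26 a b = 0 := by
  rw [h.ac, m26_22 h, neg_zero]
theorem m26_23 (h : Eng A) (a b : A) : w26 a b * w23 a b = 0 := (wt11_11 h a b).2.2.2.2.1
theorem r23_26 (h : Eng A) (a b : A) : w23 a b * w26 a b = 0 := by
  rw [h.ac, m26_23 h, neg_zero]
theorem m26_24 (h : Eng A) (a b : A) : w26 a b * w24 a b = 0 := (wt11_11 h a b).2.2.2.2.2.1
theorem r24_26 (h : Eng A) (a b : A) : w24 a b * w26 a b = 0 := by
  rw [h.ac, m26_24 h, neg_zero]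
theorem m27_22 (h : Eng A) (a b : A) : w27 a b * w22 a b = 0 := (wt11_11 h a b).2.2.2.2.2.2.1
theorem r22_27 (h : Eng A) (a b : A) : w22 a b * w27 a b = 0 := by
  rw [h.ac, m27_22 h, neg_zero]
theorem m27_23 (h : Eng A) (a b : A) : w27 a b * w23 a b = 0 := (wt11_11 h a b).2.2.2.2.2.2.2.1
theorem r23_27 (h : Eng A) (a b : A) : w23 a b * w27 a b = 0 := by
  rw [h.ac, m27_23 h, neg_zero]
theorem m27_24 (h : Eng A) (a b : A) : w27 a b * w24 a b = 0 := (wt11_11 h a b).2.2.2.2.2.2.2.2.1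
theorem r24_27 (h : Eng A) (a b : A) : w24 a b * w27 a b = 0 := by
  rw [h.ac, m27_24 h, neg_zero]
theorem m28_21 (h : Eng A) (a b : A) : w28 a b * w21 a b = 0 := (wt11_11 h a b).2.2.2.2.2.2.2.2.2.1
theorem r21_28 (h : Eng A) (a b : A) : w21 a b * w28 a b = 0 := by
  rw [h.ac, m28_21 h, neg_zero]
theorem m29_18 (h : Eng A) (a b : A) : w29 a b * w18 a b = 0 := (wt11_11 h a b).2.2.2.2.2.2.2.2.2.2.1
theorem r18_29 (h : Eng A) (a b : A) : w18 a b * w29 a b = 0 := by
  rw [h.ac, m29_18 h, neg_zero]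
theorem m29_19 (h : Eng A) (a b : A) : w29 a b * w19 a b = 0 := (wt11_11 h a b).2.2.2.2.2.2.2.2.2.2.2.1
theorem r19_29 (h : Eng A) (a b : A) : w19 a b * w29 a b = 0 := by
  rw [h.ac, m29_19 h, neg_zero]
theorem m29_20 (h : Eng A) (a b : A) : w29 a b * w20 a b = 0 := (wt11_11 h a b).2.2.2.2.2.2.2.2.2.2.2.2.1
theorem r20_29 (h : Eng A) (a b : A) : w20 a b * w29 a b = 0 := by
  rw [h.ac, m29_20 h, neg_zero]
theorem m30_18 (h : Eng A) (a b : A) : w30 a b * w18 a b = 0 := (wt11_11 h a b).2.2.2.2.2.2.2.2.2.2.2.2.2.1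
theorem r18_30 (h : Eng A) (a b : A) : w18 a b * w30 a b = 0 := by
  rw [h.ac, m30_18 h, neg_zero]
theorem m30_19 (h : Eng A) (a b : A) : w30 a b * w19 a b = 0 := (wt11_11 h a b).2.2.2.2.2.2.2.2.2.2.2.2.2.2.1
theorem r19_30 (h : Eng A) (a b : A) : w19 a b * w30 a b = 0 := by
  rw [h.ac, m30_19 h, neg_zero]
theorem m30_20 (h : Eng A) (a b : A) : w30 a b * w20 a b = 0 := (wt11_11 h a b).2.2.2.2.2.2.2.2.2.2.2.2.2.2.2.1
theorem r20_30 (h : Eng A) (a b : A) : w20 a b * w30 a b = 0 := by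
  rw [h.ac, m30_20 h, neg_zero]
theorem m31_18 (h : Eng A) (a b : A) : w31 a b * w18 a b = 0 := (wt11_11 h a b).2.2.2.2.2.2.2.2.2.2.2.2.2.2.2.2.1
theorem r18_31 (h : Eng A) (a b : A) : w18 a b * w31 a b = 0 := by
  rw [h.ac, m31_18 h, neg_zero]
theorem m31_19 (h : Eng A) (a b : A) : w31 a b * w19 a b = 0 := (wt11_11 h a b).2.2.2.2.2.2.2.2.2.2.2.2.2.2.2.2.2.1
theorem r19_31 (h : Eng A) (a b : A) : w19 a b * w31 a b = 0 := by
  rw [h.ac, m31_19 h, neg_zero]
theorem m31_20 (h : Eng A) (a b : A) : w31 a b * w20 a b = 0 := (wt11_11 h a b).2.2.2.2.2.2.2.2.2.2.2.2.2.2.2.2.2.2.1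
theorem r20_31 (h : Eng A) (a b : A) : w20 a b * w31 a b = 0 := by
  rw [h.ac, m31_20 h, neg_zero]
theorem m32_18 (h : Eng A) (a b : A) : w32 a b * w18 a b = 0 := (wt11_11 h a b).2.2.2.2.2.2.2.2.2.2.2.2.2.2.2.2.2.2.2.1
theorem r18_32 (h : Eng A) (a b : A) : w18 a b * w32 a b = 0 := by
  rw [h.ac, m32_18 h, neg_zero]
theorem m32_19 (h : Eng A) (a b : A) : w32 a b * w19 a b = 0 := (wt11_11 h a b).2.2.2.2.2.2.2.2.2.2.2.2.2.2.2.2.2.2.2.2.1
theorem r19_32 (h : Eng A) (a b : A) : w19 a b * w32 a b = 0 := by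
  rw [h.ac, m32_19 h, neg_zero]
theorem m32_20 (h : Eng A) (a b : A) : w32 a b * w20 a b = 0 := (wt11_11 h a b).2.2.2.2.2.2.2.2.2.2.2.2.2.2.2.2.2.2.2.2.2.1
theorem r20_32 (h : Eng A) (a b : A) : w20 a b * w32 a b = 0 := by
  rw [h.ac, m32_20 h, neg_zero]
theorem m33_17 (h : Eng A) (a b : A) : w33 a b * w17 a b = 0 := (wt11_11 h a b).2.2.2.2.2.2.2.2.2.2.2.2.2.2.2.2.2.2.2.2.2.2.1
theorem r17_33 (h : Eng A) (a b : A) : w17 a b * w33 a b = 0 := by
  rw [h.ac, m33_17 h, neg_zero]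
theorem m34_15 (h : Eng A) (a b : A) : w34 a b * w15 a b = 0 := (wt11_11 h a b).2.2.2.2.2.2.2.2.2.2.2.2.2.2.2.2.2.2.2.2.2.2.2.1
theorem r15_34 (h : Eng A) (a b : A) : w15 a b * w34 a b = 0 := by
  rw [h.ac, m34_15 h, neg_zero]
theorem m34_16 (h : Eng A) (a b : A) : w34 a b * w16 a b = 0 := (wt11_11 h a b).2.2.2.2.2.2.2.2.2.2.2.2.2.2.2.2.2.2.2.2.2.2.2.2.1
theorem r16_34 (h : Eng A) (a b : A) : w16 a b * w34 a b = 0 := by
  rw [h.ac, m34_16 h, neg_zero]
theorem m35_15 (h : Eng A) (a b : A) : w35 a b * w15 a b = 0 := (wt11_11 h a b).2.2.2.2.2.2.2.2.2.2.2.2.2.2.2.2.2.2.2.2.2.2.2.2.2.1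
theorem r15_35 (h : Eng A) (a b : A) : w15 a b * w35 a b = 0 := by
  rw [h.ac, m35_15 h, neg_zero]
theorem m35_16 (h : Eng A) (a b : A) : w35 a b * w16 a b = 0 := (wt11_11 h a b).2.2.2.2.2.2.2.2.2.2.2.2.2.2.2.2.2.2.2.2.2.2.2.2.2.2.1
theorem r16_35 (h : Eng A) (a b : A) : w16 a b * w35 a b = 0 := by
  rw [h.ac, m35_16 h, neg_zero]
theorem m36_13 (h : Eng A) (a b : A) : w36 a b * w13 a b = 0 := (wt11_11 h a b).2.2.2.2.2.2.2.2.2.2.2.2.2.2.2.2.2.2.2.2.2.2.2.2.2.2.2.1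
theorem r13_36 (h : Eng A) (a b : A) : w13 a b * w36 a b = 0 := by
  rw [h.ac, m36_13 h, neg_zero]
theorem m36_14 (h : Eng A) (a b : A) : w36 a b * w14 a b = 0 := (wt11_11 h a b).2.2.2.2.2.2.2.2.2.2.2.2.2.2.2.2.2.2.2.2.2.2.2.2.2.2.2.2.1
theorem r14_36 (h : Eng A) (a b : A) : w14 a b * w36 a b = 0 := by
  rw [h.ac, m36_14 h, neg_zero]
theorem m37_13 (h : Eng A) (a b : A) : w37 a b * w13 a b = 0 := (wt11_11 h a b).2.2.2.2.2.2.2.2.2.2.2.2.2.2.2.2.2.2.2.2.2.2.2.2.2.2.2.2.2.1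
theorem r13_37 (h : Eng A) (a b : A) : w13 a b * w37 a b = 0 := by
  rw [h.ac, m37_13 h, neg_zero]
theorem m37_14 (h : Eng A) (a b : A) : w37 a b * w14 a b = 0 := (wt11_11 h a b).2.2.2.2.2.2.2.2.2.2.2.2.2.2.2.2.2.2.2.2.2.2.2.2.2.2.2.2.2.2.1
theorem r14_37 (h : Eng A) (a b : A) : w14 a b * w37 a b = 0 := by
  rw [h.ac, m37_14 h, neg_zero]
theorem m39_11 (h : Eng A) (a b : A) : w39 a b * w11 a b = 0 := (wt11_11 h a b).2.2.2.2.2.2.2.2.2.2.2.2.2.2.2.2.2.2.2.2.2.2.2.2.2.2.2.2.2.2.2.1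
theorem r11_39 (h : Eng A) (a b : A) : w11 a b * w39 a b = 0 := by
  rw [h.ac, m39_11 h, neg_zero]
theorem m39_12 (h : Eng A) (a b : A) : w39 a b * w12 a b = 0 := (wt11_11 h a b).2.2.2.2.2.2.2.2.2.2.2.2.2.2.2.2.2.2.2.2.2.2.2.2.2.2.2.2.2.2.2.2
theorem r12_39 (h : Eng A) (a b : A) : w12 a b * w39 a b = 0 := by
  rw [h.ac, m39_12 h, neg_zero]

theorem wt10_12 (h : Eng A) (a b : A) :
    (w26 a b * w25 a b = 0) ∧
    (w27 a b * w25 a b = 0) ∧
    (w27 a b * w26 a b = 0) ∧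
    (w29 a b * w21 a b = 0) ∧
    (w30 a b * w21 a b = 0) ∧
    (w31 a b * w21 a b = 0) ∧
    (w32 a b * w21 a b = 0) ∧
    (w33 a b * w18 a b = 0) ∧
    (w33 a b * w19 a b = 0) ∧
    (w33 a b * w20 a b = 0) ∧
    (w36 a b * w15 a b = 0) ∧
    (w36 a b * w16 a b = 0) ∧
    (w37 a b * w15 a b = 0) ∧
    (w37 a b * w16 a b = 0) ∧
    (w40 a b * w11 a b = 0) ∧
    (w40 a b * w12 a b = 0) := by
  have c25_26 : w25 a b * w26 a b = -(w26 a b * w25 a b) := h.ac _ _
  have c25_27 : w25 a b * w27 a b = -(w27 a b * w25 a b) := h.ac _ _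
  have c26_27 : w26 a b * w27 a b = -(w27 a b * w26 a b) := h.ac _ _
  have c21_29 : w21 a b * w29 a b = -(w29 a b * w21 a b) := h.ac _ _
  have c21_30 : w21 a b * w30 a b = -(w30 a b * w21 a b) := h.ac _ _
  have c21_31 : w21 a b * w31 a b = -(w31 a b * w21 a b) := h.ac _ _
  have c21_32 : w21 a b * w32 a b = -(w32 a b * w21 a b) := h.ac _ _
  have c18_33 : w18 a b * w33 a b = -(w33 a b * w18 a b) := h.ac _ _
  have c19_33 : w19 a b * w33 a b = -(w33 a b * w19 a b) := h.ac _ _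
  have c20_33 : w20 a b * w33 a b = -(w33 a b * w20 a b) := h.ac _ _
  have c15_36 : w15 a b * w36 a b = -(w36 a b * w15 a b) := h.ac _ _
  have c16_36 : w16 a b * w36 a b = -(w36 a b * w16 a b) := h.ac _ _
  have c15_37 : w15 a b * w37 a b = -(w37 a b * w15 a b) := h.ac _ _
  have c16_37 : w16 a b * w37 a b = -(w37 a b * w16 a b) := h.ac _ _
  have c11_40 : w11 a b * w40 a b = -(w40 a b * w11 a b) := h.ac _ _
  have c12_40 : w12 a b * w40 a b = -(w40 a b * w12 a b) := h.ac _ _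
  have t0 := h.e3 (w7 a b) (w0 a b) (w2 a b) (w40 a b)
  simp only [c11_40, m7_0 h a b, m7_2 h a b, m8_2 a b, r7_40 h a b, r8_40 h a b, add_mul, sub_mul, neg_mul, zero_mul, add_zero, zero_add, neg_zero, neg_neg, sub_zero, zero_sub] at t0
  have t1 := h.e3 (w7 a b) (w0 a b) (w4 a b) (w36 a b)
  simp only [c15_36, m7_0 h a b, m7_4 h a b, m8_4 a b, r7_36 h a b, r8_36 h a b, add_mul, sub_mul, neg_mul, zero_mul, add_zero, zero_add, neg_zero, neg_neg, sub_zero, zero_sub] at t1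
  have t2 := h.e3 (w7 a b) (w0 a b) (w4 a b) (w37 a b)
  simp only [c15_37, m7_0 h a b, m7_4 h a b, m8_4 a b, r7_37 h a b, r8_37 h a b, add_mul, sub_mul, neg_mul, zero_mul, add_zero, zero_add, neg_zero, neg_neg, sub_zero, zero_sub] at t2
  have t3 := h.e3 (w7 a b) (w0 a b) (w5 a b) (w33 a b)
  simp only [c18_33, m7_0 h a b, m7_5 h a b, m8_5 a b, r7_33 h a b, r8_33 h a b, add_mul, sub_mul, neg_mul, zero_mul, add_zero, zero_add, neg_zero, neg_neg, sub_zero, zero_sub] at t3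
  have t4 := h.e3 (w7 a b) (w0 a b) (w7 a b) (w26 a b)
  simp only [c25_26, h.sq (w7 a b), m7_0 h a b, m8_7 a b, r7_26 h a b, r8_26 h a b, add_mul, sub_mul, neg_mul, zero_mul, add_zero, zero_add, neg_zero, neg_neg, sub_zero, zero_sub] at t4
  have t5 := h.e3 (w7 a b) (w0 a b) (w7 a b) (w27 a b)
  simp only [c25_27, h.sq (w7 a b), m7_0 h a b, m8_7 a b, r7_27 h a b, r8_27 h a b, add_mul, sub_mul, neg_mul, zero_mul, add_zero, zero_add, neg_zero, neg_neg, sub_zero, zero_sub] at t5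
  have t6 := h.e3 (w7 a b) (w0 a b) (w8 a b) (w21 a b)
  simp only [h.sq (w8 a b), m25_0 h a b, m25_21 h a b, m7_0 h a b, r7_21 h a b, r7_8 h a b, r8_21 h a b, add_mul, sub_mul, neg_mul, zero_mul, add_zero, zero_add, neg_zero, neg_neg, sub_zero, zero_sub] at t6
  have t7 := h.e3 (w1 a b) (w0 a b) (w10 a b) (w36 a b)
  simp only [c16_36, m1_0 a b, m40_0 h a b, m40_10 h a b, r1_10 h a b, r1_36 h a b, r2_10 h a b, r2_36 h a b, add_mul, sub_mul, neg_mul, zero_mul, add_zero, zero_add, neg_zero, neg_neg, sub_zero, zero_sub] at t7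
  have t8 := h.e3 (w1 a b) (w0 a b) (w10 a b) (w37 a b)
  simp only [c16_37, m1_0 a b, m40_0 h a b, m40_10 h a b, r1_10 h a b, r1_37 h a b, r2_10 h a b, r2_37 h a b, add_mul, sub_mul, neg_mul, zero_mul, add_zero, zero_add, neg_zero, neg_neg, sub_zero, zero_sub] at t8
  have t9 := h.e2 (w31 a b) (w1 a b) (w12 a b)
  simp only [m31_1 h a b, m31_12 h a b, m37_1 h a b, m37_12 h a b, add_mul, sub_mul, neg_mul, zero_mul, add_zero, zero_add, neg_zero, neg_neg, sub_zero, zero_sub] at t9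
  have t10 := h.e2 (w18 a b) (w1 a b) (w19 a b)
  simp only [m18_1 h a b, m26_1 h a b, m26_19 h a b, r18_19 h a b, add_mul, sub_mul, neg_mul, zero_mul, add_zero, zero_add, neg_zero, neg_neg, sub_zero, zero_sub] at t10
  have t11 := h.e2 (w18 a b) (w1 a b) (w20 a b)
  simp only [m18_1 h a b, m26_1 h a b, m26_20 h a b, r18_20 h a b, add_mul, sub_mul, neg_mul, zero_mul, add_zero, zero_add, neg_zero, neg_neg, sub_zero, zero_sub] at t11
  have t12 := h.e2 (w14 a b) (w1 a b) (w26 a b)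
  simp only [m14_1 h a b, m19_1 h a b, r14_26 h a b, r19_26 h a b, add_mul, sub_mul, neg_mul, zero_mul, add_zero, zero_add, neg_zero, neg_neg, sub_zero, zero_sub] at t12
  have t13 := h.e2 (w11 a b) (w1 a b) (w30 a b)
  simp only [c21_30, m11_1 h a b, m16_1 h a b, r11_30 h a b, r16_30 h a b, add_mul, sub_mul, neg_mul, zero_mul, add_zero, zero_add, neg_zero, neg_neg, sub_zero, zero_sub] at t13
  have t14 := h.e2 (w11 a b) (w1 a b) (w31 a b)
  simp only [c21_31, m11_1 h a b, m16_1 h a b, r11_31 h a b, r16_31 h a b, add_mul, sub_mul, neg_mul, zero_mul, add_zero, zero_add, neg_zero, neg_neg, sub_zero, zero_sub] at t14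
  have t15 := h.e2 (w11 a b) (w1 a b) (w32 a b)
  simp only [c21_32, m11_1 h a b, m16_1 h a b, r11_32 h a b, r16_32 h a b, add_mul, sub_mul, neg_mul, zero_mul, add_zero, zero_add, neg_zero, neg_neg, sub_zero, zero_sub] at t15
  refine ⟨?_, ?_, ?_, ?_, ?_, ?_, ?_, ?_, ?_, ?_, ?_, ?_, ?_, ?_, ?_, ?_⟩
  · linear_combination (norm := module) (1 : ℤ) • t4
  · linear_combination (norm := module) (1 : ℤ) • t5
  · linear_combination (norm := module) (-1 : ℤ) • t12
  · linear_combination (norm := module) (1 : ℤ) • t6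
  · linear_combination (norm := module) (-1 : ℤ) • t13
  · linear_combination (norm := module) (-1 : ℤ) • t14
  · linear_combination (norm := module) (-1 : ℤ) • t15
  · linear_combination (norm := module) (1 : ℤ) • t3
  · linear_combination (norm := module) (-1 : ℤ) • t10
  · linear_combination (norm := module) (-1 : ℤ) • t11
  · linear_combination (norm := module) (1 : ℤ) • t1
  · linear_combination (norm := module) (1 : ℤ) • t7
  · linear_combination (norm := module) (1 : ℤ) • t2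
  · linear_combination (norm := module) (1 : ℤ) • t8
  · linear_combination (norm := module) (1 : ℤ) • t0
  · linear_combination (norm := module) (-1 : ℤ) • t9
theorem m26_25 (h : Eng A) (a b : A) : w26 a b * w25 a b = 0 := (wt10_12 h a b).1
theorem r25_26 (h : Eng A) (a b : A) : w25 a b * w26 a b = 0 := by
  rw [h.ac, m26_25 h, neg_zero]
theorem m27_25 (h : Eng A) (a b : A) : w27 a b * w25 a b = 0 := (wt10_12 h a b).2.1
theorem r25_27 (h : Eng A) (a b : A) : w25 a b * w27 a b = 0 := by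
  rw [h.ac, m27_25 h, neg_zero]
theorem m27_26 (h : Eng A) (a b : A) : w27 a b * w26 a b = 0 := (wt10_12 h a b).2.2.1
theorem r26_27 (h : Eng A) (a b : A) : w26 a b * w27 a b = 0 := by
  rw [h.ac, m27_26 h, neg_zero]
theorem m29_21 (h : Eng A) (a b : A) : w29 a b * w21 a b = 0 := (wt10_12 h a b).2.2.2.1
theorem r21_29 (h : Eng A) (a b : A) : w21 a b * w29 a b = 0 := by
  rw [h.ac, m29_21 h, neg_zero]
theorem m30_21 (h : Eng A) (a b : A) : w30 a b * w21 a b = 0 := (wt10_12 h a b).2.2.2.2.1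
theorem r21_30 (h : Eng A) (a b : A) : w21 a b * w30 a b = 0 := by
  rw [h.ac, m30_21 h, neg_zero]
theorem m31_21 (h : Eng A) (a b : A) : w31 a b * w21 a b = 0 := (wt10_12 h a b).2.2.2.2.2.1
theorem r21_31 (h : Eng A) (a b : A) : w21 a b * w31 a b = 0 := by
  rw [h.ac, m31_21 h, neg_zero]
theorem m32_21 (h : Eng A) (a b : A) : w32 a b * w21 a b = 0 := (wt10_12 h a b).2.2.2.2.2.2.1
theorem r21_32 (h : Eng A) (a b : A) : w21 a b * w32 a b = 0 := by
  rw [h.ac, m32_21 h, neg_zero]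
theorem m33_18 (h : Eng A) (a b : A) : w33 a b * w18 a b = 0 := (wt10_12 h a b).2.2.2.2.2.2.2.1
theorem r18_33 (h : Eng A) (a b : A) : w18 a b * w33 a b = 0 := by
  rw [h.ac, m33_18 h, neg_zero]
theorem m33_19 (h : Eng A) (a b : A) : w33 a b * w19 a b = 0 := (wt10_12 h a b).2.2.2.2.2.2.2.2.1
theorem r19_33 (h : Eng A) (a b : A) : w19 a b * w33 a b = 0 := by
  rw [h.ac, m33_19 h, neg_zero]
theorem m33_20 (h : Eng A) (a b : A) : w33 a b * w20 a b = 0 := (wt10_12 h a b).2.2.2.2.2.2.2.2.2.1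
theorem r20_33 (h : Eng A) (a b : A) : w20 a b * w33 a b = 0 := by
  rw [h.ac, m33_20 h, neg_zero]
theorem m36_15 (h : Eng A) (a b : A) : w36 a b * w15 a b = 0 := (wt10_12 h a b).2.2.2.2.2.2.2.2.2.2.1
theorem r15_36 (h : Eng A) (a b : A) : w15 a b * w36 a b = 0 := by
  rw [h.ac, m36_15 h, neg_zero]
theorem m36_16 (h : Eng A) (a b : A) : w36 a b * w16 a b = 0 := (wt10_12 h a b).2.2.2.2.2.2.2.2.2.2.2.1
theorem r16_36 (h : Eng A) (a b : A) : w16 a b * w36 a b = 0 := by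
  rw [h.ac, m36_16 h, neg_zero]
theorem m37_15 (h : Eng A) (a b : A) : w37 a b * w15 a b = 0 := (wt10_12 h a b).2.2.2.2.2.2.2.2.2.2.2.2.1
theorem r15_37 (h : Eng A) (a b : A) : w15 a b * w37 a b = 0 := by
  rw [h.ac, m37_15 h, neg_zero]
theorem m37_16 (h : Eng A) (a b : A) : w37 a b * w16 a b = 0 := (wt10_12 h a b).2.2.2.2.2.2.2.2.2.2.2.2.2.1
theorem r16_37 (h : Eng A) (a b : A) : w16 a b * w37 a b = 0 := by
  rw [h.ac, m37_16 h, neg_zero]
theorem m40_11 (h : Eng A) (a b : A) : w40 a b * w11 a b = 0 := (wt10_12 h a b).2.2.2.2.2.2.2.2.2.2.2.2.2.2.1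
theorem r11_40 (h : Eng A) (a b : A) : w11 a b * w40 a b = 0 := by
  rw [h.ac, m40_11 h, neg_zero]
theorem m40_12 (h : Eng A) (a b : A) : w40 a b * w12 a b = 0 := (wt10_12 h a b).2.2.2.2.2.2.2.2.2.2.2.2.2.2.2
theorem r12_40 (h : Eng A) (a b : A) : w12 a b * w40 a b = 0 := by
  rw [h.ac, m40_12 h, neg_zero]

theorem wt9_13 (h : Eng A) (a b : A) :
    (w33 a b * w21 a b = 0) := by
  have c21_33 : w21 a b * w33 a b = -(w33 a b * w21 a b) := h.ac _ _
  have t0 := h.e2 (w1 a b) (w21 a b) (w0 a b)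
  simp only [m1_0 a b, r1_21 h a b, r2_21 h a b, add_mul, sub_mul, neg_mul, zero_mul, add_zero, zero_add, neg_zero, neg_neg, sub_zero, zero_sub] at t0
  · linear_combination (norm := module) (1 : ℤ) • t0
theorem m33_21 (h : Eng A) (a b : A) : w33 a b * w21 a b = 0 := (wt9_13 h a b)
theorem r21_33 (h : Eng A) (a b : A) : w21 a b * w33 a b = 0 := by
  rw [h.ac, m33_21 h, neg_zero]

theorem wt13_10 (h : Eng A) (a b : A) :
    (w28 a b * w22 a b = 0) ∧
    (w28 a b * w23 a b = 0) ∧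
    (w28 a b * w24 a b = 0) ∧
    (w34 a b * w17 a b = 0) ∧
    (w35 a b * w17 a b = 0) ∧
    (w38 a b * w13 a b = 0) ∧
    (w38 a b * w14 a b = 0) := by
  have c22_28 : w22 a b * w28 a b = -(w28 a b * w22 a b) := h.ac _ _
  have c23_28 : w23 a b * w28 a b = -(w28 a b * w23 a b) := h.ac _ _
  have c24_28 : w24 a b * w28 a b = -(w28 a b * w24 a b) := h.ac _ _
  have c17_34 : w17 a b * w34 a b = -(w34 a b * w17 a b) := h.ac _ _
  have c17_35 : w17 a b * w35 a b = -(w35 a b * w17 a b) := h.ac _ _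
  have c13_38 : w13 a b * w38 a b = -(w38 a b * w13 a b) := h.ac _ _
  have c14_38 : w14 a b * w38 a b = -(w38 a b * w14 a b) := h.ac _ _
  have t0 := h.e2 (w31 a b) (w0 a b) (w13 a b)
  simp only [m31_0 h a b, m31_13 h a b, m35_0 h a b, m35_13 h a b, add_mul, sub_mul, neg_mul, zero_mul, add_zero, zero_add, neg_zero, neg_neg, sub_zero, zero_sub] at t0
  have t1 := h.e2 (w31 a b) (w0 a b) (w14 a b)
  simp only [m31_0 h a b, m31_14 h a b, m35_0 h a b, m35_14 h a b, add_mul, sub_mul, neg_mul, zero_mul, add_zero, zero_add, neg_zero, neg_neg, sub_zero, zero_sub] at t1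
  have t2 := h.e2 (w18 a b) (w0 a b) (w22 a b)
  simp only [m18_0 h a b, m23_0 h a b, m23_22 h a b, r18_22 h a b, add_mul, sub_mul, neg_mul, zero_mul, add_zero, zero_add, neg_zero, neg_neg, sub_zero, zero_sub] at t2
  have t3 := h.e2 (w18 a b) (w0 a b) (w23 a b)
  simp only [h.sq (w23 a b), m18_0 h a b, m23_0 h a b, r18_23 h a b, add_mul, sub_mul, neg_mul, zero_mul, add_zero, zero_add, neg_zero, neg_neg, sub_zero, zero_sub] at t3
  have t4 := h.e2 (w18 a b) (w0 a b) (w24 a b)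
  simp only [m18_0 h a b, m23_0 h a b, r18_24 h a b, r23_24 h a b, add_mul, sub_mul, neg_mul, zero_mul, add_zero, zero_add, neg_zero, neg_neg, sub_zero, zero_sub] at t4
  have t5 := h.e2 (w11 a b) (w0 a b) (w34 a b)
  simp only [c17_34, m11_0 h a b, m14_0 h a b, r11_34 h a b, r14_34 h a b, add_mul, sub_mul, neg_mul, zero_mul, add_zero, zero_add, neg_zero, neg_neg, sub_zero, zero_sub] at t5
  have t6 := h.e2 (w11 a b) (w0 a b) (w35 a b)
  simp only [c17_35, m11_0 h a b, m14_0 h a b, r11_35 h a b, r14_35 h a b, add_mul, sub_mul, neg_mul, zero_mul, add_zero, zero_add, neg_zero, neg_neg, sub_zero, zero_sub] at t6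
  refine ⟨?_, ?_, ?_, ?_, ?_, ?_, ?_⟩
  · linear_combination (norm := module) (-1 : ℤ) • t2
  · linear_combination (norm := module) (-1 : ℤ) • t3
  · linear_combination (norm := module) (-1 : ℤ) • t4
  · linear_combination (norm := module) (-1 : ℤ) • t5
  · linear_combination (norm := module) (-1 : ℤ) • t6
  · linear_combination (norm := module) (-1 : ℤ) • t0
  · linear_combination (norm := module) (-1 : ℤ) • t1
theorem m28_22 (h : Eng A) (a b : A) : w28 a b * w22 a b = 0 := (wt13_10 h a b).1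
theorem r22_28 (h : Eng A) (a b : A) : w22 a b * w28 a b = 0 := by
  rw [h.ac, m28_22 h, neg_zero]
theorem m28_23 (h : Eng A) (a b : A) : w28 a b * w23 a b = 0 := (wt13_10 h a b).2.1
theorem r23_28 (h : Eng A) (a b : A) : w23 a b * w28 a b = 0 := by
  rw [h.ac, m28_23 h, neg_zero]
theorem m28_24 (h : Eng A) (a b : A) : w28 a b * w24 a b = 0 := (wt13_10 h a b).2.2.1
theorem r24_28 (h : Eng A) (a b : A) : w24 a b * w28 a b = 0 := by
  rw [h.ac, m28_24 h, neg_zero]
theorem m34_17 (h : Eng A) (a b : A) : w34 a b * w17 a b = 0 := (wt13_10 h a b).2.2.2.1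
theorem r17_34 (h : Eng A) (a b : A) : w17 a b * w34 a b = 0 := by
  rw [h.ac, m34_17 h, neg_zero]
theorem m35_17 (h : Eng A) (a b : A) : w35 a b * w17 a b = 0 := (wt13_10 h a b).2.2.2.2.1
theorem r17_35 (h : Eng A) (a b : A) : w17 a b * w35 a b = 0 := by
  rw [h.ac, m35_17 h, neg_zero]
theorem m38_13 (h : Eng A) (a b : A) : w38 a b * w13 a b = 0 := (wt13_10 h a b).2.2.2.2.2.1
theorem r13_38 (h : Eng A) (a b : A) : w13 a b * w38 a b = 0 := by
  rw [h.ac, m38_13 h, neg_zero]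
theorem m38_14 (h : Eng A) (a b : A) : w38 a b * w14 a b = 0 := (wt13_10 h a b).2.2.2.2.2.2
theorem r14_38 (h : Eng A) (a b : A) : w14 a b * w38 a b = 0 := by
  rw [h.ac, m38_14 h, neg_zero]

theorem wt12_11 (h : Eng A) (a b : A) :
    (w28 a b * w25 a b = 0) ∧
    (w28 a b * w26 a b = 0) ∧
    (w28 a b * w27 a b = 0) ∧
    (w29 a b * w22 a b = 0) ∧
    (w29 a b * w23 a b = 0) ∧
    (w29 a b * w24 a b = 0) ∧
    (w30 a b * w22 a b = 0) ∧
    (w30 a b * w23 a b = 0) ∧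
    (w30 a b * w24 a b = 0) ∧
    (w31 a b * w22 a b = 0) ∧
    (w31 a b * w23 a b = 0) ∧
    (w31 a b * w24 a b = 0) ∧
    (w32 a b * w22 a b = 0) ∧
    (w32 a b * w23 a b = 0) ∧
    (w32 a b * w24 a b = 0) ∧
    (w34 a b * w18 a b = 0) ∧
    (w34 a b * w19 a b = 0) ∧
    (w34 a b * w20 a b = 0) ∧
    (w35 a b * w18 a b = 0) ∧
    (w35 a b * w19 a b = 0) ∧
    (w35 a b * w20 a b = 0) ∧
    (w36 a b * w17 a b = 0) ∧
    (w37 a b * w17 a b = 0) ∧
    (w38 a b * w15 a b = 0) ∧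
    (w38 a b * w16 a b = 0) ∧
    (w39 a b * w13 a b = 0) ∧
    (w39 a b * w14 a b = 0) := by
  have c25_28 : w25 a b * w28 a b = -(w28 a b * w25 a b) := h.ac _ _
  have c26_28 : w26 a b * w28 a b = -(w28 a b * w26 a b) := h.ac _ _
  have c27_28 : w27 a b * w28 a b = -(w28 a b * w27 a b) := h.ac _ _
  have c22_29 : w22 a b * w29 a b = -(w29 a b * w22 a b) := h.ac _ _
  have c23_29 : w23 a b * w29 a b = -(w29 a b * w23 a b) := h.ac _ _
  have c24_29 : w24 a b * w29 a b = -(w29 a b * w24 a b) := h.ac _ _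
  have c22_30 : w22 a b * w30 a b = -(w30 a b * w22 a b) := h.ac _ _
  have c23_30 : w23 a b * w30 a b = -(w30 a b * w23 a b) := h.ac _ _
  have c24_30 : w24 a b * w30 a b = -(w30 a b * w24 a b) := h.ac _ _
  have c22_31 : w22 a b * w31 a b = -(w31 a b * w22 a b) := h.ac _ _
  have c23_31 : w23 a b * w31 a b = -(w31 a b * w23 a b) := h.ac _ _
  have c24_31 : w24 a b * w31 a b = -(w31 a b * w24 a b) := h.ac _ _
  have c22_32 : w22 a b * w32 a b = -(w32 a b * w22 a b) := h.ac _ _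
  have c23_32 : w23 a b * w32 a b = -(w32 a b * w23 a b) := h.ac _ _
  have c24_32 : w24 a b * w32 a b = -(w32 a b * w24 a b) := h.ac _ _
  have c18_34 : w18 a b * w34 a b = -(w34 a b * w18 a b) := h.ac _ _
  have c19_34 : w19 a b * w34 a b = -(w34 a b * w19 a b) := h.ac _ _
  have c20_34 : w20 a b * w34 a b = -(w34 a b * w20 a b) := h.ac _ _
  have c18_35 : w18 a b * w35 a b = -(w35 a b * w18 a b) := h.ac _ _
  have c19_35 : w19 a b * w35 a b = -(w35 a b * w19 a b) := h.ac _ _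
  have c20_35 : w20 a b * w35 a b = -(w35 a b * w20 a b) := h.ac _ _
  have c17_36 : w17 a b * w36 a b = -(w36 a b * w17 a b) := h.ac _ _
  have c17_37 : w17 a b * w37 a b = -(w37 a b * w17 a b) := h.ac _ _
  have c15_38 : w15 a b * w38 a b = -(w38 a b * w15 a b) := h.ac _ _
  have c16_38 : w16 a b * w38 a b = -(w38 a b * w16 a b) := h.ac _ _
  have c13_39 : w13 a b * w39 a b = -(w39 a b * w13 a b) := h.ac _ _
  have c14_39 : w14 a b * w39 a b = -(w39 a b * w14 a b) := h.ac _ _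
  have t0 := h.e2 (w31 a b) (w0 a b) (w15 a b)
  simp only [m31_0 h a b, m31_15 h a b, m35_0 h a b, m35_15 h a b, add_mul, sub_mul, neg_mul, zero_mul, add_zero, zero_add, neg_zero, neg_neg, sub_zero, zero_sub] at t0
  have t1 := h.e2 (w31 a b) (w0 a b) (w16 a b)
  simp only [m31_0 h a b, m31_16 h a b, m35_0 h a b, m35_16 h a b, add_mul, sub_mul, neg_mul, zero_mul, add_zero, zero_add, neg_zero, neg_neg, sub_zero, zero_sub] at t1
  have t2 := h.e2 (w18 a b) (w0 a b) (w25 a b)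
  simp only [m18_0 h a b, m23_0 h a b, r18_25 h a b, r23_25 h a b, add_mul, sub_mul, neg_mul, zero_mul, add_zero, zero_add, neg_zero, neg_neg, sub_zero, zero_sub] at t2
  have t3 := h.e2 (w18 a b) (w0 a b) (w26 a b)
  simp only [m18_0 h a b, m23_0 h a b, r18_26 h a b, r23_26 h a b, add_mul, sub_mul, neg_mul, zero_mul, add_zero, zero_add, neg_zero, neg_neg, sub_zero, zero_sub] at t3
  have t4 := h.e2 (w18 a b) (w0 a b) (w27 a b)
  simp only [m18_0 h a b, m23_0 h a b, r18_27 h a b, r23_27 h a b, add_mul, sub_mul, neg_mul, zero_mul, add_zero, zero_add, neg_zero, neg_neg, sub_zero, zero_sub] at t4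
  have t5 := h.e2 (w16 a b) (w0 a b) (w29 a b)
  simp only [c24_29, m16_0 h a b, m20_0 h a b, r16_29 h a b, r20_29 h a b, add_mul, sub_mul, neg_mul, zero_mul, add_zero, zero_add, neg_zero, neg_neg, sub_zero, zero_sub] at t5
  have t6 := h.e2 (w16 a b) (w0 a b) (w30 a b)
  simp only [c24_30, m16_0 h a b, m20_0 h a b, r16_30 h a b, r20_30 h a b, add_mul, sub_mul, neg_mul, zero_mul, add_zero, zero_add, neg_zero, neg_neg, sub_zero, zero_sub] at t6
  have t7 := h.e2 (w16 a b) (w0 a b) (w31 a b)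
  simp only [c24_31, m16_0 h a b, m20_0 h a b, r16_31 h a b, r20_31 h a b, add_mul, sub_mul, neg_mul, zero_mul, add_zero, zero_add, neg_zero, neg_neg, sub_zero, zero_sub] at t7
  have t8 := h.e2 (w16 a b) (w0 a b) (w32 a b)
  simp only [c24_32, m16_0 h a b, m20_0 h a b, r16_32 h a b, r20_32 h a b, add_mul, sub_mul, neg_mul, zero_mul, add_zero, zero_add, neg_zero, neg_neg, sub_zero, zero_sub] at t8
  have t9 := h.e2 (w11 a b) (w0 a b) (w36 a b)
  simp only [c17_36, m11_0 h a b, m14_0 h a b, r11_36 h a b, r14_36 h a b, add_mul, sub_mul, neg_mul, zero_mul, add_zero, zero_add, neg_zero, neg_neg, sub_zero, zero_sub] at t9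
  have t10 := h.e2 (w11 a b) (w0 a b) (w37 a b)
  simp only [c17_37, m11_0 h a b, m14_0 h a b, r11_37 h a b, r14_37 h a b, add_mul, sub_mul, neg_mul, zero_mul, add_zero, zero_add, neg_zero, neg_neg, sub_zero, zero_sub] at t10
  have t11 := h.e3 (w7 a b) (w0 a b) (w3 a b) (w39 a b)
  simp only [c13_39, m7_0 h a b, m7_3 h a b, m8_3 a b, r7_39 h a b, r8_39 h a b, add_mul, sub_mul, neg_mul, zero_mul, add_zero, zero_add, neg_zero, neg_neg, sub_zero, zero_sub] at t11
  have t12 := h.e3 (w7 a b) (w0 a b) (w5 a b) (w34 a b)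
  simp only [c18_34, m7_0 h a b, m7_5 h a b, m8_5 a b, r7_34 h a b, r8_34 h a b, add_mul, sub_mul, neg_mul, zero_mul, add_zero, zero_add, neg_zero, neg_neg, sub_zero, zero_sub] at t12
  have t13 := h.e3 (w7 a b) (w0 a b) (w5 a b) (w35 a b)
  simp only [c18_35, m7_0 h a b, m7_5 h a b, m8_5 a b, r7_35 h a b, r8_35 h a b, add_mul, sub_mul, neg_mul, zero_mul, add_zero, zero_add, neg_zero, neg_neg, sub_zero, zero_sub] at t13
  have t14 := h.e3 (w7 a b) (w0 a b) (w6 a b) (w29 a b)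
  simp only [c22_29, m7_0 h a b, m7_6 h a b, m8_6 a b, r7_29 h a b, r8_29 h a b, add_mul, sub_mul, neg_mul, zero_mul, add_zero, zero_add, neg_zero, neg_neg, sub_zero, zero_sub] at t14
  have t15 := h.e3 (w7 a b) (w0 a b) (w6 a b) (w30 a b)
  simp only [c22_30, m7_0 h a b, m7_6 h a b, m8_6 a b, r7_30 h a b, r8_30 h a b, add_mul, sub_mul, neg_mul, zero_mul, add_zero, zero_add, neg_zero, neg_neg, sub_zero, zero_sub] at t15
  have t16 := h.e3 (w7 a b) (w0 a b) (w6 a b) (w31 a b)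
  simp only [c22_31, m7_0 h a b, m7_6 h a b, m8_6 a b, r7_31 h a b, r8_31 h a b, add_mul, sub_mul, neg_mul, zero_mul, add_zero, zero_add, neg_zero, neg_neg, sub_zero, zero_sub] at t16
  have t17 := h.e3 (w7 a b) (w0 a b) (w6 a b) (w32 a b)
  simp only [c22_32, m7_0 h a b, m7_6 h a b, m8_6 a b, r7_32 h a b, r8_32 h a b, add_mul, sub_mul, neg_mul, zero_mul, add_zero, zero_add, neg_zero, neg_neg, sub_zero, zero_sub] at t17
  have t18 := h.e3 (w11 a b) (w0 a b) (w7 a b) (w14 a b)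
  simp only [h.sq (w14 a b), m11_0 h a b, m11_7 a b, m14_7 h a b, m36_0 h a b, m36_14 h a b, r11_14 h a b, add_mul, sub_mul, neg_mul, zero_mul, add_zero, zero_add, neg_zero, neg_neg, sub_zero, zero_sub] at t18
  have t19 := h.e3 (w7 a b) (w0 a b) (w8 a b) (w23 a b)
  simp only [h.sq (w8 a b), m25_0 h a b, m25_23 h a b, m7_0 h a b, r7_23 h a b, r7_8 h a b, r8_23 h a b, add_mul, sub_mul, neg_mul, zero_mul, add_zero, zero_add, neg_zero, neg_neg, sub_zero, zero_sub] at t19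
  have t20 := h.e3 (w1 a b) (w0 a b) (w11 a b) (w34 a b)
  simp only [c20_34, m16_0 h a b, m1_0 a b, m39_0 h a b, m39_11 h a b, r16_34 h a b, r1_11 h a b, r1_34 h a b, r2_11 h a b, r2_34 h a b, add_mul, sub_mul, neg_mul, zero_mul, add_zero, zero_add, neg_zero, neg_neg, sub_zero, zero_sub] at t20
  have t21 := h.e3 (w1 a b) (w0 a b) (w11 a b) (w35 a b)
  simp only [c20_35, m16_0 h a b, m1_0 a b, m39_0 h a b, m39_11 h a b, r16_35 h a b, r1_11 h a b, r1_35 h a b, r2_11 h a b, r2_35 h a b, add_mul, sub_mul, neg_mul, zero_mul, add_zero, zero_add, neg_zero, neg_neg, sub_zero, zero_sub] at t21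
  have t22 := h.e3 (w6 a b) (w1 a b) (w8 a b) (w23 a b)
  simp only [h.sq (w8 a b), m22_1 h a b, m6_1 h a b, r22_23 h a b, r6_23 h a b, r6_8 h a b, r8_23 h a b, add_mul, sub_mul, neg_mul, zero_mul, add_zero, zero_add, neg_zero, neg_neg, sub_zero, zero_sub] at t22
  have t23 := h.e3 (w0 a b) (w1 a b) (w11 a b) (w34 a b)
  simp only [c19_34, m14_1 h a b, m38_1 h a b, m38_11 h a b, r0_1 h a b, r0_11 h a b, r0_34 h a b, r14_34 h a b, r2_11 h a b, r2_34 h a b, add_mul, sub_mul, neg_mul, zero_mul, add_zero, zero_add, neg_zero, neg_neg, sub_zero, zero_sub] at t23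
  have t24 := h.e3 (w0 a b) (w1 a b) (w11 a b) (w35 a b)
  simp only [c19_35, m14_1 h a b, m38_1 h a b, m38_11 h a b, r0_1 h a b, r0_11 h a b, r0_35 h a b, r14_35 h a b, r2_11 h a b, r2_35 h a b, add_mul, sub_mul, neg_mul, zero_mul, add_zero, zero_add, neg_zero, neg_neg, sub_zero, zero_sub] at t24
  have t25 := h.e3 (w5 a b) (w2 a b) (w8 a b) (w23 a b)
  simp only [h.sq (w8 a b), m18_2 h a b, m5_2 h a b, r18_23 h a b, r5_23 h a b, r5_8 h a b, r8_23 h a b, add_mul, sub_mul, neg_mul, zero_mul, add_zero, zero_add, neg_zero, neg_neg, sub_zero, zero_sub] at t25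
  have t26 := h.e3 (w0 a b) (w3 a b) (w10 a b) (w32 a b)
  simp only [c23_32, m12_3 h a b, m34_10 h a b, m34_3 h a b, m35_10 h a b, m35_3 h a b, r0_10 h a b, r0_3 h a b, r0_32 h a b, r12_32 h a b, add_mul, sub_mul, neg_mul, zero_mul, add_zero, zero_add, neg_zero, neg_neg, sub_zero, zero_sub] at t26
  refine ⟨?_, ?_, ?_, ?_, ?_, ?_, ?_, ?_, ?_, ?_, ?_, ?_, ?_, ?_, ?_, ?_, ?_, ?_, ?_, ?_, ?_, ?_, ?_, ?_, ?_, ?_, ?_⟩
  · linear_combination (norm := module) (-1 : ℤ) • t2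
  · linear_combination (norm := module) (-1 : ℤ) • t3
  · linear_combination (norm := module) (-1 : ℤ) • t4
  · linear_combination (norm := module) (1 : ℤ) • t14
  · linear_combination (norm := module) (1 : ℤ) • t19
  · linear_combination (norm := module) (-1 : ℤ) • t5
  · linear_combination (norm := module) (1 : ℤ) • t15
  · linear_combination (norm := module) (1 : ℤ) • t22
  · linear_combination (norm := module) (-1 : ℤ) • t6
  · linear_combination (norm := module) (1 : ℤ) • t16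
  · linear_combination (norm := module) (1 : ℤ) • t25
  · linear_combination (norm := module) (-1 : ℤ) • t7
  · linear_combination (norm := module) (1 : ℤ) • t17
  · linear_combination (norm := module) (-1 : ℤ) • t26
  · linear_combination (norm := module) (-1 : ℤ) • t8
  · linear_combination (norm := module) (1 : ℤ) • t12
  · linear_combination (norm := module) (1 : ℤ) • t23
  · linear_combination (norm := module) (1 : ℤ) • t20
  · linear_combination (norm := module) (1 : ℤ) • t13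
  · linear_combination (norm := module) (1 : ℤ) • t24
  · linear_combination (norm := module) (1 : ℤ) • t21
  · linear_combination (norm := module) (-1 : ℤ) • t9
  · linear_combination (norm := module) (-1 : ℤ) • t10
  · linear_combination (norm := module) (-1 : ℤ) • t0
  · linear_combination (norm := module) (-1 : ℤ) • t1
  · linear_combination (norm := module) (1 : ℤ) • t11
  · linear_combination (norm := module) (-1 : ℤ) • t18
theorem m28_25 (h : Eng A) (a b : A) : w28 a b * w25 a b = 0 := (wt12_11 h a b).1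
theorem r25_28 (h : Eng A) (a b : A) : w25 a b * w28 a b = 0 := by
  rw [h.ac, m28_25 h, neg_zero]
theorem m28_26 (h : Eng A) (a b : A) : w28 a b * w26 a b = 0 := (wt12_11 h a b).2.1
theorem r26_28 (h : Eng A) (a b : A) : w26 a b * w28 a b = 0 := by
  rw [h.ac, m28_26 h, neg_zero]
theorem m28_27 (h : Eng A) (a b : A) : w28 a b * w27 a b = 0 := (wt12_11 h a b).2.2.1
theorem r27_28 (h : Eng A) (a b : A) : w27 a b * w28 a b = 0 := by
  rw [h.ac, m28_27 h, neg_zero]
theorem m29_22 (h : Eng A) (a b : A) : w29 a b * w22 a b = 0 := (wt12_11 h a b).2.2.2.1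
theorem r22_29 (h : Eng A) (a b : A) : w22 a b * w29 a b = 0 := by
  rw [h.ac, m29_22 h, neg_zero]
theorem m29_23 (h : Eng A) (a b : A) : w29 a b * w23 a b = 0 := (wt12_11 h a b).2.2.2.2.1
theorem r23_29 (h : Eng A) (a b : A) : w23 a b * w29 a b = 0 := by
  rw [h.ac, m29_23 h, neg_zero]
theorem m29_24 (h : Eng A) (a b : A) : w29 a b * w24 a b = 0 := (wt12_11 h a b).2.2.2.2.2.1
theorem r24_29 (h : Eng A) (a b : A) : w24 a b * w29 a b = 0 := by
  rw [h.ac, m29_24 h, neg_zero]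
theorem m30_22 (h : Eng A) (a b : A) : w30 a b * w22 a b = 0 := (wt12_11 h a b).2.2.2.2.2.2.1
theorem r22_30 (h : Eng A) (a b : A) : w22 a b * w30 a b = 0 := by
  rw [h.ac, m30_22 h, neg_zero]
theorem m30_23 (h : Eng A) (a b : A) : w30 a b * w23 a b = 0 := (wt12_11 h a b).2.2.2.2.2.2.2.1
theorem r23_30 (h : Eng A) (a b : A) : w23 a b * w30 a b = 0 := by
  rw [h.ac, m30_23 h, neg_zero]
theorem m30_24 (h : Eng A) (a b : A) : w30 a b * w24 a b = 0 := (wt12_11 h a b).2.2.2.2.2.2.2.2.1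
theorem r24_30 (h : Eng A) (a b : A) : w24 a b * w30 a b = 0 := by
  rw [h.ac, m30_24 h, neg_zero]
theorem m31_22 (h : Eng A) (a b : A) : w31 a b * w22 a b = 0 := (wt12_11 h a b).2.2.2.2.2.2.2.2.2.1
theorem r22_31 (h : Eng A) (a b : A) : w22 a b * w31 a b = 0 := by
  rw [h.ac, m31_22 h, neg_zero]
theorem m31_23 (h : Eng A) (a b : A) : w31 a b * w23 a b = 0 := (wt12_11 h a b).2.2.2.2.2.2.2.2.2.2.1
theorem r23_31 (h : Eng A) (a b : A) : w23 a b * w31 a b = 0 := by
  rw [h.ac, m31_23 h, neg_zero]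
theorem m31_24 (h : Eng A) (a b : A) : w31 a b * w24 a b = 0 := (wt12_11 h a b).2.2.2.2.2.2.2.2.2.2.2.1
theorem r24_31 (h : Eng A) (a b : A) : w24 a b * w31 a b = 0 := by
  rw [h.ac, m31_24 h, neg_zero]
theorem m32_22 (h : Eng A) (a b : A) : w32 a b * w22 a b = 0 := (wt12_11 h a b).2.2.2.2.2.2.2.2.2.2.2.2.1
theorem r22_32 (h : Eng A) (a b : A) : w22 a b * w32 a b = 0 := by
  rw [h.ac, m32_22 h, neg_zero]
theorem m32_23 (h : Eng A) (a b : A) : w32 a b * w23 a b = 0 := (wt12_11 h a b).2.2.2.2.2.2.2.2.2.2.2.2.2.1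
theorem r23_32 (h : Eng A) (a b : A) : w23 a b * w32 a b = 0 := by
  rw [h.ac, m32_23 h, neg_zero]
theorem m32_24 (h : Eng A) (a b : A) : w32 a b * w24 a b = 0 := (wt12_11 h a b).2.2.2.2.2.2.2.2.2.2.2.2.2.2.1
theorem r24_32 (h : Eng A) (a b : A) : w24 a b * w32 a b = 0 := by
  rw [h.ac, m32_24 h, neg_zero]
theorem m34_18 (h : Eng A) (a b : A) : w34 a b * w18 a b = 0 := (wt12_11 h a b).2.2.2.2.2.2.2.2.2.2.2.2.2.2.2.1
theorem r18_34 (h : Eng A) (a b : A) : w18 a b * w34 a b = 0 := by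
  rw [h.ac, m34_18 h, neg_zero]
theorem m34_19 (h : Eng A) (a b : A) : w34 a b * w19 a b = 0 := (wt12_11 h a b).2.2.2.2.2.2.2.2.2.2.2.2.2.2.2.2.1
theorem r19_34 (h : Eng A) (a b : A) : w19 a b * w34 a b = 0 := by
  rw [h.ac, m34_19 h, neg_zero]
theorem m34_20 (h : Eng A) (a b : A) : w34 a b * w20 a b = 0 := (wt12_11 h a b).2.2.2.2.2.2.2.2.2.2.2.2.2.2.2.2.2.1
theorem r20_34 (h : Eng A) (a b : A) : w20 a b * w34 a b = 0 := by
  rw [h.ac, m34_20 h, neg_zero]
theorem m35_18 (h : Eng A) (a b : A) : w35 a b * w18 a b = 0 := (wt12_11 h a b).2.2.2.2.2.2.2.2.2.2.2.2.2.2.2.2.2.2.1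
theorem r18_35 (h : Eng A) (a b : A) : w18 a b * w35 a b = 0 := by
  rw [h.ac, m35_18 h, neg_zero]
theorem m35_19 (h : Eng A) (a b : A) : w35 a b * w19 a b = 0 := (wt12_11 h a b).2.2.2.2.2.2.2.2.2.2.2.2.2.2.2.2.2.2.2.1
theorem r19_35 (h : Eng A) (a b : A) : w19 a b * w35 a b = 0 := by
  rw [h.ac, m35_19 h, neg_zero]
theorem m35_20 (h : Eng A) (a b : A) : w35 a b * w20 a b = 0 := (wt12_11 h a b).2.2.2.2.2.2.2.2.2.2.2.2.2.2.2.2.2.2.2.2.1
theorem r20_35 (h : Eng A) (a b : A) : w20 a b * w35 a b = 0 := by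
  rw [h.ac, m35_20 h, neg_zero]
theorem m36_17 (h : Eng A) (a b : A) : w36 a b * w17 a b = 0 := (wt12_11 h a b).2.2.2.2.2.2.2.2.2.2.2.2.2.2.2.2.2.2.2.2.2.1
theorem r17_36 (h : Eng A) (a b : A) : w17 a b * w36 a b = 0 := by
  rw [h.ac, m36_17 h, neg_zero]
theorem m37_17 (h : Eng A) (a b : A) : w37 a b * w17 a b = 0 := (wt12_11 h a b).2.2.2.2.2.2.2.2.2.2.2.2.2.2.2.2.2.2.2.2.2.2.1
theorem r17_37 (h : Eng A) (a b : A) : w17 a b * w37 a b = 0 := by
  rw [h.ac, m37_17 h, neg_zero]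
theorem m38_15 (h : Eng A) (a b : A) : w38 a b * w15 a b = 0 := (wt12_11 h a b).2.2.2.2.2.2.2.2.2.2.2.2.2.2.2.2.2.2.2.2.2.2.2.1
theorem r15_38 (h : Eng A) (a b : A) : w15 a b * w38 a b = 0 := by
  rw [h.ac, m38_15 h, neg_zero]
theorem m38_16 (h : Eng A) (a b : A) : w38 a b * w16 a b = 0 := (wt12_11 h a b).2.2.2.2.2.2.2.2.2.2.2.2.2.2.2.2.2.2.2.2.2.2.2.2.1
theorem r16_38 (h : Eng A) (a b : A) : w16 a b * w38 a b = 0 := by
  rw [h.ac, m38_16 h, neg_zero]
theorem m39_13 (h : Eng A) (a b : A) : w39 a b * w13 a b = 0 := (wt12_11 h a b).2.2.2.2.2.2.2.2.2.2.2.2.2.2.2.2.2.2.2.2.2.2.2.2.2.1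
theorem r13_39 (h : Eng A) (a b : A) : w13 a b * w39 a b = 0 := by
  rw [h.ac, m39_13 h, neg_zero]
theorem m39_14 (h : Eng A) (a b : A) : w39 a b * w14 a b = 0 := (wt12_11 h a b).2.2.2.2.2.2.2.2.2.2.2.2.2.2.2.2.2.2.2.2.2.2.2.2.2.2
theorem r14_39 (h : Eng A) (a b : A) : w14 a b * w39 a b = 0 := by
  rw [h.ac, m39_14 h, neg_zero]

theorem wt11_12 (h : Eng A) (a b : A) :
    (w29 a b * w25 a b = 0) ∧
    (w29 a b * w26 a b = 0) ∧
    (w29 a b * w27 a b = 0) ∧
    (w30 a b * w25 a b = 0) ∧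
    (w30 a b * w26 a b = 0) ∧
    (w30 a b * w27 a b = 0) ∧
    (w31 a b * w25 a b = 0) ∧
    (w31 a b * w26 a b = 0) ∧
    (w31 a b * w27 a b = 0) ∧
    (w32 a b * w25 a b = 0) ∧
    (w32 a b * w26 a b = 0) ∧
    (w32 a b * w27 a b = 0) ∧
    (w33 a b * w22 a b = 0) ∧
    (w33 a b * w23 a b = 0) ∧
    (w33 a b * w24 a b = 0) ∧
    (w34 a b * w21 a b = 0) ∧
    (w35 a b * w21 a b = 0) ∧
    (w36 a b * w18 a b = 0) ∧
    (w36 a b * w19 a b = 0) ∧
    (w36 a b * w20 a b = 0) ∧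
    (w37 a b * w18 a b = 0) ∧
    (w37 a b * w19 a b = 0) ∧
    (w37 a b * w20 a b = 0) ∧
    (w39 a b * w15 a b = 0) ∧
    (w39 a b * w16 a b = 0) ∧
    (w40 a b * w13 a b = 0) ∧
    (w40 a b * w14 a b = 0) := by
  have c25_29 : w25 a b * w29 a b = -(w29 a b * w25 a b) := h.ac _ _
  have c26_29 : w26 a b * w29 a b = -(w29 a b * w26 a b) := h.ac _ _
  have c27_29 : w27 a b * w29 a b = -(w29 a b * w27 a b) := h.ac _ _
  have c25_30 : w25 a b * w30 a b = -(w30 a b * w25 a b) := h.ac _ _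
  have c26_30 : w26 a b * w30 a b = -(w30 a b * w26 a b) := h.ac _ _
  have c27_30 : w27 a b * w30 a b = -(w30 a b * w27 a b) := h.ac _ _
  have c25_31 : w25 a b * w31 a b = -(w31 a b * w25 a b) := h.ac _ _
  have c26_31 : w26 a b * w31 a b = -(w31 a b * w26 a b) := h.ac _ _
  have c27_31 : w27 a b * w31 a b = -(w31 a b * w27 a b) := h.ac _ _
  have c25_32 : w25 a b * w32 a b = -(w32 a b * w25 a b) := h.ac _ _
  have c26_32 : w26 a b * w32 a b = -(w32 a b * w26 a b) := h.ac _ _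
  have c27_32 : w27 a b * w32 a b = -(w32 a b * w27 a b) := h.ac _ _
  have c22_33 : w22 a b * w33 a b = -(w33 a b * w22 a b) := h.ac _ _
  have c23_33 : w23 a b * w33 a b = -(w33 a b * w23 a b) := h.ac _ _
  have c24_33 : w24 a b * w33 a b = -(w33 a b * w24 a b) := h.ac _ _
  have c21_34 : w21 a b * w34 a b = -(w34 a b * w21 a b) := h.ac _ _
  have c21_35 : w21 a b * w35 a b = -(w35 a b * w21 a b) := h.ac _ _
  have c18_36 : w18 a b * w36 a b = -(w36 a b * w18 a b) := h.ac _ _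
  have c19_36 : w19 a b * w36 a b = -(w36 a b * w19 a b) := h.ac _ _
  have c20_36 : w20 a b * w36 a b = -(w36 a b * w20 a b) := h.ac _ _
  have c18_37 : w18 a b * w37 a b = -(w37 a b * w18 a b) := h.ac _ _
  have c19_37 : w19 a b * w37 a b = -(w37 a b * w19 a b) := h.ac _ _
  have c20_37 : w20 a b * w37 a b = -(w37 a b * w20 a b) := h.ac _ _
  have c15_39 : w15 a b * w39 a b = -(w39 a b * w15 a b) := h.ac _ _
  have c16_39 : w16 a b * w39 a b = -(w39 a b * w16 a b) := h.ac _ _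
  have c13_40 : w13 a b * w40 a b = -(w40 a b * w13 a b) := h.ac _ _
  have c14_40 : w14 a b * w40 a b = -(w40 a b * w14 a b) := h.ac _ _
  have t0 := h.e2 (w16 a b) (w0 a b) (w33 a b)
  simp only [c24_33, m16_0 h a b, m20_0 h a b, r16_33 h a b, r20_33 h a b, add_mul, sub_mul, neg_mul, zero_mul, add_zero, zero_add, neg_zero, neg_neg, sub_zero, zero_sub] at t0
  have t1 := h.e3 (w7 a b) (w0 a b) (w3 a b) (w40 a b)
  simp only [c13_40, m7_0 h a b, m7_3 h a b, m8_3 a b, r7_40 h a b, r8_40 h a b, add_mul, sub_mul, neg_mul, zero_mul, add_zero, zero_add, neg_zero, neg_neg, sub_zero, zero_sub] at t1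
  have t2 := h.e3 (w7 a b) (w0 a b) (w4 a b) (w39 a b)
  simp only [c15_39, m7_0 h a b, m7_4 h a b, m8_4 a b, r7_39 h a b, r8_39 h a b, add_mul, sub_mul, neg_mul, zero_mul, add_zero, zero_add, neg_zero, neg_neg, sub_zero, zero_sub] at t2
  have t3 := h.e3 (w7 a b) (w0 a b) (w5 a b) (w36 a b)
  simp only [c18_36, m7_0 h a b, m7_5 h a b, m8_5 a b, r7_36 h a b, r8_36 h a b, add_mul, sub_mul, neg_mul, zero_mul, add_zero, zero_add, neg_zero, neg_neg, sub_zero, zero_sub] at t3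
  have t4 := h.e3 (w7 a b) (w0 a b) (w5 a b) (w37 a b)
  simp only [c18_37, m7_0 h a b, m7_5 h a b, m8_5 a b, r7_37 h a b, r8_37 h a b, add_mul, sub_mul, neg_mul, zero_mul, add_zero, zero_add, neg_zero, neg_neg, sub_zero, zero_sub] at t4
  have t5 := h.e3 (w7 a b) (w0 a b) (w6 a b) (w33 a b)
  simp only [c22_33, m7_0 h a b, m7_6 h a b, m8_6 a b, r7_33 h a b, r8_33 h a b, add_mul, sub_mul, neg_mul, zero_mul, add_zero, zero_add, neg_zero, neg_neg, sub_zero, zero_sub] at t5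
  have t6 := h.e3 (w11 a b) (w0 a b) (w7 a b) (w16 a b)
  simp only [m11_0 h a b, m11_7 a b, m14_7 h a b, m36_0 h a b, m36_16 h a b, r11_16 h a b, r14_16 h a b, add_mul, sub_mul, neg_mul, zero_mul, add_zero, zero_add, neg_zero, neg_neg, sub_zero, zero_sub] at t6
  have t7 := h.e3 (w7 a b) (w0 a b) (w7 a b) (w29 a b)
  simp only [c25_29, h.sq (w7 a b), m7_0 h a b, m8_7 a b, r7_29 h a b, r8_29 h a b, add_mul, sub_mul, neg_mul, zero_mul, add_zero, zero_add, neg_zero, neg_neg, sub_zero, zero_sub] at t7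
  have t8 := h.e3 (w7 a b) (w0 a b) (w7 a b) (w30 a b)
  simp only [c25_30, h.sq (w7 a b), m7_0 h a b, m8_7 a b, r7_30 h a b, r8_30 h a b, add_mul, sub_mul, neg_mul, zero_mul, add_zero, zero_add, neg_zero, neg_neg, sub_zero, zero_sub] at t8
  have t9 := h.e3 (w7 a b) (w0 a b) (w7 a b) (w31 a b)
  simp only [c25_31, h.sq (w7 a b), m7_0 h a b, m8_7 a b, r7_31 h a b, r8_31 h a b, add_mul, sub_mul, neg_mul, zero_mul, add_zero, zero_add, neg_zero, neg_neg, sub_zero, zero_sub] at t9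
  have t10 := h.e3 (w7 a b) (w0 a b) (w7 a b) (w32 a b)
  simp only [c25_32, h.sq (w7 a b), m7_0 h a b, m8_7 a b, r7_32 h a b, r8_32 h a b, add_mul, sub_mul, neg_mul, zero_mul, add_zero, zero_add, neg_zero, neg_neg, sub_zero, zero_sub] at t10
  have t11 := h.e3 (w7 a b) (w0 a b) (w8 a b) (w26 a b)
  simp only [h.sq (w8 a b), m25_0 h a b, m7_0 h a b, r25_26 h a b, r7_26 h a b, r7_8 h a b, r8_26 h a b, add_mul, sub_mul, neg_mul, zero_mul, add_zero, zero_add, neg_zero, neg_neg, sub_zero, zero_sub] at t11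
  have t12 := h.e3 (w7 a b) (w0 a b) (w8 a b) (w27 a b)
  simp only [h.sq (w8 a b), m25_0 h a b, m7_0 h a b, r25_27 h a b, r7_27 h a b, r7_8 h a b, r8_27 h a b, add_mul, sub_mul, neg_mul, zero_mul, add_zero, zero_add, neg_zero, neg_neg, sub_zero, zero_sub] at t12
  have t13 := h.e3 (w1 a b) (w0 a b) (w11 a b) (w36 a b)
  simp only [c20_36, m16_0 h a b, m1_0 a b, m40_0 h a b, m40_11 h a b, r16_36 h a b, r1_11 h a b, r1_36 h a b, r2_11 h a b, r2_36 h a b, add_mul, sub_mul, neg_mul, zero_mul, add_zero, zero_add, neg_zero, neg_neg, sub_zero, zero_sub] at t13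
  have t14 := h.e3 (w1 a b) (w0 a b) (w11 a b) (w37 a b)
  simp only [c20_37, m16_0 h a b, m1_0 a b, m40_0 h a b, m40_11 h a b, r16_37 h a b, r1_11 h a b, r1_37 h a b, r2_11 h a b, r2_37 h a b, add_mul, sub_mul, neg_mul, zero_mul, add_zero, zero_add, neg_zero, neg_neg, sub_zero, zero_sub] at t14
  have t15 := h.e2 (w31 a b) (w1 a b) (w14 a b)
  simp only [m31_1 h a b, m31_14 h a b, m37_1 h a b, m37_14 h a b, add_mul, sub_mul, neg_mul, zero_mul, add_zero, zero_add, neg_zero, neg_neg, sub_zero, zero_sub] at t15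
  have t16 := h.e2 (w18 a b) (w1 a b) (w23 a b)
  simp only [m18_1 h a b, m26_1 h a b, m26_23 h a b, r18_23 h a b, add_mul, sub_mul, neg_mul, zero_mul, add_zero, zero_add, neg_zero, neg_neg, sub_zero, zero_sub] at t16
  have t17 := h.e2 (w14 a b) (w1 a b) (w30 a b)
  simp only [c27_30, m14_1 h a b, m19_1 h a b, r14_30 h a b, r19_30 h a b, add_mul, sub_mul, neg_mul, zero_mul, add_zero, zero_add, neg_zero, neg_neg, sub_zero, zero_sub] at t17
  have t18 := h.e2 (w14 a b) (w1 a b) (w31 a b)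
  simp only [c27_31, m14_1 h a b, m19_1 h a b, r14_31 h a b, r19_31 h a b, add_mul, sub_mul, neg_mul, zero_mul, add_zero, zero_add, neg_zero, neg_neg, sub_zero, zero_sub] at t18
  have t19 := h.e2 (w14 a b) (w1 a b) (w32 a b)
  simp only [c27_32, m14_1 h a b, m19_1 h a b, r14_32 h a b, r19_32 h a b, add_mul, sub_mul, neg_mul, zero_mul, add_zero, zero_add, neg_zero, neg_neg, sub_zero, zero_sub] at t19
  have t20 := h.e2 (w11 a b) (w1 a b) (w34 a b)
  simp only [c21_34, m11_1 h a b, m16_1 h a b, r11_34 h a b, r16_34 h a b, add_mul, sub_mul, neg_mul, zero_mul, add_zero, zero_add, neg_zero, neg_neg, sub_zero, zero_sub] at t20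
  have t21 := h.e2 (w11 a b) (w1 a b) (w35 a b)
  simp only [c21_35, m11_1 h a b, m16_1 h a b, r11_35 h a b, r16_35 h a b, add_mul, sub_mul, neg_mul, zero_mul, add_zero, zero_add, neg_zero, neg_neg, sub_zero, zero_sub] at t21
  have t22 := h.e3 (w6 a b) (w1 a b) (w8 a b) (w26 a b)
  simp only [h.sq (w8 a b), m22_1 h a b, m6_1 h a b, r22_26 h a b, r6_26 h a b, r6_8 h a b, r8_26 h a b, add_mul, sub_mul, neg_mul, zero_mul, add_zero, zero_add, neg_zero, neg_neg, sub_zero, zero_sub] at t22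
  have t23 := h.e3 (w0 a b) (w1 a b) (w11 a b) (w36 a b)
  simp only [c19_36, m14_1 h a b, m39_1 h a b, m39_11 h a b, r0_1 h a b, r0_11 h a b, r0_36 h a b, r14_36 h a b, r2_11 h a b, r2_36 h a b, add_mul, sub_mul, neg_mul, zero_mul, add_zero, zero_add, neg_zero, neg_neg, sub_zero, zero_sub] at t23
  have t24 := h.e3 (w0 a b) (w1 a b) (w11 a b) (w37 a b)
  simp only [c19_37, m14_1 h a b, m39_1 h a b, m39_11 h a b, r0_1 h a b, r0_11 h a b, r0_37 h a b, r14_37 h a b, r2_11 h a b, r2_37 h a b, add_mul, sub_mul, neg_mul, zero_mul, add_zero, zero_add, neg_zero, neg_neg, sub_zero, zero_sub] at t24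
  have t25 := h.e3 (w5 a b) (w2 a b) (w8 a b) (w26 a b)
  simp only [h.sq (w8 a b), m18_2 h a b, m5_2 h a b, r18_26 h a b, r5_26 h a b, r5_8 h a b, r8_26 h a b, add_mul, sub_mul, neg_mul, zero_mul, add_zero, zero_add, neg_zero, neg_neg, sub_zero, zero_sub] at t25
  have t26 := h.e3 (w1 a b) (w3 a b) (w10 a b) (w32 a b)
  simp only [c26_32, m36_10 h a b, m36_3 h a b, m37_10 h a b, m37_3 h a b, r1_10 h a b, r1_3 h a b, r1_32 h a b, r5_10 h a b, r5_32 h a b, add_mul, sub_mul, neg_mul, zero_mul, add_zero, zero_add, neg_zero, neg_neg, sub_zero, zero_sub] at t26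
  refine ⟨?_, ?_, ?_, ?_, ?_, ?_, ?_, ?_, ?_, ?_, ?_, ?_, ?_, ?_, ?_, ?_, ?_, ?_, ?_, ?_, ?_, ?_, ?_, ?_, ?_, ?_, ?_⟩
  · linear_combination (norm := module) (1 : ℤ) • t7
  · linear_combination (norm := module) (1 : ℤ) • t11
  · linear_combination (norm := module) (1 : ℤ) • t12
  · linear_combination (norm := module) (1 : ℤ) • t8
  · linear_combination (norm := module) (1 : ℤ) • t22
  · linear_combination (norm := module) (1 : ℤ) • t17
  · linear_combination (norm := module) (1 : ℤ) • t9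
  · linear_combination (norm := module) (1 : ℤ) • t25
  · linear_combination (norm := module) (1 : ℤ) • t18
  · linear_combination (norm := module) (1 : ℤ) • t10
  · linear_combination (norm := module) (-1 : ℤ) • t26
  · linear_combination (norm := module) (1 : ℤ) • t19
  · linear_combination (norm := module) (1 : ℤ) • t5
  · linear_combination (norm := module) (-1 : ℤ) • t16
  · linear_combination (norm := module) (-1 : ℤ) • t0
  · linear_combination (norm := module) (-1 : ℤ) • t20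
  · linear_combination (norm := module) (-1 : ℤ) • t21
  · linear_combination (norm := module) (1 : ℤ) • t3
  · linear_combination (norm := module) (1 : ℤ) • t23
  · linear_combination (norm := module) (1 : ℤ) • t13
  · linear_combination (norm := module) (1 : ℤ) • t4
  · linear_combination (norm := module) (1 : ℤ) • t24
  · linear_combination (norm := module) (1 : ℤ) • t14
  · linear_combination (norm := module) (1 : ℤ) • t2
  · linear_combination (norm := module) (-1 : ℤ) • t6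
  · linear_combination (norm := module) (1 : ℤ) • t1
  · linear_combination (norm := module) (-1 : ℤ) • t15
theorem m29_25 (h : Eng A) (a b : A) : w29 a b * w25 a b = 0 := (wt11_12 h a b).1
theorem r25_29 (h : Eng A) (a b : A) : w25 a b * w29 a b = 0 := by
  rw [h.ac, m29_25 h, neg_zero]
theorem m29_26 (h : Eng A) (a b : A) : w29 a b * w26 a b = 0 := (wt11_12 h a b).2.1
theorem r26_29 (h : Eng A) (a b : A) : w26 a b * w29 a b = 0 := by
  rw [h.ac, m29_26 h, neg_zero]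
theorem m29_27 (h : Eng A) (a b : A) : w29 a b * w27 a b = 0 := (wt11_12 h a b).2.2.1
theorem r27_29 (h : Eng A) (a b : A) : w27 a b * w29 a b = 0 := by
  rw [h.ac, m29_27 h, neg_zero]
theorem m30_25 (h : Eng A) (a b : A) : w30 a b * w25 a b = 0 := (wt11_12 h a b).2.2.2.1
theorem r25_30 (h : Eng A) (a b : A) : w25 a b * w30 a b = 0 := by
  rw [h.ac, m30_25 h, neg_zero]
theorem m30_26 (h : Eng A) (a b : A) : w30 a b * w26 a b = 0 := (wt11_12 h a b).2.2.2.2.1
theorem r26_30 (h : Eng A) (a b : A) : w26 a b * w30 a b = 0 := by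
  rw [h.ac, m30_26 h, neg_zero]
theorem m30_27 (h : Eng A) (a b : A) : w30 a b * w27 a b = 0 := (wt11_12 h a b).2.2.2.2.2.1
theorem r27_30 (h : Eng A) (a b : A) : w27 a b * w30 a b = 0 := by
  rw [h.ac, m30_27 h, neg_zero]
theorem m31_25 (h : Eng A) (a b : A) : w31 a b * w25 a b = 0 := (wt11_12 h a b).2.2.2.2.2.2.1
theorem r25_31 (h : Eng A) (a b : A) : w25 a b * w31 a b = 0 := by
  rw [h.ac, m31_25 h, neg_zero]
theorem m31_26 (h : Eng A) (a b : A) : w31 a b * w26 a b = 0 := (wt11_12 h a b).2.2.2.2.2.2.2.1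
theorem r26_31 (h : Eng A) (a b : A) : w26 a b * w31 a b = 0 := by
  rw [h.ac, m31_26 h, neg_zero]
theorem m31_27 (h : Eng A) (a b : A) : w31 a b * w27 a b = 0 := (wt11_12 h a b).2.2.2.2.2.2.2.2.1
theorem r27_31 (h : Eng A) (a b : A) : w27 a b * w31 a b = 0 := by
  rw [h.ac, m31_27 h, neg_zero]
theorem m32_25 (h : Eng A) (a b : A) : w32 a b * w25 a b = 0 := (wt11_12 h a b).2.2.2.2.2.2.2.2.2.1
theorem r25_32 (h : Eng A) (a b : A) : w25 a b * w32 a b = 0 := by
  rw [h.ac, m32_25 h, neg_zero]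
theorem m32_26 (h : Eng A) (a b : A) : w32 a b * w26 a b = 0 := (wt11_12 h a b).2.2.2.2.2.2.2.2.2.2.1
theorem r26_32 (h : Eng A) (a b : A) : w26 a b * w32 a b = 0 := by
  rw [h.ac, m32_26 h, neg_zero]
theorem m32_27 (h : Eng A) (a b : A) : w32 a b * w27 a b = 0 := (wt11_12 h a b).2.2.2.2.2.2.2.2.2.2.2.1
theorem r27_32 (h : Eng A) (a b : A) : w27 a b * w32 a b = 0 := by
  rw [h.ac, m32_27 h, neg_zero]
theorem m33_22 (h : Eng A) (a b : A) : w33 a b * w22 a b = 0 := (wt11_12 h a b).2.2.2.2.2.2.2.2.2.2.2.2.1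
theorem r22_33 (h : Eng A) (a b : A) : w22 a b * w33 a b = 0 := by
  rw [h.ac, m33_22 h, neg_zero]
theorem m33_23 (h : Eng A) (a b : A) : w33 a b * w23 a b = 0 := (wt11_12 h a b).2.2.2.2.2.2.2.2.2.2.2.2.2.1
theorem r23_33 (h : Eng A) (a b : A) : w23 a b * w33 a b = 0 := by
  rw [h.ac, m33_23 h, neg_zero]
theorem m33_24 (h : Eng A) (a b : A) : w33 a b * w24 a b = 0 := (wt11_12 h a b).2.2.2.2.2.2.2.2.2.2.2.2.2.2.1
theorem r24_33 (h : Eng A) (a b : A) : w24 a b * w33 a b = 0 := by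
  rw [h.ac, m33_24 h, neg_zero]
theorem m34_21 (h : Eng A) (a b : A) : w34 a b * w21 a b = 0 := (wt11_12 h a b).2.2.2.2.2.2.2.2.2.2.2.2.2.2.2.1
theorem r21_34 (h : Eng A) (a b : A) : w21 a b * w34 a b = 0 := by
  rw [h.ac, m34_21 h, neg_zero]
theorem m35_21 (h : Eng A) (a b : A) : w35 a b * w21 a b = 0 := (wt11_12 h a b).2.2.2.2.2.2.2.2.2.2.2.2.2.2.2.2.1
theorem r21_35 (h : Eng A) (a b : A) : w21 a b * w35 a b = 0 := by
  rw [h.ac, m35_21 h, neg_zero]
theorem m36_18 (h : Eng A) (a b : A) : w36 a b * w18 a b = 0 := (wt11_12 h a b).2.2.2.2.2.2.2.2.2.2.2.2.2.2.2.2.2.1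
theorem r18_36 (h : Eng A) (a b : A) : w18 a b * w36 a b = 0 := by
  rw [h.ac, m36_18 h, neg_zero]
theorem m36_19 (h : Eng A) (a b : A) : w36 a b * w19 a b = 0 := (wt11_12 h a b).2.2.2.2.2.2.2.2.2.2.2.2.2.2.2.2.2.2.1
theorem r19_36 (h : Eng A) (a b : A) : w19 a b * w36 a b = 0 := by
  rw [h.ac, m36_19 h, neg_zero]
theorem m36_20 (h : Eng A) (a b : A) : w36 a b * w20 a b = 0 := (wt11_12 h a b).2.2.2.2.2.2.2.2.2.2.2.2.2.2.2.2.2.2.2.1
theorem r20_36 (h : Eng A) (a b : A) : w20 a b * w36 a b = 0 := by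
  rw [h.ac, m36_20 h, neg_zero]
theorem m37_18 (h : Eng A) (a b : A) : w37 a b * w18 a b = 0 := (wt11_12 h a b).2.2.2.2.2.2.2.2.2.2.2.2.2.2.2.2.2.2.2.2.1
theorem r18_37 (h : Eng A) (a b : A) : w18 a b * w37 a b = 0 := by
  rw [h.ac, m37_18 h, neg_zero]
theorem m37_19 (h : Eng A) (a b : A) : w37 a b * w19 a b = 0 := (wt11_12 h a b).2.2.2.2.2.2.2.2.2.2.2.2.2.2.2.2.2.2.2.2.2.1
theorem r19_37 (h : Eng A) (a b : A) : w19 a b * w37 a b = 0 := by
  rw [h.ac, m37_19 h, neg_zero]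
theorem m37_20 (h : Eng A) (a b : A) : w37 a b * w20 a b = 0 := (wt11_12 h a b).2.2.2.2.2.2.2.2.2.2.2.2.2.2.2.2.2.2.2.2.2.2.1
theorem r20_37 (h : Eng A) (a b : A) : w20 a b * w37 a b = 0 := by
  rw [h.ac, m37_20 h, neg_zero]
theorem m39_15 (h : Eng A) (a b : A) : w39 a b * w15 a b = 0 := (wt11_12 h a b).2.2.2.2.2.2.2.2.2.2.2.2.2.2.2.2.2.2.2.2.2.2.2.1
theorem r15_39 (h : Eng A) (a b : A) : w15 a b * w39 a b = 0 := by
  rw [h.ac, m39_15 h, neg_zero]
theorem m39_16 (h : Eng A) (a b : A) : w39 a b * w16 a b = 0 := (wt11_12 h a b).2.2.2.2.2.2.2.2.2.2.2.2.2.2.2.2.2.2.2.2.2.2.2.2.1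
theorem r16_39 (h : Eng A) (a b : A) : w16 a b * w39 a b = 0 := by
  rw [h.ac, m39_16 h, neg_zero]
theorem m40_13 (h : Eng A) (a b : A) : w40 a b * w13 a b = 0 := (wt11_12 h a b).2.2.2.2.2.2.2.2.2.2.2.2.2.2.2.2.2.2.2.2.2.2.2.2.2.1
theorem r13_40 (h : Eng A) (a b : A) : w13 a b * w40 a b = 0 := by
  rw [h.ac, m40_13 h, neg_zero]
theorem m40_14 (h : Eng A) (a b : A) : w40 a b * w14 a b = 0 := (wt11_12 h a b).2.2.2.2.2.2.2.2.2.2.2.2.2.2.2.2.2.2.2.2.2.2.2.2.2.2
theorem r14_40 (h : Eng A) (a b : A) : w14 a b * w40 a b = 0 := by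
  rw [h.ac, m40_14 h, neg_zero]

theorem wt10_13 (h : Eng A) (a b : A) :
    (w33 a b * w25 a b = 0) ∧
    (w33 a b * w26 a b = 0) ∧
    (w33 a b * w27 a b = 0) ∧
    (w36 a b * w21 a b = 0) ∧
    (w37 a b * w21 a b = 0) ∧
    (w40 a b * w15 a b = 0) ∧
    (w40 a b * w16 a b = 0) := by
  have c25_33 : w25 a b * w33 a b = -(w33 a b * w25 a b) := h.ac _ _
  have c26_33 : w26 a b * w33 a b = -(w33 a b * w26 a b) := h.ac _ _
  have c27_33 : w27 a b * w33 a b = -(w33 a b * w27 a b) := h.ac _ _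
  have c21_36 : w21 a b * w36 a b = -(w36 a b * w21 a b) := h.ac _ _
  have c21_37 : w21 a b * w37 a b = -(w37 a b * w21 a b) := h.ac _ _
  have c15_40 : w15 a b * w40 a b = -(w40 a b * w15 a b) := h.ac _ _
  have c16_40 : w16 a b * w40 a b = -(w40 a b * w16 a b) := h.ac _ _
  have t0 := h.e3 (w7 a b) (w0 a b) (w4 a b) (w40 a b)
  simp only [c15_40, m7_0 h a b, m7_4 h a b, m8_4 a b, r7_40 h a b, r8_40 h a b, add_mul, sub_mul, neg_mul, zero_mul, add_zero, zero_add, neg_zero, neg_neg, sub_zero, zero_sub] at t0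
  have t1 := h.e3 (w7 a b) (w0 a b) (w7 a b) (w33 a b)
  simp only [c25_33, h.sq (w7 a b), m7_0 h a b, m8_7 a b, r7_33 h a b, r8_33 h a b, add_mul, sub_mul, neg_mul, zero_mul, add_zero, zero_add, neg_zero, neg_neg, sub_zero, zero_sub] at t1
  have t2 := h.e3 (w1 a b) (w0 a b) (w10 a b) (w40 a b)
  simp only [c16_40, m1_0 a b, r1_10 h a b, r1_40 h a b, r2_10 h a b, r2_40 h a b, add_mul, sub_mul, neg_mul, zero_mul, add_zero, zero_add, neg_zero, neg_neg, sub_zero, zero_sub] at t2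
  have t3 := h.e2 (w18 a b) (w1 a b) (w26 a b)
  simp only [h.sq (w26 a b), m18_1 h a b, m26_1 h a b, r18_26 h a b, add_mul, sub_mul, neg_mul, zero_mul, add_zero, zero_add, neg_zero, neg_neg, sub_zero, zero_sub] at t3
  have t4 := h.e2 (w18 a b) (w1 a b) (w27 a b)
  simp only [m18_1 h a b, m26_1 h a b, r18_27 h a b, r26_27 h a b, add_mul, sub_mul, neg_mul, zero_mul, add_zero, zero_add, neg_zero, neg_neg, sub_zero, zero_sub] at t4
  have t5 := h.e2 (w11 a b) (w1 a b) (w36 a b)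
  simp only [c21_36, m11_1 h a b, m16_1 h a b, r11_36 h a b, r16_36 h a b, add_mul, sub_mul, neg_mul, zero_mul, add_zero, zero_add, neg_zero, neg_neg, sub_zero, zero_sub] at t5
  have t6 := h.e2 (w11 a b) (w1 a b) (w37 a b)
  simp only [c21_37, m11_1 h a b, m16_1 h a b, r11_37 h a b, r16_37 h a b, add_mul, sub_mul, neg_mul, zero_mul, add_zero, zero_add, neg_zero, neg_neg, sub_zero, zero_sub] at t6
  refine ⟨?_, ?_, ?_, ?_, ?_, ?_, ?_⟩
  · linear_combination (norm := module) (1 : ℤ) • t1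
  · linear_combination (norm := module) (-1 : ℤ) • t3
  · linear_combination (norm := module) (-1 : ℤ) • t4
  · linear_combination (norm := module) (-1 : ℤ) • t5
  · linear_combination (norm := module) (-1 : ℤ) • t6
  · linear_combination (norm := module) (1 : ℤ) • t0
  · linear_combination (norm := module) (1 : ℤ) • t2
theorem m33_25 (h : Eng A) (a b : A) : w33 a b * w25 a b = 0 := (wt10_13 h a b).1
theorem r25_33 (h : Eng A) (a b : A) : w25 a b * w33 a b = 0 := by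
  rw [h.ac, m33_25 h, neg_zero]
theorem m33_26 (h : Eng A) (a b : A) : w33 a b * w26 a b = 0 := (wt10_13 h a b).2.1
theorem r26_33 (h : Eng A) (a b : A) : w26 a b * w33 a b = 0 := by
  rw [h.ac, m33_26 h, neg_zero]
theorem m33_27 (h : Eng A) (a b : A) : w33 a b * w27 a b = 0 := (wt10_13 h a b).2.2.1
theorem r27_33 (h : Eng A) (a b : A) : w27 a b * w33 a b = 0 := by
  rw [h.ac, m33_27 h, neg_zero]
theorem m36_21 (h : Eng A) (a b : A) : w36 a b * w21 a b = 0 := (wt10_13 h a b).2.2.2.1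
theorem r21_36 (h : Eng A) (a b : A) : w21 a b * w36 a b = 0 := by
  rw [h.ac, m36_21 h, neg_zero]
theorem m37_21 (h : Eng A) (a b : A) : w37 a b * w21 a b = 0 := (wt10_13 h a b).2.2.2.2.1
theorem r21_37 (h : Eng A) (a b : A) : w21 a b * w37 a b = 0 := by
  rw [h.ac, m37_21 h, neg_zero]
theorem m40_15 (h : Eng A) (a b : A) : w40 a b * w15 a b = 0 := (wt10_13 h a b).2.2.2.2.2.1
theorem r15_40 (h : Eng A) (a b : A) : w15 a b * w40 a b = 0 := by
  rw [h.ac, m40_15 h, neg_zero]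
theorem m40_16 (h : Eng A) (a b : A) : w40 a b * w16 a b = 0 := (wt10_13 h a b).2.2.2.2.2.2
theorem r16_40 (h : Eng A) (a b : A) : w16 a b * w40 a b = 0 := by
  rw [h.ac, m40_16 h, neg_zero]

end Pool.Agent.H461R3.E3
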