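import Pool.Agent.H461R3.E3.D23

set_option autoImplicit false
set_option linter.all false
set_option linter.unusedSimpArgs false
set_option linter.unusedVariables false

namespace Pool.Agent.H461R3.E3

universe u

variable {A : Type u} [NonUnitalNonAssocRing A]

theorem wt14_10 (h : Eng A) (a b : A) :
    (w38 a b * w17 a b = 0) := by
  have c17_38 : w17 a b * w38 a b = -(w38 a b * w17 a b) := h.ac _ _
  have t0 := h.e2 (w31 a b) (w0 a b) (w17 a b)
  simp only [m31_0 h a b, m31_17 h a b, m35_0 h a b, m35_17 h a b, add_mul, sub_mul, neg_mul, zero_mul, add_zero, zero_add, neg_zero, neg_neg, sub_zero, zero_sub] at t0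
  · linear_combination (norm := module) (-1 : ℤ) • t0
theorem m38_17 (h : Eng A) (a b : A) : w38 a b * w17 a b = 0 := (wt14_10 h a b)
theorem r17_38 (h : Eng A) (a b : A) : w17 a b * w38 a b = 0 := by
  rw [h.ac, m38_17 h, neg_zero]

theorem wt13_11 (h : Eng A) (a b : A) :
    (w29 a b * w28 a b = 0) ∧
    (w30 a b * w28 a b = 0) ∧
    (w31 a b * w28 a b = 0) ∧
    (w32 a b * w28 a b = 0) ∧
    (w34 a b * w22 a b = 0) ∧
    (w34 a b * w23 a b = 0) ∧
    (w34 a b * w24 a b = 0) ∧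
    (w35 a b * w22 a b = 0) ∧
    (w35 a b * w23 a b = 0) ∧
    (w35 a b * w24 a b = 0) ∧
    (w38 a b * w18 a b = 0) ∧
    (w38 a b * w19 a b = 0) ∧
    (w38 a b * w20 a b = 0) ∧
    (w39 a b * w17 a b = 0) := by
  have c28_29 : w28 a b * w29 a b = -(w29 a b * w28 a b) := h.ac _ _
  have c28_30 : w28 a b * w30 a b = -(w30 a b * w28 a b) := h.ac _ _
  have c28_31 : w28 a b * w31 a b = -(w31 a b * w28 a b) := h.ac _ _
  have c28_32 : w28 a b * w32 a b = -(w32 a b * w28 a b) := h.ac _ _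
  have c22_34 : w22 a b * w34 a b = -(w34 a b * w22 a b) := h.ac _ _
  have c23_34 : w23 a b * w34 a b = -(w34 a b * w23 a b) := h.ac _ _
  have c24_34 : w24 a b * w34 a b = -(w34 a b * w24 a b) := h.ac _ _
  have c22_35 : w22 a b * w35 a b = -(w35 a b * w22 a b) := h.ac _ _
  have c23_35 : w23 a b * w35 a b = -(w35 a b * w23 a b) := h.ac _ _
  have c24_35 : w24 a b * w35 a b = -(w35 a b * w24 a b) := h.ac _ _
  have c18_38 : w18 a b * w38 a b = -(w38 a b * w18 a b) := h.ac _ _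
  have c19_38 : w19 a b * w38 a b = -(w38 a b * w19 a b) := h.ac _ _
  have c20_38 : w20 a b * w38 a b = -(w38 a b * w20 a b) := h.ac _ _
  have c17_39 : w17 a b * w39 a b = -(w39 a b * w17 a b) := h.ac _ _
  have t0 := h.e2 (w31 a b) (w0 a b) (w18 a b)
  simp only [m31_0 h a b, m31_18 h a b, m35_0 h a b, m35_18 h a b, add_mul, sub_mul, neg_mul, zero_mul, add_zero, zero_add, neg_zero, neg_neg, sub_zero, zero_sub] at t0
  have t1 := h.e2 (w31 a b) (w0 a b) (w19 a b)
  simp only [m31_0 h a b, m31_19 h a b, m35_0 h a b, m35_19 h a b, add_mul, sub_mul, neg_mul, zero_mul, add_zero, zero_add, neg_zero, neg_neg, sub_zero, zero_sub] at t1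
  have t2 := h.e2 (w31 a b) (w0 a b) (w20 a b)
  simp only [m31_0 h a b, m31_20 h a b, m35_0 h a b, m35_20 h a b, add_mul, sub_mul, neg_mul, zero_mul, add_zero, zero_add, neg_zero, neg_neg, sub_zero, zero_sub] at t2
  have t3 := h.e2 (w18 a b) (w0 a b) (w29 a b)
  simp only [c28_29, m18_0 h a b, m23_0 h a b, r18_29 h a b, r23_29 h a b, add_mul, sub_mul, neg_mul, zero_mul, add_zero, zero_add, neg_zero, neg_neg, sub_zero, zero_sub] at t3
  have t4 := h.e2 (w18 a b) (w0 a b) (w30 a b)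
  simp only [c28_30, m18_0 h a b, m23_0 h a b, r18_30 h a b, r23_30 h a b, add_mul, sub_mul, neg_mul, zero_mul, add_zero, zero_add, neg_zero, neg_neg, sub_zero, zero_sub] at t4
  have t5 := h.e2 (w18 a b) (w0 a b) (w31 a b)
  simp only [c28_31, m18_0 h a b, m23_0 h a b, r18_31 h a b, r23_31 h a b, add_mul, sub_mul, neg_mul, zero_mul, add_zero, zero_add, neg_zero, neg_neg, sub_zero, zero_sub] at t5
  have t6 := h.e2 (w18 a b) (w0 a b) (w32 a b)
  simp only [c28_32, m18_0 h a b, m23_0 h a b, r18_32 h a b, r23_32 h a b, add_mul, sub_mul, neg_mul, zero_mul, add_zero, zero_add, neg_zero, neg_neg, sub_zero, zero_sub] at t6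
  have t7 := h.e2 (w16 a b) (w0 a b) (w34 a b)
  simp only [c24_34, m16_0 h a b, m20_0 h a b, r16_34 h a b, r20_34 h a b, add_mul, sub_mul, neg_mul, zero_mul, add_zero, zero_add, neg_zero, neg_neg, sub_zero, zero_sub] at t7
  have t8 := h.e2 (w16 a b) (w0 a b) (w35 a b)
  simp only [c24_35, m16_0 h a b, m20_0 h a b, r16_35 h a b, r20_35 h a b, add_mul, sub_mul, neg_mul, zero_mul, add_zero, zero_add, neg_zero, neg_neg, sub_zero, zero_sub] at t8
  have t9 := h.e2 (w11 a b) (w0 a b) (w39 a b)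
  simp only [c17_39, m11_0 h a b, m14_0 h a b, r11_39 h a b, r14_39 h a b, add_mul, sub_mul, neg_mul, zero_mul, add_zero, zero_add, neg_zero, neg_neg, sub_zero, zero_sub] at t9
  have t10 := h.e3 (w7 a b) (w0 a b) (w6 a b) (w34 a b)
  simp only [c22_34, m7_0 h a b, m7_6 h a b, m8_6 a b, r7_34 h a b, r8_34 h a b, add_mul, sub_mul, neg_mul, zero_mul, add_zero, zero_add, neg_zero, neg_neg, sub_zero, zero_sub] at t10
  have t11 := h.e3 (w7 a b) (w0 a b) (w6 a b) (w35 a b)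
  simp only [c22_35, m7_0 h a b, m7_6 h a b, m8_6 a b, r7_35 h a b, r8_35 h a b, add_mul, sub_mul, neg_mul, zero_mul, add_zero, zero_add, neg_zero, neg_neg, sub_zero, zero_sub] at t11
  have t12 := h.e2 (w13 a b) (w2 a b) (w23 a b)
  simp only [m13_2 h a b, m24_2 h a b, m24_23 h a b, r13_23 h a b, add_mul, sub_mul, neg_mul, zero_mul, add_zero, zero_add, neg_zero, neg_neg, sub_zero, zero_sub] at t12
  have t13 := h.e3 (w4 a b) (w3 a b) (w9 a b) (w23 a b)
  simp only [m19_3 h a b, m4_3 a b, r19_23 h a b, r4_23 h a b, r4_9 h a b, r8_23 h a b, r8_9 h a b, add_mul, sub_mul, neg_mul, zero_mul, add_zero, zero_add, neg_zero, neg_neg, sub_zero, zero_sub] at t13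
  refine ⟨?_, ?_, ?_, ?_, ?_, ?_, ?_, ?_, ?_, ?_, ?_, ?_, ?_, ?_⟩
  · linear_combination (norm := module) (1 : ℤ) • t3
  · linear_combination (norm := module) (1 : ℤ) • t4
  · linear_combination (norm := module) (1 : ℤ) • t5
  · linear_combination (norm := module) (1 : ℤ) • t6
  · linear_combination (norm := module) (1 : ℤ) • t10
  · linear_combination (norm := module) (1 : ℤ) • t12
  · linear_combination (norm := module) (-1 : ℤ) • t7
  · linear_combination (norm := module) (1 : ℤ) • t11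
  · linear_combination (norm := module) (1 : ℤ) • t13
  · linear_combination (norm := module) (-1 : ℤ) • t8
  · linear_combination (norm := module) (-1 : ℤ) • t0
  · linear_combination (norm := module) (-1 : ℤ) • t1
  · linear_combination (norm := module) (-1 : ℤ) • t2
  · linear_combination (norm := module) (-1 : ℤ) • t9
theorem m29_28 (h : Eng A) (a b : A) : w29 a b * w28 a b = 0 := (wt13_11 h a b).1
theorem r28_29 (h : Eng A) (a b : A) : w28 a b * w29 a b = 0 := by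
  rw [h.ac, m29_28 h, neg_zero]
theorem m30_28 (h : Eng A) (a b : A) : w30 a b * w28 a b = 0 := (wt13_11 h a b).2.1
theorem r28_30 (h : Eng A) (a b : A) : w28 a b * w30 a b = 0 := by
  rw [h.ac, m30_28 h, neg_zero]
theorem m31_28 (h : Eng A) (a b : A) : w31 a b * w28 a b = 0 := (wt13_11 h a b).2.2.1
theorem r28_31 (h : Eng A) (a b : A) : w28 a b * w31 a b = 0 := by
  rw [h.ac, m31_28 h, neg_zero]
theorem m32_28 (h : Eng A) (a b : A) : w32 a b * w28 a b = 0 := (wt13_11 h a b).2.2.2.1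
theorem r28_32 (h : Eng A) (a b : A) : w28 a b * w32 a b = 0 := by
  rw [h.ac, m32_28 h, neg_zero]
theorem m34_22 (h : Eng A) (a b : A) : w34 a b * w22 a b = 0 := (wt13_11 h a b).2.2.2.2.1
theorem r22_34 (h : Eng A) (a b : A) : w22 a b * w34 a b = 0 := by
  rw [h.ac, m34_22 h, neg_zero]
theorem m34_23 (h : Eng A) (a b : A) : w34 a b * w23 a b = 0 := (wt13_11 h a b).2.2.2.2.2.1
theorem r23_34 (h : Eng A) (a b : A) : w23 a b * w34 a b = 0 := by
  rw [h.ac, m34_23 h, neg_zero]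
theorem m34_24 (h : Eng A) (a b : A) : w34 a b * w24 a b = 0 := (wt13_11 h a b).2.2.2.2.2.2.1
theorem r24_34 (h : Eng A) (a b : A) : w24 a b * w34 a b = 0 := by
  rw [h.ac, m34_24 h, neg_zero]
theorem m35_22 (h : Eng A) (a b : A) : w35 a b * w22 a b = 0 := (wt13_11 h a b).2.2.2.2.2.2.2.1
theorem r22_35 (h : Eng A) (a b : A) : w22 a b * w35 a b = 0 := by
  rw [h.ac, m35_22 h, neg_zero]
theorem m35_23 (h : Eng A) (a b : A) : w35 a b * w23 a b = 0 := (wt13_11 h a b).2.2.2.2.2.2.2.2.1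
theorem r23_35 (h : Eng A) (a b : A) : w23 a b * w35 a b = 0 := by
  rw [h.ac, m35_23 h, neg_zero]
theorem m35_24 (h : Eng A) (a b : A) : w35 a b * w24 a b = 0 := (wt13_11 h a b).2.2.2.2.2.2.2.2.2.1
theorem r24_35 (h : Eng A) (a b : A) : w24 a b * w35 a b = 0 := by
  rw [h.ac, m35_24 h, neg_zero]
theorem m38_18 (h : Eng A) (a b : A) : w38 a b * w18 a b = 0 := (wt13_11 h a b).2.2.2.2.2.2.2.2.2.2.1
theorem r18_38 (h : Eng A) (a b : A) : w18 a b * w38 a b = 0 := by
  rw [h.ac, m38_18 h, neg_zero]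
theorem m38_19 (h : Eng A) (a b : A) : w38 a b * w19 a b = 0 := (wt13_11 h a b).2.2.2.2.2.2.2.2.2.2.2.1
theorem r19_38 (h : Eng A) (a b : A) : w19 a b * w38 a b = 0 := by
  rw [h.ac, m38_19 h, neg_zero]
theorem m38_20 (h : Eng A) (a b : A) : w38 a b * w20 a b = 0 := (wt13_11 h a b).2.2.2.2.2.2.2.2.2.2.2.2.1
theorem r20_38 (h : Eng A) (a b : A) : w20 a b * w38 a b = 0 := by
  rw [h.ac, m38_20 h, neg_zero]
theorem m39_17 (h : Eng A) (a b : A) : w39 a b * w17 a b = 0 := (wt13_11 h a b).2.2.2.2.2.2.2.2.2.2.2.2.2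
theorem r17_39 (h : Eng A) (a b : A) : w17 a b * w39 a b = 0 := by
  rw [h.ac, m39_17 h, neg_zero]

theorem wt12_12 (h : Eng A) (a b : A) :
    (w30 a b * w29 a b = 0) ∧
    (w31 a b * w29 a b = 0) ∧
    (w31 a b * w30 a b = 0) ∧
    (w32 a b * w29 a b = 0) ∧
    (w32 a b * w30 a b = 0) ∧
    (w32 a b * w31 a b = 0) ∧
    (w33 a b * w28 a b = 0) ∧
    (w34 a b * w25 a b = 0) ∧
    (w34 a b * w26 a b = 0) ∧
    (w34 a b * w27 a b = 0) ∧
    (w35 a b * w25 a b = 0) ∧
    (w35 a b * w26 a b = 0) ∧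
    (w35 a b * w27 a b = 0) ∧
    (w36 a b * w22 a b = 0) ∧
    (w36 a b * w23 a b = 0) ∧
    (w36 a b * w24 a b = 0) ∧
    (w37 a b * w22 a b = 0) ∧
    (w37 a b * w23 a b = 0) ∧
    (w37 a b * w24 a b = 0) ∧
    (w38 a b * w21 a b = 0) ∧
    (w39 a b * w18 a b = 0) ∧
    (w39 a b * w19 a b = 0) ∧
    (w39 a b * w20 a b = 0) ∧
    (w40 a b * w17 a b = 0) := by
  have c29_30 : w29 a b * w30 a b = -(w30 a b * w29 a b) := h.ac _ _
  have c29_31 : w29 a b * w31 a b = -(w31 a b * w29 a b) := h.ac _ _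
  have c30_31 : w30 a b * w31 a b = -(w31 a b * w30 a b) := h.ac _ _
  have c29_32 : w29 a b * w32 a b = -(w32 a b * w29 a b) := h.ac _ _
  have c30_32 : w30 a b * w32 a b = -(w32 a b * w30 a b) := h.ac _ _
  have c31_32 : w31 a b * w32 a b = -(w32 a b * w31 a b) := h.ac _ _
  have c28_33 : w28 a b * w33 a b = -(w33 a b * w28 a b) := h.ac _ _
  have c25_34 : w25 a b * w34 a b = -(w34 a b * w25 a b) := h.ac _ _
  have c26_34 : w26 a b * w34 a b = -(w34 a b * w26 a b) := h.ac _ _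
  have c27_34 : w27 a b * w34 a b = -(w34 a b * w27 a b) := h.ac _ _
  have c25_35 : w25 a b * w35 a b = -(w35 a b * w25 a b) := h.ac _ _
  have c26_35 : w26 a b * w35 a b = -(w35 a b * w26 a b) := h.ac _ _
  have c27_35 : w27 a b * w35 a b = -(w35 a b * w27 a b) := h.ac _ _
  have c22_36 : w22 a b * w36 a b = -(w36 a b * w22 a b) := h.ac _ _
  have c23_36 : w23 a b * w36 a b = -(w36 a b * w23 a b) := h.ac _ _
  have c24_36 : w24 a b * w36 a b = -(w36 a b * w24 a b) := h.ac _ _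
  have c22_37 : w22 a b * w37 a b = -(w37 a b * w22 a b) := h.ac _ _
  have c23_37 : w23 a b * w37 a b = -(w37 a b * w23 a b) := h.ac _ _
  have c24_37 : w24 a b * w37 a b = -(w37 a b * w24 a b) := h.ac _ _
  have c21_38 : w21 a b * w38 a b = -(w38 a b * w21 a b) := h.ac _ _
  have c18_39 : w18 a b * w39 a b = -(w39 a b * w18 a b) := h.ac _ _
  have c19_39 : w19 a b * w39 a b = -(w39 a b * w19 a b) := h.ac _ _
  have c20_39 : w20 a b * w39 a b = -(w39 a b * w20 a b) := h.ac _ _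
  have c17_40 : w17 a b * w40 a b = -(w40 a b * w17 a b) := h.ac _ _
  have t0 := h.e2 (w31 a b) (w0 a b) (w21 a b)
  simp only [m31_0 h a b, m31_21 h a b, m35_0 h a b, m35_21 h a b, add_mul, sub_mul, neg_mul, zero_mul, add_zero, zero_add, neg_zero, neg_neg, sub_zero, zero_sub] at t0
  have t1 := h.e2 (w18 a b) (w0 a b) (w33 a b)
  simp only [c28_33, m18_0 h a b, m23_0 h a b, r18_33 h a b, r23_33 h a b, add_mul, sub_mul, neg_mul, zero_mul, add_zero, zero_add, neg_zero, neg_neg, sub_zero, zero_sub] at t1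
  have t2 := h.e2 (w16 a b) (w0 a b) (w36 a b)
  simp only [c24_36, m16_0 h a b, m20_0 h a b, r16_36 h a b, r20_36 h a b, add_mul, sub_mul, neg_mul, zero_mul, add_zero, zero_add, neg_zero, neg_neg, sub_zero, zero_sub] at t2
  have t3 := h.e2 (w16 a b) (w0 a b) (w37 a b)
  simp only [c24_37, m16_0 h a b, m20_0 h a b, r16_37 h a b, r20_37 h a b, add_mul, sub_mul, neg_mul, zero_mul, add_zero, zero_add, neg_zero, neg_neg, sub_zero, zero_sub] at t3
  have t4 := h.e2 (w11 a b) (w0 a b) (w40 a b)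
  simp only [c17_40, m11_0 h a b, m14_0 h a b, r11_40 h a b, r14_40 h a b, add_mul, sub_mul, neg_mul, zero_mul, add_zero, zero_add, neg_zero, neg_neg, sub_zero, zero_sub] at t4
  have t5 := h.e3 (w7 a b) (w0 a b) (w5 a b) (w39 a b)
  simp only [c18_39, m7_0 h a b, m7_5 h a b, m8_5 a b, r7_39 h a b, r8_39 h a b, add_mul, sub_mul, neg_mul, zero_mul, add_zero, zero_add, neg_zero, neg_neg, sub_zero, zero_sub] at t5
  have t6 := h.e3 (w7 a b) (w0 a b) (w6 a b) (w36 a b)
  simp only [c22_36, m7_0 h a b, m7_6 h a b, m8_6 a b, r7_36 h a b, r8_36 h a b, add_mul, sub_mul, neg_mul, zero_mul, add_zero, zero_add, neg_zero, neg_neg, sub_zero, zero_sub] at t6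
  have t7 := h.e3 (w7 a b) (w0 a b) (w6 a b) (w37 a b)
  simp only [c22_37, m7_0 h a b, m7_6 h a b, m8_6 a b, r7_37 h a b, r8_37 h a b, add_mul, sub_mul, neg_mul, zero_mul, add_zero, zero_add, neg_zero, neg_neg, sub_zero, zero_sub] at t7
  have t8 := h.e3 (w11 a b) (w0 a b) (w7 a b) (w19 a b)
  simp only [m11_0 h a b, m11_7 a b, m14_7 h a b, m36_0 h a b, m36_19 h a b, r11_19 h a b, r14_19 h a b, add_mul, sub_mul, neg_mul, zero_mul, add_zero, zero_add, neg_zero, neg_neg, sub_zero, zero_sub] at t8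
  have t9 := h.e3 (w11 a b) (w0 a b) (w7 a b) (w20 a b)
  simp only [m11_0 h a b, m11_7 a b, m14_7 h a b, m36_0 h a b, m36_20 h a b, r11_20 h a b, r14_20 h a b, add_mul, sub_mul, neg_mul, zero_mul, add_zero, zero_add, neg_zero, neg_neg, sub_zero, zero_sub] at t9
  have t10 := h.e3 (w7 a b) (w0 a b) (w7 a b) (w34 a b)
  simp only [c25_34, h.sq (w7 a b), m7_0 h a b, m8_7 a b, r7_34 h a b, r8_34 h a b, add_mul, sub_mul, neg_mul, zero_mul, add_zero, zero_add, neg_zero, neg_neg, sub_zero, zero_sub] at t10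
  have t11 := h.e3 (w7 a b) (w0 a b) (w7 a b) (w35 a b)
  simp only [c25_35, h.sq (w7 a b), m7_0 h a b, m8_7 a b, r7_35 h a b, r8_35 h a b, add_mul, sub_mul, neg_mul, zero_mul, add_zero, zero_add, neg_zero, neg_neg, sub_zero, zero_sub] at t11
  have t12 := h.e3 (w7 a b) (w0 a b) (w8 a b) (w30 a b)
  simp only [c29_30, h.sq (w8 a b), m25_0 h a b, m7_0 h a b, r25_30 h a b, r7_30 h a b, r7_8 h a b, r8_30 h a b, add_mul, sub_mul, neg_mul, zero_mul, add_zero, zero_add, neg_zero, neg_neg, sub_zero, zero_sub] at t12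
  have t13 := h.e3 (w7 a b) (w0 a b) (w8 a b) (w31 a b)
  simp only [c29_31, h.sq (w8 a b), m25_0 h a b, m7_0 h a b, r25_31 h a b, r7_31 h a b, r7_8 h a b, r8_31 h a b, add_mul, sub_mul, neg_mul, zero_mul, add_zero, zero_add, neg_zero, neg_neg, sub_zero, zero_sub] at t13
  have t14 := h.e3 (w7 a b) (w0 a b) (w8 a b) (w32 a b)
  simp only [c29_32, h.sq (w8 a b), m25_0 h a b, m7_0 h a b, r25_32 h a b, r7_32 h a b, r7_8 h a b, r8_32 h a b, add_mul, sub_mul, neg_mul, zero_mul, add_zero, zero_add, neg_zero, neg_neg, sub_zero, zero_sub] at t14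
  have t15 := h.e2 (w14 a b) (w1 a b) (w34 a b)
  simp only [c27_34, m14_1 h a b, m19_1 h a b, r14_34 h a b, r19_34 h a b, add_mul, sub_mul, neg_mul, zero_mul, add_zero, zero_add, neg_zero, neg_neg, sub_zero, zero_sub] at t15
  have t16 := h.e2 (w14 a b) (w1 a b) (w35 a b)
  simp only [c27_35, m14_1 h a b, m19_1 h a b, r14_35 h a b, r19_35 h a b, add_mul, sub_mul, neg_mul, zero_mul, add_zero, zero_add, neg_zero, neg_neg, sub_zero, zero_sub] at t16
  have t17 := h.e3 (w6 a b) (w1 a b) (w8 a b) (w31 a b)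
  simp only [c30_31, h.sq (w8 a b), m22_1 h a b, m6_1 h a b, r22_31 h a b, r6_31 h a b, r6_8 h a b, r8_31 h a b, add_mul, sub_mul, neg_mul, zero_mul, add_zero, zero_add, neg_zero, neg_neg, sub_zero, zero_sub] at t17
  have t18 := h.e3 (w6 a b) (w1 a b) (w8 a b) (w32 a b)
  simp only [c30_32, h.sq (w8 a b), m22_1 h a b, m6_1 h a b, r22_32 h a b, r6_32 h a b, r6_8 h a b, r8_32 h a b, add_mul, sub_mul, neg_mul, zero_mul, add_zero, zero_add, neg_zero, neg_neg, sub_zero, zero_sub] at t18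
  have t19 := h.e2 (w15 a b) (w2 a b) (w23 a b)
  simp only [m15_2 h a b, m27_2 h a b, m27_23 h a b, r15_23 h a b, add_mul, sub_mul, neg_mul, zero_mul, add_zero, zero_add, neg_zero, neg_neg, sub_zero, zero_sub] at t19
  have t20 := h.e2 (w13 a b) (w2 a b) (w26 a b)
  simp only [m13_2 h a b, m24_2 h a b, r13_26 h a b, r24_26 h a b, add_mul, sub_mul, neg_mul, zero_mul, add_zero, zero_add, neg_zero, neg_neg, sub_zero, zero_sub] at t20
  have t21 := h.e3 (w5 a b) (w2 a b) (w8 a b) (w32 a b)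
  simp only [c31_32, h.sq (w8 a b), m18_2 h a b, m5_2 h a b, r18_32 h a b, r5_32 h a b, r5_8 h a b, r8_32 h a b, add_mul, sub_mul, neg_mul, zero_mul, add_zero, zero_add, neg_zero, neg_neg, sub_zero, zero_sub] at t21
  have t22 := h.e3 (w4 a b) (w3 a b) (w9 a b) (w26 a b)
  simp only [m19_3 h a b, m4_3 a b, r19_26 h a b, r4_26 h a b, r4_9 h a b, r8_26 h a b, r8_9 h a b, add_mul, sub_mul, neg_mul, zero_mul, add_zero, zero_add, neg_zero, neg_neg, sub_zero, zero_sub] at t22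
  have t23 := h.e3 (w0 a b) (w3 a b) (w10 a b) (w37 a b)
  simp only [c23_37, m12_3 h a b, m39_10 h a b, m39_3 h a b, r0_10 h a b, r0_3 h a b, r0_37 h a b, r12_37 h a b, add_mul, sub_mul, neg_mul, zero_mul, add_zero, zero_add, neg_zero, neg_neg, sub_zero, zero_sub] at t23
  refine ⟨?_, ?_, ?_, ?_, ?_, ?_, ?_, ?_, ?_, ?_, ?_, ?_, ?_, ?_, ?_, ?_, ?_, ?_, ?_, ?_, ?_, ?_, ?_, ?_⟩
  · linear_combination (norm := module) (-1 : ℤ) • t12
  · linear_combination (norm := module) (-1 : ℤ) • t13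
  · linear_combination (norm := module) (-1 : ℤ) • t17
  · linear_combination (norm := module) (-1 : ℤ) • t14
  · linear_combination (norm := module) (-1 : ℤ) • t18
  · linear_combination (norm := module) (-1 : ℤ) • t21
  · linear_combination (norm := module) (1 : ℤ) • t1
  · linear_combination (norm := module) (1 : ℤ) • t10
  · linear_combination (norm := module) (1 : ℤ) • t20
  · linear_combination (norm := module) (1 : ℤ) • t15
  · linear_combination (norm := module) (1 : ℤ) • t11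
  · linear_combination (norm := module) (1 : ℤ) • t22
  · linear_combination (norm := module) (1 : ℤ) • t16
  · linear_combination (norm := module) (1 : ℤ) • t6
  · linear_combination (norm := module) (1 : ℤ) • t19
  · linear_combination (norm := module) (-1 : ℤ) • t2
  · linear_combination (norm := module) (1 : ℤ) • t7
  · linear_combination (norm := module) (-1 : ℤ) • t23
  · linear_combination (norm := module) (-1 : ℤ) • t3
  · linear_combination (norm := module) (-1 : ℤ) • t0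
  · linear_combination (norm := module) (1 : ℤ) • t5
  · linear_combination (norm := module) (-1 : ℤ) • t8
  · linear_combination (norm := module) (-1 : ℤ) • t9
  · linear_combination (norm := module) (-1 : ℤ) • t4
theorem m30_29 (h : Eng A) (a b : A) : w30 a b * w29 a b = 0 := (wt12_12 h a b).1
theorem r29_30 (h : Eng A) (a b : A) : w29 a b * w30 a b = 0 := by
  rw [h.ac, m30_29 h, neg_zero]
theorem m31_29 (h : Eng A) (a b : A) : w31 a b * w29 a b = 0 := (wt12_12 h a b).2.1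
theorem r29_31 (h : Eng A) (a b : A) : w29 a b * w31 a b = 0 := by
  rw [h.ac, m31_29 h, neg_zero]
theorem m31_30 (h : Eng A) (a b : A) : w31 a b * w30 a b = 0 := (wt12_12 h a b).2.2.1
theorem r30_31 (h : Eng A) (a b : A) : w30 a b * w31 a b = 0 := by
  rw [h.ac, m31_30 h, neg_zero]
theorem m32_29 (h : Eng A) (a b : A) : w32 a b * w29 a b = 0 := (wt12_12 h a b).2.2.2.1
theorem r29_32 (h : Eng A) (a b : A) : w29 a b * w32 a b = 0 := by
  rw [h.ac, m32_29 h, neg_zero]
theorem m32_30 (h : Eng A) (a b : A) : w32 a b * w30 a b = 0 := (wt12_12 h a b).2.2.2.2.1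
theorem r30_32 (h : Eng A) (a b : A) : w30 a b * w32 a b = 0 := by
  rw [h.ac, m32_30 h, neg_zero]
theorem m32_31 (h : Eng A) (a b : A) : w32 a b * w31 a b = 0 := (wt12_12 h a b).2.2.2.2.2.1
theorem r31_32 (h : Eng A) (a b : A) : w31 a b * w32 a b = 0 := by
  rw [h.ac, m32_31 h, neg_zero]
theorem m33_28 (h : Eng A) (a b : A) : w33 a b * w28 a b = 0 := (wt12_12 h a b).2.2.2.2.2.2.1
theorem r28_33 (h : Eng A) (a b : A) : w28 a b * w33 a b = 0 := by
  rw [h.ac, m33_28 h, neg_zero]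
theorem m34_25 (h : Eng A) (a b : A) : w34 a b * w25 a b = 0 := (wt12_12 h a b).2.2.2.2.2.2.2.1
theorem r25_34 (h : Eng A) (a b : A) : w25 a b * w34 a b = 0 := by
  rw [h.ac, m34_25 h, neg_zero]
theorem m34_26 (h : Eng A) (a b : A) : w34 a b * w26 a b = 0 := (wt12_12 h a b).2.2.2.2.2.2.2.2.1
theorem r26_34 (h : Eng A) (a b : A) : w26 a b * w34 a b = 0 := by
  rw [h.ac, m34_26 h, neg_zero]
theorem m34_27 (h : Eng A) (a b : A) : w34 a b * w27 a b = 0 := (wt12_12 h a b).2.2.2.2.2.2.2.2.2.1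
theorem r27_34 (h : Eng A) (a b : A) : w27 a b * w34 a b = 0 := by
  rw [h.ac, m34_27 h, neg_zero]
theorem m35_25 (h : Eng A) (a b : A) : w35 a b * w25 a b = 0 := (wt12_12 h a b).2.2.2.2.2.2.2.2.2.2.1
theorem r25_35 (h : Eng A) (a b : A) : w25 a b * w35 a b = 0 := by
  rw [h.ac, m35_25 h, neg_zero]
theorem m35_26 (h : Eng A) (a b : A) : w35 a b * w26 a b = 0 := (wt12_12 h a b).2.2.2.2.2.2.2.2.2.2.2.1
theorem r26_35 (h : Eng A) (a b : A) : w26 a b * w35 a b = 0 := by
  rw [h.ac, m35_26 h, neg_zero]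
theorem m35_27 (h : Eng A) (a b : A) : w35 a b * w27 a b = 0 := (wt12_12 h a b).2.2.2.2.2.2.2.2.2.2.2.2.1
theorem r27_35 (h : Eng A) (a b : A) : w27 a b * w35 a b = 0 := by
  rw [h.ac, m35_27 h, neg_zero]
theorem m36_22 (h : Eng A) (a b : A) : w36 a b * w22 a b = 0 := (wt12_12 h a b).2.2.2.2.2.2.2.2.2.2.2.2.2.1
theorem r22_36 (h : Eng A) (a b : A) : w22 a b * w36 a b = 0 := by
  rw [h.ac, m36_22 h, neg_zero]
theorem m36_23 (h : Eng A) (a b : A) : w36 a b * w23 a b = 0 := (wt12_12 h a b).2.2.2.2.2.2.2.2.2.2.2.2.2.2.1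
theorem r23_36 (h : Eng A) (a b : A) : w23 a b * w36 a b = 0 := by
  rw [h.ac, m36_23 h, neg_zero]
theorem m36_24 (h : Eng A) (a b : A) : w36 a b * w24 a b = 0 := (wt12_12 h a b).2.2.2.2.2.2.2.2.2.2.2.2.2.2.2.1
theorem r24_36 (h : Eng A) (a b : A) : w24 a b * w36 a b = 0 := by
  rw [h.ac, m36_24 h, neg_zero]
theorem m37_22 (h : Eng A) (a b : A) : w37 a b * w22 a b = 0 := (wt12_12 h a b).2.2.2.2.2.2.2.2.2.2.2.2.2.2.2.2.1
theorem r22_37 (h : Eng A) (a b : A) : w22 a b * w37 a b = 0 := by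
  rw [h.ac, m37_22 h, neg_zero]
theorem m37_23 (h : Eng A) (a b : A) : w37 a b * w23 a b = 0 := (wt12_12 h a b).2.2.2.2.2.2.2.2.2.2.2.2.2.2.2.2.2.1
theorem r23_37 (h : Eng A) (a b : A) : w23 a b * w37 a b = 0 := by
  rw [h.ac, m37_23 h, neg_zero]
theorem m37_24 (h : Eng A) (a b : A) : w37 a b * w24 a b = 0 := (wt12_12 h a b).2.2.2.2.2.2.2.2.2.2.2.2.2.2.2.2.2.2.1
theorem r24_37 (h : Eng A) (a b : A) : w24 a b * w37 a b = 0 := by
  rw [h.ac, m37_24 h, neg_zero]
theorem m38_21 (h : Eng A) (a b : A) : w38 a b * w21 a b = 0 := (wt12_12 h a b).2.2.2.2.2.2.2.2.2.2.2.2.2.2.2.2.2.2.2.1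
theorem r21_38 (h : Eng A) (a b : A) : w21 a b * w38 a b = 0 := by
  rw [h.ac, m38_21 h, neg_zero]
theorem m39_18 (h : Eng A) (a b : A) : w39 a b * w18 a b = 0 := (wt12_12 h a b).2.2.2.2.2.2.2.2.2.2.2.2.2.2.2.2.2.2.2.2.1
theorem r18_39 (h : Eng A) (a b : A) : w18 a b * w39 a b = 0 := by
  rw [h.ac, m39_18 h, neg_zero]
theorem m39_19 (h : Eng A) (a b : A) : w39 a b * w19 a b = 0 := (wt12_12 h a b).2.2.2.2.2.2.2.2.2.2.2.2.2.2.2.2.2.2.2.2.2.1
theorem r19_39 (h : Eng A) (a b : A) : w19 a b * w39 a b = 0 := by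
  rw [h.ac, m39_19 h, neg_zero]
theorem m39_20 (h : Eng A) (a b : A) : w39 a b * w20 a b = 0 := (wt12_12 h a b).2.2.2.2.2.2.2.2.2.2.2.2.2.2.2.2.2.2.2.2.2.2.1
theorem r20_39 (h : Eng A) (a b : A) : w20 a b * w39 a b = 0 := by
  rw [h.ac, m39_20 h, neg_zero]
theorem m40_17 (h : Eng A) (a b : A) : w40 a b * w17 a b = 0 := (wt12_12 h a b).2.2.2.2.2.2.2.2.2.2.2.2.2.2.2.2.2.2.2.2.2.2.2
theorem r17_40 (h : Eng A) (a b : A) : w17 a b * w40 a b = 0 := by
  rw [h.ac, m40_17 h, neg_zero]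

theorem wt11_13 (h : Eng A) (a b : A) :
    (w33 a b * w29 a b = 0) ∧
    (w33 a b * w30 a b = 0) ∧
    (w33 a b * w31 a b = 0) ∧
    (w33 a b * w32 a b = 0) ∧
    (w36 a b * w25 a b = 0) ∧
    (w36 a b * w26 a b = 0) ∧
    (w36 a b * w27 a b = 0) ∧
    (w37 a b * w25 a b = 0) ∧
    (w37 a b * w26 a b = 0) ∧
    (w37 a b * w27 a b = 0) ∧
    (w39 a b * w21 a b = 0) ∧
    (w40 a b * w18 a b = 0) ∧
    (w40 a b * w19 a b = 0) ∧
    (w40 a b * w20 a b = 0) := by
  have c29_33 : w29 a b * w33 a b = -(w33 a b * w29 a b) := h.ac _ _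
  have c30_33 : w30 a b * w33 a b = -(w33 a b * w30 a b) := h.ac _ _
  have c31_33 : w31 a b * w33 a b = -(w33 a b * w31 a b) := h.ac _ _
  have c32_33 : w32 a b * w33 a b = -(w33 a b * w32 a b) := h.ac _ _
  have c25_36 : w25 a b * w36 a b = -(w36 a b * w25 a b) := h.ac _ _
  have c26_36 : w26 a b * w36 a b = -(w36 a b * w26 a b) := h.ac _ _
  have c27_36 : w27 a b * w36 a b = -(w36 a b * w27 a b) := h.ac _ _
  have c25_37 : w25 a b * w37 a b = -(w37 a b * w25 a b) := h.ac _ _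
  have c26_37 : w26 a b * w37 a b = -(w37 a b * w26 a b) := h.ac _ _
  have c27_37 : w27 a b * w37 a b = -(w37 a b * w27 a b) := h.ac _ _
  have c21_39 : w21 a b * w39 a b = -(w39 a b * w21 a b) := h.ac _ _
  have c18_40 : w18 a b * w40 a b = -(w40 a b * w18 a b) := h.ac _ _
  have c19_40 : w19 a b * w40 a b = -(w40 a b * w19 a b) := h.ac _ _
  have c20_40 : w20 a b * w40 a b = -(w40 a b * w20 a b) := h.ac _ _
  have t0 := h.e3 (w7 a b) (w0 a b) (w5 a b) (w40 a b)
  simp only [c18_40, m7_0 h a b, m7_5 h a b, m8_5 a b, r7_40 h a b, r8_40 h a b, add_mul, sub_mul, neg_mul, zero_mul, add_zero, zero_add, neg_zero, neg_neg, sub_zero, zero_sub] at t0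
  have t1 := h.e3 (w11 a b) (w0 a b) (w7 a b) (w21 a b)
  simp only [m11_0 h a b, m11_7 a b, m14_7 h a b, m36_0 h a b, m36_21 h a b, r11_21 h a b, r14_21 h a b, add_mul, sub_mul, neg_mul, zero_mul, add_zero, zero_add, neg_zero, neg_neg, sub_zero, zero_sub] at t1
  have t2 := h.e3 (w7 a b) (w0 a b) (w7 a b) (w36 a b)
  simp only [c25_36, h.sq (w7 a b), m7_0 h a b, m8_7 a b, r7_36 h a b, r8_36 h a b, add_mul, sub_mul, neg_mul, zero_mul, add_zero, zero_add, neg_zero, neg_neg, sub_zero, zero_sub] at t2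
  have t3 := h.e3 (w7 a b) (w0 a b) (w7 a b) (w37 a b)
  simp only [c25_37, h.sq (w7 a b), m7_0 h a b, m8_7 a b, r7_37 h a b, r8_37 h a b, add_mul, sub_mul, neg_mul, zero_mul, add_zero, zero_add, neg_zero, neg_neg, sub_zero, zero_sub] at t3
  have t4 := h.e3 (w7 a b) (w0 a b) (w8 a b) (w33 a b)
  simp only [c29_33, h.sq (w8 a b), m25_0 h a b, m7_0 h a b, r25_33 h a b, r7_33 h a b, r7_8 h a b, r8_33 h a b, add_mul, sub_mul, neg_mul, zero_mul, add_zero, zero_add, neg_zero, neg_neg, sub_zero, zero_sub] at t4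
  have t5 := h.e3 (w1 a b) (w0 a b) (w11 a b) (w40 a b)
  simp only [c20_40, m16_0 h a b, m1_0 a b, r16_40 h a b, r1_11 h a b, r1_40 h a b, r2_11 h a b, r2_40 h a b, add_mul, sub_mul, neg_mul, zero_mul, add_zero, zero_add, neg_zero, neg_neg, sub_zero, zero_sub] at t5
  have t6 := h.e2 (w1 a b) (w27 a b) (w0 a b)
  simp only [m1_0 a b, r1_27 h a b, r2_27 h a b, add_mul, sub_mul, neg_mul, zero_mul, add_zero, zero_add, neg_zero, neg_neg, sub_zero, zero_sub] at t6
  have t7 := h.e2 (w31 a b) (w1 a b) (w19 a b)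
  simp only [m31_1 h a b, m31_19 h a b, m37_1 h a b, m37_19 h a b, add_mul, sub_mul, neg_mul, zero_mul, add_zero, zero_add, neg_zero, neg_neg, sub_zero, zero_sub] at t7
  have t8 := h.e2 (w18 a b) (w1 a b) (w30 a b)
  simp only [m18_1 h a b, m26_1 h a b, r18_30 h a b, r26_30 h a b, add_mul, sub_mul, neg_mul, zero_mul, add_zero, zero_add, neg_zero, neg_neg, sub_zero, zero_sub] at t8
  have t9 := h.e2 (w18 a b) (w1 a b) (w31 a b)
  simp only [m18_1 h a b, m26_1 h a b, r18_31 h a b, r26_31 h a b, add_mul, sub_mul, neg_mul, zero_mul, add_zero, zero_add, neg_zero, neg_neg, sub_zero, zero_sub] at t9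
  have t10 := h.e2 (w18 a b) (w1 a b) (w32 a b)
  simp only [m18_1 h a b, m26_1 h a b, r18_32 h a b, r26_32 h a b, add_mul, sub_mul, neg_mul, zero_mul, add_zero, zero_add, neg_zero, neg_neg, sub_zero, zero_sub] at t10
  have t11 := h.e2 (w14 a b) (w1 a b) (w37 a b)
  simp only [c27_37, m14_1 h a b, m19_1 h a b, r14_37 h a b, r19_37 h a b, add_mul, sub_mul, neg_mul, zero_mul, add_zero, zero_add, neg_zero, neg_neg, sub_zero, zero_sub] at t11
  have t12 := h.e2 (w15 a b) (w2 a b) (w26 a b)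
  simp only [m15_2 h a b, m27_2 h a b, m27_26 h a b, r15_26 h a b, add_mul, sub_mul, neg_mul, zero_mul, add_zero, zero_add, neg_zero, neg_neg, sub_zero, zero_sub] at t12
  have t13 := h.e3 (w1 a b) (w3 a b) (w10 a b) (w37 a b)
  simp only [c26_37, m40_10 h a b, m40_3 h a b, r1_10 h a b, r1_3 h a b, r1_37 h a b, r5_10 h a b, r5_37 h a b, add_mul, sub_mul, neg_mul, zero_mul, add_zero, zero_add, neg_zero, neg_neg, sub_zero, zero_sub] at t13
  refine ⟨?_, ?_, ?_, ?_, ?_, ?_, ?_, ?_, ?_, ?_, ?_, ?_, ?_, ?_⟩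
  · linear_combination (norm := module) (-1 : ℤ) • t4
  · linear_combination (norm := module) (-1 : ℤ) • t8
  · linear_combination (norm := module) (-1 : ℤ) • t9
  · linear_combination (norm := module) (-1 : ℤ) • t10
  · linear_combination (norm := module) (1 : ℤ) • t2
  · linear_combination (norm := module) (1 : ℤ) • t12
  · linear_combination (norm := module) (1 : ℤ) • t6
  · linear_combination (norm := module) (1 : ℤ) • t3
  · linear_combination (norm := module) (-1 : ℤ) • t13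
  · linear_combination (norm := module) (1 : ℤ) • t11
  · linear_combination (norm := module) (-1 : ℤ) • t1
  · linear_combination (norm := module) (1 : ℤ) • t0
  · linear_combination (norm := module) (-1 : ℤ) • t7
  · linear_combination (norm := module) (1 : ℤ) • t5
theorem m33_29 (h : Eng A) (a b : A) : w33 a b * w29 a b = 0 := (wt11_13 h a b).1
theorem r29_33 (h : Eng A) (a b : A) : w29 a b * w33 a b = 0 := by
  rw [h.ac, m33_29 h, neg_zero]
theorem m33_30 (h : Eng A) (a b : A) : w33 a b * w30 a b = 0 := (wt11_13 h a b).2.1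
theorem r30_33 (h : Eng A) (a b : A) : w30 a b * w33 a b = 0 := by
  rw [h.ac, m33_30 h, neg_zero]
theorem m33_31 (h : Eng A) (a b : A) : w33 a b * w31 a b = 0 := (wt11_13 h a b).2.2.1
theorem r31_33 (h : Eng A) (a b : A) : w31 a b * w33 a b = 0 := by
  rw [h.ac, m33_31 h, neg_zero]
theorem m33_32 (h : Eng A) (a b : A) : w33 a b * w32 a b = 0 := (wt11_13 h a b).2.2.2.1
theorem r32_33 (h : Eng A) (a b : A) : w32 a b * w33 a b = 0 := by
  rw [h.ac, m33_32 h, neg_zero]
theorem m36_25 (h : Eng A) (a b : A) : w36 a b * w25 a b = 0 := (wt11_13 h a b).2.2.2.2.1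
theorem r25_36 (h : Eng A) (a b : A) : w25 a b * w36 a b = 0 := by
  rw [h.ac, m36_25 h, neg_zero]
theorem m36_26 (h : Eng A) (a b : A) : w36 a b * w26 a b = 0 := (wt11_13 h a b).2.2.2.2.2.1
theorem r26_36 (h : Eng A) (a b : A) : w26 a b * w36 a b = 0 := by
  rw [h.ac, m36_26 h, neg_zero]
theorem m36_27 (h : Eng A) (a b : A) : w36 a b * w27 a b = 0 := (wt11_13 h a b).2.2.2.2.2.2.1
theorem r27_36 (h : Eng A) (a b : A) : w27 a b * w36 a b = 0 := by
  rw [h.ac, m36_27 h, neg_zero]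
theorem m37_25 (h : Eng A) (a b : A) : w37 a b * w25 a b = 0 := (wt11_13 h a b).2.2.2.2.2.2.2.1
theorem r25_37 (h : Eng A) (a b : A) : w25 a b * w37 a b = 0 := by
  rw [h.ac, m37_25 h, neg_zero]
theorem m37_26 (h : Eng A) (a b : A) : w37 a b * w26 a b = 0 := (wt11_13 h a b).2.2.2.2.2.2.2.2.1
theorem r26_37 (h : Eng A) (a b : A) : w26 a b * w37 a b = 0 := by
  rw [h.ac, m37_26 h, neg_zero]
theorem m37_27 (h : Eng A) (a b : A) : w37 a b * w27 a b = 0 := (wt11_13 h a b).2.2.2.2.2.2.2.2.2.1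
theorem r27_37 (h : Eng A) (a b : A) : w27 a b * w37 a b = 0 := by
  rw [h.ac, m37_27 h, neg_zero]
theorem m39_21 (h : Eng A) (a b : A) : w39 a b * w21 a b = 0 := (wt11_13 h a b).2.2.2.2.2.2.2.2.2.2.1
theorem r21_39 (h : Eng A) (a b : A) : w21 a b * w39 a b = 0 := by
  rw [h.ac, m39_21 h, neg_zero]
theorem m40_18 (h : Eng A) (a b : A) : w40 a b * w18 a b = 0 := (wt11_13 h a b).2.2.2.2.2.2.2.2.2.2.2.1
theorem r18_40 (h : Eng A) (a b : A) : w18 a b * w40 a b = 0 := by
  rw [h.ac, m40_18 h, neg_zero]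
theorem m40_19 (h : Eng A) (a b : A) : w40 a b * w19 a b = 0 := (wt11_13 h a b).2.2.2.2.2.2.2.2.2.2.2.2.1
theorem r19_40 (h : Eng A) (a b : A) : w19 a b * w40 a b = 0 := by
  rw [h.ac, m40_19 h, neg_zero]
theorem m40_20 (h : Eng A) (a b : A) : w40 a b * w20 a b = 0 := (wt11_13 h a b).2.2.2.2.2.2.2.2.2.2.2.2.2
theorem r20_40 (h : Eng A) (a b : A) : w20 a b * w40 a b = 0 := by
  rw [h.ac, m40_20 h, neg_zero]

theorem wt10_14 (h : Eng A) (a b : A) :
    (w40 a b * w21 a b = 0) := by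
  have c21_40 : w21 a b * w40 a b = -(w40 a b * w21 a b) := h.ac _ _
  have t0 := h.e2 (w4 a b) (w21 a b) (w0 a b)
  simp only [m4_0 h a b, r4_21 h a b, r5_21 h a b, add_mul, sub_mul, neg_mul, zero_mul, add_zero, zero_add, neg_zero, neg_neg, sub_zero, zero_sub] at t0
  · linear_combination (norm := module) (1 : ℤ) • t0
theorem m40_21 (h : Eng A) (a b : A) : w40 a b * w21 a b = 0 := (wt10_14 h a b)
theorem r21_40 (h : Eng A) (a b : A) : w21 a b * w40 a b = 0 := by
  rw [h.ac, m40_21 h, neg_zero]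

theorem wt14_11 (h : Eng A) (a b : A) :
    (w34 a b * w28 a b = 0) ∧
    (w35 a b * w28 a b = 0) ∧
    (w38 a b * w22 a b = 0) ∧
    (w38 a b * w23 a b = 0) ∧
    (w38 a b * w24 a b = 0) := by
  have c28_34 : w28 a b * w34 a b = -(w34 a b * w28 a b) := h.ac _ _
  have c28_35 : w28 a b * w35 a b = -(w35 a b * w28 a b) := h.ac _ _
  have c22_38 : w22 a b * w38 a b = -(w38 a b * w22 a b) := h.ac _ _
  have c23_38 : w23 a b * w38 a b = -(w38 a b * w23 a b) := h.ac _ _
  have c24_38 : w24 a b * w38 a b = -(w38 a b * w24 a b) := h.ac _ _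
  have t0 := h.e2 (w31 a b) (w0 a b) (w22 a b)
  simp only [m31_0 h a b, m31_22 h a b, m35_0 h a b, m35_22 h a b, add_mul, sub_mul, neg_mul, zero_mul, add_zero, zero_add, neg_zero, neg_neg, sub_zero, zero_sub] at t0
  have t1 := h.e2 (w31 a b) (w0 a b) (w23 a b)
  simp only [m31_0 h a b, m31_23 h a b, m35_0 h a b, m35_23 h a b, add_mul, sub_mul, neg_mul, zero_mul, add_zero, zero_add, neg_zero, neg_neg, sub_zero, zero_sub] at t1
  have t2 := h.e2 (w31 a b) (w0 a b) (w24 a b)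
  simp only [m31_0 h a b, m31_24 h a b, m35_0 h a b, m35_24 h a b, add_mul, sub_mul, neg_mul, zero_mul, add_zero, zero_add, neg_zero, neg_neg, sub_zero, zero_sub] at t2
  have t3 := h.e2 (w18 a b) (w0 a b) (w34 a b)
  simp only [c28_34, m18_0 h a b, m23_0 h a b, r18_34 h a b, r23_34 h a b, add_mul, sub_mul, neg_mul, zero_mul, add_zero, zero_add, neg_zero, neg_neg, sub_zero, zero_sub] at t3
  have t4 := h.e2 (w18 a b) (w0 a b) (w35 a b)
  simp only [c28_35, m18_0 h a b, m23_0 h a b, r18_35 h a b, r23_35 h a b, add_mul, sub_mul, neg_mul, zero_mul, add_zero, zero_add, neg_zero, neg_neg, sub_zero, zero_sub] at t4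
  refine ⟨?_, ?_, ?_, ?_, ?_⟩
  · linear_combination (norm := module) (1 : ℤ) • t3
  · linear_combination (norm := module) (1 : ℤ) • t4
  · linear_combination (norm := module) (-1 : ℤ) • t0
  · linear_combination (norm := module) (-1 : ℤ) • t1
  · linear_combination (norm := module) (-1 : ℤ) • t2
theorem m34_28 (h : Eng A) (a b : A) : w34 a b * w28 a b = 0 := (wt14_11 h a b).1
theorem r28_34 (h : Eng A) (a b : A) : w28 a b * w34 a b = 0 := by
  rw [h.ac, m34_28 h, neg_zero]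
theorem m35_28 (h : Eng A) (a b : A) : w35 a b * w28 a b = 0 := (wt14_11 h a b).2.1
theorem r28_35 (h : Eng A) (a b : A) : w28 a b * w35 a b = 0 := by
  rw [h.ac, m35_28 h, neg_zero]
theorem m38_22 (h : Eng A) (a b : A) : w38 a b * w22 a b = 0 := (wt14_11 h a b).2.2.1
theorem r22_38 (h : Eng A) (a b : A) : w22 a b * w38 a b = 0 := by
  rw [h.ac, m38_22 h, neg_zero]
theorem m38_23 (h : Eng A) (a b : A) : w38 a b * w23 a b = 0 := (wt14_11 h a b).2.2.2.1
theorem r23_38 (h : Eng A) (a b : A) : w23 a b * w38 a b = 0 := by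
  rw [h.ac, m38_23 h, neg_zero]
theorem m38_24 (h : Eng A) (a b : A) : w38 a b * w24 a b = 0 := (wt14_11 h a b).2.2.2.2
theorem r24_38 (h : Eng A) (a b : A) : w24 a b * w38 a b = 0 := by
  rw [h.ac, m38_24 h, neg_zero]

theorem wt13_12 (h : Eng A) (a b : A) :
    (w34 a b * w29 a b = 0) ∧
    (w34 a b * w30 a b = 0) ∧
    (w34 a b * w31 a b = 0) ∧
    (w34 a b * w32 a b = 0) ∧
    (w35 a b * w29 a b = 0) ∧
    (w35 a b * w30 a b = 0) ∧
    (w35 a b * w31 a b = 0) ∧
    (w35 a b * w32 a b = 0) ∧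
    (w36 a b * w28 a b = 0) ∧
    (w37 a b * w28 a b = 0) ∧
    (w38 a b * w25 a b = 0) ∧
    (w38 a b * w26 a b = 0) ∧
    (w38 a b * w27 a b = 0) ∧
    (w39 a b * w22 a b = 0) ∧
    (w39 a b * w23 a b = 0) ∧
    (w39 a b * w24 a b = 0) := by
  have c29_34 : w29 a b * w34 a b = -(w34 a b * w29 a b) := h.ac _ _
  have c30_34 : w30 a b * w34 a b = -(w34 a b * w30 a b) := h.ac _ _
  have c31_34 : w31 a b * w34 a b = -(w34 a b * w31 a b) := h.ac _ _
  have c32_34 : w32 a b * w34 a b = -(w34 a b * w32 a b) := h.ac _ _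
  have c29_35 : w29 a b * w35 a b = -(w35 a b * w29 a b) := h.ac _ _
  have c30_35 : w30 a b * w35 a b = -(w35 a b * w30 a b) := h.ac _ _
  have c31_35 : w31 a b * w35 a b = -(w35 a b * w31 a b) := h.ac _ _
  have c32_35 : w32 a b * w35 a b = -(w35 a b * w32 a b) := h.ac _ _
  have c28_36 : w28 a b * w36 a b = -(w36 a b * w28 a b) := h.ac _ _
  have c28_37 : w28 a b * w37 a b = -(w37 a b * w28 a b) := h.ac _ _
  have c25_38 : w25 a b * w38 a b = -(w38 a b * w25 a b) := h.ac _ _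
  have c26_38 : w26 a b * w38 a b = -(w38 a b * w26 a b) := h.ac _ _
  have c27_38 : w27 a b * w38 a b = -(w38 a b * w27 a b) := h.ac _ _
  have c22_39 : w22 a b * w39 a b = -(w39 a b * w22 a b) := h.ac _ _
  have c23_39 : w23 a b * w39 a b = -(w39 a b * w23 a b) := h.ac _ _
  have c24_39 : w24 a b * w39 a b = -(w39 a b * w24 a b) := h.ac _ _
  have t0 := h.e2 (w31 a b) (w0 a b) (w25 a b)
  simp only [m31_0 h a b, m31_25 h a b, m35_0 h a b, m35_25 h a b, add_mul, sub_mul, neg_mul, zero_mul, add_zero, zero_add, neg_zero, neg_neg, sub_zero, zero_sub] at t0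
  have t1 := h.e2 (w31 a b) (w0 a b) (w26 a b)
  simp only [m31_0 h a b, m31_26 h a b, m35_0 h a b, m35_26 h a b, add_mul, sub_mul, neg_mul, zero_mul, add_zero, zero_add, neg_zero, neg_neg, sub_zero, zero_sub] at t1
  have t2 := h.e2 (w31 a b) (w0 a b) (w27 a b)
  simp only [m31_0 h a b, m31_27 h a b, m35_0 h a b, m35_27 h a b, add_mul, sub_mul, neg_mul, zero_mul, add_zero, zero_add, neg_zero, neg_neg, sub_zero, zero_sub] at t2
  have t3 := h.e2 (w18 a b) (w0 a b) (w36 a b)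
  simp only [c28_36, m18_0 h a b, m23_0 h a b, r18_36 h a b, r23_36 h a b, add_mul, sub_mul, neg_mul, zero_mul, add_zero, zero_add, neg_zero, neg_neg, sub_zero, zero_sub] at t3
  have t4 := h.e2 (w18 a b) (w0 a b) (w37 a b)
  simp only [c28_37, m18_0 h a b, m23_0 h a b, r18_37 h a b, r23_37 h a b, add_mul, sub_mul, neg_mul, zero_mul, add_zero, zero_add, neg_zero, neg_neg, sub_zero, zero_sub] at t4
  have t5 := h.e2 (w16 a b) (w0 a b) (w39 a b)
  simp only [c24_39, m16_0 h a b, m20_0 h a b, r16_39 h a b, r20_39 h a b, add_mul, sub_mul, neg_mul, zero_mul, add_zero, zero_add, neg_zero, neg_neg, sub_zero, zero_sub] at t5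
  have t6 := h.e3 (w7 a b) (w0 a b) (w6 a b) (w39 a b)
  simp only [c22_39, m7_0 h a b, m7_6 h a b, m8_6 a b, r7_39 h a b, r8_39 h a b, add_mul, sub_mul, neg_mul, zero_mul, add_zero, zero_add, neg_zero, neg_neg, sub_zero, zero_sub] at t6
  have t7 := h.e3 (w11 a b) (w0 a b) (w7 a b) (w23 a b)
  simp only [m11_0 h a b, m11_7 a b, m14_7 h a b, m36_0 h a b, m36_23 h a b, r11_23 h a b, r14_23 h a b, add_mul, sub_mul, neg_mul, zero_mul, add_zero, zero_add, neg_zero, neg_neg, sub_zero, zero_sub] at t7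
  have t8 := h.e3 (w7 a b) (w0 a b) (w8 a b) (w34 a b)
  simp only [c29_34, h.sq (w8 a b), m25_0 h a b, m7_0 h a b, r25_34 h a b, r7_34 h a b, r7_8 h a b, r8_34 h a b, add_mul, sub_mul, neg_mul, zero_mul, add_zero, zero_add, neg_zero, neg_neg, sub_zero, zero_sub] at t8
  have t9 := h.e3 (w7 a b) (w0 a b) (w8 a b) (w35 a b)
  simp only [c29_35, h.sq (w8 a b), m25_0 h a b, m7_0 h a b, r25_35 h a b, r7_35 h a b, r7_8 h a b, r8_35 h a b, add_mul, sub_mul, neg_mul, zero_mul, add_zero, zero_add, neg_zero, neg_neg, sub_zero, zero_sub] at t9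
  have t10 := h.e3 (w6 a b) (w1 a b) (w8 a b) (w34 a b)
  simp only [c30_34, h.sq (w8 a b), m22_1 h a b, m6_1 h a b, r22_34 h a b, r6_34 h a b, r6_8 h a b, r8_34 h a b, add_mul, sub_mul, neg_mul, zero_mul, add_zero, zero_add, neg_zero, neg_neg, sub_zero, zero_sub] at t10
  have t11 := h.e3 (w6 a b) (w1 a b) (w8 a b) (w35 a b)
  simp only [c30_35, h.sq (w8 a b), m22_1 h a b, m6_1 h a b, r22_35 h a b, r6_35 h a b, r6_8 h a b, r8_35 h a b, add_mul, sub_mul, neg_mul, zero_mul, add_zero, zero_add, neg_zero, neg_neg, sub_zero, zero_sub] at t11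
  have t12 := h.e2 (w13 a b) (w2 a b) (w31 a b)
  simp only [m13_2 h a b, m24_2 h a b, r13_31 h a b, r24_31 h a b, add_mul, sub_mul, neg_mul, zero_mul, add_zero, zero_add, neg_zero, neg_neg, sub_zero, zero_sub] at t12
  have t13 := h.e2 (w13 a b) (w2 a b) (w32 a b)
  simp only [m13_2 h a b, m24_2 h a b, r13_32 h a b, r24_32 h a b, add_mul, sub_mul, neg_mul, zero_mul, add_zero, zero_add, neg_zero, neg_neg, sub_zero, zero_sub] at t13
  have t14 := h.e3 (w5 a b) (w2 a b) (w8 a b) (w35 a b)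
  simp only [c31_35, h.sq (w8 a b), m18_2 h a b, m5_2 h a b, r18_35 h a b, r5_35 h a b, r5_8 h a b, r8_35 h a b, add_mul, sub_mul, neg_mul, zero_mul, add_zero, zero_add, neg_zero, neg_neg, sub_zero, zero_sub] at t14
  have t15 := h.e3 (w4 a b) (w3 a b) (w9 a b) (w32 a b)
  simp only [m19_3 h a b, m4_3 a b, r19_32 h a b, r4_32 h a b, r4_9 h a b, r8_32 h a b, r8_9 h a b, add_mul, sub_mul, neg_mul, zero_mul, add_zero, zero_add, neg_zero, neg_neg, sub_zero, zero_sub] at t15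
  refine ⟨?_, ?_, ?_, ?_, ?_, ?_, ?_, ?_, ?_, ?_, ?_, ?_, ?_, ?_, ?_, ?_⟩
  · linear_combination (norm := module) (-1 : ℤ) • t8
  · linear_combination (norm := module) (-1 : ℤ) • t10
  · linear_combination (norm := module) (1 : ℤ) • t12
  · linear_combination (norm := module) (1 : ℤ) • t13
  · linear_combination (norm := module) (-1 : ℤ) • t9
  · linear_combination (norm := module) (-1 : ℤ) • t11
  · linear_combination (norm := module) (-1 : ℤ) • t14
  · linear_combination (norm := module) (1 : ℤ) • t15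
  · linear_combination (norm := module) (1 : ℤ) • t3
  · linear_combination (norm := module) (1 : ℤ) • t4
  · linear_combination (norm := module) (-1 : ℤ) • t0
  · linear_combination (norm := module) (-1 : ℤ) • t1
  · linear_combination (norm := module) (-1 : ℤ) • t2
  · linear_combination (norm := module) (1 : ℤ) • t6
  · linear_combination (norm := module) (-1 : ℤ) • t7
  · linear_combination (norm := module) (-1 : ℤ) • t5
theorem m34_29 (h : Eng A) (a b : A) : w34 a b * w29 a b = 0 := (wt13_12 h a b).1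
theorem r29_34 (h : Eng A) (a b : A) : w29 a b * w34 a b = 0 := by
  rw [h.ac, m34_29 h, neg_zero]
theorem m34_30 (h : Eng A) (a b : A) : w34 a b * w30 a b = 0 := (wt13_12 h a b).2.1
theorem r30_34 (h : Eng A) (a b : A) : w30 a b * w34 a b = 0 := by
  rw [h.ac, m34_30 h, neg_zero]
theorem m34_31 (h : Eng A) (a b : A) : w34 a b * w31 a b = 0 := (wt13_12 h a b).2.2.1
theorem r31_34 (h : Eng A) (a b : A) : w31 a b * w34 a b = 0 := by
  rw [h.ac, m34_31 h, neg_zero]
theorem m34_32 (h : Eng A) (a b : A) : w34 a b * w32 a b = 0 := (wt13_12 h a b).2.2.2.1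
theorem r32_34 (h : Eng A) (a b : A) : w32 a b * w34 a b = 0 := by
  rw [h.ac, m34_32 h, neg_zero]
theorem m35_29 (h : Eng A) (a b : A) : w35 a b * w29 a b = 0 := (wt13_12 h a b).2.2.2.2.1
theorem r29_35 (h : Eng A) (a b : A) : w29 a b * w35 a b = 0 := by
  rw [h.ac, m35_29 h, neg_zero]
theorem m35_30 (h : Eng A) (a b : A) : w35 a b * w30 a b = 0 := (wt13_12 h a b).2.2.2.2.2.1
theorem r30_35 (h : Eng A) (a b : A) : w30 a b * w35 a b = 0 := by
  rw [h.ac, m35_30 h, neg_zero]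
theorem m35_31 (h : Eng A) (a b : A) : w35 a b * w31 a b = 0 := (wt13_12 h a b).2.2.2.2.2.2.1
theorem r31_35 (h : Eng A) (a b : A) : w31 a b * w35 a b = 0 := by
  rw [h.ac, m35_31 h, neg_zero]
theorem m35_32 (h : Eng A) (a b : A) : w35 a b * w32 a b = 0 := (wt13_12 h a b).2.2.2.2.2.2.2.1
theorem r32_35 (h : Eng A) (a b : A) : w32 a b * w35 a b = 0 := by
  rw [h.ac, m35_32 h, neg_zero]
theorem m36_28 (h : Eng A) (a b : A) : w36 a b * w28 a b = 0 := (wt13_12 h a b).2.2.2.2.2.2.2.2.1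
theorem r28_36 (h : Eng A) (a b : A) : w28 a b * w36 a b = 0 := by
  rw [h.ac, m36_28 h, neg_zero]
theorem m37_28 (h : Eng A) (a b : A) : w37 a b * w28 a b = 0 := (wt13_12 h a b).2.2.2.2.2.2.2.2.2.1
theorem r28_37 (h : Eng A) (a b : A) : w28 a b * w37 a b = 0 := by
  rw [h.ac, m37_28 h, neg_zero]
theorem m38_25 (h : Eng A) (a b : A) : w38 a b * w25 a b = 0 := (wt13_12 h a b).2.2.2.2.2.2.2.2.2.2.1
theorem r25_38 (h : Eng A) (a b : A) : w25 a b * w38 a b = 0 := by
  rw [h.ac, m38_25 h, neg_zero]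
theorem m38_26 (h : Eng A) (a b : A) : w38 a b * w26 a b = 0 := (wt13_12 h a b).2.2.2.2.2.2.2.2.2.2.2.1
theorem r26_38 (h : Eng A) (a b : A) : w26 a b * w38 a b = 0 := by
  rw [h.ac, m38_26 h, neg_zero]
theorem m38_27 (h : Eng A) (a b : A) : w38 a b * w27 a b = 0 := (wt13_12 h a b).2.2.2.2.2.2.2.2.2.2.2.2.1
theorem r27_38 (h : Eng A) (a b : A) : w27 a b * w38 a b = 0 := by
  rw [h.ac, m38_27 h, neg_zero]
theorem m39_22 (h : Eng A) (a b : A) : w39 a b * w22 a b = 0 := (wt13_12 h a b).2.2.2.2.2.2.2.2.2.2.2.2.2.1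
theorem r22_39 (h : Eng A) (a b : A) : w22 a b * w39 a b = 0 := by
  rw [h.ac, m39_22 h, neg_zero]
theorem m39_23 (h : Eng A) (a b : A) : w39 a b * w23 a b = 0 := (wt13_12 h a b).2.2.2.2.2.2.2.2.2.2.2.2.2.2.1
theorem r23_39 (h : Eng A) (a b : A) : w23 a b * w39 a b = 0 := by
  rw [h.ac, m39_23 h, neg_zero]
theorem m39_24 (h : Eng A) (a b : A) : w39 a b * w24 a b = 0 := (wt13_12 h a b).2.2.2.2.2.2.2.2.2.2.2.2.2.2.2
theorem r24_39 (h : Eng A) (a b : A) : w24 a b * w39 a b = 0 := by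
  rw [h.ac, m39_24 h, neg_zero]

theorem wt12_13 (h : Eng A) (a b : A) :
    (w34 a b * w33 a b = 0) ∧
    (w35 a b * w33 a b = 0) ∧
    (w36 a b * w29 a b = 0) ∧
    (w36 a b * w30 a b = 0) ∧
    (w36 a b * w31 a b = 0) ∧
    (w36 a b * w32 a b = 0) ∧
    (w37 a b * w29 a b = 0) ∧
    (w37 a b * w30 a b = 0) ∧
    (w37 a b * w31 a b = 0) ∧
    (w37 a b * w32 a b = 0) ∧
    (w39 a b * w25 a b = 0) ∧
    (w39 a b * w26 a b = 0) ∧
    (w39 a b * w27 a b = 0) ∧
    (w40 a b * w22 a b = 0) ∧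
    (w40 a b * w23 a b = 0) ∧
    (w40 a b * w24 a b = 0) := by
  have c33_34 : w33 a b * w34 a b = -(w34 a b * w33 a b) := h.ac _ _
  have c33_35 : w33 a b * w35 a b = -(w35 a b * w33 a b) := h.ac _ _
  have c29_36 : w29 a b * w36 a b = -(w36 a b * w29 a b) := h.ac _ _
  have c30_36 : w30 a b * w36 a b = -(w36 a b * w30 a b) := h.ac _ _
  have c31_36 : w31 a b * w36 a b = -(w36 a b * w31 a b) := h.ac _ _
  have c32_36 : w32 a b * w36 a b = -(w36 a b * w32 a b) := h.ac _ _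
  have c29_37 : w29 a b * w37 a b = -(w37 a b * w29 a b) := h.ac _ _
  have c30_37 : w30 a b * w37 a b = -(w37 a b * w30 a b) := h.ac _ _
  have c31_37 : w31 a b * w37 a b = -(w37 a b * w31 a b) := h.ac _ _
  have c32_37 : w32 a b * w37 a b = -(w37 a b * w32 a b) := h.ac _ _
  have c25_39 : w25 a b * w39 a b = -(w39 a b * w25 a b) := h.ac _ _
  have c26_39 : w26 a b * w39 a b = -(w39 a b * w26 a b) := h.ac _ _
  have c27_39 : w27 a b * w39 a b = -(w39 a b * w27 a b) := h.ac _ _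
  have c22_40 : w22 a b * w40 a b = -(w40 a b * w22 a b) := h.ac _ _
  have c23_40 : w23 a b * w40 a b = -(w40 a b * w23 a b) := h.ac _ _
  have c24_40 : w24 a b * w40 a b = -(w40 a b * w24 a b) := h.ac _ _
  have t0 := h.e2 (w16 a b) (w0 a b) (w40 a b)
  simp only [c24_40, m16_0 h a b, m20_0 h a b, r16_40 h a b, r20_40 h a b, add_mul, sub_mul, neg_mul, zero_mul, add_zero, zero_add, neg_zero, neg_neg, sub_zero, zero_sub] at t0
  have t1 := h.e3 (w7 a b) (w0 a b) (w6 a b) (w40 a b)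
  simp only [c22_40, m7_0 h a b, m7_6 h a b, m8_6 a b, r7_40 h a b, r8_40 h a b, add_mul, sub_mul, neg_mul, zero_mul, add_zero, zero_add, neg_zero, neg_neg, sub_zero, zero_sub] at t1
  have t2 := h.e3 (w11 a b) (w0 a b) (w7 a b) (w25 a b)
  simp only [m11_0 h a b, m11_7 a b, m14_7 h a b, m36_0 h a b, m36_25 h a b, r11_25 h a b, r14_25 h a b, add_mul, sub_mul, neg_mul, zero_mul, add_zero, zero_add, neg_zero, neg_neg, sub_zero, zero_sub] at t2
  have t3 := h.e3 (w11 a b) (w0 a b) (w7 a b) (w26 a b)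
  simp only [m11_0 h a b, m11_7 a b, m14_7 h a b, m36_0 h a b, m36_26 h a b, r11_26 h a b, r14_26 h a b, add_mul, sub_mul, neg_mul, zero_mul, add_zero, zero_add, neg_zero, neg_neg, sub_zero, zero_sub] at t3
  have t4 := h.e3 (w11 a b) (w0 a b) (w7 a b) (w27 a b)
  simp only [m11_0 h a b, m11_7 a b, m14_7 h a b, m36_0 h a b, m36_27 h a b, r11_27 h a b, r14_27 h a b, add_mul, sub_mul, neg_mul, zero_mul, add_zero, zero_add, neg_zero, neg_neg, sub_zero, zero_sub] at t4
  have t5 := h.e3 (w7 a b) (w0 a b) (w8 a b) (w36 a b)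
  simp only [c29_36, h.sq (w8 a b), m25_0 h a b, m7_0 h a b, r25_36 h a b, r7_36 h a b, r7_8 h a b, r8_36 h a b, add_mul, sub_mul, neg_mul, zero_mul, add_zero, zero_add, neg_zero, neg_neg, sub_zero, zero_sub] at t5
  have t6 := h.e3 (w7 a b) (w0 a b) (w8 a b) (w37 a b)
  simp only [c29_37, h.sq (w8 a b), m25_0 h a b, m7_0 h a b, r25_37 h a b, r7_37 h a b, r7_8 h a b, r8_37 h a b, add_mul, sub_mul, neg_mul, zero_mul, add_zero, zero_add, neg_zero, neg_neg, sub_zero, zero_sub] at t6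
  have t7 := h.e3 (w4 a b) (w0 a b) (w21 a b) (w23 a b)
  simp only [m4_0 h a b, r4_21 h a b, r4_23 h a b, r5_21 h a b, r5_23 h a b, add_mul, sub_mul, neg_mul, zero_mul, add_zero, zero_add, neg_zero, neg_neg, sub_zero, zero_sub] at t7
  have t8 := h.e3 (w1 a b) (w0 a b) (w21 a b) (w34 a b)
  simp only [c33_34, m1_0 a b, m39_0 h a b, m39_21 h a b, r1_21 h a b, r1_34 h a b, r2_21 h a b, r2_34 h a b, add_mul, sub_mul, neg_mul, zero_mul, add_zero, zero_add, neg_zero, neg_neg, sub_zero, zero_sub] at t8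
  have t9 := h.e3 (w1 a b) (w0 a b) (w21 a b) (w35 a b)
  simp only [c33_35, m1_0 a b, m39_0 h a b, m39_21 h a b, r1_21 h a b, r1_35 h a b, r2_21 h a b, r2_35 h a b, add_mul, sub_mul, neg_mul, zero_mul, add_zero, zero_add, neg_zero, neg_neg, sub_zero, zero_sub] at t9
  have t10 := h.e3 (w6 a b) (w1 a b) (w8 a b) (w36 a b)
  simp only [c30_36, h.sq (w8 a b), m22_1 h a b, m6_1 h a b, r22_36 h a b, r6_36 h a b, r6_8 h a b, r8_36 h a b, add_mul, sub_mul, neg_mul, zero_mul, add_zero, zero_add, neg_zero, neg_neg, sub_zero, zero_sub] at t10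
  have t11 := h.e3 (w6 a b) (w1 a b) (w8 a b) (w37 a b)
  simp only [c30_37, h.sq (w8 a b), m22_1 h a b, m6_1 h a b, r22_37 h a b, r6_37 h a b, r6_8 h a b, r8_37 h a b, add_mul, sub_mul, neg_mul, zero_mul, add_zero, zero_add, neg_zero, neg_neg, sub_zero, zero_sub] at t11
  have t12 := h.e2 (w15 a b) (w2 a b) (w31 a b)
  simp only [m15_2 h a b, m27_2 h a b, r15_31 h a b, r27_31 h a b, add_mul, sub_mul, neg_mul, zero_mul, add_zero, zero_add, neg_zero, neg_neg, sub_zero, zero_sub] at t12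
  have t13 := h.e2 (w15 a b) (w2 a b) (w32 a b)
  simp only [m15_2 h a b, m27_2 h a b, r15_32 h a b, r27_32 h a b, add_mul, sub_mul, neg_mul, zero_mul, add_zero, zero_add, neg_zero, neg_neg, sub_zero, zero_sub] at t13
  have t14 := h.e3 (w5 a b) (w2 a b) (w8 a b) (w37 a b)
  simp only [c31_37, h.sq (w8 a b), m18_2 h a b, m5_2 h a b, r18_37 h a b, r5_37 h a b, r5_8 h a b, r8_37 h a b, add_mul, sub_mul, neg_mul, zero_mul, add_zero, zero_add, neg_zero, neg_neg, sub_zero, zero_sub] at t14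
  have t15 := h.e3 (w3 a b) (w4 a b) (w10 a b) (w32 a b)
  simp only [m20_4 h a b, r20_32 h a b, r3_10 h a b, r3_32 h a b, r3_4 h a b, r8_10 h a b, r8_32 h a b, add_mul, sub_mul, neg_mul, zero_mul, add_zero, zero_add, neg_zero, neg_neg, sub_zero, zero_sub] at t15
  refine ⟨?_, ?_, ?_, ?_, ?_, ?_, ?_, ?_, ?_, ?_, ?_, ?_, ?_, ?_, ?_, ?_⟩
  · linear_combination (norm := module) (-1 : ℤ) • t8
  · linear_combination (norm := module) (-1 : ℤ) • t9
  · linear_combination (norm := module) (-1 : ℤ) • t5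
  · linear_combination (norm := module) (-1 : ℤ) • t10
  · linear_combination (norm := module) (1 : ℤ) • t12
  · linear_combination (norm := module) (1 : ℤ) • t13
  · linear_combination (norm := module) (-1 : ℤ) • t6
  · linear_combination (norm := module) (-1 : ℤ) • t11
  · linear_combination (norm := module) (-1 : ℤ) • t14
  · linear_combination (norm := module) (-1 : ℤ) • t15
  · linear_combination (norm := module) (-1 : ℤ) • t2
  · linear_combination (norm := module) (-1 : ℤ) • t3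
  · linear_combination (norm := module) (-1 : ℤ) • t4
  · linear_combination (norm := module) (1 : ℤ) • t1
  · linear_combination (norm := module) (1 : ℤ) • t7
  · linear_combination (norm := module) (-1 : ℤ) • t0
theorem m34_33 (h : Eng A) (a b : A) : w34 a b * w33 a b = 0 := (wt12_13 h a b).1
theorem r33_34 (h : Eng A) (a b : A) : w33 a b * w34 a b = 0 := by
  rw [h.ac, m34_33 h, neg_zero]
theorem m35_33 (h : Eng A) (a b : A) : w35 a b * w33 a b = 0 := (wt12_13 h a b).2.1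
theorem r33_35 (h : Eng A) (a b : A) : w33 a b * w35 a b = 0 := by
  rw [h.ac, m35_33 h, neg_zero]
theorem m36_29 (h : Eng A) (a b : A) : w36 a b * w29 a b = 0 := (wt12_13 h a b).2.2.1
theorem r29_36 (h : Eng A) (a b : A) : w29 a b * w36 a b = 0 := by
  rw [h.ac, m36_29 h, neg_zero]
theorem m36_30 (h : Eng A) (a b : A) : w36 a b * w30 a b = 0 := (wt12_13 h a b).2.2.2.1
theorem r30_36 (h : Eng A) (a b : A) : w30 a b * w36 a b = 0 := by
  rw [h.ac, m36_30 h, neg_zero]
theorem m36_31 (h : Eng A) (a b : A) : w36 a b * w31 a b = 0 := (wt12_13 h a b).2.2.2.2.1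
theorem r31_36 (h : Eng A) (a b : A) : w31 a b * w36 a b = 0 := by
  rw [h.ac, m36_31 h, neg_zero]
theorem m36_32 (h : Eng A) (a b : A) : w36 a b * w32 a b = 0 := (wt12_13 h a b).2.2.2.2.2.1
theorem r32_36 (h : Eng A) (a b : A) : w32 a b * w36 a b = 0 := by
  rw [h.ac, m36_32 h, neg_zero]
theorem m37_29 (h : Eng A) (a b : A) : w37 a b * w29 a b = 0 := (wt12_13 h a b).2.2.2.2.2.2.1
theorem r29_37 (h : Eng A) (a b : A) : w29 a b * w37 a b = 0 := by
  rw [h.ac, m37_29 h, neg_zero]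
theorem m37_30 (h : Eng A) (a b : A) : w37 a b * w30 a b = 0 := (wt12_13 h a b).2.2.2.2.2.2.2.1
theorem r30_37 (h : Eng A) (a b : A) : w30 a b * w37 a b = 0 := by
  rw [h.ac, m37_30 h, neg_zero]
theorem m37_31 (h : Eng A) (a b : A) : w37 a b * w31 a b = 0 := (wt12_13 h a b).2.2.2.2.2.2.2.2.1
theorem r31_37 (h : Eng A) (a b : A) : w31 a b * w37 a b = 0 := by
  rw [h.ac, m37_31 h, neg_zero]
theorem m37_32 (h : Eng A) (a b : A) : w37 a b * w32 a b = 0 := (wt12_13 h a b).2.2.2.2.2.2.2.2.2.1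
theorem r32_37 (h : Eng A) (a b : A) : w32 a b * w37 a b = 0 := by
  rw [h.ac, m37_32 h, neg_zero]
theorem m39_25 (h : Eng A) (a b : A) : w39 a b * w25 a b = 0 := (wt12_13 h a b).2.2.2.2.2.2.2.2.2.2.1
theorem r25_39 (h : Eng A) (a b : A) : w25 a b * w39 a b = 0 := by
  rw [h.ac, m39_25 h, neg_zero]
theorem m39_26 (h : Eng A) (a b : A) : w39 a b * w26 a b = 0 := (wt12_13 h a b).2.2.2.2.2.2.2.2.2.2.2.1
theorem r26_39 (h : Eng A) (a b : A) : w26 a b * w39 a b = 0 := by
  rw [h.ac, m39_26 h, neg_zero]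
theorem m39_27 (h : Eng A) (a b : A) : w39 a b * w27 a b = 0 := (wt12_13 h a b).2.2.2.2.2.2.2.2.2.2.2.2.1
theorem r27_39 (h : Eng A) (a b : A) : w27 a b * w39 a b = 0 := by
  rw [h.ac, m39_27 h, neg_zero]
theorem m40_22 (h : Eng A) (a b : A) : w40 a b * w22 a b = 0 := (wt12_13 h a b).2.2.2.2.2.2.2.2.2.2.2.2.2.1
theorem r22_40 (h : Eng A) (a b : A) : w22 a b * w40 a b = 0 := by
  rw [h.ac, m40_22 h, neg_zero]
theorem m40_23 (h : Eng A) (a b : A) : w40 a b * w23 a b = 0 := (wt12_13 h a b).2.2.2.2.2.2.2.2.2.2.2.2.2.2.1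
theorem r23_40 (h : Eng A) (a b : A) : w23 a b * w40 a b = 0 := by
  rw [h.ac, m40_23 h, neg_zero]
theorem m40_24 (h : Eng A) (a b : A) : w40 a b * w24 a b = 0 := (wt12_13 h a b).2.2.2.2.2.2.2.2.2.2.2.2.2.2.2
theorem r24_40 (h : Eng A) (a b : A) : w24 a b * w40 a b = 0 := by
  rw [h.ac, m40_24 h, neg_zero]

theorem wt11_14 (h : Eng A) (a b : A) :
    (w36 a b * w33 a b = 0) ∧
    (w37 a b * w33 a b = 0) ∧
    (w40 a b * w25 a b = 0) ∧
    (w40 a b * w26 a b = 0) ∧
    (w40 a b * w27 a b = 0) := by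
  have c33_36 : w33 a b * w36 a b = -(w36 a b * w33 a b) := h.ac _ _
  have c33_37 : w33 a b * w37 a b = -(w37 a b * w33 a b) := h.ac _ _
  have c25_40 : w25 a b * w40 a b = -(w40 a b * w25 a b) := h.ac _ _
  have c26_40 : w26 a b * w40 a b = -(w40 a b * w26 a b) := h.ac _ _
  have c27_40 : w27 a b * w40 a b = -(w40 a b * w27 a b) := h.ac _ _
  have t0 := h.e3 (w7 a b) (w0 a b) (w7 a b) (w40 a b)
  simp only [c25_40, h.sq (w7 a b), m7_0 h a b, m8_7 a b, r7_40 h a b, r8_40 h a b, add_mul, sub_mul, neg_mul, zero_mul, add_zero, zero_add, neg_zero, neg_neg, sub_zero, zero_sub] at t0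
  have t1 := h.e3 (w4 a b) (w0 a b) (w21 a b) (w26 a b)
  simp only [m4_0 h a b, r4_21 h a b, r4_26 h a b, r5_21 h a b, r5_26 h a b, add_mul, sub_mul, neg_mul, zero_mul, add_zero, zero_add, neg_zero, neg_neg, sub_zero, zero_sub] at t1
  have t2 := h.e3 (w4 a b) (w0 a b) (w21 a b) (w27 a b)
  simp only [m40_0 h a b, m40_21 h a b, m4_0 h a b, r4_21 h a b, r4_27 h a b, r5_21 h a b, r5_27 h a b, add_mul, sub_mul, neg_mul, zero_mul, add_zero, zero_add, neg_zero, neg_neg, sub_zero, zero_sub] at t2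
  have t3 := h.e3 (w1 a b) (w0 a b) (w21 a b) (w36 a b)
  simp only [c33_36, m1_0 a b, m40_0 h a b, m40_21 h a b, r1_21 h a b, r1_36 h a b, r2_21 h a b, r2_36 h a b, add_mul, sub_mul, neg_mul, zero_mul, add_zero, zero_add, neg_zero, neg_neg, sub_zero, zero_sub] at t3
  have t4 := h.e3 (w1 a b) (w0 a b) (w21 a b) (w37 a b)
  simp only [c33_37, m1_0 a b, m40_0 h a b, m40_21 h a b, r1_21 h a b, r1_37 h a b, r2_21 h a b, r2_37 h a b, add_mul, sub_mul, neg_mul, zero_mul, add_zero, zero_add, neg_zero, neg_neg, sub_zero, zero_sub] at t4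
  refine ⟨?_, ?_, ?_, ?_, ?_⟩
  · linear_combination (norm := module) (-1 : ℤ) • t3
  · linear_combination (norm := module) (-1 : ℤ) • t4
  · linear_combination (norm := module) (1 : ℤ) • t0
  · linear_combination (norm := module) (1 : ℤ) • t1
  · linear_combination (norm := module) (1 : ℤ) • t2
theorem m36_33 (h : Eng A) (a b : A) : w36 a b * w33 a b = 0 := (wt11_14 h a b).1
theorem r33_36 (h : Eng A) (a b : A) : w33 a b * w36 a b = 0 := by
  rw [h.ac, m36_33 h, neg_zero]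
theorem m37_33 (h : Eng A) (a b : A) : w37 a b * w33 a b = 0 := (wt11_14 h a b).2.1
theorem r33_37 (h : Eng A) (a b : A) : w33 a b * w37 a b = 0 := by
  rw [h.ac, m37_33 h, neg_zero]
theorem m40_25 (h : Eng A) (a b : A) : w40 a b * w25 a b = 0 := (wt11_14 h a b).2.2.1
theorem r25_40 (h : Eng A) (a b : A) : w25 a b * w40 a b = 0 := by
  rw [h.ac, m40_25 h, neg_zero]
theorem m40_26 (h : Eng A) (a b : A) : w40 a b * w26 a b = 0 := (wt11_14 h a b).2.2.2.1
theorem r26_40 (h : Eng A) (a b : A) : w26 a b * w40 a b = 0 := by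
  rw [h.ac, m40_26 h, neg_zero]
theorem m40_27 (h : Eng A) (a b : A) : w40 a b * w27 a b = 0 := (wt11_14 h a b).2.2.2.2
theorem r27_40 (h : Eng A) (a b : A) : w27 a b * w40 a b = 0 := by
  rw [h.ac, m40_27 h, neg_zero]

theorem wt15_11 (h : Eng A) (a b : A) :
    (w38 a b * w28 a b = 0) := by
  have c28_38 : w28 a b * w38 a b = -(w38 a b * w28 a b) := h.ac _ _
  have t0 := h.e2 (w31 a b) (w0 a b) (w28 a b)
  simp only [m31_0 h a b, m31_28 h a b, m35_0 h a b, m35_28 h a b, add_mul, sub_mul, neg_mul, zero_mul, add_zero, zero_add, neg_zero, neg_neg, sub_zero, zero_sub] at t0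
  · linear_combination (norm := module) (-1 : ℤ) • t0
theorem m38_28 (h : Eng A) (a b : A) : w38 a b * w28 a b = 0 := (wt15_11 h a b)
theorem r28_38 (h : Eng A) (a b : A) : w28 a b * w38 a b = 0 := by
  rw [h.ac, m38_28 h, neg_zero]

theorem wt14_12 (h : Eng A) (a b : A) :
    (w35 a b * w34 a b = 0) ∧
    (w38 a b * w29 a b = 0) ∧
    (w38 a b * w30 a b = 0) ∧
    (w38 a b * w31 a b = 0) ∧
    (w38 a b * w32 a b = 0) ∧
    (w39 a b * w28 a b = 0) := by
  have c34_35 : w34 a b * w35 a b = -(w35 a b * w34 a b) := h.ac _ _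
  have c29_38 : w29 a b * w38 a b = -(w38 a b * w29 a b) := h.ac _ _
  have c30_38 : w30 a b * w38 a b = -(w38 a b * w30 a b) := h.ac _ _
  have c31_38 : w31 a b * w38 a b = -(w38 a b * w31 a b) := h.ac _ _
  have c32_38 : w32 a b * w38 a b = -(w38 a b * w32 a b) := h.ac _ _
  have c28_39 : w28 a b * w39 a b = -(w39 a b * w28 a b) := h.ac _ _
  have t0 := h.e2 (w31 a b) (w0 a b) (w29 a b)
  simp only [m31_0 h a b, m31_29 h a b, m35_0 h a b, m35_29 h a b, add_mul, sub_mul, neg_mul, zero_mul, add_zero, zero_add, neg_zero, neg_neg, sub_zero, zero_sub] at t0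
  have t1 := h.e2 (w31 a b) (w0 a b) (w30 a b)
  simp only [m31_0 h a b, m31_30 h a b, m35_0 h a b, m35_30 h a b, add_mul, sub_mul, neg_mul, zero_mul, add_zero, zero_add, neg_zero, neg_neg, sub_zero, zero_sub] at t1
  have t2 := h.e2 (w31 a b) (w0 a b) (w31 a b)
  simp only [h.sq (w31 a b), m31_0 h a b, m35_0 h a b, m35_31 h a b, add_mul, sub_mul, neg_mul, zero_mul, add_zero, zero_add, neg_zero, neg_neg, sub_zero, zero_sub] at t2
  have t3 := h.e2 (w31 a b) (w0 a b) (w32 a b)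
  simp only [m31_0 h a b, m35_0 h a b, m35_32 h a b, r31_32 h a b, add_mul, sub_mul, neg_mul, zero_mul, add_zero, zero_add, neg_zero, neg_neg, sub_zero, zero_sub] at t3
  have t4 := h.e2 (w18 a b) (w0 a b) (w39 a b)
  simp only [c28_39, m18_0 h a b, m23_0 h a b, r18_39 h a b, r23_39 h a b, add_mul, sub_mul, neg_mul, zero_mul, add_zero, zero_add, neg_zero, neg_neg, sub_zero, zero_sub] at t4
  have t5 := h.e3 (w0 a b) (w1 a b) (w24 a b) (w35 a b)
  simp only [c34_35, m38_1 h a b, m38_24 h a b, r0_1 h a b, r0_24 h a b, r0_35 h a b, r2_24 h a b, r2_35 h a b, add_mul, sub_mul, neg_mul, zero_mul, add_zero, zero_add, neg_zero, neg_neg, sub_zero, zero_sub] at t5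
  refine ⟨?_, ?_, ?_, ?_, ?_, ?_⟩
  · linear_combination (norm := module) (1 : ℤ) • t5
  · linear_combination (norm := module) (-1 : ℤ) • t0
  · linear_combination (norm := module) (-1 : ℤ) • t1
  · linear_combination (norm := module) (-1 : ℤ) • t2
  · linear_combination (norm := module) (-1 : ℤ) • t3
  · linear_combination (norm := module) (1 : ℤ) • t4
theorem m35_34 (h : Eng A) (a b : A) : w35 a b * w34 a b = 0 := (wt14_12 h a b).1
theorem r34_35 (h : Eng A) (a b : A) : w34 a b * w35 a b = 0 := by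
  rw [h.ac, m35_34 h, neg_zero]
theorem m38_29 (h : Eng A) (a b : A) : w38 a b * w29 a b = 0 := (wt14_12 h a b).2.1
theorem r29_38 (h : Eng A) (a b : A) : w29 a b * w38 a b = 0 := by
  rw [h.ac, m38_29 h, neg_zero]
theorem m38_30 (h : Eng A) (a b : A) : w38 a b * w30 a b = 0 := (wt14_12 h a b).2.2.1
theorem r30_38 (h : Eng A) (a b : A) : w30 a b * w38 a b = 0 := by
  rw [h.ac, m38_30 h, neg_zero]
theorem m38_31 (h : Eng A) (a b : A) : w38 a b * w31 a b = 0 := (wt14_12 h a b).2.2.2.1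
theorem r31_38 (h : Eng A) (a b : A) : w31 a b * w38 a b = 0 := by
  rw [h.ac, m38_31 h, neg_zero]
theorem m38_32 (h : Eng A) (a b : A) : w38 a b * w32 a b = 0 := (wt14_12 h a b).2.2.2.2.1
theorem r32_38 (h : Eng A) (a b : A) : w32 a b * w38 a b = 0 := by
  rw [h.ac, m38_32 h, neg_zero]
theorem m39_28 (h : Eng A) (a b : A) : w39 a b * w28 a b = 0 := (wt14_12 h a b).2.2.2.2.2
theorem r28_39 (h : Eng A) (a b : A) : w28 a b * w39 a b = 0 := by
  rw [h.ac, m39_28 h, neg_zero]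

theorem wt13_13 (h : Eng A) (a b : A) :
    (w36 a b * w34 a b = 0) ∧
    (w36 a b * w35 a b = 0) ∧
    (w37 a b * w34 a b = 0) ∧
    (w37 a b * w35 a b = 0) ∧
    (w38 a b * w33 a b = 0) ∧
    (w39 a b * w29 a b = 0) ∧
    (w39 a b * w30 a b = 0) ∧
    (w39 a b * w31 a b = 0) ∧
    (w39 a b * w32 a b = 0) ∧
    (w40 a b * w28 a b = 0) := by
  have c34_36 : w34 a b * w36 a b = -(w36 a b * w34 a b) := h.ac _ _
  have c35_36 : w35 a b * w36 a b = -(w36 a b * w35 a b) := h.ac _ _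
  have c34_37 : w34 a b * w37 a b = -(w37 a b * w34 a b) := h.ac _ _
  have c35_37 : w35 a b * w37 a b = -(w37 a b * w35 a b) := h.ac _ _
  have c33_38 : w33 a b * w38 a b = -(w38 a b * w33 a b) := h.ac _ _
  have c29_39 : w29 a b * w39 a b = -(w39 a b * w29 a b) := h.ac _ _
  have c30_39 : w30 a b * w39 a b = -(w39 a b * w30 a b) := h.ac _ _
  have c31_39 : w31 a b * w39 a b = -(w39 a b * w31 a b) := h.ac _ _
  have c32_39 : w32 a b * w39 a b = -(w39 a b * w32 a b) := h.ac _ _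
  have c28_40 : w28 a b * w40 a b = -(w40 a b * w28 a b) := h.ac _ _
  have t0 := h.e2 (w31 a b) (w0 a b) (w33 a b)
  simp only [m31_0 h a b, m35_0 h a b, m35_33 h a b, r31_33 h a b, add_mul, sub_mul, neg_mul, zero_mul, add_zero, zero_add, neg_zero, neg_neg, sub_zero, zero_sub] at t0
  have t1 := h.e2 (w18 a b) (w0 a b) (w40 a b)
  simp only [c28_40, m18_0 h a b, m23_0 h a b, r18_40 h a b, r23_40 h a b, add_mul, sub_mul, neg_mul, zero_mul, add_zero, zero_add, neg_zero, neg_neg, sub_zero, zero_sub] at t1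
  have t2 := h.e3 (w11 a b) (w0 a b) (w7 a b) (w29 a b)
  simp only [m11_0 h a b, m11_7 a b, m14_7 h a b, m36_0 h a b, m36_29 h a b, r11_29 h a b, r14_29 h a b, add_mul, sub_mul, neg_mul, zero_mul, add_zero, zero_add, neg_zero, neg_neg, sub_zero, zero_sub] at t2
  have t3 := h.e3 (w11 a b) (w0 a b) (w7 a b) (w30 a b)
  simp only [m11_0 h a b, m11_7 a b, m14_7 h a b, m36_0 h a b, m36_30 h a b, r11_30 h a b, r14_30 h a b, add_mul, sub_mul, neg_mul, zero_mul, add_zero, zero_add, neg_zero, neg_neg, sub_zero, zero_sub] at t3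
  have t4 := h.e3 (w11 a b) (w0 a b) (w7 a b) (w31 a b)
  simp only [m11_0 h a b, m11_7 a b, m14_7 h a b, m36_0 h a b, m36_31 h a b, r11_31 h a b, r14_31 h a b, add_mul, sub_mul, neg_mul, zero_mul, add_zero, zero_add, neg_zero, neg_neg, sub_zero, zero_sub] at t4
  have t5 := h.e3 (w11 a b) (w0 a b) (w7 a b) (w32 a b)
  simp only [m11_0 h a b, m11_7 a b, m14_7 h a b, m36_0 h a b, m36_32 h a b, r11_32 h a b, r14_32 h a b, add_mul, sub_mul, neg_mul, zero_mul, add_zero, zero_add, neg_zero, neg_neg, sub_zero, zero_sub] at t5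
  have t6 := h.e3 (w1 a b) (w0 a b) (w27 a b) (w34 a b)
  simp only [m1_0 a b, m39_0 h a b, m39_27 h a b, r1_27 h a b, r1_34 h a b, r2_27 h a b, r2_34 h a b, add_mul, sub_mul, neg_mul, zero_mul, add_zero, zero_add, neg_zero, neg_neg, sub_zero, zero_sub] at t6
  have t7 := h.e3 (w1 a b) (w0 a b) (w27 a b) (w35 a b)
  simp only [m1_0 a b, m39_0 h a b, m39_27 h a b, r1_27 h a b, r1_35 h a b, r2_27 h a b, r2_35 h a b, add_mul, sub_mul, neg_mul, zero_mul, add_zero, zero_add, neg_zero, neg_neg, sub_zero, zero_sub] at t7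
  have t8 := h.e3 (w0 a b) (w1 a b) (w24 a b) (w37 a b)
  simp only [c34_37, m39_1 h a b, m39_24 h a b, r0_1 h a b, r0_24 h a b, r0_37 h a b, r2_24 h a b, r2_37 h a b, add_mul, sub_mul, neg_mul, zero_mul, add_zero, zero_add, neg_zero, neg_neg, sub_zero, zero_sub] at t8
  have t9 := h.e3 (w4 a b) (w3 a b) (w9 a b) (w37 a b)
  simp only [c35_37, m19_3 h a b, m4_3 a b, r19_37 h a b, r4_37 h a b, r4_9 h a b, r8_37 h a b, r8_9 h a b, add_mul, sub_mul, neg_mul, zero_mul, add_zero, zero_add, neg_zero, neg_neg, sub_zero, zero_sub] at t9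
  refine ⟨?_, ?_, ?_, ?_, ?_, ?_, ?_, ?_, ?_, ?_⟩
  · linear_combination (norm := module) (1 : ℤ) • t6
  · linear_combination (norm := module) (1 : ℤ) • t7
  · linear_combination (norm := module) (1 : ℤ) • t8
  · linear_combination (norm := module) (-1 : ℤ) • t9
  · linear_combination (norm := module) (-1 : ℤ) • t0
  · linear_combination (norm := module) (-1 : ℤ) • t2
  · linear_combination (norm := module) (-1 : ℤ) • t3
  · linear_combination (norm := module) (-1 : ℤ) • t4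
  · linear_combination (norm := module) (-1 : ℤ) • t5
  · linear_combination (norm := module) (1 : ℤ) • t1
theorem m36_34 (h : Eng A) (a b : A) : w36 a b * w34 a b = 0 := (wt13_13 h a b).1
theorem r34_36 (h : Eng A) (a b : A) : w34 a b * w36 a b = 0 := by
  rw [h.ac, m36_34 h, neg_zero]
theorem m36_35 (h : Eng A) (a b : A) : w36 a b * w35 a b = 0 := (wt13_13 h a b).2.1
theorem r35_36 (h : Eng A) (a b : A) : w35 a b * w36 a b = 0 := by
  rw [h.ac, m36_35 h, neg_zero]
theorem m37_34 (h : Eng A) (a b : A) : w37 a b * w34 a b = 0 := (wt13_13 h a b).2.2.1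
theorem r34_37 (h : Eng A) (a b : A) : w34 a b * w37 a b = 0 := by
  rw [h.ac, m37_34 h, neg_zero]
theorem m37_35 (h : Eng A) (a b : A) : w37 a b * w35 a b = 0 := (wt13_13 h a b).2.2.2.1
theorem r35_37 (h : Eng A) (a b : A) : w35 a b * w37 a b = 0 := by
  rw [h.ac, m37_35 h, neg_zero]
theorem m38_33 (h : Eng A) (a b : A) : w38 a b * w33 a b = 0 := (wt13_13 h a b).2.2.2.2.1
theorem r33_38 (h : Eng A) (a b : A) : w33 a b * w38 a b = 0 := by
  rw [h.ac, m38_33 h, neg_zero]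
theorem m39_29 (h : Eng A) (a b : A) : w39 a b * w29 a b = 0 := (wt13_13 h a b).2.2.2.2.2.1
theorem r29_39 (h : Eng A) (a b : A) : w29 a b * w39 a b = 0 := by
  rw [h.ac, m39_29 h, neg_zero]
theorem m39_30 (h : Eng A) (a b : A) : w39 a b * w30 a b = 0 := (wt13_13 h a b).2.2.2.2.2.2.1
theorem r30_39 (h : Eng A) (a b : A) : w30 a b * w39 a b = 0 := by
  rw [h.ac, m39_30 h, neg_zero]
theorem m39_31 (h : Eng A) (a b : A) : w39 a b * w31 a b = 0 := (wt13_13 h a b).2.2.2.2.2.2.2.1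
theorem r31_39 (h : Eng A) (a b : A) : w31 a b * w39 a b = 0 := by
  rw [h.ac, m39_31 h, neg_zero]
theorem m39_32 (h : Eng A) (a b : A) : w39 a b * w32 a b = 0 := (wt13_13 h a b).2.2.2.2.2.2.2.2.1
theorem r32_39 (h : Eng A) (a b : A) : w32 a b * w39 a b = 0 := by
  rw [h.ac, m39_32 h, neg_zero]
theorem m40_28 (h : Eng A) (a b : A) : w40 a b * w28 a b = 0 := (wt13_13 h a b).2.2.2.2.2.2.2.2.2
theorem r28_40 (h : Eng A) (a b : A) : w28 a b * w40 a b = 0 := by
  rw [h.ac, m40_28 h, neg_zero]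

theorem wt12_14 (h : Eng A) (a b : A) :
    (w37 a b * w36 a b = 0) ∧
    (w39 a b * w33 a b = 0) ∧
    (w40 a b * w29 a b = 0) ∧
    (w40 a b * w30 a b = 0) ∧
    (w40 a b * w31 a b = 0) ∧
    (w40 a b * w32 a b = 0) := by
  have c36_37 : w36 a b * w37 a b = -(w37 a b * w36 a b) := h.ac _ _
  have c33_39 : w33 a b * w39 a b = -(w39 a b * w33 a b) := h.ac _ _
  have c29_40 : w29 a b * w40 a b = -(w40 a b * w29 a b) := h.ac _ _
  have c30_40 : w30 a b * w40 a b = -(w40 a b * w30 a b) := h.ac _ _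
  have c31_40 : w31 a b * w40 a b = -(w40 a b * w31 a b) := h.ac _ _
  have c32_40 : w32 a b * w40 a b = -(w40 a b * w32 a b) := h.ac _ _
  have t0 := h.e3 (w11 a b) (w0 a b) (w7 a b) (w33 a b)
  simp only [m11_0 h a b, m11_7 a b, m14_7 h a b, m36_0 h a b, m36_33 h a b, r11_33 h a b, r14_33 h a b, add_mul, sub_mul, neg_mul, zero_mul, add_zero, zero_add, neg_zero, neg_neg, sub_zero, zero_sub] at t0
  have t1 := h.e3 (w7 a b) (w0 a b) (w8 a b) (w40 a b)
  simp only [c29_40, h.sq (w8 a b), m25_0 h a b, m7_0 h a b, r25_40 h a b, r7_40 h a b, r7_8 h a b, r8_40 h a b, add_mul, sub_mul, neg_mul, zero_mul, add_zero, zero_add, neg_zero, neg_neg, sub_zero, zero_sub] at t1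
  have t2 := h.e3 (w4 a b) (w0 a b) (w21 a b) (w30 a b)
  simp only [m4_0 h a b, r4_21 h a b, r4_30 h a b, r5_21 h a b, r5_30 h a b, add_mul, sub_mul, neg_mul, zero_mul, add_zero, zero_add, neg_zero, neg_neg, sub_zero, zero_sub] at t2
  have t3 := h.e3 (w4 a b) (w0 a b) (w21 a b) (w31 a b)
  simp only [m4_0 h a b, r4_21 h a b, r4_31 h a b, r5_21 h a b, r5_31 h a b, add_mul, sub_mul, neg_mul, zero_mul, add_zero, zero_add, neg_zero, neg_neg, sub_zero, zero_sub] at t3
  have t4 := h.e3 (w4 a b) (w0 a b) (w21 a b) (w32 a b)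
  simp only [m4_0 h a b, r4_21 h a b, r4_32 h a b, r5_21 h a b, r5_32 h a b, add_mul, sub_mul, neg_mul, zero_mul, add_zero, zero_add, neg_zero, neg_neg, sub_zero, zero_sub] at t4
  have t5 := h.e3 (w1 a b) (w0 a b) (w27 a b) (w37 a b)
  simp only [c36_37, m1_0 a b, m40_0 h a b, m40_27 h a b, r1_27 h a b, r1_37 h a b, r2_27 h a b, r2_37 h a b, add_mul, sub_mul, neg_mul, zero_mul, add_zero, zero_add, neg_zero, neg_neg, sub_zero, zero_sub] at t5
  refine ⟨?_, ?_, ?_, ?_, ?_, ?_⟩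
  · linear_combination (norm := module) (-1 : ℤ) • t5
  · linear_combination (norm := module) (-1 : ℤ) • t0
  · linear_combination (norm := module) (-1 : ℤ) • t1
  · linear_combination (norm := module) (1 : ℤ) • t2
  · linear_combination (norm := module) (1 : ℤ) • t3
  · linear_combination (norm := module) (1 : ℤ) • t4
theorem m37_36 (h : Eng A) (a b : A) : w37 a b * w36 a b = 0 := (wt12_14 h a b).1
theorem r36_37 (h : Eng A) (a b : A) : w36 a b * w37 a b = 0 := by
  rw [h.ac, m37_36 h, neg_zero]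
theorem m39_33 (h : Eng A) (a b : A) : w39 a b * w33 a b = 0 := (wt12_14 h a b).2.1
theorem r33_39 (h : Eng A) (a b : A) : w33 a b * w39 a b = 0 := by
  rw [h.ac, m39_33 h, neg_zero]
theorem m40_29 (h : Eng A) (a b : A) : w40 a b * w29 a b = 0 := (wt12_14 h a b).2.2.1
theorem r29_40 (h : Eng A) (a b : A) : w29 a b * w40 a b = 0 := by
  rw [h.ac, m40_29 h, neg_zero]
theorem m40_30 (h : Eng A) (a b : A) : w40 a b * w30 a b = 0 := (wt12_14 h a b).2.2.2.1
theorem r30_40 (h : Eng A) (a b : A) : w30 a b * w40 a b = 0 := by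
  rw [h.ac, m40_30 h, neg_zero]
theorem m40_31 (h : Eng A) (a b : A) : w40 a b * w31 a b = 0 := (wt12_14 h a b).2.2.2.2.1
theorem r31_40 (h : Eng A) (a b : A) : w31 a b * w40 a b = 0 := by
  rw [h.ac, m40_31 h, neg_zero]
theorem m40_32 (h : Eng A) (a b : A) : w40 a b * w32 a b = 0 := (wt12_14 h a b).2.2.2.2.2
theorem r32_40 (h : Eng A) (a b : A) : w32 a b * w40 a b = 0 := by
  rw [h.ac, m40_32 h, neg_zero]

theorem wt11_15 (h : Eng A) (a b : A) :
    (w40 a b * w33 a b = 0) := by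
  have c33_40 : w33 a b * w40 a b = -(w40 a b * w33 a b) := h.ac _ _
  have t0 := h.e3 (w4 a b) (w0 a b) (w21 a b) (w33 a b)
  simp only [m4_0 h a b, r4_21 h a b, r4_33 h a b, r5_21 h a b, r5_33 h a b, add_mul, sub_mul, neg_mul, zero_mul, add_zero, zero_add, neg_zero, neg_neg, sub_zero, zero_sub] at t0
  · linear_combination (norm := module) (1 : ℤ) • t0
theorem m40_33 (h : Eng A) (a b : A) : w40 a b * w33 a b = 0 := (wt11_15 h a b)
theorem r33_40 (h : Eng A) (a b : A) : w33 a b * w40 a b = 0 := by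
  rw [h.ac, m40_33 h, neg_zero]

theorem wt15_12 (h : Eng A) (a b : A) :
    (w38 a b * w34 a b = 0) ∧
    (w38 a b * w35 a b = 0) := by
  have c34_38 : w34 a b * w38 a b = -(w38 a b * w34 a b) := h.ac _ _
  have c35_38 : w35 a b * w38 a b = -(w38 a b * w35 a b) := h.ac _ _
  have t0 := h.e2 (w31 a b) (w0 a b) (w34 a b)
  simp only [m31_0 h a b, m35_0 h a b, m35_34 h a b, r31_34 h a b, add_mul, sub_mul, neg_mul, zero_mul, add_zero, zero_add, neg_zero, neg_neg, sub_zero, zero_sub] at t0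
  have t1 := h.e2 (w31 a b) (w0 a b) (w35 a b)
  simp only [h.sq (w35 a b), m31_0 h a b, m35_0 h a b, r31_35 h a b, add_mul, sub_mul, neg_mul, zero_mul, add_zero, zero_add, neg_zero, neg_neg, sub_zero, zero_sub] at t1
  refine ⟨?_, ?_⟩
  · linear_combination (norm := module) (-1 : ℤ) • t0
  · linear_combination (norm := module) (-1 : ℤ) • t1
theorem m38_34 (h : Eng A) (a b : A) : w38 a b * w34 a b = 0 := (wt15_12 h a b).1
theorem r34_38 (h : Eng A) (a b : A) : w34 a b * w38 a b = 0 := by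
  rw [h.ac, m38_34 h, neg_zero]
theorem m38_35 (h : Eng A) (a b : A) : w38 a b * w35 a b = 0 := (wt15_12 h a b).2
theorem r35_38 (h : Eng A) (a b : A) : w35 a b * w38 a b = 0 := by
  rw [h.ac, m38_35 h, neg_zero]

theorem wt14_13 (h : Eng A) (a b : A) :
    (w38 a b * w36 a b = 0) ∧
    (w38 a b * w37 a b = 0) ∧
    (w39 a b * w34 a b = 0) ∧
    (w39 a b * w35 a b = 0) := by
  have c36_38 : w36 a b * w38 a b = -(w38 a b * w36 a b) := h.ac _ _
  have c37_38 : w37 a b * w38 a b = -(w38 a b * w37 a b) := h.ac _ _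
  have c34_39 : w34 a b * w39 a b = -(w39 a b * w34 a b) := h.ac _ _
  have c35_39 : w35 a b * w39 a b = -(w39 a b * w35 a b) := h.ac _ _
  have t0 := h.e2 (w31 a b) (w0 a b) (w36 a b)
  simp only [m31_0 h a b, m35_0 h a b, r31_36 h a b, r35_36 h a b, add_mul, sub_mul, neg_mul, zero_mul, add_zero, zero_add, neg_zero, neg_neg, sub_zero, zero_sub] at t0
  have t1 := h.e2 (w31 a b) (w0 a b) (w37 a b)
  simp only [m31_0 h a b, m35_0 h a b, r31_37 h a b, r35_37 h a b, add_mul, sub_mul, neg_mul, zero_mul, add_zero, zero_add, neg_zero, neg_neg, sub_zero, zero_sub] at t1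
  have t2 := h.e3 (w11 a b) (w0 a b) (w7 a b) (w34 a b)
  simp only [m11_0 h a b, m11_7 a b, m14_7 h a b, m36_0 h a b, m36_34 h a b, r11_34 h a b, r14_34 h a b, add_mul, sub_mul, neg_mul, zero_mul, add_zero, zero_add, neg_zero, neg_neg, sub_zero, zero_sub] at t2
  have t3 := h.e3 (w11 a b) (w0 a b) (w7 a b) (w35 a b)
  simp only [m11_0 h a b, m11_7 a b, m14_7 h a b, m36_0 h a b, m36_35 h a b, r11_35 h a b, r14_35 h a b, add_mul, sub_mul, neg_mul, zero_mul, add_zero, zero_add, neg_zero, neg_neg, sub_zero, zero_sub] at t3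
  refine ⟨?_, ?_, ?_, ?_⟩
  · linear_combination (norm := module) (-1 : ℤ) • t0
  · linear_combination (norm := module) (-1 : ℤ) • t1
  · linear_combination (norm := module) (-1 : ℤ) • t2
  · linear_combination (norm := module) (-1 : ℤ) • t3
theorem m38_36 (h : Eng A) (a b : A) : w38 a b * w36 a b = 0 := (wt14_13 h a b).1
theorem r36_38 (h : Eng A) (a b : A) : w36 a b * w38 a b = 0 := by
  rw [h.ac, m38_36 h, neg_zero]
theorem m38_37 (h : Eng A) (a b : A) : w38 a b * w37 a b = 0 := (wt14_13 h a b).2.1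
theorem r37_38 (h : Eng A) (a b : A) : w37 a b * w38 a b = 0 := by
  rw [h.ac, m38_37 h, neg_zero]
theorem m39_34 (h : Eng A) (a b : A) : w39 a b * w34 a b = 0 := (wt14_13 h a b).2.2.1
theorem r34_39 (h : Eng A) (a b : A) : w34 a b * w39 a b = 0 := by
  rw [h.ac, m39_34 h, neg_zero]
theorem m39_35 (h : Eng A) (a b : A) : w39 a b * w35 a b = 0 := (wt14_13 h a b).2.2.2
theorem r35_39 (h : Eng A) (a b : A) : w35 a b * w39 a b = 0 := by
  rw [h.ac, m39_35 h, neg_zero]

theorem wt13_14 (h : Eng A) (a b : A) :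
    (w39 a b * w36 a b = 0) ∧
    (w39 a b * w37 a b = 0) ∧
    (w40 a b * w34 a b = 0) ∧
    (w40 a b * w35 a b = 0) := by
  have c36_39 : w36 a b * w39 a b = -(w39 a b * w36 a b) := h.ac _ _
  have c37_39 : w37 a b * w39 a b = -(w39 a b * w37 a b) := h.ac _ _
  have c34_40 : w34 a b * w40 a b = -(w40 a b * w34 a b) := h.ac _ _
  have c35_40 : w35 a b * w40 a b = -(w40 a b * w35 a b) := h.ac _ _
  have t0 := h.e3 (w11 a b) (w0 a b) (w7 a b) (w36 a b)
  simp only [h.sq (w36 a b), m11_0 h a b, m11_7 a b, m14_7 h a b, m36_0 h a b, r11_36 h a b, r14_36 h a b, add_mul, sub_mul, neg_mul, zero_mul, add_zero, zero_add, neg_zero, neg_neg, sub_zero, zero_sub] at t0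
  have t1 := h.e3 (w11 a b) (w0 a b) (w7 a b) (w37 a b)
  simp only [m11_0 h a b, m11_7 a b, m14_7 h a b, m36_0 h a b, r11_37 h a b, r14_37 h a b, r36_37 h a b, add_mul, sub_mul, neg_mul, zero_mul, add_zero, zero_add, neg_zero, neg_neg, sub_zero, zero_sub] at t1
  have t2 := h.e3 (w4 a b) (w0 a b) (w21 a b) (w34 a b)
  simp only [m4_0 h a b, r4_21 h a b, r4_34 h a b, r5_21 h a b, r5_34 h a b, add_mul, sub_mul, neg_mul, zero_mul, add_zero, zero_add, neg_zero, neg_neg, sub_zero, zero_sub] at t2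
  have t3 := h.e3 (w4 a b) (w0 a b) (w21 a b) (w35 a b)
  simp only [m4_0 h a b, r4_21 h a b, r4_35 h a b, r5_21 h a b, r5_35 h a b, add_mul, sub_mul, neg_mul, zero_mul, add_zero, zero_add, neg_zero, neg_neg, sub_zero, zero_sub] at t3
  refine ⟨?_, ?_, ?_, ?_⟩
  · linear_combination (norm := module) (-1 : ℤ) • t0
  · linear_combination (norm := module) (-1 : ℤ) • t1
  · linear_combination (norm := module) (1 : ℤ) • t2
  · linear_combination (norm := module) (1 : ℤ) • t3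
theorem m39_36 (h : Eng A) (a b : A) : w39 a b * w36 a b = 0 := (wt13_14 h a b).1
theorem r36_39 (h : Eng A) (a b : A) : w36 a b * w39 a b = 0 := by
  rw [h.ac, m39_36 h, neg_zero]
theorem m39_37 (h : Eng A) (a b : A) : w39 a b * w37 a b = 0 := (wt13_14 h a b).2.1
theorem r37_39 (h : Eng A) (a b : A) : w37 a b * w39 a b = 0 := by
  rw [h.ac, m39_37 h, neg_zero]
theorem m40_34 (h : Eng A) (a b : A) : w40 a b * w34 a b = 0 := (wt13_14 h a b).2.2.1
theorem r34_40 (h : Eng A) (a b : A) : w34 a b * w40 a b = 0 := by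
  rw [h.ac, m40_34 h, neg_zero]
theorem m40_35 (h : Eng A) (a b : A) : w40 a b * w35 a b = 0 := (wt13_14 h a b).2.2.2
theorem r35_40 (h : Eng A) (a b : A) : w35 a b * w40 a b = 0 := by
  rw [h.ac, m40_35 h, neg_zero]

theorem wt12_15 (h : Eng A) (a b : A) :
    (w40 a b * w36 a b = 0) ∧
    (w40 a b * w37 a b = 0) := by
  have c36_40 : w36 a b * w40 a b = -(w40 a b * w36 a b) := h.ac _ _
  have c37_40 : w37 a b * w40 a b = -(w40 a b * w37 a b) := h.ac _ _
  have t0 := h.e3 (w4 a b) (w0 a b) (w21 a b) (w36 a b)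
  simp only [m4_0 h a b, r4_21 h a b, r4_36 h a b, r5_21 h a b, r5_36 h a b, add_mul, sub_mul, neg_mul, zero_mul, add_zero, zero_add, neg_zero, neg_neg, sub_zero, zero_sub] at t0
  have t1 := h.e3 (w4 a b) (w0 a b) (w21 a b) (w37 a b)
  simp only [m4_0 h a b, r4_21 h a b, r4_37 h a b, r5_21 h a b, r5_37 h a b, add_mul, sub_mul, neg_mul, zero_mul, add_zero, zero_add, neg_zero, neg_neg, sub_zero, zero_sub] at t1
  refine ⟨?_, ?_⟩
  · linear_combination (norm := module) (1 : ℤ) • t0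
  · linear_combination (norm := module) (1 : ℤ) • t1
theorem m40_36 (h : Eng A) (a b : A) : w40 a b * w36 a b = 0 := (wt12_15 h a b).1
theorem r36_40 (h : Eng A) (a b : A) : w36 a b * w40 a b = 0 := by
  rw [h.ac, m40_36 h, neg_zero]
theorem m40_37 (h : Eng A) (a b : A) : w40 a b * w37 a b = 0 := (wt12_15 h a b).2
theorem r37_40 (h : Eng A) (a b : A) : w37 a b * w40 a b = 0 := by
  rw [h.ac, m40_37 h, neg_zero]

theorem wt15_13 (h : Eng A) (a b : A) :
    (w39 a b * w38 a b = 0) := by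
  have c38_39 : w38 a b * w39 a b = -(w39 a b * w38 a b) := h.ac _ _
  have t0 := h.e2 (w31 a b) (w0 a b) (w39 a b)
  simp only [c38_39, m31_0 h a b, m35_0 h a b, r31_39 h a b, r35_39 h a b, add_mul, sub_mul, neg_mul, zero_mul, add_zero, zero_add, neg_zero, neg_neg, sub_zero, zero_sub] at t0
  · linear_combination (norm := module) (1 : ℤ) • t0
theorem m39_38 (h : Eng A) (a b : A) : w39 a b * w38 a b = 0 := (wt15_13 h a b)
theorem r38_39 (h : Eng A) (a b : A) : w38 a b * w39 a b = 0 := by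
  rw [h.ac, m39_38 h, neg_zero]

theorem wt14_14 (h : Eng A) (a b : A) :
    (w40 a b * w38 a b = 0) := by
  have c38_40 : w38 a b * w40 a b = -(w40 a b * w38 a b) := h.ac _ _
  have t0 := h.e2 (w31 a b) (w0 a b) (w40 a b)
  simp only [c38_40, m31_0 h a b, m35_0 h a b, r31_40 h a b, r35_40 h a b, add_mul, sub_mul, neg_mul, zero_mul, add_zero, zero_add, neg_zero, neg_neg, sub_zero, zero_sub] at t0
  · linear_combination (norm := module) (1 : ℤ) • t0
theorem m40_38 (h : Eng A) (a b : A) : w40 a b * w38 a b = 0 := (wt14_14 h a b)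
theorem r38_40 (h : Eng A) (a b : A) : w38 a b * w40 a b = 0 := by
  rw [h.ac, m40_38 h, neg_zero]

theorem wt13_15 (h : Eng A) (a b : A) :
    (w40 a b * w39 a b = 0) := by
  have c39_40 : w39 a b * w40 a b = -(w40 a b * w39 a b) := h.ac _ _
  have t0 := h.e3 (w11 a b) (w0 a b) (w7 a b) (w40 a b)
  simp only [c39_40, m11_0 h a b, m11_7 a b, m14_7 h a b, m36_0 h a b, r11_40 h a b, r14_40 h a b, r36_40 h a b, add_mul, sub_mul, neg_mul, zero_mul, add_zero, zero_add, neg_zero, neg_neg, sub_zero, zero_sub] at t0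
  · linear_combination (norm := module) (1 : ℤ) • t0
theorem m40_39 (h : Eng A) (a b : A) : w40 a b * w39 a b = 0 := (wt13_15 h a b)
theorem r39_40 (h : Eng A) (a b : A) : w39 a b * w40 a b = 0 := by
  rw [h.ac, m40_39 h, neg_zero]

end Pool.Agent.H461R3.E3
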