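import Pool.Agent.H461R3.E3.Base

set_option autoImplicit false
set_option linter.all false
set_option linter.unusedSimpArgs false
set_option linter.unusedVariables false

namespace Pool.Agent.H461R3.E3

universe u

variable {A : Type u} [NonUnitalNonAssocRing A]

theorem m1_0 (a b : A) : w1 a b * w0 a b = w2 a b := rfl
theorem r0_1 (h : Eng A) (a b : A) : w0 a b * w1 a b = -(w2 a b) := by
  rw [h.ac, m1_0]; try abel

theorem m2_0 (a b : A) : w2 a b * w0 a b = w3 a b := rfl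
theorem r0_2 (h : Eng A) (a b : A) : w0 a b * w2 a b = -(w3 a b) := by
  rw [h.ac, m2_0]; try abel

theorem m2_1 (a b : A) : w2 a b * w1 a b = w4 a b := rfl
theorem r1_2 (h : Eng A) (a b : A) : w1 a b * w2 a b = -(w4 a b) := by
  rw [h.ac, m2_1]; try abel

theorem wt3_1 (h : Eng A) (a b : A) :
    (w3 a b * w0 a b = 0) := by
  have c0_3 : w0 a b * w3 a b = -(w3 a b * w0 a b) := h.ac _ _
  have t0 := h.e1 (w1 a b) (w0 a b)
  simp only [m1_0 a b, m2_0 a b, add_mul, sub_mul, neg_mul, zero_mul, add_zero, zero_add, neg_zero, neg_neg, sub_zero, zero_sub] at t0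
  · linear_combination (norm := module) (1 : ℤ) • t0
theorem m3_0 (h : Eng A) (a b : A) : w3 a b * w0 a b = 0 := (wt3_1 h a b)
theorem r0_3 (h : Eng A) (a b : A) : w0 a b * w3 a b = 0 := by
  rw [h.ac, m3_0 h, neg_zero]

theorem m3_1 (a b : A) : w3 a b * w1 a b = w5 a b := rfl
theorem r1_3 (h : Eng A) (a b : A) : w1 a b * w3 a b = -(w5 a b) := by
  rw [h.ac, m3_1]; try abel
theorem wt2_2 (h : Eng A) (a b : A) :
    (w4 a b * w0 a b = -(w5 a b)) := by
  have c0_4 : w0 a b * w4 a b = -(w4 a b * w0 a b) := h.ac _ _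
  have t0 := h.e2 (w1 a b) (w0 a b) (w1 a b)
  simp only [h.sq (w1 a b), m1_0 a b, m2_0 a b, m2_1 a b, m3_1 a b, add_mul, sub_mul, neg_mul, zero_mul, add_zero, zero_add, neg_zero, neg_neg, sub_zero, zero_sub] at t0
  · linear_combination (norm := module) (1 : ℤ) • t0
theorem m4_0 (h : Eng A) (a b : A) : w4 a b * w0 a b = -(w5 a b) := (wt2_2 h a b)
theorem r0_4 (h : Eng A) (a b : A) : w0 a b * w4 a b = w5 a b := by
  rw [h.ac, m4_0 h]; try abel

theorem wt1_3 (h : Eng A) (a b : A) :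
    (w4 a b * w1 a b = 0) := by
  have c1_4 : w1 a b * w4 a b = -(w4 a b * w1 a b) := h.ac _ _
  have t0 := h.e2 (w1 a b) (w1 a b) (w0 a b)
  simp only [h.sq (w1 a b), m1_0 a b, m2_1 a b, add_mul, sub_mul, neg_mul, zero_mul, add_zero, zero_add, neg_zero, neg_neg, sub_zero, zero_sub] at t0
  · linear_combination (norm := module) (1 : ℤ) • t0
theorem m4_1 (h : Eng A) (a b : A) : w4 a b * w1 a b = 0 := (wt1_3 h a b)
theorem r1_4 (h : Eng A) (a b : A) : w1 a b * w4 a b = 0 := by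
  rw [h.ac, m4_1 h, neg_zero]

theorem m3_2 (a b : A) : w3 a b * w2 a b = w6 a b := rfl
theorem r2_3 (h : Eng A) (a b : A) : w2 a b * w3 a b = -(w6 a b) := by
  rw [h.ac, m3_2]; try abel
theorem wt3_2 (h : Eng A) (a b : A) :
    (w5 a b * w0 a b = -(w6 a b)) := by
  have c0_5 : w0 a b * w5 a b = -(w5 a b * w0 a b) := h.ac _ _
  have t0 := h.e2 (w1 a b) (w0 a b) (w2 a b)
  simp only [h.sq (w2 a b), m1_0 a b, m2_0 a b, m3_2 a b, m4_0 h a b, r1_2 h a b, add_mul, sub_mul, neg_mul, zero_mul, add_zero, zero_add, neg_zero, neg_neg, sub_zero, zero_sub] at t0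
  · linear_combination (norm := module) (1 : ℤ) • t0
theorem m5_0 (h : Eng A) (a b : A) : w5 a b * w0 a b = -(w6 a b) := (wt3_2 h a b)
theorem r0_5 (h : Eng A) (a b : A) : w0 a b * w5 a b = w6 a b := by
  rw [h.ac, m5_0 h]; try abel

theorem m4_2 (a b : A) : w4 a b * w2 a b = w7 a b := rfl
theorem r2_4 (h : Eng A) (a b : A) : w2 a b * w4 a b = -(w7 a b) := by
  rw [h.ac, m4_2]; try abel
theorem wt2_3 (h : Eng A) (a b : A) :
    (w5 a b * w1 a b = -(w7 a b)) := by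
  have c1_5 : w1 a b * w5 a b = -(w5 a b * w1 a b) := h.ac _ _
  have t0 := h.e3 (w1 a b) (w0 a b) (w1 a b) (w2 a b)
  simp only [h.sq (w1 a b), h.sq (w2 a b), m1_0 a b, m2_1 a b, m4_0 h a b, m4_1 h a b, m4_2 a b, r1_2 h a b, add_mul, sub_mul, neg_mul, zero_mul, add_zero, zero_add, neg_zero, neg_neg, sub_zero, zero_sub] at t0
  · linear_combination (norm := module) (1 : ℤ) • t0
theorem m5_1 (h : Eng A) (a b : A) : w5 a b * w1 a b = -(w7 a b) := (wt2_3 h a b)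
theorem r1_5 (h : Eng A) (a b : A) : w1 a b * w5 a b = w7 a b := by
  rw [h.ac, m5_1 h]; try abel

theorem wt4_2 (h : Eng A) (a b : A) :
    (w6 a b * w0 a b = 0) := by
  have c0_6 : w0 a b * w6 a b = -(w6 a b * w0 a b) := h.ac _ _
  have t0 := h.e1 (w4 a b) (w0 a b)
  simp only [m4_0 h a b, m5_0 h a b, add_mul, sub_mul, neg_mul, zero_mul, add_zero, zero_add, neg_zero, neg_neg, sub_zero, zero_sub] at t0
  · linear_combination (norm := module) (1 : ℤ) • t0
theorem m6_0 (h : Eng A) (a b : A) : w6 a b * w0 a b = 0 := (wt4_2 h a b)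
theorem r0_6 (h : Eng A) (a b : A) : w0 a b * w6 a b = 0 := by
  rw [h.ac, m6_0 h, neg_zero]

theorem m4_3 (a b : A) : w4 a b * w3 a b = w8 a b := rfl
theorem r3_4 (h : Eng A) (a b : A) : w3 a b * w4 a b = -(w8 a b) := by
  rw [h.ac, m4_3]; try abel
theorem wt3_3 (h : Eng A) (a b : A) :
    (w5 a b * w2 a b = -(w8 a b)) ∧
    (w6 a b * w1 a b = w8 a b) ∧
    (w7 a b * w0 a b = -(w8 a b)) := by
  have c2_5 : w2 a b * w5 a b = -(w5 a b * w2 a b) := h.ac _ _
  have c1_6 : w1 a b * w6 a b = -(w6 a b * w1 a b) := h.ac _ _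
  have c0_7 : w0 a b * w7 a b = -(w7 a b * w0 a b) := h.ac _ _
  have t0 := h.e2 (w4 a b) (w0 a b) (w1 a b)
  simp only [m4_0 h a b, m4_1 h a b, m5_0 h a b, m5_1 h a b, add_mul, sub_mul, neg_mul, zero_mul, add_zero, zero_add, neg_zero, neg_neg, sub_zero, zero_sub] at t0
  have t1 := h.e2 (w1 a b) (w0 a b) (w4 a b)
  simp only [m1_0 a b, m2_0 a b, r1_4 h a b, r2_4 h a b, r3_4 h a b, add_mul, sub_mul, neg_mul, zero_mul, add_zero, zero_add, neg_zero, neg_neg, sub_zero, zero_sub] at t1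
  have t2 := h.e2 (w1 a b) (w2 a b) (w0 a b)
  simp only [h.sq (w2 a b), m1_0 a b, m4_0 h a b, m4_2 a b, r1_2 h a b, add_mul, sub_mul, neg_mul, zero_mul, add_zero, zero_add, neg_zero, neg_neg, sub_zero, zero_sub] at t2
  refine ⟨?_, ?_, ?_⟩
  · linear_combination (norm := module) (-1 : ℤ) • t1 + (1 : ℤ) • t2
  · linear_combination (norm := module) (1 : ℤ) • t0 + (1 : ℤ) • t1
  · linear_combination (norm := module) (-1 : ℤ) • t1
theorem m5_2 (h : Eng A) (a b : A) : w5 a b * w2 a b = -(w8 a b) := (wt3_3 h a b).1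
theorem r2_5 (h : Eng A) (a b : A) : w2 a b * w5 a b = w8 a b := by
  rw [h.ac, m5_2 h]; try abel
theorem m6_1 (h : Eng A) (a b : A) : w6 a b * w1 a b = w8 a b := (wt3_3 h a b).2.1
theorem r1_6 (h : Eng A) (a b : A) : w1 a b * w6 a b = -(w8 a b) := by
  rw [h.ac, m6_1 h]; try abel
theorem m7_0 (h : Eng A) (a b : A) : w7 a b * w0 a b = -(w8 a b) := (wt3_3 h a b).2.2
theorem r0_7 (h : Eng A) (a b : A) : w0 a b * w7 a b = w8 a b := by
  rw [h.ac, m7_0 h]; try abel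

theorem wt2_4 (h : Eng A) (a b : A) :
    (w7 a b * w1 a b = 0) := by
  have c1_7 : w1 a b * w7 a b = -(w7 a b * w1 a b) := h.ac _ _
  have t0 := h.e2 (w4 a b) (w1 a b) (w0 a b)
  simp only [m4_0 h a b, m4_1 h a b, m5_1 h a b, add_mul, sub_mul, neg_mul, zero_mul, add_zero, zero_add, neg_zero, neg_neg, sub_zero, zero_sub] at t0
  · linear_combination (norm := module) (1 : ℤ) • t0
theorem m7_1 (h : Eng A) (a b : A) : w7 a b * w1 a b = 0 := (wt2_4 h a b)
theorem r1_7 (h : Eng A) (a b : A) : w1 a b * w7 a b = 0 := by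
  rw [h.ac, m7_1 h, neg_zero]

theorem m8_0 (a b : A) : w8 a b * w0 a b = w9 a b := rfl
theorem r0_8 (h : Eng A) (a b : A) : w0 a b * w8 a b = -(w9 a b) := by
  rw [h.ac, m8_0]; try abel
theorem wt4_3 (h : Eng A) (a b : A) :
    (w5 a b * w3 a b = 0) ∧
    (w6 a b * w2 a b = 0) := by
  have c3_5 : w3 a b * w5 a b = -(w5 a b * w3 a b) := h.ac _ _
  have c2_6 : w2 a b * w6 a b = -(w6 a b * w2 a b) := h.ac _ _
  have t0 := h.e2 (w2 a b) (w2 a b) (w0 a b)
  simp only [h.sq (w2 a b), m2_0 a b, m3_2 a b, add_mul, sub_mul, neg_mul, zero_mul, add_zero, zero_add, neg_zero, neg_neg, sub_zero, zero_sub] at t0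
  have t1 := h.e2 (w1 a b) (w0 a b) (w5 a b)
  simp only [c3_5, m1_0 a b, m2_0 a b, m7_0 h a b, m8_0 a b, r1_5 h a b, r2_5 h a b, add_mul, sub_mul, neg_mul, zero_mul, add_zero, zero_add, neg_zero, neg_neg, sub_zero, zero_sub] at t1
  refine ⟨?_, ?_⟩
  · linear_combination (norm := module) (-1 : ℤ) • t1
  · linear_combination (norm := module) (1 : ℤ) • t0
theorem m5_3 (h : Eng A) (a b : A) : w5 a b * w3 a b = 0 := (wt4_3 h a b).1
theorem r3_5 (h : Eng A) (a b : A) : w3 a b * w5 a b = 0 := by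
  rw [h.ac, m5_3 h, neg_zero]
theorem m6_2 (h : Eng A) (a b : A) : w6 a b * w2 a b = 0 := (wt4_3 h a b).2
theorem r2_6 (h : Eng A) (a b : A) : w2 a b * w6 a b = 0 := by
  rw [h.ac, m6_2 h, neg_zero]

theorem m8_1 (a b : A) : w8 a b * w1 a b = w10 a b := rfl
theorem r1_8 (h : Eng A) (a b : A) : w1 a b * w8 a b = -(w10 a b) := by
  rw [h.ac, m8_1]; try abel
theorem wt3_4 (h : Eng A) (a b : A) :
    (w5 a b * w4 a b = 0) ∧
    (w7 a b * w2 a b = 0) := by
  have c4_5 : w4 a b * w5 a b = -(w5 a b * w4 a b) := h.ac _ _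
  have c2_7 : w2 a b * w7 a b = -(w7 a b * w2 a b) := h.ac _ _
  have t0 := h.e2 (w2 a b) (w2 a b) (w1 a b)
  simp only [h.sq (w2 a b), m2_1 a b, m4_2 a b, add_mul, sub_mul, neg_mul, zero_mul, add_zero, zero_add, neg_zero, neg_neg, sub_zero, zero_sub] at t0
  have t1 := h.e3 (w1 a b) (w0 a b) (w1 a b) (w5 a b)
  simp only [c4_5, h.sq (w1 a b), m1_0 a b, m2_1 a b, m7_0 h a b, m7_1 h a b, m8_1 a b, r1_5 h a b, r2_5 h a b, add_mul, sub_mul, neg_mul, zero_mul, add_zero, zero_add, neg_zero, neg_neg, sub_zero, zero_sub] at t1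
  refine ⟨?_, ?_⟩
  · linear_combination (norm := module) (-1 : ℤ) • t1
  · linear_combination (norm := module) (1 : ℤ) • t0
theorem m5_4 (h : Eng A) (a b : A) : w5 a b * w4 a b = 0 := (wt3_4 h a b).1
theorem r4_5 (h : Eng A) (a b : A) : w4 a b * w5 a b = 0 := by
  rw [h.ac, m5_4 h, neg_zero]
theorem m7_2 (h : Eng A) (a b : A) : w7 a b * w2 a b = 0 := (wt3_4 h a b).2
theorem r2_7 (h : Eng A) (a b : A) : w2 a b * w7 a b = 0 := by
  rw [h.ac, m7_2 h, neg_zero]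

theorem wt5_3 (h : Eng A) (a b : A) :
    (w6 a b * w3 a b = 0) ∧
    (w9 a b * w0 a b = 0) := by
  have c3_6 : w3 a b * w6 a b = -(w6 a b * w3 a b) := h.ac _ _
  have c0_9 : w0 a b * w9 a b = -(w9 a b * w0 a b) := h.ac _ _
  have t0 := h.e1 (w7 a b) (w0 a b)
  simp only [m7_0 h a b, m8_0 a b, add_mul, sub_mul, neg_mul, zero_mul, add_zero, zero_add, neg_zero, neg_neg, sub_zero, zero_sub] at t0
  have t1 := h.e3 (w3 a b) (w0 a b) (w1 a b) (w3 a b)
  simp only [h.sq (w3 a b), m3_0 h a b, m3_1 a b, m5_0 h a b, m5_3 h a b, add_mul, sub_mul, neg_mul, zero_mul, add_zero, zero_add, neg_zero, neg_neg, sub_zero, zero_sub] at t1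
  refine ⟨?_, ?_⟩
  · linear_combination (norm := module) (-1 : ℤ) • t1
  · linear_combination (norm := module) (-1 : ℤ) • t0
theorem m6_3 (h : Eng A) (a b : A) : w6 a b * w3 a b = 0 := (wt5_3 h a b).1
theorem r3_6 (h : Eng A) (a b : A) : w3 a b * w6 a b = 0 := by
  rw [h.ac, m6_3 h, neg_zero]
theorem m9_0 (h : Eng A) (a b : A) : w9 a b * w0 a b = 0 := (wt5_3 h a b).2
theorem r0_9 (h : Eng A) (a b : A) : w0 a b * w9 a b = 0 := by
  rw [h.ac, m9_0 h, neg_zero]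

theorem m8_2 (a b : A) : w8 a b * w2 a b = w11 a b := rfl
theorem r2_8 (h : Eng A) (a b : A) : w2 a b * w8 a b = -(w11 a b) := by
  rw [h.ac, m8_2]; try abel
theorem m9_1 (a b : A) : w9 a b * w1 a b = w12 a b := rfl
theorem r1_9 (h : Eng A) (a b : A) : w1 a b * w9 a b = -(w12 a b) := by
  rw [h.ac, m9_1]; try abel
theorem wt4_4 (h : Eng A) (a b : A) :
    (w6 a b * w4 a b = 0) ∧
    (w7 a b * w3 a b = 0) ∧
    (w10 a b * w0 a b = -(w12 a b)) := by
  have c4_6 : w4 a b * w6 a b = -(w6 a b * w4 a b) := h.ac _ _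
  have c3_7 : w3 a b * w7 a b = -(w7 a b * w3 a b) := h.ac _ _
  have c0_10 : w0 a b * w10 a b = -(w10 a b * w0 a b) := h.ac _ _
  have t0 := h.e2 (w4 a b) (w0 a b) (w4 a b)
  simp only [h.sq (w4 a b), m4_0 h a b, m5_0 h a b, m5_4 h a b, add_mul, sub_mul, neg_mul, zero_mul, add_zero, zero_add, neg_zero, neg_neg, sub_zero, zero_sub] at t0
  have t1 := h.e2 (w1 a b) (w0 a b) (w7 a b)
  simp only [c3_7, m1_0 a b, m2_0 a b, r1_7 h a b, r2_7 h a b, add_mul, sub_mul, neg_mul, zero_mul, add_zero, zero_add, neg_zero, neg_neg, sub_zero, zero_sub] at t1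
  have t2 := h.e2 (w7 a b) (w0 a b) (w1 a b)
  simp only [m7_0 h a b, m7_1 h a b, m8_0 a b, m8_1 a b, m9_1 a b, add_mul, sub_mul, neg_mul, zero_mul, add_zero, zero_add, neg_zero, neg_neg, sub_zero, zero_sub] at t2
  refine ⟨?_, ?_, ?_⟩
  · linear_combination (norm := module) (1 : ℤ) • t0
  · linear_combination (norm := module) (-1 : ℤ) • t1
  · linear_combination (norm := module) (-1 : ℤ) • t2
theorem m6_4 (h : Eng A) (a b : A) : w6 a b * w4 a b = 0 := (wt4_4 h a b).1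
theorem r4_6 (h : Eng A) (a b : A) : w4 a b * w6 a b = 0 := by
  rw [h.ac, m6_4 h, neg_zero]
theorem m7_3 (h : Eng A) (a b : A) : w7 a b * w3 a b = 0 := (wt4_4 h a b).2.1
theorem r3_7 (h : Eng A) (a b : A) : w3 a b * w7 a b = 0 := by
  rw [h.ac, m7_3 h, neg_zero]
theorem m10_0 (h : Eng A) (a b : A) : w10 a b * w0 a b = -(w12 a b) := (wt4_4 h a b).2.2
theorem r0_10 (h : Eng A) (a b : A) : w0 a b * w10 a b = w12 a b := by
  rw [h.ac, m10_0 h]; try abel

theorem wt3_5 (h : Eng A) (a b : A) :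
    (w7 a b * w4 a b = 0) ∧
    (w10 a b * w1 a b = 0) := by
  have c4_7 : w4 a b * w7 a b = -(w7 a b * w4 a b) := h.ac _ _
  have c1_10 : w1 a b * w10 a b = -(w10 a b * w1 a b) := h.ac _ _
  have t0 := h.e2 (w7 a b) (w1 a b) (w0 a b)
  simp only [m7_0 h a b, m7_1 h a b, m8_1 a b, add_mul, sub_mul, neg_mul, zero_mul, add_zero, zero_add, neg_zero, neg_neg, sub_zero, zero_sub] at t0
  have t1 := h.e3 (w4 a b) (w0 a b) (w1 a b) (w4 a b)
  simp only [h.sq (w4 a b), m4_0 h a b, m4_1 h a b, m5_1 h a b, m5_4 h a b, add_mul, sub_mul, neg_mul, zero_mul, add_zero, zero_add, neg_zero, neg_neg, sub_zero, zero_sub] at t1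
  refine ⟨?_, ?_⟩
  · linear_combination (norm := module) (1 : ℤ) • t1
  · linear_combination (norm := module) (-1 : ℤ) • t0
theorem m7_4 (h : Eng A) (a b : A) : w7 a b * w4 a b = 0 := (wt3_5 h a b).1
theorem r4_7 (h : Eng A) (a b : A) : w4 a b * w7 a b = 0 := by
  rw [h.ac, m7_4 h, neg_zero]
theorem m10_1 (h : Eng A) (a b : A) : w10 a b * w1 a b = 0 := (wt3_5 h a b).2
theorem r1_10 (h : Eng A) (a b : A) : w1 a b * w10 a b = 0 := by
  rw [h.ac, m10_1 h, neg_zero]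

end Pool.Agent.H461R3.E3
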