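import Pool.Agent.H461R3.E3.Solv

set_option autoImplicit false
set_option linter.unusedSectionVars false

/-! Finite-dimensional anticommutative 3-Engel algebras are nilpotent. -/

namespace Pool.Agent.H461R3.E3

universe u v w

/-- anticommutative 3-Engel identities, polarised, valid in every characteristic -/
structure Ids (A : Type v) [NonUnitalNonAssocRing A] : Prop where
  ac : ∀ x y : A, x * y = -(y * x)
  e1 : ∀ x y : A, ((x * y) * y) * y = 0
  e2 : ∀ x y z : A, ((x * y) * y) * z + ((x * y) * z) * y + ((x * z) * y) * y = 0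
  e3 : ∀ x y z t : A, ((x * y) * z) * t + ((x * y) * t) * z + ((x * z) * y) * t +
    ((x * z) * t) * y + ((x * t) * y) * z + ((x * t) * z) * y = 0

variable {F : Type u} [Field F] {A : Type v} [NonUnitalNonAssocRing A] [Module F A]
variable [IsScalarTower F A A] [SMulCommClass F A A]

theorem e3_of (hF : ∃ m : F, m ≠ 0 ∧ m ≠ 1) (h0 : Anticommutative A)
    (h1 : ThreeEngel A) : Ids A := by
  obtain ⟨c, hc, hc1⟩ := hF
  have ac : ∀ x y : A, x * y = -(y * x) := by
    intro x y
    have h2 := h0 (x + y)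
    rw [add_mul, mul_add, mul_add, h0 x, h0 y, zero_add, add_zero] at h2
    exact eq_neg_of_add_eq_zero_left h2
  have e2 := fun x y z : A => pol2 h1 hc hc1 x y z
  refine ⟨ac, h1, e2, ?_⟩
  intro x y z t
  have ha := e2 x (y + z) t
  have hb := e2 x y t
  have hd := e2 x z t
  simp only [add_mul, mul_add] at ha
  linear_combination (norm := module) ha - hb - hd

/-- the span of the products of elements of `X` with elements of `E` -/
def MulS (X E : Submodule F A) : Submodule F A :=
  Submodule.span F {y | ∃ u ∈ X, ∃ g ∈ E, y = u * g}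

/-- `X + X m` -/
def JJ (X : Submodule F A) (m : A) : Submodule F A :=
  X ⊔ Submodule.map (LinearMap.mulRight F m) X

theorem mem_JJ {X : Submodule F A} {m u : A} (hu : u ∈ JJ X m) :
    ∃ x ∈ X, ∃ y ∈ X, u = x + y * m := by
  obtain ⟨x, hx, z, hz, rfl⟩ := Submodule.mem_sup.1 hu
  obtain ⟨y, hy, rfl⟩ := Submodule.mem_map.1 hz
  exact ⟨x, hx, y, hy, rfl⟩

theorem JJ_mem {X : Submodule F A} {m x y : A} (hx : x ∈ X) (hy : y ∈ X) :
    x + y * m ∈ JJ X m :=
  Submodule.add_mem _ (Submodule.mem_sup_left hx)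
    (Submodule.mem_sup_right (Submodule.mem_map.2 ⟨y, hy, rfl⟩))

/-- Key property (K), modulo `D`: `J` and `D` are stable under `E` and `m`, `v g g = 0`, and
right multiplications after `g` can be moved before `g`. -/
structure Key (J D E : Submodule F A) (m : A) : Prop where
  stE : ∀ u ∈ J, ∀ g ∈ E, u * g ∈ J
  stm : ∀ u ∈ J, u * m ∈ J
  stE' : ∀ u ∈ D, ∀ g ∈ E, u * g ∈ D
  stm' : ∀ u ∈ D, u * m ∈ D
  dbl : ∀ u ∈ J, ∀ g ∈ E, (u * g) * g ∈ D
  anti : ∀ u ∈ J, ∀ g ∈ E, ∀ h ∈ E, (u * g) * h + (u * h) * g ∈ D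
  mov : ∀ u ∈ J, ∃ v ∈ J, ∀ g ∈ E, (u * g) * m + v * g ∈ D

theorem stab (hA : Ids A) {E X Y : Submodule F A} {m : A} (hEm : ∀ g ∈ E, g * m ∈ E)
    (hEE : ∀ g ∈ E, ∀ h ∈ E, g * h ∈ E) (hXY : X = MulS Y E)
    (hXX : ∀ x ∈ X, ∀ g ∈ E, x * g ∈ X) :
    (∀ u ∈ JJ X m, ∀ g ∈ E, u * g ∈ JJ X m) ∧ (∀ u ∈ JJ X m, u * m ∈ JJ X m) := by
  have inX : ∀ y ∈ Y, ∀ g ∈ E, g * y ∈ X := by
    intro y hy g hg
    rw [hA.ac, hXY]
    exact Submodule.neg_mem _ (Submodule.subset_span ⟨y, hy, g, hg, rfl⟩)
  have base : ∀ x ∈ X, x ∈ JJ X m := fun x hx => Submodule.mem_sup_left hx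
  have basem : ∀ x ∈ X, x * m ∈ JJ X m := fun x hx =>
    Submodule.mem_sup_right (Submodule.mem_map.2 ⟨x, hx, rfl⟩)
  have mm : ∀ x ∈ X, (x * m) * m ∈ JJ X m := by
    intro x hx
    rw [hXY] at hx
    refine Submodule.span_induction (p := fun x _ => (x * m) * m ∈ JJ X m) ?_ ?_ ?_ ?_ hx
    · rintro x ⟨f, hf, e, he, rfl⟩
      have h := hA.e2 e m f
      rw [hA.ac e f] at h
      have t1 : ((e * m) * m) * f ∈ JJ X m := base _ (inX f hf _ (hEm _ (hEm e he)))
      have t2 : ((e * m) * f) * m ∈ JJ X m := basem _ (inX f hf _ (hEm e he))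
      have t := Submodule.add_mem _ t1 t2
      convert t using 1
      simp only [neg_mul] at h
      linear_combination (norm := abel) -h
    · rw [zero_mul, zero_mul]; exact Submodule.zero_mem _
    · intro y z _ _ h1 h2
      rw [add_mul, add_mul]; exact Submodule.add_mem _ h1 h2
    · intro c y _ h1
      rw [smul_mul_assoc, smul_mul_assoc]; exact Submodule.smul_mem _ c h1
  have mg : ∀ x ∈ X, ∀ g ∈ E, (x * m) * g ∈ JJ X m := by
    intro x hx g hg
    rw [hXY] at hx
    refine Submodule.span_induction (p := fun x _ => (x * m) * g ∈ JJ X m) ?_ ?_ ?_ ?_ hx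
    · rintro x ⟨f, hf, e, he, rfl⟩
      have h := hA.e3 e f m g
      have z1 : ((e * f) * g) * m ∈ JJ X m := basem _ (hXX _ (inX f hf e he) g hg)
      have z2 : ((e * m) * f) * g ∈ JJ X m := base _ (hXX _ (inX f hf _ (hEm e he)) g hg)
      have t1 : ((e * m) * g) * f ∈ JJ X m := base _ (inX f hf _ (hEE _ (hEm e he) g hg))
      have t2 : ((e * g) * f) * m ∈ JJ X m := basem _ (inX f hf _ (hEE e he g hg))
      have t3 : ((e * g) * m) * f ∈ JJ X m := base _ (inX f hf _ (hEm _ (hEE e he g hg)))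
      have t := Submodule.add_mem _ (Submodule.add_mem _ (Submodule.add_mem _
        (Submodule.add_mem _ t1 t2) t3) z1) z2
      convert t using 1
      rw [hA.ac f e]
      simp only [neg_mul]
      linear_combination (norm := abel) -h
    · rw [zero_mul, zero_mul]; exact Submodule.zero_mem _
    · intro y z _ _ h1 h2
      rw [add_mul, add_mul]; exact Submodule.add_mem _ h1 h2
    · intro c y _ h1
      rw [smul_mul_assoc, smul_mul_assoc]; exact Submodule.smul_mem _ c h1
  refine ⟨?_, ?_⟩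
  · intro u hu g hg
    obtain ⟨x, hx, y, hy, rfl⟩ := mem_JJ hu
    rw [add_mul]
    exact Submodule.add_mem _ (base _ (hXX x hx g hg)) (mg y hy g hg)
  · intro u hu
    obtain ⟨x, hx, y, hy, rfl⟩ := mem_JJ hu
    rw [add_mul]
    exact Submodule.add_mem _ (basem x hx) (mm y hy)

theorem key_of (hA : Ids A) {E X D : Submodule F A} {m : A}
    (hJ : (∀ u ∈ JJ X m, ∀ g ∈ E, u * g ∈ JJ X m) ∧ (∀ u ∈ JJ X m, u * m ∈ JJ X m))
    (hD : (∀ u ∈ D, ∀ g ∈ E, u * g ∈ D) ∧ (∀ u ∈ D, u * m ∈ D))
    (hX0 : ∀ x ∈ X, ∀ g ∈ E, x * g ∈ D) : Key (JJ X m) D E m := by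
  refine ⟨hJ.1, hJ.2, hD.1, hD.2, ?_, ?_, ?_⟩
  · intro u hu g hg
    obtain ⟨x, hx, y, hy, rfl⟩ := mem_JJ hu
    have h := hA.e2 y g m
    have t1 : ((x * g) * g) ∈ D := hD.1 _ (hX0 x hx g hg) g hg
    have t2 : ((y * g) * g) * m ∈ D := hD.2 _ (hD.1 _ (hX0 y hy g hg) g hg)
    have t3 : ((y * g) * m) * g ∈ D := hD.1 _ (hD.2 _ (hX0 y hy g hg)) g hg
    have t := Submodule.sub_mem _ t1 (Submodule.add_mem _ t2 t3)
    convert t using 1
    rw [add_mul, add_mul]
    linear_combination (norm := abel) h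
  · intro u hu g hg h hh
    obtain ⟨x, hx, y, hy, rfl⟩ := mem_JJ hu
    have k := hA.e3 y m g h
    have t1 : (x * g) * h ∈ D := hD.1 _ (hX0 x hx g hg) h hh
    have t2 : (x * h) * g ∈ D := hD.1 _ (hX0 x hx h hh) g hg
    have t3 : ((y * g) * m) * h ∈ D := hD.1 _ (hD.2 _ (hX0 y hy g hg)) h hh
    have t4 : ((y * g) * h) * m ∈ D := hD.2 _ (hD.1 _ (hX0 y hy g hg) h hh)
    have t5 : ((y * h) * m) * g ∈ D := hD.1 _ (hD.2 _ (hX0 y hy h hh)) g hg
    have t6 : ((y * h) * g) * m ∈ D := hD.2 _ (hD.1 _ (hX0 y hy h hh) g hg)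
    have t := Submodule.sub_mem _ (Submodule.add_mem _ t1 t2) (Submodule.add_mem _
      (Submodule.add_mem _ (Submodule.add_mem _ t3 t4) t5) t6)
    convert t using 1
    rw [add_mul, add_mul, add_mul, add_mul]
    linear_combination (norm := abel) k
  · intro u hu
    obtain ⟨x, hx, y, hy, rfl⟩ := mem_JJ hu
    have hyJ : y * m ∈ JJ X m := Submodule.mem_sup_right (Submodule.mem_map.2 ⟨y, hy, rfl⟩)
    refine ⟨(y * m) * m, hJ.2 _ hyJ, ?_⟩
    intro g hg
    have k := hA.e2 y m g
    have t1 : (x * g) * m ∈ D := hD.2 _ (hX0 x hx g hg)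
    have t2 : ((y * g) * m) * m ∈ D := hD.2 _ (hD.2 _ (hX0 y hy g hg))
    have t := Submodule.sub_mem _ t1 t2
    convert t using 1
    rw [add_mul, add_mul]
    linear_combination (norm := abel) k

/-- letters: `none` is `m`, `some i` is `e i` -/
def xl {ι : Type w} (m : A) (e : ι → A) : Option ι → A
  | none => m
  | some i => e i

section
variable {ι : Type w} {J D E : Submodule F A} {m : A} {e : ι → A}

theorem key_memD (hK : Key J D E m) (he : ∀ i, e i ∈ E) (l : List (Option ι)) :
    ∀ u ∈ D, ev (xl m e) u l ∈ D := by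
  induction l with
  | nil => intro u hu; exact hu
  | cons a l ih =>
    intro u hu
    rw [ev_cons]
    refine ih _ ?_
    cases a with
    | none => exact hK.stm' u hu
    | some i => exact hK.stE' u hu _ (he i)

theorem key_rep (hK : Key J D E m) (he : ∀ i, e i ∈ E) (i : ι) (q q' : List (Option ι)) :
    ∀ v ∈ J, ev (xl m e) (v * e i) (q ++ some i :: q') ∈ D := by
  induction q with
  | nil =>
    intro v hv
    rw [List.nil_append, ev_cons]
    exact key_memD hK he q' _ (hK.dbl v hv _ (he i))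
  | cons a q ih =>
    intro v hv
    rw [List.cons_append, ev_cons]
    cases a with
    | none =>
      obtain ⟨v', hv', h⟩ := hK.mov v hv
      have h1 := key_memD hK he (q ++ some i :: q') _ (h _ (he i))
      rw [ev_add] at h1
      exact (Submodule.add_mem_iff_left _ (ih v' hv')).1 h1
    | some j =>
      have h1 := key_memD hK he (q ++ some i :: q') _ (hK.anti v hv _ (he i) _ (he j))
      rw [ev_add] at h1
      exact (Submodule.add_mem_iff_left _ (ih _ (hK.stE v hv _ (he j)))).1 h1

/-- the letters `some i` of a word are pairwise different, for a nonvanishing word -/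
theorem key_nodup (hK : Key J D E m) (he : ∀ i, e i ∈ E) {l : List (Option ι)} {u : A}
    (hu : u ∈ J) (hl : ev (xl m e) u l ∉ D) : l.reduceOption.Nodup := by
  induction l generalizing u with
  | nil => exact List.nodup_nil
  | cons a l ih =>
    cases a with
    | none =>
      rw [List.reduceOption_cons_of_none]
      rw [ev_cons] at hl
      exact ih (hK.stm u hu) hl
    | some i =>
      rw [List.reduceOption_cons_of_some, List.nodup_cons]
      refine ⟨?_, ?_⟩
      · intro hi
        rw [List.reduceOption_mem_iff] at hi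
        obtain ⟨q, q', rfl⟩ := List.append_of_mem hi
        rw [ev_cons] at hl
        exact hl (key_rep hK he i q q' u hu)
      · rw [ev_cons] at hl
        exact ih (hK.stE u hu _ (he i)) hl

theorem len_bound (h3 : ∀ x : A, ((x * m) * m) * m = 0) (n : ℕ) :
    ∀ (l : List (Option ι)), l.length = n → ∀ (u : A), ev (xl m e) u l ∉ D →
      l.length ≤ 3 * l.reduceOption.length + 2 := by
  induction n using Nat.strong_induction_on with
  | _ n ih =>
    intro l hln u hl
    match l, hln, hl with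
    | [], _, _ => simp
    | some i :: l, hln, hl =>
      rw [List.reduceOption_cons_of_some, List.length_cons, List.length_cons]
      rw [ev_cons] at hl
      have := ih l.length (by simp at hln; omega) l rfl _ hl
      omega
    | [none], _, _ => simp
    | none :: some i :: l, hln, hl =>
      rw [List.reduceOption_cons_of_none, List.reduceOption_cons_of_some, List.length_cons,
        List.length_cons, List.length_cons]
      rw [ev_cons, ev_cons] at hl
      have := ih l.length (by simp at hln; omega) l rfl _ hl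
      omega
    | [none, none], _, _ => simp
    | none :: none :: some i :: l, hln, hl =>
      rw [List.reduceOption_cons_of_none, List.reduceOption_cons_of_none,
        List.reduceOption_cons_of_some]
      simp only [List.length_cons]
      rw [ev_cons, ev_cons, ev_cons] at hl
      have := ih l.length (by simp at hln; omega) l rfl _ hl
      omega
    | none :: none :: none :: l, hln, hl =>
      exfalso
      rw [ev_cons, ev_cons, ev_cons] at hl
      apply hl
      have : u * xl m e none * xl m e none * xl m e none = 0 := h3 u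
      rw [this, ev_zero]
      exact Submodule.zero_mem _

theorem key_kill [Fintype ι] (hK : Key J D E m) (he : ∀ i, e i ∈ E)
    (h3 : ∀ x : A, ((x * m) * m) * m = 0) (l : List (Option ι))
    (hl : 3 * Fintype.card ι + 2 < l.length) (u : A) (hu : u ∈ J) : ev (xl m e) u l ∈ D := by
  by_contra h
  have h1 := (key_nodup hK he hu h).length_le_card
  have h2 := len_bound (D := D) h3 l.length l rfl u h
  omega

end

/-- right-nested powers -/
def RP (E : Submodule F A) : ℕ → Submodule F A
  | 0 => E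
  | n + 1 => MulS (RP E n) E

theorem RP_le {E : Submodule F A} (hEE : ∀ g ∈ E, ∀ h ∈ E, g * h ∈ E) (n : ℕ) : RP E n ≤ E := by
  induction n with
  | zero => exact le_rfl
  | succ n ih =>
    apply Submodule.span_le.2
    rintro y ⟨u, hu, g, hg, rfl⟩
    exact hEE u (ih hu) g hg

theorem MulS_mono {X Y E : Submodule F A} (h : X ≤ Y) : MulS X E ≤ MulS Y E := by
  apply Submodule.span_mono
  rintro y ⟨u, hu, g, hg, rfl⟩
  exact ⟨u, h hu, g, hg, rfl⟩

theorem RP_anti {E : Submodule F A} (hEE : ∀ g ∈ E, ∀ h ∈ E, g * h ∈ E) (n : ℕ) :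
    RP E (n + 1) ≤ RP E n := by
  induction n with
  | zero => exact RP_le hEE 1
  | succ n ih => exact MulS_mono ih

theorem RP_mul {E : Submodule F A} {n : ℕ} {x g : A} (hx : x ∈ RP E n) (hg : g ∈ E) :
    x * g ∈ RP E (n + 1) := Submodule.subset_span ⟨x, hx, g, hg, rfl⟩

theorem stab_all (hA : Ids A) {E : Submodule F A} {m : A} (hEm : ∀ g ∈ E, g * m ∈ E)
    (hEE : ∀ g ∈ E, ∀ h ∈ E, g * h ∈ E) (n : ℕ) :
    (∀ u ∈ JJ (RP E n) m, ∀ g ∈ E, u * g ∈ JJ (RP E n) m) ∧
    (∀ u ∈ JJ (RP E n) m, u * m ∈ JJ (RP E n) m) := by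
  cases n with
  | zero =>
    have hJE : ∀ u ∈ JJ (RP E 0) m, u ∈ E := by
      intro u hu
      obtain ⟨x, hx, y, hy, rfl⟩ := mem_JJ hu
      exact Submodule.add_mem _ hx (hEm y hy)
    exact ⟨fun u hu g hg => Submodule.mem_sup_left (hEE u (hJE u hu) g hg),
      fun u hu => Submodule.mem_sup_left (hEm u (hJE u hu))⟩
  | succ n =>
    exact stab hA hEm hEE rfl fun x hx g hg => RP_anti hEE _ (RP_mul hx hg)

/-- Words in a basis of `E` and `m` kill `E`. -/
theorem kill_all {ι : Type w} [Fintype ι] (hA : Ids A) {E : Submodule F A} {m : A}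
    (hEm : ∀ g ∈ E, g * m ∈ E) (hEE : ∀ g ∈ E, ∀ h ∈ E, g * h ∈ E) {e : ι → A}
    (he : ∀ i, e i ∈ E) (n : ℕ) : ∀ (l : List (Option ι)),
      l.length = n * (3 * Fintype.card ι + 3) → ∀ u ∈ E, ev (xl m e) u l ∈ JJ (RP E n) m := by
  induction n with
  | zero =>
    intro l hl u hu
    have : l = [] := List.length_eq_zero_iff.1 (by simpa using hl)
    subst this
    exact Submodule.mem_sup_left hu
  | succ n ih =>
    intro l hl u hu
    rw [← List.take_append_drop (n * (3 * Fintype.card ι + 3)) l, ev_append]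
    have hlt : n * (3 * Fintype.card ι + 3) ≤ l.length := by
      rw [hl]; exact Nat.mul_le_mul_right _ (Nat.le_succ n)
    have h1 := ih (l.take (n * (3 * Fintype.card ι + 3)))
      (by rw [List.length_take]; omega) u hu
    have hK : Key (JJ (RP E n) m) (JJ (RP E (n + 1)) m) E m :=
      key_of hA (stab_all hA hEm hEE n) (stab_all hA hEm hEE (n + 1))
        fun x hx g hg => Submodule.mem_sup_left (RP_mul hx hg)
    refine key_kill hK he (fun x => hA.e1 x m) _ ?_ _ h1
    have e1 : (n + 1) * (3 * Fintype.card ι + 3) =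
      n * (3 * Fintype.card ι + 3) + (3 * Fintype.card ι + 3) := Nat.succ_mul _ _
    rw [List.length_drop, hl, e1, Nat.add_sub_cancel_left]
    omega

end Pool.Agent.H461R3.E3
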