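import Pool.Agent.H461R3.E3.EngelTwo

set_option autoImplicit false
set_option linter.unusedSectionVars false

/-! Anticommutative 3-Engel algebras with the maximal condition on subalgebras. -/

namespace Pool.Agent.H461R3.E3

universe u v w

variable {F : Type u} [Field F] {A : Type v} [NonUnitalNonAssocRing A] [Module F A]
variable [IsScalarTower F A A] [SMulCommClass F A A]

theorem engel_max (hF : ∃ m : F, m ≠ 0 ∧ m ≠ 1) (h0 : Anticommutative A)
    (h1 : ThreeEngel A)
    (hmax : WellFounded ((· > ·) : NonUnitalSubalgebra F A → NonUnitalSubalgebra F A → Prop)) :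
    FiniteDimensional F A ∧ NilpSub (⊤ : NonUnitalSubalgebra F A) := by
  have hA := e3_of hF h0 h1
  let 𝒮 : Set (NonUnitalSubalgebra F A) :=
    {E | FiniteDimensional F E.toSubmodule ∧ NilpSub E}
  have hne : 𝒮.Nonempty := by
    refine ⟨⊥, ?_, 0, ?_⟩
    · have : (⊥ : NonUnitalSubalgebra F A).toSubmodule = ⊥ := by
        rw [eq_bot_iff]
        intro x hx
        exact (Submodule.mem_bot F).2 (NonUnitalAlgebra.mem_bot.1 hx)
      rw [this]
      infer_instance
    · intro x hx
      have := isProd_mem hx
      exact NonUnitalAlgebra.mem_bot.1 this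
  obtain ⟨E, ⟨hfd, hE⟩, hm⟩ := hmax.has_min 𝒮 hne
  by_cases htop : E = ⊤
  · refine ⟨?_, htop ▸ hE⟩
    have h2 : E.toSubmodule = ⊤ := by
      rw [eq_top_iff]
      intro x _
      change x ∈ E
      rw [htop]
      exact NonUnitalAlgebra.mem_top
    rw [h2] at hfd
    exact Module.Finite.equiv (Submodule.topEquiv (R := F) (M := A))
  · exfalso
    obtain ⟨a, ha⟩ : ∃ a : A, a ∉ E := by
      by_contra h
      push Not at h
      exact htop (by ext x; simp [h x])
    have hfd' : FiniteDimensional F E := hfd
    obtain ⟨c, hc⟩ := hE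
    obtain ⟨m, hmm, hmE⟩ := exists_norm E _ a ha (fun l hl hlE => by
      rw [nilp_acts (act_of hF h0 h1) E c hc a l hl hlE]
      exact zero_mem E)
    obtain ⟨E', hE', hnil⟩ := ext_nilp hA h0 E ⟨c, hc⟩ m (by
      intro g hg
      rw [hA.ac]
      exact neg_mem (hmE g hg))
    refine hm E' ⟨?_, hnil⟩ ?_
    · rw [hE']
      infer_instance
    · refine lt_of_le_of_ne ?_ ?_
      · intro x hx
        have : x ∈ E'.toSubmodule := by rw [hE']; exact Submodule.mem_sup_left hx
        exact this
      · intro heq
        apply hmm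
        have : m ∈ E'.toSubmodule := by
          rw [hE']; exact Submodule.mem_sup_right (Submodule.mem_span_singleton_self m)
        rw [← heq] at this
        exact this

/-- the maximal condition holds in finite-dimensional algebras -/
theorem wf_of_fd [FiniteDimensional F A] :
    WellFounded ((· > ·) : NonUnitalSubalgebra F A → NonUnitalSubalgebra F A → Prop) := by
  have h := (wellFounded_gt (α := Submodule F A))
  refine Subrelation.wf (r := InvImage (· > ·) (fun E : NonUnitalSubalgebra F A => E.toSubmodule))
    ?_ (InvImage.wf _ h)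
  intro E E' hlt
  change E'.toSubmodule < E.toSubmodule
  refine lt_of_le_of_ne (fun x hx => hlt.le hx) ?_
  intro heq
  apply hlt.ne
  ext x
  have : x ∈ E'.toSubmodule ↔ x ∈ E.toSubmodule := by rw [heq]
  exact this

end Pool.Agent.H461R3.E3
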