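import Pool.Agent.H461R3.E3.EngelTwo

set_option autoImplicit false
set_option linter.unusedSectionVars false

/-! Finite-dimensional subalgebras of anticommutative 3-Engel algebras are nilpotent. -/

namespace Pool.Agent.H461R3.E3

universe u v w

variable {F : Type u} [Field F] {A : Type v} [NonUnitalNonAssocRing A] [Module F A]
variable [IsScalarTower F A A] [SMulCommClass F A A]

theorem isProd_lift {E : NonUnitalSubalgebra F A} {n : ℕ} {y : A}
    (h : IsProd (E : Set A) n y) :
    ∃ x : E, (x : A) = y ∧ IsProd ((⊤ : NonUnitalSubalgebra F E) : Set E) n x := by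
  induction h with
  | @base y hy => exact ⟨⟨y, hy⟩, rfl, IsProd.base (by simp)⟩
  | @mul m n y z _ _ h1 h2 =>
    obtain ⟨a, rfl, ha⟩ := h1
    obtain ⟨b, rfl, hb⟩ := h2
    exact ⟨a * b, rfl, IsProd.mul ha hb⟩

theorem engel_sub (hF : ∃ m : F, m ≠ 0 ∧ m ≠ 1) (h0 : Anticommutative A)
    (h1 : ThreeEngel A) (E : NonUnitalSubalgebra F A) [FiniteDimensional F E] :
    NilpSub E := by
  have h0' : Anticommutative E := fun x => Subtype.ext (h0 x)
  have h1' : ThreeEngel E := fun x y => Subtype.ext (h1 x y)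
  obtain ⟨c, hc⟩ := engel (F := F) (A := E) hF h0' h1'
  refine ⟨c, fun y hy => ?_⟩
  obtain ⟨x, rfl, hx⟩ := isProd_lift hy
  rw [hc x hx]
  rfl

end Pool.Agent.H461R3.E3
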