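import Pool.Agent.H461R3.E3.Engel

set_option autoImplicit false
set_option linter.unusedSectionVars false

/-! Finite-dimensional anticommutative 3-Engel algebras are nilpotent: conclusion. -/

namespace Pool.Agent.H461R3.E3

universe u v w

variable {F : Type u} [Field F] {A : Type v} [NonUnitalNonAssocRing A] [Module F A]
variable [IsScalarTower F A A] [SMulCommClass F A A]

/-- nilpotency of a subalgebra: for some `c` all products of `c + 1` elements vanish -/
def NilpSub (E : NonUnitalSubalgebra F A) : Prop :=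
  ∃ c : ℕ, ∀ x : A, IsProd (E : Set A) (c + 1) x → x = 0

theorem RP_prod {E : NonUnitalSubalgebra F A} {c : ℕ}
    (hE : ∀ x : A, IsProd (E : Set A) (c + 1) x → x = 0) : RP E.toSubmodule c = ⊥ := by
  have key : ∀ n, RP E.toSubmodule n ≤ Submodule.span F {y | IsProd (E : Set A) (n + 1) y} := by
    intro n
    induction n with
    | zero => intro x hx; exact Submodule.subset_span (IsProd.base hx)
    | succ n ih =>
      apply Submodule.span_le.2
      rintro y ⟨u, hu, g, hg, rfl⟩
      refine Submodule.span_induction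
        (p := fun u _ => u * g ∈ Submodule.span F {y | IsProd (E : Set A) (n + 1 + 1) y})
        ?_ ?_ ?_ ?_ (ih hu)
      · intro u hu
        exact Submodule.subset_span (IsProd.mul hu (IsProd.base hg))
      · rw [zero_mul]; exact Submodule.zero_mem _
      · intro y z _ _ h1 h2
        rw [add_mul]; exact Submodule.add_mem _ h1 h2
      · intro c y _ h1
        rw [smul_mul_assoc]; exact Submodule.smul_mem _ c h1
  rw [eq_bot_iff]
  refine (key c).trans (Submodule.span_le.2 ?_)
  intro y hy
  exact hE y hy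

theorem chainE (hA : Ids A) (E : NonUnitalSubalgebra F A) :
    ∀ k n, 2 ^ k ≤ n → ∀ x : A, IsProd (E : Set A) n x →
      ∃ u ∈ E, ∃ l : List A, (∀ a ∈ l, a ∈ E) ∧ l.length = k ∧ x = ev (fun a : A => a) u l := by
  intro k
  induction k with
  | zero =>
    intro n hn x hx
    exact ⟨x, isProd_mem hx, [], by simp, rfl, rfl⟩
  | succ k ih =>
    intro n hn x hx
    have h2k : 1 ≤ 2 ^ k := Nat.one_le_two_pow
    rw [pow_succ] at hn
    cases hx with
    | base _ => omega
    | @mul m' n' y z hy hz =>
      by_cases hm : 2 ^ k ≤ m'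
      · obtain ⟨u, hu, l, hlE, hl, rfl⟩ := ih m' hm y hy
        refine ⟨u, hu, l ++ [z], ?_, by simp [hl], by rw [ev_append]; rfl⟩
        intro a ha
        rcases List.mem_append.1 ha with h | h
        · exact hlE a h
        · rw [List.mem_singleton.1 h]; exact isProd_mem hz
      · obtain ⟨u, hu, l, hlE, hl, rfl⟩ := ih n' (by omega) z hz
        refine ⟨-u, neg_mem hu, l ++ [y], ?_, by simp [hl], ?_⟩
        · intro a ha
          rcases List.mem_append.1 ha with h | h
          · exact hlE a h
          · rw [List.mem_singleton.1 h]; exact isProd_mem hy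
        · rw [ev_append, ev_neg, hA.ac]
          simp [ev]

/-- words in elements of a span, applied to a fixed element, restricted version -/
theorem lettersE {ι : Type w} (x : ι → A) {K : ℕ} {m : A}
    (hZ : ∀ l : List ι, l.length = K → ev x m l = 0) :
    ∀ (l : List A) (p : List ι), p.length + l.length = K →
      (∀ e ∈ l, e ∈ Submodule.span F (Set.range x)) → ev (fun a : A => a) (ev x m p) l = 0 := by
  intro l
  induction l with
  | nil =>
    intro p hp _
    rw [ev_nil]
    exact hZ p (by simpa using hp)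
  | cons e l ih =>
    intro p hp he
    rw [ev_cons]
    have he' := he e (by simp)
    have hl : ∀ e ∈ l, e ∈ Submodule.span F (Set.range x) := fun e' h' => he e' (by simp [h'])
    refine Submodule.span_induction
      (p := fun e _ => ev (fun a : A => a) (ev x m p * e) l = 0) ?_ ?_ ?_ ?_ he'
    · rintro e ⟨i, rfl⟩
      have := ih (p ++ [i]) (by simp at hp ⊢; omega) hl
      rwa [ev_append, ev_cons, ev_nil] at this
    · rw [mul_zero, ev_zero]
    · intro y z _ _ h1 h2
      rw [mul_add, ev_add, h1, h2, add_zero]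
    · intro c y _ h1
      rw [mul_smul_comm, ev_smul, h1, smul_zero]

/-- An extension of a finite-dimensional nilpotent ideal by one element is nilpotent. -/
theorem ext_nilp (hA : Ids A) (hsq : ∀ x : A, x * x = 0) (E : NonUnitalSubalgebra F A)
    [FiniteDimensional F E] (hE : NilpSub E) (m : A) (hEm : ∀ g ∈ E, g * m ∈ E) :
    ∃ E' : NonUnitalSubalgebra F A, E'.toSubmodule = E.toSubmodule ⊔ Submodule.span F {m} ∧
      NilpSub E' := by
  have hEE : ∀ g ∈ E.toSubmodule, ∀ h ∈ E.toSubmodule, g * h ∈ E.toSubmodule :=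
    fun g hg h hh => mul_mem (S := NonUnitalSubalgebra F A) hg hh
  have hprod : ∀ u ∈ E.toSubmodule ⊔ Submodule.span F {m},
      ∀ v ∈ E.toSubmodule ⊔ Submodule.span F {m}, u * v ∈ E.toSubmodule := by
    intro u hu v hv
    obtain ⟨g, hg, z, hz, rfl⟩ := Submodule.mem_sup.1 hu
    obtain ⟨h, hh, t, ht, rfl⟩ := Submodule.mem_sup.1 hv
    obtain ⟨a, rfl⟩ := Submodule.mem_span_singleton.1 hz
    obtain ⟨b, rfl⟩ := Submodule.mem_span_singleton.1 ht
    have e1 : (g + a • m) * (h + b • m) = g * h + b • (g * m) - a • (h * m) := by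
      rw [add_mul, mul_add, mul_add, mul_smul_comm, smul_mul_assoc, smul_mul_assoc,
        mul_smul_comm, hsq m, hA.ac m h]
      module
    rw [e1]
    exact Submodule.sub_mem _ (Submodule.add_mem _ (hEE g hg h hh)
      (Submodule.smul_mem _ _ (hEm g hg))) (Submodule.smul_mem _ _ (hEm h hh))
  let E' : NonUnitalSubalgebra F A :=
    { (E.toSubmodule ⊔ Submodule.span F {m}) with
      mul_mem' := fun {u v} hu hv => Submodule.mem_sup_left (hprod u hu v hv) }
  refine ⟨E', rfl, ?_⟩
  obtain ⟨c, hc⟩ := hE
  let d := Module.finrank F E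
  let b := Module.finBasis F E
  let e : Fin d → A := fun i => (b i : A)
  have he : ∀ i, e i ∈ E.toSubmodule := fun i => (b i).2
  have hspE : E.toSubmodule ≤ Submodule.span F (Set.range (xl m e)) := by
    intro y hy
    have h1 := b.sum_repr ⟨y, hy⟩
    have h2 := congrArg (fun z : E => (z : A)) h1
    simp only [NonUnitalSubalgebraClass.coe_subtype, AddSubmonoidClass.coe_finset_sum] at h2
    rw [← h2]
    refine Submodule.sum_mem _ fun j _ => ?_
    exact Submodule.smul_mem _ _ (Submodule.subset_span ⟨some j, rfl⟩)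
  have hspE' : ∀ a ∈ E', a ∈ Submodule.span F (Set.range (xl m e)) := by
    intro a ha
    have ha' : a ∈ E.toSubmodule ⊔ Submodule.span F {m} := ha
    refine (sup_le hspE ?_) ha'
    rw [Submodule.span_le, Set.singleton_subset_iff]
    exact Submodule.subset_span ⟨none, rfl⟩
  let K := c * (3 * d + 3)
  have hkill : ∀ u ∈ E.toSubmodule, ∀ l : List (Option (Fin d)), l.length = K →
      ev (xl m e) u l = 0 := by
    intro u hu l hl
    have h1 := kill_all hA (E := E.toSubmodule) hEm hEE he c l
      (by rw [hl]; simp [K]) u hu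
    rw [RP_prod hc] at h1
    obtain ⟨x, hx, y, hy, h2⟩ := mem_JJ h1
    rw [(Submodule.mem_bot F).1 hx, (Submodule.mem_bot F).1 hy, zero_mul, add_zero] at h2
    exact h2
  refine ⟨2 ^ (K + 1), ?_⟩
  intro x hx
  obtain ⟨u, hu, l, hlE, hl, rfl⟩ := chainE hA E' (K + 1) _ (Nat.le_succ _) x hx
  cases l with
  | nil => simp at hl
  | cons a l =>
    rw [ev_cons]
    have hua : u * a ∈ E.toSubmodule := hprod u hu a (hlE a (by simp))
    exact lettersE (F := F) (xl m e) (hkill _ hua) l [] (by simpa using hl)
      fun a' ha' => hspE' a' (hlE a' (by simp [ha']))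

theorem exists_norm (E : NonUnitalSubalgebra F A) (n : ℕ) : ∀ a : A, a ∉ E →
    (∀ l : List A, l.length = n → (∀ g ∈ l, g ∈ E) → l.foldl (fun u e => u * e) a ∈ E) →
    ∃ m : A, m ∉ E ∧ ∀ g ∈ E, m * g ∈ E := by
  induction n with
  | zero =>
    intro a ha h
    exact absurd (h [] rfl (by simp)) ha
  | succ n ih =>
    intro a ha h
    by_cases hg : ∀ g ∈ E, a * g ∈ E
    · exact ⟨a, ha, hg⟩
    · push Not at hg
      obtain ⟨g, hgE, hg⟩ := hg
      refine ih (a * g) hg ?_
      intro l hl hlE
      have := h (g :: l) (by simp [hl]) (by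
        intro g' hg'
        rcases List.mem_cons.1 hg' with rfl | h'
        · exact hgE
        · exact hlE g' h')
      simpa using this

/-- Engel's theorem for finite-dimensional anticommutative 3-Engel algebras. -/
theorem engel [FiniteDimensional F A] (hF : ∃ m : F, m ≠ 0 ∧ m ≠ 1) (h0 : Anticommutative A)
    (h1 : ThreeEngel A) : NilpSub (⊤ : NonUnitalSubalgebra F A) := by
  have hA := e3_of hF h0 h1
  let 𝒮 : Set (Submodule F A) :=
    {P | ∃ E : NonUnitalSubalgebra F A, E.toSubmodule = P ∧ NilpSub E}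
  have hne : 𝒮.Nonempty := by
    refine ⟨(⊥ : NonUnitalSubalgebra F A).toSubmodule, ⊥, rfl, 0, ?_⟩
    intro x hx
    have := isProd_mem hx
    exact NonUnitalAlgebra.mem_bot.1 this
  obtain ⟨P, ⟨E, rfl, hE⟩, hmax⟩ :=
    (wellFounded_gt (α := Submodule F A)).has_min 𝒮 hne
  by_cases htop : E = ⊤
  · rwa [htop] at hE
  · exfalso
    obtain ⟨a, ha⟩ : ∃ a : A, a ∉ E := by
      by_contra h
      push Not at h
      exact htop (by ext x; simp [h x])
    haveI : FiniteDimensional F E :=
      FiniteDimensional.finiteDimensional_submodule E.toSubmodule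
    obtain ⟨c, hc⟩ := hE
    obtain ⟨m, hm, hmE⟩ := exists_norm E _ a ha (fun l hl hlE => by
      rw [nilp_acts (act_of hF h0 h1) E c hc a l hl hlE]
      exact zero_mem E)
    obtain ⟨E', hE', hnil⟩ := ext_nilp hA h0 E ⟨c, hc⟩ m (by
      intro g hg
      rw [hA.ac]
      exact neg_mem (hmE g hg))
    refine hmax E'.toSubmodule ⟨E', rfl, hnil⟩ ?_
    rw [hE']
    refine lt_of_le_of_ne le_sup_left ?_
    intro heq
    apply hm
    have : m ∈ E.toSubmodule ⊔ Submodule.span F {m} :=
      Submodule.mem_sup_right (Submodule.mem_span_singleton_self m)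
    rw [← heq] at this
    exact this

end Pool.Agent.H461R3.E3
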