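import Pool.Agent.H461R3.E3.Rows

set_option autoImplicit false
set_option linter.unusedSectionVars false

/-! Two-generated anticommutative 3-Engel algebras. -/

namespace Pool.Agent.H461R3.E3

universe u v

/-- `IsProd S n x`: `x` is a product of `n` elements of the set `S`, with some arrangement of
parentheses. -/
inductive IsProd {A : Type v} [Mul A] (S : Set A) : ℕ → A → Prop
  | base {x : A} (hx : x ∈ S) : IsProd S 1 x
  | mul {m n : ℕ} {x y : A} (hx : IsProd S m x) (hy : IsProd S n y) : IsProd S (m + n) (x * y)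

/-- Anticommutativity: all squares vanish. -/
def Anticommutative (A : Type v) [NonUnitalNonAssocRing A] : Prop := ∀ x : A, x * x = 0

/-- The 3-Engel identity `((xy)y)y = 0`. -/
def ThreeEngel (A : Type v) [NonUnitalNonAssocRing A] : Prop :=
  ∀ x y : A, ((x * y) * y) * y = 0

variable {F : Type u} [Field F] {A : Type v} [NonUnitalNonAssocRing A] [Module F A]

section
variable [IsScalarTower F A A] [SMulCommClass F A A]

theorem pol (h1 : ThreeEngel A) (l : F) (x y z : A) :
    l • (((x * y) * y) * z + ((x * y) * z) * y + ((x * z) * y) * y) +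
      (l * l) • (((x * z) * z) * y + ((x * z) * y) * z + ((x * y) * z) * z) = 0 := by
  have h0 := h1 x (y + l • z)
  have hy := h1 x y
  have hz := h1 x z
  simp only [add_mul, mul_add, smul_mul_assoc, mul_smul_comm, smul_add, smul_smul] at h0
  linear_combination (norm := module) h0 - hy - (l * l * l) • hz

theorem pol2 (h1 : ThreeEngel A) {m : F} (hm : m ≠ 0) (hm1 : m ≠ 1) (x y z : A) :
    ((x * y) * y) * z + ((x * y) * z) * y + ((x * z) * y) * y = 0 := by
  have ha := pol h1 (1 : F) x y z
  have hb := pol h1 m x y z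
  have hc : (m - m * m) • (((x * y) * y) * z + ((x * y) * z) * y + ((x * z) * y) * y) = 0 := by
    linear_combination (norm := module) hb - (m * m) • ha
  rcases smul_eq_zero.1 hc with h | h
  · exfalso
    have : m * (1 - m) = 0 := by linear_combination h
    rcases mul_eq_zero.1 this with h' | h'
    · exact hm h'
    · exact hm1 (by linear_combination -h')
  · exact h

theorem eng_of (h3 : (3 : F) ≠ 0) (hF : ∃ m : F, m ≠ 0 ∧ m ≠ 1) (h0 : Anticommutative A)
    (h1 : ThreeEngel A) : Eng A := by
  obtain ⟨m, hm, hm1⟩ := hF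
  refine ⟨h0, h1, pol2 h1 hm hm1, ?_, ?_⟩
  · intro x y z t
    have ha := pol2 h1 hm hm1 x (y + z) t
    have hb := pol2 h1 hm hm1 x y t
    have hc := pol2 h1 hm hm1 x z t
    simp only [add_mul, mul_add] at ha
    linear_combination (norm := module) ha - hb - hc
  · intro x hx
    have : (3 : F) • x = 0 := by
      rw [← hx]
      module
    rcases smul_eq_zero.1 this with h | h
    · exact absurd h h3
    · exact h

theorem mul_L (h : Eng A) (a b : A) {m n : ℕ} {x y : A} (hx : x ∈ L F a b m)
    (hy : y ∈ L F a b n) : x * y ∈ L F a b (m + n) := by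
  unfold L at hx
  refine Submodule.span_induction (p := fun x _ => x * y ∈ L F a b (m + n)) ?_ ?_ ?_ ?_ hx
  · rintro x ⟨i, hi, hmi, rfl⟩
    unfold L at hy
    refine Submodule.span_induction (p := fun y _ => wv a b i * y ∈ L F a b (m + n))
      ?_ ?_ ?_ ?_ hy
    · rintro y ⟨j, hj, hnj, rfl⟩
      exact L_anti (by omega) (rows h a b i j hi hj)
    · rw [mul_zero]; exact Submodule.zero_mem _
    · intro y z _ _ h1 h2
      rw [mul_add]; exact Submodule.add_mem _ h1 h2
    · intro c y _ h1
      rw [mul_smul_comm]; exact Submodule.smul_mem _ c h1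
  · rw [zero_mul]; exact Submodule.zero_mem _
  · intro y z _ _ h1 h2
    rw [add_mul]; exact Submodule.add_mem _ h1 h2
  · intro c y _ h1
    rw [smul_mul_assoc]; exact Submodule.smul_mem _ c h1

theorem adjoin_le (h : Eng A) (a b : A) {x : A} (hx : x ∈ NonUnitalAlgebra.adjoin F {a, b}) :
    x ∈ L F a b 1 := by
  induction hx using NonUnitalAlgebra.adjoin_induction with
  | mem x hx =>
    rcases hx with rfl | hx
    · exact wv_mem x b 0 (by decide) (by decide)
    · rw [Set.mem_singleton_iff] at hx
      subst hx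
      exact wv_mem a x 1 (by decide) (by decide)
  | add x y _ _ h1 h2 => exact Submodule.add_mem _ h1 h2
  | zero => exact Submodule.zero_mem _
  | mul x y _ _ h1 h2 => exact L_anti (by omega) (mul_L h a b h1 h2)
  | smul r x _ h1 => exact Submodule.smul_mem _ r h1

theorem prod_L (h : Eng A) (a b : A) {n : ℕ} {x : A}
    (hx : IsProd (NonUnitalAlgebra.adjoin F {a, b} : Set A) n x) : x ∈ L F a b n := by
  induction hx with
  | base hx => exact adjoin_le h a b hx
  | mul _ _ h1 h2 => exact mul_L h a b h1 h2

theorem dg_le (k : ℕ) (hk : k < 41) : dg k ≤ 14 := by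
  interval_cases k <;> decide

theorem L_bot (a b : A) : L F a b 15 = ⊥ := by
  rw [eq_bot_iff]
  apply Submodule.span_le.2
  rintro x ⟨k, hk, hn, rfl⟩
  have := dg_le k hk
  omega

theorem main (h3 : (3 : F) ≠ 0) (hF : ∃ m : F, m ≠ 0 ∧ m ≠ 1) (h0 : Anticommutative A)
    (h1 : ThreeEngel A) (a b x : A)
    (hx : IsProd (NonUnitalAlgebra.adjoin F {a, b} : Set A) 15 x) : x = 0 := by
  have h := prod_L (eng_of h3 hF h0 h1) a b hx
  rw [L_bot] at h
  exact (Submodule.mem_bot F).1 h

end

end Pool.Agent.H461R3.E3
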