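import Pool.Agent.H461R3.E3.D28

set_option autoImplicit false
set_option linter.all false
set_option linter.unusedVariables false

namespace Pool.Agent.H461R3.E3

universe u v

/-- degree of the basis monomial `k` -/
def dg : ℕ → ℕ
  | 0 => 1
  | 1 => 1
  | 2 => 2
  | 3 => 3
  | 4 => 3
  | 5 => 4
  | 6 => 5
  | 7 => 5
  | 8 => 6
  | 9 => 7
  | 10 => 7
  | 11 => 8
  | 12 => 8
  | 13 => 9
  | 14 => 9
  | 15 => 9
  | 16 => 9
  | 17 => 10
  | 18 => 10
  | 19 => 10
  | 20 => 10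
  | 21 => 10
  | 22 => 11
  | 23 => 11
  | 24 => 11
  | 25 => 11
  | 26 => 11
  | 27 => 11
  | 28 => 12
  | 29 => 12
  | 30 => 12
  | 31 => 12
  | 32 => 12
  | 33 => 12
  | 34 => 13
  | 35 => 13
  | 36 => 13
  | 37 => 13
  | 38 => 14
  | 39 => 14
  | 40 => 14
  | _ => 0

/-- the basis monomial `k` -/
def wv {A : Type v} [NonUnitalNonAssocRing A] (a b : A) : ℕ → A
  | 0 => w0 a b
  | 1 => w1 a b
  | 2 => w2 a b
  | 3 => w3 a b
  | 4 => w4 a b
  | 5 => w5 a b
  | 6 => w6 a b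
  | 7 => w7 a b
  | 8 => w8 a b
  | 9 => w9 a b
  | 10 => w10 a b
  | 11 => w11 a b
  | 12 => w12 a b
  | 13 => w13 a b
  | 14 => w14 a b
  | 15 => w15 a b
  | 16 => w16 a b
  | 17 => w17 a b
  | 18 => w18 a b
  | 19 => w19 a b
  | 20 => w20 a b
  | 21 => w21 a b
  | 22 => w22 a b
  | 23 => w23 a b
  | 24 => w24 a b
  | 25 => w25 a b
  | 26 => w26 a b
  | 27 => w27 a b
  | 28 => w28 a b
  | 29 => w29 a b
  | 30 => w30 a b
  | 31 => w31 a b
  | 32 => w32 a b
  | 33 => w33 a b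
  | 34 => w34 a b
  | 35 => w35 a b
  | 36 => w36 a b
  | 37 => w37 a b
  | 38 => w38 a b
  | 39 => w39 a b
  | 40 => w40 a b
  | _ => 0

variable {F : Type u} [Field F] {A : Type v} [NonUnitalNonAssocRing A] [Module F A]

/-- span of the basis monomials of degree at least `n` -/
def L (F : Type u) [Field F] {A : Type v} [NonUnitalNonAssocRing A] [Module F A] (a b : A)
    (n : ℕ) : Submodule F A :=
  Submodule.span F {x | ∃ k, k < 41 ∧ n ≤ dg k ∧ x = wv a b k}

theorem L_anti {a b : A} {m n : ℕ} (h : m ≤ n) : L F a b n ≤ L F a b m := by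
  apply Submodule.span_mono
  rintro x ⟨k, hk, hn, rfl⟩
  exact ⟨k, hk, h.trans hn, rfl⟩

theorem wv_mem (a b : A) (k : ℕ) (hk : k < 41) {n : ℕ} (hn : n ≤ dg k) :
    wv a b k ∈ L F a b n := Submodule.subset_span ⟨k, hk, hn, rfl⟩

theorem q1_0 (h : Eng A) (a b : A) : w1 a b * w0 a b ∈ L F a b 2 := by
  rw [m1_0 a b]; exact (wv_mem a b 2 (by decide) (by decide))
theorem q2_0 (h : Eng A) (a b : A) : w2 a b * w0 a b ∈ L F a b 3 := by
  rw [m2_0 a b]; exact (wv_mem a b 3 (by decide) (by decide))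
theorem q2_1 (h : Eng A) (a b : A) : w2 a b * w1 a b ∈ L F a b 3 := by
  rw [m2_1 a b]; exact (wv_mem a b 4 (by decide) (by decide))
theorem q3_0 (h : Eng A) (a b : A) : w3 a b * w0 a b ∈ L F a b 4 := by
  rw [m3_0 h a b]; exact (L F a b 4).zero_mem
theorem q3_1 (h : Eng A) (a b : A) : w3 a b * w1 a b ∈ L F a b 4 := by
  rw [m3_1 a b]; exact (wv_mem a b 5 (by decide) (by decide))
theorem q3_2 (h : Eng A) (a b : A) : w3 a b * w2 a b ∈ L F a b 5 := by
  rw [m3_2 a b]; exact (wv_mem a b 6 (by decide) (by decide))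
theorem q4_0 (h : Eng A) (a b : A) : w4 a b * w0 a b ∈ L F a b 4 := by
  rw [m4_0 h a b]; exact ((L F a b 4).neg_mem (wv_mem a b 5 (by decide) (by decide)))
theorem q4_1 (h : Eng A) (a b : A) : w4 a b * w1 a b ∈ L F a b 4 := by
  rw [m4_1 h a b]; exact (L F a b 4).zero_mem
theorem q4_2 (h : Eng A) (a b : A) : w4 a b * w2 a b ∈ L F a b 5 := by
  rw [m4_2 a b]; exact (wv_mem a b 7 (by decide) (by decide))
theorem q4_3 (h : Eng A) (a b : A) : w4 a b * w3 a b ∈ L F a b 6 := by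
  rw [m4_3 a b]; exact (wv_mem a b 8 (by decide) (by decide))
theorem q5_0 (h : Eng A) (a b : A) : w5 a b * w0 a b ∈ L F a b 5 := by
  rw [m5_0 h a b]; exact ((L F a b 5).neg_mem (wv_mem a b 6 (by decide) (by decide)))
theorem q5_1 (h : Eng A) (a b : A) : w5 a b * w1 a b ∈ L F a b 5 := by
  rw [m5_1 h a b]; exact ((L F a b 5).neg_mem (wv_mem a b 7 (by decide) (by decide)))
theorem q5_2 (h : Eng A) (a b : A) : w5 a b * w2 a b ∈ L F a b 6 := by
  rw [m5_2 h a b]; exact ((L F a b 6).neg_mem (wv_mem a b 8 (by decide) (by decide)))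
theorem q5_3 (h : Eng A) (a b : A) : w5 a b * w3 a b ∈ L F a b 7 := by
  rw [m5_3 h a b]; exact (L F a b 7).zero_mem
theorem q5_4 (h : Eng A) (a b : A) : w5 a b * w4 a b ∈ L F a b 7 := by
  rw [m5_4 h a b]; exact (L F a b 7).zero_mem
theorem q6_0 (h : Eng A) (a b : A) : w6 a b * w0 a b ∈ L F a b 6 := by
  rw [m6_0 h a b]; exact (L F a b 6).zero_mem
theorem q6_1 (h : Eng A) (a b : A) : w6 a b * w1 a b ∈ L F a b 6 := by
  rw [m6_1 h a b]; exact (wv_mem a b 8 (by decide) (by decide))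
theorem q6_2 (h : Eng A) (a b : A) : w6 a b * w2 a b ∈ L F a b 7 := by
  rw [m6_2 h a b]; exact (L F a b 7).zero_mem
theorem q6_3 (h : Eng A) (a b : A) : w6 a b * w3 a b ∈ L F a b 8 := by
  rw [m6_3 h a b]; exact (L F a b 8).zero_mem
theorem q6_4 (h : Eng A) (a b : A) : w6 a b * w4 a b ∈ L F a b 8 := by
  rw [m6_4 h a b]; exact (L F a b 8).zero_mem
theorem q6_5 (h : Eng A) (a b : A) : w6 a b * w5 a b ∈ L F a b 9 := by
  rw [m6_5 h a b]; exact (L F a b 9).zero_mem
theorem q7_0 (h : Eng A) (a b : A) : w7 a b * w0 a b ∈ L F a b 6 := by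
  rw [m7_0 h a b]; exact ((L F a b 6).neg_mem (wv_mem a b 8 (by decide) (by decide)))
theorem q7_1 (h : Eng A) (a b : A) : w7 a b * w1 a b ∈ L F a b 6 := by
  rw [m7_1 h a b]; exact (L F a b 6).zero_mem
theorem q7_2 (h : Eng A) (a b : A) : w7 a b * w2 a b ∈ L F a b 7 := by
  rw [m7_2 h a b]; exact (L F a b 7).zero_mem
theorem q7_3 (h : Eng A) (a b : A) : w7 a b * w3 a b ∈ L F a b 8 := by
  rw [m7_3 h a b]; exact (L F a b 8).zero_mem
theorem q7_4 (h : Eng A) (a b : A) : w7 a b * w4 a b ∈ L F a b 8 := by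
  rw [m7_4 h a b]; exact (L F a b 8).zero_mem
theorem q7_5 (h : Eng A) (a b : A) : w7 a b * w5 a b ∈ L F a b 9 := by
  rw [m7_5 h a b]; exact (L F a b 9).zero_mem
theorem q7_6 (h : Eng A) (a b : A) : w7 a b * w6 a b ∈ L F a b 10 := by
  rw [m7_6 h a b]; exact (L F a b 10).zero_mem
theorem q8_0 (h : Eng A) (a b : A) : w8 a b * w0 a b ∈ L F a b 7 := by
  rw [m8_0 a b]; exact (wv_mem a b 9 (by decide) (by decide))
theorem q8_1 (h : Eng A) (a b : A) : w8 a b * w1 a b ∈ L F a b 7 := by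
  rw [m8_1 a b]; exact (wv_mem a b 10 (by decide) (by decide))
theorem q8_2 (h : Eng A) (a b : A) : w8 a b * w2 a b ∈ L F a b 8 := by
  rw [m8_2 a b]; exact (wv_mem a b 11 (by decide) (by decide))
theorem q8_3 (h : Eng A) (a b : A) : w8 a b * w3 a b ∈ L F a b 9 := by
  rw [m8_3 a b]; exact (wv_mem a b 13 (by decide) (by decide))
theorem q8_4 (h : Eng A) (a b : A) : w8 a b * w4 a b ∈ L F a b 9 := by
  rw [m8_4 a b]; exact (wv_mem a b 15 (by decide) (by decide))
theorem q8_5 (h : Eng A) (a b : A) : w8 a b * w5 a b ∈ L F a b 10 := by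
  rw [m8_5 a b]; exact (wv_mem a b 18 (by decide) (by decide))
theorem q8_6 (h : Eng A) (a b : A) : w8 a b * w6 a b ∈ L F a b 11 := by
  rw [m8_6 a b]; exact (wv_mem a b 22 (by decide) (by decide))
theorem q8_7 (h : Eng A) (a b : A) : w8 a b * w7 a b ∈ L F a b 11 := by
  rw [m8_7 a b]; exact (wv_mem a b 25 (by decide) (by decide))
theorem q9_0 (h : Eng A) (a b : A) : w9 a b * w0 a b ∈ L F a b 8 := by
  rw [m9_0 h a b]; exact (L F a b 8).zero_mem
theorem q9_1 (h : Eng A) (a b : A) : w9 a b * w1 a b ∈ L F a b 8 := by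
  rw [m9_1 a b]; exact (wv_mem a b 12 (by decide) (by decide))
theorem q9_2 (h : Eng A) (a b : A) : w9 a b * w2 a b ∈ L F a b 9 := by
  rw [m9_2 a b]; exact (wv_mem a b 14 (by decide) (by decide))
theorem q9_3 (h : Eng A) (a b : A) : w9 a b * w3 a b ∈ L F a b 10 := by
  rw [m9_3 a b]; exact (wv_mem a b 17 (by decide) (by decide))
theorem q9_4 (h : Eng A) (a b : A) : w9 a b * w4 a b ∈ L F a b 10 := by
  rw [m9_4 a b]; exact (wv_mem a b 19 (by decide) (by decide))
theorem q9_5 (h : Eng A) (a b : A) : w9 a b * w5 a b ∈ L F a b 11 := by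
  rw [m9_5 a b]; exact (wv_mem a b 23 (by decide) (by decide))
theorem q9_6 (h : Eng A) (a b : A) : w9 a b * w6 a b ∈ L F a b 12 := by
  rw [m9_6 a b]; exact (wv_mem a b 28 (by decide) (by decide))
theorem q9_7 (h : Eng A) (a b : A) : w9 a b * w7 a b ∈ L F a b 12 := by
  rw [m9_7 a b]; exact (wv_mem a b 29 (by decide) (by decide))
theorem q9_8 (h : Eng A) (a b : A) : w9 a b * w8 a b ∈ L F a b 13 := by
  rw [m9_8 h a b]; exact (L F a b 13).zero_mem
theorem q10_0 (h : Eng A) (a b : A) : w10 a b * w0 a b ∈ L F a b 8 := by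
  rw [m10_0 h a b]; exact ((L F a b 8).neg_mem (wv_mem a b 12 (by decide) (by decide)))
theorem q10_1 (h : Eng A) (a b : A) : w10 a b * w1 a b ∈ L F a b 8 := by
  rw [m10_1 h a b]; exact (L F a b 8).zero_mem
theorem q10_2 (h : Eng A) (a b : A) : w10 a b * w2 a b ∈ L F a b 9 := by
  rw [m10_2 a b]; exact (wv_mem a b 16 (by decide) (by decide))
theorem q10_3 (h : Eng A) (a b : A) : w10 a b * w3 a b ∈ L F a b 10 := by
  rw [m10_3 a b]; exact (wv_mem a b 20 (by decide) (by decide))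
theorem q10_4 (h : Eng A) (a b : A) : w10 a b * w4 a b ∈ L F a b 10 := by
  rw [m10_4 a b]; exact (wv_mem a b 21 (by decide) (by decide))
theorem q10_5 (h : Eng A) (a b : A) : w10 a b * w5 a b ∈ L F a b 11 := by
  rw [m10_5 a b]; exact (wv_mem a b 26 (by decide) (by decide))
theorem q10_6 (h : Eng A) (a b : A) : w10 a b * w6 a b ∈ L F a b 12 := by
  rw [m10_6 a b]; exact (wv_mem a b 30 (by decide) (by decide))
theorem q10_7 (h : Eng A) (a b : A) : w10 a b * w7 a b ∈ L F a b 12 := by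
  rw [m10_7 a b]; exact (wv_mem a b 33 (by decide) (by decide))
theorem q10_8 (h : Eng A) (a b : A) : w10 a b * w8 a b ∈ L F a b 13 := by
  rw [m10_8 h a b]; exact (L F a b 13).zero_mem
theorem q10_9 (h : Eng A) (a b : A) : w10 a b * w9 a b ∈ L F a b 14 := by
  rw [m10_9 h a b]; exact (L F a b 14).zero_mem
theorem q11_0 (h : Eng A) (a b : A) : w11 a b * w0 a b ∈ L F a b 9 := by
  rw [m11_0 h a b]; exact ((L F a b 9).neg_mem (wv_mem a b 14 (by decide) (by decide)))
theorem q11_1 (h : Eng A) (a b : A) : w11 a b * w1 a b ∈ L F a b 9 := by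
  rw [m11_1 h a b]; exact ((L F a b 9).neg_mem (wv_mem a b 16 (by decide) (by decide)))
theorem q11_2 (h : Eng A) (a b : A) : w11 a b * w2 a b ∈ L F a b 10 := by
  rw [m11_2 h a b]; exact (L F a b 10).zero_mem
theorem q11_3 (h : Eng A) (a b : A) : w11 a b * w3 a b ∈ L F a b 11 := by
  rw [m11_3 a b]; exact (wv_mem a b 24 (by decide) (by decide))
theorem q11_4 (h : Eng A) (a b : A) : w11 a b * w4 a b ∈ L F a b 11 := by
  rw [m11_4 a b]; exact (wv_mem a b 27 (by decide) (by decide))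
theorem q11_5 (h : Eng A) (a b : A) : w11 a b * w5 a b ∈ L F a b 12 := by
  rw [m11_5 a b]; exact (wv_mem a b 31 (by decide) (by decide))
theorem q11_6 (h : Eng A) (a b : A) : w11 a b * w6 a b ∈ L F a b 13 := by
  rw [m11_6 a b]; exact (wv_mem a b 34 (by decide) (by decide))
theorem q11_7 (h : Eng A) (a b : A) : w11 a b * w7 a b ∈ L F a b 13 := by
  rw [m11_7 a b]; exact (wv_mem a b 36 (by decide) (by decide))
theorem q11_8 (h : Eng A) (a b : A) : w11 a b * w8 a b ∈ L F a b 14 := by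
  rw [m11_8 h a b]; exact (L F a b 14).zero_mem
theorem q11_9 (h : Eng A) (a b : A) : w11 a b * w9 a b ∈ L F a b 15 := by
  rw [m11_9 h a b]; exact (L F a b 15).zero_mem
theorem q11_10 (h : Eng A) (a b : A) : w11 a b * w10 a b ∈ L F a b 15 := by
  rw [m11_10 h a b]; exact (L F a b 15).zero_mem
theorem q12_0 (h : Eng A) (a b : A) : w12 a b * w0 a b ∈ L F a b 9 := by
  rw [m12_0 h a b]; exact ((L F a b 9).sub_mem (wv_mem a b 13 (by decide) (by decide)) (wv_mem a b 14 (by decide) (by decide)))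
theorem q12_1 (h : Eng A) (a b : A) : w12 a b * w1 a b ∈ L F a b 9 := by
  rw [m12_1 h a b]; exact ((L F a b 9).sub_mem (wv_mem a b 15 (by decide) (by decide)) (wv_mem a b 16 (by decide) (by decide)))
theorem q12_2 (h : Eng A) (a b : A) : w12 a b * w2 a b ∈ L F a b 10 := by
  rw [m12_2 h a b]; exact ((L F a b 10).sub_mem ((L F a b 10).add_mem (wv_mem a b 18 (by decide) (by decide)) (wv_mem a b 19 (by decide) (by decide))) (wv_mem a b 20 (by decide) (by decide)))
theorem q12_3 (h : Eng A) (a b : A) : w12 a b * w3 a b ∈ L F a b 11 := by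
  rw [m12_3 h a b]; exact (wv_mem a b 23 (by decide) (by decide))
theorem q12_4 (h : Eng A) (a b : A) : w12 a b * w4 a b ∈ L F a b 11 := by
  rw [m12_4 h a b]; exact (wv_mem a b 26 (by decide) (by decide))
theorem q12_5 (h : Eng A) (a b : A) : w12 a b * w5 a b ∈ L F a b 12 := by
  rw [m12_5 a b]; exact (wv_mem a b 32 (by decide) (by decide))
theorem q12_6 (h : Eng A) (a b : A) : w12 a b * w6 a b ∈ L F a b 13 := by
  rw [m12_6 a b]; exact (wv_mem a b 35 (by decide) (by decide))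
theorem q12_7 (h : Eng A) (a b : A) : w12 a b * w7 a b ∈ L F a b 13 := by
  rw [m12_7 a b]; exact (wv_mem a b 37 (by decide) (by decide))
theorem q12_8 (h : Eng A) (a b : A) : w12 a b * w8 a b ∈ L F a b 14 := by
  rw [m12_8 h a b]; exact (L F a b 14).zero_mem
theorem q12_9 (h : Eng A) (a b : A) : w12 a b * w9 a b ∈ L F a b 15 := by
  rw [m12_9 h a b]; exact (L F a b 15).zero_mem
theorem q12_10 (h : Eng A) (a b : A) : w12 a b * w10 a b ∈ L F a b 15 := by
  rw [m12_10 h a b]; exact (L F a b 15).zero_mem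
theorem q12_11 (h : Eng A) (a b : A) : w12 a b * w11 a b ∈ L F a b 16 := by
  rw [m12_11 h a b]; exact (L F a b 16).zero_mem
theorem q13_0 (h : Eng A) (a b : A) : w13 a b * w0 a b ∈ L F a b 10 := by
  rw [m13_0 h a b]; exact ((L F a b 10).neg_mem (wv_mem a b 17 (by decide) (by decide)))
theorem q13_1 (h : Eng A) (a b : A) : w13 a b * w1 a b ∈ L F a b 10 := by
  rw [m13_1 h a b]; exact ((L F a b 10).neg_mem (wv_mem a b 20 (by decide) (by decide)))
theorem q13_2 (h : Eng A) (a b : A) : w13 a b * w2 a b ∈ L F a b 11 := by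
  rw [m13_2 h a b]; exact ((L F a b 11).neg_mem (wv_mem a b 24 (by decide) (by decide)))
theorem q13_3 (h : Eng A) (a b : A) : w13 a b * w3 a b ∈ L F a b 12 := by
  rw [m13_3 h a b]; exact (L F a b 12).zero_mem
theorem q13_4 (h : Eng A) (a b : A) : w13 a b * w4 a b ∈ L F a b 12 := by
  rw [m13_4 h a b]; exact ((L F a b 12).sub_mem (wv_mem a b 31 (by decide) (by decide)) (wv_mem a b 32 (by decide) (by decide)))
theorem q13_5 (h : Eng A) (a b : A) : w13 a b * w5 a b ∈ L F a b 13 := by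
  rw [m13_5 h a b]; exact ((L F a b 13).sub_mem ((L F a b 13).sub_mem (wv_mem a b 34 (by decide) (by decide)) (wv_mem a b 35 (by decide) (by decide))) (wv_mem a b 35 (by decide) (by decide)))
theorem q13_6 (h : Eng A) (a b : A) : w13 a b * w6 a b ∈ L F a b 14 := by
  rw [m13_6 a b]; exact (wv_mem a b 38 (by decide) (by decide))
theorem q13_7 (h : Eng A) (a b : A) : w13 a b * w7 a b ∈ L F a b 14 := by
  rw [m13_7 a b]; exact (wv_mem a b 39 (by decide) (by decide))
theorem q13_8 (h : Eng A) (a b : A) : w13 a b * w8 a b ∈ L F a b 15 := by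
  rw [m13_8 h a b]; exact (L F a b 15).zero_mem
theorem q13_9 (h : Eng A) (a b : A) : w13 a b * w9 a b ∈ L F a b 16 := by
  rw [m13_9 h a b]; exact (L F a b 16).zero_mem
theorem q13_10 (h : Eng A) (a b : A) : w13 a b * w10 a b ∈ L F a b 16 := by
  rw [m13_10 h a b]; exact (L F a b 16).zero_mem
theorem q13_11 (h : Eng A) (a b : A) : w13 a b * w11 a b ∈ L F a b 17 := by
  rw [m13_11 h a b]; exact (L F a b 17).zero_mem
theorem q13_12 (h : Eng A) (a b : A) : w13 a b * w12 a b ∈ L F a b 17 := by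
  rw [m13_12 h a b]; exact (L F a b 17).zero_mem
theorem q14_0 (h : Eng A) (a b : A) : w14 a b * w0 a b ∈ L F a b 10 := by
  rw [m14_0 h a b]; exact ((L F a b 10).neg_mem (wv_mem a b 17 (by decide) (by decide)))
theorem q14_1 (h : Eng A) (a b : A) : w14 a b * w1 a b ∈ L F a b 10 := by
  rw [m14_1 h a b]; exact ((L F a b 10).neg_mem (wv_mem a b 19 (by decide) (by decide)))
theorem q14_2 (h : Eng A) (a b : A) : w14 a b * w2 a b ∈ L F a b 11 := by
  rw [m14_2 h a b]; exact ((L F a b 11).sub_mem (wv_mem a b 22 (by decide) (by decide)) (wv_mem a b 24 (by decide) (by decide)))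
theorem q14_3 (h : Eng A) (a b : A) : w14 a b * w3 a b ∈ L F a b 12 := by
  rw [m14_3 h a b]; exact (wv_mem a b 28 (by decide) (by decide))
theorem q14_4 (h : Eng A) (a b : A) : w14 a b * w4 a b ∈ L F a b 12 := by
  rw [m14_4 h a b]; exact ((L F a b 12).sub_mem ((L F a b 12).add_mem (wv_mem a b 30 (by decide) (by decide)) (wv_mem a b 31 (by decide) (by decide))) (wv_mem a b 32 (by decide) (by decide)))
theorem q14_5 (h : Eng A) (a b : A) : w14 a b * w5 a b ∈ L F a b 13 := by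
  rw [m14_5 h a b]; exact ((L F a b 13).sub_mem (wv_mem a b 34 (by decide) (by decide)) (wv_mem a b 35 (by decide) (by decide)))
theorem q14_6 (h : Eng A) (a b : A) : w14 a b * w6 a b ∈ L F a b 14 := by
  rw [m14_6 h a b]; exact (L F a b 14).zero_mem
theorem q14_7 (h : Eng A) (a b : A) : w14 a b * w7 a b ∈ L F a b 14 := by
  rw [m14_7 h a b]; exact (L F a b 14).zero_mem
theorem q14_8 (h : Eng A) (a b : A) : w14 a b * w8 a b ∈ L F a b 15 := by
  rw [m14_8 h a b]; exact (L F a b 15).zero_mem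
theorem q14_9 (h : Eng A) (a b : A) : w14 a b * w9 a b ∈ L F a b 16 := by
  rw [m14_9 h a b]; exact (L F a b 16).zero_mem
theorem q14_10 (h : Eng A) (a b : A) : w14 a b * w10 a b ∈ L F a b 16 := by
  rw [m14_10 h a b]; exact (L F a b 16).zero_mem
theorem q14_11 (h : Eng A) (a b : A) : w14 a b * w11 a b ∈ L F a b 17 := by
  rw [m14_11 h a b]; exact (L F a b 17).zero_mem
theorem q14_12 (h : Eng A) (a b : A) : w14 a b * w12 a b ∈ L F a b 17 := by
  rw [m14_12 h a b]; exact (L F a b 17).zero_mem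
theorem q14_13 (h : Eng A) (a b : A) : w14 a b * w13 a b ∈ L F a b 18 := by
  rw [m14_13 h a b]; exact (L F a b 18).zero_mem
theorem q15_0 (h : Eng A) (a b : A) : w15 a b * w0 a b ∈ L F a b 10 := by
  rw [m15_0 h a b]; exact ((L F a b 10).neg_mem (wv_mem a b 19 (by decide) (by decide)))
theorem q15_1 (h : Eng A) (a b : A) : w15 a b * w1 a b ∈ L F a b 10 := by
  rw [m15_1 h a b]; exact ((L F a b 10).neg_mem (wv_mem a b 21 (by decide) (by decide)))
theorem q15_2 (h : Eng A) (a b : A) : w15 a b * w2 a b ∈ L F a b 11 := by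
  rw [m15_2 h a b]; exact ((L F a b 11).neg_mem (wv_mem a b 27 (by decide) (by decide)))
theorem q15_3 (h : Eng A) (a b : A) : w15 a b * w3 a b ∈ L F a b 12 := by
  rw [m15_3 h a b]; exact ((L F a b 12).add_mem ((L F a b 12).neg_mem (wv_mem a b 31 (by decide) (by decide))) (wv_mem a b 32 (by decide) (by decide)))
theorem q15_4 (h : Eng A) (a b : A) : w15 a b * w4 a b ∈ L F a b 12 := by
  rw [m15_4 h a b]; exact (L F a b 12).zero_mem
theorem q15_5 (h : Eng A) (a b : A) : w15 a b * w5 a b ∈ L F a b 13 := by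
  rw [m15_5 h a b]; exact ((L F a b 13).sub_mem ((L F a b 13).sub_mem (wv_mem a b 36 (by decide) (by decide)) (wv_mem a b 37 (by decide) (by decide))) (wv_mem a b 37 (by decide) (by decide)))
theorem q15_6 (h : Eng A) (a b : A) : w15 a b * w6 a b ∈ L F a b 14 := by
  rw [m15_6 h a b]; exact (wv_mem a b 39 (by decide) (by decide))
theorem q15_7 (h : Eng A) (a b : A) : w15 a b * w7 a b ∈ L F a b 14 := by
  rw [m15_7 a b]; exact (wv_mem a b 40 (by decide) (by decide))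
theorem q15_8 (h : Eng A) (a b : A) : w15 a b * w8 a b ∈ L F a b 15 := by
  rw [m15_8 h a b]; exact (L F a b 15).zero_mem
theorem q15_9 (h : Eng A) (a b : A) : w15 a b * w9 a b ∈ L F a b 16 := by
  rw [m15_9 h a b]; exact (L F a b 16).zero_mem
theorem q15_10 (h : Eng A) (a b : A) : w15 a b * w10 a b ∈ L F a b 16 := by
  rw [m15_10 h a b]; exact (L F a b 16).zero_mem
theorem q15_11 (h : Eng A) (a b : A) : w15 a b * w11 a b ∈ L F a b 17 := by
  rw [m15_11 h a b]; exact (L F a b 17).zero_mem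
theorem q15_12 (h : Eng A) (a b : A) : w15 a b * w12 a b ∈ L F a b 17 := by
  rw [m15_12 h a b]; exact (L F a b 17).zero_mem
theorem q15_13 (h : Eng A) (a b : A) : w15 a b * w13 a b ∈ L F a b 18 := by
  rw [m15_13 h a b]; exact (L F a b 18).zero_mem
theorem q15_14 (h : Eng A) (a b : A) : w15 a b * w14 a b ∈ L F a b 18 := by
  rw [m15_14 h a b]; exact (L F a b 18).zero_mem
theorem q16_0 (h : Eng A) (a b : A) : w16 a b * w0 a b ∈ L F a b 10 := by
  rw [m16_0 h a b]; exact ((L F a b 10).neg_mem (wv_mem a b 20 (by decide) (by decide)))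
theorem q16_1 (h : Eng A) (a b : A) : w16 a b * w1 a b ∈ L F a b 10 := by
  rw [m16_1 h a b]; exact ((L F a b 10).neg_mem (wv_mem a b 21 (by decide) (by decide)))
theorem q16_2 (h : Eng A) (a b : A) : w16 a b * w2 a b ∈ L F a b 11 := by
  rw [m16_2 h a b]; exact ((L F a b 11).sub_mem (wv_mem a b 25 (by decide) (by decide)) (wv_mem a b 27 (by decide) (by decide)))
theorem q16_3 (h : Eng A) (a b : A) : w16 a b * w3 a b ∈ L F a b 12 := by
  rw [m16_3 h a b]; exact ((L F a b 12).add_mem ((L F a b 12).sub_mem (wv_mem a b 29 (by decide) (by decide)) (wv_mem a b 31 (by decide) (by decide))) (wv_mem a b 32 (by decide) (by decide)))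
theorem q16_4 (h : Eng A) (a b : A) : w16 a b * w4 a b ∈ L F a b 12 := by
  rw [m16_4 h a b]; exact (wv_mem a b 33 (by decide) (by decide))
theorem q16_5 (h : Eng A) (a b : A) : w16 a b * w5 a b ∈ L F a b 13 := by
  rw [m16_5 h a b]; exact ((L F a b 13).sub_mem (wv_mem a b 36 (by decide) (by decide)) (wv_mem a b 37 (by decide) (by decide)))
theorem q16_6 (h : Eng A) (a b : A) : w16 a b * w6 a b ∈ L F a b 14 := by
  rw [m16_6 h a b]; exact (L F a b 14).zero_mem
theorem q16_7 (h : Eng A) (a b : A) : w16 a b * w7 a b ∈ L F a b 14 := by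
  rw [m16_7 h a b]; exact (L F a b 14).zero_mem
theorem q16_8 (h : Eng A) (a b : A) : w16 a b * w8 a b ∈ L F a b 15 := by
  rw [m16_8 h a b]; exact (L F a b 15).zero_mem
theorem q16_9 (h : Eng A) (a b : A) : w16 a b * w9 a b ∈ L F a b 16 := by
  rw [m16_9 h a b]; exact (L F a b 16).zero_mem
theorem q16_10 (h : Eng A) (a b : A) : w16 a b * w10 a b ∈ L F a b 16 := by
  rw [m16_10 h a b]; exact (L F a b 16).zero_mem
theorem q16_11 (h : Eng A) (a b : A) : w16 a b * w11 a b ∈ L F a b 17 := by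
  rw [m16_11 h a b]; exact (L F a b 17).zero_mem
theorem q16_12 (h : Eng A) (a b : A) : w16 a b * w12 a b ∈ L F a b 17 := by
  rw [m16_12 h a b]; exact (L F a b 17).zero_mem
theorem q16_13 (h : Eng A) (a b : A) : w16 a b * w13 a b ∈ L F a b 18 := by
  rw [m16_13 h a b]; exact (L F a b 18).zero_mem
theorem q16_14 (h : Eng A) (a b : A) : w16 a b * w14 a b ∈ L F a b 18 := by
  rw [m16_14 h a b]; exact (L F a b 18).zero_mem
theorem q16_15 (h : Eng A) (a b : A) : w16 a b * w15 a b ∈ L F a b 18 := by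
  rw [m16_15 h a b]; exact (L F a b 18).zero_mem
theorem q17_0 (h : Eng A) (a b : A) : w17 a b * w0 a b ∈ L F a b 11 := by
  rw [m17_0 h a b]; exact (L F a b 11).zero_mem
theorem q17_1 (h : Eng A) (a b : A) : w17 a b * w1 a b ∈ L F a b 11 := by
  rw [m17_1 h a b]; exact ((L F a b 11).add_mem ((L F a b 11).sub_mem ((L F a b 11).neg_mem (wv_mem a b 22 (by decide) (by decide))) (wv_mem a b 23 (by decide) (by decide))) (wv_mem a b 24 (by decide) (by decide)))
theorem q17_2 (h : Eng A) (a b : A) : w17 a b * w2 a b ∈ L F a b 12 := by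
  rw [m17_2 h a b]; exact ((L F a b 12).neg_mem (wv_mem a b 28 (by decide) (by decide)))
theorem q17_3 (h : Eng A) (a b : A) : w17 a b * w3 a b ∈ L F a b 13 := by
  rw [m17_3 h a b]; exact (L F a b 13).zero_mem
theorem q17_4 (h : Eng A) (a b : A) : w17 a b * w4 a b ∈ L F a b 13 := by
  rw [m17_4 h a b]; exact ((L F a b 13).sub_mem (wv_mem a b 34 (by decide) (by decide)) (wv_mem a b 35 (by decide) (by decide)))
theorem q17_5 (h : Eng A) (a b : A) : w17 a b * w5 a b ∈ L F a b 14 := by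
  rw [m17_5 h a b]; exact (wv_mem a b 38 (by decide) (by decide))
theorem q17_6 (h : Eng A) (a b : A) : w17 a b * w6 a b ∈ L F a b 15 := by
  rw [m17_6 h a b]; exact (L F a b 15).zero_mem
theorem q17_7 (h : Eng A) (a b : A) : w17 a b * w7 a b ∈ L F a b 15 := by
  rw [m17_7 h a b]; exact (L F a b 15).zero_mem
theorem q17_8 (h : Eng A) (a b : A) : w17 a b * w8 a b ∈ L F a b 16 := by
  rw [m17_8 h a b]; exact (L F a b 16).zero_mem
theorem q17_9 (h : Eng A) (a b : A) : w17 a b * w9 a b ∈ L F a b 17 := by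
  rw [m17_9 h a b]; exact (L F a b 17).zero_mem
theorem q17_10 (h : Eng A) (a b : A) : w17 a b * w10 a b ∈ L F a b 17 := by
  rw [m17_10 h a b]; exact (L F a b 17).zero_mem
theorem q17_11 (h : Eng A) (a b : A) : w17 a b * w11 a b ∈ L F a b 18 := by
  rw [m17_11 h a b]; exact (L F a b 18).zero_mem
theorem q17_12 (h : Eng A) (a b : A) : w17 a b * w12 a b ∈ L F a b 18 := by
  rw [m17_12 h a b]; exact (L F a b 18).zero_mem
theorem q17_13 (h : Eng A) (a b : A) : w17 a b * w13 a b ∈ L F a b 19 := by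
  rw [m17_13 h a b]; exact (L F a b 19).zero_mem
theorem q17_14 (h : Eng A) (a b : A) : w17 a b * w14 a b ∈ L F a b 19 := by
  rw [m17_14 h a b]; exact (L F a b 19).zero_mem
theorem q17_15 (h : Eng A) (a b : A) : w17 a b * w15 a b ∈ L F a b 19 := by
  rw [m17_15 h a b]; exact (L F a b 19).zero_mem
theorem q17_16 (h : Eng A) (a b : A) : w17 a b * w16 a b ∈ L F a b 19 := by
  rw [m17_16 h a b]; exact (L F a b 19).zero_mem
theorem q18_0 (h : Eng A) (a b : A) : w18 a b * w0 a b ∈ L F a b 11 := by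
  rw [m18_0 h a b]; exact ((L F a b 11).neg_mem (wv_mem a b 23 (by decide) (by decide)))
theorem q18_1 (h : Eng A) (a b : A) : w18 a b * w1 a b ∈ L F a b 11 := by
  rw [m18_1 h a b]; exact ((L F a b 11).neg_mem (wv_mem a b 26 (by decide) (by decide)))
theorem q18_2 (h : Eng A) (a b : A) : w18 a b * w2 a b ∈ L F a b 12 := by
  rw [m18_2 h a b]; exact ((L F a b 12).neg_mem (wv_mem a b 31 (by decide) (by decide)))
theorem q18_3 (h : Eng A) (a b : A) : w18 a b * w3 a b ∈ L F a b 13 := by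
  rw [m18_3 h a b]; exact ((L F a b 13).add_mem ((L F a b 13).add_mem ((L F a b 13).neg_mem (wv_mem a b 34 (by decide) (by decide))) (wv_mem a b 35 (by decide) (by decide))) (wv_mem a b 35 (by decide) (by decide)))
theorem q18_4 (h : Eng A) (a b : A) : w18 a b * w4 a b ∈ L F a b 13 := by
  rw [m18_4 h a b]; exact ((L F a b 13).add_mem ((L F a b 13).add_mem ((L F a b 13).neg_mem (wv_mem a b 36 (by decide) (by decide))) (wv_mem a b 37 (by decide) (by decide))) (wv_mem a b 37 (by decide) (by decide)))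
theorem q18_5 (h : Eng A) (a b : A) : w18 a b * w5 a b ∈ L F a b 14 := by
  rw [m18_5 h a b]; exact (L F a b 14).zero_mem
theorem q18_6 (h : Eng A) (a b : A) : w18 a b * w6 a b ∈ L F a b 15 := by
  rw [m18_6 h a b]; exact (L F a b 15).zero_mem
theorem q18_7 (h : Eng A) (a b : A) : w18 a b * w7 a b ∈ L F a b 15 := by
  rw [m18_7 h a b]; exact (L F a b 15).zero_mem
theorem q18_8 (h : Eng A) (a b : A) : w18 a b * w8 a b ∈ L F a b 16 := by
  rw [m18_8 h a b]; exact (L F a b 16).zero_mem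
theorem q18_9 (h : Eng A) (a b : A) : w18 a b * w9 a b ∈ L F a b 17 := by
  rw [m18_9 h a b]; exact (L F a b 17).zero_mem
theorem q18_10 (h : Eng A) (a b : A) : w18 a b * w10 a b ∈ L F a b 17 := by
  rw [m18_10 h a b]; exact (L F a b 17).zero_mem
theorem q18_11 (h : Eng A) (a b : A) : w18 a b * w11 a b ∈ L F a b 18 := by
  rw [m18_11 h a b]; exact (L F a b 18).zero_mem
theorem q18_12 (h : Eng A) (a b : A) : w18 a b * w12 a b ∈ L F a b 18 := by
  rw [m18_12 h a b]; exact (L F a b 18).zero_mem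
theorem q18_13 (h : Eng A) (a b : A) : w18 a b * w13 a b ∈ L F a b 19 := by
  rw [m18_13 h a b]; exact (L F a b 19).zero_mem
theorem q18_14 (h : Eng A) (a b : A) : w18 a b * w14 a b ∈ L F a b 19 := by
  rw [m18_14 h a b]; exact (L F a b 19).zero_mem
theorem q18_15 (h : Eng A) (a b : A) : w18 a b * w15 a b ∈ L F a b 19 := by
  rw [m18_15 h a b]; exact (L F a b 19).zero_mem
theorem q18_16 (h : Eng A) (a b : A) : w18 a b * w16 a b ∈ L F a b 19 := by
  rw [m18_16 h a b]; exact (L F a b 19).zero_mem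
theorem q18_17 (h : Eng A) (a b : A) : w18 a b * w17 a b ∈ L F a b 20 := by
  rw [m18_17 h a b]; exact (L F a b 20).zero_mem
theorem q19_0 (h : Eng A) (a b : A) : w19 a b * w0 a b ∈ L F a b 11 := by
  rw [m19_0 h a b]; exact ((L F a b 11).add_mem (wv_mem a b 22 (by decide) (by decide)) (wv_mem a b 23 (by decide) (by decide)))
theorem q19_1 (h : Eng A) (a b : A) : w19 a b * w1 a b ∈ L F a b 11 := by
  rw [m19_1 h a b]; exact (wv_mem a b 27 (by decide) (by decide))
theorem q19_2 (h : Eng A) (a b : A) : w19 a b * w2 a b ∈ L F a b 12 := by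
  rw [m19_2 h a b]; exact ((L F a b 12).add_mem ((L F a b 12).neg_mem (wv_mem a b 30 (by decide) (by decide))) (wv_mem a b 31 (by decide) (by decide)))
theorem q19_3 (h : Eng A) (a b : A) : w19 a b * w3 a b ∈ L F a b 13 := by
  rw [m19_3 h a b]; exact ((L F a b 13).neg_mem (wv_mem a b 35 (by decide) (by decide)))
theorem q19_4 (h : Eng A) (a b : A) : w19 a b * w4 a b ∈ L F a b 13 := by
  rw [m19_4 h a b]; exact ((L F a b 13).sub_mem ((L F a b 13).sub_mem (wv_mem a b 36 (by decide) (by decide)) (wv_mem a b 37 (by decide) (by decide))) (wv_mem a b 37 (by decide) (by decide)))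
theorem q19_5 (h : Eng A) (a b : A) : w19 a b * w5 a b ∈ L F a b 14 := by
  rw [m19_5 h a b]; exact (wv_mem a b 39 (by decide) (by decide))
theorem q19_6 (h : Eng A) (a b : A) : w19 a b * w6 a b ∈ L F a b 15 := by
  rw [m19_6 h a b]; exact (L F a b 15).zero_mem
theorem q19_7 (h : Eng A) (a b : A) : w19 a b * w7 a b ∈ L F a b 15 := by
  rw [m19_7 h a b]; exact (L F a b 15).zero_mem
theorem q19_8 (h : Eng A) (a b : A) : w19 a b * w8 a b ∈ L F a b 16 := by
  rw [m19_8 h a b]; exact (L F a b 16).zero_mem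
theorem q19_9 (h : Eng A) (a b : A) : w19 a b * w9 a b ∈ L F a b 17 := by
  rw [m19_9 h a b]; exact (L F a b 17).zero_mem
theorem q19_10 (h : Eng A) (a b : A) : w19 a b * w10 a b ∈ L F a b 17 := by
  rw [m19_10 h a b]; exact (L F a b 17).zero_mem
theorem q19_11 (h : Eng A) (a b : A) : w19 a b * w11 a b ∈ L F a b 18 := by
  rw [m19_11 h a b]; exact (L F a b 18).zero_mem
theorem q19_12 (h : Eng A) (a b : A) : w19 a b * w12 a b ∈ L F a b 18 := by
  rw [m19_12 h a b]; exact (L F a b 18).zero_mem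
theorem q19_13 (h : Eng A) (a b : A) : w19 a b * w13 a b ∈ L F a b 19 := by
  rw [m19_13 h a b]; exact (L F a b 19).zero_mem
theorem q19_14 (h : Eng A) (a b : A) : w19 a b * w14 a b ∈ L F a b 19 := by
  rw [m19_14 h a b]; exact (L F a b 19).zero_mem
theorem q19_15 (h : Eng A) (a b : A) : w19 a b * w15 a b ∈ L F a b 19 := by
  rw [m19_15 h a b]; exact (L F a b 19).zero_mem
theorem q19_16 (h : Eng A) (a b : A) : w19 a b * w16 a b ∈ L F a b 19 := by
  rw [m19_16 h a b]; exact (L F a b 19).zero_mem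
theorem q19_17 (h : Eng A) (a b : A) : w19 a b * w17 a b ∈ L F a b 20 := by
  rw [m19_17 h a b]; exact (L F a b 20).zero_mem
theorem q19_18 (h : Eng A) (a b : A) : w19 a b * w18 a b ∈ L F a b 20 := by
  rw [m19_18 h a b]; exact (L F a b 20).zero_mem
theorem q20_0 (h : Eng A) (a b : A) : w20 a b * w0 a b ∈ L F a b 11 := by
  rw [m20_0 h a b]; exact ((L F a b 11).neg_mem (wv_mem a b 24 (by decide) (by decide)))
theorem q20_1 (h : Eng A) (a b : A) : w20 a b * w1 a b ∈ L F a b 11 := by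
  rw [m20_1 h a b]; exact ((L F a b 11).sub_mem ((L F a b 11).neg_mem (wv_mem a b 25 (by decide) (by decide))) (wv_mem a b 26 (by decide) (by decide)))
theorem q20_2 (h : Eng A) (a b : A) : w20 a b * w2 a b ∈ L F a b 12 := by
  rw [m20_2 h a b]; exact ((L F a b 12).sub_mem ((L F a b 12).neg_mem (wv_mem a b 29 (by decide) (by decide))) (wv_mem a b 31 (by decide) (by decide)))
theorem q20_3 (h : Eng A) (a b : A) : w20 a b * w3 a b ∈ L F a b 13 := by
  rw [m20_3 h a b]; exact ((L F a b 13).add_mem ((L F a b 13).add_mem ((L F a b 13).neg_mem (wv_mem a b 34 (by decide) (by decide))) (wv_mem a b 35 (by decide) (by decide))) (wv_mem a b 35 (by decide) (by decide)))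
theorem q20_4 (h : Eng A) (a b : A) : w20 a b * w4 a b ∈ L F a b 13 := by
  rw [m20_4 h a b]; exact (wv_mem a b 37 (by decide) (by decide))
theorem q20_5 (h : Eng A) (a b : A) : w20 a b * w5 a b ∈ L F a b 14 := by
  rw [m20_5 h a b]; exact (wv_mem a b 39 (by decide) (by decide))
theorem q20_6 (h : Eng A) (a b : A) : w20 a b * w6 a b ∈ L F a b 15 := by
  rw [m20_6 h a b]; exact (L F a b 15).zero_mem
theorem q20_7 (h : Eng A) (a b : A) : w20 a b * w7 a b ∈ L F a b 15 := by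
  rw [m20_7 h a b]; exact (L F a b 15).zero_mem
theorem q20_8 (h : Eng A) (a b : A) : w20 a b * w8 a b ∈ L F a b 16 := by
  rw [m20_8 h a b]; exact (L F a b 16).zero_mem
theorem q20_9 (h : Eng A) (a b : A) : w20 a b * w9 a b ∈ L F a b 17 := by
  rw [m20_9 h a b]; exact (L F a b 17).zero_mem
theorem q20_10 (h : Eng A) (a b : A) : w20 a b * w10 a b ∈ L F a b 17 := by
  rw [m20_10 h a b]; exact (L F a b 17).zero_mem
theorem q20_11 (h : Eng A) (a b : A) : w20 a b * w11 a b ∈ L F a b 18 := by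
  rw [m20_11 h a b]; exact (L F a b 18).zero_mem
theorem q20_12 (h : Eng A) (a b : A) : w20 a b * w12 a b ∈ L F a b 18 := by
  rw [m20_12 h a b]; exact (L F a b 18).zero_mem
theorem q20_13 (h : Eng A) (a b : A) : w20 a b * w13 a b ∈ L F a b 19 := by
  rw [m20_13 h a b]; exact (L F a b 19).zero_mem
theorem q20_14 (h : Eng A) (a b : A) : w20 a b * w14 a b ∈ L F a b 19 := by
  rw [m20_14 h a b]; exact (L F a b 19).zero_mem
theorem q20_15 (h : Eng A) (a b : A) : w20 a b * w15 a b ∈ L F a b 19 := by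
  rw [m20_15 h a b]; exact (L F a b 19).zero_mem
theorem q20_16 (h : Eng A) (a b : A) : w20 a b * w16 a b ∈ L F a b 19 := by
  rw [m20_16 h a b]; exact (L F a b 19).zero_mem
theorem q20_17 (h : Eng A) (a b : A) : w20 a b * w17 a b ∈ L F a b 20 := by
  rw [m20_17 h a b]; exact (L F a b 20).zero_mem
theorem q20_18 (h : Eng A) (a b : A) : w20 a b * w18 a b ∈ L F a b 20 := by
  rw [m20_18 h a b]; exact (L F a b 20).zero_mem
theorem q20_19 (h : Eng A) (a b : A) : w20 a b * w19 a b ∈ L F a b 20 := by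
  rw [m20_19 h a b]; exact (L F a b 20).zero_mem
theorem q21_0 (h : Eng A) (a b : A) : w21 a b * w0 a b ∈ L F a b 11 := by
  rw [m21_0 h a b]; exact ((L F a b 11).sub_mem ((L F a b 11).add_mem (wv_mem a b 25 (by decide) (by decide)) (wv_mem a b 26 (by decide) (by decide))) (wv_mem a b 27 (by decide) (by decide)))
theorem q21_1 (h : Eng A) (a b : A) : w21 a b * w1 a b ∈ L F a b 11 := by
  rw [m21_1 h a b]; exact (L F a b 11).zero_mem
theorem q21_2 (h : Eng A) (a b : A) : w21 a b * w2 a b ∈ L F a b 12 := by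
  rw [m21_2 h a b]; exact ((L F a b 12).neg_mem (wv_mem a b 33 (by decide) (by decide)))
theorem q21_3 (h : Eng A) (a b : A) : w21 a b * w3 a b ∈ L F a b 13 := by
  rw [m21_3 h a b]; exact ((L F a b 13).add_mem ((L F a b 13).neg_mem (wv_mem a b 36 (by decide) (by decide))) (wv_mem a b 37 (by decide) (by decide)))
theorem q21_4 (h : Eng A) (a b : A) : w21 a b * w4 a b ∈ L F a b 13 := by
  rw [m21_4 h a b]; exact (L F a b 13).zero_mem
theorem q21_5 (h : Eng A) (a b : A) : w21 a b * w5 a b ∈ L F a b 14 := by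
  rw [m21_5 h a b]; exact (wv_mem a b 40 (by decide) (by decide))
theorem q21_6 (h : Eng A) (a b : A) : w21 a b * w6 a b ∈ L F a b 15 := by
  rw [m21_6 h a b]; exact (L F a b 15).zero_mem
theorem q21_7 (h : Eng A) (a b : A) : w21 a b * w7 a b ∈ L F a b 15 := by
  rw [m21_7 h a b]; exact (L F a b 15).zero_mem
theorem q21_8 (h : Eng A) (a b : A) : w21 a b * w8 a b ∈ L F a b 16 := by
  rw [m21_8 h a b]; exact (L F a b 16).zero_mem
theorem q21_9 (h : Eng A) (a b : A) : w21 a b * w9 a b ∈ L F a b 17 := by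
  rw [m21_9 h a b]; exact (L F a b 17).zero_mem
theorem q21_10 (h : Eng A) (a b : A) : w21 a b * w10 a b ∈ L F a b 17 := by
  rw [m21_10 h a b]; exact (L F a b 17).zero_mem
theorem q21_11 (h : Eng A) (a b : A) : w21 a b * w11 a b ∈ L F a b 18 := by
  rw [m21_11 h a b]; exact (L F a b 18).zero_mem
theorem q21_12 (h : Eng A) (a b : A) : w21 a b * w12 a b ∈ L F a b 18 := by
  rw [m21_12 h a b]; exact (L F a b 18).zero_mem
theorem q21_13 (h : Eng A) (a b : A) : w21 a b * w13 a b ∈ L F a b 19 := by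
  rw [m21_13 h a b]; exact (L F a b 19).zero_mem
theorem q21_14 (h : Eng A) (a b : A) : w21 a b * w14 a b ∈ L F a b 19 := by
  rw [m21_14 h a b]; exact (L F a b 19).zero_mem
theorem q21_15 (h : Eng A) (a b : A) : w21 a b * w15 a b ∈ L F a b 19 := by
  rw [m21_15 h a b]; exact (L F a b 19).zero_mem
theorem q21_16 (h : Eng A) (a b : A) : w21 a b * w16 a b ∈ L F a b 19 := by
  rw [m21_16 h a b]; exact (L F a b 19).zero_mem
theorem q21_17 (h : Eng A) (a b : A) : w21 a b * w17 a b ∈ L F a b 20 := by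
  rw [m21_17 h a b]; exact (L F a b 20).zero_mem
theorem q21_18 (h : Eng A) (a b : A) : w21 a b * w18 a b ∈ L F a b 20 := by
  rw [m21_18 h a b]; exact (L F a b 20).zero_mem
theorem q21_19 (h : Eng A) (a b : A) : w21 a b * w19 a b ∈ L F a b 20 := by
  rw [m21_19 h a b]; exact (L F a b 20).zero_mem
theorem q21_20 (h : Eng A) (a b : A) : w21 a b * w20 a b ∈ L F a b 20 := by
  rw [m21_20 h a b]; exact (L F a b 20).zero_mem
theorem q22_0 (h : Eng A) (a b : A) : w22 a b * w0 a b ∈ L F a b 12 := by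
  rw [m22_0 h a b]; exact ((L F a b 12).neg_mem (wv_mem a b 28 (by decide) (by decide)))
theorem q22_1 (h : Eng A) (a b : A) : w22 a b * w1 a b ∈ L F a b 12 := by
  rw [m22_1 h a b]; exact ((L F a b 12).neg_mem (wv_mem a b 30 (by decide) (by decide)))
theorem q22_2 (h : Eng A) (a b : A) : w22 a b * w2 a b ∈ L F a b 13 := by
  rw [m22_2 h a b]; exact ((L F a b 13).neg_mem (wv_mem a b 34 (by decide) (by decide)))
theorem q22_3 (h : Eng A) (a b : A) : w22 a b * w3 a b ∈ L F a b 14 := by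
  rw [m22_3 h a b]; exact ((L F a b 14).neg_mem (wv_mem a b 38 (by decide) (by decide)))
theorem q22_4 (h : Eng A) (a b : A) : w22 a b * w4 a b ∈ L F a b 14 := by
  rw [m22_4 h a b]; exact ((L F a b 14).neg_mem (wv_mem a b 39 (by decide) (by decide)))
theorem q22_5 (h : Eng A) (a b : A) : w22 a b * w5 a b ∈ L F a b 15 := by
  rw [m22_5 h a b]; exact (L F a b 15).zero_mem
theorem q22_6 (h : Eng A) (a b : A) : w22 a b * w6 a b ∈ L F a b 16 := by
  rw [m22_6 h a b]; exact (L F a b 16).zero_mem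
theorem q22_7 (h : Eng A) (a b : A) : w22 a b * w7 a b ∈ L F a b 16 := by
  rw [m22_7 h a b]; exact (L F a b 16).zero_mem
theorem q22_8 (h : Eng A) (a b : A) : w22 a b * w8 a b ∈ L F a b 17 := by
  rw [m22_8 h a b]; exact (L F a b 17).zero_mem
theorem q22_9 (h : Eng A) (a b : A) : w22 a b * w9 a b ∈ L F a b 18 := by
  rw [m22_9 h a b]; exact (L F a b 18).zero_mem
theorem q22_10 (h : Eng A) (a b : A) : w22 a b * w10 a b ∈ L F a b 18 := by
  rw [m22_10 h a b]; exact (L F a b 18).zero_mem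
theorem q22_11 (h : Eng A) (a b : A) : w22 a b * w11 a b ∈ L F a b 19 := by
  rw [m22_11 h a b]; exact (L F a b 19).zero_mem
theorem q22_12 (h : Eng A) (a b : A) : w22 a b * w12 a b ∈ L F a b 19 := by
  rw [m22_12 h a b]; exact (L F a b 19).zero_mem
theorem q22_13 (h : Eng A) (a b : A) : w22 a b * w13 a b ∈ L F a b 20 := by
  rw [m22_13 h a b]; exact (L F a b 20).zero_mem
theorem q22_14 (h : Eng A) (a b : A) : w22 a b * w14 a b ∈ L F a b 20 := by
  rw [m22_14 h a b]; exact (L F a b 20).zero_mem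
theorem q22_15 (h : Eng A) (a b : A) : w22 a b * w15 a b ∈ L F a b 20 := by
  rw [m22_15 h a b]; exact (L F a b 20).zero_mem
theorem q22_16 (h : Eng A) (a b : A) : w22 a b * w16 a b ∈ L F a b 20 := by
  rw [m22_16 h a b]; exact (L F a b 20).zero_mem
theorem q22_17 (h : Eng A) (a b : A) : w22 a b * w17 a b ∈ L F a b 21 := by
  rw [m22_17 h a b]; exact (L F a b 21).zero_mem
theorem q22_18 (h : Eng A) (a b : A) : w22 a b * w18 a b ∈ L F a b 21 := by
  rw [m22_18 h a b]; exact (L F a b 21).zero_mem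
theorem q22_19 (h : Eng A) (a b : A) : w22 a b * w19 a b ∈ L F a b 21 := by
  rw [m22_19 h a b]; exact (L F a b 21).zero_mem
theorem q22_20 (h : Eng A) (a b : A) : w22 a b * w20 a b ∈ L F a b 21 := by
  rw [m22_20 h a b]; exact (L F a b 21).zero_mem
theorem q22_21 (h : Eng A) (a b : A) : w22 a b * w21 a b ∈ L F a b 21 := by
  rw [m22_21 h a b]; exact (L F a b 21).zero_mem
theorem q23_0 (h : Eng A) (a b : A) : w23 a b * w0 a b ∈ L F a b 12 := by
  rw [m23_0 h a b]; exact (wv_mem a b 28 (by decide) (by decide))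
theorem q23_1 (h : Eng A) (a b : A) : w23 a b * w1 a b ∈ L F a b 12 := by
  rw [m23_1 h a b]; exact ((L F a b 12).sub_mem ((L F a b 12).add_mem (wv_mem a b 30 (by decide) (by decide)) (wv_mem a b 31 (by decide) (by decide))) (wv_mem a b 32 (by decide) (by decide)))
theorem q23_2 (h : Eng A) (a b : A) : w23 a b * w2 a b ∈ L F a b 13 := by
  rw [m23_2 h a b]; exact ((L F a b 13).sub_mem (wv_mem a b 34 (by decide) (by decide)) (wv_mem a b 35 (by decide) (by decide)))
theorem q23_3 (h : Eng A) (a b : A) : w23 a b * w3 a b ∈ L F a b 14 := by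
  rw [m23_3 h a b]; exact (L F a b 14).zero_mem
theorem q23_4 (h : Eng A) (a b : A) : w23 a b * w4 a b ∈ L F a b 14 := by
  rw [m23_4 h a b]; exact (L F a b 14).zero_mem
theorem q23_5 (h : Eng A) (a b : A) : w23 a b * w5 a b ∈ L F a b 15 := by
  rw [m23_5 h a b]; exact (L F a b 15).zero_mem
theorem q23_6 (h : Eng A) (a b : A) : w23 a b * w6 a b ∈ L F a b 16 := by
  rw [m23_6 h a b]; exact (L F a b 16).zero_mem
theorem q23_7 (h : Eng A) (a b : A) : w23 a b * w7 a b ∈ L F a b 16 := by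
  rw [m23_7 h a b]; exact (L F a b 16).zero_mem
theorem q23_8 (h : Eng A) (a b : A) : w23 a b * w8 a b ∈ L F a b 17 := by
  rw [m23_8 h a b]; exact (L F a b 17).zero_mem
theorem q23_9 (h : Eng A) (a b : A) : w23 a b * w9 a b ∈ L F a b 18 := by
  rw [m23_9 h a b]; exact (L F a b 18).zero_mem
theorem q23_10 (h : Eng A) (a b : A) : w23 a b * w10 a b ∈ L F a b 18 := by
  rw [m23_10 h a b]; exact (L F a b 18).zero_mem
theorem q23_11 (h : Eng A) (a b : A) : w23 a b * w11 a b ∈ L F a b 19 := by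
  rw [m23_11 h a b]; exact (L F a b 19).zero_mem
theorem q23_12 (h : Eng A) (a b : A) : w23 a b * w12 a b ∈ L F a b 19 := by
  rw [m23_12 h a b]; exact (L F a b 19).zero_mem
theorem q23_13 (h : Eng A) (a b : A) : w23 a b * w13 a b ∈ L F a b 20 := by
  rw [m23_13 h a b]; exact (L F a b 20).zero_mem
theorem q23_14 (h : Eng A) (a b : A) : w23 a b * w14 a b ∈ L F a b 20 := by
  rw [m23_14 h a b]; exact (L F a b 20).zero_mem
theorem q23_15 (h : Eng A) (a b : A) : w23 a b * w15 a b ∈ L F a b 20 := by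
  rw [m23_15 h a b]; exact (L F a b 20).zero_mem
theorem q23_16 (h : Eng A) (a b : A) : w23 a b * w16 a b ∈ L F a b 20 := by
  rw [m23_16 h a b]; exact (L F a b 20).zero_mem
theorem q23_17 (h : Eng A) (a b : A) : w23 a b * w17 a b ∈ L F a b 21 := by
  rw [m23_17 h a b]; exact (L F a b 21).zero_mem
theorem q23_18 (h : Eng A) (a b : A) : w23 a b * w18 a b ∈ L F a b 21 := by
  rw [m23_18 h a b]; exact (L F a b 21).zero_mem
theorem q23_19 (h : Eng A) (a b : A) : w23 a b * w19 a b ∈ L F a b 21 := by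
  rw [m23_19 h a b]; exact (L F a b 21).zero_mem
theorem q23_20 (h : Eng A) (a b : A) : w23 a b * w20 a b ∈ L F a b 21 := by
  rw [m23_20 h a b]; exact (L F a b 21).zero_mem
theorem q23_21 (h : Eng A) (a b : A) : w23 a b * w21 a b ∈ L F a b 21 := by
  rw [m23_21 h a b]; exact (L F a b 21).zero_mem
theorem q23_22 (h : Eng A) (a b : A) : w23 a b * w22 a b ∈ L F a b 22 := by
  rw [m23_22 h a b]; exact (L F a b 22).zero_mem
theorem q24_0 (h : Eng A) (a b : A) : w24 a b * w0 a b ∈ L F a b 12 := by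
  rw [m24_0 h a b]; exact (L F a b 12).zero_mem
theorem q24_1 (h : Eng A) (a b : A) : w24 a b * w1 a b ∈ L F a b 12 := by
  rw [m24_1 h a b]; exact ((L F a b 12).sub_mem (wv_mem a b 29 (by decide) (by decide)) (wv_mem a b 30 (by decide) (by decide)))
theorem q24_2 (h : Eng A) (a b : A) : w24 a b * w2 a b ∈ L F a b 13 := by
  rw [m24_2 h a b]; exact ((L F a b 13).neg_mem (wv_mem a b 34 (by decide) (by decide)))
theorem q24_3 (h : Eng A) (a b : A) : w24 a b * w3 a b ∈ L F a b 14 := by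
  rw [m24_3 h a b]; exact ((L F a b 14).neg_mem (wv_mem a b 38 (by decide) (by decide)))
theorem q24_4 (h : Eng A) (a b : A) : w24 a b * w4 a b ∈ L F a b 14 := by
  rw [m24_4 h a b]; exact ((L F a b 14).neg_mem (wv_mem a b 39 (by decide) (by decide)))
theorem q24_5 (h : Eng A) (a b : A) : w24 a b * w5 a b ∈ L F a b 15 := by
  rw [m24_5 h a b]; exact (L F a b 15).zero_mem
theorem q24_6 (h : Eng A) (a b : A) : w24 a b * w6 a b ∈ L F a b 16 := by
  rw [m24_6 h a b]; exact (L F a b 16).zero_mem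
theorem q24_7 (h : Eng A) (a b : A) : w24 a b * w7 a b ∈ L F a b 16 := by
  rw [m24_7 h a b]; exact (L F a b 16).zero_mem
theorem q24_8 (h : Eng A) (a b : A) : w24 a b * w8 a b ∈ L F a b 17 := by
  rw [m24_8 h a b]; exact (L F a b 17).zero_mem
theorem q24_9 (h : Eng A) (a b : A) : w24 a b * w9 a b ∈ L F a b 18 := by
  rw [m24_9 h a b]; exact (L F a b 18).zero_mem
theorem q24_10 (h : Eng A) (a b : A) : w24 a b * w10 a b ∈ L F a b 18 := by
  rw [m24_10 h a b]; exact (L F a b 18).zero_mem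
theorem q24_11 (h : Eng A) (a b : A) : w24 a b * w11 a b ∈ L F a b 19 := by
  rw [m24_11 h a b]; exact (L F a b 19).zero_mem
theorem q24_12 (h : Eng A) (a b : A) : w24 a b * w12 a b ∈ L F a b 19 := by
  rw [m24_12 h a b]; exact (L F a b 19).zero_mem
theorem q24_13 (h : Eng A) (a b : A) : w24 a b * w13 a b ∈ L F a b 20 := by
  rw [m24_13 h a b]; exact (L F a b 20).zero_mem
theorem q24_14 (h : Eng A) (a b : A) : w24 a b * w14 a b ∈ L F a b 20 := by
  rw [m24_14 h a b]; exact (L F a b 20).zero_mem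
theorem q24_15 (h : Eng A) (a b : A) : w24 a b * w15 a b ∈ L F a b 20 := by
  rw [m24_15 h a b]; exact (L F a b 20).zero_mem
theorem q24_16 (h : Eng A) (a b : A) : w24 a b * w16 a b ∈ L F a b 20 := by
  rw [m24_16 h a b]; exact (L F a b 20).zero_mem
theorem q24_17 (h : Eng A) (a b : A) : w24 a b * w17 a b ∈ L F a b 21 := by
  rw [m24_17 h a b]; exact (L F a b 21).zero_mem
theorem q24_18 (h : Eng A) (a b : A) : w24 a b * w18 a b ∈ L F a b 21 := by
  rw [m24_18 h a b]; exact (L F a b 21).zero_mem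
theorem q24_19 (h : Eng A) (a b : A) : w24 a b * w19 a b ∈ L F a b 21 := by
  rw [m24_19 h a b]; exact (L F a b 21).zero_mem
theorem q24_20 (h : Eng A) (a b : A) : w24 a b * w20 a b ∈ L F a b 21 := by
  rw [m24_20 h a b]; exact (L F a b 21).zero_mem
theorem q24_21 (h : Eng A) (a b : A) : w24 a b * w21 a b ∈ L F a b 21 := by
  rw [m24_21 h a b]; exact (L F a b 21).zero_mem
theorem q24_22 (h : Eng A) (a b : A) : w24 a b * w22 a b ∈ L F a b 22 := by
  rw [m24_22 h a b]; exact (L F a b 22).zero_mem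
theorem q24_23 (h : Eng A) (a b : A) : w24 a b * w23 a b ∈ L F a b 22 := by
  rw [m24_23 h a b]; exact (L F a b 22).zero_mem
theorem q25_0 (h : Eng A) (a b : A) : w25 a b * w0 a b ∈ L F a b 12 := by
  rw [m25_0 h a b]; exact ((L F a b 12).neg_mem (wv_mem a b 29 (by decide) (by decide)))
theorem q25_1 (h : Eng A) (a b : A) : w25 a b * w1 a b ∈ L F a b 12 := by
  rw [m25_1 h a b]; exact ((L F a b 12).neg_mem (wv_mem a b 33 (by decide) (by decide)))
theorem q25_2 (h : Eng A) (a b : A) : w25 a b * w2 a b ∈ L F a b 13 := by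
  rw [m25_2 h a b]; exact ((L F a b 13).neg_mem (wv_mem a b 36 (by decide) (by decide)))
theorem q25_3 (h : Eng A) (a b : A) : w25 a b * w3 a b ∈ L F a b 14 := by
  rw [m25_3 h a b]; exact ((L F a b 14).neg_mem (wv_mem a b 39 (by decide) (by decide)))
theorem q25_4 (h : Eng A) (a b : A) : w25 a b * w4 a b ∈ L F a b 14 := by
  rw [m25_4 h a b]; exact ((L F a b 14).neg_mem (wv_mem a b 40 (by decide) (by decide)))
theorem q25_5 (h : Eng A) (a b : A) : w25 a b * w5 a b ∈ L F a b 15 := by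
  rw [m25_5 h a b]; exact (L F a b 15).zero_mem
theorem q25_6 (h : Eng A) (a b : A) : w25 a b * w6 a b ∈ L F a b 16 := by
  rw [m25_6 h a b]; exact (L F a b 16).zero_mem
theorem q25_7 (h : Eng A) (a b : A) : w25 a b * w7 a b ∈ L F a b 16 := by
  rw [m25_7 h a b]; exact (L F a b 16).zero_mem
theorem q25_8 (h : Eng A) (a b : A) : w25 a b * w8 a b ∈ L F a b 17 := by
  rw [m25_8 h a b]; exact (L F a b 17).zero_mem
theorem q25_9 (h : Eng A) (a b : A) : w25 a b * w9 a b ∈ L F a b 18 := by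
  rw [m25_9 h a b]; exact (L F a b 18).zero_mem
theorem q25_10 (h : Eng A) (a b : A) : w25 a b * w10 a b ∈ L F a b 18 := by
  rw [m25_10 h a b]; exact (L F a b 18).zero_mem
theorem q25_11 (h : Eng A) (a b : A) : w25 a b * w11 a b ∈ L F a b 19 := by
  rw [m25_11 h a b]; exact (L F a b 19).zero_mem
theorem q25_12 (h : Eng A) (a b : A) : w25 a b * w12 a b ∈ L F a b 19 := by
  rw [m25_12 h a b]; exact (L F a b 19).zero_mem
theorem q25_13 (h : Eng A) (a b : A) : w25 a b * w13 a b ∈ L F a b 20 := by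
  rw [m25_13 h a b]; exact (L F a b 20).zero_mem
theorem q25_14 (h : Eng A) (a b : A) : w25 a b * w14 a b ∈ L F a b 20 := by
  rw [m25_14 h a b]; exact (L F a b 20).zero_mem
theorem q25_15 (h : Eng A) (a b : A) : w25 a b * w15 a b ∈ L F a b 20 := by
  rw [m25_15 h a b]; exact (L F a b 20).zero_mem
theorem q25_16 (h : Eng A) (a b : A) : w25 a b * w16 a b ∈ L F a b 20 := by
  rw [m25_16 h a b]; exact (L F a b 20).zero_mem
theorem q25_17 (h : Eng A) (a b : A) : w25 a b * w17 a b ∈ L F a b 21 := by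
  rw [m25_17 h a b]; exact (L F a b 21).zero_mem
theorem q25_18 (h : Eng A) (a b : A) : w25 a b * w18 a b ∈ L F a b 21 := by
  rw [m25_18 h a b]; exact (L F a b 21).zero_mem
theorem q25_19 (h : Eng A) (a b : A) : w25 a b * w19 a b ∈ L F a b 21 := by
  rw [m25_19 h a b]; exact (L F a b 21).zero_mem
theorem q25_20 (h : Eng A) (a b : A) : w25 a b * w20 a b ∈ L F a b 21 := by
  rw [m25_20 h a b]; exact (L F a b 21).zero_mem
theorem q25_21 (h : Eng A) (a b : A) : w25 a b * w21 a b ∈ L F a b 21 := by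
  rw [m25_21 h a b]; exact (L F a b 21).zero_mem
theorem q25_22 (h : Eng A) (a b : A) : w25 a b * w22 a b ∈ L F a b 22 := by
  rw [m25_22 h a b]; exact (L F a b 22).zero_mem
theorem q25_23 (h : Eng A) (a b : A) : w25 a b * w23 a b ∈ L F a b 22 := by
  rw [m25_23 h a b]; exact (L F a b 22).zero_mem
theorem q25_24 (h : Eng A) (a b : A) : w25 a b * w24 a b ∈ L F a b 22 := by
  rw [m25_24 h a b]; exact (L F a b 22).zero_mem
theorem q26_0 (h : Eng A) (a b : A) : w26 a b * w0 a b ∈ L F a b 12 := by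
  rw [m26_0 h a b]; exact ((L F a b 12).add_mem ((L F a b 12).sub_mem (wv_mem a b 29 (by decide) (by decide)) (wv_mem a b 31 (by decide) (by decide))) (wv_mem a b 32 (by decide) (by decide)))
theorem q26_1 (h : Eng A) (a b : A) : w26 a b * w1 a b ∈ L F a b 12 := by
  rw [m26_1 h a b]; exact (wv_mem a b 33 (by decide) (by decide))
theorem q26_2 (h : Eng A) (a b : A) : w26 a b * w2 a b ∈ L F a b 13 := by
  rw [m26_2 h a b]; exact ((L F a b 13).sub_mem (wv_mem a b 36 (by decide) (by decide)) (wv_mem a b 37 (by decide) (by decide)))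
theorem q26_3 (h : Eng A) (a b : A) : w26 a b * w3 a b ∈ L F a b 14 := by
  rw [m26_3 h a b]; exact (L F a b 14).zero_mem
theorem q26_4 (h : Eng A) (a b : A) : w26 a b * w4 a b ∈ L F a b 14 := by
  rw [m26_4 h a b]; exact (L F a b 14).zero_mem
theorem q26_5 (h : Eng A) (a b : A) : w26 a b * w5 a b ∈ L F a b 15 := by
  rw [m26_5 h a b]; exact (L F a b 15).zero_mem
theorem q26_6 (h : Eng A) (a b : A) : w26 a b * w6 a b ∈ L F a b 16 := by
  rw [m26_6 h a b]; exact (L F a b 16).zero_mem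
theorem q26_7 (h : Eng A) (a b : A) : w26 a b * w7 a b ∈ L F a b 16 := by
  rw [m26_7 h a b]; exact (L F a b 16).zero_mem
theorem q26_8 (h : Eng A) (a b : A) : w26 a b * w8 a b ∈ L F a b 17 := by
  rw [m26_8 h a b]; exact (L F a b 17).zero_mem
theorem q26_9 (h : Eng A) (a b : A) : w26 a b * w9 a b ∈ L F a b 18 := by
  rw [m26_9 h a b]; exact (L F a b 18).zero_mem
theorem q26_10 (h : Eng A) (a b : A) : w26 a b * w10 a b ∈ L F a b 18 := by
  rw [m26_10 h a b]; exact (L F a b 18).zero_mem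
theorem q26_11 (h : Eng A) (a b : A) : w26 a b * w11 a b ∈ L F a b 19 := by
  rw [m26_11 h a b]; exact (L F a b 19).zero_mem
theorem q26_12 (h : Eng A) (a b : A) : w26 a b * w12 a b ∈ L F a b 19 := by
  rw [m26_12 h a b]; exact (L F a b 19).zero_mem
theorem q26_13 (h : Eng A) (a b : A) : w26 a b * w13 a b ∈ L F a b 20 := by
  rw [m26_13 h a b]; exact (L F a b 20).zero_mem
theorem q26_14 (h : Eng A) (a b : A) : w26 a b * w14 a b ∈ L F a b 20 := by
  rw [m26_14 h a b]; exact (L F a b 20).zero_mem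
theorem q26_15 (h : Eng A) (a b : A) : w26 a b * w15 a b ∈ L F a b 20 := by
  rw [m26_15 h a b]; exact (L F a b 20).zero_mem
theorem q26_16 (h : Eng A) (a b : A) : w26 a b * w16 a b ∈ L F a b 20 := by
  rw [m26_16 h a b]; exact (L F a b 20).zero_mem
theorem q26_17 (h : Eng A) (a b : A) : w26 a b * w17 a b ∈ L F a b 21 := by
  rw [m26_17 h a b]; exact (L F a b 21).zero_mem
theorem q26_18 (h : Eng A) (a b : A) : w26 a b * w18 a b ∈ L F a b 21 := by
  rw [m26_18 h a b]; exact (L F a b 21).zero_mem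
theorem q26_19 (h : Eng A) (a b : A) : w26 a b * w19 a b ∈ L F a b 21 := by
  rw [m26_19 h a b]; exact (L F a b 21).zero_mem
theorem q26_20 (h : Eng A) (a b : A) : w26 a b * w20 a b ∈ L F a b 21 := by
  rw [m26_20 h a b]; exact (L F a b 21).zero_mem
theorem q26_21 (h : Eng A) (a b : A) : w26 a b * w21 a b ∈ L F a b 21 := by
  rw [m26_21 h a b]; exact (L F a b 21).zero_mem
theorem q26_22 (h : Eng A) (a b : A) : w26 a b * w22 a b ∈ L F a b 22 := by
  rw [m26_22 h a b]; exact (L F a b 22).zero_mem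
theorem q26_23 (h : Eng A) (a b : A) : w26 a b * w23 a b ∈ L F a b 22 := by
  rw [m26_23 h a b]; exact (L F a b 22).zero_mem
theorem q26_24 (h : Eng A) (a b : A) : w26 a b * w24 a b ∈ L F a b 22 := by
  rw [m26_24 h a b]; exact (L F a b 22).zero_mem
theorem q26_25 (h : Eng A) (a b : A) : w26 a b * w25 a b ∈ L F a b 22 := by
  rw [m26_25 h a b]; exact (L F a b 22).zero_mem
theorem q27_0 (h : Eng A) (a b : A) : w27 a b * w0 a b ∈ L F a b 12 := by
  rw [m27_0 h a b]; exact ((L F a b 12).add_mem ((L F a b 12).neg_mem (wv_mem a b 29 (by decide) (by decide))) (wv_mem a b 30 (by decide) (by decide)))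
theorem q27_1 (h : Eng A) (a b : A) : w27 a b * w1 a b ∈ L F a b 12 := by
  rw [m27_1 h a b]; exact (L F a b 12).zero_mem
theorem q27_2 (h : Eng A) (a b : A) : w27 a b * w2 a b ∈ L F a b 13 := by
  rw [m27_2 h a b]; exact ((L F a b 13).neg_mem (wv_mem a b 36 (by decide) (by decide)))
theorem q27_3 (h : Eng A) (a b : A) : w27 a b * w3 a b ∈ L F a b 14 := by
  rw [m27_3 h a b]; exact ((L F a b 14).neg_mem (wv_mem a b 39 (by decide) (by decide)))
theorem q27_4 (h : Eng A) (a b : A) : w27 a b * w4 a b ∈ L F a b 14 := by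
  rw [m27_4 h a b]; exact ((L F a b 14).neg_mem (wv_mem a b 40 (by decide) (by decide)))
theorem q27_5 (h : Eng A) (a b : A) : w27 a b * w5 a b ∈ L F a b 15 := by
  rw [m27_5 h a b]; exact (L F a b 15).zero_mem
theorem q27_6 (h : Eng A) (a b : A) : w27 a b * w6 a b ∈ L F a b 16 := by
  rw [m27_6 h a b]; exact (L F a b 16).zero_mem
theorem q27_7 (h : Eng A) (a b : A) : w27 a b * w7 a b ∈ L F a b 16 := by
  rw [m27_7 h a b]; exact (L F a b 16).zero_mem
theorem q27_8 (h : Eng A) (a b : A) : w27 a b * w8 a b ∈ L F a b 17 := by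
  rw [m27_8 h a b]; exact (L F a b 17).zero_mem
theorem q27_9 (h : Eng A) (a b : A) : w27 a b * w9 a b ∈ L F a b 18 := by
  rw [m27_9 h a b]; exact (L F a b 18).zero_mem
theorem q27_10 (h : Eng A) (a b : A) : w27 a b * w10 a b ∈ L F a b 18 := by
  rw [m27_10 h a b]; exact (L F a b 18).zero_mem
theorem q27_11 (h : Eng A) (a b : A) : w27 a b * w11 a b ∈ L F a b 19 := by
  rw [m27_11 h a b]; exact (L F a b 19).zero_mem
theorem q27_12 (h : Eng A) (a b : A) : w27 a b * w12 a b ∈ L F a b 19 := by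
  rw [m27_12 h a b]; exact (L F a b 19).zero_mem
theorem q27_13 (h : Eng A) (a b : A) : w27 a b * w13 a b ∈ L F a b 20 := by
  rw [m27_13 h a b]; exact (L F a b 20).zero_mem
theorem q27_14 (h : Eng A) (a b : A) : w27 a b * w14 a b ∈ L F a b 20 := by
  rw [m27_14 h a b]; exact (L F a b 20).zero_mem
theorem q27_15 (h : Eng A) (a b : A) : w27 a b * w15 a b ∈ L F a b 20 := by
  rw [m27_15 h a b]; exact (L F a b 20).zero_mem
theorem q27_16 (h : Eng A) (a b : A) : w27 a b * w16 a b ∈ L F a b 20 := by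
  rw [m27_16 h a b]; exact (L F a b 20).zero_mem
theorem q27_17 (h : Eng A) (a b : A) : w27 a b * w17 a b ∈ L F a b 21 := by
  rw [m27_17 h a b]; exact (L F a b 21).zero_mem
theorem q27_18 (h : Eng A) (a b : A) : w27 a b * w18 a b ∈ L F a b 21 := by
  rw [m27_18 h a b]; exact (L F a b 21).zero_mem
theorem q27_19 (h : Eng A) (a b : A) : w27 a b * w19 a b ∈ L F a b 21 := by
  rw [m27_19 h a b]; exact (L F a b 21).zero_mem
theorem q27_20 (h : Eng A) (a b : A) : w27 a b * w20 a b ∈ L F a b 21 := by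
  rw [m27_20 h a b]; exact (L F a b 21).zero_mem
theorem q27_21 (h : Eng A) (a b : A) : w27 a b * w21 a b ∈ L F a b 21 := by
  rw [m27_21 h a b]; exact (L F a b 21).zero_mem
theorem q27_22 (h : Eng A) (a b : A) : w27 a b * w22 a b ∈ L F a b 22 := by
  rw [m27_22 h a b]; exact (L F a b 22).zero_mem
theorem q27_23 (h : Eng A) (a b : A) : w27 a b * w23 a b ∈ L F a b 22 := by
  rw [m27_23 h a b]; exact (L F a b 22).zero_mem
theorem q27_24 (h : Eng A) (a b : A) : w27 a b * w24 a b ∈ L F a b 22 := by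
  rw [m27_24 h a b]; exact (L F a b 22).zero_mem
theorem q27_25 (h : Eng A) (a b : A) : w27 a b * w25 a b ∈ L F a b 22 := by
  rw [m27_25 h a b]; exact (L F a b 22).zero_mem
theorem q27_26 (h : Eng A) (a b : A) : w27 a b * w26 a b ∈ L F a b 22 := by
  rw [m27_26 h a b]; exact (L F a b 22).zero_mem
theorem q28_0 (h : Eng A) (a b : A) : w28 a b * w0 a b ∈ L F a b 13 := by
  rw [m28_0 h a b]; exact (L F a b 13).zero_mem
theorem q28_1 (h : Eng A) (a b : A) : w28 a b * w1 a b ∈ L F a b 13 := by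
  rw [m28_1 h a b]; exact ((L F a b 13).sub_mem (wv_mem a b 34 (by decide) (by decide)) (wv_mem a b 35 (by decide) (by decide)))
theorem q28_2 (h : Eng A) (a b : A) : w28 a b * w2 a b ∈ L F a b 14 := by
  rw [m28_2 h a b]; exact (wv_mem a b 38 (by decide) (by decide))
theorem q28_3 (h : Eng A) (a b : A) : w28 a b * w3 a b ∈ L F a b 15 := by
  rw [m28_3 h a b]; exact (L F a b 15).zero_mem
theorem q28_4 (h : Eng A) (a b : A) : w28 a b * w4 a b ∈ L F a b 15 := by
  rw [m28_4 h a b]; exact (L F a b 15).zero_mem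
theorem q28_5 (h : Eng A) (a b : A) : w28 a b * w5 a b ∈ L F a b 16 := by
  rw [m28_5 h a b]; exact (L F a b 16).zero_mem
theorem q28_6 (h : Eng A) (a b : A) : w28 a b * w6 a b ∈ L F a b 17 := by
  rw [m28_6 h a b]; exact (L F a b 17).zero_mem
theorem q28_7 (h : Eng A) (a b : A) : w28 a b * w7 a b ∈ L F a b 17 := by
  rw [m28_7 h a b]; exact (L F a b 17).zero_mem
theorem q28_8 (h : Eng A) (a b : A) : w28 a b * w8 a b ∈ L F a b 18 := by
  rw [m28_8 h a b]; exact (L F a b 18).zero_mem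
theorem q28_9 (h : Eng A) (a b : A) : w28 a b * w9 a b ∈ L F a b 19 := by
  rw [m28_9 h a b]; exact (L F a b 19).zero_mem
theorem q28_10 (h : Eng A) (a b : A) : w28 a b * w10 a b ∈ L F a b 19 := by
  rw [m28_10 h a b]; exact (L F a b 19).zero_mem
theorem q28_11 (h : Eng A) (a b : A) : w28 a b * w11 a b ∈ L F a b 20 := by
  rw [m28_11 h a b]; exact (L F a b 20).zero_mem
theorem q28_12 (h : Eng A) (a b : A) : w28 a b * w12 a b ∈ L F a b 20 := by
  rw [m28_12 h a b]; exact (L F a b 20).zero_mem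
theorem q28_13 (h : Eng A) (a b : A) : w28 a b * w13 a b ∈ L F a b 21 := by
  rw [m28_13 h a b]; exact (L F a b 21).zero_mem
theorem q28_14 (h : Eng A) (a b : A) : w28 a b * w14 a b ∈ L F a b 21 := by
  rw [m28_14 h a b]; exact (L F a b 21).zero_mem
theorem q28_15 (h : Eng A) (a b : A) : w28 a b * w15 a b ∈ L F a b 21 := by
  rw [m28_15 h a b]; exact (L F a b 21).zero_mem
theorem q28_16 (h : Eng A) (a b : A) : w28 a b * w16 a b ∈ L F a b 21 := by
  rw [m28_16 h a b]; exact (L F a b 21).zero_mem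
theorem q28_17 (h : Eng A) (a b : A) : w28 a b * w17 a b ∈ L F a b 22 := by
  rw [m28_17 h a b]; exact (L F a b 22).zero_mem
theorem q28_18 (h : Eng A) (a b : A) : w28 a b * w18 a b ∈ L F a b 22 := by
  rw [m28_18 h a b]; exact (L F a b 22).zero_mem
theorem q28_19 (h : Eng A) (a b : A) : w28 a b * w19 a b ∈ L F a b 22 := by
  rw [m28_19 h a b]; exact (L F a b 22).zero_mem
theorem q28_20 (h : Eng A) (a b : A) : w28 a b * w20 a b ∈ L F a b 22 := by
  rw [m28_20 h a b]; exact (L F a b 22).zero_mem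
theorem q28_21 (h : Eng A) (a b : A) : w28 a b * w21 a b ∈ L F a b 22 := by
  rw [m28_21 h a b]; exact (L F a b 22).zero_mem
theorem q28_22 (h : Eng A) (a b : A) : w28 a b * w22 a b ∈ L F a b 23 := by
  rw [m28_22 h a b]; exact (L F a b 23).zero_mem
theorem q28_23 (h : Eng A) (a b : A) : w28 a b * w23 a b ∈ L F a b 23 := by
  rw [m28_23 h a b]; exact (L F a b 23).zero_mem
theorem q28_24 (h : Eng A) (a b : A) : w28 a b * w24 a b ∈ L F a b 23 := by
  rw [m28_24 h a b]; exact (L F a b 23).zero_mem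
theorem q28_25 (h : Eng A) (a b : A) : w28 a b * w25 a b ∈ L F a b 23 := by
  rw [m28_25 h a b]; exact (L F a b 23).zero_mem
theorem q28_26 (h : Eng A) (a b : A) : w28 a b * w26 a b ∈ L F a b 23 := by
  rw [m28_26 h a b]; exact (L F a b 23).zero_mem
theorem q28_27 (h : Eng A) (a b : A) : w28 a b * w27 a b ∈ L F a b 23 := by
  rw [m28_27 h a b]; exact (L F a b 23).zero_mem
theorem q29_0 (h : Eng A) (a b : A) : w29 a b * w0 a b ∈ L F a b 13 := by
  rw [m29_0 h a b]; exact (L F a b 13).zero_mem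
theorem q29_1 (h : Eng A) (a b : A) : w29 a b * w1 a b ∈ L F a b 13 := by
  rw [m29_1 h a b]; exact ((L F a b 13).sub_mem (wv_mem a b 36 (by decide) (by decide)) (wv_mem a b 37 (by decide) (by decide)))
theorem q29_2 (h : Eng A) (a b : A) : w29 a b * w2 a b ∈ L F a b 14 := by
  rw [m29_2 h a b]; exact (wv_mem a b 39 (by decide) (by decide))
theorem q29_3 (h : Eng A) (a b : A) : w29 a b * w3 a b ∈ L F a b 15 := by
  rw [m29_3 h a b]; exact (L F a b 15).zero_mem
theorem q29_4 (h : Eng A) (a b : A) : w29 a b * w4 a b ∈ L F a b 15 := by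
  rw [m29_4 h a b]; exact (L F a b 15).zero_mem
theorem q29_5 (h : Eng A) (a b : A) : w29 a b * w5 a b ∈ L F a b 16 := by
  rw [m29_5 h a b]; exact (L F a b 16).zero_mem
theorem q29_6 (h : Eng A) (a b : A) : w29 a b * w6 a b ∈ L F a b 17 := by
  rw [m29_6 h a b]; exact (L F a b 17).zero_mem
theorem q29_7 (h : Eng A) (a b : A) : w29 a b * w7 a b ∈ L F a b 17 := by
  rw [m29_7 h a b]; exact (L F a b 17).zero_mem
theorem q29_8 (h : Eng A) (a b : A) : w29 a b * w8 a b ∈ L F a b 18 := by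
  rw [m29_8 h a b]; exact (L F a b 18).zero_mem
theorem q29_9 (h : Eng A) (a b : A) : w29 a b * w9 a b ∈ L F a b 19 := by
  rw [m29_9 h a b]; exact (L F a b 19).zero_mem
theorem q29_10 (h : Eng A) (a b : A) : w29 a b * w10 a b ∈ L F a b 19 := by
  rw [m29_10 h a b]; exact (L F a b 19).zero_mem
theorem q29_11 (h : Eng A) (a b : A) : w29 a b * w11 a b ∈ L F a b 20 := by
  rw [m29_11 h a b]; exact (L F a b 20).zero_mem
theorem q29_12 (h : Eng A) (a b : A) : w29 a b * w12 a b ∈ L F a b 20 := by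
  rw [m29_12 h a b]; exact (L F a b 20).zero_mem
theorem q29_13 (h : Eng A) (a b : A) : w29 a b * w13 a b ∈ L F a b 21 := by
  rw [m29_13 h a b]; exact (L F a b 21).zero_mem
theorem q29_14 (h : Eng A) (a b : A) : w29 a b * w14 a b ∈ L F a b 21 := by
  rw [m29_14 h a b]; exact (L F a b 21).zero_mem
theorem q29_15 (h : Eng A) (a b : A) : w29 a b * w15 a b ∈ L F a b 21 := by
  rw [m29_15 h a b]; exact (L F a b 21).zero_mem
theorem q29_16 (h : Eng A) (a b : A) : w29 a b * w16 a b ∈ L F a b 21 := by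
  rw [m29_16 h a b]; exact (L F a b 21).zero_mem
theorem q29_17 (h : Eng A) (a b : A) : w29 a b * w17 a b ∈ L F a b 22 := by
  rw [m29_17 h a b]; exact (L F a b 22).zero_mem
theorem q29_18 (h : Eng A) (a b : A) : w29 a b * w18 a b ∈ L F a b 22 := by
  rw [m29_18 h a b]; exact (L F a b 22).zero_mem
theorem q29_19 (h : Eng A) (a b : A) : w29 a b * w19 a b ∈ L F a b 22 := by
  rw [m29_19 h a b]; exact (L F a b 22).zero_mem
theorem q29_20 (h : Eng A) (a b : A) : w29 a b * w20 a b ∈ L F a b 22 := by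
  rw [m29_20 h a b]; exact (L F a b 22).zero_mem
theorem q29_21 (h : Eng A) (a b : A) : w29 a b * w21 a b ∈ L F a b 22 := by
  rw [m29_21 h a b]; exact (L F a b 22).zero_mem
theorem q29_22 (h : Eng A) (a b : A) : w29 a b * w22 a b ∈ L F a b 23 := by
  rw [m29_22 h a b]; exact (L F a b 23).zero_mem
theorem q29_23 (h : Eng A) (a b : A) : w29 a b * w23 a b ∈ L F a b 23 := by
  rw [m29_23 h a b]; exact (L F a b 23).zero_mem
theorem q29_24 (h : Eng A) (a b : A) : w29 a b * w24 a b ∈ L F a b 23 := by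
  rw [m29_24 h a b]; exact (L F a b 23).zero_mem
theorem q29_25 (h : Eng A) (a b : A) : w29 a b * w25 a b ∈ L F a b 23 := by
  rw [m29_25 h a b]; exact (L F a b 23).zero_mem
theorem q29_26 (h : Eng A) (a b : A) : w29 a b * w26 a b ∈ L F a b 23 := by
  rw [m29_26 h a b]; exact (L F a b 23).zero_mem
theorem q29_27 (h : Eng A) (a b : A) : w29 a b * w27 a b ∈ L F a b 23 := by
  rw [m29_27 h a b]; exact (L F a b 23).zero_mem
theorem q29_28 (h : Eng A) (a b : A) : w29 a b * w28 a b ∈ L F a b 24 := by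
  rw [m29_28 h a b]; exact (L F a b 24).zero_mem
theorem q30_0 (h : Eng A) (a b : A) : w30 a b * w0 a b ∈ L F a b 13 := by
  rw [m30_0 h a b]; exact ((L F a b 13).add_mem ((L F a b 13).neg_mem (wv_mem a b 34 (by decide) (by decide))) (wv_mem a b 35 (by decide) (by decide)))
theorem q30_1 (h : Eng A) (a b : A) : w30 a b * w1 a b ∈ L F a b 13 := by
  rw [m30_1 h a b]; exact (L F a b 13).zero_mem
theorem q30_2 (h : Eng A) (a b : A) : w30 a b * w2 a b ∈ L F a b 14 := by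
  rw [m30_2 h a b]; exact (wv_mem a b 39 (by decide) (by decide))
theorem q30_3 (h : Eng A) (a b : A) : w30 a b * w3 a b ∈ L F a b 15 := by
  rw [m30_3 h a b]; exact (L F a b 15).zero_mem
theorem q30_4 (h : Eng A) (a b : A) : w30 a b * w4 a b ∈ L F a b 15 := by
  rw [m30_4 h a b]; exact (L F a b 15).zero_mem
theorem q30_5 (h : Eng A) (a b : A) : w30 a b * w5 a b ∈ L F a b 16 := by
  rw [m30_5 h a b]; exact (L F a b 16).zero_mem
theorem q30_6 (h : Eng A) (a b : A) : w30 a b * w6 a b ∈ L F a b 17 := by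
  rw [m30_6 h a b]; exact (L F a b 17).zero_mem
theorem q30_7 (h : Eng A) (a b : A) : w30 a b * w7 a b ∈ L F a b 17 := by
  rw [m30_7 h a b]; exact (L F a b 17).zero_mem
theorem q30_8 (h : Eng A) (a b : A) : w30 a b * w8 a b ∈ L F a b 18 := by
  rw [m30_8 h a b]; exact (L F a b 18).zero_mem
theorem q30_9 (h : Eng A) (a b : A) : w30 a b * w9 a b ∈ L F a b 19 := by
  rw [m30_9 h a b]; exact (L F a b 19).zero_mem
theorem q30_10 (h : Eng A) (a b : A) : w30 a b * w10 a b ∈ L F a b 19 := by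
  rw [m30_10 h a b]; exact (L F a b 19).zero_mem
theorem q30_11 (h : Eng A) (a b : A) : w30 a b * w11 a b ∈ L F a b 20 := by
  rw [m30_11 h a b]; exact (L F a b 20).zero_mem
theorem q30_12 (h : Eng A) (a b : A) : w30 a b * w12 a b ∈ L F a b 20 := by
  rw [m30_12 h a b]; exact (L F a b 20).zero_mem
theorem q30_13 (h : Eng A) (a b : A) : w30 a b * w13 a b ∈ L F a b 21 := by
  rw [m30_13 h a b]; exact (L F a b 21).zero_mem
theorem q30_14 (h : Eng A) (a b : A) : w30 a b * w14 a b ∈ L F a b 21 := by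
  rw [m30_14 h a b]; exact (L F a b 21).zero_mem
theorem q30_15 (h : Eng A) (a b : A) : w30 a b * w15 a b ∈ L F a b 21 := by
  rw [m30_15 h a b]; exact (L F a b 21).zero_mem
theorem q30_16 (h : Eng A) (a b : A) : w30 a b * w16 a b ∈ L F a b 21 := by
  rw [m30_16 h a b]; exact (L F a b 21).zero_mem
theorem q30_17 (h : Eng A) (a b : A) : w30 a b * w17 a b ∈ L F a b 22 := by
  rw [m30_17 h a b]; exact (L F a b 22).zero_mem
theorem q30_18 (h : Eng A) (a b : A) : w30 a b * w18 a b ∈ L F a b 22 := by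
  rw [m30_18 h a b]; exact (L F a b 22).zero_mem
theorem q30_19 (h : Eng A) (a b : A) : w30 a b * w19 a b ∈ L F a b 22 := by
  rw [m30_19 h a b]; exact (L F a b 22).zero_mem
theorem q30_20 (h : Eng A) (a b : A) : w30 a b * w20 a b ∈ L F a b 22 := by
  rw [m30_20 h a b]; exact (L F a b 22).zero_mem
theorem q30_21 (h : Eng A) (a b : A) : w30 a b * w21 a b ∈ L F a b 22 := by
  rw [m30_21 h a b]; exact (L F a b 22).zero_mem
theorem q30_22 (h : Eng A) (a b : A) : w30 a b * w22 a b ∈ L F a b 23 := by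
  rw [m30_22 h a b]; exact (L F a b 23).zero_mem
theorem q30_23 (h : Eng A) (a b : A) : w30 a b * w23 a b ∈ L F a b 23 := by
  rw [m30_23 h a b]; exact (L F a b 23).zero_mem
theorem q30_24 (h : Eng A) (a b : A) : w30 a b * w24 a b ∈ L F a b 23 := by
  rw [m30_24 h a b]; exact (L F a b 23).zero_mem
theorem q30_25 (h : Eng A) (a b : A) : w30 a b * w25 a b ∈ L F a b 23 := by
  rw [m30_25 h a b]; exact (L F a b 23).zero_mem
theorem q30_26 (h : Eng A) (a b : A) : w30 a b * w26 a b ∈ L F a b 23 := by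
  rw [m30_26 h a b]; exact (L F a b 23).zero_mem
theorem q30_27 (h : Eng A) (a b : A) : w30 a b * w27 a b ∈ L F a b 23 := by
  rw [m30_27 h a b]; exact (L F a b 23).zero_mem
theorem q30_28 (h : Eng A) (a b : A) : w30 a b * w28 a b ∈ L F a b 24 := by
  rw [m30_28 h a b]; exact (L F a b 24).zero_mem
theorem q30_29 (h : Eng A) (a b : A) : w30 a b * w29 a b ∈ L F a b 24 := by
  rw [m30_29 h a b]; exact (L F a b 24).zero_mem
theorem q31_0 (h : Eng A) (a b : A) : w31 a b * w0 a b ∈ L F a b 13 := by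
  rw [m31_0 h a b]; exact (wv_mem a b 35 (by decide) (by decide))
theorem q31_1 (h : Eng A) (a b : A) : w31 a b * w1 a b ∈ L F a b 13 := by
  rw [m31_1 h a b]; exact (wv_mem a b 37 (by decide) (by decide))
theorem q31_2 (h : Eng A) (a b : A) : w31 a b * w2 a b ∈ L F a b 14 := by
  rw [m31_2 h a b]; exact (L F a b 14).zero_mem
theorem q31_3 (h : Eng A) (a b : A) : w31 a b * w3 a b ∈ L F a b 15 := by
  rw [m31_3 h a b]; exact (L F a b 15).zero_mem
theorem q31_4 (h : Eng A) (a b : A) : w31 a b * w4 a b ∈ L F a b 15 := by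
  rw [m31_4 h a b]; exact (L F a b 15).zero_mem
theorem q31_5 (h : Eng A) (a b : A) : w31 a b * w5 a b ∈ L F a b 16 := by
  rw [m31_5 h a b]; exact (L F a b 16).zero_mem
theorem q31_6 (h : Eng A) (a b : A) : w31 a b * w6 a b ∈ L F a b 17 := by
  rw [m31_6 h a b]; exact (L F a b 17).zero_mem
theorem q31_7 (h : Eng A) (a b : A) : w31 a b * w7 a b ∈ L F a b 17 := by
  rw [m31_7 h a b]; exact (L F a b 17).zero_mem
theorem q31_8 (h : Eng A) (a b : A) : w31 a b * w8 a b ∈ L F a b 18 := by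
  rw [m31_8 h a b]; exact (L F a b 18).zero_mem
theorem q31_9 (h : Eng A) (a b : A) : w31 a b * w9 a b ∈ L F a b 19 := by
  rw [m31_9 h a b]; exact (L F a b 19).zero_mem
theorem q31_10 (h : Eng A) (a b : A) : w31 a b * w10 a b ∈ L F a b 19 := by
  rw [m31_10 h a b]; exact (L F a b 19).zero_mem
theorem q31_11 (h : Eng A) (a b : A) : w31 a b * w11 a b ∈ L F a b 20 := by
  rw [m31_11 h a b]; exact (L F a b 20).zero_mem
theorem q31_12 (h : Eng A) (a b : A) : w31 a b * w12 a b ∈ L F a b 20 := by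
  rw [m31_12 h a b]; exact (L F a b 20).zero_mem
theorem q31_13 (h : Eng A) (a b : A) : w31 a b * w13 a b ∈ L F a b 21 := by
  rw [m31_13 h a b]; exact (L F a b 21).zero_mem
theorem q31_14 (h : Eng A) (a b : A) : w31 a b * w14 a b ∈ L F a b 21 := by
  rw [m31_14 h a b]; exact (L F a b 21).zero_mem
theorem q31_15 (h : Eng A) (a b : A) : w31 a b * w15 a b ∈ L F a b 21 := by
  rw [m31_15 h a b]; exact (L F a b 21).zero_mem
theorem q31_16 (h : Eng A) (a b : A) : w31 a b * w16 a b ∈ L F a b 21 := by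
  rw [m31_16 h a b]; exact (L F a b 21).zero_mem
theorem q31_17 (h : Eng A) (a b : A) : w31 a b * w17 a b ∈ L F a b 22 := by
  rw [m31_17 h a b]; exact (L F a b 22).zero_mem
theorem q31_18 (h : Eng A) (a b : A) : w31 a b * w18 a b ∈ L F a b 22 := by
  rw [m31_18 h a b]; exact (L F a b 22).zero_mem
theorem q31_19 (h : Eng A) (a b : A) : w31 a b * w19 a b ∈ L F a b 22 := by
  rw [m31_19 h a b]; exact (L F a b 22).zero_mem
theorem q31_20 (h : Eng A) (a b : A) : w31 a b * w20 a b ∈ L F a b 22 := by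
  rw [m31_20 h a b]; exact (L F a b 22).zero_mem
theorem q31_21 (h : Eng A) (a b : A) : w31 a b * w21 a b ∈ L F a b 22 := by
  rw [m31_21 h a b]; exact (L F a b 22).zero_mem
theorem q31_22 (h : Eng A) (a b : A) : w31 a b * w22 a b ∈ L F a b 23 := by
  rw [m31_22 h a b]; exact (L F a b 23).zero_mem
theorem q31_23 (h : Eng A) (a b : A) : w31 a b * w23 a b ∈ L F a b 23 := by
  rw [m31_23 h a b]; exact (L F a b 23).zero_mem
theorem q31_24 (h : Eng A) (a b : A) : w31 a b * w24 a b ∈ L F a b 23 := by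
  rw [m31_24 h a b]; exact (L F a b 23).zero_mem
theorem q31_25 (h : Eng A) (a b : A) : w31 a b * w25 a b ∈ L F a b 23 := by
  rw [m31_25 h a b]; exact (L F a b 23).zero_mem
theorem q31_26 (h : Eng A) (a b : A) : w31 a b * w26 a b ∈ L F a b 23 := by
  rw [m31_26 h a b]; exact (L F a b 23).zero_mem
theorem q31_27 (h : Eng A) (a b : A) : w31 a b * w27 a b ∈ L F a b 23 := by
  rw [m31_27 h a b]; exact (L F a b 23).zero_mem
theorem q31_28 (h : Eng A) (a b : A) : w31 a b * w28 a b ∈ L F a b 24 := by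
  rw [m31_28 h a b]; exact (L F a b 24).zero_mem
theorem q31_29 (h : Eng A) (a b : A) : w31 a b * w29 a b ∈ L F a b 24 := by
  rw [m31_29 h a b]; exact (L F a b 24).zero_mem
theorem q31_30 (h : Eng A) (a b : A) : w31 a b * w30 a b ∈ L F a b 24 := by
  rw [m31_30 h a b]; exact (L F a b 24).zero_mem
theorem q32_0 (h : Eng A) (a b : A) : w32 a b * w0 a b ∈ L F a b 13 := by
  rw [m32_0 h a b]; exact ((L F a b 13).add_mem ((L F a b 13).add_mem ((L F a b 13).neg_mem (wv_mem a b 34 (by decide) (by decide))) (wv_mem a b 35 (by decide) (by decide))) (wv_mem a b 35 (by decide) (by decide)))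
theorem q32_1 (h : Eng A) (a b : A) : w32 a b * w1 a b ∈ L F a b 13 := by
  rw [m32_1 h a b]; exact ((L F a b 13).add_mem ((L F a b 13).add_mem ((L F a b 13).neg_mem (wv_mem a b 36 (by decide) (by decide))) (wv_mem a b 37 (by decide) (by decide))) (wv_mem a b 37 (by decide) (by decide)))
theorem q32_2 (h : Eng A) (a b : A) : w32 a b * w2 a b ∈ L F a b 14 := by
  rw [m32_2 h a b]; exact (L F a b 14).zero_mem
theorem q32_3 (h : Eng A) (a b : A) : w32 a b * w3 a b ∈ L F a b 15 := by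
  rw [m32_3 h a b]; exact (L F a b 15).zero_mem
theorem q32_4 (h : Eng A) (a b : A) : w32 a b * w4 a b ∈ L F a b 15 := by
  rw [m32_4 h a b]; exact (L F a b 15).zero_mem
theorem q32_5 (h : Eng A) (a b : A) : w32 a b * w5 a b ∈ L F a b 16 := by
  rw [m32_5 h a b]; exact (L F a b 16).zero_mem
theorem q32_6 (h : Eng A) (a b : A) : w32 a b * w6 a b ∈ L F a b 17 := by
  rw [m32_6 h a b]; exact (L F a b 17).zero_mem
theorem q32_7 (h : Eng A) (a b : A) : w32 a b * w7 a b ∈ L F a b 17 := by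
  rw [m32_7 h a b]; exact (L F a b 17).zero_mem
theorem q32_8 (h : Eng A) (a b : A) : w32 a b * w8 a b ∈ L F a b 18 := by
  rw [m32_8 h a b]; exact (L F a b 18).zero_mem
theorem q32_9 (h : Eng A) (a b : A) : w32 a b * w9 a b ∈ L F a b 19 := by
  rw [m32_9 h a b]; exact (L F a b 19).zero_mem
theorem q32_10 (h : Eng A) (a b : A) : w32 a b * w10 a b ∈ L F a b 19 := by
  rw [m32_10 h a b]; exact (L F a b 19).zero_mem
theorem q32_11 (h : Eng A) (a b : A) : w32 a b * w11 a b ∈ L F a b 20 := by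
  rw [m32_11 h a b]; exact (L F a b 20).zero_mem
theorem q32_12 (h : Eng A) (a b : A) : w32 a b * w12 a b ∈ L F a b 20 := by
  rw [m32_12 h a b]; exact (L F a b 20).zero_mem
theorem q32_13 (h : Eng A) (a b : A) : w32 a b * w13 a b ∈ L F a b 21 := by
  rw [m32_13 h a b]; exact (L F a b 21).zero_mem
theorem q32_14 (h : Eng A) (a b : A) : w32 a b * w14 a b ∈ L F a b 21 := by
  rw [m32_14 h a b]; exact (L F a b 21).zero_mem
theorem q32_15 (h : Eng A) (a b : A) : w32 a b * w15 a b ∈ L F a b 21 := by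
  rw [m32_15 h a b]; exact (L F a b 21).zero_mem
theorem q32_16 (h : Eng A) (a b : A) : w32 a b * w16 a b ∈ L F a b 21 := by
  rw [m32_16 h a b]; exact (L F a b 21).zero_mem
theorem q32_17 (h : Eng A) (a b : A) : w32 a b * w17 a b ∈ L F a b 22 := by
  rw [m32_17 h a b]; exact (L F a b 22).zero_mem
theorem q32_18 (h : Eng A) (a b : A) : w32 a b * w18 a b ∈ L F a b 22 := by
  rw [m32_18 h a b]; exact (L F a b 22).zero_mem
theorem q32_19 (h : Eng A) (a b : A) : w32 a b * w19 a b ∈ L F a b 22 := by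
  rw [m32_19 h a b]; exact (L F a b 22).zero_mem
theorem q32_20 (h : Eng A) (a b : A) : w32 a b * w20 a b ∈ L F a b 22 := by
  rw [m32_20 h a b]; exact (L F a b 22).zero_mem
theorem q32_21 (h : Eng A) (a b : A) : w32 a b * w21 a b ∈ L F a b 22 := by
  rw [m32_21 h a b]; exact (L F a b 22).zero_mem
theorem q32_22 (h : Eng A) (a b : A) : w32 a b * w22 a b ∈ L F a b 23 := by
  rw [m32_22 h a b]; exact (L F a b 23).zero_mem
theorem q32_23 (h : Eng A) (a b : A) : w32 a b * w23 a b ∈ L F a b 23 := by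
  rw [m32_23 h a b]; exact (L F a b 23).zero_mem
theorem q32_24 (h : Eng A) (a b : A) : w32 a b * w24 a b ∈ L F a b 23 := by
  rw [m32_24 h a b]; exact (L F a b 23).zero_mem
theorem q32_25 (h : Eng A) (a b : A) : w32 a b * w25 a b ∈ L F a b 23 := by
  rw [m32_25 h a b]; exact (L F a b 23).zero_mem
theorem q32_26 (h : Eng A) (a b : A) : w32 a b * w26 a b ∈ L F a b 23 := by
  rw [m32_26 h a b]; exact (L F a b 23).zero_mem
theorem q32_27 (h : Eng A) (a b : A) : w32 a b * w27 a b ∈ L F a b 23 := by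
  rw [m32_27 h a b]; exact (L F a b 23).zero_mem
theorem q32_28 (h : Eng A) (a b : A) : w32 a b * w28 a b ∈ L F a b 24 := by
  rw [m32_28 h a b]; exact (L F a b 24).zero_mem
theorem q32_29 (h : Eng A) (a b : A) : w32 a b * w29 a b ∈ L F a b 24 := by
  rw [m32_29 h a b]; exact (L F a b 24).zero_mem
theorem q32_30 (h : Eng A) (a b : A) : w32 a b * w30 a b ∈ L F a b 24 := by
  rw [m32_30 h a b]; exact (L F a b 24).zero_mem
theorem q32_31 (h : Eng A) (a b : A) : w32 a b * w31 a b ∈ L F a b 24 := by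
  rw [m32_31 h a b]; exact (L F a b 24).zero_mem
theorem q33_0 (h : Eng A) (a b : A) : w33 a b * w0 a b ∈ L F a b 13 := by
  rw [m33_0 h a b]; exact ((L F a b 13).add_mem ((L F a b 13).neg_mem (wv_mem a b 36 (by decide) (by decide))) (wv_mem a b 37 (by decide) (by decide)))
theorem q33_1 (h : Eng A) (a b : A) : w33 a b * w1 a b ∈ L F a b 13 := by
  rw [m33_1 h a b]; exact (L F a b 13).zero_mem
theorem q33_2 (h : Eng A) (a b : A) : w33 a b * w2 a b ∈ L F a b 14 := by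
  rw [m33_2 h a b]; exact (wv_mem a b 40 (by decide) (by decide))
theorem q33_3 (h : Eng A) (a b : A) : w33 a b * w3 a b ∈ L F a b 15 := by
  rw [m33_3 h a b]; exact (L F a b 15).zero_mem
theorem q33_4 (h : Eng A) (a b : A) : w33 a b * w4 a b ∈ L F a b 15 := by
  rw [m33_4 h a b]; exact (L F a b 15).zero_mem
theorem q33_5 (h : Eng A) (a b : A) : w33 a b * w5 a b ∈ L F a b 16 := by
  rw [m33_5 h a b]; exact (L F a b 16).zero_mem
theorem q33_6 (h : Eng A) (a b : A) : w33 a b * w6 a b ∈ L F a b 17 := by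
  rw [m33_6 h a b]; exact (L F a b 17).zero_mem
theorem q33_7 (h : Eng A) (a b : A) : w33 a b * w7 a b ∈ L F a b 17 := by
  rw [m33_7 h a b]; exact (L F a b 17).zero_mem
theorem q33_8 (h : Eng A) (a b : A) : w33 a b * w8 a b ∈ L F a b 18 := by
  rw [m33_8 h a b]; exact (L F a b 18).zero_mem
theorem q33_9 (h : Eng A) (a b : A) : w33 a b * w9 a b ∈ L F a b 19 := by
  rw [m33_9 h a b]; exact (L F a b 19).zero_mem
theorem q33_10 (h : Eng A) (a b : A) : w33 a b * w10 a b ∈ L F a b 19 := by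
  rw [m33_10 h a b]; exact (L F a b 19).zero_mem
theorem q33_11 (h : Eng A) (a b : A) : w33 a b * w11 a b ∈ L F a b 20 := by
  rw [m33_11 h a b]; exact (L F a b 20).zero_mem
theorem q33_12 (h : Eng A) (a b : A) : w33 a b * w12 a b ∈ L F a b 20 := by
  rw [m33_12 h a b]; exact (L F a b 20).zero_mem
theorem q33_13 (h : Eng A) (a b : A) : w33 a b * w13 a b ∈ L F a b 21 := by
  rw [m33_13 h a b]; exact (L F a b 21).zero_mem
theorem q33_14 (h : Eng A) (a b : A) : w33 a b * w14 a b ∈ L F a b 21 := by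
  rw [m33_14 h a b]; exact (L F a b 21).zero_mem
theorem q33_15 (h : Eng A) (a b : A) : w33 a b * w15 a b ∈ L F a b 21 := by
  rw [m33_15 h a b]; exact (L F a b 21).zero_mem
theorem q33_16 (h : Eng A) (a b : A) : w33 a b * w16 a b ∈ L F a b 21 := by
  rw [m33_16 h a b]; exact (L F a b 21).zero_mem
theorem q33_17 (h : Eng A) (a b : A) : w33 a b * w17 a b ∈ L F a b 22 := by
  rw [m33_17 h a b]; exact (L F a b 22).zero_mem
theorem q33_18 (h : Eng A) (a b : A) : w33 a b * w18 a b ∈ L F a b 22 := by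
  rw [m33_18 h a b]; exact (L F a b 22).zero_mem
theorem q33_19 (h : Eng A) (a b : A) : w33 a b * w19 a b ∈ L F a b 22 := by
  rw [m33_19 h a b]; exact (L F a b 22).zero_mem
theorem q33_20 (h : Eng A) (a b : A) : w33 a b * w20 a b ∈ L F a b 22 := by
  rw [m33_20 h a b]; exact (L F a b 22).zero_mem
theorem q33_21 (h : Eng A) (a b : A) : w33 a b * w21 a b ∈ L F a b 22 := by
  rw [m33_21 h a b]; exact (L F a b 22).zero_mem
theorem q33_22 (h : Eng A) (a b : A) : w33 a b * w22 a b ∈ L F a b 23 := by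
  rw [m33_22 h a b]; exact (L F a b 23).zero_mem
theorem q33_23 (h : Eng A) (a b : A) : w33 a b * w23 a b ∈ L F a b 23 := by
  rw [m33_23 h a b]; exact (L F a b 23).zero_mem
theorem q33_24 (h : Eng A) (a b : A) : w33 a b * w24 a b ∈ L F a b 23 := by
  rw [m33_24 h a b]; exact (L F a b 23).zero_mem
theorem q33_25 (h : Eng A) (a b : A) : w33 a b * w25 a b ∈ L F a b 23 := by
  rw [m33_25 h a b]; exact (L F a b 23).zero_mem
theorem q33_26 (h : Eng A) (a b : A) : w33 a b * w26 a b ∈ L F a b 23 := by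
  rw [m33_26 h a b]; exact (L F a b 23).zero_mem
theorem q33_27 (h : Eng A) (a b : A) : w33 a b * w27 a b ∈ L F a b 23 := by
  rw [m33_27 h a b]; exact (L F a b 23).zero_mem
theorem q33_28 (h : Eng A) (a b : A) : w33 a b * w28 a b ∈ L F a b 24 := by
  rw [m33_28 h a b]; exact (L F a b 24).zero_mem
theorem q33_29 (h : Eng A) (a b : A) : w33 a b * w29 a b ∈ L F a b 24 := by
  rw [m33_29 h a b]; exact (L F a b 24).zero_mem
theorem q33_30 (h : Eng A) (a b : A) : w33 a b * w30 a b ∈ L F a b 24 := by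
  rw [m33_30 h a b]; exact (L F a b 24).zero_mem
theorem q33_31 (h : Eng A) (a b : A) : w33 a b * w31 a b ∈ L F a b 24 := by
  rw [m33_31 h a b]; exact (L F a b 24).zero_mem
theorem q33_32 (h : Eng A) (a b : A) : w33 a b * w32 a b ∈ L F a b 24 := by
  rw [m33_32 h a b]; exact (L F a b 24).zero_mem
theorem q34_0 (h : Eng A) (a b : A) : w34 a b * w0 a b ∈ L F a b 14 := by
  rw [m34_0 h a b]; exact ((L F a b 14).neg_mem (wv_mem a b 38 (by decide) (by decide)))
theorem q34_1 (h : Eng A) (a b : A) : w34 a b * w1 a b ∈ L F a b 14 := by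
  rw [m34_1 h a b]; exact ((L F a b 14).neg_mem (wv_mem a b 39 (by decide) (by decide)))
theorem q34_2 (h : Eng A) (a b : A) : w34 a b * w2 a b ∈ L F a b 15 := by
  rw [m34_2 h a b]; exact (L F a b 15).zero_mem
theorem q34_3 (h : Eng A) (a b : A) : w34 a b * w3 a b ∈ L F a b 16 := by
  rw [m34_3 h a b]; exact (L F a b 16).zero_mem
theorem q34_4 (h : Eng A) (a b : A) : w34 a b * w4 a b ∈ L F a b 16 := by
  rw [m34_4 h a b]; exact (L F a b 16).zero_mem
theorem q34_5 (h : Eng A) (a b : A) : w34 a b * w5 a b ∈ L F a b 17 := by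
  rw [m34_5 h a b]; exact (L F a b 17).zero_mem
theorem q34_6 (h : Eng A) (a b : A) : w34 a b * w6 a b ∈ L F a b 18 := by
  rw [m34_6 h a b]; exact (L F a b 18).zero_mem
theorem q34_7 (h : Eng A) (a b : A) : w34 a b * w7 a b ∈ L F a b 18 := by
  rw [m34_7 h a b]; exact (L F a b 18).zero_mem
theorem q34_8 (h : Eng A) (a b : A) : w34 a b * w8 a b ∈ L F a b 19 := by
  rw [m34_8 h a b]; exact (L F a b 19).zero_mem
theorem q34_9 (h : Eng A) (a b : A) : w34 a b * w9 a b ∈ L F a b 20 := by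
  rw [m34_9 h a b]; exact (L F a b 20).zero_mem
theorem q34_10 (h : Eng A) (a b : A) : w34 a b * w10 a b ∈ L F a b 20 := by
  rw [m34_10 h a b]; exact (L F a b 20).zero_mem
theorem q34_11 (h : Eng A) (a b : A) : w34 a b * w11 a b ∈ L F a b 21 := by
  rw [m34_11 h a b]; exact (L F a b 21).zero_mem
theorem q34_12 (h : Eng A) (a b : A) : w34 a b * w12 a b ∈ L F a b 21 := by
  rw [m34_12 h a b]; exact (L F a b 21).zero_mem
theorem q34_13 (h : Eng A) (a b : A) : w34 a b * w13 a b ∈ L F a b 22 := by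
  rw [m34_13 h a b]; exact (L F a b 22).zero_mem
theorem q34_14 (h : Eng A) (a b : A) : w34 a b * w14 a b ∈ L F a b 22 := by
  rw [m34_14 h a b]; exact (L F a b 22).zero_mem
theorem q34_15 (h : Eng A) (a b : A) : w34 a b * w15 a b ∈ L F a b 22 := by
  rw [m34_15 h a b]; exact (L F a b 22).zero_mem
theorem q34_16 (h : Eng A) (a b : A) : w34 a b * w16 a b ∈ L F a b 22 := by
  rw [m34_16 h a b]; exact (L F a b 22).zero_mem
theorem q34_17 (h : Eng A) (a b : A) : w34 a b * w17 a b ∈ L F a b 23 := by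
  rw [m34_17 h a b]; exact (L F a b 23).zero_mem
theorem q34_18 (h : Eng A) (a b : A) : w34 a b * w18 a b ∈ L F a b 23 := by
  rw [m34_18 h a b]; exact (L F a b 23).zero_mem
theorem q34_19 (h : Eng A) (a b : A) : w34 a b * w19 a b ∈ L F a b 23 := by
  rw [m34_19 h a b]; exact (L F a b 23).zero_mem
theorem q34_20 (h : Eng A) (a b : A) : w34 a b * w20 a b ∈ L F a b 23 := by
  rw [m34_20 h a b]; exact (L F a b 23).zero_mem
theorem q34_21 (h : Eng A) (a b : A) : w34 a b * w21 a b ∈ L F a b 23 := by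
  rw [m34_21 h a b]; exact (L F a b 23).zero_mem
theorem q34_22 (h : Eng A) (a b : A) : w34 a b * w22 a b ∈ L F a b 24 := by
  rw [m34_22 h a b]; exact (L F a b 24).zero_mem
theorem q34_23 (h : Eng A) (a b : A) : w34 a b * w23 a b ∈ L F a b 24 := by
  rw [m34_23 h a b]; exact (L F a b 24).zero_mem
theorem q34_24 (h : Eng A) (a b : A) : w34 a b * w24 a b ∈ L F a b 24 := by
  rw [m34_24 h a b]; exact (L F a b 24).zero_mem
theorem q34_25 (h : Eng A) (a b : A) : w34 a b * w25 a b ∈ L F a b 24 := by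
  rw [m34_25 h a b]; exact (L F a b 24).zero_mem
theorem q34_26 (h : Eng A) (a b : A) : w34 a b * w26 a b ∈ L F a b 24 := by
  rw [m34_26 h a b]; exact (L F a b 24).zero_mem
theorem q34_27 (h : Eng A) (a b : A) : w34 a b * w27 a b ∈ L F a b 24 := by
  rw [m34_27 h a b]; exact (L F a b 24).zero_mem
theorem q34_28 (h : Eng A) (a b : A) : w34 a b * w28 a b ∈ L F a b 25 := by
  rw [m34_28 h a b]; exact (L F a b 25).zero_mem
theorem q34_29 (h : Eng A) (a b : A) : w34 a b * w29 a b ∈ L F a b 25 := by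
  rw [m34_29 h a b]; exact (L F a b 25).zero_mem
theorem q34_30 (h : Eng A) (a b : A) : w34 a b * w30 a b ∈ L F a b 25 := by
  rw [m34_30 h a b]; exact (L F a b 25).zero_mem
theorem q34_31 (h : Eng A) (a b : A) : w34 a b * w31 a b ∈ L F a b 25 := by
  rw [m34_31 h a b]; exact (L F a b 25).zero_mem
theorem q34_32 (h : Eng A) (a b : A) : w34 a b * w32 a b ∈ L F a b 25 := by
  rw [m34_32 h a b]; exact (L F a b 25).zero_mem
theorem q34_33 (h : Eng A) (a b : A) : w34 a b * w33 a b ∈ L F a b 25 := by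
  rw [m34_33 h a b]; exact (L F a b 25).zero_mem
theorem q35_0 (h : Eng A) (a b : A) : w35 a b * w0 a b ∈ L F a b 14 := by
  rw [m35_0 h a b]; exact ((L F a b 14).neg_mem (wv_mem a b 38 (by decide) (by decide)))
theorem q35_1 (h : Eng A) (a b : A) : w35 a b * w1 a b ∈ L F a b 14 := by
  rw [m35_1 h a b]; exact ((L F a b 14).neg_mem (wv_mem a b 39 (by decide) (by decide)))
theorem q35_2 (h : Eng A) (a b : A) : w35 a b * w2 a b ∈ L F a b 15 := by
  rw [m35_2 h a b]; exact (L F a b 15).zero_mem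
theorem q35_3 (h : Eng A) (a b : A) : w35 a b * w3 a b ∈ L F a b 16 := by
  rw [m35_3 h a b]; exact (L F a b 16).zero_mem
theorem q35_4 (h : Eng A) (a b : A) : w35 a b * w4 a b ∈ L F a b 16 := by
  rw [m35_4 h a b]; exact (L F a b 16).zero_mem
theorem q35_5 (h : Eng A) (a b : A) : w35 a b * w5 a b ∈ L F a b 17 := by
  rw [m35_5 h a b]; exact (L F a b 17).zero_mem
theorem q35_6 (h : Eng A) (a b : A) : w35 a b * w6 a b ∈ L F a b 18 := by
  rw [m35_6 h a b]; exact (L F a b 18).zero_mem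
theorem q35_7 (h : Eng A) (a b : A) : w35 a b * w7 a b ∈ L F a b 18 := by
  rw [m35_7 h a b]; exact (L F a b 18).zero_mem
theorem q35_8 (h : Eng A) (a b : A) : w35 a b * w8 a b ∈ L F a b 19 := by
  rw [m35_8 h a b]; exact (L F a b 19).zero_mem
theorem q35_9 (h : Eng A) (a b : A) : w35 a b * w9 a b ∈ L F a b 20 := by
  rw [m35_9 h a b]; exact (L F a b 20).zero_mem
theorem q35_10 (h : Eng A) (a b : A) : w35 a b * w10 a b ∈ L F a b 20 := by
  rw [m35_10 h a b]; exact (L F a b 20).zero_mem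
theorem q35_11 (h : Eng A) (a b : A) : w35 a b * w11 a b ∈ L F a b 21 := by
  rw [m35_11 h a b]; exact (L F a b 21).zero_mem
theorem q35_12 (h : Eng A) (a b : A) : w35 a b * w12 a b ∈ L F a b 21 := by
  rw [m35_12 h a b]; exact (L F a b 21).zero_mem
theorem q35_13 (h : Eng A) (a b : A) : w35 a b * w13 a b ∈ L F a b 22 := by
  rw [m35_13 h a b]; exact (L F a b 22).zero_mem
theorem q35_14 (h : Eng A) (a b : A) : w35 a b * w14 a b ∈ L F a b 22 := by
  rw [m35_14 h a b]; exact (L F a b 22).zero_mem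
theorem q35_15 (h : Eng A) (a b : A) : w35 a b * w15 a b ∈ L F a b 22 := by
  rw [m35_15 h a b]; exact (L F a b 22).zero_mem
theorem q35_16 (h : Eng A) (a b : A) : w35 a b * w16 a b ∈ L F a b 22 := by
  rw [m35_16 h a b]; exact (L F a b 22).zero_mem
theorem q35_17 (h : Eng A) (a b : A) : w35 a b * w17 a b ∈ L F a b 23 := by
  rw [m35_17 h a b]; exact (L F a b 23).zero_mem
theorem q35_18 (h : Eng A) (a b : A) : w35 a b * w18 a b ∈ L F a b 23 := by
  rw [m35_18 h a b]; exact (L F a b 23).zero_mem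
theorem q35_19 (h : Eng A) (a b : A) : w35 a b * w19 a b ∈ L F a b 23 := by
  rw [m35_19 h a b]; exact (L F a b 23).zero_mem
theorem q35_20 (h : Eng A) (a b : A) : w35 a b * w20 a b ∈ L F a b 23 := by
  rw [m35_20 h a b]; exact (L F a b 23).zero_mem
theorem q35_21 (h : Eng A) (a b : A) : w35 a b * w21 a b ∈ L F a b 23 := by
  rw [m35_21 h a b]; exact (L F a b 23).zero_mem
theorem q35_22 (h : Eng A) (a b : A) : w35 a b * w22 a b ∈ L F a b 24 := by
  rw [m35_22 h a b]; exact (L F a b 24).zero_mem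
theorem q35_23 (h : Eng A) (a b : A) : w35 a b * w23 a b ∈ L F a b 24 := by
  rw [m35_23 h a b]; exact (L F a b 24).zero_mem
theorem q35_24 (h : Eng A) (a b : A) : w35 a b * w24 a b ∈ L F a b 24 := by
  rw [m35_24 h a b]; exact (L F a b 24).zero_mem
theorem q35_25 (h : Eng A) (a b : A) : w35 a b * w25 a b ∈ L F a b 24 := by
  rw [m35_25 h a b]; exact (L F a b 24).zero_mem
theorem q35_26 (h : Eng A) (a b : A) : w35 a b * w26 a b ∈ L F a b 24 := by
  rw [m35_26 h a b]; exact (L F a b 24).zero_mem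
theorem q35_27 (h : Eng A) (a b : A) : w35 a b * w27 a b ∈ L F a b 24 := by
  rw [m35_27 h a b]; exact (L F a b 24).zero_mem
theorem q35_28 (h : Eng A) (a b : A) : w35 a b * w28 a b ∈ L F a b 25 := by
  rw [m35_28 h a b]; exact (L F a b 25).zero_mem
theorem q35_29 (h : Eng A) (a b : A) : w35 a b * w29 a b ∈ L F a b 25 := by
  rw [m35_29 h a b]; exact (L F a b 25).zero_mem
theorem q35_30 (h : Eng A) (a b : A) : w35 a b * w30 a b ∈ L F a b 25 := by
  rw [m35_30 h a b]; exact (L F a b 25).zero_mem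
theorem q35_31 (h : Eng A) (a b : A) : w35 a b * w31 a b ∈ L F a b 25 := by
  rw [m35_31 h a b]; exact (L F a b 25).zero_mem
theorem q35_32 (h : Eng A) (a b : A) : w35 a b * w32 a b ∈ L F a b 25 := by
  rw [m35_32 h a b]; exact (L F a b 25).zero_mem
theorem q35_33 (h : Eng A) (a b : A) : w35 a b * w33 a b ∈ L F a b 25 := by
  rw [m35_33 h a b]; exact (L F a b 25).zero_mem
theorem q35_34 (h : Eng A) (a b : A) : w35 a b * w34 a b ∈ L F a b 26 := by
  rw [m35_34 h a b]; exact (L F a b 26).zero_mem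
theorem q36_0 (h : Eng A) (a b : A) : w36 a b * w0 a b ∈ L F a b 14 := by
  rw [m36_0 h a b]; exact ((L F a b 14).neg_mem (wv_mem a b 39 (by decide) (by decide)))
theorem q36_1 (h : Eng A) (a b : A) : w36 a b * w1 a b ∈ L F a b 14 := by
  rw [m36_1 h a b]; exact ((L F a b 14).neg_mem (wv_mem a b 40 (by decide) (by decide)))
theorem q36_2 (h : Eng A) (a b : A) : w36 a b * w2 a b ∈ L F a b 15 := by
  rw [m36_2 h a b]; exact (L F a b 15).zero_mem
theorem q36_3 (h : Eng A) (a b : A) : w36 a b * w3 a b ∈ L F a b 16 := by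
  rw [m36_3 h a b]; exact (L F a b 16).zero_mem
theorem q36_4 (h : Eng A) (a b : A) : w36 a b * w4 a b ∈ L F a b 16 := by
  rw [m36_4 h a b]; exact (L F a b 16).zero_mem
theorem q36_5 (h : Eng A) (a b : A) : w36 a b * w5 a b ∈ L F a b 17 := by
  rw [m36_5 h a b]; exact (L F a b 17).zero_mem
theorem q36_6 (h : Eng A) (a b : A) : w36 a b * w6 a b ∈ L F a b 18 := by
  rw [m36_6 h a b]; exact (L F a b 18).zero_mem
theorem q36_7 (h : Eng A) (a b : A) : w36 a b * w7 a b ∈ L F a b 18 := by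
  rw [m36_7 h a b]; exact (L F a b 18).zero_mem
theorem q36_8 (h : Eng A) (a b : A) : w36 a b * w8 a b ∈ L F a b 19 := by
  rw [m36_8 h a b]; exact (L F a b 19).zero_mem
theorem q36_9 (h : Eng A) (a b : A) : w36 a b * w9 a b ∈ L F a b 20 := by
  rw [m36_9 h a b]; exact (L F a b 20).zero_mem
theorem q36_10 (h : Eng A) (a b : A) : w36 a b * w10 a b ∈ L F a b 20 := by
  rw [m36_10 h a b]; exact (L F a b 20).zero_mem
theorem q36_11 (h : Eng A) (a b : A) : w36 a b * w11 a b ∈ L F a b 21 := by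
  rw [m36_11 h a b]; exact (L F a b 21).zero_mem
theorem q36_12 (h : Eng A) (a b : A) : w36 a b * w12 a b ∈ L F a b 21 := by
  rw [m36_12 h a b]; exact (L F a b 21).zero_mem
theorem q36_13 (h : Eng A) (a b : A) : w36 a b * w13 a b ∈ L F a b 22 := by
  rw [m36_13 h a b]; exact (L F a b 22).zero_mem
theorem q36_14 (h : Eng A) (a b : A) : w36 a b * w14 a b ∈ L F a b 22 := by
  rw [m36_14 h a b]; exact (L F a b 22).zero_mem
theorem q36_15 (h : Eng A) (a b : A) : w36 a b * w15 a b ∈ L F a b 22 := by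
  rw [m36_15 h a b]; exact (L F a b 22).zero_mem
theorem q36_16 (h : Eng A) (a b : A) : w36 a b * w16 a b ∈ L F a b 22 := by
  rw [m36_16 h a b]; exact (L F a b 22).zero_mem
theorem q36_17 (h : Eng A) (a b : A) : w36 a b * w17 a b ∈ L F a b 23 := by
  rw [m36_17 h a b]; exact (L F a b 23).zero_mem
theorem q36_18 (h : Eng A) (a b : A) : w36 a b * w18 a b ∈ L F a b 23 := by
  rw [m36_18 h a b]; exact (L F a b 23).zero_mem
theorem q36_19 (h : Eng A) (a b : A) : w36 a b * w19 a b ∈ L F a b 23 := by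
  rw [m36_19 h a b]; exact (L F a b 23).zero_mem
theorem q36_20 (h : Eng A) (a b : A) : w36 a b * w20 a b ∈ L F a b 23 := by
  rw [m36_20 h a b]; exact (L F a b 23).zero_mem
theorem q36_21 (h : Eng A) (a b : A) : w36 a b * w21 a b ∈ L F a b 23 := by
  rw [m36_21 h a b]; exact (L F a b 23).zero_mem
theorem q36_22 (h : Eng A) (a b : A) : w36 a b * w22 a b ∈ L F a b 24 := by
  rw [m36_22 h a b]; exact (L F a b 24).zero_mem
theorem q36_23 (h : Eng A) (a b : A) : w36 a b * w23 a b ∈ L F a b 24 := by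
  rw [m36_23 h a b]; exact (L F a b 24).zero_mem
theorem q36_24 (h : Eng A) (a b : A) : w36 a b * w24 a b ∈ L F a b 24 := by
  rw [m36_24 h a b]; exact (L F a b 24).zero_mem
theorem q36_25 (h : Eng A) (a b : A) : w36 a b * w25 a b ∈ L F a b 24 := by
  rw [m36_25 h a b]; exact (L F a b 24).zero_mem
theorem q36_26 (h : Eng A) (a b : A) : w36 a b * w26 a b ∈ L F a b 24 := by
  rw [m36_26 h a b]; exact (L F a b 24).zero_mem
theorem q36_27 (h : Eng A) (a b : A) : w36 a b * w27 a b ∈ L F a b 24 := by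
  rw [m36_27 h a b]; exact (L F a b 24).zero_mem
theorem q36_28 (h : Eng A) (a b : A) : w36 a b * w28 a b ∈ L F a b 25 := by
  rw [m36_28 h a b]; exact (L F a b 25).zero_mem
theorem q36_29 (h : Eng A) (a b : A) : w36 a b * w29 a b ∈ L F a b 25 := by
  rw [m36_29 h a b]; exact (L F a b 25).zero_mem
theorem q36_30 (h : Eng A) (a b : A) : w36 a b * w30 a b ∈ L F a b 25 := by
  rw [m36_30 h a b]; exact (L F a b 25).zero_mem
theorem q36_31 (h : Eng A) (a b : A) : w36 a b * w31 a b ∈ L F a b 25 := by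
  rw [m36_31 h a b]; exact (L F a b 25).zero_mem
theorem q36_32 (h : Eng A) (a b : A) : w36 a b * w32 a b ∈ L F a b 25 := by
  rw [m36_32 h a b]; exact (L F a b 25).zero_mem
theorem q36_33 (h : Eng A) (a b : A) : w36 a b * w33 a b ∈ L F a b 25 := by
  rw [m36_33 h a b]; exact (L F a b 25).zero_mem
theorem q36_34 (h : Eng A) (a b : A) : w36 a b * w34 a b ∈ L F a b 26 := by
  rw [m36_34 h a b]; exact (L F a b 26).zero_mem
theorem q36_35 (h : Eng A) (a b : A) : w36 a b * w35 a b ∈ L F a b 26 := by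
  rw [m36_35 h a b]; exact (L F a b 26).zero_mem
theorem q37_0 (h : Eng A) (a b : A) : w37 a b * w0 a b ∈ L F a b 14 := by
  rw [m37_0 h a b]; exact ((L F a b 14).neg_mem (wv_mem a b 39 (by decide) (by decide)))
theorem q37_1 (h : Eng A) (a b : A) : w37 a b * w1 a b ∈ L F a b 14 := by
  rw [m37_1 h a b]; exact ((L F a b 14).neg_mem (wv_mem a b 40 (by decide) (by decide)))
theorem q37_2 (h : Eng A) (a b : A) : w37 a b * w2 a b ∈ L F a b 15 := by
  rw [m37_2 h a b]; exact (L F a b 15).zero_mem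
theorem q37_3 (h : Eng A) (a b : A) : w37 a b * w3 a b ∈ L F a b 16 := by
  rw [m37_3 h a b]; exact (L F a b 16).zero_mem
theorem q37_4 (h : Eng A) (a b : A) : w37 a b * w4 a b ∈ L F a b 16 := by
  rw [m37_4 h a b]; exact (L F a b 16).zero_mem
theorem q37_5 (h : Eng A) (a b : A) : w37 a b * w5 a b ∈ L F a b 17 := by
  rw [m37_5 h a b]; exact (L F a b 17).zero_mem
theorem q37_6 (h : Eng A) (a b : A) : w37 a b * w6 a b ∈ L F a b 18 := by
  rw [m37_6 h a b]; exact (L F a b 18).zero_mem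
theorem q37_7 (h : Eng A) (a b : A) : w37 a b * w7 a b ∈ L F a b 18 := by
  rw [m37_7 h a b]; exact (L F a b 18).zero_mem
theorem q37_8 (h : Eng A) (a b : A) : w37 a b * w8 a b ∈ L F a b 19 := by
  rw [m37_8 h a b]; exact (L F a b 19).zero_mem
theorem q37_9 (h : Eng A) (a b : A) : w37 a b * w9 a b ∈ L F a b 20 := by
  rw [m37_9 h a b]; exact (L F a b 20).zero_mem
theorem q37_10 (h : Eng A) (a b : A) : w37 a b * w10 a b ∈ L F a b 20 := by
  rw [m37_10 h a b]; exact (L F a b 20).zero_mem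
theorem q37_11 (h : Eng A) (a b : A) : w37 a b * w11 a b ∈ L F a b 21 := by
  rw [m37_11 h a b]; exact (L F a b 21).zero_mem
theorem q37_12 (h : Eng A) (a b : A) : w37 a b * w12 a b ∈ L F a b 21 := by
  rw [m37_12 h a b]; exact (L F a b 21).zero_mem
theorem q37_13 (h : Eng A) (a b : A) : w37 a b * w13 a b ∈ L F a b 22 := by
  rw [m37_13 h a b]; exact (L F a b 22).zero_mem
theorem q37_14 (h : Eng A) (a b : A) : w37 a b * w14 a b ∈ L F a b 22 := by
  rw [m37_14 h a b]; exact (L F a b 22).zero_mem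
theorem q37_15 (h : Eng A) (a b : A) : w37 a b * w15 a b ∈ L F a b 22 := by
  rw [m37_15 h a b]; exact (L F a b 22).zero_mem
theorem q37_16 (h : Eng A) (a b : A) : w37 a b * w16 a b ∈ L F a b 22 := by
  rw [m37_16 h a b]; exact (L F a b 22).zero_mem
theorem q37_17 (h : Eng A) (a b : A) : w37 a b * w17 a b ∈ L F a b 23 := by
  rw [m37_17 h a b]; exact (L F a b 23).zero_mem
theorem q37_18 (h : Eng A) (a b : A) : w37 a b * w18 a b ∈ L F a b 23 := by
  rw [m37_18 h a b]; exact (L F a b 23).zero_mem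
theorem q37_19 (h : Eng A) (a b : A) : w37 a b * w19 a b ∈ L F a b 23 := by
  rw [m37_19 h a b]; exact (L F a b 23).zero_mem
theorem q37_20 (h : Eng A) (a b : A) : w37 a b * w20 a b ∈ L F a b 23 := by
  rw [m37_20 h a b]; exact (L F a b 23).zero_mem
theorem q37_21 (h : Eng A) (a b : A) : w37 a b * w21 a b ∈ L F a b 23 := by
  rw [m37_21 h a b]; exact (L F a b 23).zero_mem
theorem q37_22 (h : Eng A) (a b : A) : w37 a b * w22 a b ∈ L F a b 24 := by
  rw [m37_22 h a b]; exact (L F a b 24).zero_mem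
theorem q37_23 (h : Eng A) (a b : A) : w37 a b * w23 a b ∈ L F a b 24 := by
  rw [m37_23 h a b]; exact (L F a b 24).zero_mem
theorem q37_24 (h : Eng A) (a b : A) : w37 a b * w24 a b ∈ L F a b 24 := by
  rw [m37_24 h a b]; exact (L F a b 24).zero_mem
theorem q37_25 (h : Eng A) (a b : A) : w37 a b * w25 a b ∈ L F a b 24 := by
  rw [m37_25 h a b]; exact (L F a b 24).zero_mem
theorem q37_26 (h : Eng A) (a b : A) : w37 a b * w26 a b ∈ L F a b 24 := by
  rw [m37_26 h a b]; exact (L F a b 24).zero_mem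
theorem q37_27 (h : Eng A) (a b : A) : w37 a b * w27 a b ∈ L F a b 24 := by
  rw [m37_27 h a b]; exact (L F a b 24).zero_mem
theorem q37_28 (h : Eng A) (a b : A) : w37 a b * w28 a b ∈ L F a b 25 := by
  rw [m37_28 h a b]; exact (L F a b 25).zero_mem
theorem q37_29 (h : Eng A) (a b : A) : w37 a b * w29 a b ∈ L F a b 25 := by
  rw [m37_29 h a b]; exact (L F a b 25).zero_mem
theorem q37_30 (h : Eng A) (a b : A) : w37 a b * w30 a b ∈ L F a b 25 := by
  rw [m37_30 h a b]; exact (L F a b 25).zero_mem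
theorem q37_31 (h : Eng A) (a b : A) : w37 a b * w31 a b ∈ L F a b 25 := by
  rw [m37_31 h a b]; exact (L F a b 25).zero_mem
theorem q37_32 (h : Eng A) (a b : A) : w37 a b * w32 a b ∈ L F a b 25 := by
  rw [m37_32 h a b]; exact (L F a b 25).zero_mem
theorem q37_33 (h : Eng A) (a b : A) : w37 a b * w33 a b ∈ L F a b 25 := by
  rw [m37_33 h a b]; exact (L F a b 25).zero_mem
theorem q37_34 (h : Eng A) (a b : A) : w37 a b * w34 a b ∈ L F a b 26 := by
  rw [m37_34 h a b]; exact (L F a b 26).zero_mem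
theorem q37_35 (h : Eng A) (a b : A) : w37 a b * w35 a b ∈ L F a b 26 := by
  rw [m37_35 h a b]; exact (L F a b 26).zero_mem
theorem q37_36 (h : Eng A) (a b : A) : w37 a b * w36 a b ∈ L F a b 26 := by
  rw [m37_36 h a b]; exact (L F a b 26).zero_mem
theorem q38_0 (h : Eng A) (a b : A) : w38 a b * w0 a b ∈ L F a b 15 := by
  rw [m38_0 h a b]; exact (L F a b 15).zero_mem
theorem q38_1 (h : Eng A) (a b : A) : w38 a b * w1 a b ∈ L F a b 15 := by
  rw [m38_1 h a b]; exact (L F a b 15).zero_mem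
theorem q38_2 (h : Eng A) (a b : A) : w38 a b * w2 a b ∈ L F a b 16 := by
  rw [m38_2 h a b]; exact (L F a b 16).zero_mem
theorem q38_3 (h : Eng A) (a b : A) : w38 a b * w3 a b ∈ L F a b 17 := by
  rw [m38_3 h a b]; exact (L F a b 17).zero_mem
theorem q38_4 (h : Eng A) (a b : A) : w38 a b * w4 a b ∈ L F a b 17 := by
  rw [m38_4 h a b]; exact (L F a b 17).zero_mem
theorem q38_5 (h : Eng A) (a b : A) : w38 a b * w5 a b ∈ L F a b 18 := by
  rw [m38_5 h a b]; exact (L F a b 18).zero_mem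
theorem q38_6 (h : Eng A) (a b : A) : w38 a b * w6 a b ∈ L F a b 19 := by
  rw [m38_6 h a b]; exact (L F a b 19).zero_mem
theorem q38_7 (h : Eng A) (a b : A) : w38 a b * w7 a b ∈ L F a b 19 := by
  rw [m38_7 h a b]; exact (L F a b 19).zero_mem
theorem q38_8 (h : Eng A) (a b : A) : w38 a b * w8 a b ∈ L F a b 20 := by
  rw [m38_8 h a b]; exact (L F a b 20).zero_mem
theorem q38_9 (h : Eng A) (a b : A) : w38 a b * w9 a b ∈ L F a b 21 := by
  rw [m38_9 h a b]; exact (L F a b 21).zero_mem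
theorem q38_10 (h : Eng A) (a b : A) : w38 a b * w10 a b ∈ L F a b 21 := by
  rw [m38_10 h a b]; exact (L F a b 21).zero_mem
theorem q38_11 (h : Eng A) (a b : A) : w38 a b * w11 a b ∈ L F a b 22 := by
  rw [m38_11 h a b]; exact (L F a b 22).zero_mem
theorem q38_12 (h : Eng A) (a b : A) : w38 a b * w12 a b ∈ L F a b 22 := by
  rw [m38_12 h a b]; exact (L F a b 22).zero_mem
theorem q38_13 (h : Eng A) (a b : A) : w38 a b * w13 a b ∈ L F a b 23 := by
  rw [m38_13 h a b]; exact (L F a b 23).zero_mem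
theorem q38_14 (h : Eng A) (a b : A) : w38 a b * w14 a b ∈ L F a b 23 := by
  rw [m38_14 h a b]; exact (L F a b 23).zero_mem
theorem q38_15 (h : Eng A) (a b : A) : w38 a b * w15 a b ∈ L F a b 23 := by
  rw [m38_15 h a b]; exact (L F a b 23).zero_mem
theorem q38_16 (h : Eng A) (a b : A) : w38 a b * w16 a b ∈ L F a b 23 := by
  rw [m38_16 h a b]; exact (L F a b 23).zero_mem
theorem q38_17 (h : Eng A) (a b : A) : w38 a b * w17 a b ∈ L F a b 24 := by
  rw [m38_17 h a b]; exact (L F a b 24).zero_mem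
theorem q38_18 (h : Eng A) (a b : A) : w38 a b * w18 a b ∈ L F a b 24 := by
  rw [m38_18 h a b]; exact (L F a b 24).zero_mem
theorem q38_19 (h : Eng A) (a b : A) : w38 a b * w19 a b ∈ L F a b 24 := by
  rw [m38_19 h a b]; exact (L F a b 24).zero_mem
theorem q38_20 (h : Eng A) (a b : A) : w38 a b * w20 a b ∈ L F a b 24 := by
  rw [m38_20 h a b]; exact (L F a b 24).zero_mem
theorem q38_21 (h : Eng A) (a b : A) : w38 a b * w21 a b ∈ L F a b 24 := by
  rw [m38_21 h a b]; exact (L F a b 24).zero_mem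
theorem q38_22 (h : Eng A) (a b : A) : w38 a b * w22 a b ∈ L F a b 25 := by
  rw [m38_22 h a b]; exact (L F a b 25).zero_mem
theorem q38_23 (h : Eng A) (a b : A) : w38 a b * w23 a b ∈ L F a b 25 := by
  rw [m38_23 h a b]; exact (L F a b 25).zero_mem
theorem q38_24 (h : Eng A) (a b : A) : w38 a b * w24 a b ∈ L F a b 25 := by
  rw [m38_24 h a b]; exact (L F a b 25).zero_mem
theorem q38_25 (h : Eng A) (a b : A) : w38 a b * w25 a b ∈ L F a b 25 := by
  rw [m38_25 h a b]; exact (L F a b 25).zero_mem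
theorem q38_26 (h : Eng A) (a b : A) : w38 a b * w26 a b ∈ L F a b 25 := by
  rw [m38_26 h a b]; exact (L F a b 25).zero_mem
theorem q38_27 (h : Eng A) (a b : A) : w38 a b * w27 a b ∈ L F a b 25 := by
  rw [m38_27 h a b]; exact (L F a b 25).zero_mem
theorem q38_28 (h : Eng A) (a b : A) : w38 a b * w28 a b ∈ L F a b 26 := by
  rw [m38_28 h a b]; exact (L F a b 26).zero_mem
theorem q38_29 (h : Eng A) (a b : A) : w38 a b * w29 a b ∈ L F a b 26 := by
  rw [m38_29 h a b]; exact (L F a b 26).zero_mem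
theorem q38_30 (h : Eng A) (a b : A) : w38 a b * w30 a b ∈ L F a b 26 := by
  rw [m38_30 h a b]; exact (L F a b 26).zero_mem
theorem q38_31 (h : Eng A) (a b : A) : w38 a b * w31 a b ∈ L F a b 26 := by
  rw [m38_31 h a b]; exact (L F a b 26).zero_mem
theorem q38_32 (h : Eng A) (a b : A) : w38 a b * w32 a b ∈ L F a b 26 := by
  rw [m38_32 h a b]; exact (L F a b 26).zero_mem
theorem q38_33 (h : Eng A) (a b : A) : w38 a b * w33 a b ∈ L F a b 26 := by
  rw [m38_33 h a b]; exact (L F a b 26).zero_mem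
theorem q38_34 (h : Eng A) (a b : A) : w38 a b * w34 a b ∈ L F a b 27 := by
  rw [m38_34 h a b]; exact (L F a b 27).zero_mem
theorem q38_35 (h : Eng A) (a b : A) : w38 a b * w35 a b ∈ L F a b 27 := by
  rw [m38_35 h a b]; exact (L F a b 27).zero_mem
theorem q38_36 (h : Eng A) (a b : A) : w38 a b * w36 a b ∈ L F a b 27 := by
  rw [m38_36 h a b]; exact (L F a b 27).zero_mem
theorem q38_37 (h : Eng A) (a b : A) : w38 a b * w37 a b ∈ L F a b 27 := by
  rw [m38_37 h a b]; exact (L F a b 27).zero_mem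
theorem q39_0 (h : Eng A) (a b : A) : w39 a b * w0 a b ∈ L F a b 15 := by
  rw [m39_0 h a b]; exact (L F a b 15).zero_mem
theorem q39_1 (h : Eng A) (a b : A) : w39 a b * w1 a b ∈ L F a b 15 := by
  rw [m39_1 h a b]; exact (L F a b 15).zero_mem
theorem q39_2 (h : Eng A) (a b : A) : w39 a b * w2 a b ∈ L F a b 16 := by
  rw [m39_2 h a b]; exact (L F a b 16).zero_mem
theorem q39_3 (h : Eng A) (a b : A) : w39 a b * w3 a b ∈ L F a b 17 := by
  rw [m39_3 h a b]; exact (L F a b 17).zero_mem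
theorem q39_4 (h : Eng A) (a b : A) : w39 a b * w4 a b ∈ L F a b 17 := by
  rw [m39_4 h a b]; exact (L F a b 17).zero_mem
theorem q39_5 (h : Eng A) (a b : A) : w39 a b * w5 a b ∈ L F a b 18 := by
  rw [m39_5 h a b]; exact (L F a b 18).zero_mem
theorem q39_6 (h : Eng A) (a b : A) : w39 a b * w6 a b ∈ L F a b 19 := by
  rw [m39_6 h a b]; exact (L F a b 19).zero_mem
theorem q39_7 (h : Eng A) (a b : A) : w39 a b * w7 a b ∈ L F a b 19 := by
  rw [m39_7 h a b]; exact (L F a b 19).zero_mem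
theorem q39_8 (h : Eng A) (a b : A) : w39 a b * w8 a b ∈ L F a b 20 := by
  rw [m39_8 h a b]; exact (L F a b 20).zero_mem
theorem q39_9 (h : Eng A) (a b : A) : w39 a b * w9 a b ∈ L F a b 21 := by
  rw [m39_9 h a b]; exact (L F a b 21).zero_mem
theorem q39_10 (h : Eng A) (a b : A) : w39 a b * w10 a b ∈ L F a b 21 := by
  rw [m39_10 h a b]; exact (L F a b 21).zero_mem
theorem q39_11 (h : Eng A) (a b : A) : w39 a b * w11 a b ∈ L F a b 22 := by
  rw [m39_11 h a b]; exact (L F a b 22).zero_mem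
theorem q39_12 (h : Eng A) (a b : A) : w39 a b * w12 a b ∈ L F a b 22 := by
  rw [m39_12 h a b]; exact (L F a b 22).zero_mem
theorem q39_13 (h : Eng A) (a b : A) : w39 a b * w13 a b ∈ L F a b 23 := by
  rw [m39_13 h a b]; exact (L F a b 23).zero_mem
theorem q39_14 (h : Eng A) (a b : A) : w39 a b * w14 a b ∈ L F a b 23 := by
  rw [m39_14 h a b]; exact (L F a b 23).zero_mem
theorem q39_15 (h : Eng A) (a b : A) : w39 a b * w15 a b ∈ L F a b 23 := by
  rw [m39_15 h a b]; exact (L F a b 23).zero_mem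
theorem q39_16 (h : Eng A) (a b : A) : w39 a b * w16 a b ∈ L F a b 23 := by
  rw [m39_16 h a b]; exact (L F a b 23).zero_mem
theorem q39_17 (h : Eng A) (a b : A) : w39 a b * w17 a b ∈ L F a b 24 := by
  rw [m39_17 h a b]; exact (L F a b 24).zero_mem
theorem q39_18 (h : Eng A) (a b : A) : w39 a b * w18 a b ∈ L F a b 24 := by
  rw [m39_18 h a b]; exact (L F a b 24).zero_mem
theorem q39_19 (h : Eng A) (a b : A) : w39 a b * w19 a b ∈ L F a b 24 := by
  rw [m39_19 h a b]; exact (L F a b 24).zero_mem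
theorem q39_20 (h : Eng A) (a b : A) : w39 a b * w20 a b ∈ L F a b 24 := by
  rw [m39_20 h a b]; exact (L F a b 24).zero_mem
theorem q39_21 (h : Eng A) (a b : A) : w39 a b * w21 a b ∈ L F a b 24 := by
  rw [m39_21 h a b]; exact (L F a b 24).zero_mem
theorem q39_22 (h : Eng A) (a b : A) : w39 a b * w22 a b ∈ L F a b 25 := by
  rw [m39_22 h a b]; exact (L F a b 25).zero_mem
theorem q39_23 (h : Eng A) (a b : A) : w39 a b * w23 a b ∈ L F a b 25 := by
  rw [m39_23 h a b]; exact (L F a b 25).zero_mem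
theorem q39_24 (h : Eng A) (a b : A) : w39 a b * w24 a b ∈ L F a b 25 := by
  rw [m39_24 h a b]; exact (L F a b 25).zero_mem
theorem q39_25 (h : Eng A) (a b : A) : w39 a b * w25 a b ∈ L F a b 25 := by
  rw [m39_25 h a b]; exact (L F a b 25).zero_mem
theorem q39_26 (h : Eng A) (a b : A) : w39 a b * w26 a b ∈ L F a b 25 := by
  rw [m39_26 h a b]; exact (L F a b 25).zero_mem
theorem q39_27 (h : Eng A) (a b : A) : w39 a b * w27 a b ∈ L F a b 25 := by
  rw [m39_27 h a b]; exact (L F a b 25).zero_mem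
theorem q39_28 (h : Eng A) (a b : A) : w39 a b * w28 a b ∈ L F a b 26 := by
  rw [m39_28 h a b]; exact (L F a b 26).zero_mem
theorem q39_29 (h : Eng A) (a b : A) : w39 a b * w29 a b ∈ L F a b 26 := by
  rw [m39_29 h a b]; exact (L F a b 26).zero_mem
theorem q39_30 (h : Eng A) (a b : A) : w39 a b * w30 a b ∈ L F a b 26 := by
  rw [m39_30 h a b]; exact (L F a b 26).zero_mem
theorem q39_31 (h : Eng A) (a b : A) : w39 a b * w31 a b ∈ L F a b 26 := by
  rw [m39_31 h a b]; exact (L F a b 26).zero_mem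
theorem q39_32 (h : Eng A) (a b : A) : w39 a b * w32 a b ∈ L F a b 26 := by
  rw [m39_32 h a b]; exact (L F a b 26).zero_mem
theorem q39_33 (h : Eng A) (a b : A) : w39 a b * w33 a b ∈ L F a b 26 := by
  rw [m39_33 h a b]; exact (L F a b 26).zero_mem
theorem q39_34 (h : Eng A) (a b : A) : w39 a b * w34 a b ∈ L F a b 27 := by
  rw [m39_34 h a b]; exact (L F a b 27).zero_mem
theorem q39_35 (h : Eng A) (a b : A) : w39 a b * w35 a b ∈ L F a b 27 := by
  rw [m39_35 h a b]; exact (L F a b 27).zero_mem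
theorem q39_36 (h : Eng A) (a b : A) : w39 a b * w36 a b ∈ L F a b 27 := by
  rw [m39_36 h a b]; exact (L F a b 27).zero_mem
theorem q39_37 (h : Eng A) (a b : A) : w39 a b * w37 a b ∈ L F a b 27 := by
  rw [m39_37 h a b]; exact (L F a b 27).zero_mem
theorem q39_38 (h : Eng A) (a b : A) : w39 a b * w38 a b ∈ L F a b 28 := by
  rw [m39_38 h a b]; exact (L F a b 28).zero_mem
theorem q40_0 (h : Eng A) (a b : A) : w40 a b * w0 a b ∈ L F a b 15 := by
  rw [m40_0 h a b]; exact (L F a b 15).zero_mem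
theorem q40_1 (h : Eng A) (a b : A) : w40 a b * w1 a b ∈ L F a b 15 := by
  rw [m40_1 h a b]; exact (L F a b 15).zero_mem
theorem q40_2 (h : Eng A) (a b : A) : w40 a b * w2 a b ∈ L F a b 16 := by
  rw [m40_2 h a b]; exact (L F a b 16).zero_mem
theorem q40_3 (h : Eng A) (a b : A) : w40 a b * w3 a b ∈ L F a b 17 := by
  rw [m40_3 h a b]; exact (L F a b 17).zero_mem
theorem q40_4 (h : Eng A) (a b : A) : w40 a b * w4 a b ∈ L F a b 17 := by
  rw [m40_4 h a b]; exact (L F a b 17).zero_mem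
theorem q40_5 (h : Eng A) (a b : A) : w40 a b * w5 a b ∈ L F a b 18 := by
  rw [m40_5 h a b]; exact (L F a b 18).zero_mem
theorem q40_6 (h : Eng A) (a b : A) : w40 a b * w6 a b ∈ L F a b 19 := by
  rw [m40_6 h a b]; exact (L F a b 19).zero_mem
theorem q40_7 (h : Eng A) (a b : A) : w40 a b * w7 a b ∈ L F a b 19 := by
  rw [m40_7 h a b]; exact (L F a b 19).zero_mem
theorem q40_8 (h : Eng A) (a b : A) : w40 a b * w8 a b ∈ L F a b 20 := by
  rw [m40_8 h a b]; exact (L F a b 20).zero_mem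
theorem q40_9 (h : Eng A) (a b : A) : w40 a b * w9 a b ∈ L F a b 21 := by
  rw [m40_9 h a b]; exact (L F a b 21).zero_mem
theorem q40_10 (h : Eng A) (a b : A) : w40 a b * w10 a b ∈ L F a b 21 := by
  rw [m40_10 h a b]; exact (L F a b 21).zero_mem
theorem q40_11 (h : Eng A) (a b : A) : w40 a b * w11 a b ∈ L F a b 22 := by
  rw [m40_11 h a b]; exact (L F a b 22).zero_mem
theorem q40_12 (h : Eng A) (a b : A) : w40 a b * w12 a b ∈ L F a b 22 := by
  rw [m40_12 h a b]; exact (L F a b 22).zero_mem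
theorem q40_13 (h : Eng A) (a b : A) : w40 a b * w13 a b ∈ L F a b 23 := by
  rw [m40_13 h a b]; exact (L F a b 23).zero_mem
theorem q40_14 (h : Eng A) (a b : A) : w40 a b * w14 a b ∈ L F a b 23 := by
  rw [m40_14 h a b]; exact (L F a b 23).zero_mem
theorem q40_15 (h : Eng A) (a b : A) : w40 a b * w15 a b ∈ L F a b 23 := by
  rw [m40_15 h a b]; exact (L F a b 23).zero_mem
theorem q40_16 (h : Eng A) (a b : A) : w40 a b * w16 a b ∈ L F a b 23 := by
  rw [m40_16 h a b]; exact (L F a b 23).zero_mem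
theorem q40_17 (h : Eng A) (a b : A) : w40 a b * w17 a b ∈ L F a b 24 := by
  rw [m40_17 h a b]; exact (L F a b 24).zero_mem
theorem q40_18 (h : Eng A) (a b : A) : w40 a b * w18 a b ∈ L F a b 24 := by
  rw [m40_18 h a b]; exact (L F a b 24).zero_mem
theorem q40_19 (h : Eng A) (a b : A) : w40 a b * w19 a b ∈ L F a b 24 := by
  rw [m40_19 h a b]; exact (L F a b 24).zero_mem
theorem q40_20 (h : Eng A) (a b : A) : w40 a b * w20 a b ∈ L F a b 24 := by
  rw [m40_20 h a b]; exact (L F a b 24).zero_mem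
theorem q40_21 (h : Eng A) (a b : A) : w40 a b * w21 a b ∈ L F a b 24 := by
  rw [m40_21 h a b]; exact (L F a b 24).zero_mem
theorem q40_22 (h : Eng A) (a b : A) : w40 a b * w22 a b ∈ L F a b 25 := by
  rw [m40_22 h a b]; exact (L F a b 25).zero_mem
theorem q40_23 (h : Eng A) (a b : A) : w40 a b * w23 a b ∈ L F a b 25 := by
  rw [m40_23 h a b]; exact (L F a b 25).zero_mem
theorem q40_24 (h : Eng A) (a b : A) : w40 a b * w24 a b ∈ L F a b 25 := by
  rw [m40_24 h a b]; exact (L F a b 25).zero_mem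
theorem q40_25 (h : Eng A) (a b : A) : w40 a b * w25 a b ∈ L F a b 25 := by
  rw [m40_25 h a b]; exact (L F a b 25).zero_mem
theorem q40_26 (h : Eng A) (a b : A) : w40 a b * w26 a b ∈ L F a b 25 := by
  rw [m40_26 h a b]; exact (L F a b 25).zero_mem
theorem q40_27 (h : Eng A) (a b : A) : w40 a b * w27 a b ∈ L F a b 25 := by
  rw [m40_27 h a b]; exact (L F a b 25).zero_mem
theorem q40_28 (h : Eng A) (a b : A) : w40 a b * w28 a b ∈ L F a b 26 := by
  rw [m40_28 h a b]; exact (L F a b 26).zero_mem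
theorem q40_29 (h : Eng A) (a b : A) : w40 a b * w29 a b ∈ L F a b 26 := by
  rw [m40_29 h a b]; exact (L F a b 26).zero_mem
theorem q40_30 (h : Eng A) (a b : A) : w40 a b * w30 a b ∈ L F a b 26 := by
  rw [m40_30 h a b]; exact (L F a b 26).zero_mem
theorem q40_31 (h : Eng A) (a b : A) : w40 a b * w31 a b ∈ L F a b 26 := by
  rw [m40_31 h a b]; exact (L F a b 26).zero_mem
theorem q40_32 (h : Eng A) (a b : A) : w40 a b * w32 a b ∈ L F a b 26 := by
  rw [m40_32 h a b]; exact (L F a b 26).zero_mem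
theorem q40_33 (h : Eng A) (a b : A) : w40 a b * w33 a b ∈ L F a b 26 := by
  rw [m40_33 h a b]; exact (L F a b 26).zero_mem
theorem q40_34 (h : Eng A) (a b : A) : w40 a b * w34 a b ∈ L F a b 27 := by
  rw [m40_34 h a b]; exact (L F a b 27).zero_mem
theorem q40_35 (h : Eng A) (a b : A) : w40 a b * w35 a b ∈ L F a b 27 := by
  rw [m40_35 h a b]; exact (L F a b 27).zero_mem
theorem q40_36 (h : Eng A) (a b : A) : w40 a b * w36 a b ∈ L F a b 27 := by
  rw [m40_36 h a b]; exact (L F a b 27).zero_mem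
theorem q40_37 (h : Eng A) (a b : A) : w40 a b * w37 a b ∈ L F a b 27 := by
  rw [m40_37 h a b]; exact (L F a b 27).zero_mem
theorem q40_38 (h : Eng A) (a b : A) : w40 a b * w38 a b ∈ L F a b 28 := by
  rw [m40_38 h a b]; exact (L F a b 28).zero_mem
theorem q40_39 (h : Eng A) (a b : A) : w40 a b * w39 a b ∈ L F a b 28 := by
  rw [m40_39 h a b]; exact (L F a b 28).zero_mem
theorem row0 (h : Eng A) (a b : A) (j : ℕ) (hj : j < 41) : w0 a b * wv a b j ∈ L F a b (1 + dg j) := by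
  interval_cases j
  · exact (h.sq (w0 a b)).symm ▸ (L F a b 2).zero_mem
  · exact (h.ac (w0 a b) (w1 a b)).symm ▸ (L F a b 2).neg_mem (q1_0 h a b)
  · exact (h.ac (w0 a b) (w2 a b)).symm ▸ (L F a b 3).neg_mem (q2_0 h a b)
  · exact (h.ac (w0 a b) (w3 a b)).symm ▸ (L F a b 4).neg_mem (q3_0 h a b)
  · exact (h.ac (w0 a b) (w4 a b)).symm ▸ (L F a b 4).neg_mem (q4_0 h a b)
  · exact (h.ac (w0 a b) (w5 a b)).symm ▸ (L F a b 5).neg_mem (q5_0 h a b)
  · exact (h.ac (w0 a b) (w6 a b)).symm ▸ (L F a b 6).neg_mem (q6_0 h a b)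
  · exact (h.ac (w0 a b) (w7 a b)).symm ▸ (L F a b 6).neg_mem (q7_0 h a b)
  · exact (h.ac (w0 a b) (w8 a b)).symm ▸ (L F a b 7).neg_mem (q8_0 h a b)
  · exact (h.ac (w0 a b) (w9 a b)).symm ▸ (L F a b 8).neg_mem (q9_0 h a b)
  · exact (h.ac (w0 a b) (w10 a b)).symm ▸ (L F a b 8).neg_mem (q10_0 h a b)
  · exact (h.ac (w0 a b) (w11 a b)).symm ▸ (L F a b 9).neg_mem (q11_0 h a b)
  · exact (h.ac (w0 a b) (w12 a b)).symm ▸ (L F a b 9).neg_mem (q12_0 h a b)
  · exact (h.ac (w0 a b) (w13 a b)).symm ▸ (L F a b 10).neg_mem (q13_0 h a b)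
  · exact (h.ac (w0 a b) (w14 a b)).symm ▸ (L F a b 10).neg_mem (q14_0 h a b)
  · exact (h.ac (w0 a b) (w15 a b)).symm ▸ (L F a b 10).neg_mem (q15_0 h a b)
  · exact (h.ac (w0 a b) (w16 a b)).symm ▸ (L F a b 10).neg_mem (q16_0 h a b)
  · exact (h.ac (w0 a b) (w17 a b)).symm ▸ (L F a b 11).neg_mem (q17_0 h a b)
  · exact (h.ac (w0 a b) (w18 a b)).symm ▸ (L F a b 11).neg_mem (q18_0 h a b)
  · exact (h.ac (w0 a b) (w19 a b)).symm ▸ (L F a b 11).neg_mem (q19_0 h a b)
  · exact (h.ac (w0 a b) (w20 a b)).symm ▸ (L F a b 11).neg_mem (q20_0 h a b)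
  · exact (h.ac (w0 a b) (w21 a b)).symm ▸ (L F a b 11).neg_mem (q21_0 h a b)
  · exact (h.ac (w0 a b) (w22 a b)).symm ▸ (L F a b 12).neg_mem (q22_0 h a b)
  · exact (h.ac (w0 a b) (w23 a b)).symm ▸ (L F a b 12).neg_mem (q23_0 h a b)
  · exact (h.ac (w0 a b) (w24 a b)).symm ▸ (L F a b 12).neg_mem (q24_0 h a b)
  · exact (h.ac (w0 a b) (w25 a b)).symm ▸ (L F a b 12).neg_mem (q25_0 h a b)
  · exact (h.ac (w0 a b) (w26 a b)).symm ▸ (L F a b 12).neg_mem (q26_0 h a b)
  · exact (h.ac (w0 a b) (w27 a b)).symm ▸ (L F a b 12).neg_mem (q27_0 h a b)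
  · exact (h.ac (w0 a b) (w28 a b)).symm ▸ (L F a b 13).neg_mem (q28_0 h a b)
  · exact (h.ac (w0 a b) (w29 a b)).symm ▸ (L F a b 13).neg_mem (q29_0 h a b)
  · exact (h.ac (w0 a b) (w30 a b)).symm ▸ (L F a b 13).neg_mem (q30_0 h a b)
  · exact (h.ac (w0 a b) (w31 a b)).symm ▸ (L F a b 13).neg_mem (q31_0 h a b)
  · exact (h.ac (w0 a b) (w32 a b)).symm ▸ (L F a b 13).neg_mem (q32_0 h a b)
  · exact (h.ac (w0 a b) (w33 a b)).symm ▸ (L F a b 13).neg_mem (q33_0 h a b)
  · exact (h.ac (w0 a b) (w34 a b)).symm ▸ (L F a b 14).neg_mem (q34_0 h a b)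
  · exact (h.ac (w0 a b) (w35 a b)).symm ▸ (L F a b 14).neg_mem (q35_0 h a b)
  · exact (h.ac (w0 a b) (w36 a b)).symm ▸ (L F a b 14).neg_mem (q36_0 h a b)
  · exact (h.ac (w0 a b) (w37 a b)).symm ▸ (L F a b 14).neg_mem (q37_0 h a b)
  · exact (h.ac (w0 a b) (w38 a b)).symm ▸ (L F a b 15).neg_mem (q38_0 h a b)
  · exact (h.ac (w0 a b) (w39 a b)).symm ▸ (L F a b 15).neg_mem (q39_0 h a b)
  · exact (h.ac (w0 a b) (w40 a b)).symm ▸ (L F a b 15).neg_mem (q40_0 h a b)
theorem row1 (h : Eng A) (a b : A) (j : ℕ) (hj : j < 41) : w1 a b * wv a b j ∈ L F a b (1 + dg j) := by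
  interval_cases j
  · exact q1_0 h a b
  · exact (h.sq (w1 a b)).symm ▸ (L F a b 2).zero_mem
  · exact (h.ac (w1 a b) (w2 a b)).symm ▸ (L F a b 3).neg_mem (q2_1 h a b)
  · exact (h.ac (w1 a b) (w3 a b)).symm ▸ (L F a b 4).neg_mem (q3_1 h a b)
  · exact (h.ac (w1 a b) (w4 a b)).symm ▸ (L F a b 4).neg_mem (q4_1 h a b)
  · exact (h.ac (w1 a b) (w5 a b)).symm ▸ (L F a b 5).neg_mem (q5_1 h a b)
  · exact (h.ac (w1 a b) (w6 a b)).symm ▸ (L F a b 6).neg_mem (q6_1 h a b)
  · exact (h.ac (w1 a b) (w7 a b)).symm ▸ (L F a b 6).neg_mem (q7_1 h a b)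
  · exact (h.ac (w1 a b) (w8 a b)).symm ▸ (L F a b 7).neg_mem (q8_1 h a b)
  · exact (h.ac (w1 a b) (w9 a b)).symm ▸ (L F a b 8).neg_mem (q9_1 h a b)
  · exact (h.ac (w1 a b) (w10 a b)).symm ▸ (L F a b 8).neg_mem (q10_1 h a b)
  · exact (h.ac (w1 a b) (w11 a b)).symm ▸ (L F a b 9).neg_mem (q11_1 h a b)
  · exact (h.ac (w1 a b) (w12 a b)).symm ▸ (L F a b 9).neg_mem (q12_1 h a b)
  · exact (h.ac (w1 a b) (w13 a b)).symm ▸ (L F a b 10).neg_mem (q13_1 h a b)
  · exact (h.ac (w1 a b) (w14 a b)).symm ▸ (L F a b 10).neg_mem (q14_1 h a b)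
  · exact (h.ac (w1 a b) (w15 a b)).symm ▸ (L F a b 10).neg_mem (q15_1 h a b)
  · exact (h.ac (w1 a b) (w16 a b)).symm ▸ (L F a b 10).neg_mem (q16_1 h a b)
  · exact (h.ac (w1 a b) (w17 a b)).symm ▸ (L F a b 11).neg_mem (q17_1 h a b)
  · exact (h.ac (w1 a b) (w18 a b)).symm ▸ (L F a b 11).neg_mem (q18_1 h a b)
  · exact (h.ac (w1 a b) (w19 a b)).symm ▸ (L F a b 11).neg_mem (q19_1 h a b)
  · exact (h.ac (w1 a b) (w20 a b)).symm ▸ (L F a b 11).neg_mem (q20_1 h a b)
  · exact (h.ac (w1 a b) (w21 a b)).symm ▸ (L F a b 11).neg_mem (q21_1 h a b)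
  · exact (h.ac (w1 a b) (w22 a b)).symm ▸ (L F a b 12).neg_mem (q22_1 h a b)
  · exact (h.ac (w1 a b) (w23 a b)).symm ▸ (L F a b 12).neg_mem (q23_1 h a b)
  · exact (h.ac (w1 a b) (w24 a b)).symm ▸ (L F a b 12).neg_mem (q24_1 h a b)
  · exact (h.ac (w1 a b) (w25 a b)).symm ▸ (L F a b 12).neg_mem (q25_1 h a b)
  · exact (h.ac (w1 a b) (w26 a b)).symm ▸ (L F a b 12).neg_mem (q26_1 h a b)
  · exact (h.ac (w1 a b) (w27 a b)).symm ▸ (L F a b 12).neg_mem (q27_1 h a b)
  · exact (h.ac (w1 a b) (w28 a b)).symm ▸ (L F a b 13).neg_mem (q28_1 h a b)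
  · exact (h.ac (w1 a b) (w29 a b)).symm ▸ (L F a b 13).neg_mem (q29_1 h a b)
  · exact (h.ac (w1 a b) (w30 a b)).symm ▸ (L F a b 13).neg_mem (q30_1 h a b)
  · exact (h.ac (w1 a b) (w31 a b)).symm ▸ (L F a b 13).neg_mem (q31_1 h a b)
  · exact (h.ac (w1 a b) (w32 a b)).symm ▸ (L F a b 13).neg_mem (q32_1 h a b)
  · exact (h.ac (w1 a b) (w33 a b)).symm ▸ (L F a b 13).neg_mem (q33_1 h a b)
  · exact (h.ac (w1 a b) (w34 a b)).symm ▸ (L F a b 14).neg_mem (q34_1 h a b)
  · exact (h.ac (w1 a b) (w35 a b)).symm ▸ (L F a b 14).neg_mem (q35_1 h a b)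
  · exact (h.ac (w1 a b) (w36 a b)).symm ▸ (L F a b 14).neg_mem (q36_1 h a b)
  · exact (h.ac (w1 a b) (w37 a b)).symm ▸ (L F a b 14).neg_mem (q37_1 h a b)
  · exact (h.ac (w1 a b) (w38 a b)).symm ▸ (L F a b 15).neg_mem (q38_1 h a b)
  · exact (h.ac (w1 a b) (w39 a b)).symm ▸ (L F a b 15).neg_mem (q39_1 h a b)
  · exact (h.ac (w1 a b) (w40 a b)).symm ▸ (L F a b 15).neg_mem (q40_1 h a b)
theorem row2 (h : Eng A) (a b : A) (j : ℕ) (hj : j < 41) : w2 a b * wv a b j ∈ L F a b (2 + dg j) := by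
  interval_cases j
  · exact q2_0 h a b
  · exact q2_1 h a b
  · exact (h.sq (w2 a b)).symm ▸ (L F a b 4).zero_mem
  · exact (h.ac (w2 a b) (w3 a b)).symm ▸ (L F a b 5).neg_mem (q3_2 h a b)
  · exact (h.ac (w2 a b) (w4 a b)).symm ▸ (L F a b 5).neg_mem (q4_2 h a b)
  · exact (h.ac (w2 a b) (w5 a b)).symm ▸ (L F a b 6).neg_mem (q5_2 h a b)
  · exact (h.ac (w2 a b) (w6 a b)).symm ▸ (L F a b 7).neg_mem (q6_2 h a b)
  · exact (h.ac (w2 a b) (w7 a b)).symm ▸ (L F a b 7).neg_mem (q7_2 h a b)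
  · exact (h.ac (w2 a b) (w8 a b)).symm ▸ (L F a b 8).neg_mem (q8_2 h a b)
  · exact (h.ac (w2 a b) (w9 a b)).symm ▸ (L F a b 9).neg_mem (q9_2 h a b)
  · exact (h.ac (w2 a b) (w10 a b)).symm ▸ (L F a b 9).neg_mem (q10_2 h a b)
  · exact (h.ac (w2 a b) (w11 a b)).symm ▸ (L F a b 10).neg_mem (q11_2 h a b)
  · exact (h.ac (w2 a b) (w12 a b)).symm ▸ (L F a b 10).neg_mem (q12_2 h a b)
  · exact (h.ac (w2 a b) (w13 a b)).symm ▸ (L F a b 11).neg_mem (q13_2 h a b)
  · exact (h.ac (w2 a b) (w14 a b)).symm ▸ (L F a b 11).neg_mem (q14_2 h a b)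
  · exact (h.ac (w2 a b) (w15 a b)).symm ▸ (L F a b 11).neg_mem (q15_2 h a b)
  · exact (h.ac (w2 a b) (w16 a b)).symm ▸ (L F a b 11).neg_mem (q16_2 h a b)
  · exact (h.ac (w2 a b) (w17 a b)).symm ▸ (L F a b 12).neg_mem (q17_2 h a b)
  · exact (h.ac (w2 a b) (w18 a b)).symm ▸ (L F a b 12).neg_mem (q18_2 h a b)
  · exact (h.ac (w2 a b) (w19 a b)).symm ▸ (L F a b 12).neg_mem (q19_2 h a b)
  · exact (h.ac (w2 a b) (w20 a b)).symm ▸ (L F a b 12).neg_mem (q20_2 h a b)
  · exact (h.ac (w2 a b) (w21 a b)).symm ▸ (L F a b 12).neg_mem (q21_2 h a b)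
  · exact (h.ac (w2 a b) (w22 a b)).symm ▸ (L F a b 13).neg_mem (q22_2 h a b)
  · exact (h.ac (w2 a b) (w23 a b)).symm ▸ (L F a b 13).neg_mem (q23_2 h a b)
  · exact (h.ac (w2 a b) (w24 a b)).symm ▸ (L F a b 13).neg_mem (q24_2 h a b)
  · exact (h.ac (w2 a b) (w25 a b)).symm ▸ (L F a b 13).neg_mem (q25_2 h a b)
  · exact (h.ac (w2 a b) (w26 a b)).symm ▸ (L F a b 13).neg_mem (q26_2 h a b)
  · exact (h.ac (w2 a b) (w27 a b)).symm ▸ (L F a b 13).neg_mem (q27_2 h a b)
  · exact (h.ac (w2 a b) (w28 a b)).symm ▸ (L F a b 14).neg_mem (q28_2 h a b)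
  · exact (h.ac (w2 a b) (w29 a b)).symm ▸ (L F a b 14).neg_mem (q29_2 h a b)
  · exact (h.ac (w2 a b) (w30 a b)).symm ▸ (L F a b 14).neg_mem (q30_2 h a b)
  · exact (h.ac (w2 a b) (w31 a b)).symm ▸ (L F a b 14).neg_mem (q31_2 h a b)
  · exact (h.ac (w2 a b) (w32 a b)).symm ▸ (L F a b 14).neg_mem (q32_2 h a b)
  · exact (h.ac (w2 a b) (w33 a b)).symm ▸ (L F a b 14).neg_mem (q33_2 h a b)
  · exact (h.ac (w2 a b) (w34 a b)).symm ▸ (L F a b 15).neg_mem (q34_2 h a b)
  · exact (h.ac (w2 a b) (w35 a b)).symm ▸ (L F a b 15).neg_mem (q35_2 h a b)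
  · exact (h.ac (w2 a b) (w36 a b)).symm ▸ (L F a b 15).neg_mem (q36_2 h a b)
  · exact (h.ac (w2 a b) (w37 a b)).symm ▸ (L F a b 15).neg_mem (q37_2 h a b)
  · exact (h.ac (w2 a b) (w38 a b)).symm ▸ (L F a b 16).neg_mem (q38_2 h a b)
  · exact (h.ac (w2 a b) (w39 a b)).symm ▸ (L F a b 16).neg_mem (q39_2 h a b)
  · exact (h.ac (w2 a b) (w40 a b)).symm ▸ (L F a b 16).neg_mem (q40_2 h a b)
theorem row3 (h : Eng A) (a b : A) (j : ℕ) (hj : j < 41) : w3 a b * wv a b j ∈ L F a b (3 + dg j) := by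
  interval_cases j
  · exact q3_0 h a b
  · exact q3_1 h a b
  · exact q3_2 h a b
  · exact (h.sq (w3 a b)).symm ▸ (L F a b 6).zero_mem
  · exact (h.ac (w3 a b) (w4 a b)).symm ▸ (L F a b 6).neg_mem (q4_3 h a b)
  · exact (h.ac (w3 a b) (w5 a b)).symm ▸ (L F a b 7).neg_mem (q5_3 h a b)
  · exact (h.ac (w3 a b) (w6 a b)).symm ▸ (L F a b 8).neg_mem (q6_3 h a b)
  · exact (h.ac (w3 a b) (w7 a b)).symm ▸ (L F a b 8).neg_mem (q7_3 h a b)
  · exact (h.ac (w3 a b) (w8 a b)).symm ▸ (L F a b 9).neg_mem (q8_3 h a b)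
  · exact (h.ac (w3 a b) (w9 a b)).symm ▸ (L F a b 10).neg_mem (q9_3 h a b)
  · exact (h.ac (w3 a b) (w10 a b)).symm ▸ (L F a b 10).neg_mem (q10_3 h a b)
  · exact (h.ac (w3 a b) (w11 a b)).symm ▸ (L F a b 11).neg_mem (q11_3 h a b)
  · exact (h.ac (w3 a b) (w12 a b)).symm ▸ (L F a b 11).neg_mem (q12_3 h a b)
  · exact (h.ac (w3 a b) (w13 a b)).symm ▸ (L F a b 12).neg_mem (q13_3 h a b)
  · exact (h.ac (w3 a b) (w14 a b)).symm ▸ (L F a b 12).neg_mem (q14_3 h a b)
  · exact (h.ac (w3 a b) (w15 a b)).symm ▸ (L F a b 12).neg_mem (q15_3 h a b)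
  · exact (h.ac (w3 a b) (w16 a b)).symm ▸ (L F a b 12).neg_mem (q16_3 h a b)
  · exact (h.ac (w3 a b) (w17 a b)).symm ▸ (L F a b 13).neg_mem (q17_3 h a b)
  · exact (h.ac (w3 a b) (w18 a b)).symm ▸ (L F a b 13).neg_mem (q18_3 h a b)
  · exact (h.ac (w3 a b) (w19 a b)).symm ▸ (L F a b 13).neg_mem (q19_3 h a b)
  · exact (h.ac (w3 a b) (w20 a b)).symm ▸ (L F a b 13).neg_mem (q20_3 h a b)
  · exact (h.ac (w3 a b) (w21 a b)).symm ▸ (L F a b 13).neg_mem (q21_3 h a b)
  · exact (h.ac (w3 a b) (w22 a b)).symm ▸ (L F a b 14).neg_mem (q22_3 h a b)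
  · exact (h.ac (w3 a b) (w23 a b)).symm ▸ (L F a b 14).neg_mem (q23_3 h a b)
  · exact (h.ac (w3 a b) (w24 a b)).symm ▸ (L F a b 14).neg_mem (q24_3 h a b)
  · exact (h.ac (w3 a b) (w25 a b)).symm ▸ (L F a b 14).neg_mem (q25_3 h a b)
  · exact (h.ac (w3 a b) (w26 a b)).symm ▸ (L F a b 14).neg_mem (q26_3 h a b)
  · exact (h.ac (w3 a b) (w27 a b)).symm ▸ (L F a b 14).neg_mem (q27_3 h a b)
  · exact (h.ac (w3 a b) (w28 a b)).symm ▸ (L F a b 15).neg_mem (q28_3 h a b)
  · exact (h.ac (w3 a b) (w29 a b)).symm ▸ (L F a b 15).neg_mem (q29_3 h a b)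
  · exact (h.ac (w3 a b) (w30 a b)).symm ▸ (L F a b 15).neg_mem (q30_3 h a b)
  · exact (h.ac (w3 a b) (w31 a b)).symm ▸ (L F a b 15).neg_mem (q31_3 h a b)
  · exact (h.ac (w3 a b) (w32 a b)).symm ▸ (L F a b 15).neg_mem (q32_3 h a b)
  · exact (h.ac (w3 a b) (w33 a b)).symm ▸ (L F a b 15).neg_mem (q33_3 h a b)
  · exact (h.ac (w3 a b) (w34 a b)).symm ▸ (L F a b 16).neg_mem (q34_3 h a b)
  · exact (h.ac (w3 a b) (w35 a b)).symm ▸ (L F a b 16).neg_mem (q35_3 h a b)
  · exact (h.ac (w3 a b) (w36 a b)).symm ▸ (L F a b 16).neg_mem (q36_3 h a b)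
  · exact (h.ac (w3 a b) (w37 a b)).symm ▸ (L F a b 16).neg_mem (q37_3 h a b)
  · exact (h.ac (w3 a b) (w38 a b)).symm ▸ (L F a b 17).neg_mem (q38_3 h a b)
  · exact (h.ac (w3 a b) (w39 a b)).symm ▸ (L F a b 17).neg_mem (q39_3 h a b)
  · exact (h.ac (w3 a b) (w40 a b)).symm ▸ (L F a b 17).neg_mem (q40_3 h a b)
theorem row4 (h : Eng A) (a b : A) (j : ℕ) (hj : j < 41) : w4 a b * wv a b j ∈ L F a b (3 + dg j) := by
  interval_cases j
  · exact q4_0 h a b
  · exact q4_1 h a b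
  · exact q4_2 h a b
  · exact q4_3 h a b
  · exact (h.sq (w4 a b)).symm ▸ (L F a b 6).zero_mem
  · exact (h.ac (w4 a b) (w5 a b)).symm ▸ (L F a b 7).neg_mem (q5_4 h a b)
  · exact (h.ac (w4 a b) (w6 a b)).symm ▸ (L F a b 8).neg_mem (q6_4 h a b)
  · exact (h.ac (w4 a b) (w7 a b)).symm ▸ (L F a b 8).neg_mem (q7_4 h a b)
  · exact (h.ac (w4 a b) (w8 a b)).symm ▸ (L F a b 9).neg_mem (q8_4 h a b)
  · exact (h.ac (w4 a b) (w9 a b)).symm ▸ (L F a b 10).neg_mem (q9_4 h a b)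
  · exact (h.ac (w4 a b) (w10 a b)).symm ▸ (L F a b 10).neg_mem (q10_4 h a b)
  · exact (h.ac (w4 a b) (w11 a b)).symm ▸ (L F a b 11).neg_mem (q11_4 h a b)
  · exact (h.ac (w4 a b) (w12 a b)).symm ▸ (L F a b 11).neg_mem (q12_4 h a b)
  · exact (h.ac (w4 a b) (w13 a b)).symm ▸ (L F a b 12).neg_mem (q13_4 h a b)
  · exact (h.ac (w4 a b) (w14 a b)).symm ▸ (L F a b 12).neg_mem (q14_4 h a b)
  · exact (h.ac (w4 a b) (w15 a b)).symm ▸ (L F a b 12).neg_mem (q15_4 h a b)
  · exact (h.ac (w4 a b) (w16 a b)).symm ▸ (L F a b 12).neg_mem (q16_4 h a b)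
  · exact (h.ac (w4 a b) (w17 a b)).symm ▸ (L F a b 13).neg_mem (q17_4 h a b)
  · exact (h.ac (w4 a b) (w18 a b)).symm ▸ (L F a b 13).neg_mem (q18_4 h a b)
  · exact (h.ac (w4 a b) (w19 a b)).symm ▸ (L F a b 13).neg_mem (q19_4 h a b)
  · exact (h.ac (w4 a b) (w20 a b)).symm ▸ (L F a b 13).neg_mem (q20_4 h a b)
  · exact (h.ac (w4 a b) (w21 a b)).symm ▸ (L F a b 13).neg_mem (q21_4 h a b)
  · exact (h.ac (w4 a b) (w22 a b)).symm ▸ (L F a b 14).neg_mem (q22_4 h a b)
  · exact (h.ac (w4 a b) (w23 a b)).symm ▸ (L F a b 14).neg_mem (q23_4 h a b)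
  · exact (h.ac (w4 a b) (w24 a b)).symm ▸ (L F a b 14).neg_mem (q24_4 h a b)
  · exact (h.ac (w4 a b) (w25 a b)).symm ▸ (L F a b 14).neg_mem (q25_4 h a b)
  · exact (h.ac (w4 a b) (w26 a b)).symm ▸ (L F a b 14).neg_mem (q26_4 h a b)
  · exact (h.ac (w4 a b) (w27 a b)).symm ▸ (L F a b 14).neg_mem (q27_4 h a b)
  · exact (h.ac (w4 a b) (w28 a b)).symm ▸ (L F a b 15).neg_mem (q28_4 h a b)
  · exact (h.ac (w4 a b) (w29 a b)).symm ▸ (L F a b 15).neg_mem (q29_4 h a b)
  · exact (h.ac (w4 a b) (w30 a b)).symm ▸ (L F a b 15).neg_mem (q30_4 h a b)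
  · exact (h.ac (w4 a b) (w31 a b)).symm ▸ (L F a b 15).neg_mem (q31_4 h a b)
  · exact (h.ac (w4 a b) (w32 a b)).symm ▸ (L F a b 15).neg_mem (q32_4 h a b)
  · exact (h.ac (w4 a b) (w33 a b)).symm ▸ (L F a b 15).neg_mem (q33_4 h a b)
  · exact (h.ac (w4 a b) (w34 a b)).symm ▸ (L F a b 16).neg_mem (q34_4 h a b)
  · exact (h.ac (w4 a b) (w35 a b)).symm ▸ (L F a b 16).neg_mem (q35_4 h a b)
  · exact (h.ac (w4 a b) (w36 a b)).symm ▸ (L F a b 16).neg_mem (q36_4 h a b)
  · exact (h.ac (w4 a b) (w37 a b)).symm ▸ (L F a b 16).neg_mem (q37_4 h a b)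
  · exact (h.ac (w4 a b) (w38 a b)).symm ▸ (L F a b 17).neg_mem (q38_4 h a b)
  · exact (h.ac (w4 a b) (w39 a b)).symm ▸ (L F a b 17).neg_mem (q39_4 h a b)
  · exact (h.ac (w4 a b) (w40 a b)).symm ▸ (L F a b 17).neg_mem (q40_4 h a b)
theorem row5 (h : Eng A) (a b : A) (j : ℕ) (hj : j < 41) : w5 a b * wv a b j ∈ L F a b (4 + dg j) := by
  interval_cases j
  · exact q5_0 h a b
  · exact q5_1 h a b
  · exact q5_2 h a b
  · exact q5_3 h a b
  · exact q5_4 h a b
  · exact (h.sq (w5 a b)).symm ▸ (L F a b 8).zero_mem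
  · exact (h.ac (w5 a b) (w6 a b)).symm ▸ (L F a b 9).neg_mem (q6_5 h a b)
  · exact (h.ac (w5 a b) (w7 a b)).symm ▸ (L F a b 9).neg_mem (q7_5 h a b)
  · exact (h.ac (w5 a b) (w8 a b)).symm ▸ (L F a b 10).neg_mem (q8_5 h a b)
  · exact (h.ac (w5 a b) (w9 a b)).symm ▸ (L F a b 11).neg_mem (q9_5 h a b)
  · exact (h.ac (w5 a b) (w10 a b)).symm ▸ (L F a b 11).neg_mem (q10_5 h a b)
  · exact (h.ac (w5 a b) (w11 a b)).symm ▸ (L F a b 12).neg_mem (q11_5 h a b)
  · exact (h.ac (w5 a b) (w12 a b)).symm ▸ (L F a b 12).neg_mem (q12_5 h a b)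
  · exact (h.ac (w5 a b) (w13 a b)).symm ▸ (L F a b 13).neg_mem (q13_5 h a b)
  · exact (h.ac (w5 a b) (w14 a b)).symm ▸ (L F a b 13).neg_mem (q14_5 h a b)
  · exact (h.ac (w5 a b) (w15 a b)).symm ▸ (L F a b 13).neg_mem (q15_5 h a b)
  · exact (h.ac (w5 a b) (w16 a b)).symm ▸ (L F a b 13).neg_mem (q16_5 h a b)
  · exact (h.ac (w5 a b) (w17 a b)).symm ▸ (L F a b 14).neg_mem (q17_5 h a b)
  · exact (h.ac (w5 a b) (w18 a b)).symm ▸ (L F a b 14).neg_mem (q18_5 h a b)
  · exact (h.ac (w5 a b) (w19 a b)).symm ▸ (L F a b 14).neg_mem (q19_5 h a b)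
  · exact (h.ac (w5 a b) (w20 a b)).symm ▸ (L F a b 14).neg_mem (q20_5 h a b)
  · exact (h.ac (w5 a b) (w21 a b)).symm ▸ (L F a b 14).neg_mem (q21_5 h a b)
  · exact (h.ac (w5 a b) (w22 a b)).symm ▸ (L F a b 15).neg_mem (q22_5 h a b)
  · exact (h.ac (w5 a b) (w23 a b)).symm ▸ (L F a b 15).neg_mem (q23_5 h a b)
  · exact (h.ac (w5 a b) (w24 a b)).symm ▸ (L F a b 15).neg_mem (q24_5 h a b)
  · exact (h.ac (w5 a b) (w25 a b)).symm ▸ (L F a b 15).neg_mem (q25_5 h a b)
  · exact (h.ac (w5 a b) (w26 a b)).symm ▸ (L F a b 15).neg_mem (q26_5 h a b)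
  · exact (h.ac (w5 a b) (w27 a b)).symm ▸ (L F a b 15).neg_mem (q27_5 h a b)
  · exact (h.ac (w5 a b) (w28 a b)).symm ▸ (L F a b 16).neg_mem (q28_5 h a b)
  · exact (h.ac (w5 a b) (w29 a b)).symm ▸ (L F a b 16).neg_mem (q29_5 h a b)
  · exact (h.ac (w5 a b) (w30 a b)).symm ▸ (L F a b 16).neg_mem (q30_5 h a b)
  · exact (h.ac (w5 a b) (w31 a b)).symm ▸ (L F a b 16).neg_mem (q31_5 h a b)
  · exact (h.ac (w5 a b) (w32 a b)).symm ▸ (L F a b 16).neg_mem (q32_5 h a b)
  · exact (h.ac (w5 a b) (w33 a b)).symm ▸ (L F a b 16).neg_mem (q33_5 h a b)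
  · exact (h.ac (w5 a b) (w34 a b)).symm ▸ (L F a b 17).neg_mem (q34_5 h a b)
  · exact (h.ac (w5 a b) (w35 a b)).symm ▸ (L F a b 17).neg_mem (q35_5 h a b)
  · exact (h.ac (w5 a b) (w36 a b)).symm ▸ (L F a b 17).neg_mem (q36_5 h a b)
  · exact (h.ac (w5 a b) (w37 a b)).symm ▸ (L F a b 17).neg_mem (q37_5 h a b)
  · exact (h.ac (w5 a b) (w38 a b)).symm ▸ (L F a b 18).neg_mem (q38_5 h a b)
  · exact (h.ac (w5 a b) (w39 a b)).symm ▸ (L F a b 18).neg_mem (q39_5 h a b)
  · exact (h.ac (w5 a b) (w40 a b)).symm ▸ (L F a b 18).neg_mem (q40_5 h a b)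
theorem row6 (h : Eng A) (a b : A) (j : ℕ) (hj : j < 41) : w6 a b * wv a b j ∈ L F a b (5 + dg j) := by
  interval_cases j
  · exact q6_0 h a b
  · exact q6_1 h a b
  · exact q6_2 h a b
  · exact q6_3 h a b
  · exact q6_4 h a b
  · exact q6_5 h a b
  · exact (h.sq (w6 a b)).symm ▸ (L F a b 10).zero_mem
  · exact (h.ac (w6 a b) (w7 a b)).symm ▸ (L F a b 10).neg_mem (q7_6 h a b)
  · exact (h.ac (w6 a b) (w8 a b)).symm ▸ (L F a b 11).neg_mem (q8_6 h a b)
  · exact (h.ac (w6 a b) (w9 a b)).symm ▸ (L F a b 12).neg_mem (q9_6 h a b)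
  · exact (h.ac (w6 a b) (w10 a b)).symm ▸ (L F a b 12).neg_mem (q10_6 h a b)
  · exact (h.ac (w6 a b) (w11 a b)).symm ▸ (L F a b 13).neg_mem (q11_6 h a b)
  · exact (h.ac (w6 a b) (w12 a b)).symm ▸ (L F a b 13).neg_mem (q12_6 h a b)
  · exact (h.ac (w6 a b) (w13 a b)).symm ▸ (L F a b 14).neg_mem (q13_6 h a b)
  · exact (h.ac (w6 a b) (w14 a b)).symm ▸ (L F a b 14).neg_mem (q14_6 h a b)
  · exact (h.ac (w6 a b) (w15 a b)).symm ▸ (L F a b 14).neg_mem (q15_6 h a b)
  · exact (h.ac (w6 a b) (w16 a b)).symm ▸ (L F a b 14).neg_mem (q16_6 h a b)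
  · exact (h.ac (w6 a b) (w17 a b)).symm ▸ (L F a b 15).neg_mem (q17_6 h a b)
  · exact (h.ac (w6 a b) (w18 a b)).symm ▸ (L F a b 15).neg_mem (q18_6 h a b)
  · exact (h.ac (w6 a b) (w19 a b)).symm ▸ (L F a b 15).neg_mem (q19_6 h a b)
  · exact (h.ac (w6 a b) (w20 a b)).symm ▸ (L F a b 15).neg_mem (q20_6 h a b)
  · exact (h.ac (w6 a b) (w21 a b)).symm ▸ (L F a b 15).neg_mem (q21_6 h a b)
  · exact (h.ac (w6 a b) (w22 a b)).symm ▸ (L F a b 16).neg_mem (q22_6 h a b)
  · exact (h.ac (w6 a b) (w23 a b)).symm ▸ (L F a b 16).neg_mem (q23_6 h a b)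
  · exact (h.ac (w6 a b) (w24 a b)).symm ▸ (L F a b 16).neg_mem (q24_6 h a b)
  · exact (h.ac (w6 a b) (w25 a b)).symm ▸ (L F a b 16).neg_mem (q25_6 h a b)
  · exact (h.ac (w6 a b) (w26 a b)).symm ▸ (L F a b 16).neg_mem (q26_6 h a b)
  · exact (h.ac (w6 a b) (w27 a b)).symm ▸ (L F a b 16).neg_mem (q27_6 h a b)
  · exact (h.ac (w6 a b) (w28 a b)).symm ▸ (L F a b 17).neg_mem (q28_6 h a b)
  · exact (h.ac (w6 a b) (w29 a b)).symm ▸ (L F a b 17).neg_mem (q29_6 h a b)
  · exact (h.ac (w6 a b) (w30 a b)).symm ▸ (L F a b 17).neg_mem (q30_6 h a b)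
  · exact (h.ac (w6 a b) (w31 a b)).symm ▸ (L F a b 17).neg_mem (q31_6 h a b)
  · exact (h.ac (w6 a b) (w32 a b)).symm ▸ (L F a b 17).neg_mem (q32_6 h a b)
  · exact (h.ac (w6 a b) (w33 a b)).symm ▸ (L F a b 17).neg_mem (q33_6 h a b)
  · exact (h.ac (w6 a b) (w34 a b)).symm ▸ (L F a b 18).neg_mem (q34_6 h a b)
  · exact (h.ac (w6 a b) (w35 a b)).symm ▸ (L F a b 18).neg_mem (q35_6 h a b)
  · exact (h.ac (w6 a b) (w36 a b)).symm ▸ (L F a b 18).neg_mem (q36_6 h a b)
  · exact (h.ac (w6 a b) (w37 a b)).symm ▸ (L F a b 18).neg_mem (q37_6 h a b)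
  · exact (h.ac (w6 a b) (w38 a b)).symm ▸ (L F a b 19).neg_mem (q38_6 h a b)
  · exact (h.ac (w6 a b) (w39 a b)).symm ▸ (L F a b 19).neg_mem (q39_6 h a b)
  · exact (h.ac (w6 a b) (w40 a b)).symm ▸ (L F a b 19).neg_mem (q40_6 h a b)
theorem row7 (h : Eng A) (a b : A) (j : ℕ) (hj : j < 41) : w7 a b * wv a b j ∈ L F a b (5 + dg j) := by
  interval_cases j
  · exact q7_0 h a b
  · exact q7_1 h a b
  · exact q7_2 h a b
  · exact q7_3 h a b
  · exact q7_4 h a b
  · exact q7_5 h a b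
  · exact q7_6 h a b
  · exact (h.sq (w7 a b)).symm ▸ (L F a b 10).zero_mem
  · exact (h.ac (w7 a b) (w8 a b)).symm ▸ (L F a b 11).neg_mem (q8_7 h a b)
  · exact (h.ac (w7 a b) (w9 a b)).symm ▸ (L F a b 12).neg_mem (q9_7 h a b)
  · exact (h.ac (w7 a b) (w10 a b)).symm ▸ (L F a b 12).neg_mem (q10_7 h a b)
  · exact (h.ac (w7 a b) (w11 a b)).symm ▸ (L F a b 13).neg_mem (q11_7 h a b)
  · exact (h.ac (w7 a b) (w12 a b)).symm ▸ (L F a b 13).neg_mem (q12_7 h a b)
  · exact (h.ac (w7 a b) (w13 a b)).symm ▸ (L F a b 14).neg_mem (q13_7 h a b)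
  · exact (h.ac (w7 a b) (w14 a b)).symm ▸ (L F a b 14).neg_mem (q14_7 h a b)
  · exact (h.ac (w7 a b) (w15 a b)).symm ▸ (L F a b 14).neg_mem (q15_7 h a b)
  · exact (h.ac (w7 a b) (w16 a b)).symm ▸ (L F a b 14).neg_mem (q16_7 h a b)
  · exact (h.ac (w7 a b) (w17 a b)).symm ▸ (L F a b 15).neg_mem (q17_7 h a b)
  · exact (h.ac (w7 a b) (w18 a b)).symm ▸ (L F a b 15).neg_mem (q18_7 h a b)
  · exact (h.ac (w7 a b) (w19 a b)).symm ▸ (L F a b 15).neg_mem (q19_7 h a b)
  · exact (h.ac (w7 a b) (w20 a b)).symm ▸ (L F a b 15).neg_mem (q20_7 h a b)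
  · exact (h.ac (w7 a b) (w21 a b)).symm ▸ (L F a b 15).neg_mem (q21_7 h a b)
  · exact (h.ac (w7 a b) (w22 a b)).symm ▸ (L F a b 16).neg_mem (q22_7 h a b)
  · exact (h.ac (w7 a b) (w23 a b)).symm ▸ (L F a b 16).neg_mem (q23_7 h a b)
  · exact (h.ac (w7 a b) (w24 a b)).symm ▸ (L F a b 16).neg_mem (q24_7 h a b)
  · exact (h.ac (w7 a b) (w25 a b)).symm ▸ (L F a b 16).neg_mem (q25_7 h a b)
  · exact (h.ac (w7 a b) (w26 a b)).symm ▸ (L F a b 16).neg_mem (q26_7 h a b)
  · exact (h.ac (w7 a b) (w27 a b)).symm ▸ (L F a b 16).neg_mem (q27_7 h a b)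
  · exact (h.ac (w7 a b) (w28 a b)).symm ▸ (L F a b 17).neg_mem (q28_7 h a b)
  · exact (h.ac (w7 a b) (w29 a b)).symm ▸ (L F a b 17).neg_mem (q29_7 h a b)
  · exact (h.ac (w7 a b) (w30 a b)).symm ▸ (L F a b 17).neg_mem (q30_7 h a b)
  · exact (h.ac (w7 a b) (w31 a b)).symm ▸ (L F a b 17).neg_mem (q31_7 h a b)
  · exact (h.ac (w7 a b) (w32 a b)).symm ▸ (L F a b 17).neg_mem (q32_7 h a b)
  · exact (h.ac (w7 a b) (w33 a b)).symm ▸ (L F a b 17).neg_mem (q33_7 h a b)
  · exact (h.ac (w7 a b) (w34 a b)).symm ▸ (L F a b 18).neg_mem (q34_7 h a b)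
  · exact (h.ac (w7 a b) (w35 a b)).symm ▸ (L F a b 18).neg_mem (q35_7 h a b)
  · exact (h.ac (w7 a b) (w36 a b)).symm ▸ (L F a b 18).neg_mem (q36_7 h a b)
  · exact (h.ac (w7 a b) (w37 a b)).symm ▸ (L F a b 18).neg_mem (q37_7 h a b)
  · exact (h.ac (w7 a b) (w38 a b)).symm ▸ (L F a b 19).neg_mem (q38_7 h a b)
  · exact (h.ac (w7 a b) (w39 a b)).symm ▸ (L F a b 19).neg_mem (q39_7 h a b)
  · exact (h.ac (w7 a b) (w40 a b)).symm ▸ (L F a b 19).neg_mem (q40_7 h a b)
theorem row8 (h : Eng A) (a b : A) (j : ℕ) (hj : j < 41) : w8 a b * wv a b j ∈ L F a b (6 + dg j) := by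
  interval_cases j
  · exact q8_0 h a b
  · exact q8_1 h a b
  · exact q8_2 h a b
  · exact q8_3 h a b
  · exact q8_4 h a b
  · exact q8_5 h a b
  · exact q8_6 h a b
  · exact q8_7 h a b
  · exact (h.sq (w8 a b)).symm ▸ (L F a b 12).zero_mem
  · exact (h.ac (w8 a b) (w9 a b)).symm ▸ (L F a b 13).neg_mem (q9_8 h a b)
  · exact (h.ac (w8 a b) (w10 a b)).symm ▸ (L F a b 13).neg_mem (q10_8 h a b)
  · exact (h.ac (w8 a b) (w11 a b)).symm ▸ (L F a b 14).neg_mem (q11_8 h a b)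
  · exact (h.ac (w8 a b) (w12 a b)).symm ▸ (L F a b 14).neg_mem (q12_8 h a b)
  · exact (h.ac (w8 a b) (w13 a b)).symm ▸ (L F a b 15).neg_mem (q13_8 h a b)
  · exact (h.ac (w8 a b) (w14 a b)).symm ▸ (L F a b 15).neg_mem (q14_8 h a b)
  · exact (h.ac (w8 a b) (w15 a b)).symm ▸ (L F a b 15).neg_mem (q15_8 h a b)
  · exact (h.ac (w8 a b) (w16 a b)).symm ▸ (L F a b 15).neg_mem (q16_8 h a b)
  · exact (h.ac (w8 a b) (w17 a b)).symm ▸ (L F a b 16).neg_mem (q17_8 h a b)
  · exact (h.ac (w8 a b) (w18 a b)).symm ▸ (L F a b 16).neg_mem (q18_8 h a b)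
  · exact (h.ac (w8 a b) (w19 a b)).symm ▸ (L F a b 16).neg_mem (q19_8 h a b)
  · exact (h.ac (w8 a b) (w20 a b)).symm ▸ (L F a b 16).neg_mem (q20_8 h a b)
  · exact (h.ac (w8 a b) (w21 a b)).symm ▸ (L F a b 16).neg_mem (q21_8 h a b)
  · exact (h.ac (w8 a b) (w22 a b)).symm ▸ (L F a b 17).neg_mem (q22_8 h a b)
  · exact (h.ac (w8 a b) (w23 a b)).symm ▸ (L F a b 17).neg_mem (q23_8 h a b)
  · exact (h.ac (w8 a b) (w24 a b)).symm ▸ (L F a b 17).neg_mem (q24_8 h a b)
  · exact (h.ac (w8 a b) (w25 a b)).symm ▸ (L F a b 17).neg_mem (q25_8 h a b)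
  · exact (h.ac (w8 a b) (w26 a b)).symm ▸ (L F a b 17).neg_mem (q26_8 h a b)
  · exact (h.ac (w8 a b) (w27 a b)).symm ▸ (L F a b 17).neg_mem (q27_8 h a b)
  · exact (h.ac (w8 a b) (w28 a b)).symm ▸ (L F a b 18).neg_mem (q28_8 h a b)
  · exact (h.ac (w8 a b) (w29 a b)).symm ▸ (L F a b 18).neg_mem (q29_8 h a b)
  · exact (h.ac (w8 a b) (w30 a b)).symm ▸ (L F a b 18).neg_mem (q30_8 h a b)
  · exact (h.ac (w8 a b) (w31 a b)).symm ▸ (L F a b 18).neg_mem (q31_8 h a b)
  · exact (h.ac (w8 a b) (w32 a b)).symm ▸ (L F a b 18).neg_mem (q32_8 h a b)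
  · exact (h.ac (w8 a b) (w33 a b)).symm ▸ (L F a b 18).neg_mem (q33_8 h a b)
  · exact (h.ac (w8 a b) (w34 a b)).symm ▸ (L F a b 19).neg_mem (q34_8 h a b)
  · exact (h.ac (w8 a b) (w35 a b)).symm ▸ (L F a b 19).neg_mem (q35_8 h a b)
  · exact (h.ac (w8 a b) (w36 a b)).symm ▸ (L F a b 19).neg_mem (q36_8 h a b)
  · exact (h.ac (w8 a b) (w37 a b)).symm ▸ (L F a b 19).neg_mem (q37_8 h a b)
  · exact (h.ac (w8 a b) (w38 a b)).symm ▸ (L F a b 20).neg_mem (q38_8 h a b)
  · exact (h.ac (w8 a b) (w39 a b)).symm ▸ (L F a b 20).neg_mem (q39_8 h a b)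
  · exact (h.ac (w8 a b) (w40 a b)).symm ▸ (L F a b 20).neg_mem (q40_8 h a b)
theorem row9 (h : Eng A) (a b : A) (j : ℕ) (hj : j < 41) : w9 a b * wv a b j ∈ L F a b (7 + dg j) := by
  interval_cases j
  · exact q9_0 h a b
  · exact q9_1 h a b
  · exact q9_2 h a b
  · exact q9_3 h a b
  · exact q9_4 h a b
  · exact q9_5 h a b
  · exact q9_6 h a b
  · exact q9_7 h a b
  · exact q9_8 h a b
  · exact (h.sq (w9 a b)).symm ▸ (L F a b 14).zero_mem
  · exact (h.ac (w9 a b) (w10 a b)).symm ▸ (L F a b 14).neg_mem (q10_9 h a b)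
  · exact (h.ac (w9 a b) (w11 a b)).symm ▸ (L F a b 15).neg_mem (q11_9 h a b)
  · exact (h.ac (w9 a b) (w12 a b)).symm ▸ (L F a b 15).neg_mem (q12_9 h a b)
  · exact (h.ac (w9 a b) (w13 a b)).symm ▸ (L F a b 16).neg_mem (q13_9 h a b)
  · exact (h.ac (w9 a b) (w14 a b)).symm ▸ (L F a b 16).neg_mem (q14_9 h a b)
  · exact (h.ac (w9 a b) (w15 a b)).symm ▸ (L F a b 16).neg_mem (q15_9 h a b)
  · exact (h.ac (w9 a b) (w16 a b)).symm ▸ (L F a b 16).neg_mem (q16_9 h a b)
  · exact (h.ac (w9 a b) (w17 a b)).symm ▸ (L F a b 17).neg_mem (q17_9 h a b)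
  · exact (h.ac (w9 a b) (w18 a b)).symm ▸ (L F a b 17).neg_mem (q18_9 h a b)
  · exact (h.ac (w9 a b) (w19 a b)).symm ▸ (L F a b 17).neg_mem (q19_9 h a b)
  · exact (h.ac (w9 a b) (w20 a b)).symm ▸ (L F a b 17).neg_mem (q20_9 h a b)
  · exact (h.ac (w9 a b) (w21 a b)).symm ▸ (L F a b 17).neg_mem (q21_9 h a b)
  · exact (h.ac (w9 a b) (w22 a b)).symm ▸ (L F a b 18).neg_mem (q22_9 h a b)
  · exact (h.ac (w9 a b) (w23 a b)).symm ▸ (L F a b 18).neg_mem (q23_9 h a b)
  · exact (h.ac (w9 a b) (w24 a b)).symm ▸ (L F a b 18).neg_mem (q24_9 h a b)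
  · exact (h.ac (w9 a b) (w25 a b)).symm ▸ (L F a b 18).neg_mem (q25_9 h a b)
  · exact (h.ac (w9 a b) (w26 a b)).symm ▸ (L F a b 18).neg_mem (q26_9 h a b)
  · exact (h.ac (w9 a b) (w27 a b)).symm ▸ (L F a b 18).neg_mem (q27_9 h a b)
  · exact (h.ac (w9 a b) (w28 a b)).symm ▸ (L F a b 19).neg_mem (q28_9 h a b)
  · exact (h.ac (w9 a b) (w29 a b)).symm ▸ (L F a b 19).neg_mem (q29_9 h a b)
  · exact (h.ac (w9 a b) (w30 a b)).symm ▸ (L F a b 19).neg_mem (q30_9 h a b)
  · exact (h.ac (w9 a b) (w31 a b)).symm ▸ (L F a b 19).neg_mem (q31_9 h a b)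
  · exact (h.ac (w9 a b) (w32 a b)).symm ▸ (L F a b 19).neg_mem (q32_9 h a b)
  · exact (h.ac (w9 a b) (w33 a b)).symm ▸ (L F a b 19).neg_mem (q33_9 h a b)
  · exact (h.ac (w9 a b) (w34 a b)).symm ▸ (L F a b 20).neg_mem (q34_9 h a b)
  · exact (h.ac (w9 a b) (w35 a b)).symm ▸ (L F a b 20).neg_mem (q35_9 h a b)
  · exact (h.ac (w9 a b) (w36 a b)).symm ▸ (L F a b 20).neg_mem (q36_9 h a b)
  · exact (h.ac (w9 a b) (w37 a b)).symm ▸ (L F a b 20).neg_mem (q37_9 h a b)
  · exact (h.ac (w9 a b) (w38 a b)).symm ▸ (L F a b 21).neg_mem (q38_9 h a b)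
  · exact (h.ac (w9 a b) (w39 a b)).symm ▸ (L F a b 21).neg_mem (q39_9 h a b)
  · exact (h.ac (w9 a b) (w40 a b)).symm ▸ (L F a b 21).neg_mem (q40_9 h a b)
theorem row10 (h : Eng A) (a b : A) (j : ℕ) (hj : j < 41) : w10 a b * wv a b j ∈ L F a b (7 + dg j) := by
  interval_cases j
  · exact q10_0 h a b
  · exact q10_1 h a b
  · exact q10_2 h a b
  · exact q10_3 h a b
  · exact q10_4 h a b
  · exact q10_5 h a b
  · exact q10_6 h a b
  · exact q10_7 h a b
  · exact q10_8 h a b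
  · exact q10_9 h a b
  · exact (h.sq (w10 a b)).symm ▸ (L F a b 14).zero_mem
  · exact (h.ac (w10 a b) (w11 a b)).symm ▸ (L F a b 15).neg_mem (q11_10 h a b)
  · exact (h.ac (w10 a b) (w12 a b)).symm ▸ (L F a b 15).neg_mem (q12_10 h a b)
  · exact (h.ac (w10 a b) (w13 a b)).symm ▸ (L F a b 16).neg_mem (q13_10 h a b)
  · exact (h.ac (w10 a b) (w14 a b)).symm ▸ (L F a b 16).neg_mem (q14_10 h a b)
  · exact (h.ac (w10 a b) (w15 a b)).symm ▸ (L F a b 16).neg_mem (q15_10 h a b)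
  · exact (h.ac (w10 a b) (w16 a b)).symm ▸ (L F a b 16).neg_mem (q16_10 h a b)
  · exact (h.ac (w10 a b) (w17 a b)).symm ▸ (L F a b 17).neg_mem (q17_10 h a b)
  · exact (h.ac (w10 a b) (w18 a b)).symm ▸ (L F a b 17).neg_mem (q18_10 h a b)
  · exact (h.ac (w10 a b) (w19 a b)).symm ▸ (L F a b 17).neg_mem (q19_10 h a b)
  · exact (h.ac (w10 a b) (w20 a b)).symm ▸ (L F a b 17).neg_mem (q20_10 h a b)
  · exact (h.ac (w10 a b) (w21 a b)).symm ▸ (L F a b 17).neg_mem (q21_10 h a b)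
  · exact (h.ac (w10 a b) (w22 a b)).symm ▸ (L F a b 18).neg_mem (q22_10 h a b)
  · exact (h.ac (w10 a b) (w23 a b)).symm ▸ (L F a b 18).neg_mem (q23_10 h a b)
  · exact (h.ac (w10 a b) (w24 a b)).symm ▸ (L F a b 18).neg_mem (q24_10 h a b)
  · exact (h.ac (w10 a b) (w25 a b)).symm ▸ (L F a b 18).neg_mem (q25_10 h a b)
  · exact (h.ac (w10 a b) (w26 a b)).symm ▸ (L F a b 18).neg_mem (q26_10 h a b)
  · exact (h.ac (w10 a b) (w27 a b)).symm ▸ (L F a b 18).neg_mem (q27_10 h a b)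
  · exact (h.ac (w10 a b) (w28 a b)).symm ▸ (L F a b 19).neg_mem (q28_10 h a b)
  · exact (h.ac (w10 a b) (w29 a b)).symm ▸ (L F a b 19).neg_mem (q29_10 h a b)
  · exact (h.ac (w10 a b) (w30 a b)).symm ▸ (L F a b 19).neg_mem (q30_10 h a b)
  · exact (h.ac (w10 a b) (w31 a b)).symm ▸ (L F a b 19).neg_mem (q31_10 h a b)
  · exact (h.ac (w10 a b) (w32 a b)).symm ▸ (L F a b 19).neg_mem (q32_10 h a b)
  · exact (h.ac (w10 a b) (w33 a b)).symm ▸ (L F a b 19).neg_mem (q33_10 h a b)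
  · exact (h.ac (w10 a b) (w34 a b)).symm ▸ (L F a b 20).neg_mem (q34_10 h a b)
  · exact (h.ac (w10 a b) (w35 a b)).symm ▸ (L F a b 20).neg_mem (q35_10 h a b)
  · exact (h.ac (w10 a b) (w36 a b)).symm ▸ (L F a b 20).neg_mem (q36_10 h a b)
  · exact (h.ac (w10 a b) (w37 a b)).symm ▸ (L F a b 20).neg_mem (q37_10 h a b)
  · exact (h.ac (w10 a b) (w38 a b)).symm ▸ (L F a b 21).neg_mem (q38_10 h a b)
  · exact (h.ac (w10 a b) (w39 a b)).symm ▸ (L F a b 21).neg_mem (q39_10 h a b)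
  · exact (h.ac (w10 a b) (w40 a b)).symm ▸ (L F a b 21).neg_mem (q40_10 h a b)
theorem row11 (h : Eng A) (a b : A) (j : ℕ) (hj : j < 41) : w11 a b * wv a b j ∈ L F a b (8 + dg j) := by
  interval_cases j
  · exact q11_0 h a b
  · exact q11_1 h a b
  · exact q11_2 h a b
  · exact q11_3 h a b
  · exact q11_4 h a b
  · exact q11_5 h a b
  · exact q11_6 h a b
  · exact q11_7 h a b
  · exact q11_8 h a b
  · exact q11_9 h a b
  · exact q11_10 h a b
  · exact (h.sq (w11 a b)).symm ▸ (L F a b 16).zero_mem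
  · exact (h.ac (w11 a b) (w12 a b)).symm ▸ (L F a b 16).neg_mem (q12_11 h a b)
  · exact (h.ac (w11 a b) (w13 a b)).symm ▸ (L F a b 17).neg_mem (q13_11 h a b)
  · exact (h.ac (w11 a b) (w14 a b)).symm ▸ (L F a b 17).neg_mem (q14_11 h a b)
  · exact (h.ac (w11 a b) (w15 a b)).symm ▸ (L F a b 17).neg_mem (q15_11 h a b)
  · exact (h.ac (w11 a b) (w16 a b)).symm ▸ (L F a b 17).neg_mem (q16_11 h a b)
  · exact (h.ac (w11 a b) (w17 a b)).symm ▸ (L F a b 18).neg_mem (q17_11 h a b)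
  · exact (h.ac (w11 a b) (w18 a b)).symm ▸ (L F a b 18).neg_mem (q18_11 h a b)
  · exact (h.ac (w11 a b) (w19 a b)).symm ▸ (L F a b 18).neg_mem (q19_11 h a b)
  · exact (h.ac (w11 a b) (w20 a b)).symm ▸ (L F a b 18).neg_mem (q20_11 h a b)
  · exact (h.ac (w11 a b) (w21 a b)).symm ▸ (L F a b 18).neg_mem (q21_11 h a b)
  · exact (h.ac (w11 a b) (w22 a b)).symm ▸ (L F a b 19).neg_mem (q22_11 h a b)
  · exact (h.ac (w11 a b) (w23 a b)).symm ▸ (L F a b 19).neg_mem (q23_11 h a b)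
  · exact (h.ac (w11 a b) (w24 a b)).symm ▸ (L F a b 19).neg_mem (q24_11 h a b)
  · exact (h.ac (w11 a b) (w25 a b)).symm ▸ (L F a b 19).neg_mem (q25_11 h a b)
  · exact (h.ac (w11 a b) (w26 a b)).symm ▸ (L F a b 19).neg_mem (q26_11 h a b)
  · exact (h.ac (w11 a b) (w27 a b)).symm ▸ (L F a b 19).neg_mem (q27_11 h a b)
  · exact (h.ac (w11 a b) (w28 a b)).symm ▸ (L F a b 20).neg_mem (q28_11 h a b)
  · exact (h.ac (w11 a b) (w29 a b)).symm ▸ (L F a b 20).neg_mem (q29_11 h a b)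
  · exact (h.ac (w11 a b) (w30 a b)).symm ▸ (L F a b 20).neg_mem (q30_11 h a b)
  · exact (h.ac (w11 a b) (w31 a b)).symm ▸ (L F a b 20).neg_mem (q31_11 h a b)
  · exact (h.ac (w11 a b) (w32 a b)).symm ▸ (L F a b 20).neg_mem (q32_11 h a b)
  · exact (h.ac (w11 a b) (w33 a b)).symm ▸ (L F a b 20).neg_mem (q33_11 h a b)
  · exact (h.ac (w11 a b) (w34 a b)).symm ▸ (L F a b 21).neg_mem (q34_11 h a b)
  · exact (h.ac (w11 a b) (w35 a b)).symm ▸ (L F a b 21).neg_mem (q35_11 h a b)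
  · exact (h.ac (w11 a b) (w36 a b)).symm ▸ (L F a b 21).neg_mem (q36_11 h a b)
  · exact (h.ac (w11 a b) (w37 a b)).symm ▸ (L F a b 21).neg_mem (q37_11 h a b)
  · exact (h.ac (w11 a b) (w38 a b)).symm ▸ (L F a b 22).neg_mem (q38_11 h a b)
  · exact (h.ac (w11 a b) (w39 a b)).symm ▸ (L F a b 22).neg_mem (q39_11 h a b)
  · exact (h.ac (w11 a b) (w40 a b)).symm ▸ (L F a b 22).neg_mem (q40_11 h a b)
theorem row12 (h : Eng A) (a b : A) (j : ℕ) (hj : j < 41) : w12 a b * wv a b j ∈ L F a b (8 + dg j) := by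
  interval_cases j
  · exact q12_0 h a b
  · exact q12_1 h a b
  · exact q12_2 h a b
  · exact q12_3 h a b
  · exact q12_4 h a b
  · exact q12_5 h a b
  · exact q12_6 h a b
  · exact q12_7 h a b
  · exact q12_8 h a b
  · exact q12_9 h a b
  · exact q12_10 h a b
  · exact q12_11 h a b
  · exact (h.sq (w12 a b)).symm ▸ (L F a b 16).zero_mem
  · exact (h.ac (w12 a b) (w13 a b)).symm ▸ (L F a b 17).neg_mem (q13_12 h a b)
  · exact (h.ac (w12 a b) (w14 a b)).symm ▸ (L F a b 17).neg_mem (q14_12 h a b)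
  · exact (h.ac (w12 a b) (w15 a b)).symm ▸ (L F a b 17).neg_mem (q15_12 h a b)
  · exact (h.ac (w12 a b) (w16 a b)).symm ▸ (L F a b 17).neg_mem (q16_12 h a b)
  · exact (h.ac (w12 a b) (w17 a b)).symm ▸ (L F a b 18).neg_mem (q17_12 h a b)
  · exact (h.ac (w12 a b) (w18 a b)).symm ▸ (L F a b 18).neg_mem (q18_12 h a b)
  · exact (h.ac (w12 a b) (w19 a b)).symm ▸ (L F a b 18).neg_mem (q19_12 h a b)
  · exact (h.ac (w12 a b) (w20 a b)).symm ▸ (L F a b 18).neg_mem (q20_12 h a b)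
  · exact (h.ac (w12 a b) (w21 a b)).symm ▸ (L F a b 18).neg_mem (q21_12 h a b)
  · exact (h.ac (w12 a b) (w22 a b)).symm ▸ (L F a b 19).neg_mem (q22_12 h a b)
  · exact (h.ac (w12 a b) (w23 a b)).symm ▸ (L F a b 19).neg_mem (q23_12 h a b)
  · exact (h.ac (w12 a b) (w24 a b)).symm ▸ (L F a b 19).neg_mem (q24_12 h a b)
  · exact (h.ac (w12 a b) (w25 a b)).symm ▸ (L F a b 19).neg_mem (q25_12 h a b)
  · exact (h.ac (w12 a b) (w26 a b)).symm ▸ (L F a b 19).neg_mem (q26_12 h a b)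
  · exact (h.ac (w12 a b) (w27 a b)).symm ▸ (L F a b 19).neg_mem (q27_12 h a b)
  · exact (h.ac (w12 a b) (w28 a b)).symm ▸ (L F a b 20).neg_mem (q28_12 h a b)
  · exact (h.ac (w12 a b) (w29 a b)).symm ▸ (L F a b 20).neg_mem (q29_12 h a b)
  · exact (h.ac (w12 a b) (w30 a b)).symm ▸ (L F a b 20).neg_mem (q30_12 h a b)
  · exact (h.ac (w12 a b) (w31 a b)).symm ▸ (L F a b 20).neg_mem (q31_12 h a b)
  · exact (h.ac (w12 a b) (w32 a b)).symm ▸ (L F a b 20).neg_mem (q32_12 h a b)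
  · exact (h.ac (w12 a b) (w33 a b)).symm ▸ (L F a b 20).neg_mem (q33_12 h a b)
  · exact (h.ac (w12 a b) (w34 a b)).symm ▸ (L F a b 21).neg_mem (q34_12 h a b)
  · exact (h.ac (w12 a b) (w35 a b)).symm ▸ (L F a b 21).neg_mem (q35_12 h a b)
  · exact (h.ac (w12 a b) (w36 a b)).symm ▸ (L F a b 21).neg_mem (q36_12 h a b)
  · exact (h.ac (w12 a b) (w37 a b)).symm ▸ (L F a b 21).neg_mem (q37_12 h a b)
  · exact (h.ac (w12 a b) (w38 a b)).symm ▸ (L F a b 22).neg_mem (q38_12 h a b)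
  · exact (h.ac (w12 a b) (w39 a b)).symm ▸ (L F a b 22).neg_mem (q39_12 h a b)
  · exact (h.ac (w12 a b) (w40 a b)).symm ▸ (L F a b 22).neg_mem (q40_12 h a b)
theorem row13 (h : Eng A) (a b : A) (j : ℕ) (hj : j < 41) : w13 a b * wv a b j ∈ L F a b (9 + dg j) := by
  interval_cases j
  · exact q13_0 h a b
  · exact q13_1 h a b
  · exact q13_2 h a b
  · exact q13_3 h a b
  · exact q13_4 h a b
  · exact q13_5 h a b
  · exact q13_6 h a b
  · exact q13_7 h a b
  · exact q13_8 h a b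
  · exact q13_9 h a b
  · exact q13_10 h a b
  · exact q13_11 h a b
  · exact q13_12 h a b
  · exact (h.sq (w13 a b)).symm ▸ (L F a b 18).zero_mem
  · exact (h.ac (w13 a b) (w14 a b)).symm ▸ (L F a b 18).neg_mem (q14_13 h a b)
  · exact (h.ac (w13 a b) (w15 a b)).symm ▸ (L F a b 18).neg_mem (q15_13 h a b)
  · exact (h.ac (w13 a b) (w16 a b)).symm ▸ (L F a b 18).neg_mem (q16_13 h a b)
  · exact (h.ac (w13 a b) (w17 a b)).symm ▸ (L F a b 19).neg_mem (q17_13 h a b)
  · exact (h.ac (w13 a b) (w18 a b)).symm ▸ (L F a b 19).neg_mem (q18_13 h a b)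
  · exact (h.ac (w13 a b) (w19 a b)).symm ▸ (L F a b 19).neg_mem (q19_13 h a b)
  · exact (h.ac (w13 a b) (w20 a b)).symm ▸ (L F a b 19).neg_mem (q20_13 h a b)
  · exact (h.ac (w13 a b) (w21 a b)).symm ▸ (L F a b 19).neg_mem (q21_13 h a b)
  · exact (h.ac (w13 a b) (w22 a b)).symm ▸ (L F a b 20).neg_mem (q22_13 h a b)
  · exact (h.ac (w13 a b) (w23 a b)).symm ▸ (L F a b 20).neg_mem (q23_13 h a b)
  · exact (h.ac (w13 a b) (w24 a b)).symm ▸ (L F a b 20).neg_mem (q24_13 h a b)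
  · exact (h.ac (w13 a b) (w25 a b)).symm ▸ (L F a b 20).neg_mem (q25_13 h a b)
  · exact (h.ac (w13 a b) (w26 a b)).symm ▸ (L F a b 20).neg_mem (q26_13 h a b)
  · exact (h.ac (w13 a b) (w27 a b)).symm ▸ (L F a b 20).neg_mem (q27_13 h a b)
  · exact (h.ac (w13 a b) (w28 a b)).symm ▸ (L F a b 21).neg_mem (q28_13 h a b)
  · exact (h.ac (w13 a b) (w29 a b)).symm ▸ (L F a b 21).neg_mem (q29_13 h a b)
  · exact (h.ac (w13 a b) (w30 a b)).symm ▸ (L F a b 21).neg_mem (q30_13 h a b)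
  · exact (h.ac (w13 a b) (w31 a b)).symm ▸ (L F a b 21).neg_mem (q31_13 h a b)
  · exact (h.ac (w13 a b) (w32 a b)).symm ▸ (L F a b 21).neg_mem (q32_13 h a b)
  · exact (h.ac (w13 a b) (w33 a b)).symm ▸ (L F a b 21).neg_mem (q33_13 h a b)
  · exact (h.ac (w13 a b) (w34 a b)).symm ▸ (L F a b 22).neg_mem (q34_13 h a b)
  · exact (h.ac (w13 a b) (w35 a b)).symm ▸ (L F a b 22).neg_mem (q35_13 h a b)
  · exact (h.ac (w13 a b) (w36 a b)).symm ▸ (L F a b 22).neg_mem (q36_13 h a b)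
  · exact (h.ac (w13 a b) (w37 a b)).symm ▸ (L F a b 22).neg_mem (q37_13 h a b)
  · exact (h.ac (w13 a b) (w38 a b)).symm ▸ (L F a b 23).neg_mem (q38_13 h a b)
  · exact (h.ac (w13 a b) (w39 a b)).symm ▸ (L F a b 23).neg_mem (q39_13 h a b)
  · exact (h.ac (w13 a b) (w40 a b)).symm ▸ (L F a b 23).neg_mem (q40_13 h a b)
theorem row14 (h : Eng A) (a b : A) (j : ℕ) (hj : j < 41) : w14 a b * wv a b j ∈ L F a b (9 + dg j) := by
  interval_cases j
  · exact q14_0 h a b
  · exact q14_1 h a b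
  · exact q14_2 h a b
  · exact q14_3 h a b
  · exact q14_4 h a b
  · exact q14_5 h a b
  · exact q14_6 h a b
  · exact q14_7 h a b
  · exact q14_8 h a b
  · exact q14_9 h a b
  · exact q14_10 h a b
  · exact q14_11 h a b
  · exact q14_12 h a b
  · exact q14_13 h a b
  · exact (h.sq (w14 a b)).symm ▸ (L F a b 18).zero_mem
  · exact (h.ac (w14 a b) (w15 a b)).symm ▸ (L F a b 18).neg_mem (q15_14 h a b)
  · exact (h.ac (w14 a b) (w16 a b)).symm ▸ (L F a b 18).neg_mem (q16_14 h a b)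
  · exact (h.ac (w14 a b) (w17 a b)).symm ▸ (L F a b 19).neg_mem (q17_14 h a b)
  · exact (h.ac (w14 a b) (w18 a b)).symm ▸ (L F a b 19).neg_mem (q18_14 h a b)
  · exact (h.ac (w14 a b) (w19 a b)).symm ▸ (L F a b 19).neg_mem (q19_14 h a b)
  · exact (h.ac (w14 a b) (w20 a b)).symm ▸ (L F a b 19).neg_mem (q20_14 h a b)
  · exact (h.ac (w14 a b) (w21 a b)).symm ▸ (L F a b 19).neg_mem (q21_14 h a b)
  · exact (h.ac (w14 a b) (w22 a b)).symm ▸ (L F a b 20).neg_mem (q22_14 h a b)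
  · exact (h.ac (w14 a b) (w23 a b)).symm ▸ (L F a b 20).neg_mem (q23_14 h a b)
  · exact (h.ac (w14 a b) (w24 a b)).symm ▸ (L F a b 20).neg_mem (q24_14 h a b)
  · exact (h.ac (w14 a b) (w25 a b)).symm ▸ (L F a b 20).neg_mem (q25_14 h a b)
  · exact (h.ac (w14 a b) (w26 a b)).symm ▸ (L F a b 20).neg_mem (q26_14 h a b)
  · exact (h.ac (w14 a b) (w27 a b)).symm ▸ (L F a b 20).neg_mem (q27_14 h a b)
  · exact (h.ac (w14 a b) (w28 a b)).symm ▸ (L F a b 21).neg_mem (q28_14 h a b)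
  · exact (h.ac (w14 a b) (w29 a b)).symm ▸ (L F a b 21).neg_mem (q29_14 h a b)
  · exact (h.ac (w14 a b) (w30 a b)).symm ▸ (L F a b 21).neg_mem (q30_14 h a b)
  · exact (h.ac (w14 a b) (w31 a b)).symm ▸ (L F a b 21).neg_mem (q31_14 h a b)
  · exact (h.ac (w14 a b) (w32 a b)).symm ▸ (L F a b 21).neg_mem (q32_14 h a b)
  · exact (h.ac (w14 a b) (w33 a b)).symm ▸ (L F a b 21).neg_mem (q33_14 h a b)
  · exact (h.ac (w14 a b) (w34 a b)).symm ▸ (L F a b 22).neg_mem (q34_14 h a b)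
  · exact (h.ac (w14 a b) (w35 a b)).symm ▸ (L F a b 22).neg_mem (q35_14 h a b)
  · exact (h.ac (w14 a b) (w36 a b)).symm ▸ (L F a b 22).neg_mem (q36_14 h a b)
  · exact (h.ac (w14 a b) (w37 a b)).symm ▸ (L F a b 22).neg_mem (q37_14 h a b)
  · exact (h.ac (w14 a b) (w38 a b)).symm ▸ (L F a b 23).neg_mem (q38_14 h a b)
  · exact (h.ac (w14 a b) (w39 a b)).symm ▸ (L F a b 23).neg_mem (q39_14 h a b)
  · exact (h.ac (w14 a b) (w40 a b)).symm ▸ (L F a b 23).neg_mem (q40_14 h a b)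
theorem row15 (h : Eng A) (a b : A) (j : ℕ) (hj : j < 41) : w15 a b * wv a b j ∈ L F a b (9 + dg j) := by
  interval_cases j
  · exact q15_0 h a b
  · exact q15_1 h a b
  · exact q15_2 h a b
  · exact q15_3 h a b
  · exact q15_4 h a b
  · exact q15_5 h a b
  · exact q15_6 h a b
  · exact q15_7 h a b
  · exact q15_8 h a b
  · exact q15_9 h a b
  · exact q15_10 h a b
  · exact q15_11 h a b
  · exact q15_12 h a b
  · exact q15_13 h a b
  · exact q15_14 h a b
  · exact (h.sq (w15 a b)).symm ▸ (L F a b 18).zero_mem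
  · exact (h.ac (w15 a b) (w16 a b)).symm ▸ (L F a b 18).neg_mem (q16_15 h a b)
  · exact (h.ac (w15 a b) (w17 a b)).symm ▸ (L F a b 19).neg_mem (q17_15 h a b)
  · exact (h.ac (w15 a b) (w18 a b)).symm ▸ (L F a b 19).neg_mem (q18_15 h a b)
  · exact (h.ac (w15 a b) (w19 a b)).symm ▸ (L F a b 19).neg_mem (q19_15 h a b)
  · exact (h.ac (w15 a b) (w20 a b)).symm ▸ (L F a b 19).neg_mem (q20_15 h a b)
  · exact (h.ac (w15 a b) (w21 a b)).symm ▸ (L F a b 19).neg_mem (q21_15 h a b)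
  · exact (h.ac (w15 a b) (w22 a b)).symm ▸ (L F a b 20).neg_mem (q22_15 h a b)
  · exact (h.ac (w15 a b) (w23 a b)).symm ▸ (L F a b 20).neg_mem (q23_15 h a b)
  · exact (h.ac (w15 a b) (w24 a b)).symm ▸ (L F a b 20).neg_mem (q24_15 h a b)
  · exact (h.ac (w15 a b) (w25 a b)).symm ▸ (L F a b 20).neg_mem (q25_15 h a b)
  · exact (h.ac (w15 a b) (w26 a b)).symm ▸ (L F a b 20).neg_mem (q26_15 h a b)
  · exact (h.ac (w15 a b) (w27 a b)).symm ▸ (L F a b 20).neg_mem (q27_15 h a b)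
  · exact (h.ac (w15 a b) (w28 a b)).symm ▸ (L F a b 21).neg_mem (q28_15 h a b)
  · exact (h.ac (w15 a b) (w29 a b)).symm ▸ (L F a b 21).neg_mem (q29_15 h a b)
  · exact (h.ac (w15 a b) (w30 a b)).symm ▸ (L F a b 21).neg_mem (q30_15 h a b)
  · exact (h.ac (w15 a b) (w31 a b)).symm ▸ (L F a b 21).neg_mem (q31_15 h a b)
  · exact (h.ac (w15 a b) (w32 a b)).symm ▸ (L F a b 21).neg_mem (q32_15 h a b)
  · exact (h.ac (w15 a b) (w33 a b)).symm ▸ (L F a b 21).neg_mem (q33_15 h a b)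
  · exact (h.ac (w15 a b) (w34 a b)).symm ▸ (L F a b 22).neg_mem (q34_15 h a b)
  · exact (h.ac (w15 a b) (w35 a b)).symm ▸ (L F a b 22).neg_mem (q35_15 h a b)
  · exact (h.ac (w15 a b) (w36 a b)).symm ▸ (L F a b 22).neg_mem (q36_15 h a b)
  · exact (h.ac (w15 a b) (w37 a b)).symm ▸ (L F a b 22).neg_mem (q37_15 h a b)
  · exact (h.ac (w15 a b) (w38 a b)).symm ▸ (L F a b 23).neg_mem (q38_15 h a b)
  · exact (h.ac (w15 a b) (w39 a b)).symm ▸ (L F a b 23).neg_mem (q39_15 h a b)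
  · exact (h.ac (w15 a b) (w40 a b)).symm ▸ (L F a b 23).neg_mem (q40_15 h a b)
theorem row16 (h : Eng A) (a b : A) (j : ℕ) (hj : j < 41) : w16 a b * wv a b j ∈ L F a b (9 + dg j) := by
  interval_cases j
  · exact q16_0 h a b
  · exact q16_1 h a b
  · exact q16_2 h a b
  · exact q16_3 h a b
  · exact q16_4 h a b
  · exact q16_5 h a b
  · exact q16_6 h a b
  · exact q16_7 h a b
  · exact q16_8 h a b
  · exact q16_9 h a b
  · exact q16_10 h a b
  · exact q16_11 h a b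
  · exact q16_12 h a b
  · exact q16_13 h a b
  · exact q16_14 h a b
  · exact q16_15 h a b
  · exact (h.sq (w16 a b)).symm ▸ (L F a b 18).zero_mem
  · exact (h.ac (w16 a b) (w17 a b)).symm ▸ (L F a b 19).neg_mem (q17_16 h a b)
  · exact (h.ac (w16 a b) (w18 a b)).symm ▸ (L F a b 19).neg_mem (q18_16 h a b)
  · exact (h.ac (w16 a b) (w19 a b)).symm ▸ (L F a b 19).neg_mem (q19_16 h a b)
  · exact (h.ac (w16 a b) (w20 a b)).symm ▸ (L F a b 19).neg_mem (q20_16 h a b)
  · exact (h.ac (w16 a b) (w21 a b)).symm ▸ (L F a b 19).neg_mem (q21_16 h a b)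
  · exact (h.ac (w16 a b) (w22 a b)).symm ▸ (L F a b 20).neg_mem (q22_16 h a b)
  · exact (h.ac (w16 a b) (w23 a b)).symm ▸ (L F a b 20).neg_mem (q23_16 h a b)
  · exact (h.ac (w16 a b) (w24 a b)).symm ▸ (L F a b 20).neg_mem (q24_16 h a b)
  · exact (h.ac (w16 a b) (w25 a b)).symm ▸ (L F a b 20).neg_mem (q25_16 h a b)
  · exact (h.ac (w16 a b) (w26 a b)).symm ▸ (L F a b 20).neg_mem (q26_16 h a b)
  · exact (h.ac (w16 a b) (w27 a b)).symm ▸ (L F a b 20).neg_mem (q27_16 h a b)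
  · exact (h.ac (w16 a b) (w28 a b)).symm ▸ (L F a b 21).neg_mem (q28_16 h a b)
  · exact (h.ac (w16 a b) (w29 a b)).symm ▸ (L F a b 21).neg_mem (q29_16 h a b)
  · exact (h.ac (w16 a b) (w30 a b)).symm ▸ (L F a b 21).neg_mem (q30_16 h a b)
  · exact (h.ac (w16 a b) (w31 a b)).symm ▸ (L F a b 21).neg_mem (q31_16 h a b)
  · exact (h.ac (w16 a b) (w32 a b)).symm ▸ (L F a b 21).neg_mem (q32_16 h a b)
  · exact (h.ac (w16 a b) (w33 a b)).symm ▸ (L F a b 21).neg_mem (q33_16 h a b)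
  · exact (h.ac (w16 a b) (w34 a b)).symm ▸ (L F a b 22).neg_mem (q34_16 h a b)
  · exact (h.ac (w16 a b) (w35 a b)).symm ▸ (L F a b 22).neg_mem (q35_16 h a b)
  · exact (h.ac (w16 a b) (w36 a b)).symm ▸ (L F a b 22).neg_mem (q36_16 h a b)
  · exact (h.ac (w16 a b) (w37 a b)).symm ▸ (L F a b 22).neg_mem (q37_16 h a b)
  · exact (h.ac (w16 a b) (w38 a b)).symm ▸ (L F a b 23).neg_mem (q38_16 h a b)
  · exact (h.ac (w16 a b) (w39 a b)).symm ▸ (L F a b 23).neg_mem (q39_16 h a b)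
  · exact (h.ac (w16 a b) (w40 a b)).symm ▸ (L F a b 23).neg_mem (q40_16 h a b)
theorem row17 (h : Eng A) (a b : A) (j : ℕ) (hj : j < 41) : w17 a b * wv a b j ∈ L F a b (10 + dg j) := by
  interval_cases j
  · exact q17_0 h a b
  · exact q17_1 h a b
  · exact q17_2 h a b
  · exact q17_3 h a b
  · exact q17_4 h a b
  · exact q17_5 h a b
  · exact q17_6 h a b
  · exact q17_7 h a b
  · exact q17_8 h a b
  · exact q17_9 h a b
  · exact q17_10 h a b
  · exact q17_11 h a b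
  · exact q17_12 h a b
  · exact q17_13 h a b
  · exact q17_14 h a b
  · exact q17_15 h a b
  · exact q17_16 h a b
  · exact (h.sq (w17 a b)).symm ▸ (L F a b 20).zero_mem
  · exact (h.ac (w17 a b) (w18 a b)).symm ▸ (L F a b 20).neg_mem (q18_17 h a b)
  · exact (h.ac (w17 a b) (w19 a b)).symm ▸ (L F a b 20).neg_mem (q19_17 h a b)
  · exact (h.ac (w17 a b) (w20 a b)).symm ▸ (L F a b 20).neg_mem (q20_17 h a b)
  · exact (h.ac (w17 a b) (w21 a b)).symm ▸ (L F a b 20).neg_mem (q21_17 h a b)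
  · exact (h.ac (w17 a b) (w22 a b)).symm ▸ (L F a b 21).neg_mem (q22_17 h a b)
  · exact (h.ac (w17 a b) (w23 a b)).symm ▸ (L F a b 21).neg_mem (q23_17 h a b)
  · exact (h.ac (w17 a b) (w24 a b)).symm ▸ (L F a b 21).neg_mem (q24_17 h a b)
  · exact (h.ac (w17 a b) (w25 a b)).symm ▸ (L F a b 21).neg_mem (q25_17 h a b)
  · exact (h.ac (w17 a b) (w26 a b)).symm ▸ (L F a b 21).neg_mem (q26_17 h a b)
  · exact (h.ac (w17 a b) (w27 a b)).symm ▸ (L F a b 21).neg_mem (q27_17 h a b)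
  · exact (h.ac (w17 a b) (w28 a b)).symm ▸ (L F a b 22).neg_mem (q28_17 h a b)
  · exact (h.ac (w17 a b) (w29 a b)).symm ▸ (L F a b 22).neg_mem (q29_17 h a b)
  · exact (h.ac (w17 a b) (w30 a b)).symm ▸ (L F a b 22).neg_mem (q30_17 h a b)
  · exact (h.ac (w17 a b) (w31 a b)).symm ▸ (L F a b 22).neg_mem (q31_17 h a b)
  · exact (h.ac (w17 a b) (w32 a b)).symm ▸ (L F a b 22).neg_mem (q32_17 h a b)
  · exact (h.ac (w17 a b) (w33 a b)).symm ▸ (L F a b 22).neg_mem (q33_17 h a b)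
  · exact (h.ac (w17 a b) (w34 a b)).symm ▸ (L F a b 23).neg_mem (q34_17 h a b)
  · exact (h.ac (w17 a b) (w35 a b)).symm ▸ (L F a b 23).neg_mem (q35_17 h a b)
  · exact (h.ac (w17 a b) (w36 a b)).symm ▸ (L F a b 23).neg_mem (q36_17 h a b)
  · exact (h.ac (w17 a b) (w37 a b)).symm ▸ (L F a b 23).neg_mem (q37_17 h a b)
  · exact (h.ac (w17 a b) (w38 a b)).symm ▸ (L F a b 24).neg_mem (q38_17 h a b)
  · exact (h.ac (w17 a b) (w39 a b)).symm ▸ (L F a b 24).neg_mem (q39_17 h a b)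
  · exact (h.ac (w17 a b) (w40 a b)).symm ▸ (L F a b 24).neg_mem (q40_17 h a b)
theorem row18 (h : Eng A) (a b : A) (j : ℕ) (hj : j < 41) : w18 a b * wv a b j ∈ L F a b (10 + dg j) := by
  interval_cases j
  · exact q18_0 h a b
  · exact q18_1 h a b
  · exact q18_2 h a b
  · exact q18_3 h a b
  · exact q18_4 h a b
  · exact q18_5 h a b
  · exact q18_6 h a b
  · exact q18_7 h a b
  · exact q18_8 h a b
  · exact q18_9 h a b
  · exact q18_10 h a b
  · exact q18_11 h a b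
  · exact q18_12 h a b
  · exact q18_13 h a b
  · exact q18_14 h a b
  · exact q18_15 h a b
  · exact q18_16 h a b
  · exact q18_17 h a b
  · exact (h.sq (w18 a b)).symm ▸ (L F a b 20).zero_mem
  · exact (h.ac (w18 a b) (w19 a b)).symm ▸ (L F a b 20).neg_mem (q19_18 h a b)
  · exact (h.ac (w18 a b) (w20 a b)).symm ▸ (L F a b 20).neg_mem (q20_18 h a b)
  · exact (h.ac (w18 a b) (w21 a b)).symm ▸ (L F a b 20).neg_mem (q21_18 h a b)
  · exact (h.ac (w18 a b) (w22 a b)).symm ▸ (L F a b 21).neg_mem (q22_18 h a b)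
  · exact (h.ac (w18 a b) (w23 a b)).symm ▸ (L F a b 21).neg_mem (q23_18 h a b)
  · exact (h.ac (w18 a b) (w24 a b)).symm ▸ (L F a b 21).neg_mem (q24_18 h a b)
  · exact (h.ac (w18 a b) (w25 a b)).symm ▸ (L F a b 21).neg_mem (q25_18 h a b)
  · exact (h.ac (w18 a b) (w26 a b)).symm ▸ (L F a b 21).neg_mem (q26_18 h a b)
  · exact (h.ac (w18 a b) (w27 a b)).symm ▸ (L F a b 21).neg_mem (q27_18 h a b)
  · exact (h.ac (w18 a b) (w28 a b)).symm ▸ (L F a b 22).neg_mem (q28_18 h a b)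
  · exact (h.ac (w18 a b) (w29 a b)).symm ▸ (L F a b 22).neg_mem (q29_18 h a b)
  · exact (h.ac (w18 a b) (w30 a b)).symm ▸ (L F a b 22).neg_mem (q30_18 h a b)
  · exact (h.ac (w18 a b) (w31 a b)).symm ▸ (L F a b 22).neg_mem (q31_18 h a b)
  · exact (h.ac (w18 a b) (w32 a b)).symm ▸ (L F a b 22).neg_mem (q32_18 h a b)
  · exact (h.ac (w18 a b) (w33 a b)).symm ▸ (L F a b 22).neg_mem (q33_18 h a b)
  · exact (h.ac (w18 a b) (w34 a b)).symm ▸ (L F a b 23).neg_mem (q34_18 h a b)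
  · exact (h.ac (w18 a b) (w35 a b)).symm ▸ (L F a b 23).neg_mem (q35_18 h a b)
  · exact (h.ac (w18 a b) (w36 a b)).symm ▸ (L F a b 23).neg_mem (q36_18 h a b)
  · exact (h.ac (w18 a b) (w37 a b)).symm ▸ (L F a b 23).neg_mem (q37_18 h a b)
  · exact (h.ac (w18 a b) (w38 a b)).symm ▸ (L F a b 24).neg_mem (q38_18 h a b)
  · exact (h.ac (w18 a b) (w39 a b)).symm ▸ (L F a b 24).neg_mem (q39_18 h a b)
  · exact (h.ac (w18 a b) (w40 a b)).symm ▸ (L F a b 24).neg_mem (q40_18 h a b)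
theorem row19 (h : Eng A) (a b : A) (j : ℕ) (hj : j < 41) : w19 a b * wv a b j ∈ L F a b (10 + dg j) := by
  interval_cases j
  · exact q19_0 h a b
  · exact q19_1 h a b
  · exact q19_2 h a b
  · exact q19_3 h a b
  · exact q19_4 h a b
  · exact q19_5 h a b
  · exact q19_6 h a b
  · exact q19_7 h a b
  · exact q19_8 h a b
  · exact q19_9 h a b
  · exact q19_10 h a b
  · exact q19_11 h a b
  · exact q19_12 h a b
  · exact q19_13 h a b
  · exact q19_14 h a b
  · exact q19_15 h a b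
  · exact q19_16 h a b
  · exact q19_17 h a b
  · exact q19_18 h a b
  · exact (h.sq (w19 a b)).symm ▸ (L F a b 20).zero_mem
  · exact (h.ac (w19 a b) (w20 a b)).symm ▸ (L F a b 20).neg_mem (q20_19 h a b)
  · exact (h.ac (w19 a b) (w21 a b)).symm ▸ (L F a b 20).neg_mem (q21_19 h a b)
  · exact (h.ac (w19 a b) (w22 a b)).symm ▸ (L F a b 21).neg_mem (q22_19 h a b)
  · exact (h.ac (w19 a b) (w23 a b)).symm ▸ (L F a b 21).neg_mem (q23_19 h a b)
  · exact (h.ac (w19 a b) (w24 a b)).symm ▸ (L F a b 21).neg_mem (q24_19 h a b)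
  · exact (h.ac (w19 a b) (w25 a b)).symm ▸ (L F a b 21).neg_mem (q25_19 h a b)
  · exact (h.ac (w19 a b) (w26 a b)).symm ▸ (L F a b 21).neg_mem (q26_19 h a b)
  · exact (h.ac (w19 a b) (w27 a b)).symm ▸ (L F a b 21).neg_mem (q27_19 h a b)
  · exact (h.ac (w19 a b) (w28 a b)).symm ▸ (L F a b 22).neg_mem (q28_19 h a b)
  · exact (h.ac (w19 a b) (w29 a b)).symm ▸ (L F a b 22).neg_mem (q29_19 h a b)
  · exact (h.ac (w19 a b) (w30 a b)).symm ▸ (L F a b 22).neg_mem (q30_19 h a b)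
  · exact (h.ac (w19 a b) (w31 a b)).symm ▸ (L F a b 22).neg_mem (q31_19 h a b)
  · exact (h.ac (w19 a b) (w32 a b)).symm ▸ (L F a b 22).neg_mem (q32_19 h a b)
  · exact (h.ac (w19 a b) (w33 a b)).symm ▸ (L F a b 22).neg_mem (q33_19 h a b)
  · exact (h.ac (w19 a b) (w34 a b)).symm ▸ (L F a b 23).neg_mem (q34_19 h a b)
  · exact (h.ac (w19 a b) (w35 a b)).symm ▸ (L F a b 23).neg_mem (q35_19 h a b)
  · exact (h.ac (w19 a b) (w36 a b)).symm ▸ (L F a b 23).neg_mem (q36_19 h a b)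
  · exact (h.ac (w19 a b) (w37 a b)).symm ▸ (L F a b 23).neg_mem (q37_19 h a b)
  · exact (h.ac (w19 a b) (w38 a b)).symm ▸ (L F a b 24).neg_mem (q38_19 h a b)
  · exact (h.ac (w19 a b) (w39 a b)).symm ▸ (L F a b 24).neg_mem (q39_19 h a b)
  · exact (h.ac (w19 a b) (w40 a b)).symm ▸ (L F a b 24).neg_mem (q40_19 h a b)
theorem row20 (h : Eng A) (a b : A) (j : ℕ) (hj : j < 41) : w20 a b * wv a b j ∈ L F a b (10 + dg j) := by
  interval_cases j
  · exact q20_0 h a b
  · exact q20_1 h a b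
  · exact q20_2 h a b
  · exact q20_3 h a b
  · exact q20_4 h a b
  · exact q20_5 h a b
  · exact q20_6 h a b
  · exact q20_7 h a b
  · exact q20_8 h a b
  · exact q20_9 h a b
  · exact q20_10 h a b
  · exact q20_11 h a b
  · exact q20_12 h a b
  · exact q20_13 h a b
  · exact q20_14 h a b
  · exact q20_15 h a b
  · exact q20_16 h a b
  · exact q20_17 h a b
  · exact q20_18 h a b
  · exact q20_19 h a b
  · exact (h.sq (w20 a b)).symm ▸ (L F a b 20).zero_mem
  · exact (h.ac (w20 a b) (w21 a b)).symm ▸ (L F a b 20).neg_mem (q21_20 h a b)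
  · exact (h.ac (w20 a b) (w22 a b)).symm ▸ (L F a b 21).neg_mem (q22_20 h a b)
  · exact (h.ac (w20 a b) (w23 a b)).symm ▸ (L F a b 21).neg_mem (q23_20 h a b)
  · exact (h.ac (w20 a b) (w24 a b)).symm ▸ (L F a b 21).neg_mem (q24_20 h a b)
  · exact (h.ac (w20 a b) (w25 a b)).symm ▸ (L F a b 21).neg_mem (q25_20 h a b)
  · exact (h.ac (w20 a b) (w26 a b)).symm ▸ (L F a b 21).neg_mem (q26_20 h a b)
  · exact (h.ac (w20 a b) (w27 a b)).symm ▸ (L F a b 21).neg_mem (q27_20 h a b)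
  · exact (h.ac (w20 a b) (w28 a b)).symm ▸ (L F a b 22).neg_mem (q28_20 h a b)
  · exact (h.ac (w20 a b) (w29 a b)).symm ▸ (L F a b 22).neg_mem (q29_20 h a b)
  · exact (h.ac (w20 a b) (w30 a b)).symm ▸ (L F a b 22).neg_mem (q30_20 h a b)
  · exact (h.ac (w20 a b) (w31 a b)).symm ▸ (L F a b 22).neg_mem (q31_20 h a b)
  · exact (h.ac (w20 a b) (w32 a b)).symm ▸ (L F a b 22).neg_mem (q32_20 h a b)
  · exact (h.ac (w20 a b) (w33 a b)).symm ▸ (L F a b 22).neg_mem (q33_20 h a b)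
  · exact (h.ac (w20 a b) (w34 a b)).symm ▸ (L F a b 23).neg_mem (q34_20 h a b)
  · exact (h.ac (w20 a b) (w35 a b)).symm ▸ (L F a b 23).neg_mem (q35_20 h a b)
  · exact (h.ac (w20 a b) (w36 a b)).symm ▸ (L F a b 23).neg_mem (q36_20 h a b)
  · exact (h.ac (w20 a b) (w37 a b)).symm ▸ (L F a b 23).neg_mem (q37_20 h a b)
  · exact (h.ac (w20 a b) (w38 a b)).symm ▸ (L F a b 24).neg_mem (q38_20 h a b)
  · exact (h.ac (w20 a b) (w39 a b)).symm ▸ (L F a b 24).neg_mem (q39_20 h a b)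
  · exact (h.ac (w20 a b) (w40 a b)).symm ▸ (L F a b 24).neg_mem (q40_20 h a b)
theorem row21 (h : Eng A) (a b : A) (j : ℕ) (hj : j < 41) : w21 a b * wv a b j ∈ L F a b (10 + dg j) := by
  interval_cases j
  · exact q21_0 h a b
  · exact q21_1 h a b
  · exact q21_2 h a b
  · exact q21_3 h a b
  · exact q21_4 h a b
  · exact q21_5 h a b
  · exact q21_6 h a b
  · exact q21_7 h a b
  · exact q21_8 h a b
  · exact q21_9 h a b
  · exact q21_10 h a b
  · exact q21_11 h a b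
  · exact q21_12 h a b
  · exact q21_13 h a b
  · exact q21_14 h a b
  · exact q21_15 h a b
  · exact q21_16 h a b
  · exact q21_17 h a b
  · exact q21_18 h a b
  · exact q21_19 h a b
  · exact q21_20 h a b
  · exact (h.sq (w21 a b)).symm ▸ (L F a b 20).zero_mem
  · exact (h.ac (w21 a b) (w22 a b)).symm ▸ (L F a b 21).neg_mem (q22_21 h a b)
  · exact (h.ac (w21 a b) (w23 a b)).symm ▸ (L F a b 21).neg_mem (q23_21 h a b)
  · exact (h.ac (w21 a b) (w24 a b)).symm ▸ (L F a b 21).neg_mem (q24_21 h a b)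
  · exact (h.ac (w21 a b) (w25 a b)).symm ▸ (L F a b 21).neg_mem (q25_21 h a b)
  · exact (h.ac (w21 a b) (w26 a b)).symm ▸ (L F a b 21).neg_mem (q26_21 h a b)
  · exact (h.ac (w21 a b) (w27 a b)).symm ▸ (L F a b 21).neg_mem (q27_21 h a b)
  · exact (h.ac (w21 a b) (w28 a b)).symm ▸ (L F a b 22).neg_mem (q28_21 h a b)
  · exact (h.ac (w21 a b) (w29 a b)).symm ▸ (L F a b 22).neg_mem (q29_21 h a b)
  · exact (h.ac (w21 a b) (w30 a b)).symm ▸ (L F a b 22).neg_mem (q30_21 h a b)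
  · exact (h.ac (w21 a b) (w31 a b)).symm ▸ (L F a b 22).neg_mem (q31_21 h a b)
  · exact (h.ac (w21 a b) (w32 a b)).symm ▸ (L F a b 22).neg_mem (q32_21 h a b)
  · exact (h.ac (w21 a b) (w33 a b)).symm ▸ (L F a b 22).neg_mem (q33_21 h a b)
  · exact (h.ac (w21 a b) (w34 a b)).symm ▸ (L F a b 23).neg_mem (q34_21 h a b)
  · exact (h.ac (w21 a b) (w35 a b)).symm ▸ (L F a b 23).neg_mem (q35_21 h a b)
  · exact (h.ac (w21 a b) (w36 a b)).symm ▸ (L F a b 23).neg_mem (q36_21 h a b)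
  · exact (h.ac (w21 a b) (w37 a b)).symm ▸ (L F a b 23).neg_mem (q37_21 h a b)
  · exact (h.ac (w21 a b) (w38 a b)).symm ▸ (L F a b 24).neg_mem (q38_21 h a b)
  · exact (h.ac (w21 a b) (w39 a b)).symm ▸ (L F a b 24).neg_mem (q39_21 h a b)
  · exact (h.ac (w21 a b) (w40 a b)).symm ▸ (L F a b 24).neg_mem (q40_21 h a b)
theorem row22 (h : Eng A) (a b : A) (j : ℕ) (hj : j < 41) : w22 a b * wv a b j ∈ L F a b (11 + dg j) := by
  interval_cases j
  · exact q22_0 h a b
  · exact q22_1 h a b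
  · exact q22_2 h a b
  · exact q22_3 h a b
  · exact q22_4 h a b
  · exact q22_5 h a b
  · exact q22_6 h a b
  · exact q22_7 h a b
  · exact q22_8 h a b
  · exact q22_9 h a b
  · exact q22_10 h a b
  · exact q22_11 h a b
  · exact q22_12 h a b
  · exact q22_13 h a b
  · exact q22_14 h a b
  · exact q22_15 h a b
  · exact q22_16 h a b
  · exact q22_17 h a b
  · exact q22_18 h a b
  · exact q22_19 h a b
  · exact q22_20 h a b
  · exact q22_21 h a b
  · exact (h.sq (w22 a b)).symm ▸ (L F a b 22).zero_mem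
  · exact (h.ac (w22 a b) (w23 a b)).symm ▸ (L F a b 22).neg_mem (q23_22 h a b)
  · exact (h.ac (w22 a b) (w24 a b)).symm ▸ (L F a b 22).neg_mem (q24_22 h a b)
  · exact (h.ac (w22 a b) (w25 a b)).symm ▸ (L F a b 22).neg_mem (q25_22 h a b)
  · exact (h.ac (w22 a b) (w26 a b)).symm ▸ (L F a b 22).neg_mem (q26_22 h a b)
  · exact (h.ac (w22 a b) (w27 a b)).symm ▸ (L F a b 22).neg_mem (q27_22 h a b)
  · exact (h.ac (w22 a b) (w28 a b)).symm ▸ (L F a b 23).neg_mem (q28_22 h a b)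
  · exact (h.ac (w22 a b) (w29 a b)).symm ▸ (L F a b 23).neg_mem (q29_22 h a b)
  · exact (h.ac (w22 a b) (w30 a b)).symm ▸ (L F a b 23).neg_mem (q30_22 h a b)
  · exact (h.ac (w22 a b) (w31 a b)).symm ▸ (L F a b 23).neg_mem (q31_22 h a b)
  · exact (h.ac (w22 a b) (w32 a b)).symm ▸ (L F a b 23).neg_mem (q32_22 h a b)
  · exact (h.ac (w22 a b) (w33 a b)).symm ▸ (L F a b 23).neg_mem (q33_22 h a b)
  · exact (h.ac (w22 a b) (w34 a b)).symm ▸ (L F a b 24).neg_mem (q34_22 h a b)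
  · exact (h.ac (w22 a b) (w35 a b)).symm ▸ (L F a b 24).neg_mem (q35_22 h a b)
  · exact (h.ac (w22 a b) (w36 a b)).symm ▸ (L F a b 24).neg_mem (q36_22 h a b)
  · exact (h.ac (w22 a b) (w37 a b)).symm ▸ (L F a b 24).neg_mem (q37_22 h a b)
  · exact (h.ac (w22 a b) (w38 a b)).symm ▸ (L F a b 25).neg_mem (q38_22 h a b)
  · exact (h.ac (w22 a b) (w39 a b)).symm ▸ (L F a b 25).neg_mem (q39_22 h a b)
  · exact (h.ac (w22 a b) (w40 a b)).symm ▸ (L F a b 25).neg_mem (q40_22 h a b)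
theorem row23 (h : Eng A) (a b : A) (j : ℕ) (hj : j < 41) : w23 a b * wv a b j ∈ L F a b (11 + dg j) := by
  interval_cases j
  · exact q23_0 h a b
  · exact q23_1 h a b
  · exact q23_2 h a b
  · exact q23_3 h a b
  · exact q23_4 h a b
  · exact q23_5 h a b
  · exact q23_6 h a b
  · exact q23_7 h a b
  · exact q23_8 h a b
  · exact q23_9 h a b
  · exact q23_10 h a b
  · exact q23_11 h a b
  · exact q23_12 h a b
  · exact q23_13 h a b
  · exact q23_14 h a b
  · exact q23_15 h a b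
  · exact q23_16 h a b
  · exact q23_17 h a b
  · exact q23_18 h a b
  · exact q23_19 h a b
  · exact q23_20 h a b
  · exact q23_21 h a b
  · exact q23_22 h a b
  · exact (h.sq (w23 a b)).symm ▸ (L F a b 22).zero_mem
  · exact (h.ac (w23 a b) (w24 a b)).symm ▸ (L F a b 22).neg_mem (q24_23 h a b)
  · exact (h.ac (w23 a b) (w25 a b)).symm ▸ (L F a b 22).neg_mem (q25_23 h a b)
  · exact (h.ac (w23 a b) (w26 a b)).symm ▸ (L F a b 22).neg_mem (q26_23 h a b)
  · exact (h.ac (w23 a b) (w27 a b)).symm ▸ (L F a b 22).neg_mem (q27_23 h a b)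
  · exact (h.ac (w23 a b) (w28 a b)).symm ▸ (L F a b 23).neg_mem (q28_23 h a b)
  · exact (h.ac (w23 a b) (w29 a b)).symm ▸ (L F a b 23).neg_mem (q29_23 h a b)
  · exact (h.ac (w23 a b) (w30 a b)).symm ▸ (L F a b 23).neg_mem (q30_23 h a b)
  · exact (h.ac (w23 a b) (w31 a b)).symm ▸ (L F a b 23).neg_mem (q31_23 h a b)
  · exact (h.ac (w23 a b) (w32 a b)).symm ▸ (L F a b 23).neg_mem (q32_23 h a b)
  · exact (h.ac (w23 a b) (w33 a b)).symm ▸ (L F a b 23).neg_mem (q33_23 h a b)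
  · exact (h.ac (w23 a b) (w34 a b)).symm ▸ (L F a b 24).neg_mem (q34_23 h a b)
  · exact (h.ac (w23 a b) (w35 a b)).symm ▸ (L F a b 24).neg_mem (q35_23 h a b)
  · exact (h.ac (w23 a b) (w36 a b)).symm ▸ (L F a b 24).neg_mem (q36_23 h a b)
  · exact (h.ac (w23 a b) (w37 a b)).symm ▸ (L F a b 24).neg_mem (q37_23 h a b)
  · exact (h.ac (w23 a b) (w38 a b)).symm ▸ (L F a b 25).neg_mem (q38_23 h a b)
  · exact (h.ac (w23 a b) (w39 a b)).symm ▸ (L F a b 25).neg_mem (q39_23 h a b)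
  · exact (h.ac (w23 a b) (w40 a b)).symm ▸ (L F a b 25).neg_mem (q40_23 h a b)
theorem row24 (h : Eng A) (a b : A) (j : ℕ) (hj : j < 41) : w24 a b * wv a b j ∈ L F a b (11 + dg j) := by
  interval_cases j
  · exact q24_0 h a b
  · exact q24_1 h a b
  · exact q24_2 h a b
  · exact q24_3 h a b
  · exact q24_4 h a b
  · exact q24_5 h a b
  · exact q24_6 h a b
  · exact q24_7 h a b
  · exact q24_8 h a b
  · exact q24_9 h a b
  · exact q24_10 h a b
  · exact q24_11 h a b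
  · exact q24_12 h a b
  · exact q24_13 h a b
  · exact q24_14 h a b
  · exact q24_15 h a b
  · exact q24_16 h a b
  · exact q24_17 h a b
  · exact q24_18 h a b
  · exact q24_19 h a b
  · exact q24_20 h a b
  · exact q24_21 h a b
  · exact q24_22 h a b
  · exact q24_23 h a b
  · exact (h.sq (w24 a b)).symm ▸ (L F a b 22).zero_mem
  · exact (h.ac (w24 a b) (w25 a b)).symm ▸ (L F a b 22).neg_mem (q25_24 h a b)
  · exact (h.ac (w24 a b) (w26 a b)).symm ▸ (L F a b 22).neg_mem (q26_24 h a b)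
  · exact (h.ac (w24 a b) (w27 a b)).symm ▸ (L F a b 22).neg_mem (q27_24 h a b)
  · exact (h.ac (w24 a b) (w28 a b)).symm ▸ (L F a b 23).neg_mem (q28_24 h a b)
  · exact (h.ac (w24 a b) (w29 a b)).symm ▸ (L F a b 23).neg_mem (q29_24 h a b)
  · exact (h.ac (w24 a b) (w30 a b)).symm ▸ (L F a b 23).neg_mem (q30_24 h a b)
  · exact (h.ac (w24 a b) (w31 a b)).symm ▸ (L F a b 23).neg_mem (q31_24 h a b)
  · exact (h.ac (w24 a b) (w32 a b)).symm ▸ (L F a b 23).neg_mem (q32_24 h a b)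
  · exact (h.ac (w24 a b) (w33 a b)).symm ▸ (L F a b 23).neg_mem (q33_24 h a b)
  · exact (h.ac (w24 a b) (w34 a b)).symm ▸ (L F a b 24).neg_mem (q34_24 h a b)
  · exact (h.ac (w24 a b) (w35 a b)).symm ▸ (L F a b 24).neg_mem (q35_24 h a b)
  · exact (h.ac (w24 a b) (w36 a b)).symm ▸ (L F a b 24).neg_mem (q36_24 h a b)
  · exact (h.ac (w24 a b) (w37 a b)).symm ▸ (L F a b 24).neg_mem (q37_24 h a b)
  · exact (h.ac (w24 a b) (w38 a b)).symm ▸ (L F a b 25).neg_mem (q38_24 h a b)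
  · exact (h.ac (w24 a b) (w39 a b)).symm ▸ (L F a b 25).neg_mem (q39_24 h a b)
  · exact (h.ac (w24 a b) (w40 a b)).symm ▸ (L F a b 25).neg_mem (q40_24 h a b)
theorem row25 (h : Eng A) (a b : A) (j : ℕ) (hj : j < 41) : w25 a b * wv a b j ∈ L F a b (11 + dg j) := by
  interval_cases j
  · exact q25_0 h a b
  · exact q25_1 h a b
  · exact q25_2 h a b
  · exact q25_3 h a b
  · exact q25_4 h a b
  · exact q25_5 h a b
  · exact q25_6 h a b
  · exact q25_7 h a b
  · exact q25_8 h a b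
  · exact q25_9 h a b
  · exact q25_10 h a b
  · exact q25_11 h a b
  · exact q25_12 h a b
  · exact q25_13 h a b
  · exact q25_14 h a b
  · exact q25_15 h a b
  · exact q25_16 h a b
  · exact q25_17 h a b
  · exact q25_18 h a b
  · exact q25_19 h a b
  · exact q25_20 h a b
  · exact q25_21 h a b
  · exact q25_22 h a b
  · exact q25_23 h a b
  · exact q25_24 h a b
  · exact (h.sq (w25 a b)).symm ▸ (L F a b 22).zero_mem
  · exact (h.ac (w25 a b) (w26 a b)).symm ▸ (L F a b 22).neg_mem (q26_25 h a b)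
  · exact (h.ac (w25 a b) (w27 a b)).symm ▸ (L F a b 22).neg_mem (q27_25 h a b)
  · exact (h.ac (w25 a b) (w28 a b)).symm ▸ (L F a b 23).neg_mem (q28_25 h a b)
  · exact (h.ac (w25 a b) (w29 a b)).symm ▸ (L F a b 23).neg_mem (q29_25 h a b)
  · exact (h.ac (w25 a b) (w30 a b)).symm ▸ (L F a b 23).neg_mem (q30_25 h a b)
  · exact (h.ac (w25 a b) (w31 a b)).symm ▸ (L F a b 23).neg_mem (q31_25 h a b)
  · exact (h.ac (w25 a b) (w32 a b)).symm ▸ (L F a b 23).neg_mem (q32_25 h a b)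
  · exact (h.ac (w25 a b) (w33 a b)).symm ▸ (L F a b 23).neg_mem (q33_25 h a b)
  · exact (h.ac (w25 a b) (w34 a b)).symm ▸ (L F a b 24).neg_mem (q34_25 h a b)
  · exact (h.ac (w25 a b) (w35 a b)).symm ▸ (L F a b 24).neg_mem (q35_25 h a b)
  · exact (h.ac (w25 a b) (w36 a b)).symm ▸ (L F a b 24).neg_mem (q36_25 h a b)
  · exact (h.ac (w25 a b) (w37 a b)).symm ▸ (L F a b 24).neg_mem (q37_25 h a b)
  · exact (h.ac (w25 a b) (w38 a b)).symm ▸ (L F a b 25).neg_mem (q38_25 h a b)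
  · exact (h.ac (w25 a b) (w39 a b)).symm ▸ (L F a b 25).neg_mem (q39_25 h a b)
  · exact (h.ac (w25 a b) (w40 a b)).symm ▸ (L F a b 25).neg_mem (q40_25 h a b)
theorem row26 (h : Eng A) (a b : A) (j : ℕ) (hj : j < 41) : w26 a b * wv a b j ∈ L F a b (11 + dg j) := by
  interval_cases j
  · exact q26_0 h a b
  · exact q26_1 h a b
  · exact q26_2 h a b
  · exact q26_3 h a b
  · exact q26_4 h a b
  · exact q26_5 h a b
  · exact q26_6 h a b
  · exact q26_7 h a b
  · exact q26_8 h a b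
  · exact q26_9 h a b
  · exact q26_10 h a b
  · exact q26_11 h a b
  · exact q26_12 h a b
  · exact q26_13 h a b
  · exact q26_14 h a b
  · exact q26_15 h a b
  · exact q26_16 h a b
  · exact q26_17 h a b
  · exact q26_18 h a b
  · exact q26_19 h a b
  · exact q26_20 h a b
  · exact q26_21 h a b
  · exact q26_22 h a b
  · exact q26_23 h a b
  · exact q26_24 h a b
  · exact q26_25 h a b
  · exact (h.sq (w26 a b)).symm ▸ (L F a b 22).zero_mem
  · exact (h.ac (w26 a b) (w27 a b)).symm ▸ (L F a b 22).neg_mem (q27_26 h a b)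
  · exact (h.ac (w26 a b) (w28 a b)).symm ▸ (L F a b 23).neg_mem (q28_26 h a b)
  · exact (h.ac (w26 a b) (w29 a b)).symm ▸ (L F a b 23).neg_mem (q29_26 h a b)
  · exact (h.ac (w26 a b) (w30 a b)).symm ▸ (L F a b 23).neg_mem (q30_26 h a b)
  · exact (h.ac (w26 a b) (w31 a b)).symm ▸ (L F a b 23).neg_mem (q31_26 h a b)
  · exact (h.ac (w26 a b) (w32 a b)).symm ▸ (L F a b 23).neg_mem (q32_26 h a b)
  · exact (h.ac (w26 a b) (w33 a b)).symm ▸ (L F a b 23).neg_mem (q33_26 h a b)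
  · exact (h.ac (w26 a b) (w34 a b)).symm ▸ (L F a b 24).neg_mem (q34_26 h a b)
  · exact (h.ac (w26 a b) (w35 a b)).symm ▸ (L F a b 24).neg_mem (q35_26 h a b)
  · exact (h.ac (w26 a b) (w36 a b)).symm ▸ (L F a b 24).neg_mem (q36_26 h a b)
  · exact (h.ac (w26 a b) (w37 a b)).symm ▸ (L F a b 24).neg_mem (q37_26 h a b)
  · exact (h.ac (w26 a b) (w38 a b)).symm ▸ (L F a b 25).neg_mem (q38_26 h a b)
  · exact (h.ac (w26 a b) (w39 a b)).symm ▸ (L F a b 25).neg_mem (q39_26 h a b)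
  · exact (h.ac (w26 a b) (w40 a b)).symm ▸ (L F a b 25).neg_mem (q40_26 h a b)
theorem row27 (h : Eng A) (a b : A) (j : ℕ) (hj : j < 41) : w27 a b * wv a b j ∈ L F a b (11 + dg j) := by
  interval_cases j
  · exact q27_0 h a b
  · exact q27_1 h a b
  · exact q27_2 h a b
  · exact q27_3 h a b
  · exact q27_4 h a b
  · exact q27_5 h a b
  · exact q27_6 h a b
  · exact q27_7 h a b
  · exact q27_8 h a b
  · exact q27_9 h a b
  · exact q27_10 h a b
  · exact q27_11 h a b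
  · exact q27_12 h a b
  · exact q27_13 h a b
  · exact q27_14 h a b
  · exact q27_15 h a b
  · exact q27_16 h a b
  · exact q27_17 h a b
  · exact q27_18 h a b
  · exact q27_19 h a b
  · exact q27_20 h a b
  · exact q27_21 h a b
  · exact q27_22 h a b
  · exact q27_23 h a b
  · exact q27_24 h a b
  · exact q27_25 h a b
  · exact q27_26 h a b
  · exact (h.sq (w27 a b)).symm ▸ (L F a b 22).zero_mem
  · exact (h.ac (w27 a b) (w28 a b)).symm ▸ (L F a b 23).neg_mem (q28_27 h a b)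
  · exact (h.ac (w27 a b) (w29 a b)).symm ▸ (L F a b 23).neg_mem (q29_27 h a b)
  · exact (h.ac (w27 a b) (w30 a b)).symm ▸ (L F a b 23).neg_mem (q30_27 h a b)
  · exact (h.ac (w27 a b) (w31 a b)).symm ▸ (L F a b 23).neg_mem (q31_27 h a b)
  · exact (h.ac (w27 a b) (w32 a b)).symm ▸ (L F a b 23).neg_mem (q32_27 h a b)
  · exact (h.ac (w27 a b) (w33 a b)).symm ▸ (L F a b 23).neg_mem (q33_27 h a b)
  · exact (h.ac (w27 a b) (w34 a b)).symm ▸ (L F a b 24).neg_mem (q34_27 h a b)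
  · exact (h.ac (w27 a b) (w35 a b)).symm ▸ (L F a b 24).neg_mem (q35_27 h a b)
  · exact (h.ac (w27 a b) (w36 a b)).symm ▸ (L F a b 24).neg_mem (q36_27 h a b)
  · exact (h.ac (w27 a b) (w37 a b)).symm ▸ (L F a b 24).neg_mem (q37_27 h a b)
  · exact (h.ac (w27 a b) (w38 a b)).symm ▸ (L F a b 25).neg_mem (q38_27 h a b)
  · exact (h.ac (w27 a b) (w39 a b)).symm ▸ (L F a b 25).neg_mem (q39_27 h a b)
  · exact (h.ac (w27 a b) (w40 a b)).symm ▸ (L F a b 25).neg_mem (q40_27 h a b)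
theorem row28 (h : Eng A) (a b : A) (j : ℕ) (hj : j < 41) : w28 a b * wv a b j ∈ L F a b (12 + dg j) := by
  interval_cases j
  · exact q28_0 h a b
  · exact q28_1 h a b
  · exact q28_2 h a b
  · exact q28_3 h a b
  · exact q28_4 h a b
  · exact q28_5 h a b
  · exact q28_6 h a b
  · exact q28_7 h a b
  · exact q28_8 h a b
  · exact q28_9 h a b
  · exact q28_10 h a b
  · exact q28_11 h a b
  · exact q28_12 h a b
  · exact q28_13 h a b
  · exact q28_14 h a b
  · exact q28_15 h a b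
  · exact q28_16 h a b
  · exact q28_17 h a b
  · exact q28_18 h a b
  · exact q28_19 h a b
  · exact q28_20 h a b
  · exact q28_21 h a b
  · exact q28_22 h a b
  · exact q28_23 h a b
  · exact q28_24 h a b
  · exact q28_25 h a b
  · exact q28_26 h a b
  · exact q28_27 h a b
  · exact (h.sq (w28 a b)).symm ▸ (L F a b 24).zero_mem
  · exact (h.ac (w28 a b) (w29 a b)).symm ▸ (L F a b 24).neg_mem (q29_28 h a b)
  · exact (h.ac (w28 a b) (w30 a b)).symm ▸ (L F a b 24).neg_mem (q30_28 h a b)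
  · exact (h.ac (w28 a b) (w31 a b)).symm ▸ (L F a b 24).neg_mem (q31_28 h a b)
  · exact (h.ac (w28 a b) (w32 a b)).symm ▸ (L F a b 24).neg_mem (q32_28 h a b)
  · exact (h.ac (w28 a b) (w33 a b)).symm ▸ (L F a b 24).neg_mem (q33_28 h a b)
  · exact (h.ac (w28 a b) (w34 a b)).symm ▸ (L F a b 25).neg_mem (q34_28 h a b)
  · exact (h.ac (w28 a b) (w35 a b)).symm ▸ (L F a b 25).neg_mem (q35_28 h a b)
  · exact (h.ac (w28 a b) (w36 a b)).symm ▸ (L F a b 25).neg_mem (q36_28 h a b)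
  · exact (h.ac (w28 a b) (w37 a b)).symm ▸ (L F a b 25).neg_mem (q37_28 h a b)
  · exact (h.ac (w28 a b) (w38 a b)).symm ▸ (L F a b 26).neg_mem (q38_28 h a b)
  · exact (h.ac (w28 a b) (w39 a b)).symm ▸ (L F a b 26).neg_mem (q39_28 h a b)
  · exact (h.ac (w28 a b) (w40 a b)).symm ▸ (L F a b 26).neg_mem (q40_28 h a b)
theorem row29 (h : Eng A) (a b : A) (j : ℕ) (hj : j < 41) : w29 a b * wv a b j ∈ L F a b (12 + dg j) := by
  interval_cases j
  · exact q29_0 h a b
  · exact q29_1 h a b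
  · exact q29_2 h a b
  · exact q29_3 h a b
  · exact q29_4 h a b
  · exact q29_5 h a b
  · exact q29_6 h a b
  · exact q29_7 h a b
  · exact q29_8 h a b
  · exact q29_9 h a b
  · exact q29_10 h a b
  · exact q29_11 h a b
  · exact q29_12 h a b
  · exact q29_13 h a b
  · exact q29_14 h a b
  · exact q29_15 h a b
  · exact q29_16 h a b
  · exact q29_17 h a b
  · exact q29_18 h a b
  · exact q29_19 h a b
  · exact q29_20 h a b
  · exact q29_21 h a b
  · exact q29_22 h a b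
  · exact q29_23 h a b
  · exact q29_24 h a b
  · exact q29_25 h a b
  · exact q29_26 h a b
  · exact q29_27 h a b
  · exact q29_28 h a b
  · exact (h.sq (w29 a b)).symm ▸ (L F a b 24).zero_mem
  · exact (h.ac (w29 a b) (w30 a b)).symm ▸ (L F a b 24).neg_mem (q30_29 h a b)
  · exact (h.ac (w29 a b) (w31 a b)).symm ▸ (L F a b 24).neg_mem (q31_29 h a b)
  · exact (h.ac (w29 a b) (w32 a b)).symm ▸ (L F a b 24).neg_mem (q32_29 h a b)
  · exact (h.ac (w29 a b) (w33 a b)).symm ▸ (L F a b 24).neg_mem (q33_29 h a b)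
  · exact (h.ac (w29 a b) (w34 a b)).symm ▸ (L F a b 25).neg_mem (q34_29 h a b)
  · exact (h.ac (w29 a b) (w35 a b)).symm ▸ (L F a b 25).neg_mem (q35_29 h a b)
  · exact (h.ac (w29 a b) (w36 a b)).symm ▸ (L F a b 25).neg_mem (q36_29 h a b)
  · exact (h.ac (w29 a b) (w37 a b)).symm ▸ (L F a b 25).neg_mem (q37_29 h a b)
  · exact (h.ac (w29 a b) (w38 a b)).symm ▸ (L F a b 26).neg_mem (q38_29 h a b)
  · exact (h.ac (w29 a b) (w39 a b)).symm ▸ (L F a b 26).neg_mem (q39_29 h a b)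
  · exact (h.ac (w29 a b) (w40 a b)).symm ▸ (L F a b 26).neg_mem (q40_29 h a b)
theorem row30 (h : Eng A) (a b : A) (j : ℕ) (hj : j < 41) : w30 a b * wv a b j ∈ L F a b (12 + dg j) := by
  interval_cases j
  · exact q30_0 h a b
  · exact q30_1 h a b
  · exact q30_2 h a b
  · exact q30_3 h a b
  · exact q30_4 h a b
  · exact q30_5 h a b
  · exact q30_6 h a b
  · exact q30_7 h a b
  · exact q30_8 h a b
  · exact q30_9 h a b
  · exact q30_10 h a b
  · exact q30_11 h a b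
  · exact q30_12 h a b
  · exact q30_13 h a b
  · exact q30_14 h a b
  · exact q30_15 h a b
  · exact q30_16 h a b
  · exact q30_17 h a b
  · exact q30_18 h a b
  · exact q30_19 h a b
  · exact q30_20 h a b
  · exact q30_21 h a b
  · exact q30_22 h a b
  · exact q30_23 h a b
  · exact q30_24 h a b
  · exact q30_25 h a b
  · exact q30_26 h a b
  · exact q30_27 h a b
  · exact q30_28 h a b
  · exact q30_29 h a b
  · exact (h.sq (w30 a b)).symm ▸ (L F a b 24).zero_mem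
  · exact (h.ac (w30 a b) (w31 a b)).symm ▸ (L F a b 24).neg_mem (q31_30 h a b)
  · exact (h.ac (w30 a b) (w32 a b)).symm ▸ (L F a b 24).neg_mem (q32_30 h a b)
  · exact (h.ac (w30 a b) (w33 a b)).symm ▸ (L F a b 24).neg_mem (q33_30 h a b)
  · exact (h.ac (w30 a b) (w34 a b)).symm ▸ (L F a b 25).neg_mem (q34_30 h a b)
  · exact (h.ac (w30 a b) (w35 a b)).symm ▸ (L F a b 25).neg_mem (q35_30 h a b)
  · exact (h.ac (w30 a b) (w36 a b)).symm ▸ (L F a b 25).neg_mem (q36_30 h a b)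
  · exact (h.ac (w30 a b) (w37 a b)).symm ▸ (L F a b 25).neg_mem (q37_30 h a b)
  · exact (h.ac (w30 a b) (w38 a b)).symm ▸ (L F a b 26).neg_mem (q38_30 h a b)
  · exact (h.ac (w30 a b) (w39 a b)).symm ▸ (L F a b 26).neg_mem (q39_30 h a b)
  · exact (h.ac (w30 a b) (w40 a b)).symm ▸ (L F a b 26).neg_mem (q40_30 h a b)
theorem row31 (h : Eng A) (a b : A) (j : ℕ) (hj : j < 41) : w31 a b * wv a b j ∈ L F a b (12 + dg j) := by
  interval_cases j
  · exact q31_0 h a b
  · exact q31_1 h a b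
  · exact q31_2 h a b
  · exact q31_3 h a b
  · exact q31_4 h a b
  · exact q31_5 h a b
  · exact q31_6 h a b
  · exact q31_7 h a b
  · exact q31_8 h a b
  · exact q31_9 h a b
  · exact q31_10 h a b
  · exact q31_11 h a b
  · exact q31_12 h a b
  · exact q31_13 h a b
  · exact q31_14 h a b
  · exact q31_15 h a b
  · exact q31_16 h a b
  · exact q31_17 h a b
  · exact q31_18 h a b
  · exact q31_19 h a b
  · exact q31_20 h a b
  · exact q31_21 h a b
  · exact q31_22 h a b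
  · exact q31_23 h a b
  · exact q31_24 h a b
  · exact q31_25 h a b
  · exact q31_26 h a b
  · exact q31_27 h a b
  · exact q31_28 h a b
  · exact q31_29 h a b
  · exact q31_30 h a b
  · exact (h.sq (w31 a b)).symm ▸ (L F a b 24).zero_mem
  · exact (h.ac (w31 a b) (w32 a b)).symm ▸ (L F a b 24).neg_mem (q32_31 h a b)
  · exact (h.ac (w31 a b) (w33 a b)).symm ▸ (L F a b 24).neg_mem (q33_31 h a b)
  · exact (h.ac (w31 a b) (w34 a b)).symm ▸ (L F a b 25).neg_mem (q34_31 h a b)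
  · exact (h.ac (w31 a b) (w35 a b)).symm ▸ (L F a b 25).neg_mem (q35_31 h a b)
  · exact (h.ac (w31 a b) (w36 a b)).symm ▸ (L F a b 25).neg_mem (q36_31 h a b)
  · exact (h.ac (w31 a b) (w37 a b)).symm ▸ (L F a b 25).neg_mem (q37_31 h a b)
  · exact (h.ac (w31 a b) (w38 a b)).symm ▸ (L F a b 26).neg_mem (q38_31 h a b)
  · exact (h.ac (w31 a b) (w39 a b)).symm ▸ (L F a b 26).neg_mem (q39_31 h a b)
  · exact (h.ac (w31 a b) (w40 a b)).symm ▸ (L F a b 26).neg_mem (q40_31 h a b)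
theorem row32 (h : Eng A) (a b : A) (j : ℕ) (hj : j < 41) : w32 a b * wv a b j ∈ L F a b (12 + dg j) := by
  interval_cases j
  · exact q32_0 h a b
  · exact q32_1 h a b
  · exact q32_2 h a b
  · exact q32_3 h a b
  · exact q32_4 h a b
  · exact q32_5 h a b
  · exact q32_6 h a b
  · exact q32_7 h a b
  · exact q32_8 h a b
  · exact q32_9 h a b
  · exact q32_10 h a b
  · exact q32_11 h a b
  · exact q32_12 h a b
  · exact q32_13 h a b
  · exact q32_14 h a b
  · exact q32_15 h a b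
  · exact q32_16 h a b
  · exact q32_17 h a b
  · exact q32_18 h a b
  · exact q32_19 h a b
  · exact q32_20 h a b
  · exact q32_21 h a b
  · exact q32_22 h a b
  · exact q32_23 h a b
  · exact q32_24 h a b
  · exact q32_25 h a b
  · exact q32_26 h a b
  · exact q32_27 h a b
  · exact q32_28 h a b
  · exact q32_29 h a b
  · exact q32_30 h a b
  · exact q32_31 h a b
  · exact (h.sq (w32 a b)).symm ▸ (L F a b 24).zero_mem
  · exact (h.ac (w32 a b) (w33 a b)).symm ▸ (L F a b 24).neg_mem (q33_32 h a b)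
  · exact (h.ac (w32 a b) (w34 a b)).symm ▸ (L F a b 25).neg_mem (q34_32 h a b)
  · exact (h.ac (w32 a b) (w35 a b)).symm ▸ (L F a b 25).neg_mem (q35_32 h a b)
  · exact (h.ac (w32 a b) (w36 a b)).symm ▸ (L F a b 25).neg_mem (q36_32 h a b)
  · exact (h.ac (w32 a b) (w37 a b)).symm ▸ (L F a b 25).neg_mem (q37_32 h a b)
  · exact (h.ac (w32 a b) (w38 a b)).symm ▸ (L F a b 26).neg_mem (q38_32 h a b)
  · exact (h.ac (w32 a b) (w39 a b)).symm ▸ (L F a b 26).neg_mem (q39_32 h a b)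
  · exact (h.ac (w32 a b) (w40 a b)).symm ▸ (L F a b 26).neg_mem (q40_32 h a b)
theorem row33 (h : Eng A) (a b : A) (j : ℕ) (hj : j < 41) : w33 a b * wv a b j ∈ L F a b (12 + dg j) := by
  interval_cases j
  · exact q33_0 h a b
  · exact q33_1 h a b
  · exact q33_2 h a b
  · exact q33_3 h a b
  · exact q33_4 h a b
  · exact q33_5 h a b
  · exact q33_6 h a b
  · exact q33_7 h a b
  · exact q33_8 h a b
  · exact q33_9 h a b
  · exact q33_10 h a b
  · exact q33_11 h a b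
  · exact q33_12 h a b
  · exact q33_13 h a b
  · exact q33_14 h a b
  · exact q33_15 h a b
  · exact q33_16 h a b
  · exact q33_17 h a b
  · exact q33_18 h a b
  · exact q33_19 h a b
  · exact q33_20 h a b
  · exact q33_21 h a b
  · exact q33_22 h a b
  · exact q33_23 h a b
  · exact q33_24 h a b
  · exact q33_25 h a b
  · exact q33_26 h a b
  · exact q33_27 h a b
  · exact q33_28 h a b
  · exact q33_29 h a b
  · exact q33_30 h a b
  · exact q33_31 h a b
  · exact q33_32 h a b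
  · exact (h.sq (w33 a b)).symm ▸ (L F a b 24).zero_mem
  · exact (h.ac (w33 a b) (w34 a b)).symm ▸ (L F a b 25).neg_mem (q34_33 h a b)
  · exact (h.ac (w33 a b) (w35 a b)).symm ▸ (L F a b 25).neg_mem (q35_33 h a b)
  · exact (h.ac (w33 a b) (w36 a b)).symm ▸ (L F a b 25).neg_mem (q36_33 h a b)
  · exact (h.ac (w33 a b) (w37 a b)).symm ▸ (L F a b 25).neg_mem (q37_33 h a b)
  · exact (h.ac (w33 a b) (w38 a b)).symm ▸ (L F a b 26).neg_mem (q38_33 h a b)
  · exact (h.ac (w33 a b) (w39 a b)).symm ▸ (L F a b 26).neg_mem (q39_33 h a b)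
  · exact (h.ac (w33 a b) (w40 a b)).symm ▸ (L F a b 26).neg_mem (q40_33 h a b)
theorem row34 (h : Eng A) (a b : A) (j : ℕ) (hj : j < 41) : w34 a b * wv a b j ∈ L F a b (13 + dg j) := by
  interval_cases j
  · exact q34_0 h a b
  · exact q34_1 h a b
  · exact q34_2 h a b
  · exact q34_3 h a b
  · exact q34_4 h a b
  · exact q34_5 h a b
  · exact q34_6 h a b
  · exact q34_7 h a b
  · exact q34_8 h a b
  · exact q34_9 h a b
  · exact q34_10 h a b
  · exact q34_11 h a b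
  · exact q34_12 h a b
  · exact q34_13 h a b
  · exact q34_14 h a b
  · exact q34_15 h a b
  · exact q34_16 h a b
  · exact q34_17 h a b
  · exact q34_18 h a b
  · exact q34_19 h a b
  · exact q34_20 h a b
  · exact q34_21 h a b
  · exact q34_22 h a b
  · exact q34_23 h a b
  · exact q34_24 h a b
  · exact q34_25 h a b
  · exact q34_26 h a b
  · exact q34_27 h a b
  · exact q34_28 h a b
  · exact q34_29 h a b
  · exact q34_30 h a b
  · exact q34_31 h a b
  · exact q34_32 h a b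
  · exact q34_33 h a b
  · exact (h.sq (w34 a b)).symm ▸ (L F a b 26).zero_mem
  · exact (h.ac (w34 a b) (w35 a b)).symm ▸ (L F a b 26).neg_mem (q35_34 h a b)
  · exact (h.ac (w34 a b) (w36 a b)).symm ▸ (L F a b 26).neg_mem (q36_34 h a b)
  · exact (h.ac (w34 a b) (w37 a b)).symm ▸ (L F a b 26).neg_mem (q37_34 h a b)
  · exact (h.ac (w34 a b) (w38 a b)).symm ▸ (L F a b 27).neg_mem (q38_34 h a b)
  · exact (h.ac (w34 a b) (w39 a b)).symm ▸ (L F a b 27).neg_mem (q39_34 h a b)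
  · exact (h.ac (w34 a b) (w40 a b)).symm ▸ (L F a b 27).neg_mem (q40_34 h a b)
theorem row35 (h : Eng A) (a b : A) (j : ℕ) (hj : j < 41) : w35 a b * wv a b j ∈ L F a b (13 + dg j) := by
  interval_cases j
  · exact q35_0 h a b
  · exact q35_1 h a b
  · exact q35_2 h a b
  · exact q35_3 h a b
  · exact q35_4 h a b
  · exact q35_5 h a b
  · exact q35_6 h a b
  · exact q35_7 h a b
  · exact q35_8 h a b
  · exact q35_9 h a b
  · exact q35_10 h a b
  · exact q35_11 h a b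
  · exact q35_12 h a b
  · exact q35_13 h a b
  · exact q35_14 h a b
  · exact q35_15 h a b
  · exact q35_16 h a b
  · exact q35_17 h a b
  · exact q35_18 h a b
  · exact q35_19 h a b
  · exact q35_20 h a b
  · exact q35_21 h a b
  · exact q35_22 h a b
  · exact q35_23 h a b
  · exact q35_24 h a b
  · exact q35_25 h a b
  · exact q35_26 h a b
  · exact q35_27 h a b
  · exact q35_28 h a b
  · exact q35_29 h a b
  · exact q35_30 h a b
  · exact q35_31 h a b
  · exact q35_32 h a b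
  · exact q35_33 h a b
  · exact q35_34 h a b
  · exact (h.sq (w35 a b)).symm ▸ (L F a b 26).zero_mem
  · exact (h.ac (w35 a b) (w36 a b)).symm ▸ (L F a b 26).neg_mem (q36_35 h a b)
  · exact (h.ac (w35 a b) (w37 a b)).symm ▸ (L F a b 26).neg_mem (q37_35 h a b)
  · exact (h.ac (w35 a b) (w38 a b)).symm ▸ (L F a b 27).neg_mem (q38_35 h a b)
  · exact (h.ac (w35 a b) (w39 a b)).symm ▸ (L F a b 27).neg_mem (q39_35 h a b)
  · exact (h.ac (w35 a b) (w40 a b)).symm ▸ (L F a b 27).neg_mem (q40_35 h a b)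
theorem row36 (h : Eng A) (a b : A) (j : ℕ) (hj : j < 41) : w36 a b * wv a b j ∈ L F a b (13 + dg j) := by
  interval_cases j
  · exact q36_0 h a b
  · exact q36_1 h a b
  · exact q36_2 h a b
  · exact q36_3 h a b
  · exact q36_4 h a b
  · exact q36_5 h a b
  · exact q36_6 h a b
  · exact q36_7 h a b
  · exact q36_8 h a b
  · exact q36_9 h a b
  · exact q36_10 h a b
  · exact q36_11 h a b
  · exact q36_12 h a b
  · exact q36_13 h a b
  · exact q36_14 h a b
  · exact q36_15 h a b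
  · exact q36_16 h a b
  · exact q36_17 h a b
  · exact q36_18 h a b
  · exact q36_19 h a b
  · exact q36_20 h a b
  · exact q36_21 h a b
  · exact q36_22 h a b
  · exact q36_23 h a b
  · exact q36_24 h a b
  · exact q36_25 h a b
  · exact q36_26 h a b
  · exact q36_27 h a b
  · exact q36_28 h a b
  · exact q36_29 h a b
  · exact q36_30 h a b
  · exact q36_31 h a b
  · exact q36_32 h a b
  · exact q36_33 h a b
  · exact q36_34 h a b
  · exact q36_35 h a b
  · exact (h.sq (w36 a b)).symm ▸ (L F a b 26).zero_mem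
  · exact (h.ac (w36 a b) (w37 a b)).symm ▸ (L F a b 26).neg_mem (q37_36 h a b)
  · exact (h.ac (w36 a b) (w38 a b)).symm ▸ (L F a b 27).neg_mem (q38_36 h a b)
  · exact (h.ac (w36 a b) (w39 a b)).symm ▸ (L F a b 27).neg_mem (q39_36 h a b)
  · exact (h.ac (w36 a b) (w40 a b)).symm ▸ (L F a b 27).neg_mem (q40_36 h a b)
theorem row37 (h : Eng A) (a b : A) (j : ℕ) (hj : j < 41) : w37 a b * wv a b j ∈ L F a b (13 + dg j) := by
  interval_cases j
  · exact q37_0 h a b
  · exact q37_1 h a b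
  · exact q37_2 h a b
  · exact q37_3 h a b
  · exact q37_4 h a b
  · exact q37_5 h a b
  · exact q37_6 h a b
  · exact q37_7 h a b
  · exact q37_8 h a b
  · exact q37_9 h a b
  · exact q37_10 h a b
  · exact q37_11 h a b
  · exact q37_12 h a b
  · exact q37_13 h a b
  · exact q37_14 h a b
  · exact q37_15 h a b
  · exact q37_16 h a b
  · exact q37_17 h a b
  · exact q37_18 h a b
  · exact q37_19 h a b
  · exact q37_20 h a b
  · exact q37_21 h a b
  · exact q37_22 h a b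
  · exact q37_23 h a b
  · exact q37_24 h a b
  · exact q37_25 h a b
  · exact q37_26 h a b
  · exact q37_27 h a b
  · exact q37_28 h a b
  · exact q37_29 h a b
  · exact q37_30 h a b
  · exact q37_31 h a b
  · exact q37_32 h a b
  · exact q37_33 h a b
  · exact q37_34 h a b
  · exact q37_35 h a b
  · exact q37_36 h a b
  · exact (h.sq (w37 a b)).symm ▸ (L F a b 26).zero_mem
  · exact (h.ac (w37 a b) (w38 a b)).symm ▸ (L F a b 27).neg_mem (q38_37 h a b)
  · exact (h.ac (w37 a b) (w39 a b)).symm ▸ (L F a b 27).neg_mem (q39_37 h a b)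
  · exact (h.ac (w37 a b) (w40 a b)).symm ▸ (L F a b 27).neg_mem (q40_37 h a b)
theorem row38 (h : Eng A) (a b : A) (j : ℕ) (hj : j < 41) : w38 a b * wv a b j ∈ L F a b (14 + dg j) := by
  interval_cases j
  · exact q38_0 h a b
  · exact q38_1 h a b
  · exact q38_2 h a b
  · exact q38_3 h a b
  · exact q38_4 h a b
  · exact q38_5 h a b
  · exact q38_6 h a b
  · exact q38_7 h a b
  · exact q38_8 h a b
  · exact q38_9 h a b
  · exact q38_10 h a b
  · exact q38_11 h a b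
  · exact q38_12 h a b
  · exact q38_13 h a b
  · exact q38_14 h a b
  · exact q38_15 h a b
  · exact q38_16 h a b
  · exact q38_17 h a b
  · exact q38_18 h a b
  · exact q38_19 h a b
  · exact q38_20 h a b
  · exact q38_21 h a b
  · exact q38_22 h a b
  · exact q38_23 h a b
  · exact q38_24 h a b
  · exact q38_25 h a b
  · exact q38_26 h a b
  · exact q38_27 h a b
  · exact q38_28 h a b
  · exact q38_29 h a b
  · exact q38_30 h a b
  · exact q38_31 h a b
  · exact q38_32 h a b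
  · exact q38_33 h a b
  · exact q38_34 h a b
  · exact q38_35 h a b
  · exact q38_36 h a b
  · exact q38_37 h a b
  · exact (h.sq (w38 a b)).symm ▸ (L F a b 28).zero_mem
  · exact (h.ac (w38 a b) (w39 a b)).symm ▸ (L F a b 28).neg_mem (q39_38 h a b)
  · exact (h.ac (w38 a b) (w40 a b)).symm ▸ (L F a b 28).neg_mem (q40_38 h a b)
theorem row39 (h : Eng A) (a b : A) (j : ℕ) (hj : j < 41) : w39 a b * wv a b j ∈ L F a b (14 + dg j) := by
  interval_cases j
  · exact q39_0 h a b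
  · exact q39_1 h a b
  · exact q39_2 h a b
  · exact q39_3 h a b
  · exact q39_4 h a b
  · exact q39_5 h a b
  · exact q39_6 h a b
  · exact q39_7 h a b
  · exact q39_8 h a b
  · exact q39_9 h a b
  · exact q39_10 h a b
  · exact q39_11 h a b
  · exact q39_12 h a b
  · exact q39_13 h a b
  · exact q39_14 h a b
  · exact q39_15 h a b
  · exact q39_16 h a b
  · exact q39_17 h a b
  · exact q39_18 h a b
  · exact q39_19 h a b
  · exact q39_20 h a b
  · exact q39_21 h a b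
  · exact q39_22 h a b
  · exact q39_23 h a b
  · exact q39_24 h a b
  · exact q39_25 h a b
  · exact q39_26 h a b
  · exact q39_27 h a b
  · exact q39_28 h a b
  · exact q39_29 h a b
  · exact q39_30 h a b
  · exact q39_31 h a b
  · exact q39_32 h a b
  · exact q39_33 h a b
  · exact q39_34 h a b
  · exact q39_35 h a b
  · exact q39_36 h a b
  · exact q39_37 h a b
  · exact q39_38 h a b
  · exact (h.sq (w39 a b)).symm ▸ (L F a b 28).zero_mem
  · exact (h.ac (w39 a b) (w40 a b)).symm ▸ (L F a b 28).neg_mem (q40_39 h a b)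
theorem row40 (h : Eng A) (a b : A) (j : ℕ) (hj : j < 41) : w40 a b * wv a b j ∈ L F a b (14 + dg j) := by
  interval_cases j
  · exact q40_0 h a b
  · exact q40_1 h a b
  · exact q40_2 h a b
  · exact q40_3 h a b
  · exact q40_4 h a b
  · exact q40_5 h a b
  · exact q40_6 h a b
  · exact q40_7 h a b
  · exact q40_8 h a b
  · exact q40_9 h a b
  · exact q40_10 h a b
  · exact q40_11 h a b
  · exact q40_12 h a b
  · exact q40_13 h a b
  · exact q40_14 h a b
  · exact q40_15 h a b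
  · exact q40_16 h a b
  · exact q40_17 h a b
  · exact q40_18 h a b
  · exact q40_19 h a b
  · exact q40_20 h a b
  · exact q40_21 h a b
  · exact q40_22 h a b
  · exact q40_23 h a b
  · exact q40_24 h a b
  · exact q40_25 h a b
  · exact q40_26 h a b
  · exact q40_27 h a b
  · exact q40_28 h a b
  · exact q40_29 h a b
  · exact q40_30 h a b
  · exact q40_31 h a b
  · exact q40_32 h a b
  · exact q40_33 h a b
  · exact q40_34 h a b
  · exact q40_35 h a b
  · exact q40_36 h a b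
  · exact q40_37 h a b
  · exact q40_38 h a b
  · exact q40_39 h a b
  · exact (h.sq (w40 a b)).symm ▸ (L F a b 28).zero_mem

theorem rows (h : Eng A) (a b : A) (i j : ℕ) (hi : i < 41) (hj : j < 41) :
    wv a b i * wv a b j ∈ L F a b (dg i + dg j) := by
  interval_cases i
  · exact row0 h a b j hj
  · exact row1 h a b j hj
  · exact row2 h a b j hj
  · exact row3 h a b j hj
  · exact row4 h a b j hj
  · exact row5 h a b j hj
  · exact row6 h a b j hj
  · exact row7 h a b j hj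
  · exact row8 h a b j hj
  · exact row9 h a b j hj
  · exact row10 h a b j hj
  · exact row11 h a b j hj
  · exact row12 h a b j hj
  · exact row13 h a b j hj
  · exact row14 h a b j hj
  · exact row15 h a b j hj
  · exact row16 h a b j hj
  · exact row17 h a b j hj
  · exact row18 h a b j hj
  · exact row19 h a b j hj
  · exact row20 h a b j hj
  · exact row21 h a b j hj
  · exact row22 h a b j hj
  · exact row23 h a b j hj
  · exact row24 h a b j hj
  · exact row25 h a b j hj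
  · exact row26 h a b j hj
  · exact row27 h a b j hj
  · exact row28 h a b j hj
  · exact row29 h a b j hj
  · exact row30 h a b j hj
  · exact row31 h a b j hj
  · exact row32 h a b j hj
  · exact row33 h a b j hj
  · exact row34 h a b j hj
  · exact row35 h a b j hj
  · exact row36 h a b j hj
  · exact row37 h a b j hj
  · exact row38 h a b j hj
  · exact row39 h a b j hj
  · exact row40 h a b j hj

end Pool.Agent.H461R3.E3
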