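import Pool.Agent.H461R3.E3.ActTwo

set_option autoImplicit false
set_option linter.unusedSectionVars false

/-! Finitely generated solvable anticommutative 3-Engel algebras are nilpotent. -/

namespace Pool.Agent.H461R3.E3

universe u v w

variable {F : Type u} [Field F] {A : Type v} [NonUnitalNonAssocRing A] [Module F A]
variable [IsScalarTower F A A] [SMulCommClass F A A] {ι : Type w}

theorem ev_mem {J : Submodule F A} (hJ : ∀ u ∈ J, ∀ a : A, u * a ∈ J) (x : ι → A)
    (l : List ι) : ∀ m ∈ J, ev x m l ∈ J := by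
  induction l with
  | nil => intro m hm; exact hm
  | cons i l ih => intro m hm; rw [ev_cons]; exact ih _ (hJ m hm _)

/-- all words of length `k` and weight at least `W` map the ideal `I` to `J` -/
def ZJ (I J : Submodule F A) (x : ι → A) (wt : ι → ℕ) (W k : ℕ) : Prop :=
  ∀ l : List ι, l.length = k → W ≤ (l.map wt).sum → ∀ m ∈ I, ev x m l ∈ J

variable {I J : Submodule F A}

theorem ZJ_span (hI : ∀ u ∈ I, ∀ a : A, u * a ∈ I) (hJ : ∀ u ∈ J, ∀ a : A, u * a ∈ J)
    (hIJ : ∀ u ∈ I, ∀ v ∈ I, u * v ∈ J)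
    {x : ι → A} {wt : ι → ℕ} {W k : ℕ} (hZ : ZJ I J x wt W k) (p q : List ι)
    (hk : p.length + 1 + q.length = k) {n : ℕ} (hW : W ≤ (p.map wt).sum + n + (q.map wt).sum)
    {a : A} (ha : a ∈ P F x wt n ⊔ I) {m : A} (hm : m ∈ I) : ev x (ev x m p * a) q ∈ J := by
  obtain ⟨b, hb, c, hc, rfl⟩ := Submodule.mem_sup.1 ha
  rw [mul_add, ev_add]
  refine Submodule.add_mem _ ?_ ?_
  · unfold P at hb
    refine Submodule.span_induction (p := fun a _ => ev x (ev x m p * a) q ∈ J) ?_ ?_ ?_ ?_ hb
    · rintro a ⟨i, hi, rfl⟩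
      have := hZ (p ++ i :: q) (by simp; omega) (by simp; omega) m hm
      rwa [ev_append, ev_cons] at this
    · rw [mul_zero, ev_zero]; exact Submodule.zero_mem _
    · intro y z _ _ h1 h2
      rw [mul_add, ev_add]; exact Submodule.add_mem _ h1 h2
    · intro c y _ h1
      rw [mul_smul_comm, ev_smul]; exact Submodule.smul_mem _ _ h1
  · exact ev_mem hJ x q _ (hIJ _ (ev_mem hI x p m hm) _ hc)

theorem PJ_mul (hI : ∀ u ∈ I, ∀ a : A, u * a ∈ I) {x : ι → A} {wt : ι → ℕ}
    (hmul : ∀ i j, x i * x j ∈ P F x wt (wt i + wt j) ⊔ I)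
    {n : ℕ} {a : A} (ha : a ∈ P F x wt n ⊔ I) (j : ι) : a * x j ∈ P F x wt (n + wt j) ⊔ I := by
  obtain ⟨b, hb, c, hc, rfl⟩ := Submodule.mem_sup.1 ha
  rw [add_mul]
  refine Submodule.add_mem _ ?_ (Submodule.mem_sup_right (hI c hc _))
  unfold P at hb
  refine Submodule.span_induction (p := fun a _ => a * x j ∈ P F x wt (n + wt j) ⊔ I)
    ?_ ?_ ?_ ?_ hb
  · rintro a ⟨i, hi, rfl⟩
    refine (sup_le_sup_right (Submodule.span_mono ?_) I) (hmul i j)
    rintro b ⟨l, hl, rfl⟩
    exact ⟨l, by omega, rfl⟩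
  · rw [zero_mul]; exact Submodule.zero_mem _
  · intro y z _ _ h1 h2
    rw [add_mul]; exact Submodule.add_mem _ h1 h2
  · intro c y _ h1
    rw [smul_mul_assoc]; exact Submodule.smul_mem _ c h1

theorem swapJ (hA : Act A) (hI : ∀ u ∈ I, ∀ a : A, u * a ∈ I)
    (hJ : ∀ u ∈ J, ∀ a : A, u * a ∈ J) (hIJ : ∀ u ∈ I, ∀ v ∈ I, u * v ∈ J)
    {x : ι → A} {wt : ι → ℕ}
    (hmul : ∀ i j, x i * x j ∈ P F x wt (wt i + wt j) ⊔ I) {W k : ℕ}
    (h1 : ZJ I J x wt W (k + 2)) (h2 : ZJ I J x wt W (k + 1)) (p q : List ι) (a y z : ι)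
    (hk : p.length + q.length = k) (hW : W ≤ (p.map wt).sum + wt a + wt y + wt z +
      (q.map wt).sum) {m : A} (hm : m ∈ I) :
    ev x m (p ++ a :: y :: z :: q) + ev x m (p ++ a :: z :: y :: q) ∈ J := by
  have key := congrArg (fun u => ev x u q) (hA.sw (ev x m p) (x a) (x y) (x z))
  simp only [ev_add, ev_zero] at key
  have t1 : ev x (ev x m p * (x a * x y) * x z) q ∈ J := by
    have := ZJ_span hI hJ hIJ h1 p (z :: q) (by simp; omega) (n := wt a + wt y)
      (by simp; omega) (hmul a y) hm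
    rwa [ev_cons] at this
  have t2 : ev x (ev x m p * (x a * x z) * x y) q ∈ J := by
    have := ZJ_span hI hJ hIJ h1 p (y :: q) (by simp; omega) (n := wt a + wt z)
      (by simp; omega) (hmul a z) hm
    rwa [ev_cons] at this
  have t3 : ev x (ev x m p * (x a * x y * x z)) q ∈ J :=
    ZJ_span hI hJ hIJ h2 p q (by omega) (n := wt a + wt y + wt z) (by omega)
      (PJ_mul hI hmul (hmul a y) z) hm
  have t4 : ev x (ev x m p * (x a * x z * x y)) q ∈ J :=
    ZJ_span hI hJ hIJ h2 p q (by omega) (n := wt a + wt z + wt y) (by omega)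
      (PJ_mul hI hmul (hmul a z) y) hm
  rw [ev_append, ev_append]
  simp only [ev_cons]
  have t := Submodule.neg_mem _ (Submodule.add_mem _ (Submodule.add_mem _
    (Submodule.add_mem _ t1 t2) t3) t4)
  convert t using 1
  linear_combination (norm := abel) key

theorem dupJ (hA : Act A) (hI : ∀ u ∈ I, ∀ a : A, u * a ∈ I)
    (hJ : ∀ u ∈ J, ∀ a : A, u * a ∈ J) (hIJ : ∀ u ∈ I, ∀ v ∈ I, u * v ∈ J)
    {x : ι → A} {wt : ι → ℕ}
    (hmul : ∀ i j, x i * x j ∈ P F x wt (wt i + wt j) ⊔ I) {W k : ℕ}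
    (h1 : ZJ I J x wt W (k + 2)) (h2 : ZJ I J x wt W (k + 1)) (p q : List ι) (a y : ι)
    (hk : p.length + q.length = k) (hW : W ≤ (p.map wt).sum + wt a + wt y + wt y +
      (q.map wt).sum) {m : A} (hm : m ∈ I) :
    ev x m (p ++ a :: y :: y :: q) ∈ J := by
  have key := congrArg (fun u => ev x u q) (hA.dup (ev x m p) (x a) (x y))
  simp only [ev_add, ev_zero] at key
  have t1 : ev x (ev x m p * (x a * x y) * x y) q ∈ J := by
    have := ZJ_span hI hJ hIJ h1 p (y :: q) (by simp; omega) (n := wt a + wt y)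
      (by simp; omega) (hmul a y) hm
    rwa [ev_cons] at this
  have t3 : ev x (ev x m p * (x a * x y * x y)) q ∈ J :=
    ZJ_span hI hJ hIJ h2 p q (by omega) (n := wt a + wt y + wt y) (by omega)
      (PJ_mul hI hmul (hmul a y) y) hm
  rw [ev_append]
  simp only [ev_cons]
  have t := Submodule.neg_mem _ (Submodule.add_mem _ t1 t3)
  convert t using 1
  linear_combination (norm := abel) key

theorem dupJ_far (hA : Act A) (hI : ∀ u ∈ I, ∀ a : A, u * a ∈ I)
    (hJ : ∀ u ∈ J, ∀ a : A, u * a ∈ J) (hIJ : ∀ u ∈ I, ∀ v ∈ I, u * v ∈ J)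
    {x : ι → A} {wt : ι → ℕ}
    (hmul : ∀ i j, x i * x j ∈ P F x wt (wt i + wt j) ⊔ I) {W k : ℕ}
    (h1 : ZJ I J x wt W (k + 2)) (h2 : ZJ I J x wt W (k + 1)) {m : A} (hm : m ∈ I) (y : ι) :
    ∀ (n : ℕ) (r : List ι), r.length = n → ∀ (a : ι) (p q : List ι),
      p.length + r.length + q.length = k →
      W ≤ (p.map wt).sum + wt a + wt y + (r.map wt).sum + wt y + (q.map wt).sum →
      ev x m (p ++ a :: y :: (r ++ y :: q)) ∈ J := by
  intro n
  induction n with
  | zero =>
    intro r hr a p q hk hW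
    have hr' : r = [] := List.length_eq_zero_iff.1 hr
    subst hr'
    exact dupJ hA hI hJ hIJ hmul h1 h2 p q a y (by simpa using hk) (by simpa using hW) hm
  | succ n ih =>
    intro r hr a p q hk hW
    obtain ⟨z, r', rfl⟩ : ∃ z r', r = z :: r' := by
      cases r with
      | nil => simp at hr
      | cons z r' => exact ⟨z, r', rfl⟩
    simp only [List.length_cons, List.map_cons, List.sum_cons] at hr hk hW
    have e := swapJ hA hI hJ hIJ hmul h1 h2 p (r' ++ y :: q) a y z (by simp; omega)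
      (by simp; omega) hm
    rw [List.cons_append]
    have e2 := ih r' (by omega) z (p ++ [a]) q (by simp; omega) (by simp; omega)
    rw [List.append_assoc] at e2
    simp only [List.singleton_append] at e2
    exact (Submodule.add_mem_iff_left _ e2).1 e

theorem coreJ [Fintype ι] (hA : Act A) (hI : ∀ u ∈ I, ∀ a : A, u * a ∈ I)
    (hJ : ∀ u ∈ J, ∀ a : A, u * a ∈ J) (hIJ : ∀ u ∈ I, ∀ v ∈ I, u * v ∈ J)
    {x : ι → A} {wt : ι → ℕ} {N : ℕ} (hN : ∀ i, wt i ≤ N)
    (hmul : ∀ i j, x i * x j ∈ P F x wt (wt i + wt j) ⊔ I) {W : ℕ}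
    (hW : (Fintype.card ι + 1) * N < W) : ∀ k, ZJ I J x wt W k := by
  have bound : ∀ l : List ι, (l.map wt).sum ≤ l.length * N := by
    intro l
    induction l with
    | nil => simp
    | cons a l ih =>
      simp only [List.map_cons, List.sum_cons, List.length_cons]
      have := hN a
      nlinarith
  intro k
  induction k using Nat.strong_induction_on with
  | _ k ih =>
    intro l hl hw m hm
    have hk : Fintype.card ι + 1 < k := by
      by_contra hk
      push Not at hk
      have h1 := bound l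
      have h2 : l.length * N ≤ (Fintype.card ι + 1) * N := Nat.mul_le_mul_right N (by omega)
      omega
    cases l with
    | nil => simp at hl; omega
    | cons a t =>
      simp only [List.length_cons] at hl
      have hnd : ¬ t.Nodup := by
        intro hn
        have := hn.length_le_card
        omega
      obtain ⟨p, y, r, q, rfl⟩ := exists_dup t hnd
      simp only [List.length_append, List.length_cons] at hl
      simp only [List.map_cons, List.map_append, List.sum_cons, List.sum_append] at hw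
      have h1 := ih ((p.length + r.length + q.length) + 2) (by omega)
      have h2 := ih ((p.length + r.length + q.length) + 1) (by omega)
      rcases List.eq_nil_or_concat p with rfl | ⟨p', b, rfl⟩
      · simp only [List.length_nil, List.map_nil, List.sum_nil] at *
        have := dupJ_far hA hI hJ hIJ hmul h1 h2 hm y r.length r rfl a [] q (by simp)
          (by simp; omega)
        simpa using this
      · simp only [List.length_append, List.length_singleton, List.concat_eq_append] at *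
        simp only [List.map_append, List.map_cons, List.map_nil, List.sum_append, List.sum_cons,
          List.sum_nil] at hw
        have := dupJ_far hA hI hJ hIJ hmul h1 h2 hm y r.length r rfl b (a :: p') q (by simp)
          (by simp; omega)
        simpa using this

theorem lettersJ (hI : ∀ u ∈ I, ∀ a : A, u * a ∈ I) (hJ : ∀ u ∈ J, ∀ a : A, u * a ∈ J)
    (hIJ : ∀ u ∈ I, ∀ v ∈ I, u * v ∈ J) (x : ι → A) {K : ℕ}
    (hZ : ∀ l : List ι, l.length = K → ∀ m ∈ I, ev x m l ∈ J)
    (hsp : Submodule.span F (Set.range x) ⊔ I = ⊤) {m : A} (hm : m ∈ I) :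
    ∀ (l : List A) (p : List ι), p.length + l.length = K →
      ev (fun a : A => a) (ev x m p) l ∈ J := by
  intro l
  induction l with
  | nil =>
    intro p hp
    rw [ev_nil]
    exact hZ p (by simpa using hp) m hm
  | cons e l ih =>
    intro p hp
    rw [ev_cons]
    have he : e ∈ Submodule.span F (Set.range x) ⊔ I := by rw [hsp]; exact Submodule.mem_top
    obtain ⟨b, hb, c, hc, rfl⟩ := Submodule.mem_sup.1 he
    rw [mul_add, ev_add]
    refine Submodule.add_mem _ ?_
      (ev_mem hJ (fun a : A => a) l _ (hIJ _ (ev_mem hI x p m hm) _ hc))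
    refine Submodule.span_induction
      (p := fun e _ => ev (fun a : A => a) (ev x m p * e) l ∈ J) ?_ ?_ ?_ ?_ hb
    · rintro e ⟨i, rfl⟩
      have := ih (p ++ [i]) (by simp at hp ⊢; omega)
      rwa [ev_append, ev_cons, ev_nil] at this
    · rw [mul_zero, ev_zero]; exact Submodule.zero_mem _
    · intro y z _ _ h1 h2
      rw [mul_add, ev_add]; exact Submodule.add_mem _ h1 h2
    · intro c y _ h1
      rw [mul_smul_comm, ev_smul]; exact Submodule.smul_mem _ _ h1

theorem isProd_finite {S : Set A} (hS : S.Finite) : ∀ n, {x : A | IsProd S n x}.Finite := by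
  intro n
  induction n using Nat.strong_induction_on with
  | _ n ih =>
    have hsub : {x : A | IsProd S n x} ⊆
        S ∪ ⋃ m ∈ Finset.range n, ⋃ k ∈ Finset.range n,
          Set.image2 (· * ·) {x : A | IsProd S m x} {x : A | IsProd S k x} := by
      intro x hx
      rcases hx with hx | ⟨hy, hz⟩
      · exact Or.inl hx
      · rename_i m k y z
        refine Or.inr ?_
        have h1 := isProd_pos hy
        have h2 := isProd_pos hz
        simp only [Set.mem_iUnion]
        exact ⟨m, Finset.mem_range.2 (by omega), k, Finset.mem_range.2 (by omega),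
          Set.mem_image2_of_mem hy hz⟩
    refine Set.Finite.subset (hS.union ?_) hsub
    refine Set.Finite.biUnion (Finset.finite_toSet _) fun m hm => ?_
    refine Set.Finite.biUnion (Finset.finite_toSet _) fun k hk => ?_
    exact Set.Finite.image2 _ (ih m (Finset.mem_range.1 (Finset.mem_coe.1 hm)))
      (ih k (Finset.mem_range.1 (Finset.mem_coe.1 hk)))

theorem adjoin_span {S : Set A} {x : A} (hx : x ∈ NonUnitalAlgebra.adjoin F S) :
    x ∈ Submodule.span F {y : A | ∃ k, IsProd S k y} := by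
  induction hx using NonUnitalAlgebra.adjoin_induction with
  | mem x hx => exact Submodule.subset_span ⟨1, IsProd.base hx⟩
  | add x y _ _ h1 h2 => exact Submodule.add_mem _ h1 h2
  | zero => exact Submodule.zero_mem _
  | mul x y _ _ h1 h2 =>
    refine Submodule.span_induction
      (p := fun x _ => x * y ∈ Submodule.span F {y : A | ∃ k, IsProd S k y}) ?_ ?_ ?_ ?_ h1
    · rintro x ⟨k, hk⟩
      refine Submodule.span_induction
        (p := fun y _ => x * y ∈ Submodule.span F {y : A | ∃ k, IsProd S k y}) ?_ ?_ ?_ ?_ h2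
      · rintro y ⟨l, hl⟩
        exact Submodule.subset_span ⟨k + l, IsProd.mul hk hl⟩
      · rw [mul_zero]; exact Submodule.zero_mem _
      · intro y z _ _ h1 h2
        rw [mul_add]; exact Submodule.add_mem _ h1 h2
      · intro c y _ h1
        rw [mul_smul_comm]; exact Submodule.smul_mem _ c h1
    · rw [zero_mul]; exact Submodule.zero_mem _
    · intro y z _ _ h1 h2
      rw [add_mul]; exact Submodule.add_mem _ h1 h2
    · intro c y _ h1
      rw [smul_mul_assoc]; exact Submodule.smul_mem _ c h1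
  | smul r x _ h1 => exact Submodule.smul_mem _ r h1

theorem isProd_univ {S : Set A} {n : ℕ} {x : A} (h : IsProd S n x) :
    IsProd (Set.univ : Set A) n x := by
  induction h with
  | base _ => exact IsProd.base (Set.mem_univ _)
  | mul _ _ h1 h2 => exact IsProd.mul h1 h2

theorem chain (h0 : Anticommutative A) {N : ℕ} (hN1 : 1 ≤ N)
    (hN : ∀ n, N ≤ n → ∀ x : A, IsProd (Set.univ : Set A) n x → x ∈ I) :
    ∀ k n, N * 2 ^ k ≤ n → ∀ x : A, IsProd (Set.univ : Set A) n x →
      ∃ m ∈ I, ∃ l : List A, l.length = k ∧ x = ev (fun a : A => a) m l := by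
  have ac : ∀ x y : A, x * y = -(y * x) := by
    intro x y
    have h2 := h0 (x + y)
    rw [add_mul, mul_add, mul_add, h0 x, h0 y, zero_add, add_zero] at h2
    exact eq_neg_of_add_eq_zero_left h2
  intro k
  induction k with
  | zero =>
    intro n hn x hx
    exact ⟨x, hN n (by simpa using hn) x hx, [], rfl, rfl⟩
  | succ k ih =>
    intro n hn x hx
    have h2k : 1 ≤ 2 ^ k := Nat.one_le_two_pow
    have hNk : 1 ≤ N * 2 ^ k := Nat.mul_pos hN1 h2k
    rw [pow_succ, ← mul_assoc] at hn
    cases hx with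
    | base _ => omega
    | @mul m' n' y z hy hz =>
      by_cases hm : N * 2 ^ k ≤ m'
      · obtain ⟨m, hm, l, hl, rfl⟩ := ih m' hm y hy
        exact ⟨m, hm, l ++ [z], by simp [hl], by rw [ev_append]; rfl⟩
      · obtain ⟨m, hm, l, hl, rfl⟩ := ih n' (by omega) z hz
        refine ⟨-m, Submodule.neg_mem _ hm, l ++ [y], by simp [hl], ?_⟩
        rw [ev_append, ev_neg, ac]
        simp [ev]

theorem step (hA : Act A) (h0 : Anticommutative A) {S : Set A} (hS : S.Finite)
    (hgen : NonUnitalAlgebra.adjoin F S = ⊤)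
    (hI : ∀ u ∈ I, ∀ a : A, u * a ∈ I) (hJ : ∀ u ∈ J, ∀ a : A, u * a ∈ J)
    (hIJ : ∀ u ∈ I, ∀ v ∈ I, u * v ∈ J) {N : ℕ} (hN1 : 1 ≤ N)
    (hN : ∀ n, N ≤ n → ∀ x : A, IsProd (Set.univ : Set A) n x → x ∈ I) :
    ∃ N', 1 ≤ N' ∧ ∀ n, N' ≤ n → ∀ x : A, IsProd (Set.univ : Set A) n x → x ∈ J := by
  classical
  haveI : ∀ n, Fintype {x : A | IsProd S n x} := fun n => (isProd_finite hS n).fintype
  let ι := Σ n : Fin N, {x : A | IsProd S n x}
  let x : ι → A := fun i => i.2.1
  let wt : ι → ℕ := fun i => i.1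
  have hx : ∀ i : ι, IsProd S (wt i) (x i) := fun i => i.2.2
  have hspan : ∀ k y, IsProd S k y → y ∈ P F x wt k ⊔ I := by
    intro k y hy
    by_cases hk : k < N
    · exact Submodule.mem_sup_left (Submodule.subset_span ⟨(⟨⟨k, hk⟩, ⟨y, hy⟩⟩ : ι), le_rfl, rfl⟩)
    · exact Submodule.mem_sup_right (hN k (by omega) y (isProd_univ hy))
  have hmul : ∀ i j, x i * x j ∈ P F x wt (wt i + wt j) ⊔ I := fun i j =>
    hspan _ _ (IsProd.mul (hx i) (hx j))
  have hsp : Submodule.span F (Set.range x) ⊔ I = ⊤ := by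
    rw [eq_top_iff]
    intro a _
    have h1 : a ∈ NonUnitalAlgebra.adjoin F S := by rw [hgen]; exact NonUnitalAlgebra.mem_top
    have h2 := adjoin_span h1
    refine (Submodule.span_le.2 ?_) h2
    rintro y ⟨k, hy⟩
    refine (sup_le_sup_right (Submodule.span_mono ?_) I) (hspan k y hy)
    rintro b ⟨i, _, rfl⟩
    exact ⟨i, rfl⟩
  let K := (Fintype.card ι + 1) * N + 1
  have hZ : ∀ l : List ι, l.length = K → ∀ m ∈ I, ev x m l ∈ J := by
    intro l hl m hm
    refine coreJ hA hI hJ hIJ (N := N) (fun i => ?_) hmul (W := K) (by simp only [K]; omega) K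
      l hl ?_ m hm
    · have := i.1.2; simp only [wt]; omega
    · have := sum_ge (wt := wt) (fun i => isProd_pos (hx i)) l
      omega
  refine ⟨N * 2 ^ K, Nat.mul_pos hN1 Nat.one_le_two_pow, ?_⟩
  intro n hn y hy
  obtain ⟨m, hm, l, hl, rfl⟩ := chain h0 hN1 hN K n hn y hy
  exact lettersJ hI hJ hIJ x hZ hsp hm l [] (by simpa using hl)

/-- Finitely generated solvable anticommutative 3-Engel algebras are nilpotent. -/
theorem solv (hF : ∃ m : F, m ≠ 0 ∧ m ≠ 1) (h0 : Anticommutative A) (h1 : ThreeEngel A)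
    {S : Set A} (hS : S.Finite) (hgen : NonUnitalAlgebra.adjoin F S = ⊤)
    (I : ℕ → Submodule F A) (hI : ∀ j, ∀ u ∈ I j, ∀ a : A, u * a ∈ I j)
    (hsol : ∀ j, ∀ u ∈ I j, ∀ v ∈ I j, u * v ∈ I (j + 1)) (htop : I 0 = ⊤) :
    ∀ k, ∃ N, 1 ≤ N ∧ ∀ n, N ≤ n → ∀ x : A, IsProd (Set.univ : Set A) n x → x ∈ I k := by
  have hA := act_of (F := F) hF h0 h1
  intro k
  induction k with
  | zero => exact ⟨1, le_rfl, fun n _ x _ => by rw [htop]; exact Submodule.mem_top⟩
  | succ k ih =>
    obtain ⟨N, hN1, hN⟩ := ih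
    exact step hA h0 hS hgen (hI k) (hI (k + 1)) (hsol k) hN1 hN

end Pool.Agent.H461R3.E3
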